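import Mathlib

/-
EWD, shared definitions of the abstract part (helper81).
`Calc` is the Dirichlet calculus of Lipschitz functions on a surface: a finite measure on a
parameter space `Om`, and two curves `px w`, `py w` through the point `pt w` whose velocities are an
orthonormal frame. All rules of calculus follow from the one variable rules for `HasDerivAt`.
-/

open MeasureTheory Set Filter Topology
open scoped ENNReal NNReal ContDiff

noncomputable section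

namespace Pool.Agent.EWD

/-- the parameter space of the pieces of the surface -/
abbrev Om : Type := ℕ × EuclideanSpace ℝ (Fin 2)

/-- `u` is Lipschitz -/
def Lip {M : Type} [MetricSpace M] (u : M → ℝ) : Prop := ∃ L : ℝ≥0, LipschitzWith L u

/-- a closed curve of length `2π` with antipodal points at distance at least `π` -/
structure Bd {M : Type} [MetricSpace M] (γ : ℝ → M) : Prop where
  lip : LipschitzWith 1 γ
  per : ∀ t, γ (t + 2 * Real.pi) = γ t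
  anti : ∀ t, Real.pi ≤ dist (γ t) (γ (t + Real.pi))

/-- `u` takes opposite values at opposite points of the curve `γ` -/
def OddB {M : Type} (γ : ℝ → M) (u : M → ℝ) : Prop := ∀ t, u (γ (t + Real.pi)) = -u (γ t)

/-- Dirichlet calculus on a surface with boundary curve `γ` -/
structure Calc (M : Type) [MetricSpace M] (γ : ℝ → M) where
  μ : Measure Om
  px : Om → ℝ → M
  py : Om → ℝ → M
  sg : ℝ
  same : ∀ o, py o 0 = px o 0
  fin : IsFiniteMeasure μ
  pm : sg = 1 ∨ sg = -1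
  mpt : ∀ u : M → ℝ, Lip u → AEMeasurable (fun o => u (px o 0)) μ
  mgx : ∀ u : M → ℝ, Lip u → AEMeasurable (fun o => deriv (fun s => u (px o s)) 0) μ
  mgy : ∀ u : M → ℝ, Lip u → AEMeasurable (fun o => deriv (fun s => u (py o s)) 0) μ
  dif : ∀ u : M → ℝ, Lip u → ∀ᵐ o ∂μ, DifferentiableAt ℝ (fun s => u (px o s)) 0 ∧
    DifferentiableAt ℝ (fun s => u (py o s)) 0
  bound : ∀ (u : M → ℝ) (L : ℝ≥0), LipschitzWith L u → ∀ᵐ o ∂μ,
    deriv (fun s => u (px o s)) 0 ^ 2 + deriv (fun s => u (py o s)) 0 ^ 2 ≤ (L : ℝ) ^ 2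
  stokes : ∀ u w : M → ℝ, Lip u → Lip w →
    ∫ o, (deriv (fun s => u (px o s)) 0 * deriv (fun s => w (py o s)) 0
      - deriv (fun s => u (py o s)) 0 * deriv (fun s => w (px o s)) 0) ∂μ
      = sg * ∫ t in (0 : ℝ)..(2 * Real.pi), u (γ t) * deriv (fun s => w (γ s)) t

namespace Calc

variable {M : Type} [MetricSpace M] {γ : ℝ → M} (C : Calc M γ)

/-- the point with parameter `o` -/
def pt (o : Om) : M := C.px o 0

/-- first component of the gradient -/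
def gx (u : M → ℝ) (o : Om) : ℝ := deriv (fun s => u (C.px o s)) 0

/-- second component of the gradient -/
def gy (u : M → ℝ) (o : Om) : ℝ := deriv (fun s => u (C.py o s)) 0

/-- the Jacobian `du ∧ dw` -/
def wed (u w : M → ℝ) (o : Om) : ℝ := C.gx u o * C.gy w o - C.gy u o * C.gx w o

/-- square of the norm of the differential of a map into `ℝᴺ` -/
def G {N : ℕ} (u : Fin N → M → ℝ) (o : Om) : ℝ := ∑ i, (C.gx (u i) o ^ 2 + C.gy (u i) o ^ 2)

/-- Dirichlet energy -/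
def E {N : ℕ} (u : Fin N → M → ℝ) : ℝ := (1 / 2) * ∫ o, C.G u o ∂C.μ

/-- total area -/
def vol : ℝ := (C.μ univ).toReal

/-- first component of `X ∇Y - Y ∇X` -/
def Tx (X Y : M → ℝ) (o : Om) : ℝ := X (C.pt o) * C.gx Y o - Y (C.pt o) * C.gx X o

/-- second component of `X ∇Y - Y ∇X` -/
def Ty (X Y : M → ℝ) (o : Om) : ℝ := X (C.pt o) * C.gy Y o - Y (C.pt o) * C.gy X o

/-- `|∇ϕ|`, where `ϕ` is the argument of `X + i Y` -/
def rot (X Y : M → ℝ) (o : Om) : ℝ :=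
  √(C.Tx X Y o ^ 2 + C.Ty X Y o ^ 2) / (X (C.pt o) ^ 2 + Y (C.pt o) ^ 2)

/-- `dψ ∧ dϕ`, where `ϕ` is the argument of `X + i Y` -/
def cr (ψ X Y : M → ℝ) (o : Om) : ℝ :=
  (C.gx ψ o * C.Ty X Y o - C.gy ψ o * C.Tx X Y o) / (X (C.pt o) ^ 2 + Y (C.pt o) ^ 2)

end Calc

/-- odd Lipschitz maps into the unit sphere -/
structure Sph {M : Type} [MetricSpace M] (γ : ℝ → M) {N : ℕ} (u : Fin N → M → ℝ) : Prop where
  lip : ∀ i, Lip (u i)
  unit : ∀ x, ∑ i, u i x ^ 2 = 1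
  odd : ∀ i, OddB γ (u i)

/-- the energy of `u` is at most `δ` above the energy of every odd map into the sphere of one
dimension more -/
def Calc.NearMin {M : Type} [MetricSpace M] {γ : ℝ → M} (C : Calc M γ) {N : ℕ}
    (u : Fin N → M → ℝ) (δ : ℝ) : Prop :=
  ∀ w : Fin (N + 1) → M → ℝ, Sph γ w → C.E u ≤ C.E w + δ

/-- the function `∑ aᵢ uᵢ` -/
def lin {M : Type} {N : ℕ} (a : Fin N → ℝ) (u : Fin N → M → ℝ) (x : M) : ℝ := ∑ i, a i * u i x

/-- two orthonormal vectors -/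
structure Ortho {N : ℕ} (a b : Fin N → ℝ) : Prop where
  na : ∑ i, a i ^ 2 = 1
  nb : ∑ i, b i ^ 2 = 1
  ab : ∑ i, a i * b i = 0

/-- the kernel; `q` is the square of the distance to the axis -/
def KK (τ q : ℝ) : ℝ := √((1 + τ ^ 2) / (q + τ ^ 2))

/-- `(K - 1) / (1 - q)` -/
def BB (τ q : ℝ) : ℝ := 1 / ((q + τ ^ 2) * (KK τ q + 1))

/-- the derivative of `BB τ` -/
def BD (τ q : ℝ) : ℝ := -(BB τ q ^ 2 * (KK τ q / 2 + 1))

/-- `θ - sin (2 θ) / 2` -/
def HH (x : ℝ) : ℝ := x - Real.sin (2 * x) / 2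

/-- zeros of `X + i Y` with their signs, and the formula that expresses them -/
structure Calc.Vort {M : Type} [MetricSpace M] {γ : ℝ → M} (C : Calc M γ) (X Y : M → ℝ)
    (Z : Finset M) (s : M → ℝ) : Prop where
  lipX : Lip X
  lipY : Lip Y
  oddX : OddB γ X
  oddY : OddB γ Y
  bdry : ∀ t, 0 < X (γ t) ^ 2 + Y (γ t) ^ 2
  pm : ∀ z ∈ Z, s z = 1 ∨ s z = -1
  zero : ∀ z, z ∈ Z ↔ X z = 0 ∧ Y z = 0
  lim : ∀ ψ : M → ℝ, Lip ψ → Tendsto (fun ε : ℝ => ∫ o, ψ (C.pt o) *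
      (2 * ε ^ 2 / (X (C.pt o) ^ 2 + Y (C.pt o) ^ 2 + ε ^ 2) ^ 2) * C.wed X Y o ∂C.μ)
    (𝓝[>] 0) (𝓝 (2 * Real.pi * ∑ z ∈ Z, s z * ψ z))

/-- the integrand of the second variation in one direction; `g` is the derivative of `u` and `z` the
derivative of `ζ` in that direction -/
def IV (τ : ℝ) {N : ℕ} (a b u g : Fin N → ℝ) (ζ z : ℝ) : ℝ :=
  z ^ 2
  + BB τ ((∑ i, a i * u i) ^ 2 + (∑ i, b i * u i) ^ 2) * ζ ^ 2 *
    (∑ i, g i ^ 2 - (∑ i, a i * g i) ^ 2 - (∑ i, b i * g i) ^ 2)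
  - 2 * BD τ ((∑ i, a i * u i) ^ 2 + (∑ i, b i * u i) ^ 2) *
    ((∑ i, a i * u i) * (∑ i, a i * g i) + (∑ i, b i * u i) * (∑ i, b i * g i)) ^ 2 * ζ ^ 2
  - 2 * BB τ ((∑ i, a i * u i) ^ 2 + (∑ i, b i * u i) ^ 2) * ζ *
    ((∑ i, a i * u i) * (∑ i, a i * g i) + (∑ i, b i * u i) * (∑ i, b i * g i)) * z
  - (∑ i, g i ^ 2) * KK τ ((∑ i, a i * u i) ^ 2 + (∑ i, b i * u i) ^ 2) * ζ ^ 2

/-- the vector field of the competitor: `β ζ² u_W`, where `u_W` is the component of `u` orthogonal to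
`a` and `b` -/
def eta (τ : ℝ) {N : ℕ} (a b u : Fin N → ℝ) (ζ : ℝ) (i : Fin N) : ℝ :=
  BB τ ((∑ j, a j * u j) ^ 2 + (∑ j, b j * u j) ^ 2) * ζ ^ 2 *
    (u i - (∑ j, a j * u j) * a i - (∑ j, b j * u j) * b i)

/-- its derivative, if `g` is the derivative of `u` and `z` the derivative of `ζ` -/
def etaD (τ : ℝ) {N : ℕ} (a b u g : Fin N → ℝ) (ζ z : ℝ) (i : Fin N) : ℝ :=
  (2 * BD τ ((∑ j, a j * u j) ^ 2 + (∑ j, b j * u j) ^ 2) *
      ((∑ j, a j * u j) * (∑ j, a j * g j) + (∑ j, b j * u j) * (∑ j, b j * g j)) * ζ ^ 2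
    + 2 * BB τ ((∑ j, a j * u j) ^ 2 + (∑ j, b j * u j) ^ 2) * ζ * z) *
    (u i - (∑ j, a j * u j) * a i - (∑ j, b j * u j) * b i)
  + BB τ ((∑ j, a j * u j) ^ 2 + (∑ j, b j * u j) ^ 2) * ζ ^ 2 *
    (g i - (∑ j, a j * g j) * a i - (∑ j, b j * g j) * b i)

/-- the competitor before normalisation -/
def cmp (τ ε : ℝ) {N : ℕ} (a b u : Fin N → ℝ) (ζ : ℝ) : Fin (N + 1) → ℝ :=
  Fin.snoc (fun i => u i + ε ^ 2 / 2 * eta τ a b u ζ i) (ε * ζ)

/-- its derivative -/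
def cmpD (τ ε : ℝ) {N : ℕ} (a b u g : Fin N → ℝ) (ζ z : ℝ) : Fin (N + 1) → ℝ :=
  Fin.snoc (fun i => g i + ε ^ 2 / 2 * etaD τ a b u g ζ z i) (ε * z)

/-- `X² + Y²` -/
def qf {M : Type} (X Y : M → ℝ) (x : M) : ℝ := X x ^ 2 + Y x ^ 2

/-- the curvature form of the argument of `X + i Y` along the curve `γ` -/
def kap {M : Type} (γ : ℝ → M) (X Y : M → ℝ) (t : ℝ) : ℝ :=
  (X (γ t) * deriv (fun s => Y (γ s)) t - Y (γ t) * deriv (fun s => X (γ s)) t) /
    (X (γ t) ^ 2 + Y (γ t) ^ 2)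

/-- a pair of functions with values in `[0, 1]`, one on each copy of the surface, that fit together
on the boundary and are the indicator function of `S` on the zeros -/
structure Pair {M : Type} [MetricSpace M] (γ : ℝ → M) (Z : Finset M) (S : Finset (M × Bool))
    (f : Bool → M → ℝ) : Prop where
  lip : ∀ i, Lip (f i)
  rng : ∀ i x, 0 ≤ f i x ∧ f i x ≤ 1
  glue : ∀ t, f true (γ (t + Real.pi)) = f false (γ t)
  one : ∀ z ∈ Z, ∀ i, (z, i) ∈ S → f i z = 1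
  zero : ∀ z ∈ Z, ∀ i, (z, i) ∉ S → f i z = 0

/-- the capacity of a pair -/
def Calc.JJ {M : Type} [MetricSpace M] {γ : ℝ → M} (C : Calc M γ) (X Y : M → ℝ)
    (f : Bool → M → ℝ) : ℝ :=
  ∫ o, (|C.cr (f true) X Y o| + |C.cr (f false) X Y o|) ∂C.μ

/-- the capacity of a set of zeros -/
def Calc.cut {M : Type} [MetricSpace M] {γ : ℝ → M} (C : Calc M γ) (X Y : M → ℝ)
    (Z : Finset M) (S : Finset (M × Bool)) : ℝ :=
  sInf {r | ∃ f, Pair γ Z S f ∧ r = C.JJ X Y f / (2 * Real.pi)}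

/-- the zeros on the two copies -/
def VV {M : Type} (Z : Finset M) : Finset (M × Bool) := Z ×ˢ Finset.univ

/-- exchange of the two copies -/
def sw {M : Type} (v : M × Bool) : M × Bool := (v.1, !v.2)

/-- three dimensional space -/
abbrev E3 : Type := EuclideanSpace ℝ (Fin 3)

/-- `|v|² - ⟨v, y⟩² / |y|²`, the square of the distance of `v` to the axis through `y` -/
def qq (v y : E3) : ℝ := ‖v‖ ^ 2 - (inner ℝ v y / ‖y‖) ^ 2

/-- the weight on `ℝ³` -/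
def wgt (y : E3) : ℝ := Real.exp (-‖y‖ ^ 2) / ‖y‖

/-- the first three components -/
def vv {M : Type} {n : ℕ} (u : Fin (n + 3) → M → ℝ) (x : M) : E3 := !₂[u 0 x, u 1 x, u 2 x]

/-- truncation at `± b` -/
def clamp (b t : ℝ) : ℝ := max (-b) (min b t)

/-- the band function: 0 below `a`, 1 above `b`, linear between -/
def bnd (a b t : ℝ) : ℝ := max 0 (min 1 ((t - a) / (b - a)))

/-- `1 - K √q`, divided by `√q`; it decreases in `q` -/
def ll (τ q : ℝ) : ℝ := (1 - KK τ q * √q) / √q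

/-- the average of the error kernel -/
def Lam (τ m : ℝ) : ℝ≥0∞ :=
  ∫⁻ y : E3, ENNReal.ofReal (wgt y) * ENNReal.ofReal (ll τ (m ^ 2 * (1 - (y 2 / ‖y‖) ^ 2)))

end Pool.Agent.EWD
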