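import Mathlib
import Pool.Agent.H74.FAC.Geo2
import Pool.Agent.EWD.Defs

/-
GDF: definitions of the manifold part (helper81). Complete.
`g0, g1, g2` are the entries of the gram matrix, `dg` its determinant, `fr1, fr2` the frame obtained
from the coordinate frame by orthonormalisation, `mu A` the area measure on the parameter space, `cpx`,
`cpy` the coordinate lines in the directions of the frame.
-/

open MeasureTheory Set Filter Measure Manifold Bundle
open scoped ContDiff Topology ENNReal NNReal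

set_option linter.unusedSectionVars false

noncomputable section

namespace Pool.Agent.EWD

open Pool.Agent.H74.FAC

variable {M : Type} [MetricSpace M] [ChartedSpace HP M] [IsManifold (𝓡∂ 2) ∞ M] [CompactSpace M]
  [RiemannianBundle (fun x : M => TangentSpace (𝓡∂ 2) x)]

/-- the entry `g₀₀` -/
def g0 (e : OpenPartialHomeomorph M HP) (z : E2) : ℝ := inner ℝ (dv e z (bv 0)) (dv e z (bv 0))

/-- the entry `g₀₁` -/
def g1 (e : OpenPartialHomeomorph M HP) (z : E2) : ℝ := inner ℝ (dv e z (bv 0)) (dv e z (bv 1))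

/-- the entry `g₁₁` -/
def g2 (e : OpenPartialHomeomorph M HP) (z : E2) : ℝ := inner ℝ (dv e z (bv 1)) (dv e z (bv 1))

/-- the determinant -/
def dg (e : OpenPartialHomeomorph M HP) (z : E2) : ℝ := g0 e z * g2 e z - g1 e z * g1 e z

/-- first vector of the frame -/
def fr1 (e : OpenPartialHomeomorph M HP) (z : E2) : E2 := (√(g0 e z))⁻¹ • bv 0

/-- second vector of the frame -/
def fr2 (e : OpenPartialHomeomorph M HP) (z : E2) : E2 :=
  (√(g0 e z) * √(dg e z))⁻¹ • (g0 e z • bv 1 - g1 e z • bv 0)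

omit [RiemannianBundle (fun x : M => TangentSpace (𝓡∂ 2) x)] in
/-- derivative of `u` in the chart `e`, at the point with coordinates `z`, in the direction `v` -/
def pd (e : OpenPartialHomeomorph M HP) (u : M → ℝ) (z v : E2) : ℝ :=
  fderiv ℝ (fun y => u ((e.extend (𝓡∂ 2)).symm y)) z v

/-- the coordinate domain of the piece `k` -/
def im (A : Cov M) (k : Fin A.n) : Set E2 := (A.P k).e.extend (𝓡∂ 2) '' (A.S k)

/-- the area measure -/
def mu (A : Cov M) : Measure Om :=
  ∑ k : Fin A.n, ((volume.restrict (im A k)).withDensity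
    (fun z => ENNReal.ofReal √(dg (A.P k).e z))).map (fun z => (((k : ℕ), z) : Om))

/-- the coordinate line in the direction `fr1` -/
def cpx [Nonempty M] (A : Cov M) (o : Om) (s : ℝ) : M :=
  if h : o.1 < A.n then
    ((A.P ⟨o.1, h⟩).e.extend (𝓡∂ 2)).symm (o.2 + s • fr1 (A.P ⟨o.1, h⟩).e o.2)
  else Classical.arbitrary M

/-- the coordinate line in the direction `fr2` -/
def cpy [Nonempty M] (A : Cov M) (o : Om) (s : ℝ) : M :=
  if h : o.1 < A.n then
    ((A.P ⟨o.1, h⟩).e.extend (𝓡∂ 2)).symm (o.2 + s • fr2 (A.P ⟨o.1, h⟩).e o.2)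
  else Classical.arbitrary M

/-- the integral of `f du ∧ dw` over the Borel set `T` -/
def BT (A : Cov M) (f : M → ℝ) (T : Set M) (u w : M → ℝ) : ℝ :=
  ∑ k, ∫ z in (A.P k).e.extend (𝓡∂ 2) '' (A.S k ∩ T),
    f (((A.P k).e.extend (𝓡∂ 2)).symm z) * Jc (A.P k).e u w z

/-- the energy density of `w` in the chart `e`: half of the trace of the pulled back metric with
respect to `g`, times `√det g` -/
def dens (e : OpenPartialHomeomorph M HP) {N : ℕ} (w : M → EuclideanSpace ℝ (Fin N)) (z : E2) : ℝ :=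
  (1 / 2) * ((gram e z 1 1 * ‖fderiv ℝ (fun y => w ((e.extend (𝓡∂ 2)).symm y)) z (bv 0)‖ ^ 2
    - 2 * gram e z 0 1 * inner ℝ (fderiv ℝ (fun y => w ((e.extend (𝓡∂ 2)).symm y)) z (bv 0))
      (fderiv ℝ (fun y => w ((e.extend (𝓡∂ 2)).symm y)) z (bv 1))
    + gram e z 0 0 * ‖fderiv ℝ (fun y => w ((e.extend (𝓡∂ 2)).symm y)) z (bv 1)‖ ^ 2)
    / √(gram e z).det)

/-- the energy of a map -/
def energy {N : ℕ} (w : M → EuclideanSpace ℝ (Fin N)) : ℝ≥0∞ :=
  ⨆ (n : ℕ) (e : Fin n → OpenPartialHomeomorph M HP) (S : Fin n → Set M)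
    (_ : (∀ i, e i ∈ IsManifold.maximalAtlas (𝓡∂ 2) ∞ M) ∧
      (∀ i, MeasurableSet[borel M] (S i)) ∧ (∀ i, S i ⊆ (e i).source) ∧
      Pairwise fun i j => Disjoint (S i) (S j)),
    ∑ i, ∫⁻ z in (e i).extend (𝓡∂ 2) '' (S i), ENNReal.ofReal (dens (e i) w z)

/-- the components of a map -/
def cm {N : ℕ} (w : M → EuclideanSpace ℝ (Fin N)) (i : Fin N) (x : M) : ℝ := w x i

/-- the triple product -/
def tri (a b c : E3) : ℝ :=
  a 0 * (b 1 * c 2 - b 2 * c 1) - a 1 * (b 0 * c 2 - b 2 * c 0) + a 2 * (b 0 * c 1 - b 1 * c 0)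

/-- a vector of `E3` as a coefficient vector -/
def emb {n : ℕ} (a : E3) (i : Fin (n + 3)) : ℝ := if h : i.val < 3 then a ⟨i.val, h⟩ else 0

end Pool.Agent.EWD
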