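import Mathlib
import Pool.Agent.EWD.GDF

/-
GRM: the gram matrix is positive definite and continuous.  [about 120 lines]

`dv e z : E2 → T_x M` is the derivative of the inverse chart. It is injective for `z` in the target: the chart
`e.extend` is `C^∞` on its source and `e.extend ∘ e.extend.symm = id` on the target, whose points are points of
unique differentiability (`uniqueDiffOn_target`); differentiate (`mfderivWithin_comp`, or use
`mfderivWithin` of `contMDiffOn_extend` and `contMDiffOn_extend_symm`; Mathlib has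
`isInvertible_mfderivWithin_extChartAt_symm` for `extChartAt`; `dv_eq` in H74/FAC/Riem1 rewrites `dv` as a
derivative within the target).
Then `‖dv (α b₀ + β b₁)‖² = α² g0 + 2 α β g1 + β² g2 > 0` for `(α, β) ≠ 0`, so `g0 > 0`, and with
`α = - g1`, `β = g0`: `g0 (g0 g2 - g1²) > 0`, so `dg > 0`. `dg = (gram e z).det`: `gram_det` (H74/FAC/Geo2).
Continuity on the target: `continuousOn_inner_dv` (H74/FAC/Riem1).
-/

open MeasureTheory Set Filter Measure Manifold Bundle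
open scoped ContDiff Topology ENNReal NNReal

set_option linter.unusedSectionVars false

namespace Pool.Agent.EWD

open Pool.Agent.H74.FAC

variable {M : Type} [MetricSpace M] [ChartedSpace HP M] [IsManifold (𝓡∂ 2) ∞ M] [CompactSpace M]
  [RiemannianBundle (fun x : M => TangentSpace (𝓡∂ 2) x)]
  [IsContMDiffRiemannianBundle (𝓡∂ 2) ∞ E2 (fun x : M => TangentSpace (𝓡∂ 2) x)]
  [IsRiemannianManifold (𝓡∂ 2) M]

theorem dv_ne_zero {e : OpenPartialHomeomorph M HP} (he : e ∈ IsManifold.maximalAtlas (𝓡∂ 2) ∞ M)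
    {z : E2} (hz : z ∈ (e.extend (𝓡∂ 2)).target) {v : E2} (hv : v ≠ 0) : dv e z v ≠ 0 := by
  intro h0
  apply hv
  rw [dv_eq he hz] at h0
  set t : Set E2 := (e.extend (𝓡∂ 2)).target with ht
  have h1 : MDifferentiableWithinAt 𝓘(ℝ, E2) (𝓡∂ 2) (e.extend (𝓡∂ 2)).symm t z :=
    ((cmd_symm he) z hz).mdifferentiableWithinAt (by simp)
  have hs : (e.extend (𝓡∂ 2)).symm z ∈ e.source := by
    have h := (e.extend (𝓡∂ 2)).map_target hz
    rwa [OpenPartialHomeomorph.extend_source] at h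
  have h2 : MDifferentiableAt (𝓡∂ 2) 𝓘(ℝ, E2) (e.extend (𝓡∂ 2)) ((e.extend (𝓡∂ 2)).symm z) :=
    (e.contMDiffAt_extend he hs).mdifferentiableAt (by simp)
  have h3 := h2.hasMFDerivAt.comp_hasMFDerivWithinAt z h1.hasMFDerivWithinAt
  have h4 : HasMFDerivWithinAt 𝓘(ℝ, E2) 𝓘(ℝ, E2)
      ((e.extend (𝓡∂ 2)) ∘ (e.extend (𝓡∂ 2)).symm) t z
      (ContinuousLinearMap.id ℝ (TangentSpace 𝓘(ℝ, E2) z)) := by
    refine (hasMFDerivWithinAt_id t z).congr_of_eventuallyEq ?_ ?_
    · filter_upwards [self_mem_nhdsWithin] with y hy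
      exact (e.extend (𝓡∂ 2)).right_inv hy
    · exact (e.extend (𝓡∂ 2)).right_inv hz
  have hu : UniqueMDiffWithinAt 𝓘(ℝ, E2) t z := by
    rw [uniqueMDiffWithinAt_iff_uniqueDiffWithinAt]
    exact uniqueDiffOn_target e z hz
  have h5 := hu.eq h3 h4
  have h6 := DFunLike.congr_fun h5 v
  have h7 : (mfderiv (𝓡∂ 2) 𝓘(ℝ, E2) (e.extend (𝓡∂ 2)) ((e.extend (𝓡∂ 2)).symm z))
      ((mfderivWithin 𝓘(ℝ, E2) (𝓡∂ 2) (e.extend (𝓡∂ 2)).symm t z) v) = v := h6
  rw [h0, map_zero] at h7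
  exact h7.symm

theorem norm_dv_sq (e : OpenPartialHomeomorph M HP) (z : E2) (α β : ℝ) :
    ‖dv e z (α • bv 0 + β • bv 1)‖ ^ 2 = α ^ 2 * g0 e z + 2 * (α * β) * g1 e z + β ^ 2 * g2 e z := by
  unfold g0 g1 g2
  rw [← real_inner_self_eq_norm_sq, dv_add, dv_smul, dv_smul]
  simp only [inner_add_left, inner_add_right, real_inner_smul_left, real_inner_smul_right]
  rw [real_inner_comm (dv e z (bv 0)) (dv e z (bv 1))]
  ring

private lemma GRM_bv_ne {α β : ℝ} (h : α ≠ 0 ∨ β ≠ 0) : α • bv 0 + β • bv 1 ≠ 0 := by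
  intro h0
  have h1 := congrArg (fun v : E2 => v 0) h0
  have h2 := congrArg (fun v : E2 => v 1) h0
  simp [bv] at h1 h2
  rcases h with h | h
  · exact h h1
  · exact h h2

private lemma GRM_pos {e : OpenPartialHomeomorph M HP} (he : e ∈ IsManifold.maximalAtlas (𝓡∂ 2) ∞ M)
    {z : E2} (hz : z ∈ (e.extend (𝓡∂ 2)).target) {α β : ℝ} (h : α ≠ 0 ∨ β ≠ 0) :
    0 < α ^ 2 * g0 e z + 2 * (α * β) * g1 e z + β ^ 2 * g2 e z := by
  rw [← norm_dv_sq]
  have := dv_ne_zero he hz (GRM_bv_ne h)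
  positivity

theorem g0_pos {e : OpenPartialHomeomorph M HP} (he : e ∈ IsManifold.maximalAtlas (𝓡∂ 2) ∞ M)
    {z : E2} (hz : z ∈ (e.extend (𝓡∂ 2)).target) : 0 < g0 e z := by
  have h := GRM_pos he hz (α := 1) (β := 0) (Or.inl one_ne_zero)
  linarith

theorem dg_pos {e : OpenPartialHomeomorph M HP} (he : e ∈ IsManifold.maximalAtlas (𝓡∂ 2) ∞ M)
    {z : E2} (hz : z ∈ (e.extend (𝓡∂ 2)).target) : 0 < dg e z := by
  have h0 := g0_pos he hz
  have h := GRM_pos he hz (α := - g1 e z) (β := g0 e z) (Or.inr h0.ne')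
  have h2 : 0 < g0 e z * dg e z := by
    unfold dg
    nlinarith [h]
  exact (pos_iff_pos_of_mul_pos h2).1 h0

theorem dg_eq (e : OpenPartialHomeomorph M HP) (z : E2) : (gram e z).det = dg e z := by
  rw [gram_det]
  rfl

theorem continuousOn_g0 {e : OpenPartialHomeomorph M HP}
    (he : e ∈ IsManifold.maximalAtlas (𝓡∂ 2) ∞ M) :
    ContinuousOn (g0 e) (e.extend (𝓡∂ 2)).target :=
  continuousOn_inner_dv he _ _

theorem continuousOn_g1 {e : OpenPartialHomeomorph M HP}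
    (he : e ∈ IsManifold.maximalAtlas (𝓡∂ 2) ∞ M) :
    ContinuousOn (g1 e) (e.extend (𝓡∂ 2)).target :=
  continuousOn_inner_dv he _ _

theorem continuousOn_dg {e : OpenPartialHomeomorph M HP}
    (he : e ∈ IsManifold.maximalAtlas (𝓡∂ 2) ∞ M) :
    ContinuousOn (dg e) (e.extend (𝓡∂ 2)).target := by
  have h2 : ContinuousOn (g2 e) (e.extend (𝓡∂ 2)).target := continuousOn_inner_dv he _ _
  exact ((continuousOn_g0 he).mul h2).sub ((continuousOn_g1 he).mul (continuousOn_g1 he))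

end Pool.Agent.EWD
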