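import Mathlib
import Pool.Agent.EWD.Defs

/-
LPA: algebra of Lipschitz functions on a compact metric space.  [about 120 lines, easy]

`Lip u` means `∃ L, LipschitzWith L u`. Sums: `LipschitzWith.add`. Products: a Lipschitz function on a
compact space is bounded; `|uw(x) - uw(y)| ≤ |u x| |w x - w y| + |w y| |u x - u y|`
(`Pool.Agent.H74.FAC.lip_mul` in `Pool/Agent/H74/FAC/HP3.lean` proves it, copy the proof).
Composition with a function that is Lipschitz on a convex set containing the values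
(`lip_comp_on`): restrict, `LipschitzOnWith.comp`.
-/

open MeasureTheory Set Filter Topology
open scoped ENNReal NNReal

namespace Pool.Agent.EWD

variable {M : Type} [MetricSpace M]

private theorem lpa_abs {u : M → ℝ} {L : ℝ≥0} (h : LipschitzWith L u) (x y : M) :
    |u x - u y| ≤ L * dist x y := by
  have h1 := h.dist_le_mul x y
  rwa [Real.dist_eq] at h1

private theorem lpa_mk {u : M → ℝ} (L : ℝ) (hL : 0 ≤ L) (h : ∀ x y, |u x - u y| ≤ L * dist x y) :
    Lip u :=
  ⟨⟨L, hL⟩, LipschitzWith.of_dist_le_mul (by intro x y; rw [Real.dist_eq]; exact h x y)⟩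

theorem lip_const (c : ℝ) : Lip (fun _ : M => c) := by
  exact ⟨0, LipschitzWith.const c⟩

theorem Lip.cont {u : M → ℝ} (hu : Lip u) : Continuous u := by
  obtain ⟨L, hL⟩ := hu
  exact hL.continuous

theorem Lip.add {u w : M → ℝ} (hu : Lip u) (hw : Lip w) : Lip (fun x => u x + w x) := by
  obtain ⟨L, hL⟩ := hu
  obtain ⟨K, hK⟩ := hw
  exact ⟨L + K, hL.add hK⟩

theorem Lip.sub {u w : M → ℝ} (hu : Lip u) (hw : Lip w) : Lip (fun x => u x - w x) := by
  obtain ⟨L, hL⟩ := hu
  obtain ⟨K, hK⟩ := hw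
  exact ⟨L + K, hL.sub hK⟩

theorem Lip.neg {u : M → ℝ} (hu : Lip u) : Lip (fun x => -u x) := by
  obtain ⟨L, hL⟩ := hu
  exact ⟨L, hL.neg⟩

theorem Lip.const_mul {u : M → ℝ} (hu : Lip u) (c : ℝ) : Lip (fun x => c * u x) := by
  obtain ⟨L, hL⟩ := hu
  refine lpa_mk (|c| * L) (by positivity) ?_
  intro x y
  rw [← mul_sub, abs_mul, mul_assoc]
  exact mul_le_mul_of_nonneg_left (lpa_abs hL x y) (abs_nonneg c)

theorem Lip.max {u w : M → ℝ} (hu : Lip u) (hw : Lip w) : Lip (fun x => max (u x) (w x)) := by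
  obtain ⟨L, hL⟩ := hu
  obtain ⟨K, hK⟩ := hw
  exact ⟨_, hL.max hK⟩

theorem Lip.min {u w : M → ℝ} (hu : Lip u) (hw : Lip w) : Lip (fun x => min (u x) (w x)) := by
  obtain ⟨L, hL⟩ := hu
  obtain ⟨K, hK⟩ := hw
  exact ⟨_, hL.min hK⟩

theorem Lip.comp {u : M → ℝ} (hu : Lip u) {f : ℝ → ℝ} {K : ℝ≥0} (hf : LipschitzWith K f) :
    Lip (fun x => f (u x)) := by
  obtain ⟨L, hL⟩ := hu
  exact ⟨_, hf.comp hL⟩

theorem Lip.comp_on {u : M → ℝ} (hu : Lip u) {s : Set ℝ} (hs : ∀ x, u x ∈ s) {f : ℝ → ℝ} {K : ℝ≥0}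
    (hf : LipschitzOnWith K f s) : Lip (fun x => f (u x)) := by
  obtain ⟨L, hL⟩ := hu
  refine lpa_mk (K * L) (by positivity) ?_
  intro x y
  have h1 := hf.dist_le_mul (u x) (hs x) (u y) (hs y)
  rw [Real.dist_eq, Real.dist_eq] at h1
  refine h1.trans ?_
  rw [mul_assoc]
  exact mul_le_mul_of_nonneg_left (lpa_abs hL x y) K.coe_nonneg

theorem lip_sum {ι : Type} (s : Finset ι) {u : ι → M → ℝ} (hu : ∀ i ∈ s, Lip (u i)) :
    Lip (fun x => ∑ i ∈ s, u i x) := by
  classical
  induction s using Finset.induction_on with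
  | empty => exact lip_const 0
  | insert i t hi ih =>
    have h1 := (hu i (Finset.mem_insert_self i t)).add (ih fun j hj => hu j (Finset.mem_insert_of_mem hj))
    have e : (fun x => ∑ j ∈ insert i t, u j x) = fun x => u i x + ∑ j ∈ t, u j x := by
      funext x
      rw [Finset.sum_insert hi]
    rw [e]
    exact h1

theorem lip_lin {N : ℕ} (a : Fin N → ℝ) {u : Fin N → M → ℝ} (hu : ∀ i, Lip (u i)) :
    Lip (lin a u) := by
  exact lip_sum Finset.univ fun i _ => (hu i).const_mul (a i)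

variable [CompactSpace M]

theorem Lip.bdd {u : M → ℝ} (hu : Lip u) : ∃ B : ℝ, 0 ≤ B ∧ ∀ x, |u x| ≤ B := by
  obtain ⟨B, hB⟩ := isCompact_univ.exists_bound_of_continuousOn hu.cont.continuousOn
  refine ⟨Max.max B 0, le_max_right _ _, fun x => ?_⟩
  have h1 := hB x (mem_univ x)
  rw [Real.norm_eq_abs] at h1
  exact h1.trans (le_max_left _ _)

theorem Lip.mul {u w : M → ℝ} (hu : Lip u) (hw : Lip w) : Lip (fun x => u x * w x) := by
  obtain ⟨A, hA0, hA⟩ := hu.bdd
  obtain ⟨B, hB0, hB⟩ := hw.bdd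
  obtain ⟨L, hL⟩ := hu
  obtain ⟨K, hK⟩ := hw
  refine lpa_mk (A * K + B * L) (by positivity) ?_
  intro x y
  have e : u x * w x - u y * w y = u x * (w x - w y) + w y * (u x - u y) := by ring
  rw [e]
  calc |u x * (w x - w y) + w y * (u x - u y)| ≤ |u x| * |w x - w y| + |w y| * |u x - u y| := by
        rw [← abs_mul, ← abs_mul]
        exact abs_add_le _ _
    _ ≤ A * (K * dist x y) + B * (L * dist x y) :=
        add_le_add (mul_le_mul (hA x) (lpa_abs hK x y) (abs_nonneg _) hA0)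
          (mul_le_mul (hB y) (lpa_abs hL x y) (abs_nonneg _) hB0)
    _ = (A * K + B * L) * dist x y := by ring

theorem Lip.pow {u : M → ℝ} (hu : Lip u) (n : ℕ) : Lip (fun x => u x ^ n) := by
  induction n with
  | zero =>
    simp only [pow_zero]
    exact lip_const 1
  | succ n ih =>
    simp only [pow_succ]
    exact ih.mul hu

/-- quotient by a function that is bounded below by a positive constant -/
theorem Lip.div {u w : M → ℝ} (hu : Lip u) (hw : Lip w) {c : ℝ} (hc : 0 < c) (h : ∀ x, c ≤ w x) :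
    Lip (fun x => u x / w x) := by
  have h1 : Lip (fun x => (w x)⁻¹) := by
    have hf : LipschitzOnWith (⟨1 / c ^ 2, by positivity⟩ : ℝ≥0) (fun t : ℝ => t⁻¹) (Ici c) := by
      apply LipschitzOnWith.of_dist_le_mul
      intro x hx y hy
      have hx0 : 0 < x := lt_of_lt_of_le hc hx
      have hy0 : 0 < y := lt_of_lt_of_le hc hy
      rw [Real.dist_eq, Real.dist_eq]
      show |x⁻¹ - y⁻¹| ≤ 1 / c ^ 2 * |x - y|
      rw [inv_sub_inv hx0.ne' hy0.ne', abs_div, abs_mul, abs_of_pos hx0, abs_of_pos hy0, abs_sub_comm y x,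
        div_eq_mul_one_div, mul_comm]
      refine mul_le_mul_of_nonneg_right ?_ (abs_nonneg _)
      refine one_div_le_one_div_of_le (by positivity) ?_
      rw [pow_two]
      exact mul_le_mul hx hy hc.le hx0.le
    exact hw.comp_on (s := Ici c) h hf
  have h2 := hu.mul h1
  simpa only [div_eq_mul_inv] using h2

/-- square root of a function that is bounded below by a positive constant -/
theorem Lip.sqrt {w : M → ℝ} (hw : Lip w) {c : ℝ} (hc : 0 < c) (h : ∀ x, c ≤ w x) :
    Lip (fun x => √(w x)) := by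
  have hf : LipschitzOnWith (⟨1 / (2 * √c), by positivity⟩ : ℝ≥0) (fun t : ℝ => √t) (Ici c) := by
    apply LipschitzOnWith.of_dist_le_mul
    intro x hx y hy
    have hx0 : 0 < x := lt_of_lt_of_le hc hx
    have hy0 : 0 < y := lt_of_lt_of_le hc hy
    have hsx : √c ≤ √x := Real.sqrt_le_sqrt hx
    have hsy : √c ≤ √y := Real.sqrt_le_sqrt hy
    have hsc : 0 < √c := Real.sqrt_pos.mpr hc
    rw [Real.dist_eq, Real.dist_eq]
    show |√x - √y| ≤ 1 / (2 * √c) * |x - y|
    have e : x - y = (√x + √y) * (√x - √y) := by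
      have h1 := Real.mul_self_sqrt hx0.le
      have h2 := Real.mul_self_sqrt hy0.le
      linear_combination -h1 + h2
    rw [e, abs_mul, abs_of_pos (by linarith : (0:ℝ) < √x + √y), ← mul_assoc]
    have h3 : 1 ≤ 1 / (2 * √c) * (√x + √y) := by
      rw [div_mul_eq_mul_div, one_mul, le_div_iff₀ (by positivity)]
      linarith
    calc |√x - √y| = 1 * |√x - √y| := by ring
      _ ≤ _ := mul_le_mul_of_nonneg_right h3 (abs_nonneg _)
  exact hw.comp_on (s := Ici c) h hf

end Pool.Agent.EWD
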