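import Mathlib
import Pool.Agent.EWD.GDF
import Pool.Agent.EWD.GRM

/-
MUA: integration with respect to `mu A`.  [about 150 lines]

For fixed `k` the map `z ↦ (k, z)` is a measurable embedding (`MeasurableEmbedding.prodMk_left` or
`measurableEmbedding_prodMk_left`), so `ae_map_iff`, `lintegral_map`, `integral_map` hold without
measurability of the function. `im A k` is measurable (`meas_image`, `A.S_meas k`, `A.S_sub k`,
`(A.P k).V_sub`) and contained in the target of the chart `e` of `A.P k` (`ext_mem_target`), where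
`dg e` is positive and continuous (GRM), so `z ↦ √(dg e z)` is a.e. measurable with respect to
`volume.restrict (im A k)` (`ContinuousOn.aemeasurable`), and
`ae`, integrals for `withDensity`: `withDensity_absolutelyContinuous`,
`lintegral_withDensity_eq_lintegral_mul₀`, `integral_withDensity_eq_integral_toReal_smul₀` (or the `NNReal`
version). Finite sums of measures: `ae_finsetSum_measure_iff` / `Measure.ae_sum_iff`,
`lintegral_finsetSum_measure`, `integral_finsetSum_measure`.
-/

open MeasureTheory Set Filter Measure Manifold Bundle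
open scoped ContDiff Topology ENNReal NNReal

set_option linter.unusedSectionVars false

namespace Pool.Agent.EWD

open Pool.Agent.H74.FAC

variable {M : Type} [MetricSpace M] [ChartedSpace HP M] [IsManifold (𝓡∂ 2) ∞ M] [CompactSpace M]
  [RiemannianBundle (fun x : M => TangentSpace (𝓡∂ 2) x)]
  [IsContMDiffRiemannianBundle (𝓡∂ 2) ∞ E2 (fun x : M => TangentSpace (𝓡∂ 2) x)]
  [IsRiemannianManifold (𝓡∂ 2) M]

theorem im_meas (A : Cov M) (k : Fin A.n) : MeasurableSet (im A k) :=
  meas_image (A.S_meas k) ((A.S_sub k).trans (A.P k).V_sub)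

theorem im_sub (A : Cov M) (k : Fin A.n) :
    im A k ⊆ ((A.P k).e.extend (𝓡∂ 2)).target := by
  rintro z ⟨x, hx, rfl⟩
  exact ext_mem_target ((A.P k).V_sub (A.S_sub k hx))

theorem im_O (A : Cov M) (k : Fin A.n) : ∀ᵐ z, z ∈ im A k → z ∈ (A.P k).O :=
  Patch.image_ae (P := A.P k) (A.S_sub k)

private theorem MUA_dens (A : Cov M) (k : Fin A.n) :
    AEMeasurable (fun z => ENNReal.ofReal √(dg (A.P k).e z)) (volume.restrict (im A k)) := by
  have h1 : ContinuousOn (dg (A.P k).e) (im A k) :=
    (continuousOn_dg (A.P k).he).mono (im_sub A k)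
  have h2 : AEMeasurable (dg (A.P k).e) (volume.restrict (im A k)) := h1.aemeasurable (im_meas A k)
  exact h2.sqrt.ennreal_ofReal

private theorem MUA_emb (A : Cov M) (k : Fin A.n) :
    MeasurableEmbedding (fun z : E2 => (((k : ℕ), z) : Om)) :=
  measurableEmbedding_prodMk_left (k : ℕ)

theorem mu_ae (A : Cov M) {p : Om → Prop}
    (h : ∀ k : Fin A.n, ∀ᵐ z : E2, z ∈ im A k → p ((k : ℕ), z)) : ∀ᵐ o ∂(mu A), p o := by
  unfold mu
  rw [ae_finsetSum_measure_iff]
  intro k _
  rw [(MUA_emb A k).ae_map_iff]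
  apply (withDensity_absolutelyContinuous (volume.restrict (im A k)) _).ae_le
  exact (ae_restrict_iff' (im_meas A k)).2 (h k)

theorem mu_aemeasurable (A : Cov M) {f : Om → ℝ}
    (h : ∀ k : Fin A.n, AEMeasurable (fun z : E2 => f ((k : ℕ), z)) (volume.restrict (im A k))) :
    AEMeasurable f (mu A) := by
  unfold mu
  rw [← Measure.sum_fintype, aemeasurable_sum_measure_iff]
  intro k
  rw [(MUA_emb A k).aemeasurable_map_iff]
  exact (h k).mono_ac (withDensity_absolutelyContinuous _ _)

theorem mu_lint (A : Cov M) {f : Om → ℝ≥0∞} (hf : AEMeasurable f (mu A)) :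
    ∫⁻ o, f o ∂(mu A) = ∑ k : Fin A.n, ∫⁻ z in im A k,
      ENNReal.ofReal √(dg (A.P k).e z) * f ((k : ℕ), z) := by
  unfold mu at hf ⊢
  rw [lintegral_finsetSum_measure]
  rw [← Measure.sum_fintype, aemeasurable_sum_measure_iff] at hf
  refine Finset.sum_congr rfl fun k _ => ?_
  have hk := hf k
  rw [(MUA_emb A k).aemeasurable_map_iff] at hk
  rw [(MUA_emb A k).lintegral_map]
  exact lintegral_withDensity_eq_lintegral_mul₀' (MUA_dens A k) hk

theorem mu_int (A : Cov M) {f : Om → ℝ} (hf : Integrable f (mu A)) :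
    ∫ o, f o ∂(mu A) = ∑ k : Fin A.n, ∫ z in im A k, √(dg (A.P k).e z) * f ((k : ℕ), z) := by
  unfold mu at hf ⊢
  rw [integral_finsetSum_measure (integrable_finsetSum_measure.1 hf)]
  refine Finset.sum_congr rfl fun k _ => ?_
  rw [(MUA_emb A k).integral_map]
  rw [integral_withDensity_eq_integral_toReal_smul₀ (MUA_dens A k)
    (Filter.Eventually.of_forall fun _ => ENNReal.ofReal_lt_top)]
  refine integral_congr_ae (Filter.Eventually.of_forall fun z => ?_)
  simp only [smul_eq_mul]
  rw [ENNReal.toReal_ofReal (Real.sqrt_nonneg _)]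

end Pool.Agent.EWD
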