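import Mathlib
import Pool.Agent.EWD.GDF
import Pool.Agent.EWD.GRM
import Pool.Agent.EWD.MUA
import Pool.Agent.EWD.LPA

/-
DIF: the gradient of Lipschitz functions.  [about 90 lines]

For `L`-Lipschitz `u` and a piece `k`: for almost every `z ∈ im A k` we have `z ∈ (A.P k).O` (`im_O`) and
`u ∘ e.symm` is differentiable at `z` (`((A.P k).cut hu).diff`, H74/FAC/Patch2). Then
`s ↦ u (cpx A (k, z) s) = (u ∘ e.symm)(z + s • fr1)` has derivative `pd e u z (fr1 e z)` at 0
(chain rule; `cpx` unfolds with `dif_pos k.2`). Use `mu_ae`. The set version `ae_lip` collects the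
statement on each piece.
-/

open MeasureTheory Set Filter Measure Manifold Bundle
open scoped ContDiff Topology ENNReal NNReal

set_option linter.unusedSectionVars false

namespace Pool.Agent.EWD

open Pool.Agent.H74.FAC

variable {M : Type} [MetricSpace M] [ChartedSpace HP M] [IsManifold (𝓡∂ 2) ∞ M] [CompactSpace M]
  [RiemannianBundle (fun x : M => TangentSpace (𝓡∂ 2) x)]
  [IsContMDiffRiemannianBundle (𝓡∂ 2) ∞ E2 (fun x : M => TangentSpace (𝓡∂ 2) x)]
  [IsRiemannianManifold (𝓡∂ 2) M]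

theorem ae_lip (A : Cov M) {u : M → ℝ} (hu : Lip u) (k : Fin A.n) : ∀ᵐ z : E2, z ∈ im A k →
    z ∈ (A.P k).O ∧
    DifferentiableAt ℝ (fun y => u (((A.P k).e.extend (𝓡∂ 2)).symm y)) z := by
  obtain ⟨L, hL⟩ := hu
  filter_upwards [im_O A k, ((A.P k).cut hL).diff] with z h1 h2 h3
  exact ⟨h1 h3, h2 (h1 h3)⟩

private theorem DIF_cpx [Nonempty M] (A : Cov M) (k : Fin A.n) (z : E2) (s : ℝ) :
    cpx A ((k : ℕ), z) s
      = ((A.P k).e.extend (𝓡∂ 2)).symm (z + s • fr1 (A.P k).e z) := by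
  unfold cpx
  rw [dif_pos k.2]

private theorem DIF_cpy [Nonempty M] (A : Cov M) (k : Fin A.n) (z : E2) (s : ℝ) :
    cpy A ((k : ℕ), z) s
      = ((A.P k).e.extend (𝓡∂ 2)).symm (z + s • fr2 (A.P k).e z) := by
  unfold cpy
  rw [dif_pos k.2]

theorem cpx_zero [Nonempty M] (A : Cov M) (k : Fin A.n) (z : E2) :
    cpx A ((k : ℕ), z) 0 = ((A.P k).e.extend (𝓡∂ 2)).symm z := by
  rw [DIF_cpx, zero_smul, add_zero]

theorem cpy_eq_cpx [Nonempty M] (A : Cov M) (o : Om) : cpy A o 0 = cpx A o 0 := by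
  unfold cpy cpx
  split_ifs with h
  · rw [zero_smul, zero_smul]
  · rfl

private theorem DIF_line {F : E2 → ℝ} {z : E2} (hF : DifferentiableAt ℝ F z) (v : E2) :
    HasDerivAt (fun s : ℝ => F (z + s • v)) (fderiv ℝ F z v) 0 := by
  have hl : HasDerivAt (fun s : ℝ => z + s • v) v 0 := by
    simpa using ((hasDerivAt_id (0 : ℝ)).smul_const v).const_add z
  have h0 : z + (0 : ℝ) • v = z := by rw [zero_smul, add_zero]
  have h1 : HasFDerivAt F (fderiv ℝ F z) (z + (0 : ℝ) • v) := by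
    rw [h0]
    exact hF.hasFDerivAt
  exact h1.comp_hasDerivAt (0 : ℝ) hl

theorem has_cpx [Nonempty M] (A : Cov M) {u : M → ℝ} (hu : Lip u) (k : Fin A.n) :
    ∀ᵐ z : E2, z ∈ im A k →
      HasDerivAt (fun s => u (cpx A ((k : ℕ), z) s)) (pd (A.P k).e u z (fr1 (A.P k).e z)) 0 ∧
      HasDerivAt (fun s => u (cpy A ((k : ℕ), z) s)) (pd (A.P k).e u z (fr2 (A.P k).e z)) 0 := by
  filter_upwards [ae_lip A hu k] with z h1 h2
  have hd := (h1 h2).2
  constructor
  · have := DIF_line hd (fr1 (A.P k).e z)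
    simp only [DIF_cpx]
    exact this
  · have := DIF_line hd (fr2 (A.P k).e z)
    simp only [DIF_cpy]
    exact this

theorem dif_field [Nonempty M] (A : Cov M) {u : M → ℝ} (hu : Lip u) : ∀ᵐ o ∂(mu A),
    DifferentiableAt ℝ (fun s => u (cpx A o s)) 0 ∧
    DifferentiableAt ℝ (fun s => u (cpy A o s)) 0 := by
  refine mu_ae A fun k => ?_
  filter_upwards [has_cpx A hu k] with z h1 h2
  exact ⟨(h1 h2).1.differentiableAt, (h1 h2).2.differentiableAt⟩

end Pool.Agent.EWD
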