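import Mathlib
import Pool.Agent.EWD.GDF
import Pool.Agent.EWD.GRM

/-
FRM: algebra of the frame.  [about 90 lines, algebra]

`fr1 = b₀/√g0`, `fr2 = (g0 b₁ - g1 b₀)/(√g0 √dg)`, `g0 > 0`, `dg = g0 g2 - g1² > 0`. For a linear form `p`
with `p₀ = p b₀`, `p₁ = p b₁`: `p fr1 = p₀/√g0`, `p fr2 = (g0 p₁ - g1 p₀)/(√g0 √dg)`. The three identities
follow with `√g0² = g0`, `√dg² = dg` and `field_simp; ring`. The last one from `norm_dv_sq`
(`dv` is linear: `dv_add`, `dv_smul`): `‖dv fr1‖ = ‖dv fr2‖ = 1`, and they are orthogonal.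
-/

open MeasureTheory Set Filter Measure Manifold Bundle
open scoped ContDiff Topology ENNReal NNReal

set_option linter.unusedSectionVars false

namespace Pool.Agent.EWD

open Pool.Agent.H74.FAC

variable {M : Type} [MetricSpace M] [ChartedSpace HP M] [IsManifold (𝓡∂ 2) ∞ M] [CompactSpace M]
  [RiemannianBundle (fun x : M => TangentSpace (𝓡∂ 2) x)]
  [IsContMDiffRiemannianBundle (𝓡∂ 2) ∞ E2 (fun x : M => TangentSpace (𝓡∂ 2) x)]
  [IsRiemannianManifold (𝓡∂ 2) M]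

private theorem FRM_sq0 {e : OpenPartialHomeomorph M HP} {z : E2} (h0 : 0 < g0 e z) :
    √(g0 e z) ^ 2 = g0 e z := Real.sq_sqrt h0.le

private theorem FRM_sqd {e : OpenPartialHomeomorph M HP} {z : E2} (hd : 0 < dg e z) :
    √(dg e z) ^ 2 = dg e z := Real.sq_sqrt hd.le

private theorem FRM_fr1 (e : OpenPartialHomeomorph M HP) (z : E2) (p : E2 →L[ℝ] ℝ) :
    p (fr1 e z) = p (bv 0) / √(g0 e z) := by
  rw [fr1, map_smul, smul_eq_mul, div_eq_inv_mul]

private theorem FRM_fr2 (e : OpenPartialHomeomorph M HP) (z : E2) (p : E2 →L[ℝ] ℝ) :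
    p (fr2 e z) = (g0 e z * p (bv 1) - g1 e z * p (bv 0)) / (√(g0 e z) * √(dg e z)) := by
  rw [fr2, map_smul, map_sub, map_smul, map_smul, smul_eq_mul, smul_eq_mul, smul_eq_mul,
    div_eq_inv_mul]

theorem frame_wedge {e : OpenPartialHomeomorph M HP} {z : E2} (h0 : 0 < g0 e z) (hd : 0 < dg e z)
    (p q : E2 →L[ℝ] ℝ) : p (fr1 e z) * q (fr2 e z) - p (fr2 e z) * q (fr1 e z)
      = (p (bv 0) * q (bv 1) - p (bv 1) * q (bv 0)) / √(dg e z) := by
  have ha : 0 < √(g0 e z) := Real.sqrt_pos.2 h0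
  have hb : 0 < √(dg e z) := Real.sqrt_pos.2 hd
  have h1 := FRM_sq0 h0
  rw [FRM_fr1, FRM_fr1, FRM_fr2, FRM_fr2]
  generalize √(g0 e z) = a at *
  generalize √(dg e z) = b at *
  rw [← h1]
  field_simp
  ring

theorem frame_sq {e : OpenPartialHomeomorph M HP} {z : E2} (h0 : 0 < g0 e z) (hd : 0 < dg e z)
    (p : E2 →L[ℝ] ℝ) : p (fr1 e z) ^ 2 + p (fr2 e z) ^ 2
      = (g2 e z * p (bv 0) ^ 2 - 2 * g1 e z * (p (bv 0) * p (bv 1)) + g0 e z * p (bv 1) ^ 2)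
        / dg e z := by
  have h1 := FRM_sq0 h0
  have h2 := FRM_sqd hd
  have h3 : dg e z = g0 e z * g2 e z - g1 e z * g1 e z := rfl
  rw [FRM_fr1, FRM_fr2, div_pow, div_pow, mul_pow, h1, h2, div_add_div _ _ h0.ne'
    (mul_pos h0 hd).ne', div_eq_div_iff (mul_pos h0 (mul_pos h0 hd)).ne' hd.ne']
  rw [h3]
  ring

theorem frame_norm {e : OpenPartialHomeomorph M HP} {z : E2} (h0 : 0 < g0 e z) (hd : 0 < dg e z)
    (α β : ℝ) : ‖dv e z (α • fr1 e z + β • fr2 e z)‖ ^ 2 = α ^ 2 + β ^ 2 := by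
  have ha : 0 < √(g0 e z) := Real.sqrt_pos.2 h0
  have hb : 0 < √(dg e z) := Real.sqrt_pos.2 hd
  have h1 := FRM_sq0 h0
  have h2 := FRM_sqd hd
  have h3 : dg e z = g0 e z * g2 e z - g1 e z * g1 e z := rfl
  have e1 : α • fr1 e z + β • fr2 e z =
      (α / √(g0 e z) - β * g1 e z / (√(g0 e z) * √(dg e z))) • bv 0
      + (β * g0 e z / (√(g0 e z) * √(dg e z))) • bv 1 := by
    rw [fr1, fr2]
    module
  rw [e1, norm_dv_sq]
  have k1 : (α / √(g0 e z) - β * g1 e z / (√(g0 e z) * √(dg e z))) ^ 2 * g0 e z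
      = (α * √(dg e z) - β * g1 e z) ^ 2 / dg e z := by
    have : (α / √(g0 e z) - β * g1 e z / (√(g0 e z) * √(dg e z)))
        = (α * √(dg e z) - β * g1 e z) / (√(g0 e z) * √(dg e z)) := by
      field_simp
    rw [this, div_pow, mul_pow, h1, h2]
    field_simp
  have k2 : 2 * ((α / √(g0 e z) - β * g1 e z / (√(g0 e z) * √(dg e z)))
      * (β * g0 e z / (√(g0 e z) * √(dg e z)))) * g1 e z
      = 2 * (α * √(dg e z) - β * g1 e z) * (β * g1 e z) / dg e z := by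
    have : (α / √(g0 e z) - β * g1 e z / (√(g0 e z) * √(dg e z)))
        * (β * g0 e z / (√(g0 e z) * √(dg e z)))
        = (α * √(dg e z) - β * g1 e z) * (β * g0 e z) / (√(g0 e z) ^ 2 * √(dg e z) ^ 2) := by
      field_simp
    rw [this, h1, h2]
    field_simp
  have k3 : (β * g0 e z / (√(g0 e z) * √(dg e z))) ^ 2 * g2 e z
      = β ^ 2 * g0 e z * g2 e z / dg e z := by
    rw [div_pow, mul_pow, mul_pow, h1, h2]
    field_simp
  rw [k1, k2, k3, ← add_div, ← add_div, div_eq_iff hd.ne']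
  have k4 : (α * √(dg e z) - β * g1 e z) ^ 2
      = α ^ 2 * √(dg e z) ^ 2 - 2 * (α * √(dg e z)) * (β * g1 e z) + (β * g1 e z) ^ 2 := by ring
  rw [k4, h2, h3]
  ring

end Pool.Agent.EWD
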