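import Mathlib
import Pool.Agent.EWD.GDF
import Pool.Agent.EWD.GRM
import Pool.Agent.EWD.FRM
import Pool.Agent.EWD.MUA
import Pool.Agent.EWD.LPA
import Pool.Agent.EWD.DIF

/-
BOU: the gradient of an `L`-Lipschitz function has norm at most `L`.  [about 70 lines]

If `L = 0` then `u` is constant and the derivatives vanish. If `L > 0` apply `fderiv_le_of_lip`
(H74/FAC/Riem2) to the 1-Lipschitz function `u/L` : `|pd e u z v| ≤ L ‖dv e z v‖` for `z` in the target with
`0 < z 0` (which holds on `(A.P k).O`). With `α = pd e u z fr1`, `β = pd e u z fr2`,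
`v = α • fr1 + β • fr2`: `pd e u z v = α² + β²` and `‖dv e z v‖ = √(α² + β²)` (`frame_norm`), so
`√(α² + β²) ≤ L`. Use `has_cpx` to identify `deriv` with `α`, `β`.
-/

open MeasureTheory Set Filter Measure Manifold Bundle
open scoped ContDiff Topology ENNReal NNReal

set_option linter.unusedSectionVars false

namespace Pool.Agent.EWD

open Pool.Agent.H74.FAC

variable {M : Type} [MetricSpace M] [ChartedSpace HP M] [IsManifold (𝓡∂ 2) ∞ M] [CompactSpace M]
  [RiemannianBundle (fun x : M => TangentSpace (𝓡∂ 2) x)]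
  [IsContMDiffRiemannianBundle (𝓡∂ 2) ∞ E2 (fun x : M => TangentSpace (𝓡∂ 2) x)]
  [IsRiemannianManifold (𝓡∂ 2) M]

theorem bound_field [Nonempty M] (A : Cov M) {u : M → ℝ} {L : ℝ≥0} (hu : LipschitzWith L u) :
    ∀ᵐ o ∂(mu A), deriv (fun s => u (cpx A o s)) 0 ^ 2 + deriv (fun s => u (cpy A o s)) 0 ^ 2
      ≤ (L : ℝ) ^ 2 := by
  refine mu_ae A fun k => ?_
  filter_upwards [has_cpx A ⟨L, hu⟩ k, ae_lip A ⟨L, hu⟩ k] with z h1 h2 hz
  obtain ⟨hx, hy⟩ := h1 hz
  obtain ⟨hO, hd⟩ := h2 hz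
  rw [hx.deriv, hy.deriv]
  have he := (A.P k).he
  have hzt : z ∈ ((A.P k).e.extend (𝓡∂ 2)).target := im_sub A k hz
  have hz0 : 0 < z 0 := hO.2
  have hg0 : 0 < g0 (A.P k).e z := g0_pos he hzt
  have hdg : 0 < dg (A.P k).e z := dg_pos he hzt
  set α := pd (A.P k).e u z (fr1 (A.P k).e z) with hα
  set β := pd (A.P k).e u z (fr2 (A.P k).e z) with hβ
  have hlin : pd (A.P k).e u z (α • fr1 (A.P k).e z + β • fr2 (A.P k).e z) = α ^ 2 + β ^ 2 := by
    unfold pd
    rw [map_add, map_smul, map_smul, smul_eq_mul, smul_eq_mul]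
    change α * α + β * β = _
    ring
  have hnorm := frame_norm hg0 hdg α β
  have key : ∀ v : E2, |pd (A.P k).e u z v| ≤ L * ‖dv (A.P k).e z v‖ := by
    intro v
    rcases eq_or_ne L 0 with hL | hL
    · subst hL
      have hc : ∀ x y : M, u x = u y := by
        intro x y
        have h3 := hu.dist_le_mul x y
        simp only [NNReal.coe_zero, zero_mul] at h3
        exact dist_le_zero.1 h3
      have hfun : (fun y => u (((A.P k).e.extend (𝓡∂ 2)).symm y))
          = fun _ : E2 => u (((A.P k).e.extend (𝓡∂ 2)).symm z) := by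
        funext y
        exact hc _ _
      unfold pd
      rw [hfun]
      simp
    · have hLpos : (0 : ℝ) < L := lt_of_le_of_ne L.2 (fun h => hL (NNReal.coe_eq_zero.1 h.symm))
      have hf : LipschitzWith 1 (fun x => (L : ℝ)⁻¹ * u x) := by
        refine LipschitzWith.of_dist_le_mul fun x y => ?_
        have h3 := hu.dist_le_mul x y
        rw [Real.dist_eq] at h3 ⊢
        rw [← mul_sub, abs_mul, abs_of_pos (inv_pos.2 hLpos), NNReal.coe_one, one_mul,
          inv_mul_le_iff₀ hLpos]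
        exact h3
      have h4 := fderiv_le_of_lip he hf hzt hz0 v
      have h5 : fderiv ℝ (fun w => (L : ℝ)⁻¹ * u (((A.P k).e.extend (𝓡∂ 2)).symm w)) z
          = (L : ℝ)⁻¹ • fderiv ℝ (fun w => u (((A.P k).e.extend (𝓡∂ 2)).symm w)) z :=
        fderiv_const_mul hd _
      rw [h5] at h4
      have h6 : |(L : ℝ)⁻¹ * pd (A.P k).e u z v| ≤ ‖dv (A.P k).e z v‖ := h4
      rw [abs_mul, abs_of_pos (inv_pos.2 hLpos), inv_mul_le_iff₀ hLpos] at h6
      exact h6
  have h7 := key (α • fr1 (A.P k).e z + β • fr2 (A.P k).e z)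
  rw [hlin, abs_of_nonneg (by positivity)] at h7
  have h8 : (α ^ 2 + β ^ 2) ^ 2 ≤ (L : ℝ) ^ 2 * (α ^ 2 + β ^ 2) := by
    calc (α ^ 2 + β ^ 2) ^ 2 ≤ (L * ‖dv (A.P k).e z (α • fr1 (A.P k).e z
          + β • fr2 (A.P k).e z)‖) ^ 2 := pow_le_pow_left₀ (by positivity) h7 2
      _ = (L : ℝ) ^ 2 * (α ^ 2 + β ^ 2) := by rw [mul_pow, hnorm]
  rcases (by positivity : 0 ≤ α ^ 2 + β ^ 2).eq_or_lt with h9 | h9
  · rw [← h9]
    positivity
  · have : (α ^ 2 + β ^ 2) * (α ^ 2 + β ^ 2) ≤ (L : ℝ) ^ 2 * (α ^ 2 + β ^ 2) := by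
      rw [← sq]
      exact h8
    exact le_of_mul_le_mul_right this h9

end Pool.Agent.EWD
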