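import Mathlib
import Pool.Agent.EWD.GDF
import Pool.Agent.EWD.GRM
import Pool.Agent.EWD.MUA
import Pool.Agent.EWD.LPA
import Pool.Agent.EWD.DIF

/-
MES: measurability.  [about 90 lines]

By `mu_aemeasurable` work on one piece. `u ∘ e.symm` agrees on `im A k` with a continuous function, or is
continuous on the target (`continuousOn_extend_symm`), hence a.e. measurable on the measurable set `im A k`.
The derivative: almost everywhere on `im A k` it is `pd e u z (fr1 e z)` (`has_cpx`, `HasDerivAt.deriv`)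
`= pd e u z (bv 0)/√(g0 e z)`, and `pd e u z v = fderiv (cut F) z v` on `(A.P k).O` where `F` is the globally
Lipschitz function of `(A.P k).cut hu` (`Cut.ev`, `Filter.EventuallyEq.fderiv_eq`), whose derivative is
measurable (`measurable_fderiv_apply_const`). `g0`, `g1`, `dg` are continuous on the target (GRM).
-/

open MeasureTheory Set Filter Measure Manifold Bundle
open scoped ContDiff Topology ENNReal NNReal

set_option linter.unusedSectionVars false

namespace Pool.Agent.EWD

open Pool.Agent.H74.FAC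

variable {M : Type} [MetricSpace M] [ChartedSpace HP M] [IsManifold (𝓡∂ 2) ∞ M] [CompactSpace M]
  [RiemannianBundle (fun x : M => TangentSpace (𝓡∂ 2) x)]
  [IsContMDiffRiemannianBundle (𝓡∂ 2) ∞ E2 (fun x : M => TangentSpace (𝓡∂ 2) x)]
  [IsRiemannianManifold (𝓡∂ 2) M]

theorem mpt_field [Nonempty M] (A : Cov M) {u : M → ℝ} (hu : Lip u) :
    AEMeasurable (fun o => u (cpx A o 0)) (mu A) := by
  refine mu_aemeasurable A fun k => ?_
  have h : ContinuousOn (fun z => u (((A.P k).e.extend (𝓡∂ 2)).symm z)) (im A k) :=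
    hu.cont.comp_continuousOn (((A.P k).e.continuousOn_extend_symm (I := 𝓡∂ 2)).mono (im_sub A k))
  have h2 : (fun z : E2 => u (cpx A ((k : ℕ), z) 0))
      = fun z => u (((A.P k).e.extend (𝓡∂ 2)).symm z) := by
    funext z
    rw [cpx_zero]
  rw [h2]
  exact h.aemeasurable (im_meas A k)

theorem pd_meas (A : Cov M) {u : M → ℝ} (hu : Lip u) (k : Fin A.n) (v : E2) :
    AEMeasurable (fun z => pd (A.P k).e u z v) (volume.restrict (im A k)) := by
  obtain ⟨L, hL⟩ := hu
  have F := (A.P k).cut hL
  refine ⟨fun z => fderiv ℝ F.F z v, measurable_fderiv_apply_const ℝ F.F v, ?_⟩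
  rw [Filter.EventuallyEq, ae_restrict_iff' (im_meas A k)]
  filter_upwards [im_O A k] with z h1 h2
  unfold pd
  rw [(F.ev (h1 h2)).fderiv_eq]

private theorem MES_g0 (A : Cov M) (k : Fin A.n) :
    AEMeasurable (g0 (A.P k).e) (volume.restrict (im A k)) :=
  ((continuousOn_g0 (A.P k).he).mono (im_sub A k)).aemeasurable (im_meas A k)

private theorem MES_g1 (A : Cov M) (k : Fin A.n) :
    AEMeasurable (g1 (A.P k).e) (volume.restrict (im A k)) :=
  ((continuousOn_g1 (A.P k).he).mono (im_sub A k)).aemeasurable (im_meas A k)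

private theorem MES_dg (A : Cov M) (k : Fin A.n) :
    AEMeasurable (dg (A.P k).e) (volume.restrict (im A k)) :=
  ((continuousOn_dg (A.P k).he).mono (im_sub A k)).aemeasurable (im_meas A k)

theorem mgx_field [Nonempty M] (A : Cov M) {u : M → ℝ} (hu : Lip u) :
    AEMeasurable (fun o => deriv (fun s => u (cpx A o s)) 0) (mu A) := by
  refine mu_aemeasurable A fun k => ?_
  have h1 : AEMeasurable (fun z => (√(g0 (A.P k).e z))⁻¹ * pd (A.P k).e u z (bv 0))
      (volume.restrict (im A k)) :=
    (MES_g0 A k).sqrt.inv.mul (pd_meas A hu k (bv 0))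
  refine h1.congr ?_
  rw [Filter.EventuallyEq, ae_restrict_iff' (im_meas A k)]
  filter_upwards [has_cpx A hu k] with z h2 h3
  rw [(h2 h3).1.deriv]
  unfold pd fr1
  rw [map_smul, smul_eq_mul]

theorem mgy_field [Nonempty M] (A : Cov M) {u : M → ℝ} (hu : Lip u) :
    AEMeasurable (fun o => deriv (fun s => u (cpy A o s)) 0) (mu A) := by
  refine mu_aemeasurable A fun k => ?_
  have h1 : AEMeasurable (fun z => (√(g0 (A.P k).e z) * √(dg (A.P k).e z))⁻¹ *
      (g0 (A.P k).e z * pd (A.P k).e u z (bv 1) - g1 (A.P k).e z * pd (A.P k).e u z (bv 0)))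
      (volume.restrict (im A k)) :=
    ((MES_g0 A k).sqrt.mul (MES_dg A k).sqrt).inv.mul
      (((MES_g0 A k).mul (pd_meas A hu k (bv 1))).sub ((MES_g1 A k).mul (pd_meas A hu k (bv 0))))
  refine h1.congr ?_
  rw [Filter.EventuallyEq, ae_restrict_iff' (im_meas A k)]
  filter_upwards [has_cpx A hu k] with z h2 h3
  rw [(h2 h3).2.deriv]
  unfold pd fr2
  rw [map_smul, map_sub, map_smul, map_smul, smul_eq_mul, smul_eq_mul, smul_eq_mul]

end Pool.Agent.EWD
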