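import Mathlib
import Pool.Agent.EWD.GDF
import Pool.Agent.EWD.GRM
import Pool.Agent.EWD.MUA

/-
MUB: the total mass.  [about 90 lines]

`mu A univ = ∑ ∫⁻_{im A k} ofReal √dg` (`mu_lint` with `f = 1`). Since `dg = det gram` (`dg_eq`), this is one of
the sums in the definition of `area M`: family `e k = (A.P k).e`, `S = A.S` (see the end of the proof
of `area_ge` in H74/FAC/Geo2), so `mu A univ ≤ area M`.
Finiteness: `im A k ⊆ closedBall c r ∩ {0 ≤ z 0} ⊆ (A.P k).D` (`Patch.image_V`, `A.S_sub k`), a compact subset of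
the target (`Patch.sub`), on which the continuous function `√dg` is bounded; the volume of a ball is
finite.
-/

open MeasureTheory Set Filter Measure Manifold Bundle
open scoped ContDiff Topology ENNReal NNReal

set_option linter.unusedSectionVars false

namespace Pool.Agent.EWD

open Pool.Agent.H74.FAC

variable {M : Type} [MetricSpace M] [ChartedSpace HP M] [IsManifold (𝓡∂ 2) ∞ M] [CompactSpace M]
  [RiemannianBundle (fun x : M => TangentSpace (𝓡∂ 2) x)]
  [IsContMDiffRiemannianBundle (𝓡∂ 2) ∞ E2 (fun x : M => TangentSpace (𝓡∂ 2) x)]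
  [IsRiemannianManifold (𝓡∂ 2) M]

private lemma mu_univ (A : Cov M) : mu A univ = ∑ k : Fin A.n, ∫⁻ z in im A k,
    ENNReal.ofReal √(dg (A.P k).e z) := by
  have h := mu_lint A (f := fun _ => 1) aemeasurable_const
  rw [lintegral_one] at h
  rw [h]
  simp only [mul_one]

private lemma im_ball (A : Cov M) (k : Fin A.n) :
    im A k ⊆ Metric.closedBall (A.P k).c (A.P k).r ∩ {z : E2 | 0 ≤ z 0} := by
  have h1 : im A k ⊆ (A.P k).e.extend (𝓡∂ 2) '' (A.P k).V := image_mono (A.S_sub k)
  rw [(A.P k).image_V] at h1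
  exact h1.trans (inter_subset_inter_left _ Metric.ball_subset_closedBall)

private lemma piece_lt_top (A : Cov M) (k : Fin A.n) :
    ∫⁻ z in im A k, ENNReal.ofReal √(dg (A.P k).e z) < ⊤ := by
  set C : Set E2 := Metric.closedBall (A.P k).c (A.P k).r ∩ {z : E2 | 0 ≤ z 0} with hC
  have hclosed : IsClosed {z : E2 | 0 ≤ z 0} := by
    have : Continuous (fun z : E2 => z 0) := by fun_prop
    exact isClosed_le continuous_const this
  have hcpt : IsCompact C := (isCompact_closedBall _ _).inter_right hclosed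
  have hsub : C ⊆ ((A.P k).e.extend (𝓡∂ 2)).target := by
    intro z hz
    apply (A.P k).sub
    refine ⟨?_, hz.2⟩
    have h1 := hz.1
    rw [Metric.mem_closedBall] at h1
    rw [Metric.mem_ball]
    have := (A.P k).hr
    linarith
  have hcont : ContinuousOn (fun z => √(dg (A.P k).e z)) C :=
    (continuousOn_dg (A.P k).he).sqrt.mono hsub
  obtain ⟨B, hB⟩ := hcpt.exists_bound_of_continuousOn hcont
  calc ∫⁻ z in im A k, ENNReal.ofReal √(dg (A.P k).e z)
      ≤ ∫⁻ z in im A k, ENNReal.ofReal B := by
        apply setLIntegral_mono' (im_meas A k)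
        intro z hz
        apply ENNReal.ofReal_le_ofReal
        have := hB z (im_ball A k hz)
        rw [Real.norm_eq_abs] at this
        exact (le_abs_self _).trans this
    _ = ENNReal.ofReal B * volume (im A k) := by
        rw [setLIntegral_const]
    _ < ⊤ := by
        apply ENNReal.mul_lt_top ENNReal.ofReal_lt_top
        exact lt_of_le_of_lt (measure_mono (im_ball A k)) hcpt.measure_lt_top

theorem mu_fin (A : Cov M) : IsFiniteMeasure (mu A) := by
  refine ⟨?_⟩
  rw [mu_univ]
  exact ENNReal.sum_lt_top.2 fun k _ => piece_lt_top A k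

theorem mu_le_area (A : Cov M) : mu A univ ≤ area M := by
  rw [mu_univ]
  have h : ∀ k : Fin A.n, ∫⁻ z in im A k, ENNReal.ofReal √(dg (A.P k).e z)
      = ∫⁻ z in (A.P k).e.extend (𝓡∂ 2) '' (A.S k),
        ENNReal.ofReal (Real.sqrt (gram (A.P k).e z).det) := by
    intro k
    simp only [dg_eq]
    rfl
  simp only [h]
  unfold area
  exact le_iSup_of_le A.n (le_iSup_of_le (fun k => (A.P k).e) (le_iSup_of_le A.S
    (le_iSup_of_le ⟨fun k => (A.P k).he, A.S_meas, fun k => (A.S_sub k).trans (A.P k).V_sub,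
      A.S_disj⟩ le_rfl)))

end Pool.Agent.EWD
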