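import Mathlib
import Pool.Agent.EWD.GDF
import Pool.Agent.EWD.GRM
import Pool.Agent.EWD.FRM
import Pool.Agent.EWD.MUA
import Pool.Agent.EWD.LPA
import Pool.Agent.EWD.DIF
import Pool.Agent.EWD.MES
import Pool.Agent.EWD.BOU

/-
STO: the integral of the Jacobian.  [about 100 lines]

On the piece `k`, almost everywhere on `im A k`: `wed √dg = Jc e u w` (`has_cpx`, `frame_wedge`; `Jc` is
`pd u b₀ pd w b₁ - pd u b₁ pd w b₀`). The integrand is bounded (`bound_field`) and a.e. measurable, so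
integrable, and `mu_int` gives the sum of `∫_{im A k} Jc = A.B u w` (`Cov.B`). Then `Cov.stokes`.
`wint` is the same computation with a bounded weight `f ∘ e.symm`.
-/

open MeasureTheory Set Filter Measure Manifold Bundle
open scoped ContDiff Topology ENNReal NNReal

set_option linter.unusedSectionVars false

namespace Pool.Agent.EWD

open Pool.Agent.H74.FAC

variable {M : Type} [MetricSpace M] [ChartedSpace HP M] [IsManifold (𝓡∂ 2) ∞ M] [CompactSpace M]
  [RiemannianBundle (fun x : M => TangentSpace (𝓡∂ 2) x)]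
  [IsContMDiffRiemannianBundle (𝓡∂ 2) ∞ E2 (fun x : M => TangentSpace (𝓡∂ 2) x)]
  [IsRiemannianManifold (𝓡∂ 2) M]

private theorem STO_pt [Nonempty M] (A : Cov M) {f : M → ℝ} {u w : M → ℝ} (hu : Lip u)
    (hw : Lip w) (k : Fin A.n) : ∀ᵐ z : E2, z ∈ im A k →
    √(dg (A.P k).e z) * (f (cpx A ((k : ℕ), z) 0) *
      (deriv (fun s => u (cpx A ((k : ℕ), z) s)) 0 * deriv (fun s => w (cpy A ((k : ℕ), z) s)) 0
      - deriv (fun s => u (cpy A ((k : ℕ), z) s)) 0 * deriv (fun s => w (cpx A ((k : ℕ), z) s)) 0))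
      = f (((A.P k).e.extend (𝓡∂ 2)).symm z) * Jc (A.P k).e u w z := by
  filter_upwards [has_cpx A hu k, has_cpx A hw k] with z h1 h2 h3
  have ht := im_sub A k h3
  have p0 := g0_pos (A.P k).he ht
  have pd' := dg_pos (A.P k).he ht
  rw [cpx_zero, (h1 h3).1.deriv, (h1 h3).2.deriv, (h2 h3).1.deriv, (h2 h3).2.deriv]
  have hfr := frame_wedge p0 pd'
    (fderiv ℝ (fun y => u (((A.P k).e.extend (𝓡∂ 2)).symm y)) z)
    (fderiv ℝ (fun y => w (((A.P k).e.extend (𝓡∂ 2)).symm y)) z)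
  unfold pd Jc
  rw [hfr]
  have hs : √(dg (A.P k).e z) ≠ 0 := (Real.sqrt_pos.2 pd').ne'
  field_simp

private theorem STO_meas_f [Nonempty M] (A : Cov M) {f : M → ℝ} (hf : Continuous f) :
    AEMeasurable (fun o => f (cpx A o 0)) (mu A) := by
  refine mu_aemeasurable A fun k => ?_
  have h1 : ContinuousOn (fun z => f (((A.P k).e.extend (𝓡∂ 2)).symm z)) (im A k) :=
    hf.comp_continuousOn ((A.P k).e.continuousOn_extend_symm.mono (im_sub A k))
  have h2 := h1.aemeasurable (μ := volume) (im_meas A k)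
  simpa only [cpx_zero] using h2

private theorem STO_int [Nonempty M] (A : Cov M) {f : M → ℝ} (hf : Continuous f) {u w : M → ℝ}
    (hu : Lip u) (hw : Lip w) :
    Integrable (fun o => f (cpx A o 0) *
      (deriv (fun s => u (cpx A o s)) 0 * deriv (fun s => w (cpy A o s)) 0
      - deriv (fun s => u (cpy A o s)) 0 * deriv (fun s => w (cpx A o s)) 0)) (mu A) := by
  have hm : AEMeasurable (fun o => f (cpx A o 0) *
      (deriv (fun s => u (cpx A o s)) 0 * deriv (fun s => w (cpy A o s)) 0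
      - deriv (fun s => u (cpy A o s)) 0 * deriv (fun s => w (cpx A o s)) 0)) (mu A) :=
    (STO_meas_f A hf).mul (((mgx_field A hu).mul (mgy_field A hw)).sub
      ((mgy_field A hu).mul (mgx_field A hw)))
  refine ⟨hm.aestronglyMeasurable, ?_⟩
  rw [hasFiniteIntegral_iff_enorm, mu_lint A hm.enorm]
  refine ENNReal.sum_lt_top.2 fun k _ => ?_
  obtain ⟨B, hB⟩ := isCompact_univ.exists_bound_of_continuousOn hf.continuousOn
  obtain ⟨L, hL⟩ := hu
  obtain ⟨L', hL'⟩ := hw
  have hJ : IntegrableOn (Jc (A.P k).e u w) (im A k) :=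
    Patch.integrableOn_Jc hL hL' (A.S_meas k) (A.S_sub k)
  have hle : ∫⁻ z in im A k, ENNReal.ofReal √(dg (A.P k).e z) * ‖f (cpx A ((k : ℕ), z) 0) *
      (deriv (fun s => u (cpx A ((k : ℕ), z) s)) 0 * deriv (fun s => w (cpy A ((k : ℕ), z) s)) 0
      - deriv (fun s => u (cpy A ((k : ℕ), z) s)) 0 * deriv (fun s => w (cpx A ((k : ℕ), z) s)) 0)‖ₑ
      ≤ ∫⁻ z in im A k, ENNReal.ofReal B * ‖Jc (A.P k).e u w z‖ₑ := by
    refine setLIntegral_mono_ae' (im_meas A k) ?_
    filter_upwards [STO_pt A (f := f) ⟨L, hL⟩ ⟨L', hL'⟩ k] with z h1 h2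
    have h3 := h1 h2
    have h4 : ENNReal.ofReal √(dg (A.P k).e z) = ‖√(dg (A.P k).e z)‖ₑ := by
      rw [← ofReal_norm, Real.norm_eq_abs, abs_of_nonneg (Real.sqrt_nonneg _)]
    rw [h4, ← enorm_mul, h3, enorm_mul]
    refine mul_le_mul_left ?_ _
    rw [← ofReal_norm]
    exact ENNReal.ofReal_le_ofReal (hB _ (mem_univ _))
  refine lt_of_le_of_lt hle ?_
  rw [lintegral_const_mul' _ _ ENNReal.ofReal_ne_top]
  exact ENNReal.mul_lt_top ENNReal.ofReal_lt_top hJ.2

theorem wint [Nonempty M] (A : Cov M) {f : M → ℝ} (hf : Continuous f) {u w : M → ℝ} (hu : Lip u)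
    (hw : Lip w) :
    ∫ o, f (cpx A o 0) * (deriv (fun s => u (cpx A o s)) 0 * deriv (fun s => w (cpy A o s)) 0
      - deriv (fun s => u (cpy A o s)) 0 * deriv (fun s => w (cpx A o s)) 0) ∂(mu A)
      = BT A f univ u w := by
  rw [mu_int A (STO_int A hf hu hw)]
  unfold BT
  refine Finset.sum_congr rfl fun k _ => ?_
  rw [inter_univ]
  refine setIntegral_congr_ae (im_meas A k) ?_
  exact STO_pt A (f := f) hu hw k

theorem stokes_field [Nonempty M] (A : Cov M) {u w : M → ℝ} (hu : Lip u) (hw : Lip w) :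
    ∫ o, (deriv (fun s => u (cpx A o s)) 0 * deriv (fun s => w (cpy A o s)) 0
      - deriv (fun s => u (cpy A o s)) 0 * deriv (fun s => w (cpx A o s)) 0) ∂(mu A)
      = A.B u w := by
  have h := wint A (f := fun _ => (1 : ℝ)) continuous_const hu hw
  unfold BT at h
  simp only [one_mul, inter_univ] at h
  exact h

end Pool.Agent.EWD
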