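import Mathlib
import Pool.Agent.EWD.GDF
import Pool.Agent.EWD.MUB
import Pool.Agent.EWD.DIF
import Pool.Agent.EWD.MES
import Pool.Agent.EWD.BOU
import Pool.Agent.EWD.STO

/-
CAL: the Dirichlet calculus of a filling (helper81).
-/

open MeasureTheory Set Filter Measure Manifold Bundle
open scoped ContDiff Topology ENNReal NNReal

set_option linter.unusedSectionVars false

noncomputable section

namespace Pool.Agent.EWD

open Pool.Agent.H74.FAC

variable {M : Type} [MetricSpace M] [ChartedSpace HP M] [IsManifold (𝓡∂ 2) ∞ M] [CompactSpace M]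
  [RiemannianBundle (fun x : M => TangentSpace (𝓡∂ 2) x)]
  [IsContMDiffRiemannianBundle (𝓡∂ 2) ∞ E2 (fun x : M => TangentSpace (𝓡∂ 2) x)]
  [IsRiemannianManifold (𝓡∂ 2) M]

/-- the boundary curve -/
def gam (φ : S1 → M) (t : ℝ) : M := φ (t : S1)

theorem bd_gam {φ : S1 → M} (hφ : IsometricFilling φ) : Bd (gam φ) where
  lip := by
    apply LipschitzWith.of_dist_le_mul
    intro s t
    rw [NNReal.coe_one, one_mul, Real.dist_eq]
    unfold gam
    rw [hφ.dist_eq]
    exact dist_circle_le s t
  per := fun t => by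
    unfold gam
    rw [AddCircle.coe_add_period]
  anti := fun t => by
    unfold gam
    rw [hφ.dist_eq, dist_circle]
    · rw [sub_add_cancel_left, abs_neg, abs_of_pos Real.pi_pos]
    · rw [sub_add_cancel_left, abs_neg, abs_of_pos Real.pi_pos]

/-- the Dirichlet calculus of a filling -/
def cal [Nonempty M] (A : Cov M) {φ : S1 → M} (hφ : IsometricFilling φ) : Calc M (gam φ) where
  μ := mu A
  px := cpx A
  py := cpy A
  sg := Classical.choose (A.stokes hφ)
  same := cpy_eq_cpx A
  fin := mu_fin A
  pm := (Classical.choose_spec (A.stokes hφ)).1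
  mpt := fun u hu => mpt_field A hu
  mgx := fun u hu => mgx_field A hu
  mgy := fun u hu => mgy_field A hu
  dif := fun u hu => dif_field A hu
  bound := fun u L hu => bound_field A hu
  stokes := fun u w hu hw => by
    obtain ⟨L, hL⟩ := hu
    obtain ⟨L', hL'⟩ := hw
    rw [stokes_field A ⟨L, hL⟩ ⟨L', hL'⟩]
    exact (Classical.choose_spec (A.stokes hφ)).2 u w L L' hL hL'

theorem cal_vol_le [Nonempty M] (A : Cov M) {φ : S1 → M} (hφ : IsometricFilling φ) :
    ENNReal.ofReal (cal A hφ).vol ≤ area M := by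
  have h := mu_le_area A
  haveI := mu_fin A
  show ENNReal.ofReal (mu A univ).toReal ≤ area M
  rw [ENNReal.ofReal_toReal (measure_ne_top _ _)]
  exact h

end Pool.Agent.EWD
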