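import Mathlib
import Pool.Agent.EWD.GDF
import Pool.Agent.EWD.GRM

/-
GTR: change of charts for the metric and the energy density.  [about 140 lines]

Let `x` be an interior point in the sources of `e` and `e'`, `z = e x`, `z' = e' x`, `D = fderiv (cc e e') z`
(`cc` is the coordinate change, H74/FAC/Chg, `cc_apply : cc e e' z = z'`).
(1) `dv_transfer`: near `z`, `e.symm = e'.symm ∘ cc e e'` (`cc_source_nhds`, proof of `comp_eq`), so by the chain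
 rule `dv e z v = dv e' z' (D v)`. The two sides live in the tangent spaces at `e.symm z` and
 `e'.symm (cc z)`, which are both `x`; to avoid the cast state it for norms: for all `v`,
 `‖dv e z v‖ = ‖dv e' z' (D v)‖`. (At interior points `mfderivWithin` over `range` is `mfderiv`:
 `mfderivWithin_of_mem_nhds`, `range_nhds`; `mfderiv_comp`.) By polarisation (`norm_dv_sq`) this gives the
 relation of the gram matrices `gram e z = Dᵀ gram e' z' D`, in particular `dg e z = (det D)² dg e' z'`.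
(2) `dens_transfer`: with `P, Q` the derivatives of `w ∘ e.symm`, `w ∘ e'.symm`: `P = Q ∘ D` (as in
 `fderiv_transfer`, also if not differentiable), and
 `g2 ‖P b₀‖² - 2 g1 ⟪P b₀, P b₁⟫ + g0 ‖P b₁‖² = (det D)² (g2' ‖Q b₀‖² - ...)`: both sides are
 `dg · tr(g⁻¹ P*P)`; write it out with the four entries of `D` (`vec_eq`, bilinearity of the inner product)
 and `ring`. Divide by `√dg = |det D| √dg'`.
-/

open MeasureTheory Set Filter Measure Manifold Bundle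
open scoped ContDiff Topology ENNReal NNReal

set_option linter.unusedSectionVars false

namespace Pool.Agent.EWD

open Pool.Agent.H74.FAC

variable {M : Type} [MetricSpace M] [ChartedSpace HP M] [IsManifold (𝓡∂ 2) ∞ M] [CompactSpace M]
  [RiemannianBundle (fun x : M => TangentSpace (𝓡∂ 2) x)]
  [IsContMDiffRiemannianBundle (𝓡∂ 2) ∞ E2 (fun x : M => TangentSpace (𝓡∂ 2) x)]
  [IsRiemannianManifold (𝓡∂ 2) M]

variable {e e' : OpenPartialHomeomorph M HP}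

private theorem gtr_norm {p q : M} (h : p = q) (v : E2) :
    ‖(show TangentSpace (𝓡∂ 2) p from v)‖ = ‖(show TangentSpace (𝓡∂ 2) q from v)‖ := by
  subst h
  rfl

private theorem gtr_symm_diff (he : e ∈ IsManifold.maximalAtlas (𝓡∂ 2) ∞ M) {x : M}
    (hx : x ∈ e.source) (h : 0 < (e.extend (𝓡∂ 2) x) 0) :
    MDifferentiableAt 𝓘(ℝ, E2) (𝓡∂ 2) (e.extend (𝓡∂ 2)).symm (e.extend (𝓡∂ 2) x) := by
  have h1 : (e.extend (𝓡∂ 2)).target ∈ 𝓝 (e.extend (𝓡∂ 2) x) := by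
    rw [← mem_interior_target_iff e hx] at h
    exact mem_interior_iff_mem_nhds.1 h
  exact ((cmd_symm he).contMDiffAt h1).mdifferentiableAt (by simp)

private theorem gtr_dv {x : M} (h : 0 < (e.extend (𝓡∂ 2) x) 0) (w : E2) (p : E2)
    (hp : p = e.extend (𝓡∂ 2) x) :
    ‖mfderiv 𝓘(ℝ, E2) (𝓡∂ 2) (e.extend (𝓡∂ 2)).symm p w‖ = ‖dv e (e.extend (𝓡∂ 2) x) w‖ := by
  subst hp
  unfold dv
  rw [mfderivWithin_of_mem_nhds (range_nhds h)]

private theorem gtr_ev {x : M} (hx : x ∈ e.source) (hx' : x ∈ e'.source)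
    (h : 0 < (e.extend (𝓡∂ 2) x) 0) :
    (fun y => (e.extend (𝓡∂ 2)).symm y) =ᶠ[𝓝 (e.extend (𝓡∂ 2) x)]
      (e'.extend (𝓡∂ 2)).symm ∘ cc e e' := by
  filter_upwards [cc_source_nhds hx hx' h] with y hy
  have hy' : (e.extend (𝓡∂ 2)).symm y ∈ e'.source := by
    have := hy.2
    rwa [mem_preimage, OpenPartialHomeomorph.extend_source] at this
  simp only [Function.comp, cc]
  rw [ext_left_inv hy']

theorem dv_transfer (he : e ∈ IsManifold.maximalAtlas (𝓡∂ 2) ∞ M)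
    (he' : e' ∈ IsManifold.maximalAtlas (𝓡∂ 2) ∞ M) {x : M} (hx : x ∈ e.source)
    (hx' : x ∈ e'.source) (h : 0 < (e.extend (𝓡∂ 2) x) 0) (v : E2) :
    ‖dv e (e.extend (𝓡∂ 2) x) v‖
      = ‖dv e' (e'.extend (𝓡∂ 2) x) (fderiv ℝ (cc e e') (e.extend (𝓡∂ 2) x) v)‖ := by
  have h' : 0 < (e'.extend (𝓡∂ 2) x) 0 := pos_of_pos he he' hx hx' h
  have d1 : ∀ p, p = e'.extend (𝓡∂ 2) x → HasMFDerivAt 𝓘(ℝ, E2) (𝓡∂ 2) (e'.extend (𝓡∂ 2)).symm p
      (mfderiv 𝓘(ℝ, E2) (𝓡∂ 2) (e'.extend (𝓡∂ 2)).symm p) := by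
    rintro p rfl
    exact (gtr_symm_diff he' hx' h').hasMFDerivAt
  have d2 : HasMFDerivAt 𝓘(ℝ, E2) 𝓘(ℝ, E2) (cc e e') (e.extend (𝓡∂ 2) x)
      (fderiv ℝ (cc e e') (e.extend (𝓡∂ 2) x)) :=
    (cc_hasFDerivAt he he' hx hx' h).hasFDerivAt.hasMFDerivAt
  have d3 := (HasMFDerivAt.comp _ (d1 _ (cc_apply hx)) d2).congr_of_eventuallyEq (gtr_ev hx hx' h)
  have d4 := d3.mfderiv
  have hpt : (e.extend (𝓡∂ 2)).symm (e.extend (𝓡∂ 2) x)
      = (e'.extend (𝓡∂ 2)).symm (cc e e' (e.extend (𝓡∂ 2) x)) := by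
    rw [cc_apply hx, ext_left_inv hx, ext_left_inv hx']
  rw [← gtr_dv h v _ rfl, ← gtr_dv h' _ _ (cc_apply hx)]
  have d5 : mfderiv 𝓘(ℝ, E2) (𝓡∂ 2) (e.extend (𝓡∂ 2)).symm (e.extend (𝓡∂ 2) x) v
      = (show TangentSpace (𝓡∂ 2) ((e.extend (𝓡∂ 2)).symm (e.extend (𝓡∂ 2) x)) from
        mfderiv 𝓘(ℝ, E2) (𝓡∂ 2) (e'.extend (𝓡∂ 2)).symm (cc e e' (e.extend (𝓡∂ 2) x))
          (fderiv ℝ (cc e e') (e.extend (𝓡∂ 2) x) v)) :=
    congrArg (fun L : E2 →L[ℝ] E2 => L v) d4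
  rw [d5]
  exact gtr_norm hpt _

theorem fderiv_transfer_vec (he : e ∈ IsManifold.maximalAtlas (𝓡∂ 2) ∞ M)
    (he' : e' ∈ IsManifold.maximalAtlas (𝓡∂ 2) ∞ M) {N : ℕ} (w : M → EuclideanSpace ℝ (Fin N))
    {x : M} (hx : x ∈ e.source) (hx' : x ∈ e'.source) (h : 0 < (e.extend (𝓡∂ 2) x) 0) :
    fderiv ℝ (fun y => w ((e.extend (𝓡∂ 2)).symm y)) (e.extend (𝓡∂ 2) x)
      = (fderiv ℝ (fun y => w ((e'.extend (𝓡∂ 2)).symm y)) (e'.extend (𝓡∂ 2) x)).comp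
        (fderiv ℝ (cc e e') (e.extend (𝓡∂ 2) x)) := by
  have hev : ∀ {e e' : OpenPartialHomeomorph M HP}, x ∈ e.source → x ∈ e'.source →
      0 < (e.extend (𝓡∂ 2) x) 0 → (fun y => w ((e.extend (𝓡∂ 2)).symm y)) =ᶠ[𝓝 (e.extend (𝓡∂ 2) x)]
        (fun y => w ((e'.extend (𝓡∂ 2)).symm y)) ∘ cc e e' := by
    intro e e' hx hx' h
    filter_upwards [gtr_ev hx hx' h] with y hy
    simp only [Function.comp] at hy ⊢
    rw [hy]
  have hdt : ∀ {e e' : OpenPartialHomeomorph M HP}, e ∈ IsManifold.maximalAtlas (𝓡∂ 2) ∞ M →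
      e' ∈ IsManifold.maximalAtlas (𝓡∂ 2) ∞ M → x ∈ e.source → x ∈ e'.source →
      0 < (e.extend (𝓡∂ 2) x) 0 →
      DifferentiableAt ℝ (fun y => w ((e'.extend (𝓡∂ 2)).symm y)) (e'.extend (𝓡∂ 2) x) →
      DifferentiableAt ℝ (fun y => w ((e.extend (𝓡∂ 2)).symm y)) (e.extend (𝓡∂ 2) x) := by
    intro e e' he he' hx hx' h hd
    rw [(hev hx hx' h).differentiableAt_iff]
    apply DifferentiableAt.comp _ _ (cc_hasFDerivAt he he' hx hx' h)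
    rwa [cc_apply hx]
  by_cases hd : DifferentiableAt ℝ (fun y => w ((e'.extend (𝓡∂ 2)).symm y)) (e'.extend (𝓡∂ 2) x)
  · rw [(hev hx hx' h).fderiv_eq]
    rw [fderiv_comp]
    · rw [cc_apply hx]
    · rwa [cc_apply hx]
    · exact cc_hasFDerivAt he he' hx hx' h
  · rw [fderiv_zero_of_not_differentiableAt hd]
    rw [fderiv_zero_of_not_differentiableAt]
    · simp
    · intro hd2
      exact hd (hdt he' he hx' hx (pos_of_pos he he' hx hx' h) hd2)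

theorem dens_transfer (he : e ∈ IsManifold.maximalAtlas (𝓡∂ 2) ∞ M)
    (he' : e' ∈ IsManifold.maximalAtlas (𝓡∂ 2) ∞ M) {N : ℕ} (w : M → EuclideanSpace ℝ (Fin N))
    {x : M} (hx : x ∈ e.source) (hx' : x ∈ e'.source) (h : 0 < (e.extend (𝓡∂ 2) x) 0) :
    dens e w (e.extend (𝓡∂ 2) x)
      = |(fderiv ℝ (cc e e') (e.extend (𝓡∂ 2) x)).det| * dens e' w (e'.extend (𝓡∂ 2) x) := by
  have hdv := dv_transfer he he' hx hx' h
  have hfd := fderiv_transfer_vec he he' w hx hx' h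
  have hdet := det_E2 (fderiv ℝ (cc e e') (e.extend (𝓡∂ 2) x))
  generalize fderiv ℝ (cc e e') (e.extend (𝓡∂ 2) x) = D at hdv hfd hdet ⊢
  obtain ⟨a, ha⟩ : ∃ a, a = (D (bv 0)) 0 := ⟨_, rfl⟩
  obtain ⟨b, hb⟩ : ∃ b, b = (D (bv 0)) 1 := ⟨_, rfl⟩
  obtain ⟨c, hc⟩ : ∃ c, c = (D (bv 1)) 0 := ⟨_, rfl⟩
  obtain ⟨d, hd⟩ : ∃ d, d = (D (bv 1)) 1 := ⟨_, rfl⟩
  rw [← ha, ← hb, ← hc, ← hd] at hdet
  have D0 : D (bv 0) = a • bv 0 + b • bv 1 := by rw [ha, hb]; exact vec_eq _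
  have D1 : D (bv 1) = c • bv 0 + d • bv 1 := by rw [hc, hd]; exact vec_eq _
  have D2 : D (bv 0 + bv 1) = (a + c) • bv 0 + (b + d) • bv 1 := by
    rw [map_add, D0, D1, add_smul, add_smul]
    abel
  have n0 : g0 e (e.extend (𝓡∂ 2) x) = a ^ 2 * g0 e' (e'.extend (𝓡∂ 2) x)
      + 2 * (a * b) * g1 e' (e'.extend (𝓡∂ 2) x) + b ^ 2 * g2 e' (e'.extend (𝓡∂ 2) x) := by
    have k1 := norm_dv_sq e (e.extend (𝓡∂ 2) x) 1 0
    have k2 := norm_dv_sq e' (e'.extend (𝓡∂ 2) x) a b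
    rw [one_smul, zero_smul, add_zero, hdv, D0, k2] at k1
    linarith
  have n2 : g2 e (e.extend (𝓡∂ 2) x) = c ^ 2 * g0 e' (e'.extend (𝓡∂ 2) x)
      + 2 * (c * d) * g1 e' (e'.extend (𝓡∂ 2) x) + d ^ 2 * g2 e' (e'.extend (𝓡∂ 2) x) := by
    have k1 := norm_dv_sq e (e.extend (𝓡∂ 2) x) 0 1
    have k2 := norm_dv_sq e' (e'.extend (𝓡∂ 2) x) c d
    rw [one_smul, zero_smul, zero_add, hdv, D1, k2] at k1
    linarith
  have n1 : g1 e (e.extend (𝓡∂ 2) x) = a * c * g0 e' (e'.extend (𝓡∂ 2) x)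
      + (a * d + b * c) * g1 e' (e'.extend (𝓡∂ 2) x) + b * d * g2 e' (e'.extend (𝓡∂ 2) x) := by
    have k1 := norm_dv_sq e (e.extend (𝓡∂ 2) x) 1 1
    have k2 := norm_dv_sq e' (e'.extend (𝓡∂ 2) x) (a + c) (b + d)
    rw [one_smul, one_smul, hdv, D2, k2] at k1
    rw [n0, n2] at k1
    linarith
  have P0 : fderiv ℝ (fun y => w ((e.extend (𝓡∂ 2)).symm y)) (e.extend (𝓡∂ 2) x) (bv 0)
      = a • fderiv ℝ (fun y => w ((e'.extend (𝓡∂ 2)).symm y)) (e'.extend (𝓡∂ 2) x) (bv 0)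
      + b • fderiv ℝ (fun y => w ((e'.extend (𝓡∂ 2)).symm y)) (e'.extend (𝓡∂ 2) x) (bv 1) := by
    rw [hfd, ContinuousLinearMap.comp_apply, D0, map_add, map_smul, map_smul]
  have P1 : fderiv ℝ (fun y => w ((e.extend (𝓡∂ 2)).symm y)) (e.extend (𝓡∂ 2) x) (bv 1)
      = c • fderiv ℝ (fun y => w ((e'.extend (𝓡∂ 2)).symm y)) (e'.extend (𝓡∂ 2) x) (bv 0)
      + d • fderiv ℝ (fun y => w ((e'.extend (𝓡∂ 2)).symm y)) (e'.extend (𝓡∂ 2) x) (bv 1) := by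
    rw [hfd, ContinuousLinearMap.comp_apply, D1, map_add, map_smul, map_smul]
  have eG : ∀ (e : OpenPartialHomeomorph M HP) (z : E2), gram e z 0 0 = g0 e z ∧
      gram e z 0 1 = g1 e z ∧ gram e z 1 1 = g2 e z := fun e z => ⟨rfl, rfl, rfl⟩
  unfold dens
  rw [P0, P1, dg_eq, dg_eq, (eG _ _).1, (eG _ _).2.1, (eG _ _).2.2, (eG _ _).1, (eG _ _).2.1,
    (eG _ _).2.2]
  have hdg : dg e (e.extend (𝓡∂ 2) x) = (a * d - c * b) ^ 2 * dg e' (e'.extend (𝓡∂ 2) x) := by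
    unfold dg
    rw [n0, n1, n2]
    ring
  rw [hdg, n0, n1, n2, hdet]
  generalize fderiv ℝ (fun y => w ((e'.extend (𝓡∂ 2)).symm y)) (e'.extend (𝓡∂ 2) x) (bv 0) = p
  generalize fderiv ℝ (fun y => w ((e'.extend (𝓡∂ 2)).symm y)) (e'.extend (𝓡∂ 2) x) (bv 1) = q
  generalize g0 e' (e'.extend (𝓡∂ 2) x) = G0
  generalize g1 e' (e'.extend (𝓡∂ 2) x) = G1
  generalize g2 e' (e'.extend (𝓡∂ 2) x) = G2
  rw [Real.sqrt_mul (sq_nonneg _), Real.sqrt_sq_eq_abs]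
  have e1 : ‖a • p + b • q‖ ^ 2 = a ^ 2 * ‖p‖ ^ 2 + 2 * (a * b) * inner ℝ p q + b ^ 2 * ‖q‖ ^ 2 := by
    rw [← real_inner_self_eq_norm_sq, ← real_inner_self_eq_norm_sq p, ← real_inner_self_eq_norm_sq q]
    simp only [inner_add_left, inner_add_right, real_inner_smul_left, real_inner_smul_right]
    rw [real_inner_comm p q]
    ring
  have e2 : ‖c • p + d • q‖ ^ 2 = c ^ 2 * ‖p‖ ^ 2 + 2 * (c * d) * inner ℝ p q + d ^ 2 * ‖q‖ ^ 2 := by
    rw [← real_inner_self_eq_norm_sq, ← real_inner_self_eq_norm_sq p, ← real_inner_self_eq_norm_sq q]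
    simp only [inner_add_left, inner_add_right, real_inner_smul_left, real_inner_smul_right]
    rw [real_inner_comm p q]
    ring
  have e3 : inner ℝ (a • p + b • q) (c • p + d • q)
      = a * c * ‖p‖ ^ 2 + (a * d + b * c) * inner ℝ p q + b * d * ‖q‖ ^ 2 := by
    rw [← real_inner_self_eq_norm_sq p, ← real_inner_self_eq_norm_sq q]
    simp only [inner_add_left, inner_add_right, real_inner_smul_left, real_inner_smul_right]
    rw [real_inner_comm p q]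
    ring
  rw [e1, e2, e3]
  generalize inner ℝ p q = r
  have e4 : (c ^ 2 * G0 + 2 * (c * d) * G1 + d ^ 2 * G2) *
        (a ^ 2 * ‖p‖ ^ 2 + 2 * (a * b) * r + b ^ 2 * ‖q‖ ^ 2)
      - 2 * (a * c * G0 + (a * d + b * c) * G1 + b * d * G2) *
        (a * c * ‖p‖ ^ 2 + (a * d + b * c) * r + b * d * ‖q‖ ^ 2)
      + (a ^ 2 * G0 + 2 * (a * b) * G1 + b ^ 2 * G2) *
        (c ^ 2 * ‖p‖ ^ 2 + 2 * (c * d) * r + d ^ 2 * ‖q‖ ^ 2)
      = |a * d - c * b| * (|a * d - c * b| * (G2 * ‖p‖ ^ 2 - 2 * G1 * r + G0 * ‖q‖ ^ 2)) := by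
    rw [← mul_assoc |a * d - c * b|, abs_mul_abs_self]
    ring
  rw [e4]
  rcases eq_or_ne |a * d - c * b| 0 with h0 | h0
  · rw [h0]
    simp
  · rw [mul_div_mul_left _ _ h0, mul_div_assoc]
    ring

end Pool.Agent.EWD
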