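import Mathlib
import Pool.Agent.EWD.GDF
import Pool.Agent.EWD.GRM
import Pool.Agent.EWD.GTR

/-
DTR: change of charts for the integral of the energy density; the energy is at most the sum over the
pieces.  [about 130 lines]

(1) `dens_int_transfer`: copy the proof of `int_transfer` (H74/FAC/Chg2) with
 `lintegral_image_eq_lintegral_abs_det_fderiv_mul` in place of the Bochner version; no orientation is needed
 because of the absolute value in `dens_transfer`. Up to null sets one can restrict to interior points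
 (`innerPart`, `innerPart_ae`, `innerPart_eq`).
(2) `energy_le`: for an admissible family `(e_i, S_i)`: `S_i` is the disjoint union of the `S_i ∩ A.S k`, so
 `∑_i ∫⁻_{e_i(S_i)} = ∑_i ∑_k ∫⁻_{e_i(S_i ∩ A.S k)} = ∑_k ∑_i ∫⁻_{e_k(S_i ∩ A.S k)} ≤ ∑_k ∫⁻_{im A k}`
 (the sets `e_k(S_i ∩ A.S k)`, `i` varying, are disjoint measurable subsets of `im A k`:
 `lintegral_iUnion`/`lintegral_finset_biUnion`, `lintegral_mono_set`).
-/

open MeasureTheory Set Filter Measure Manifold Bundle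
open scoped ContDiff Topology ENNReal NNReal

set_option linter.unusedSectionVars false

namespace Pool.Agent.EWD

open Pool.Agent.H74.FAC

variable {M : Type} [MetricSpace M] [ChartedSpace HP M] [IsManifold (𝓡∂ 2) ∞ M] [CompactSpace M]
  [RiemannianBundle (fun x : M => TangentSpace (𝓡∂ 2) x)]
  [IsContMDiffRiemannianBundle (𝓡∂ 2) ∞ E2 (fun x : M => TangentSpace (𝓡∂ 2) x)]
  [IsRiemannianManifold (𝓡∂ 2) M]

variable {e e' : OpenPartialHomeomorph M HP}

private theorem DTR_inner (he : e ∈ IsManifold.maximalAtlas (𝓡∂ 2) ∞ M)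
    (he' : e' ∈ IsManifold.maximalAtlas (𝓡∂ 2) ∞ M) {S : Set M} (hS : MeasurableSet[borel M] S)
    (h1 : S ⊆ e.source) (h2 : S ⊆ e'.source) {N : ℕ} (w : M → EuclideanSpace ℝ (Fin N)) :
    ∫⁻ z in e'.extend (𝓡∂ 2) '' (innerPart e S), ENNReal.ofReal (dens e' w z)
      = ∫⁻ z in e.extend (𝓡∂ 2) '' (innerPart e S), ENNReal.ofReal (dens e w z) := by
  have hm : MeasurableSet (e.extend (𝓡∂ 2) '' (innerPart e S)) :=
    meas_image (meas_innerPart hS h1) ((innerPart_sub S).trans h1)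
  have him : e'.extend (𝓡∂ 2) '' (innerPart e S)
      = cc e e' '' (e.extend (𝓡∂ 2) '' (innerPart e S)) := by
    rw [image_image]
    apply image_congr
    intro x hx
    rw [cc_apply (h1 hx.1)]
  rw [him]
  rw [lintegral_image_eq_lintegral_abs_det_fderiv_mul volume hm
    (f' := fun z => fderiv ℝ (cc e e') z)]
  · apply setLIntegral_congr_fun hm
    rintro z ⟨x, hx, rfl⟩
    simp only
    rw [cc_apply (h1 hx.1), ← ENNReal.ofReal_mul (abs_nonneg _),
      ← dens_transfer he he' w (h1 hx.1) (h2 hx.1) hx.2]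
  · rintro z ⟨x, hx, rfl⟩
    exact (cc_hasFDerivAt he he' (h1 hx.1) (h2 hx.1) hx.2).hasFDerivAt.hasFDerivWithinAt
  · rintro z ⟨x, hx, rfl⟩ z' ⟨x', hx', rfl⟩ h
    rw [cc_apply (h1 hx.1), cc_apply (h1 hx'.1)] at h
    have hinj := (e'.extend (𝓡∂ 2)).injOn
    rw [OpenPartialHomeomorph.extend_source] at hinj
    rw [hinj (h2 hx.1) (h2 hx'.1) h]

theorem dens_int_transfer (he : e ∈ IsManifold.maximalAtlas (𝓡∂ 2) ∞ M)
    (he' : e' ∈ IsManifold.maximalAtlas (𝓡∂ 2) ∞ M) {S : Set M} (hS : MeasurableSet[borel M] S)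
    (h1 : S ⊆ e.source) (h2 : S ⊆ e'.source) {N : ℕ} (w : M → EuclideanSpace ℝ (Fin N)) :
    ∫⁻ z in e'.extend (𝓡∂ 2) '' S, ENNReal.ofReal (dens e' w z)
      = ∫⁻ z in e.extend (𝓡∂ 2) '' S, ENNReal.ofReal (dens e w z) := by
  rw [setLIntegral_congr (innerPart_ae (e := e') S), setLIntegral_congr (innerPart_ae (e := e) S),
    ← innerPart_eq he he' h1 h2]
  exact DTR_inner he he' hS h1 h2 w

private theorem DTR_meas_inter {S T : Set M} (hS : MeasurableSet[borel M] S)
    (hT : MeasurableSet[borel M] T) : MeasurableSet[borel M] (S ∩ T) := by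
  let _ : MeasurableSpace M := borel M
  have : BorelSpace M := ⟨rfl⟩
  exact hS.inter hT

private theorem DTR_one (A : Cov M) {N : ℕ} (w : M → EuclideanSpace ℝ (Fin N)) {n : ℕ}
    {f : Fin n → OpenPartialHomeomorph M HP} {S : Fin n → Set M}
    (hf : ∀ i, f i ∈ IsManifold.maximalAtlas (𝓡∂ 2) ∞ M)
    (hS : ∀ i, MeasurableSet[borel M] (S i)) (hs : ∀ i, S i ⊆ (f i).source)
    (hd : Pairwise fun i j => Disjoint (S i) (S j)) :
    ∑ i, ∫⁻ z in (f i).extend (𝓡∂ 2) '' (S i), ENNReal.ofReal (dens (f i) w z)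
      ≤ ∑ k : Fin A.n, ∫⁻ z in im A k, ENNReal.ofReal (dens (A.P k).e w z) := by
  have hsub1 : ∀ i (k : Fin A.n), S i ∩ A.S k ⊆ (f i).source := fun i k =>
    inter_subset_left.trans (hs i)
  have hsub2 : ∀ i (k : Fin A.n), S i ∩ A.S k ⊆ (A.P k).e.source := fun i k =>
    inter_subset_right.trans ((A.S_sub k).trans (A.P k).V_sub)
  have hmeas : ∀ i (k : Fin A.n), MeasurableSet[borel M] (S i ∩ A.S k) := fun i k =>
    DTR_meas_inter (hS i) (A.S_meas k)
  have h1 : ∀ i, ∫⁻ z in (f i).extend (𝓡∂ 2) '' (S i), ENNReal.ofReal (dens (f i) w z)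
      ≤ ∑ k : Fin A.n, ∫⁻ z in (A.P k).e.extend (𝓡∂ 2) '' (S i ∩ A.S k),
        ENNReal.ofReal (dens (A.P k).e w z) := by
    intro i
    have hU : (f i).extend (𝓡∂ 2) '' (S i)
        = ⋃ k : Fin A.n, (f i).extend (𝓡∂ 2) '' (S i ∩ A.S k) := by
      rw [← image_iUnion, ← inter_iUnion]
      congr 1
      refine (inter_eq_left.2 fun x _ => ?_).symm
      obtain ⟨k, hk⟩ := A.S_cover x
      exact mem_iUnion.2 ⟨k, hk⟩
    rw [hU]
    refine (lintegral_iUnion_le _ _).trans ?_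
    rw [tsum_fintype]
    refine Finset.sum_le_sum fun k _ => ?_
    rw [dens_int_transfer (hf i) (A.P k).he (hmeas i k) (hsub1 i k) (hsub2 i k) w]
  refine (Finset.sum_le_sum fun i _ => h1 i).trans ?_
  rw [Finset.sum_comm]
  refine Finset.sum_le_sum fun k _ => ?_
  have hmi : ∀ i, MeasurableSet ((A.P k).e.extend (𝓡∂ 2) '' (S i ∩ A.S k)) := fun i =>
    meas_image (hmeas i k) (hsub2 i k)
  have hdi : Pairwise (Function.onFun Disjoint fun i => (A.P k).e.extend (𝓡∂ 2) '' (S i ∩ A.S k)) := by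
    intro i j hij
    refine Set.disjoint_left.2 ?_
    rintro z ⟨x, hx, rfl⟩ ⟨y, hy, hxy⟩
    have hinj := ((A.P k).e.extend (𝓡∂ 2)).injOn
    rw [OpenPartialHomeomorph.extend_source] at hinj
    have := hinj (hsub2 j k hy) (hsub2 i k hx) hxy
    rw [this] at hy
    exact Set.disjoint_left.1 (hd hij) hx.1 hy.1
  have h2 := lintegral_iUnion (μ := volume) hmi hdi
    (fun z => ENNReal.ofReal (dens (A.P k).e w z))
  rw [tsum_fintype] at h2
  rw [← h2]
  refine lintegral_mono_set ?_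
  refine iUnion_subset fun i => image_mono inter_subset_right

theorem energy_le (A : Cov M) {N : ℕ} (w : M → EuclideanSpace ℝ (Fin N)) :
    energy w ≤ ∑ k : Fin A.n, ∫⁻ z in im A k, ENNReal.ofReal (dens (A.P k).e w z) := by
  unfold energy
  refine iSup_le fun n => iSup_le fun f => iSup_le fun S => iSup_le fun h => ?_
  exact DTR_one A w h.1 h.2.1 h.2.2.1 h.2.2.2

theorem le_energy (A : Cov M) {N : ℕ} (w : M → EuclideanSpace ℝ (Fin N)) :
    ∑ k : Fin A.n, ∫⁻ z in im A k, ENNReal.ofReal (dens (A.P k).e w z) ≤ energy w := by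
  unfold energy
  refine le_iSup_of_le A.n (le_iSup_of_le (fun k => (A.P k).e) (le_iSup_of_le A.S
    (le_iSup_of_le ⟨fun k => (A.P k).he, A.S_meas, fun k => (A.S_sub k).trans (A.P k).V_sub,
      A.S_disj⟩ le_rfl)))

end Pool.Agent.EWD
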