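import Mathlib
import Pool.Agent.EWD.Defs
import Pool.Agent.EWD.LPA

/-
RUL: rules of the Dirichlet calculus.  [about 170 lines, easy]

`C.dif` gives, for almost every `o`, differentiability at 0 of `s ↦ u (px o s)` and `s ↦ u (py o s)`;
with `gx u o = deriv (..) 0` this is `HasDerivAt .. (C.gx u o) 0`. All rules (`ae_add`, `ae_mul`,
`ae_comp`, ...) are the rules for `HasDerivAt`, at the points where finitely many functions are
differentiable; note `C.px o 0 = C.pt o` (rfl) and `C.py o 0 = C.pt o` (`C.same`).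
`ae_lip_comp`: if `f` is Lipschitz then `|deriv (f ∘ u)| ≤ K |deriv u|` along each path, because the
difference quotients satisfy it (where both are differentiable).
`measurable`/`integrable`: `C.μ` is finite (`C.fin`), bounded a.e. measurable functions are integrable.
`ae_G_le`: `G u ≤ ∑ Lᵢ²` by `C.bound`.
-/

open MeasureTheory Set Filter Topology
open scoped ENNReal NNReal

namespace Pool.Agent.EWD

variable {M : Type} [MetricSpace M] {γ : ℝ → M} (C : Calc M γ)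

namespace Calc

theorem py_zero (o : Om) : C.py o 0 = C.pt o := by
  exact C.same o

theorem ae_has {u : M → ℝ} (hu : Lip u) : ∀ᵐ o ∂C.μ,
    HasDerivAt (fun s => u (C.px o s)) (C.gx u o) 0 ∧
    HasDerivAt (fun s => u (C.py o s)) (C.gy u o) 0 := by
  filter_upwards [C.dif u hu] with o ho
  exact ⟨ho.1.hasDerivAt, ho.2.hasDerivAt⟩

theorem ae_const (c : ℝ) : ∀ o, C.gx (fun _ => c) o = 0 ∧ C.gy (fun _ => c) o = 0 := by
  intro o
  exact ⟨deriv_const 0 c, deriv_const 0 c⟩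

theorem ae_add {u w : M → ℝ} (hu : Lip u) (hw : Lip w) : ∀ᵐ o ∂C.μ,
    C.gx (fun x => u x + w x) o = C.gx u o + C.gx w o ∧
    C.gy (fun x => u x + w x) o = C.gy u o + C.gy w o := by
  filter_upwards [C.ae_has hu, C.ae_has hw] with o h1 h2
  exact ⟨(h1.1.add h2.1).deriv, (h1.2.add h2.2).deriv⟩

theorem ae_sub {u w : M → ℝ} (hu : Lip u) (hw : Lip w) : ∀ᵐ o ∂C.μ,
    C.gx (fun x => u x - w x) o = C.gx u o - C.gx w o ∧
    C.gy (fun x => u x - w x) o = C.gy u o - C.gy w o := by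
  filter_upwards [C.ae_has hu, C.ae_has hw] with o h1 h2
  exact ⟨(h1.1.sub h2.1).deriv, (h1.2.sub h2.2).deriv⟩

theorem ae_const_mul {u : M → ℝ} (hu : Lip u) (c : ℝ) : ∀ᵐ o ∂C.μ,
    C.gx (fun x => c * u x) o = c * C.gx u o ∧ C.gy (fun x => c * u x) o = c * C.gy u o := by
  filter_upwards [C.ae_has hu] with o h1
  exact ⟨(h1.1.const_mul c).deriv, (h1.2.const_mul c).deriv⟩

theorem ae_mul {u w : M → ℝ} (hu : Lip u) (hw : Lip w) : ∀ᵐ o ∂C.μ,
    C.gx (fun x => u x * w x) o = u (C.pt o) * C.gx w o + w (C.pt o) * C.gx u o ∧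
    C.gy (fun x => u x * w x) o = u (C.pt o) * C.gy w o + w (C.pt o) * C.gy u o := by
  filter_upwards [C.ae_has hu, C.ae_has hw] with o h1 h2
  refine ⟨(h1.1.mul h2.1).deriv.trans ?_, (h1.2.mul h2.2).deriv.trans ?_⟩
  · show C.gx u o * w (C.pt o) + u (C.pt o) * C.gx w o = _
    ring
  · rw [C.same o]
    show C.gy u o * w (C.pt o) + u (C.pt o) * C.gy w o = _
    ring

theorem ae_comp {u : M → ℝ} (hu : Lip u) {f f' : ℝ → ℝ} (hf : ∀ x, HasDerivAt f (f' (u x)) (u x)) :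
    ∀ᵐ o ∂C.μ, C.gx (fun x => f (u x)) o = f' (u (C.pt o)) * C.gx u o ∧
    C.gy (fun x => f (u x)) o = f' (u (C.pt o)) * C.gy u o := by
  filter_upwards [C.ae_has hu] with o h1
  refine ⟨?_, ?_⟩
  · exact (HasDerivAt.comp (0 : ℝ) (hf (C.px o 0)) h1.1).deriv
  · have h2 := (HasDerivAt.comp (0 : ℝ) (hf (C.py o 0)) h1.2).deriv
    rw [C.same o] at h2
    exact h2

theorem ae_lin {N : ℕ} (a : Fin N → ℝ) {u : Fin N → M → ℝ} (hu : ∀ i, Lip (u i)) : ∀ᵐ o ∂C.μ,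
    C.gx (lin a u) o = ∑ i, a i * C.gx (u i) o ∧ C.gy (lin a u) o = ∑ i, a i * C.gy (u i) o := by
  have h : ∀ᵐ o ∂C.μ, ∀ i, HasDerivAt (fun s => u i (C.px o s)) (C.gx (u i) o) 0 ∧
      HasDerivAt (fun s => u i (C.py o s)) (C.gy (u i) o) 0 := ae_all_iff.mpr fun i => C.ae_has (hu i)
  filter_upwards [h] with o ho
  exact ⟨(HasDerivAt.fun_sum fun i _ => (ho i).1.const_mul (a i)).deriv,
    (HasDerivAt.fun_sum fun i _ => (ho i).2.const_mul (a i)).deriv⟩

/-- the derivative of a map into the sphere is orthogonal to the map -/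
theorem ae_sph {N : ℕ} {u : Fin N → M → ℝ} (hu : Sph γ u) : ∀ᵐ o ∂C.μ,
    ∑ i, u i (C.pt o) * C.gx (u i) o = 0 ∧ ∑ i, u i (C.pt o) * C.gy (u i) o = 0 := by
  have h : ∀ᵐ o ∂C.μ, ∀ i, HasDerivAt (fun s => u i (C.px o s)) (C.gx (u i) o) 0 ∧
      HasDerivAt (fun s => u i (C.py o s)) (C.gy (u i) o) 0 := ae_all_iff.mpr fun i => C.ae_has (hu.lip i)
  filter_upwards [h] with o ho
  have key : ∀ (p : ℝ → M) (g : Fin N → ℝ), (∀ i, HasDerivAt (fun s => u i (p s)) (g i) 0) →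
      ∑ i, u i (p 0) * g i = 0 := by
    intro p g hg
    have h1 : HasDerivAt (fun s => ∑ i, u i (p s) ^ 2) (∑ i, 2 * (u i (p 0) * g i)) 0 := by
      refine HasDerivAt.fun_sum fun i _ => ?_
      refine ((hg i).pow 2).congr_deriv ?_
      norm_num
      ring
    have h2 : (fun s => ∑ i, u i (p s) ^ 2) = fun _ => (1 : ℝ) := funext fun s => hu.unit (p s)
    rw [h2] at h1
    have h3 := h1.unique (hasDerivAt_const (0 : ℝ) (1 : ℝ))
    rw [← Finset.mul_sum] at h3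
    linarith
  refine ⟨key (C.px o) _ fun i => (ho i).1, ?_⟩
  have h4 := key (C.py o) _ fun i => (ho i).2
  rw [C.same o] at h4
  exact h4

theorem integrable_of_bdd {f : Om → ℝ} (hm : AEMeasurable f C.μ) {B : ℝ}
    (hb : ∀ᵐ o ∂C.μ, |f o| ≤ B) : Integrable f C.μ := by
  haveI := C.fin
  refine Integrable.mono' (integrable_const B) hm.aestronglyMeasurable ?_
  filter_upwards [hb] with o ho
  rwa [Real.norm_eq_abs]

theorem meas_pt {u : M → ℝ} (hu : Lip u) : AEMeasurable (fun o => u (C.pt o)) C.μ := by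
  exact C.mpt u hu

theorem meas_gx {u : M → ℝ} (hu : Lip u) : AEMeasurable (fun o => C.gx u o) C.μ := by
  exact C.mgx u hu

theorem meas_gy {u : M → ℝ} (hu : Lip u) : AEMeasurable (fun o => C.gy u o) C.μ := by
  exact C.mgy u hu

theorem ae_grad_le {u : M → ℝ} {L : ℝ≥0} (hu : LipschitzWith L u) : ∀ᵐ o ∂C.μ,
    C.gx u o ^ 2 + C.gy u o ^ 2 ≤ (L : ℝ) ^ 2 := by
  exact C.bound u L hu

theorem meas_G {N : ℕ} {u : Fin N → M → ℝ} (hu : ∀ i, Lip (u i)) : AEMeasurable (C.G u) C.μ := by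
  have h : ∀ i ∈ (Finset.univ : Finset (Fin N)), AEMeasurable (fun o => C.gx (u i) o ^ 2 + C.gy (u i) o ^ 2) C.μ :=
    fun i _ => ((C.meas_gx (hu i)).pow_const 2).add ((C.meas_gy (hu i)).pow_const 2)
  exact Finset.aemeasurable_fun_sum Finset.univ h

theorem G_nonneg {N : ℕ} (u : Fin N → M → ℝ) (o : Om) : 0 ≤ C.G u o := by
  exact Finset.sum_nonneg fun i _ => by positivity

theorem ae_G_le {N : ℕ} {u : Fin N → M → ℝ} (hu : ∀ i, Lip (u i)) :
    ∃ B : ℝ, 0 ≤ B ∧ ∀ᵐ o ∂C.μ, C.G u o ≤ B := by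
  choose L hL using hu
  refine ⟨∑ i, (L i : ℝ) ^ 2, Finset.sum_nonneg fun i _ => by positivity, ?_⟩
  have h : ∀ᵐ o ∂C.μ, ∀ i, C.gx (u i) o ^ 2 + C.gy (u i) o ^ 2 ≤ (L i : ℝ) ^ 2 :=
    ae_all_iff.mpr fun i => C.ae_grad_le (hL i)
  filter_upwards [h] with o ho
  exact Finset.sum_le_sum fun i _ => ho i

theorem integrable_G {N : ℕ} {u : Fin N → M → ℝ} (hu : ∀ i, Lip (u i)) :
    Integrable (C.G u) C.μ := by
  obtain ⟨B, hB, h⟩ := C.ae_G_le hu
  refine C.integrable_of_bdd (C.meas_G hu) (B := B) ?_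
  filter_upwards [h] with o ho
  rwa [abs_of_nonneg (C.G_nonneg u o)]

theorem E_nonneg {N : ℕ} (u : Fin N → M → ℝ) : 0 ≤ C.E u := by
  have h : 0 ≤ ∫ o, C.G u o ∂C.μ := integral_nonneg fun o => C.G_nonneg u o
  show 0 ≤ (1 / 2) * ∫ o, C.G u o ∂C.μ
  positivity

theorem vol_nonneg : 0 ≤ C.vol := by
  exact ENNReal.toReal_nonneg

theorem integral_one : ∫ _o, (1 : ℝ) ∂C.μ = C.vol := by
  rw [integral_const, smul_eq_mul, mul_one]
  rfl

end Calc

end Pool.Agent.EWD
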