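import Mathlib
import Pool.Agent.EWD.GDF
import Pool.Agent.EWD.GRM
import Pool.Agent.EWD.FRM
import Pool.Agent.EWD.MUA
import Pool.Agent.EWD.LPA
import Pool.Agent.EWD.DIF
import Pool.Agent.EWD.MES
import Pool.Agent.EWD.BOU
import Pool.Agent.EWD.CAL
import Pool.Agent.EWD.RUL
import Pool.Agent.EWD.DTR

/-
ENE: the two notions of energy agree.  [about 130 lines]

`C = cal A hφ`, `cm w i x = w x i` Lipschitz. For a.e. `z ∈ im A k` all the functions `cm w i ∘ e.symm` are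
differentiable at `z` (`ae_lip`), hence so is `w ∘ e.symm : E2 → EuclideanSpace ℝ (Fin N)`, with components
`(fderiv (w ∘ e.symm) z v) i = pd e (cm w i) z v` (compose with the continuous linear coordinate
projection, `hasFDerivAt_euclidean`/`hasStrictFDerivAt_euclidean`), so
 `dens e w z = (1/2) ∑ᵢ (g2 pᵢ₀² - 2 g1 pᵢ₀ pᵢ₁ + g0 pᵢ₁²)/√dg = √dg (1/2) ∑ᵢ (pᵢ(fr1)² + pᵢ(fr2)²)`
(`frame_sq`, `EuclideanSpace.norm_sq_eq`, `gram` entries are `g0, g1, g2`, `real_inner_comm`, `dg_eq`), and this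
is `√dg (1/2) C.G (cm w) (k, z)` (`has_cpx`). Hence by `mu_lint`
 `∑ ∫⁻_{im A k} ofReal dens = ∫⁻ ofReal ((1/2) G) d(mu A) = ofReal (C.E (cm w))`
(`ofReal_integral_eq_lintegral_ofReal`, `integrable_G`). Then `energy_le` and `le_energy`.
-/

open MeasureTheory Set Filter Measure Manifold Bundle
open scoped ContDiff Topology ENNReal NNReal

set_option linter.unusedSectionVars false

namespace Pool.Agent.EWD

open Pool.Agent.H74.FAC

variable {M : Type} [MetricSpace M] [ChartedSpace HP M] [IsManifold (𝓡∂ 2) ∞ M] [CompactSpace M]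
  [RiemannianBundle (fun x : M => TangentSpace (𝓡∂ 2) x)]
  [IsContMDiffRiemannianBundle (𝓡∂ 2) ∞ E2 (fun x : M => TangentSpace (𝓡∂ 2) x)]
  [IsRiemannianManifold (𝓡∂ 2) M]

private theorem ENE_comp {N : ℕ} {F : E2 → EuclideanSpace ℝ (Fin N)} {z : E2}
    (hF : DifferentiableAt ℝ F z) (v : E2) (i : Fin N) :
    (fderiv ℝ F z v) i = fderiv ℝ (fun y => F y i) z v := by
  have h := (EuclideanSpace.proj (𝕜 := ℝ) i).hasFDerivAt.comp z hF.hasFDerivAt
  have h2 : fderiv ℝ (fun y => F y i) z = (EuclideanSpace.proj (𝕜 := ℝ) i).comp (fderiv ℝ F z) :=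
    h.fderiv
  rw [h2]
  rfl

private theorem ENE_alg {N : ℕ} {a b c d : ℝ} (hd : 0 < d) (p q : Fin N → ℝ) :
    1 / 2 * ((c * (∑ i, p i ^ 2) - 2 * b * (∑ i, q i * p i) + a * (∑ i, q i ^ 2)) / √d)
      = √d * (1 / 2 * ∑ i, (c * p i ^ 2 - 2 * b * (p i * q i) + a * q i ^ 2) / d) := by
  have h1 : (0 : ℝ) < √d := Real.sqrt_pos.2 hd
  have h2 : √d * √d = d := Real.mul_self_sqrt hd.le
  have h3 : ∑ i, (c * p i ^ 2 - 2 * b * (p i * q i) + a * q i ^ 2) / d
      = (c * (∑ i, p i ^ 2) - 2 * b * (∑ i, q i * p i) + a * (∑ i, q i ^ 2)) / d := by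
    rw [← Finset.sum_div]
    congr 1
    rw [Finset.mul_sum, Finset.mul_sum, Finset.mul_sum, ← Finset.sum_sub_distrib,
      ← Finset.sum_add_distrib]
    refine Finset.sum_congr rfl fun i _ => ?_
    ring
  rw [h3]
  generalize (c * (∑ i, p i ^ 2) - 2 * b * (∑ i, q i * p i) + a * (∑ i, q i ^ 2)) = T
  have h4 : T / √d = √d * (T / d) := by
    rw [div_eq_iff h1.ne', mul_comm (√d) (T / d), mul_assoc, h2, div_mul_cancel₀ T hd.ne']
  rw [h4]
  ring

private theorem ENE_dens (A : Cov M) [Nonempty M] {φ : S1 → M} (hφ : IsometricFilling φ) {N : ℕ}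
    {w : M → EuclideanSpace ℝ (Fin N)} (hw : ∀ i, Lip (cm w i)) (k : Fin A.n) :
    ∀ᵐ z : E2, z ∈ im A k → ENNReal.ofReal (dens (A.P k).e w z)
      = ENNReal.ofReal √(dg (A.P k).e z) *
        ENNReal.ofReal (1 / 2 * (cal A hφ).G (cm w) ((k : ℕ), z)) := by
  have h1 : ∀ᵐ z : E2, ∀ i, z ∈ im A k → z ∈ (A.P k).O ∧
      DifferentiableAt ℝ (fun y => cm w i (((A.P k).e.extend (𝓡∂ 2)).symm y)) z :=
    ae_all_iff.2 fun i => ae_lip A (hw i) k
  have h2 : ∀ᵐ z : E2, ∀ i, z ∈ im A k →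
      HasDerivAt (fun s => cm w i (cpx A ((k : ℕ), z) s))
        (pd (A.P k).e (cm w i) z (fr1 (A.P k).e z)) 0 ∧
      HasDerivAt (fun s => cm w i (cpy A ((k : ℕ), z) s))
        (pd (A.P k).e (cm w i) z (fr2 (A.P k).e z)) 0 :=
    ae_all_iff.2 fun i => has_cpx A (hw i) k
  filter_upwards [h1, h2] with z hz1 hz2 hz
  have he := (A.P k).he
  have hzt : z ∈ ((A.P k).e.extend (𝓡∂ 2)).target := im_sub A k hz
  have hg0 : 0 < g0 (A.P k).e z := g0_pos he hzt
  have hdg : 0 < dg (A.P k).e z := dg_pos he hzt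
  have hG : (cal A hφ).G (cm w) ((k : ℕ), z)
      = ∑ i, (g2 (A.P k).e z * pd (A.P k).e (cm w i) z (bv 0) ^ 2
        - 2 * g1 (A.P k).e z * (pd (A.P k).e (cm w i) z (bv 0) * pd (A.P k).e (cm w i) z (bv 1))
        + g0 (A.P k).e z * pd (A.P k).e (cm w i) z (bv 1) ^ 2) / dg (A.P k).e z := by
    unfold Calc.G
    refine Finset.sum_congr rfl fun i _ => ?_
    have hx : (cal A hφ).gx (cm w i) ((k : ℕ), z)
        = pd (A.P k).e (cm w i) z (fr1 (A.P k).e z) := (hz2 i hz).1.deriv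
    have hy : (cal A hφ).gy (cm w i) ((k : ℕ), z)
        = pd (A.P k).e (cm w i) z (fr2 (A.P k).e z) := (hz2 i hz).2.deriv
    rw [hx, hy]
    exact frame_sq hg0 hdg _
  have hF : DifferentiableAt ℝ (fun y => w (((A.P k).e.extend (𝓡∂ 2)).symm y)) z :=
    differentiableAt_euclidean.2 fun i => (hz1 i hz).2
  have hc : ∀ (v : E2) (i : Fin N),
      (fderiv ℝ (fun y => w (((A.P k).e.extend (𝓡∂ 2)).symm y)) z v) i
        = pd (A.P k).e (cm w i) z v := fun v i => ENE_comp hF v i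
  have hn : ∀ v : E2, ‖fderiv ℝ (fun y => w (((A.P k).e.extend (𝓡∂ 2)).symm y)) z v‖ ^ 2
      = ∑ i, pd (A.P k).e (cm w i) z v ^ 2 := by
    intro v
    rw [EuclideanSpace.norm_sq_eq]
    refine Finset.sum_congr rfl fun i _ => ?_
    rw [hc, Real.norm_eq_abs, sq_abs]
  have hi : inner ℝ (fderiv ℝ (fun y => w (((A.P k).e.extend (𝓡∂ 2)).symm y)) z (bv 0))
      (fderiv ℝ (fun y => w (((A.P k).e.extend (𝓡∂ 2)).symm y)) z (bv 1))
      = ∑ i, pd (A.P k).e (cm w i) z (bv 1) * pd (A.P k).e (cm w i) z (bv 0) := by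
    rw [PiLp.inner_apply]
    refine Finset.sum_congr rfl fun i _ => ?_
    rw [hc, hc]
    rfl
  have hd : dens (A.P k).e w z
      = √(dg (A.P k).e z) * (1 / 2 * (cal A hφ).G (cm w) ((k : ℕ), z)) := by
    rw [hG]
    unfold dens
    rw [dg_eq, hn, hn, hi]
    have e1 : gram (A.P k).e z 1 1 = g2 (A.P k).e z := rfl
    have e2 : gram (A.P k).e z 0 1 = g1 (A.P k).e z := rfl
    have e3 : gram (A.P k).e z 0 0 = g0 (A.P k).e z := rfl
    rw [e1, e2, e3]
    exact ENE_alg hdg (fun i => pd (A.P k).e (cm w i) z (bv 0))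
      (fun i => pd (A.P k).e (cm w i) z (bv 1))
  rw [hd, ENNReal.ofReal_mul (Real.sqrt_nonneg _)]

theorem energy_eq [Nonempty M] (A : Cov M) {φ : S1 → M} (hφ : IsometricFilling φ) {N : ℕ}
    {w : M → EuclideanSpace ℝ (Fin N)} (hw : ∀ i, Lip (cm w i)) :
    energy w = ENNReal.ofReal ((cal A hφ).E (cm w)) := by
  have h1 : energy w = ∑ k : Fin A.n, ∫⁻ z in im A k, ENNReal.ofReal (dens (A.P k).e w z) :=
    le_antisymm (energy_le A w) (le_energy A w)
  have hint : Integrable ((cal A hφ).G (cm w)) (mu A) := (cal A hφ).integrable_G hw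
  have hm : AEMeasurable (fun o => ENNReal.ofReal (1 / 2 * (cal A hφ).G (cm w) o)) (mu A) :=
    (hint.aestronglyMeasurable.aemeasurable.const_mul (1 / 2)).ennreal_ofReal
  have h2 : ENNReal.ofReal ((cal A hφ).E (cm w))
      = ∫⁻ o, ENNReal.ofReal (1 / 2 * (cal A hφ).G (cm w) o) ∂(mu A) := by
    unfold Calc.E
    have h3 : 1 / 2 * ∫ o, (cal A hφ).G (cm w) o ∂(cal A hφ).μ
        = ∫ o, 1 / 2 * (cal A hφ).G (cm w) o ∂(mu A) := (integral_const_mul _ _).symm
    rw [h3]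
    refine ofReal_integral_eq_lintegral_ofReal (hint.const_mul (1 / 2)) ?_
    refine Filter.Eventually.of_forall fun o => ?_
    have := (cal A hφ).G_nonneg (cm w) o
    simp only [Pi.zero_apply]
    linarith
  rw [h1, h2, mu_lint A hm]
  refine Finset.sum_congr rfl fun k _ => ?_
  refine lintegral_congr_ae ?_
  refine (ae_restrict_iff' (im_meas A k)).2 ?_
  exact ENE_dens A hφ hw k

/-- near minimisers for the energy of maps are near minimisers in the abstract sense -/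
theorem nearMin_of_energy [Nonempty M] (A : Cov M) {φ : S1 → M} (hφ : IsometricFilling φ) {N : ℕ}
    {u : M → EuclideanSpace ℝ (Fin N)} (hu : ∀ i, Lip (cm u i)) {δ : ℝ} (hδ : 0 ≤ δ)
    (h : ∀ w : M → EuclideanSpace ℝ (Fin (N + 1)), (∀ i, Lip (cm w i)) → (∀ x, ‖w x‖ = 1) →
      (∀ t : ℝ, w (φ ((t + Real.pi : ℝ) : S1)) = -w (φ (t : S1))) →
      energy u ≤ energy w + ENNReal.ofReal δ) :
    (cal A hφ).NearMin (cm u) δ := by
  intro w' hw'
  have h1 := h (fun x => WithLp.toLp 2 (fun i => w' i x)) hw'.lip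
    (by
      intro x
      have hs : ‖(WithLp.toLp 2 (fun i => w' i x) : EuclideanSpace ℝ (Fin (N + 1)))‖ ^ 2 = 1 := by
        rw [EuclideanSpace.norm_sq_eq, ← hw'.unit x]
        refine Finset.sum_congr rfl fun i _ => ?_
        rw [Real.norm_eq_abs, sq_abs]
      have h0 := norm_nonneg (WithLp.toLp 2 (fun i => w' i x) : EuclideanSpace ℝ (Fin (N + 1)))
      nlinarith [hs])
    (by
      intro t
      ext i
      exact hw'.odd i t)
  rw [energy_eq A hφ hu, energy_eq A hφ (w := fun x => WithLp.toLp 2 (fun i => w' i x)) hw'.lip] at h1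
  have h2 : cm (fun x => (WithLp.toLp 2 (fun i => w' i x) : EuclideanSpace ℝ (Fin (N + 1)))) = w' := rfl
  rw [h2, ← ENNReal.ofReal_add ((cal A hφ).E_nonneg w') hδ] at h1
  exact (ENNReal.ofReal_le_ofReal_iff (add_nonneg ((cal A hφ).E_nonneg w') hδ)).1 h1

end Pool.Agent.EWD
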