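import Mathlib
import Pool.Agent.EWD.Defs

/-
KER: elementary facts about the kernels `KK τ q = √((1 + τ²)/(q + τ²))`, `BB`, `BD`, `ll`.
[about 150 lines, one variable calculus]

`K² (q + τ²) = 1 + τ²`; `K ≥ 1` iff `q ≤ 1`; `(K - 1)(K + 1) = (1 - q)/(q + τ²)`, hence
`BB (1 - q) = K - 1`. `K' = - K / (2 (q + τ²))`. `BB' = - BB² ((K + 1) + (q + τ²) K') = BD`.
`BD (1 - q) = K' + BB` (differentiate `BB (1 - q) = K - 1`, or algebra). `K √q ≤ 1` because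
`K² q = (1 + τ²) q / (q + τ²) ≤ 1` for `q ≤ 1`. `ll` is antitone: `1 - K √q` is antitone (`K √q` is
monotone) and nonnegative, and `1/√q` is antitone.
-/

open Set

namespace Pool.Agent.EWD

private theorem KER_m {τ q : ℝ} (hτ : 0 < τ) (hq : 0 ≤ q) : 0 < q + τ ^ 2 := by positivity

theorem KK_pos {τ q : ℝ} (hτ : 0 < τ) (hq : 0 ≤ q) : 0 < KK τ q := by
  have h := KER_m hτ hq
  unfold KK
  exact Real.sqrt_pos.2 (by positivity)

private theorem KER_sq' {τ q : ℝ} (hτ : 0 < τ) (hq : 0 ≤ q) :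
    KK τ q ^ 2 = (1 + τ ^ 2) / (q + τ ^ 2) := by
  have h := KER_m hτ hq
  unfold KK
  exact Real.sq_sqrt (by positivity)

theorem KK_sq {τ q : ℝ} (hτ : 0 < τ) (hq : 0 ≤ q) : KK τ q ^ 2 * (q + τ ^ 2) = 1 + τ ^ 2 := by
  rw [KER_sq' hτ hq]
  exact div_mul_cancel₀ _ (KER_m hτ hq).ne'

theorem one_le_KK {τ q : ℝ} (hτ : 0 < τ) (hq : 0 ≤ q) (hq1 : q ≤ 1) : 1 ≤ KK τ q := by
  unfold KK
  rw [Real.one_le_sqrt]
  exact (one_le_div (KER_m hτ hq)).2 (by linarith)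

theorem KK_le {τ q : ℝ} (hτ : 0 < τ) (hq : 0 ≤ q) : KK τ q ≤ √(1 + τ ^ 2) / τ := by
  have h1 : √(1 + τ ^ 2) / τ = √((1 + τ ^ 2) / τ ^ 2) := by
    rw [Real.sqrt_div' _ (by positivity), Real.sqrt_sq hτ.le]
  rw [h1]
  unfold KK
  refine Real.sqrt_le_sqrt ?_
  exact div_le_div_of_nonneg_left (by positivity) (by positivity) (by linarith)

theorem KK_le_sqrt {τ q : ℝ} (hτ : 0 < τ) (hq : 0 < q) : KK τ q ≤ √(1 + τ ^ 2) / √q := by
  have h1 : √(1 + τ ^ 2) / √q = √((1 + τ ^ 2) / q) := by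
    rw [Real.sqrt_div' _ hq.le]
  rw [h1]
  unfold KK
  refine Real.sqrt_le_sqrt ?_
  have h2 : 0 < τ ^ 2 := by positivity
  exact div_le_div_of_nonneg_left (by positivity) hq (by linarith)

theorem BB_pos {τ q : ℝ} (hτ : 0 < τ) (hq : 0 ≤ q) : 0 < BB τ q := by
  have h1 := KK_pos hτ hq
  have h2 := KER_m hτ hq
  unfold BB
  positivity

private theorem KER_bb {τ q : ℝ} (hτ : 0 < τ) (hq : 0 ≤ q) :
    BB τ q * ((q + τ ^ 2) * (KK τ q + 1)) = 1 := by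
  have h1 := KK_pos hτ hq
  have h2 := KER_m hτ hq
  unfold BB
  exact one_div_mul_cancel (by positivity)

theorem BB_mul {τ q : ℝ} (hτ : 0 < τ) (hq : 0 ≤ q) : BB τ q * (1 - q) = KK τ q - 1 := by
  have h1 := KER_bb hτ hq
  have h2 := KK_sq hτ hq
  have h3 : (KK τ q - 1) * ((q + τ ^ 2) * (KK τ q + 1)) = 1 - q := by
    linear_combination h2
  calc BB τ q * (1 - q) = BB τ q * ((KK τ q - 1) * ((q + τ ^ 2) * (KK τ q + 1))) := by rw [h3]
    _ = (KK τ q - 1) * (BB τ q * ((q + τ ^ 2) * (KK τ q + 1))) := by ring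
    _ = KK τ q - 1 := by rw [h1, mul_one]

theorem BB_le {τ q : ℝ} (hτ : 0 < τ) (hq : 0 ≤ q) : BB τ q ≤ 1 / τ ^ 2 := by
  have h1 := KK_pos hτ hq
  unfold BB
  have h3 : 0 < τ ^ 2 := by positivity
  refine one_div_le_one_div_of_le h3 ?_
  nlinarith

theorem BB_le_KK {τ q : ℝ} (hτ : 0 < τ) (hq : 0 ≤ q) : BB τ q ≤ KK τ q := by
  have h1 := KK_pos hτ hq
  have h2 := KER_m hτ hq
  have h3 := KK_sq hτ hq
  unfold BB
  rw [div_le_iff₀ (by positivity)]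
  have h4 : KK τ q * ((q + τ ^ 2) * (KK τ q + 1)) = 1 + τ ^ 2 + KK τ q * (q + τ ^ 2) := by
    linear_combination h3
  rw [h4]
  have h5 : 0 < τ ^ 2 := by positivity
  have h6 : 0 < KK τ q * (q + τ ^ 2) := mul_pos h1 h2
  linarith

theorem BD_mul {τ q : ℝ} (hτ : 0 < τ) (hq : 0 ≤ q) :
    BD τ q * (1 - q) = -(KK τ q / (2 * (q + τ ^ 2))) + BB τ q := by
  have h1 := KK_pos hτ hq
  have h2 := KER_m hτ hq
  have h3 := BB_mul hτ hq
  have h4 : BD τ q * (1 - q) = -(BB τ q * (BB τ q * (1 - q)) * (KK τ q / 2 + 1)) := by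
    unfold BD; ring
  rw [h4, h3]
  unfold BB
  have h5 : q + τ ^ 2 ≠ 0 := h2.ne'
  have h6 : KK τ q + 1 ≠ 0 := by positivity
  field_simp
  ring

theorem abs_BD_le {τ q : ℝ} (hτ : 0 < τ) (hq : 0 ≤ q) :
    |BD τ q| ≤ (1 / τ ^ 2) ^ 2 * (√(1 + τ ^ 2) / τ / 2 + 1) := by
  have h1 := KK_pos hτ hq
  have h2 := BB_pos hτ hq
  unfold BD
  rw [abs_neg, abs_of_pos (by positivity)]
  have h3 := BB_le hτ hq
  have h4 := KK_le hτ hq
  refine mul_le_mul ?_ (by linarith) (by positivity) (by positivity)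
  exact pow_le_pow_left₀ h2.le h3 2

theorem hasDerivAt_KK {τ q : ℝ} (hτ : 0 < τ) (hq : 0 ≤ q) :
    HasDerivAt (KK τ) (-(KK τ q / (2 * (q + τ ^ 2)))) q := by
  have h1 := KK_pos hτ hq
  have h2 := KER_m hτ hq
  have h3 := KK_sq hτ hq
  have hd : HasDerivAt (fun x : ℝ => x + τ ^ 2) 1 q := (hasDerivAt_id q).add_const _
  have hf : HasDerivAt (fun x : ℝ => (1 + τ ^ 2) / (x + τ ^ 2))
      ((0 * (q + τ ^ 2) - (1 + τ ^ 2) * 1) / (q + τ ^ 2) ^ 2) q :=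
    (hasDerivAt_const q (1 + τ ^ 2)).div hd h2.ne'
  have hg := hf.sqrt (by positivity : (1 + τ ^ 2) / (q + τ ^ 2) ≠ 0)
  have h4 : (0 * (q + τ ^ 2) - (1 + τ ^ 2) * 1) / (q + τ ^ 2) ^ 2 /
      (2 * √((1 + τ ^ 2) / (q + τ ^ 2))) = -(KK τ q / (2 * (q + τ ^ 2))) := by
    change _ / (2 * KK τ q) = _
    rw [← h3]
    have h5 : q + τ ^ 2 ≠ 0 := h2.ne'
    have h6 : KK τ q ≠ 0 := h1.ne'
    field_simp
    ring
  rw [h4] at hg
  exact hg

theorem hasDerivAt_BB {τ q : ℝ} (hτ : 0 < τ) (hq : 0 ≤ q) : HasDerivAt (BB τ) (BD τ q) q := by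
  have h1 := KK_pos hτ hq
  have h2 := KER_m hτ hq
  have hd : HasDerivAt (fun x : ℝ => x + τ ^ 2) 1 q := (hasDerivAt_id q).add_const _
  have hk : HasDerivAt (fun x : ℝ => KK τ x + 1) (-(KK τ q / (2 * (q + τ ^ 2)))) q :=
    (hasDerivAt_KK hτ hq).add_const _
  have hm := hd.mul hk
  have hne : (q + τ ^ 2) * (KK τ q + 1) ≠ 0 := by positivity
  have hf : HasDerivAt (fun x : ℝ => 1 / ((x + τ ^ 2) * (KK τ x + 1)))
      ((0 * ((q + τ ^ 2) * (KK τ q + 1)) -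
        1 * (1 * (KK τ q + 1) + (q + τ ^ 2) * -(KK τ q / (2 * (q + τ ^ 2))))) /
        ((q + τ ^ 2) * (KK τ q + 1)) ^ 2) q :=
    (hasDerivAt_const q (1 : ℝ)).div hm hne
  have h4 : ((0 * ((q + τ ^ 2) * (KK τ q + 1)) -
        1 * (1 * (KK τ q + 1) + (q + τ ^ 2) * -(KK τ q / (2 * (q + τ ^ 2))))) /
        ((q + τ ^ 2) * (KK τ q + 1)) ^ 2) = BD τ q := by
    unfold BD BB
    have h5 : q + τ ^ 2 ≠ 0 := h2.ne'
    have h6 : KK τ q + 1 ≠ 0 := by positivity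
    field_simp
    ring
  rw [h4] at hf
  exact hf

theorem continuousOn_KK {τ : ℝ} (hτ : 0 < τ) : ContinuousOn (KK τ) (Ici 0) :=
  fun _ hx => (hasDerivAt_KK hτ hx).continuousAt.continuousWithinAt

theorem measurable_KK (τ : ℝ) : Measurable (KK τ) := by
  unfold KK
  exact (measurable_const.div (measurable_id.add_const _)).sqrt

theorem measurable_BB (τ : ℝ) : Measurable (BB τ) := by
  unfold BB
  exact measurable_const.div ((measurable_id.add_const _).mul ((measurable_KK τ).add_const _))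

theorem measurable_BD (τ : ℝ) : Measurable (BD τ) := by
  unfold BD
  exact (((measurable_BB τ).pow_const 2).mul (((measurable_KK τ).div_const 2).add_const 1)).neg

theorem measurable_ll (τ : ℝ) : Measurable (ll τ) := by
  unfold ll
  exact (measurable_const.sub ((measurable_KK τ).mul measurable_id.sqrt)).div measurable_id.sqrt

private theorem KER_sqq {τ q : ℝ} (hτ : 0 < τ) (hq : 0 ≤ q) :
    (KK τ q * √q) ^ 2 = 1 + τ ^ 2 - KK τ q ^ 2 * τ ^ 2 := by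
  have h1 := KK_sq hτ hq
  rw [mul_pow, Real.sq_sqrt hq]
  linear_combination h1

theorem KK_mul_sqrt_le {τ q : ℝ} (hτ : 0 < τ) (hq : 0 ≤ q) (hq1 : q ≤ 1) : KK τ q * √q ≤ 1 := by
  have h1 := KK_pos hτ hq
  have h2 := one_le_KK hτ hq hq1
  have h3 : 0 ≤ KK τ q * √q := mul_nonneg h1.le (Real.sqrt_nonneg q)
  rw [← sq_le_one_iff₀ h3, KER_sqq hτ hq]
  have h4 : 1 ≤ KK τ q ^ 2 := one_le_pow₀ h2
  have h5 : 0 < τ ^ 2 := by positivity
  nlinarith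

theorem ll_nonneg {τ q : ℝ} (hτ : 0 < τ) (hq : 0 ≤ q) (hq1 : q ≤ 1) : 0 ≤ ll τ q :=
  div_nonneg (sub_nonneg.2 (KK_mul_sqrt_le hτ hq hq1)) (Real.sqrt_nonneg q)

theorem ll_anti {τ q q' : ℝ} (hτ : 0 < τ) (hq : 0 < q) (h : q ≤ q') (hq1 : q' ≤ 1) :
    ll τ q' ≤ ll τ q := by
  have hq' : 0 < q' := hq.trans_le h
  have h1 := KK_pos hτ hq.le
  have h1' := KK_pos hτ hq'.le
  have h2 : KK τ q' ^ 2 ≤ KK τ q ^ 2 := by
    rw [KER_sq' hτ hq.le, KER_sq' hτ hq'.le]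
    exact div_le_div_of_nonneg_left (by positivity) (by positivity) (by linarith)
  have h3 : KK τ q * √q ≤ KK τ q' * √q' := by
    rw [← pow_le_pow_iff_left₀ (by positivity) (by positivity) (two_ne_zero), KER_sqq hτ hq.le,
      KER_sqq hτ hq'.le]
    have h5 : 0 < τ ^ 2 := by positivity
    nlinarith
  unfold ll
  have h6 := KK_mul_sqrt_le hτ hq.le (h.trans hq1)
  exact div_le_div₀ (by linarith) (by linarith) (Real.sqrt_pos.2 hq) (Real.sqrt_le_sqrt h)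

theorem ll_le {τ q : ℝ} (hτ : 0 < τ) (hq : 0 ≤ q) (hq1 : q ≤ 1) : ll τ q ≤ 1 / √q := by
  unfold ll
  have h1 : 0 ≤ KK τ q * √q := mul_nonneg (KK_pos hτ hq).le (Real.sqrt_nonneg q)
  exact div_le_div_of_nonneg_right (by linarith) (Real.sqrt_nonneg q)

/-- bound for `1 - K √q` -/
theorem one_sub_KK_mul_sqrt_le {τ q : ℝ} (hτ : 0 < τ) (hq : 0 < q) (hq1 : q ≤ 1) :
    1 - KK τ q * √q ≤ τ ^ 2 / (q + τ ^ 2) := by
  have h2 := KER_m hτ hq.le
  have h1 := KK_pos hτ hq.le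
  have h3 : q / (q + τ ^ 2) ≤ KK τ q * √q := by
    rw [← pow_le_pow_iff_left₀ (by positivity) (by positivity) (two_ne_zero), mul_pow,
      Real.sq_sqrt hq.le, KER_sq' hτ hq.le, div_pow, div_mul_eq_mul_div, div_le_div_iff₀ (by positivity) h2]
    have h5 : 0 < τ ^ 2 := by positivity
    have h6 : q ≤ (1 + τ ^ 2) * (q + τ ^ 2) := by nlinarith
    have h7 : 0 < q * (q + τ ^ 2) := by positivity
    nlinarith
  have h4 : τ ^ 2 / (q + τ ^ 2) = 1 - q / (q + τ ^ 2) := by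
    field_simp
    ring
  rw [h4]
  linarith

end Pool.Agent.EWD
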