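import Mathlib
import Pool.Agent.EWD.Defs
import Pool.Agent.EWD.KER

/-
PWI: the pointwise inequality (P1), in one direction.  [about 120 lines, algebra]

Write `X = ∑ a u`, `Y = ∑ b u`, `X' = ∑ a g`, `Y' = ∑ b g`, `q = X² + Y²`, `S = X X' + Y Y'`,
`T = X Y' - Y X'`, `G = ∑ g²`, `W = G - X'² - Y'²` (the square of the norm of the component of `g`
orthogonal to `a, b`), `K = KK τ q`, `β = BB τ q`, `β' = BD τ q`, `c² = 1 - q`.
Facts: `0 ≤ q ≤ 1` (Bessel); `S² + T² = q (X'² + Y'²)`; `S² ≤ c² W`, because with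
`u_W = u - X a - Y b`, `g_W = g - X' a - Y' b` one has `∑ u_W g_W = ∑ u g - X X' - Y Y' = - S`,
`∑ u_W² = 1 - q`, `∑ g_W² = W` (Cauchy-Schwarz).
Claim: `K z² - K T² / q * ζ² - IV ≥ 0`, i.e.
 `(K - 1) z² + 2 β ζ S z + ζ² (K (X'² + Y'²) - K T²/q + (K - β) W + 2 β' S²) ≥ 0`.
Case `q = 1`: `c² W = 0` gives `S = 0`, and `K = 1`, `T²/q = T² ≤ X'² + Y'²`, `β ≤ K`.
Case `q = 0`: then `X = Y = 0`, `S = T = 0`, `K ≥ 1`.
Case `0 < q < 1`: `K (X'² + Y'²) - K T²/q = K S²/q`, `W ≥ S²/c²`, `K - 1 = β c²`, so the left side is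
 `≥ β c² z² + 2 β ζ S z + ζ² S² (K/q + (K - β)/c² + 2 β')`, a quadratic form in `(z, ζ S)` that is
 nonnegative because `c² (K/q + (K - β)/c² + 2 β') ≥ β`: indeed `c² β' = - K/(2 (q + τ²)) + β`
 (`BD_mul`), so the left side is `c² K/q + K - β - K/(q + τ²) + 2 β = K/q - K/(q + τ²) + β ≥ β`.
-/

namespace Pool.Agent.EWD

private theorem PWI_exp {N : ℕ} (a b u g : Fin N → ℝ) (x y x' y' : ℝ) :
    ∑ i, (u i - x * a i - y * b i) * (g i - x' * a i - y' * b i) =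
      ∑ i, u i * g i - x' * ∑ i, a i * u i - y' * ∑ i, b i * u i - x * ∑ i, a i * g i
        - y * ∑ i, b i * g i + x * x' * ∑ i, a i ^ 2 + y * y' * ∑ i, b i ^ 2
        + (x * y' + y * x') * ∑ i, a i * b i := by
  simp only [Finset.mul_sum]
  simp only [← Finset.sum_sub_distrib, ← Finset.sum_add_distrib]
  refine Finset.sum_congr rfl fun i _ => ?_
  ring

private theorem PWI_proj {N : ℕ} {a b : Fin N → ℝ} (h : Ortho a b) (g : Fin N → ℝ) :
    ∑ i, (g i - (∑ i, a i * g i) * a i - (∑ i, b i * g i) * b i) ^ 2 =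
      ∑ i, g i ^ 2 - (∑ i, a i * g i) ^ 2 - (∑ i, b i * g i) ^ 2 := by
  have h1 := PWI_exp a b g g (∑ i, a i * g i) (∑ i, b i * g i) (∑ i, a i * g i) (∑ i, b i * g i)
  rw [h.na, h.nb, h.ab] at h1
  have h2 : ∑ i, (g i - (∑ i, a i * g i) * a i - (∑ i, b i * g i) * b i) ^ 2 =
      ∑ i, (g i - (∑ i, a i * g i) * a i - (∑ i, b i * g i) * b i) *
        (g i - (∑ i, a i * g i) * a i - (∑ i, b i * g i) * b i) :=
    Finset.sum_congr rfl fun i _ => by ring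
  have h3 : ∑ i, g i ^ 2 = ∑ i, g i * g i := Finset.sum_congr rfl fun i _ => by ring
  rw [h2, h1, h3]
  ring

/-- Bessel -/
theorem bessel {N : ℕ} {a b : Fin N → ℝ} (h : Ortho a b) (g : Fin N → ℝ) :
    (∑ i, a i * g i) ^ 2 + (∑ i, b i * g i) ^ 2 ≤ ∑ i, g i ^ 2 := by
  have h1 := PWI_proj h g
  have h2 : 0 ≤ ∑ i, (g i - (∑ i, a i * g i) * a i - (∑ i, b i * g i) * b i) ^ 2 :=
    Finset.sum_nonneg fun i _ => sq_nonneg _
  linarith

private theorem PWI_cs {N : ℕ} {a b : Fin N → ℝ} (h : Ortho a b) (u g : Fin N → ℝ)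
    (hu : ∑ i, u i ^ 2 = 1) (hug : ∑ i, u i * g i = 0) :
    ((∑ i, a i * u i) * (∑ i, a i * g i) + (∑ i, b i * u i) * (∑ i, b i * g i)) ^ 2 ≤
      (1 - ((∑ i, a i * u i) ^ 2 + (∑ i, b i * u i) ^ 2)) *
        (∑ i, g i ^ 2 - (∑ i, a i * g i) ^ 2 - (∑ i, b i * g i) ^ 2) := by
  have h1 := PWI_exp a b u g (∑ i, a i * u i) (∑ i, b i * u i) (∑ i, a i * g i) (∑ i, b i * g i)
  rw [h.na, h.nb, h.ab, hug] at h1
  have h2 := Finset.sum_mul_sq_le_sq_mul_sq Finset.univ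
    (fun i => u i - (∑ i, a i * u i) * a i - (∑ i, b i * u i) * b i)
    (fun i => g i - (∑ i, a i * g i) * a i - (∑ i, b i * g i) * b i)
  rw [h1, PWI_proj h u, PWI_proj h g, hu] at h2
  refine le_trans (le_of_eq ?_) (h2.trans (le_of_eq ?_)) <;> ring

/-- the final algebra -/
private theorem PWI_alg {X Y X' Y' W K B D q m ζ z : ℝ} (hq : q = X ^ 2 + Y ^ 2) (hq1 : q ≤ 1)
    (hm : q ≤ m) (hm0 : 0 < m) (hW : 0 ≤ W) (hK : 1 ≤ K) (hB : 0 ≤ B) (hBK : B ≤ K)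
    (hBm : B * (1 - q) = K - 1) (hD : D * (1 - q) = -(K / (2 * m)) + B)
    (hS : (X * X' + Y * Y') ^ 2 ≤ (1 - q) * W) :
    0 ≤ (K - 1) * z ^ 2 + 2 * B * ζ * (X * X' + Y * Y') * z +
      ζ ^ 2 * (K * (X' ^ 2 + Y' ^ 2) - K * ((X * Y' - Y * X') ^ 2 / q) + (K - B) * W +
        2 * D * (X * X' + Y * Y') ^ 2) := by
  have hq0 : 0 ≤ q := by rw [hq]; positivity
  have hST : (X * X' + Y * Y') ^ 2 + (X * Y' - Y * X') ^ 2 = q * (X' ^ 2 + Y' ^ 2) := by
    rw [hq]; ring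
  rcases hq0.eq_or_lt with h0 | h0
  · -- the case of the axis
    have hX : X = 0 := by
      have : X ^ 2 = 0 := by nlinarith [sq_nonneg X, sq_nonneg Y]
      exact pow_eq_zero_iff (two_ne_zero) |>.1 this
    have hY : Y = 0 := by
      have : Y ^ 2 = 0 := by nlinarith [sq_nonneg X, sq_nonneg Y]
      exact pow_eq_zero_iff (two_ne_zero) |>.1 this
    rw [hX, hY, ← h0, div_zero]
    have h1 : 0 ≤ (K - 1) * z ^ 2 := mul_nonneg (by linarith) (sq_nonneg z)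
    have h2 : 0 ≤ (K - B) * W := mul_nonneg (by linarith) hW
    have h3 : 0 ≤ K * (X' ^ 2 + Y' ^ 2) := by positivity
    have h4 : 0 ≤ ζ ^ 2 * (K * (X' ^ 2 + Y' ^ 2) + (K - B) * W) :=
      mul_nonneg (sq_nonneg ζ) (by linarith)
    nlinarith
  · rcases hq1.eq_or_lt with h1 | h1
    · have hS0 : X * X' + Y * Y' = 0 := by
        have : (X * X' + Y * Y') ^ 2 = 0 := by
          rw [h1] at hS
          nlinarith [sq_nonneg (X * X' + Y * Y')]
        exact pow_eq_zero_iff (two_ne_zero) |>.1 this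
      have hK1 : K - 1 = 0 := by rw [← hBm, h1]; ring
      rw [hS0] at hST ⊢
      rw [hK1, h1, div_one]
      rw [h1] at hST
      have h2 : 0 ≤ (K - B) * W := mul_nonneg (by linarith) hW
      have h3 : (X * Y' - Y * X') ^ 2 = X' ^ 2 + Y' ^ 2 := by linarith
      rw [h3]
      have h4 : 0 ≤ ζ ^ 2 * ((K - B) * W) := mul_nonneg (sq_nonneg ζ) h2
      nlinarith
    · have hr : 0 < 1 - q := by linarith
      set S := X * X' + Y * Y' with hSd
      have hT : (X * Y' - Y * X') ^ 2 / q = X' ^ 2 + Y' ^ 2 - S ^ 2 / q := by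
        have h2 : (X * Y' - Y * X') ^ 2 = q * (X' ^ 2 + Y' ^ 2) - S ^ 2 := by linarith
        rw [h2, sub_div, mul_div_cancel_left₀ _ h0.ne']
      rw [hT]
      have hWS : S ^ 2 / (1 - q) ≤ W := by
        rw [div_le_iff₀ hr]
        linarith
      have hKB : 0 ≤ K - B := by linarith
      have h5 : (K - B) * (S ^ 2 / (1 - q)) ≤ (K - B) * W := mul_le_mul_of_nonneg_left hWS hKB
      have h6 : 0 ≤ (K - 1) * z ^ 2 + 2 * B * ζ * S * z + ζ ^ 2 *
          (K * (S ^ 2 / q) + (K - B) * (S ^ 2 / (1 - q)) + 2 * D * S ^ 2) := by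
        have h7 : (1 - q) * ((K - 1) * z ^ 2 + 2 * B * ζ * S * z + ζ ^ 2 *
            (K * (S ^ 2 / q) + (K - B) * (S ^ 2 / (1 - q)) + 2 * D * S ^ 2)) =
            B * ((1 - q) * z + ζ * S) ^ 2 + ζ ^ 2 * S ^ 2 * (K * (1 / q - 1 / m)) := by
          have e1 : (1 - q) * ((K - B) * (S ^ 2 / (1 - q))) = (K - B) * S ^ 2 := by
            field_simp
          have e2 : (1 - q) * (K * (S ^ 2 / q)) = K * S ^ 2 * (1 / q) - K * S ^ 2 := by
            field_simp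
          have e3 : (1 - q) * (2 * D * S ^ 2) = 2 * S ^ 2 * (D * (1 - q)) := by ring
          have e4 : (1 - q) * ((K - 1) * z ^ 2) = B * ((1 - q) * z) ^ 2 := by
            rw [← hBm]; ring
          calc (1 - q) * ((K - 1) * z ^ 2 + 2 * B * ζ * S * z + ζ ^ 2 *
              (K * (S ^ 2 / q) + (K - B) * (S ^ 2 / (1 - q)) + 2 * D * S ^ 2))
              = (1 - q) * ((K - 1) * z ^ 2) + 2 * B * ζ * S * ((1 - q) * z) + ζ ^ 2 *
                ((1 - q) * (K * (S ^ 2 / q)) + (1 - q) * ((K - B) * (S ^ 2 / (1 - q))) +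
                  (1 - q) * (2 * D * S ^ 2)) := by ring
            _ = B * ((1 - q) * z + ζ * S) ^ 2 + ζ ^ 2 * S ^ 2 * (K * (1 / q - 1 / m)) := by
              rw [e1, e2, e3, e4, hD]
              field_simp
              ring
        have h8 : 1 / m ≤ 1 / q := one_div_le_one_div_of_le h0 hm
        have h9 : 0 ≤ B * ((1 - q) * z + ζ * S) ^ 2 + ζ ^ 2 * S ^ 2 * (K * (1 / q - 1 / m)) := by
          have h10 : 0 ≤ K * (1 / q - 1 / m) := mul_nonneg (by linarith) (by linarith)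
          positivity
        rw [← h7] at h9
        exact nonneg_of_mul_nonneg_right h9 hr
      have h11 : 0 ≤ ζ ^ 2 * ((K - B) * W - (K - B) * (S ^ 2 / (1 - q))) :=
        mul_nonneg (sq_nonneg ζ) (by linarith)
      nlinarith

theorem pointwise {τ : ℝ} (hτ : 0 < τ) {N : ℕ} (a b u g : Fin N → ℝ) (hab : Ortho a b)
    (hu : ∑ i, u i ^ 2 = 1) (hug : ∑ i, u i * g i = 0) (ζ z : ℝ) :
    IV τ a b u g ζ z ≤
      KK τ ((∑ i, a i * u i) ^ 2 + (∑ i, b i * u i) ^ 2) * z ^ 2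
      - KK τ ((∑ i, a i * u i) ^ 2 + (∑ i, b i * u i) ^ 2) *
        (((∑ i, a i * u i) * (∑ i, b i * g i) - (∑ i, b i * u i) * (∑ i, a i * g i)) ^ 2 /
          ((∑ i, a i * u i) ^ 2 + (∑ i, b i * u i) ^ 2)) * ζ ^ 2 := by
  have hB := bessel hab u
  rw [hu] at hB
  have hG := bessel hab g
  have hS := PWI_cs hab u g hu hug
  unfold IV
  set X := ∑ i, a i * u i
  set Y := ∑ i, b i * u i
  set X' := ∑ i, a i * g i
  set Y' := ∑ i, b i * g i
  set G := ∑ i, g i ^ 2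
  have hq0 : 0 ≤ X ^ 2 + Y ^ 2 := by positivity
  have hτ2 : 0 < τ ^ 2 := by positivity
  have key := PWI_alg (X := X) (Y := Y) (X' := X') (Y' := Y') (W := G - X' ^ 2 - Y' ^ 2)
    (K := KK τ (X ^ 2 + Y ^ 2)) (B := BB τ (X ^ 2 + Y ^ 2)) (D := BD τ (X ^ 2 + Y ^ 2))
    (q := X ^ 2 + Y ^ 2) (m := X ^ 2 + Y ^ 2 + τ ^ 2) (ζ := ζ) (z := z) rfl hB (by linarith)
    (by linarith) (by linarith) (one_le_KK hτ hq0 hB) (BB_pos hτ hq0).le (BB_le_KK hτ hq0)
    (BB_mul hτ hq0) (BD_mul hτ hq0) hS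
  linarith

end Pool.Agent.EWD
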