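import Mathlib
import Pool.Agent.EWD.Defs
import Pool.Agent.EWD.KER
import Pool.Agent.EWD.PWI

/-
EXP: the expansion of the energy density of the competitor, in one direction. [about 150 lines, algebra]

Write `v = cmp τ ε a b u ζ`, `v' = cmpD τ ε a b u g ζ z`, `e = eta`, `e' = etaD`, `q`, `K`, `β`, `β'`, `S`,
`c² = 1 - q`, `G = ∑ g²` as in PWI.
(1) `∑ v² = 1 + ε² K ζ² + (ε⁴/4) ∑ e²`, because `∑ u e = β ζ² c²` and `1 + β c² = K`. In particular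
    `∑ v² ≥ 1 + ε² K ζ²`, so `1/∑ v² ≤ 1 - ε² K ζ² + ε⁴ K² ζ⁴` (as `1/(1+t) ≤ 1 - t + t²` for `t ≥ 0`).
(2) `∑ v'² = G + ε² P + (ε⁴/4) ∑ e'²` with `P = ∑ g e' + z²`, and
    `∑ g e' = β ζ² W - (2 β' S ζ² + 2 β ζ z) S`, `W = G - X'² - Y'²`, since `∑ g u_W = - S`, `∑ g g_W = W`.
    Hence `P - K ζ² G = IV τ a b u g ζ z`.
(3) For `|ζ| ≤ 1`, `|z| ≤ 1`: `|P| ≤ C (G + 1)`, `∑ e'² ≤ C (G + 1)` where `C` depends only on `τ`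
    (`|S| ≤ √G`, `W ≤ G`, `β ≤ 1/τ²`, `|β'| ≤ ...`, `K ≤ √(1+τ²)/τ`; `∑ u_W² ≤ 1`; `(x+y)² ≤ 2x²+2y²`).
(4) `(G + ε² P + ε⁴ Q)(1 - ε² K ζ² + ε⁴ K² ζ⁴) ≤ G + ε² (P - K ζ² G) + ε⁴ C' (G + 1)` for `0 < ε ≤ 1`.
-/

namespace Pool.Agent.EWD

private theorem EXP_ww {N : ℕ} {a b : Fin N → ℝ} (h : Ortho a b) (u g : Fin N → ℝ) :
    ∑ i, (u i - (∑ j, a j * u j) * a i - (∑ j, b j * u j) * b i) *
      (g i - (∑ j, a j * g j) * a i - (∑ j, b j * g j) * b i) =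
    ∑ i, u i * g i - (∑ j, a j * u j) * (∑ j, a j * g j) - (∑ j, b j * u j) * (∑ j, b j * g j) := by
  obtain ⟨X, hX⟩ : ∃ X, X = ∑ j, a j * u j := ⟨_, rfl⟩
  obtain ⟨Y, hY⟩ : ∃ Y, Y = ∑ j, b j * u j := ⟨_, rfl⟩
  obtain ⟨X', hX'⟩ : ∃ X', X' = ∑ j, a j * g j := ⟨_, rfl⟩
  obtain ⟨Y', hY'⟩ : ∃ Y', Y' = ∑ j, b j * g j := ⟨_, rfl⟩
  rw [← hX, ← hY, ← hX', ← hY']
  have e : ∀ i, (u i - X * a i - Y * b i) * (g i - X' * a i - Y' * b i) =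
      u i * g i - X' * (a i * u i) - Y' * (b i * u i) - X * (a i * g i) - Y * (b i * g i)
        + (X * X') * (a i ^ 2) + (X * Y' + Y * X') * (a i * b i) + (Y * Y') * (b i ^ 2) := by
    intro i; ring
  rw [Finset.sum_congr rfl fun i _ => e i]
  simp only [Finset.sum_add_distrib, Finset.sum_sub_distrib, ← Finset.mul_sum]
  rw [← hX, ← hY, ← hX', ← hY', h.na, h.nb, h.ab]
  ring

private theorem EXP_gw {N : ℕ} (a b u g : Fin N → ℝ) :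
    ∑ i, g i * (u i - (∑ j, a j * u j) * a i - (∑ j, b j * u j) * b i) =
    ∑ i, u i * g i - (∑ j, a j * u j) * (∑ j, a j * g j) - (∑ j, b j * u j) * (∑ j, b j * g j) := by
  obtain ⟨X, hX⟩ : ∃ X, X = ∑ j, a j * u j := ⟨_, rfl⟩
  obtain ⟨Y, hY⟩ : ∃ Y, Y = ∑ j, b j * u j := ⟨_, rfl⟩
  rw [← hX, ← hY]
  have e : ∀ i, g i * (u i - X * a i - Y * b i) =
      u i * g i - X * (a i * g i) - Y * (b i * g i) := by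
    intro i; ring
  rw [Finset.sum_congr rfl fun i _ => e i]
  simp only [Finset.sum_sub_distrib, ← Finset.mul_sum]

private theorem EXP_cmp {τ : ℝ} (hτ : 0 < τ) {N : ℕ} (ε : ℝ) (a b u : Fin N → ℝ) (hab : Ortho a b)
    (hu : ∑ i, u i ^ 2 = 1) (ζ : ℝ) :
    ∑ i, cmp τ ε a b u ζ i ^ 2 =
      1 + ε ^ 2 * (KK τ ((∑ i, a i * u i) ^ 2 + (∑ i, b i * u i) ^ 2) * ζ ^ 2) +
        ε ^ 4 / 4 * (BB τ ((∑ i, a i * u i) ^ 2 + (∑ i, b i * u i) ^ 2) * ζ ^ 2) ^ 2 *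
          (1 - ((∑ i, a i * u i) ^ 2 + (∑ i, b i * u i) ^ 2)) := by
  have h1 := EXP_ww hab u u
  have h2 := EXP_gw a b u u
  have hu' : ∑ i, u i * u i = 1 := by rw [← hu]; exact Finset.sum_congr rfl fun i _ => by ring
  rw [hu'] at h1 h2
  rw [Fin.sum_univ_castSucc]
  simp only [cmp, Fin.snoc_castSucc, Fin.snoc_last, eta]
  obtain ⟨X, hX⟩ : ∃ X, X = ∑ j, a j * u j := ⟨_, rfl⟩
  obtain ⟨Y, hY⟩ : ∃ Y, Y = ∑ j, b j * u j := ⟨_, rfl⟩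
  rw [← hX, ← hY] at h1 h2 ⊢
  have hq : (0 : ℝ) ≤ X ^ 2 + Y ^ 2 := by positivity
  have hB := BB_mul hτ hq
  obtain ⟨B, hBd⟩ : ∃ B, B = BB τ (X ^ 2 + Y ^ 2) := ⟨_, rfl⟩
  obtain ⟨K, hKd⟩ : ∃ K, K = KK τ (X ^ 2 + Y ^ 2) := ⟨_, rfl⟩
  rw [← hBd, ← hKd] at hB ⊢
  have e : ∀ i, (u i + ε ^ 2 / 2 * (B * ζ ^ 2 * (u i - X * a i - Y * b i))) ^ 2 =
      u i ^ 2 + (ε ^ 2 * (B * ζ ^ 2)) * (u i * (u i - X * a i - Y * b i)) +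
        (ε ^ 4 / 4 * (B * ζ ^ 2) ^ 2) * ((u i - X * a i - Y * b i) * (u i - X * a i - Y * b i)) := by
    intro i; ring
  rw [Finset.sum_congr rfl fun i _ => e i]
  simp only [Finset.sum_add_distrib, ← Finset.mul_sum]
  rw [h1, h2, hu]
  linear_combination (ε ^ 2 * ζ ^ 2) * hB

private theorem EXP_cmpD (τ : ℝ) {N : ℕ} (ε : ℝ) (a b u g : Fin N → ℝ) (hug : ∑ i, u i * g i = 0) (ζ z : ℝ) :
    ∑ i, cmpD τ ε a b u g ζ z i ^ 2 =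
      ∑ i, g i ^ 2 + ε ^ 2 * (IV τ a b u g ζ z +
        (∑ i, g i ^ 2) * KK τ ((∑ i, a i * u i) ^ 2 + (∑ i, b i * u i) ^ 2) * ζ ^ 2) +
        ε ^ 4 / 4 * ∑ i, etaD τ a b u g ζ z i ^ 2 := by
  have h3 := EXP_gw a b u g
  have h4 := EXP_gw a b g g
  have hg' : ∑ i, g i * g i = ∑ i, g i ^ 2 := Finset.sum_congr rfl fun i _ => by ring
  rw [hug] at h3
  rw [hg'] at h4
  rw [Fin.sum_univ_castSucc]
  simp only [cmpD, Fin.snoc_castSucc, Fin.snoc_last]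
  have e : ∀ i, (g i + ε ^ 2 / 2 * etaD τ a b u g ζ z i) ^ 2 =
      g i ^ 2 + ε ^ 2 * (g i * etaD τ a b u g ζ z i) +
        (ε ^ 4 / 4) * (etaD τ a b u g ζ z i ^ 2) := by
    intro i; ring
  rw [Finset.sum_congr rfl fun i _ => e i]
  simp only [Finset.sum_add_distrib, ← Finset.mul_sum]
  have h5 : ∑ i, g i * etaD τ a b u g ζ z i =
      IV τ a b u g ζ z +
        (∑ i, g i ^ 2) * KK τ ((∑ i, a i * u i) ^ 2 + (∑ i, b i * u i) ^ 2) * ζ ^ 2 - z ^ 2 := by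
    simp only [etaD, IV]
    obtain ⟨X, hX⟩ : ∃ X, X = ∑ j, a j * u j := ⟨_, rfl⟩
    obtain ⟨Y, hY⟩ : ∃ Y, Y = ∑ j, b j * u j := ⟨_, rfl⟩
    obtain ⟨X', hX'⟩ : ∃ X', X' = ∑ j, a j * g j := ⟨_, rfl⟩
    obtain ⟨Y', hY'⟩ : ∃ Y', Y' = ∑ j, b j * g j := ⟨_, rfl⟩
    rw [← hX, ← hY, ← hX', ← hY'] at h3
    rw [← hX', ← hY'] at h4
    rw [← hX, ← hY, ← hX', ← hY']
    obtain ⟨B, hBd⟩ : ∃ B, B = BB τ (X ^ 2 + Y ^ 2) := ⟨_, rfl⟩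
    obtain ⟨D, hDd⟩ : ∃ D, D = BD τ (X ^ 2 + Y ^ 2) := ⟨_, rfl⟩
    rw [← hBd, ← hDd]
    have e2 : ∀ i, g i * ((2 * D * (X * X' + Y * Y') * ζ ^ 2 + 2 * B * ζ * z) *
        (u i - X * a i - Y * b i) + B * ζ ^ 2 * (g i - X' * a i - Y' * b i)) =
        (2 * D * (X * X' + Y * Y') * ζ ^ 2 + 2 * B * ζ * z) * (g i * (u i - X * a i - Y * b i)) +
          (B * ζ ^ 2) * (g i * (g i - X' * a i - Y' * b i)) := by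
      intro i; ring
    rw [Finset.sum_congr rfl fun i _ => e2 i]
    simp only [Finset.sum_add_distrib, ← Finset.mul_sum]
    rw [h3, h4]
    ring
  rw [h5]
  ring

private theorem EXP_bes {N : ℕ} {a b : Fin N → ℝ} (h : Ortho a b) (g : Fin N → ℝ) :
    (∑ i, a i * g i) ^ 2 + (∑ i, b i * g i) ^ 2 ≤ ∑ i, g i ^ 2 := bessel h g

theorem cmp_sq {τ : ℝ} (hτ : 0 < τ) {N : ℕ} (ε : ℝ) (a b u : Fin N → ℝ) (hab : Ortho a b)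
    (hu : ∑ i, u i ^ 2 = 1) (ζ : ℝ) :
    1 ≤ ∑ i, cmp τ ε a b u ζ i ^ 2 := by
  rw [EXP_cmp hτ ε a b u hab hu ζ]
  have hb := bessel hab u
  rw [hu] at hb
  have hq : (0 : ℝ) ≤ (∑ i, a i * u i) ^ 2 + (∑ i, b i * u i) ^ 2 := by positivity
  have hK := KK_pos hτ hq
  have h1 : 0 ≤ ε ^ 2 * (KK τ ((∑ i, a i * u i) ^ 2 + (∑ i, b i * u i) ^ 2) * ζ ^ 2) := by positivity
  have h2 : 0 ≤ ε ^ 4 / 4 * (BB τ ((∑ i, a i * u i) ^ 2 + (∑ i, b i * u i) ^ 2) * ζ ^ 2) ^ 2 *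
          (1 - ((∑ i, a i * u i) ^ 2 + (∑ i, b i * u i) ^ 2)) :=
    mul_nonneg (by positivity) (by linarith)
  linarith

private theorem EXP_scal {G P Q κ ε c1 c2 k num den : ℝ} (hG : 0 ≤ G) (hP : |P| ≤ c1 * (G + 1))
    (hQ : 0 ≤ Q) (hQ2 : Q ≤ c2 * (G + 1)) (hκ : 0 ≤ κ) (hk : κ ≤ k) (hε : 0 < ε) (hε1 : ε ≤ 1)
    (hden : 1 + ε ^ 2 * κ ≤ den) (hnum : num = G + ε ^ 2 * P + ε ^ 4 * Q) (hn0 : 0 ≤ num) :
    num / den ≤ G + ε ^ 2 * (P - κ * G) +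
      ε ^ 4 * ((c2 + k * c1 + k ^ 2 + k ^ 2 * c1 + k ^ 2 * c2) * (G + 1)) := by
  obtain ⟨t, ht⟩ : ∃ t, t = ε ^ 2 * κ := ⟨_, rfl⟩
  have ht0 : 0 ≤ t := by rw [ht]; positivity
  rw [← ht] at hden
  have hd : 0 < 1 + t := by linarith
  have h1 : num / den ≤ num / (1 + t) := div_le_div_of_nonneg_left hn0 hd hden
  have h2 : num / (1 + t) ≤ num * (1 - t + t ^ 2) := by
    rw [div_le_iff₀ hd]
    have : num * (1 - t + t ^ 2) * (1 + t) = num + num * t ^ 3 := by ring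
    rw [this]
    have : 0 ≤ num * t ^ 3 := by positivity
    linarith
  have h3 : num * (1 - t + t ^ 2) = G + ε ^ 2 * (P - κ * G) +
      ε ^ 4 * (Q - κ * P + κ ^ 2 * G + ε ^ 2 * (κ ^ 2 * P) - ε ^ 2 * (κ * Q) +
        ε ^ 4 * (κ ^ 2 * Q)) := by
    rw [hnum, ht]; ring
  have hk0 : 0 ≤ k := hκ.trans hk
  have hP0 := abs_nonneg P
  have hc1 : 0 ≤ c1 * (G + 1) := hP0.trans hP
  have hc2 : 0 ≤ c2 * (G + 1) := hQ.trans hQ2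
  have hκ2 : κ ^ 2 ≤ k ^ 2 := by gcongr
  have he2 : ε ^ 2 ≤ 1 := pow_le_one₀ hε.le hε1
  have he4 : ε ^ 4 ≤ 1 := pow_le_one₀ hε.le hε1
  have a1 : -(κ * P) ≤ k * (c1 * (G + 1)) := by
    have : -(κ * P) ≤ κ * |P| := by
      have := neg_abs_le P
      nlinarith
    exact this.trans (mul_le_mul hk hP hP0 hk0)
  have a2 : κ ^ 2 * G ≤ k ^ 2 * (G + 1) := mul_le_mul hκ2 (by linarith) hG (by positivity)
  have a3 : ε ^ 2 * (κ ^ 2 * P) ≤ k ^ 2 * (c1 * (G + 1)) := by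
    have b1 : κ ^ 2 * P ≤ κ ^ 2 * |P| := mul_le_mul_of_nonneg_left (le_abs_self P) (by positivity)
    have b2 : κ ^ 2 * |P| ≤ k ^ 2 * (c1 * (G + 1)) := mul_le_mul hκ2 hP hP0 (by positivity)
    have b3 : 0 ≤ k ^ 2 * (c1 * (G + 1)) := by positivity
    calc ε ^ 2 * (κ ^ 2 * P) ≤ ε ^ 2 * (k ^ 2 * (c1 * (G + 1))) :=
          mul_le_mul_of_nonneg_left (b1.trans b2) (by positivity)
      _ ≤ 1 * (k ^ 2 * (c1 * (G + 1))) := mul_le_mul_of_nonneg_right he2 b3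
      _ = _ := one_mul _
  have a4 : 0 ≤ ε ^ 2 * (κ * Q) := by positivity
  have a5 : ε ^ 4 * (κ ^ 2 * Q) ≤ k ^ 2 * (c2 * (G + 1)) := by
    have b2 : κ ^ 2 * Q ≤ k ^ 2 * (c2 * (G + 1)) := mul_le_mul hκ2 hQ2 hQ (by positivity)
    have b3 : 0 ≤ k ^ 2 * (c2 * (G + 1)) := by positivity
    calc ε ^ 4 * (κ ^ 2 * Q) ≤ ε ^ 4 * (k ^ 2 * (c2 * (G + 1))) :=
          mul_le_mul_of_nonneg_left b2 (by positivity)
      _ ≤ 1 * (k ^ 2 * (c2 * (G + 1))) := mul_le_mul_of_nonneg_right he4 b3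
      _ = _ := one_mul _
  have h4 : Q - κ * P + κ ^ 2 * G + ε ^ 2 * (κ ^ 2 * P) - ε ^ 2 * (κ * Q) +
        ε ^ 4 * (κ ^ 2 * Q) ≤ (c2 + k * c1 + k ^ 2 + k ^ 2 * c1 + k ^ 2 * c2) * (G + 1) := by
    have : (c2 + k * c1 + k ^ 2 + k ^ 2 * c1 + k ^ 2 * c2) * (G + 1) =
      c2 * (G + 1) + k * (c1 * (G + 1)) + k ^ 2 * (G + 1) + k ^ 2 * (c1 * (G + 1)) +
        k ^ 2 * (c2 * (G + 1)) := by ring
    rw [this]
    linarith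
  have h5 := mul_le_mul_of_nonneg_left h4 (show (0 : ℝ) ≤ ε ^ 4 by positivity)
  linarith [h1, h2, h3, h5]

private theorem EXP_bd {G W S q B D z ζ b d : ℝ} (hG : 0 ≤ G) (hW0 : 0 ≤ W) (hW : W ≤ G)
    (hS : S ^ 2 ≤ G) (hq0 : 0 ≤ q) (hB0 : 0 ≤ B) (hB : B ≤ b) (hD : |D| ≤ d)
    (hζ : |ζ| ≤ 1) (hz : |z| ≤ 1) :
    |z ^ 2 + B * ζ ^ 2 * W - 2 * D * S ^ 2 * ζ ^ 2 - 2 * B * ζ * S * z| ≤
        (1 + 3 * b + 2 * d) * (G + 1) ∧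
    (2 * D * S * ζ ^ 2 + 2 * B * ζ * z) ^ 2 * (1 - q) +
        2 * ((2 * D * S * ζ ^ 2 + 2 * B * ζ * z) * (B * ζ ^ 2)) * (-S) + (B * ζ ^ 2) ^ 2 * W ≤
      (32 * d ^ 2 + 36 * b ^ 2) * (G + 1) := by
  have hb0 : 0 ≤ b := hB0.trans hB
  have hd0 : 0 ≤ d := (abs_nonneg D).trans hD
  have hz2 : z ^ 2 ≤ 1 := by rw [← sq_abs]; exact pow_le_one₀ (abs_nonneg z) hz
  have hζ2 : ζ ^ 2 ≤ 1 := by rw [← sq_abs]; exact pow_le_one₀ (abs_nonneg ζ) hζ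
  have hD2 : D ^ 2 ≤ d ^ 2 := by rw [← sq_abs]; gcongr
  have hB2 : B ^ 2 ≤ b ^ 2 := by gcongr
  have hS1 : |S| ≤ G + 1 := abs_le_of_sq_le_sq (by nlinarith) (by linarith)
  have t2 : B * ζ ^ 2 * W ≤ b * G := by
    have h1 : B * ζ ^ 2 ≤ b * 1 := mul_le_mul hB hζ2 (by positivity) hb0
    rw [mul_one] at h1
    exact mul_le_mul h1 hW hW0 hb0
  have t20 : 0 ≤ B * ζ ^ 2 * W := by positivity
  have t3 : |D * S ^ 2 * ζ ^ 2| ≤ d * G := by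
    rw [abs_mul, abs_mul, abs_of_nonneg (sq_nonneg S), abs_of_nonneg (sq_nonneg ζ)]
    have h1 : |D| * S ^ 2 ≤ d * G := mul_le_mul hD hS (by positivity) hd0
    have h2 : |D| * S ^ 2 * ζ ^ 2 ≤ d * G * 1 := mul_le_mul h1 hζ2 (by positivity) (by positivity)
    linarith
  have t4 : |B * ζ * S * z| ≤ b * (G + 1) := by
    rw [abs_mul, abs_mul, abs_mul, abs_of_nonneg hB0]
    have h1 : B * |ζ| ≤ b * 1 := mul_le_mul hB hζ (abs_nonneg _) hb0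
    have h2 : B * |ζ| * |S| ≤ b * 1 * (G + 1) := mul_le_mul h1 hS1 (abs_nonneg _) (by positivity)
    have h3 : B * |ζ| * |S| * |z| ≤ b * 1 * (G + 1) * 1 :=
      mul_le_mul h2 hz (abs_nonneg _) (by positivity)
    linarith
  have t3' := abs_le.mp t3
  have t4' := abs_le.mp t4
  refine ⟨?_, ?_⟩
  · rw [abs_le]
    have e : z ^ 2 + B * ζ ^ 2 * W - 2 * D * S ^ 2 * ζ ^ 2 - 2 * B * ζ * S * z =
      z ^ 2 + B * ζ ^ 2 * W - 2 * (D * S ^ 2 * ζ ^ 2) - 2 * (B * ζ * S * z) := by ring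
    rw [e]
    have hz0 := sq_nonneg z
    have hbG : 0 ≤ b * G := mul_nonneg hb0 hG
    have hdG : 0 ≤ d * G := mul_nonneg hd0 hG
    have e2 : (1 + 3 * b + 2 * d) * (G + 1) = G + 3 * (b * G) + 2 * (d * G) + 1 + 3 * b + 2 * d := by
      ring
    have e3 : b * (G + 1) = b * G + b := by ring
    rw [e3] at t4'
    rw [e2]
    obtain ⟨t3a, t3b⟩ := t3'
    obtain ⟨t4a, t4b⟩ := t4'
    constructor
    · linarith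
    · linarith
  · obtain ⟨p, hp⟩ : ∃ p, p = 2 * D * S * ζ ^ 2 + 2 * B * ζ * z := ⟨_, rfl⟩
    obtain ⟨r, hr⟩ : ∃ r, r = B * ζ ^ 2 := ⟨_, rfl⟩
    rw [← hp, ← hr]
    have r0 : 0 ≤ r := by rw [hr]; positivity
    have r1 : r ≤ b := by
      rw [hr]
      have h1 : B * ζ ^ 2 ≤ b * 1 := mul_le_mul hB hζ2 (by positivity) hb0
      linarith
    have r2 : r ^ 2 ≤ b ^ 2 := by gcongr
    have p2 : p ^ 2 ≤ 8 * (d ^ 2 * G) + 8 * b ^ 2 := by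
      have h1 : p ^ 2 ≤ 2 * (2 * D * S * ζ ^ 2) ^ 2 + 2 * (2 * B * ζ * z) ^ 2 := by
        rw [hp]; nlinarith [sq_nonneg (2 * D * S * ζ ^ 2 - 2 * B * ζ * z)]
      have h2 : (2 * D * S * ζ ^ 2) ^ 2 ≤ 4 * (d ^ 2 * G) := by
        have e : (2 * D * S * ζ ^ 2) ^ 2 = 4 * (D ^ 2 * S ^ 2 * (ζ ^ 2) ^ 2) := by ring
        rw [e]
        have h3 : D ^ 2 * S ^ 2 ≤ d ^ 2 * G := mul_le_mul hD2 hS (by positivity) (by positivity)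
        have h4 : (ζ ^ 2) ^ 2 ≤ 1 := pow_le_one₀ (sq_nonneg ζ) hζ2
        have h5 : D ^ 2 * S ^ 2 * (ζ ^ 2) ^ 2 ≤ d ^ 2 * G * 1 :=
          mul_le_mul h3 h4 (by positivity) (by positivity)
        linarith
      have h6 : (2 * B * ζ * z) ^ 2 ≤ 4 * b ^ 2 := by
        have e : (2 * B * ζ * z) ^ 2 = 4 * (B ^ 2 * ζ ^ 2 * z ^ 2) := by ring
        rw [e]
        have h3 : B ^ 2 * ζ ^ 2 ≤ b ^ 2 * 1 := mul_le_mul hB2 hζ2 (by positivity) (by positivity)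
        have h5 : B ^ 2 * ζ ^ 2 * z ^ 2 ≤ b ^ 2 * 1 * 1 :=
          mul_le_mul h3 hz2 (by positivity) (by positivity)
        linarith
      linarith
    have q1 : p ^ 2 * (1 - q) ≤ p ^ 2 := by nlinarith [sq_nonneg p]
    have q2 : 2 * (p * r) * (-S) ≤ p ^ 2 + r ^ 2 * S ^ 2 := by nlinarith [sq_nonneg (p + r * S)]
    have q3 : r ^ 2 * S ^ 2 ≤ b ^ 2 * G := mul_le_mul r2 hS (by positivity) (by positivity)
    have q4 : r ^ 2 * W ≤ b ^ 2 * G := mul_le_mul r2 hW hW0 (by positivity)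
    have q5 : 0 ≤ b ^ 2 * G := by positivity
    have q6 : 0 ≤ d ^ 2 * G := by positivity
    have e : (32 * d ^ 2 + 36 * b ^ 2) * (G + 1) =
      32 * (d ^ 2 * G) + 36 * (b ^ 2 * G) + 32 * d ^ 2 + 36 * b ^ 2 := by ring
    rw [e]
    have := sq_nonneg d
    have := sq_nonneg b
    linarith

private theorem EXP_cs (X Y X' Y' : ℝ) :
    (X * X' + Y * Y') ^ 2 ≤ (X ^ 2 + Y ^ 2) * (X' ^ 2 + Y' ^ 2) := by
  nlinarith [sq_nonneg (X * Y' - Y * X')]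

theorem expansion {τ : ℝ} (hτ : 0 < τ) : ∃ C : ℝ, 0 ≤ C ∧ ∀ {N : ℕ} (a b u g : Fin N → ℝ)
    (ζ z ε : ℝ), Ortho a b → ∑ i, u i ^ 2 = 1 → ∑ i, u i * g i = 0 → |ζ| ≤ 1 → |z| ≤ 1 → 0 < ε →
    ε ≤ 1 →
    (∑ i, cmpD τ ε a b u g ζ z i ^ 2) / (∑ i, cmp τ ε a b u ζ i ^ 2) ≤
      ∑ i, g i ^ 2 + ε ^ 2 * IV τ a b u g ζ z + ε ^ 4 * (C * (∑ i, g i ^ 2 + 1)) := by
  obtain ⟨bm, hbm⟩ : ∃ x : ℝ, x = 1 / τ ^ 2 := ⟨_, rfl⟩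
  obtain ⟨dm, hdm⟩ : ∃ x : ℝ, x = (1 / τ ^ 2) ^ 2 * (√(1 + τ ^ 2) / τ / 2 + 1) := ⟨_, rfl⟩
  obtain ⟨km, hkm⟩ : ∃ x : ℝ, x = √(1 + τ ^ 2) / τ := ⟨_, rfl⟩
  have b0 : 0 ≤ bm := by rw [hbm]; positivity
  have d0 : 0 ≤ dm := by rw [hdm]; positivity
  have k0 : 0 ≤ km := by rw [hkm]; positivity
  obtain ⟨c1, hc1⟩ : ∃ x : ℝ, x = 1 + 3 * bm + 2 * dm := ⟨_, rfl⟩
  obtain ⟨c2, hc2⟩ : ∃ x : ℝ, x = 32 * dm ^ 2 + 36 * bm ^ 2 := ⟨_, rfl⟩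
  have c10 : 0 ≤ c1 := by rw [hc1]; positivity
  have c20 : 0 ≤ c2 := by rw [hc2]; positivity
  refine ⟨c2 + km * c1 + km ^ 2 + km ^ 2 * c1 + km ^ 2 * c2, by positivity, ?_⟩
  intro N a b u g ζ z ε hab hu hug hζ hz hε hε1
  have hnum := EXP_cmpD τ ε a b u g hug ζ z
  have hden := EXP_cmp hτ ε a b u hab hu ζ
  have n0 : 0 ≤ ∑ i, cmpD τ ε a b u g ζ z i ^ 2 := Finset.sum_nonneg fun i _ => sq_nonneg _
  have e0 : 0 ≤ ∑ i, etaD τ a b u g ζ z i ^ 2 := Finset.sum_nonneg fun i _ => sq_nonneg _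
  have h1 := EXP_ww hab u u
  have h2 := EXP_ww hab u g
  have h3 := EXP_ww hab g g
  have hb1 := bessel hab u
  have hb2 := bessel hab g
  have hu' : ∑ i, u i * u i = 1 := by rw [← hu]; exact Finset.sum_congr rfl fun i _ => by ring
  have hg' : ∑ i, g i * g i = ∑ i, g i ^ 2 := Finset.sum_congr rfl fun i _ => by ring
  rw [hu'] at h1
  rw [hug] at h2
  rw [hg'] at h3
  rw [hu] at hb1
  have hes : ∑ i, etaD τ a b u g ζ z i ^ 2 =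
      (2 * BD τ ((∑ i, a i * u i) ^ 2 + (∑ i, b i * u i) ^ 2) *
        ((∑ i, a i * u i) * (∑ i, a i * g i) + (∑ i, b i * u i) * (∑ i, b i * g i)) * ζ ^ 2 +
        2 * BB τ ((∑ i, a i * u i) ^ 2 + (∑ i, b i * u i) ^ 2) * ζ * z) ^ 2 *
        (1 - ((∑ i, a i * u i) ^ 2 + (∑ i, b i * u i) ^ 2)) +
      2 * ((2 * BD τ ((∑ i, a i * u i) ^ 2 + (∑ i, b i * u i) ^ 2) *
        ((∑ i, a i * u i) * (∑ i, a i * g i) + (∑ i, b i * u i) * (∑ i, b i * g i)) * ζ ^ 2 +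
        2 * BB τ ((∑ i, a i * u i) ^ 2 + (∑ i, b i * u i) ^ 2) * ζ * z) *
        (BB τ ((∑ i, a i * u i) ^ 2 + (∑ i, b i * u i) ^ 2) * ζ ^ 2)) *
        (-((∑ i, a i * u i) * (∑ i, a i * g i) + (∑ i, b i * u i) * (∑ i, b i * g i))) +
      (BB τ ((∑ i, a i * u i) ^ 2 + (∑ i, b i * u i) ^ 2) * ζ ^ 2) ^ 2 *
        (∑ i, g i ^ 2 - (∑ i, a i * g i) ^ 2 - (∑ i, b i * g i) ^ 2) := by
    simp only [etaD]
    obtain ⟨X, hX⟩ : ∃ X, X = ∑ j, a j * u j := ⟨_, rfl⟩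
    obtain ⟨Y, hY⟩ : ∃ Y, Y = ∑ j, b j * u j := ⟨_, rfl⟩
    obtain ⟨X', hX'⟩ : ∃ X', X' = ∑ j, a j * g j := ⟨_, rfl⟩
    obtain ⟨Y', hY'⟩ : ∃ Y', Y' = ∑ j, b j * g j := ⟨_, rfl⟩
    rw [← hX, ← hY] at h1
    rw [← hX, ← hY, ← hX', ← hY'] at h2
    rw [← hX', ← hY'] at h3
    rw [← hX, ← hY, ← hX', ← hY']
    obtain ⟨p, hp⟩ : ∃ p, p = 2 * BD τ (X ^ 2 + Y ^ 2) * (X * X' + Y * Y') * ζ ^ 2 +
      2 * BB τ (X ^ 2 + Y ^ 2) * ζ * z := ⟨_, rfl⟩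
    obtain ⟨r, hr⟩ : ∃ r, r = BB τ (X ^ 2 + Y ^ 2) * ζ ^ 2 := ⟨_, rfl⟩
    rw [← hp, ← hr]
    have e : ∀ i, (p * (u i - X * a i - Y * b i) + r * (g i - X' * a i - Y' * b i)) ^ 2 =
      p ^ 2 * ((u i - X * a i - Y * b i) * (u i - X * a i - Y * b i)) +
      2 * (p * r) * ((u i - X * a i - Y * b i) * (g i - X' * a i - Y' * b i)) +
      r ^ 2 * ((g i - X' * a i - Y' * b i) * (g i - X' * a i - Y' * b i)) := by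
      intro i; ring
    rw [Finset.sum_congr rfl fun i _ => e i]
    simp only [Finset.sum_add_distrib, ← Finset.mul_sum]
    rw [h1, h2, h3]
    ring
  have hIV : IV τ a b u g ζ z + (∑ i, g i ^ 2) *
      KK τ ((∑ i, a i * u i) ^ 2 + (∑ i, b i * u i) ^ 2) * ζ ^ 2 =
      z ^ 2 + BB τ ((∑ i, a i * u i) ^ 2 + (∑ i, b i * u i) ^ 2) * ζ ^ 2 *
        (∑ i, g i ^ 2 - (∑ i, a i * g i) ^ 2 - (∑ i, b i * g i) ^ 2) -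
      2 * BD τ ((∑ i, a i * u i) ^ 2 + (∑ i, b i * u i) ^ 2) *
        ((∑ i, a i * u i) * (∑ i, a i * g i) + (∑ i, b i * u i) * (∑ i, b i * g i)) ^ 2 * ζ ^ 2 -
      2 * BB τ ((∑ i, a i * u i) ^ 2 + (∑ i, b i * u i) ^ 2) * ζ *
        ((∑ i, a i * u i) * (∑ i, a i * g i) + (∑ i, b i * u i) * (∑ i, b i * g i)) * z := by
    simp only [IV]
    ring
  obtain ⟨P, hP⟩ : ∃ P, P = IV τ a b u g ζ z + (∑ i, g i ^ 2) *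
      KK τ ((∑ i, a i * u i) ^ 2 + (∑ i, b i * u i) ^ 2) * ζ ^ 2 := ⟨_, rfl⟩
  have hI2 : IV τ a b u g ζ z = P - KK τ ((∑ i, a i * u i) ^ 2 + (∑ i, b i * u i) ^ 2) * ζ ^ 2 *
      (∑ i, g i ^ 2) := by rw [hP]; ring
  rw [← hP] at hnum hIV
  rw [hI2]
  obtain ⟨X, hX⟩ : ∃ X, X = ∑ j, a j * u j := ⟨_, rfl⟩
  obtain ⟨Y, hY⟩ : ∃ Y, Y = ∑ j, b j * u j := ⟨_, rfl⟩
  obtain ⟨X', hX'⟩ : ∃ X', X' = ∑ j, a j * g j := ⟨_, rfl⟩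
  obtain ⟨Y', hY'⟩ : ∃ Y', Y' = ∑ j, b j * g j := ⟨_, rfl⟩
  rw [← hX, ← hY] at hb1 hden ⊢
  rw [← hX', ← hY'] at hb2
  rw [← hX, ← hY, ← hX', ← hY'] at hes hIV
  obtain ⟨G, hG⟩ : ∃ G, G = ∑ i, g i ^ 2 := ⟨_, rfl⟩
  have hG0 : 0 ≤ G := by rw [hG]; exact Finset.sum_nonneg fun i _ => sq_nonneg _
  rw [← hG] at hb2 hes hIV hnum ⊢
  have hq : (0 : ℝ) ≤ X ^ 2 + Y ^ 2 := by positivity
  have hB0 := (BB_pos hτ hq).le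
  have hB1 := BB_le hτ hq
  have hD1 := abs_BD_le hτ hq
  have hK0 := (KK_pos hτ hq).le
  have hK1 := KK_le hτ hq
  rw [← hbm] at hB1
  rw [← hdm] at hD1
  rw [← hkm] at hK1
  have hζ2 : ζ ^ 2 ≤ 1 := by rw [← sq_abs]; exact pow_le_one₀ (abs_nonneg ζ) hζ
  have hS : (X * X' + Y * Y') ^ 2 ≤ G := by
    have h4 := EXP_cs X Y X' Y'
    have h5 : (X ^ 2 + Y ^ 2) * (X' ^ 2 + Y' ^ 2) ≤ 1 * G :=
      mul_le_mul hb1 hb2 (by positivity) zero_le_one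
    linarith
  have hW0 : 0 ≤ G - X' ^ 2 - Y' ^ 2 := by
    have h6 : G - X' ^ 2 - Y' ^ 2 = G - (X' ^ 2 + Y' ^ 2) := by ring
    rw [h6]
    exact sub_nonneg.mpr hb2
  have hW1 : G - X' ^ 2 - Y' ^ 2 ≤ G :=
    (sub_le_self _ (sq_nonneg Y')).trans (sub_le_self _ (sq_nonneg X'))
  have hbd := EXP_bd (G := G) (W := G - X' ^ 2 - Y' ^ 2) (S := X * X' + Y * Y')
    (q := X ^ 2 + Y ^ 2) (B := BB τ (X ^ 2 + Y ^ 2)) (D := BD τ (X ^ 2 + Y ^ 2)) (z := z) (ζ := ζ)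
    (b := bm) (d := dm) hG0 hW0 hW1 hS hq hB0
    hB1 hD1 hζ hz
  rw [← hIV, ← hes, ← hc1, ← hc2] at hbd
  have hκ0 : 0 ≤ KK τ (X ^ 2 + Y ^ 2) * ζ ^ 2 := by positivity
  have hκ1 : KK τ (X ^ 2 + Y ^ 2) * ζ ^ 2 ≤ km := by
    have := mul_le_mul hK1 hζ2 (sq_nonneg ζ) k0
    linarith
  refine EXP_scal (Q := 1 / 4 * ∑ i, etaD τ a b u g ζ z i ^ 2) (P := P) hG0 hbd.1 (by positivity)
    ?_ hκ0 hκ1 hε hε1 ?_ ?_ n0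
  · linarith [hbd.2]
  · rw [hden]
    have : 0 ≤ ε ^ 4 / 4 * (BB τ (X ^ 2 + Y ^ 2) * ζ ^ 2) ^ 2 * (1 - (X ^ 2 + Y ^ 2)) :=
      mul_nonneg (by positivity) (by linarith)
    linarith
  · rw [hnum]; ring

/-- the square of the norm of the competitor -/
theorem cmp_sq_eq {τ : ℝ} (hτ : 0 < τ) {N : ℕ} (ε : ℝ) (a b u : Fin N → ℝ) (hab : Ortho a b)
    (hu : ∑ i, u i ^ 2 = 1) (ζ : ℝ) :
    ∑ i, cmp τ ε a b u ζ i ^ 2 =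
      1 + ε ^ 2 * (KK τ ((∑ i, a i * u i) ^ 2 + (∑ i, b i * u i) ^ 2) * ζ ^ 2) +
        ε ^ 4 / 4 * (BB τ ((∑ i, a i * u i) ^ 2 + (∑ i, b i * u i) ^ 2) * ζ ^ 2) ^ 2 *
          (1 - ((∑ i, a i * u i) ^ 2 + (∑ i, b i * u i) ^ 2)) :=
  EXP_cmp hτ ε a b u hab hu ζ

end Pool.Agent.EWD
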