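import Mathlib
import Pool.Agent.EWD.Defs
import Pool.Agent.EWD.KER

/-
NRM: derivative of the competitor in one variable.  [about 140 lines, one variable calculus]

(1) `normalize_deriv`. Let `n(s) = √(∑ vⱼ(s)²)`, `n > 0` near 0, `n' = (∑ v v')/n`. The derivative of
`vᵢ/n` at 0 is `vᵢ'/n - vᵢ (∑ v v')/n³`; the sum of the squares is
`(∑ v'²)/n² - (∑ v v')²/n⁴ ≤ (∑ v'²)/n²`.
(2) `hasDerivAt_cmp`: `cmp` is `Fin.snoc` of `uᵢ + (ε²/2) etaᵢ` and `ε ζ`; use `Fin.lastCases` (or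
`Fin.snocCases`) on `i`. The derivative of `q = (∑ a u)² + (∑ b u)²` is `2 (X X' + Y Y')`, that of
`BB τ q` is `BD τ q * q'` (`hasDerivAt_BB`, `0 ≤ q`), then the product rule.
-/

open Set Filter Topology

namespace Pool.Agent.EWD

theorem normalize_deriv {n : ℕ} (v : Fin n → ℝ → ℝ) (v' : Fin n → ℝ)
    (h : ∀ i, HasDerivAt (v i) (v' i) 0) (hpos : 0 < ∑ i, v i 0 ^ 2) :
    ∑ i, deriv (fun s => v i s / √(∑ j, v j s ^ 2)) 0 ^ 2 ≤ (∑ i, v' i ^ 2) / ∑ i, v i 0 ^ 2 := by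
  have hS : HasDerivAt (fun s => ∑ j, v j s ^ 2) (∑ j, 2 * v j 0 * v' j) 0 := by
    refine HasDerivAt.fun_sum fun j _ => ?_
    have h1 := (h j).pow 2
    refine h1.congr_deriv ?_
    norm_num
  have hs := hS.sqrt hpos.ne'
  have hn : 0 < √(∑ j, v j 0 ^ 2) := Real.sqrt_pos.mpr hpos
  have hn2 : √(∑ j, v j 0 ^ 2) ^ 2 = ∑ j, v j 0 ^ 2 := Real.sq_sqrt hpos.le
  have hd : ∀ i, deriv (fun s => v i s / √(∑ j, v j s ^ 2)) 0 =
      (v' i * √(∑ j, v j 0 ^ 2) - v i 0 * ((∑ j, 2 * v j 0 * v' j) / (2 * √(∑ j, v j 0 ^ 2)))) /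
        √(∑ j, v j 0 ^ 2) ^ 2 := fun i => ((h i).div hs hn.ne').deriv
  have hP : ∑ j, 2 * v j 0 * v' j = 2 * ∑ j, v j 0 * v' j := by
    rw [Finset.mul_sum]
    exact Finset.sum_congr rfl fun j _ => by ring
  simp only [hd, hP]
  set r := √(∑ j, v j 0 ^ 2) with hr
  set P := ∑ j, v j 0 * v' j with hPd
  have e : ∀ i, ((v' i * r - v i 0 * (2 * P / (2 * r))) / r ^ 2) ^ 2 =
      v' i ^ 2 * (1 / r ^ 2) - (v i 0 * v' i) * (2 * P / r ^ 4) + v i 0 ^ 2 * (P ^ 2 / r ^ 6) := by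
    intro i
    field_simp
    ring
  simp only [e]
  rw [Finset.sum_add_distrib, Finset.sum_sub_distrib, ← Finset.sum_mul, ← Finset.sum_mul, ← Finset.sum_mul,
    ← hPd, ← hn2]
  have e2 : (∑ i, v' i ^ 2) * (1 / r ^ 2) - P * (2 * P / r ^ 4) + r ^ 2 * (P ^ 2 / r ^ 6) =
      (∑ i, v' i ^ 2) / r ^ 2 - P ^ 2 / r ^ 4 := by
    field_simp
    ring
  rw [e2]
  have : 0 ≤ P ^ 2 / r ^ 4 := by positivity
  linarith

theorem hasDerivAt_cmp {τ : ℝ} (hτ : 0 < τ) {N : ℕ} (ε : ℝ) (a b : Fin N → ℝ)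
    (u : Fin N → ℝ → ℝ) (g : Fin N → ℝ) (ζ : ℝ → ℝ) (z : ℝ) (hu : ∀ i, HasDerivAt (u i) (g i) 0)
    (hζ : HasDerivAt ζ z 0) (i : Fin (N + 1)) :
    HasDerivAt (fun s => cmp τ ε a b (fun j => u j s) (ζ s) i)
      (cmpD τ ε a b (fun j => u j 0) g (ζ 0) z i) 0 := by
  have hX : HasDerivAt (fun s => ∑ j, a j * u j s) (∑ j, a j * g j) 0 :=
    HasDerivAt.fun_sum fun j _ => (hu j).const_mul (a j)
  have hY : HasDerivAt (fun s => ∑ j, b j * u j s) (∑ j, b j * g j) 0 :=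
    HasDerivAt.fun_sum fun j _ => (hu j).const_mul (b j)
  have hq : HasDerivAt (fun s => (∑ j, a j * u j s) ^ 2 + (∑ j, b j * u j s) ^ 2)
      (2 * ((∑ j, a j * u j 0) * (∑ j, a j * g j) + (∑ j, b j * u j 0) * (∑ j, b j * g j))) 0 := by
    refine ((hX.pow 2).add (hY.pow 2)).congr_deriv ?_
    norm_num
    ring
  have hB := (hasDerivAt_BB (τ := τ) (q := (∑ j, a j * u j 0) ^ 2 + (∑ j, b j * u j 0) ^ 2) hτ
    (by positivity)).comp_of_eq (0 : ℝ) hq rfl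
  induction i using Fin.lastCases with
  | last =>
    simp only [cmp, cmpD, Fin.snoc_last]
    exact hζ.const_mul ε
  | cast i =>
    simp only [cmp, cmpD, Fin.snoc_castSucc]
    refine (hu i).add (HasDerivAt.const_mul (ε ^ 2 / 2) ?_)
    have h1 := (hB.mul (hζ.pow 2)).mul (((hu i).sub (hX.mul_const (a i))).sub (hY.mul_const (b i)))
    refine HasDerivAt.congr_deriv (f := fun s => eta τ a b (fun j => u j s) (ζ s) i) h1 ?_
    simp only [etaD, Function.comp, Pi.mul_apply, Pi.pow_apply, Pi.sub_apply, Nat.cast_ofNat, Nat.reduceSub,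
      pow_one]
    ring

end Pool.Agent.EWD
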