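import Mathlib
import Pool.Agent.EWD.Defs
import Pool.Agent.EWD.KER
import Pool.Agent.EWD.LPA
import Pool.Agent.EWD.PWI
import Pool.Agent.EWD.EXP

/-
SPC: the competitor is an odd Lipschitz map into the sphere.  [about 110 lines]

`comp C τ ε a b u ζ i x = cmpᵢ(x) / √(∑ₖ cmpₖ(x)²)`, where `cmp` is evaluated at `u x`, `ζ x`.
Lipschitz: `q(x) = X² + Y²`, `X = lin a u`, `Y = lin b u`, is Lipschitz with values in `[0, 1]`
(`bessel`), and `BB τ` is Lipschitz on `Icc 0 1` (`hasDerivAt_BB`, `abs_BD_le`,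
`Convex.lipschitzOnWith_of_nnnorm_hasDerivWithin_le`), so `x ↦ BB τ (q x)` is Lipschitz
(`Lip.comp_on`); products and sums (`Lip.mul`, ...) give that `cmp` is Lipschitz; `∑ cmp² ≥ 1`
(`cmp_sq`), so `Lip.sqrt` and `Lip.div` apply.
Unit: `∑ (v/√(∑v²))² = 1`.
Odd: replacing `u` by `-u` and `ζ` by `-ζ` changes the sign of `cmp` (and leaves `q` and `∑ cmp²`).
-/

open MeasureTheory Set Filter Topology
open scoped ENNReal NNReal

namespace Pool.Agent.EWD

variable {M : Type} [MetricSpace M] [CompactSpace M] {γ : ℝ → M}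

/-- the normalised competitor -/
noncomputable def comp (τ ε : ℝ) {N : ℕ} (a b : Fin N → ℝ) (u : Fin N → M → ℝ) (ζ : M → ℝ)
    (i : Fin (N + 1)) (x : M) : ℝ :=
  cmp τ ε a b (fun j => u j x) (ζ x) i / √(∑ k, cmp τ ε a b (fun j => u j x) (ζ x) k ^ 2)

private theorem SPC_BB {τ : ℝ} (hτ : 0 < τ) : ∃ K : ℝ≥0, LipschitzOnWith K (BB τ) (Icc 0 1) := by
  have hC : 0 ≤ (1 / τ ^ 2) ^ 2 * (√(1 + τ ^ 2) / τ / 2 + 1) := by positivity
  refine ⟨⟨_, hC⟩, ?_⟩
  refine (convex_Icc (0 : ℝ) 1).lipschitzOnWith_of_nnnorm_hasDerivWithin_le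
    (fun x hx => (hasDerivAt_BB hτ hx.1).hasDerivWithinAt) ?_
  intro x hx
  have h1 := abs_BD_le hτ hx.1
  rw [← NNReal.coe_le_coe, coe_nnnorm, Real.norm_eq_abs]
  exact h1

private theorem SPC_cmp {τ : ℝ} (hτ : 0 < τ) (ε : ℝ) {N : ℕ} {a b : Fin N → ℝ} (hab : Ortho a b)
    {u : Fin N → M → ℝ} (hu : Sph γ u) {ζ : M → ℝ} (hζ : Lip ζ) (i : Fin (N + 1)) :
    Lip (fun x => cmp τ ε a b (fun j => u j x) (ζ x) i) := by
  have hX : Lip (fun x => ∑ j, a j * u j x) := lip_lin a hu.lip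
  have hY : Lip (fun x => ∑ j, b j * u j x) := lip_lin b hu.lip
  have hq : Lip (fun x => (∑ j, a j * u j x) ^ 2 + (∑ j, b j * u j x) ^ 2) :=
    (hX.pow 2).add (hY.pow 2)
  have hq1 : ∀ x, (∑ j, a j * u j x) ^ 2 + (∑ j, b j * u j x) ^ 2 ∈ Icc (0 : ℝ) 1 := by
    intro x
    refine ⟨by positivity, ?_⟩
    have h1 := bessel hab (fun j => u j x)
    have h2 := hu.unit x
    rw [h2] at h1
    exact h1
  obtain ⟨K, hK⟩ := SPC_BB hτ
  have hB : Lip (fun x => BB τ ((∑ j, a j * u j x) ^ 2 + (∑ j, b j * u j x) ^ 2)) :=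
    hq.comp_on hq1 hK
  refine Fin.lastCases ?_ (fun j => ?_) i
  · have h1 : (fun x => cmp τ ε a b (fun j => u j x) (ζ x) (Fin.last N)) = fun x => ε * ζ x := by
      funext x
      simp [cmp]
    rw [h1]
    exact hζ.const_mul ε
  · have h1 : (fun x => cmp τ ε a b (fun j => u j x) (ζ x) j.castSucc) = fun x =>
        u j x + ε ^ 2 / 2 * (BB τ ((∑ k, a k * u k x) ^ 2 + (∑ k, b k * u k x) ^ 2) * ζ x ^ 2 *
          (u j x - (∑ k, a k * u k x) * a j - (∑ k, b k * u k x) * b j)) := by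
      funext x
      simp [cmp, eta]
    rw [h1]
    have h2 : Lip (fun x => (∑ k, a k * u k x) * a j) := hX.mul (lip_const (a j))
    have h3 : Lip (fun x => (∑ k, b k * u k x) * b j) := hY.mul (lip_const (b j))
    exact (hu.lip j).add (((hB.mul (hζ.pow 2)).mul (((hu.lip j).sub h2).sub h3)).const_mul _)

private theorem SPC_odd (τ ε : ℝ) {N : ℕ} (a b u : Fin N → ℝ) (ζ : ℝ) (i : Fin (N + 1)) :
    cmp τ ε a b (fun j => -u j) (-ζ) i = -cmp τ ε a b u ζ i := by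
  have ha : ∑ j, a j * -u j = -∑ j, a j * u j := by
    rw [← Finset.sum_neg_distrib]
    exact Finset.sum_congr rfl fun j _ => by ring
  have hb : ∑ j, b j * -u j = -∑ j, b j * u j := by
    rw [← Finset.sum_neg_distrib]
    exact Finset.sum_congr rfl fun j _ => by ring
  refine Fin.lastCases ?_ (fun j => ?_) i
  · simp [cmp]
  · simp only [cmp, eta, Fin.snoc_castSucc, ha, hb, neg_sq]
    ring

theorem sph_comp {τ : ℝ} (hτ : 0 < τ) (ε : ℝ) {N : ℕ} {a b : Fin N → ℝ} (hab : Ortho a b)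
    {u : Fin N → M → ℝ} (hu : Sph γ u) {ζ : M → ℝ} (hζ : Lip ζ) (ho : OddB γ ζ) :
    Sph γ (comp τ ε a b u ζ) := by
  have hs : Lip (fun x => ∑ k, cmp τ ε a b (fun j => u j x) (ζ x) k ^ 2) :=
    lip_sum Finset.univ fun k _ => (SPC_cmp hτ ε hab hu hζ k).pow 2
  have h1 : ∀ x, 1 ≤ ∑ k, cmp τ ε a b (fun j => u j x) (ζ x) k ^ 2 := fun x =>
    cmp_sq hτ ε a b (fun j => u j x) hab (hu.unit x) (ζ x)
  have hsq : Lip (fun x => √(∑ k, cmp τ ε a b (fun j => u j x) (ζ x) k ^ 2)) :=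
    hs.sqrt one_pos h1
  have hsq1 : ∀ x, 1 ≤ √(∑ k, cmp τ ε a b (fun j => u j x) (ζ x) k ^ 2) := fun x =>
    Real.one_le_sqrt.2 (h1 x)
  refine ⟨fun i => ?_, fun x => ?_, fun i t => ?_⟩
  · exact (SPC_cmp hτ ε hab hu hζ i).div hsq one_pos hsq1
  · have h2 : 0 < ∑ k, cmp τ ε a b (fun j => u j x) (ζ x) k ^ 2 := lt_of_lt_of_le one_pos (h1 x)
    unfold comp
    simp only [div_pow]
    rw [← Finset.sum_div, Real.sq_sqrt h2.le]
    exact div_self h2.ne'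
  · have h3 : (fun j => u j (γ (t + Real.pi))) = fun j => -u j (γ t) := by
      funext j
      exact hu.odd j t
    unfold comp
    rw [h3, ho t]
    simp only [SPC_odd, neg_sq]
    rw [neg_div]

end Pool.Agent.EWD
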