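import Mathlib
import Pool.Agent.EWD.Defs
import Pool.Agent.EWD.RUL
import Pool.Agent.EWD.NRM
import Pool.Agent.EWD.EXP
import Pool.Agent.EWD.SPC

/-
VAR: the second variation inequality for near minimisers.  [about 130 lines]

Let `w = comp τ ε a b u ζ` (`sph_comp`). `NearMin` gives `E u ≤ E w + δ`, i.e.
`∫ G u ≤ ∫ G w + 2 δ`. For almost every `o`: `normalize_deriv` and `hasDerivAt_cmp` (applied to
`s ↦ uᵢ (px o s)`, `ζ (px o s)` and to the `py` version, which exist by `ae_has`) and `expansion` (with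
`g = C.gx uᵢ o`, `z = C.gx ζ o`; `∑ u g = 0` by `ae_sph`, `|z| ≤ 1` by `ae_grad_le`) give
 `G w ≤ G u + ε² (IVx + IVy) + ε⁴ C₁ (G u + 2)`.
Integrate (`G u`, `G w` are integrable by `integrable_G`; `IVx + IVy` is a.e. measurable and bounded:
`measurable_KK`, `measurable_BB`, `measurable_BD`, bounds `KK_le`, `BB_le`, `abs_BD_le`):
 `- 2 δ ≤ ε² ∫ (IVx + IVy) + ε⁴ C₁ (2 E u + 2 vol)`. Divide by `ε²`; `C₀ = 2 C₁`.
-/

open MeasureTheory Set Filter Topology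
open scoped ENNReal NNReal

namespace Pool.Agent.EWD

variable {M : Type} [MetricSpace M] [CompactSpace M] {γ : ℝ → M} (C : Calc M γ)

/-- the integrand of the second variation -/
noncomputable def IVV (τ : ℝ) {N : ℕ} (a b : Fin N → ℝ) (u : Fin N → M → ℝ) (ζ : M → ℝ) (o : Om) : ℝ :=
  IV τ a b (fun i => u i (C.pt o)) (fun i => C.gx (u i) o) (ζ (C.pt o)) (C.gx ζ o)
  + IV τ a b (fun i => u i (C.pt o)) (fun i => C.gy (u i) o) (ζ (C.pt o)) (C.gy ζ o)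

private def VARbm (f : Om → ℝ) : Prop := AEMeasurable f C.μ ∧ ∃ B : ℝ, ∀ᵐ o ∂C.μ, |f o| ≤ B

private theorem VARbm_const (c : ℝ) : VARbm C (fun _ => c) :=
  ⟨aemeasurable_const, |c|, Eventually.of_forall fun _ => le_rfl⟩

private theorem VARbm_add {f g : Om → ℝ} (hf : VARbm C f) (hg : VARbm C g) :
    VARbm C (fun o => f o + g o) := by
  obtain ⟨hf1, B, hB⟩ := hf
  obtain ⟨hg1, D, hD⟩ := hg
  refine ⟨hf1.add hg1, B + D, ?_⟩
  filter_upwards [hB, hD] with o h1 h2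
  exact (abs_add_le _ _).trans (add_le_add h1 h2)

private theorem VARbm_sub {f g : Om → ℝ} (hf : VARbm C f) (hg : VARbm C g) :
    VARbm C (fun o => f o - g o) := by
  obtain ⟨hf1, B, hB⟩ := hf
  obtain ⟨hg1, D, hD⟩ := hg
  refine ⟨hf1.sub hg1, B + D, ?_⟩
  filter_upwards [hB, hD] with o h1 h2
  exact (abs_sub _ _).trans (add_le_add h1 h2)

private theorem VARbm_mul {f g : Om → ℝ} (hf : VARbm C f) (hg : VARbm C g) :
    VARbm C (fun o => f o * g o) := by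
  obtain ⟨hf1, B, hB⟩ := hf
  obtain ⟨hg1, D, hD⟩ := hg
  refine ⟨hf1.mul hg1, B * D, ?_⟩
  filter_upwards [hB, hD] with o h1 h2
  rw [abs_mul]
  exact mul_le_mul h1 h2 (abs_nonneg _) ((abs_nonneg _).trans h1)

private theorem VARbm_sq {f : Om → ℝ} (hf : VARbm C f) : VARbm C (fun o => f o ^ 2) := by
  have h := VARbm_mul C hf hf
  have e : (fun o => f o ^ 2) = fun o => f o * f o := by
    funext o
    ring
  rw [e]
  exact h

private theorem VARbm_sum {N : ℕ} {f : Fin N → Om → ℝ} (hf : ∀ i, VARbm C (f i)) :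
    VARbm C (fun o => ∑ i, f i o) := by
  have key : ∀ s : Finset (Fin N), VARbm C (fun o => ∑ i ∈ s, f i o) := by
    intro s
    induction s using Finset.induction_on with
    | empty =>
      simp only [Finset.sum_empty]
      exact VARbm_const C 0
    | insert i s hi ih =>
      simp only [Finset.sum_insert hi]
      exact VARbm_add C (hf i) ih
  exact key Finset.univ

private theorem VARbm_pt {u : M → ℝ} (hu : Lip u) : VARbm C (fun o => u (C.pt o)) := by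
  obtain ⟨B, _, hB⟩ := hu.bdd
  exact ⟨C.meas_pt hu, B, Eventually.of_forall fun o => hB _⟩

private theorem VARbm_gx {u : M → ℝ} (hu : Lip u) : VARbm C (fun o => C.gx u o) := by
  obtain ⟨L, hL⟩ := id hu
  refine ⟨C.meas_gx hu, L, ?_⟩
  filter_upwards [C.ae_grad_le hL] with o ho
  refine abs_le_of_sq_le_sq ?_ L.2
  nlinarith [sq_nonneg (C.gy u o)]

private theorem VARbm_gy {u : M → ℝ} (hu : Lip u) : VARbm C (fun o => C.gy u o) := by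
  obtain ⟨L, hL⟩ := id hu
  refine ⟨C.meas_gy hu, L, ?_⟩
  filter_upwards [C.ae_grad_le hL] with o ho
  refine abs_le_of_sq_le_sq ?_ L.2
  nlinarith [sq_nonneg (C.gx u o)]

private theorem VARbm_IV {τ : ℝ} (hτ : 0 < τ) {N : ℕ} (a b : Fin N → ℝ)
    {U g : Fin N → Om → ℝ} {Z z : Om → ℝ} (hU : ∀ i, VARbm C (U i)) (hg : ∀ i, VARbm C (g i))
    (hZ : VARbm C Z) (hz : VARbm C z) :
    VARbm C (fun o => IV τ a b (fun i => U i o) (fun i => g i o) (Z o) (z o)) := by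
  have hX : ∀ (c : Fin N → ℝ) {V : Fin N → Om → ℝ}, (∀ i, VARbm C (V i)) →
      VARbm C (fun o => ∑ i, c i * V i o) := fun c V hV =>
    VARbm_sum C fun i => VARbm_mul C (VARbm_const C (c i)) (hV i)
  have hq : VARbm C (fun o => (∑ i, a i * U i o) ^ 2 + (∑ i, b i * U i o) ^ 2) :=
    VARbm_add C (VARbm_sq C (hX a hU)) (VARbm_sq C (hX b hU))
  have hq0 : ∀ o, 0 ≤ (∑ i, a i * U i o) ^ 2 + (∑ i, b i * U i o) ^ 2 := fun o =>
    add_nonneg (sq_nonneg _) (sq_nonneg _)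
  have hBB : VARbm C (fun o => BB τ ((∑ i, a i * U i o) ^ 2 + (∑ i, b i * U i o) ^ 2)) := by
    refine ⟨(measurable_BB τ).comp_aemeasurable hq.1, 1 / τ ^ 2, Eventually.of_forall fun o => ?_⟩
    rw [abs_of_pos (BB_pos hτ (hq0 o))]
    exact BB_le hτ (hq0 o)
  have hKK : VARbm C (fun o => KK τ ((∑ i, a i * U i o) ^ 2 + (∑ i, b i * U i o) ^ 2)) := by
    refine ⟨(measurable_KK τ).comp_aemeasurable hq.1, √(1 + τ ^ 2) / τ,
      Eventually.of_forall fun o => ?_⟩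
    rw [abs_of_pos (KK_pos hτ (hq0 o))]
    exact KK_le hτ (hq0 o)
  have hBD : VARbm C (fun o => BD τ ((∑ i, a i * U i o) ^ 2 + (∑ i, b i * U i o) ^ 2)) :=
    ⟨(measurable_BD τ).comp_aemeasurable hq.1, _, Eventually.of_forall fun o =>
      abs_BD_le hτ (hq0 o)⟩
  have hS : VARbm C (fun o => (∑ i, a i * U i o) * (∑ i, a i * g i o)
      + (∑ i, b i * U i o) * (∑ i, b i * g i o)) :=
    VARbm_add C (VARbm_mul C (hX a hU) (hX a hg)) (VARbm_mul C (hX b hU) (hX b hg))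
  have hG : VARbm C (fun o => ∑ i, g i o ^ 2) := VARbm_sum C fun i => VARbm_sq C (hg i)
  have hc := VARbm_const C 2
  have h1 := VARbm_mul C (VARbm_mul C hBB (VARbm_sq C hZ))
    (VARbm_sub C (VARbm_sub C hG (VARbm_sq C (hX a hg))) (VARbm_sq C (hX b hg)))
  have h2 := VARbm_mul C (VARbm_mul C (VARbm_mul C hc hBD) (VARbm_sq C hS)) (VARbm_sq C hZ)
  have h3 := VARbm_mul C (VARbm_mul C (VARbm_mul C (VARbm_mul C hc hBB) hZ) hS) hz
  have h4 := VARbm_mul C (VARbm_mul C hG hKK) (VARbm_sq C hZ)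
  exact VARbm_sub C (VARbm_sub C (VARbm_sub C (VARbm_add C (VARbm_sq C hz) h1) h2) h3) h4

theorem integrable_IVV {τ : ℝ} (hτ : 0 < τ) {N : ℕ} {a b : Fin N → ℝ} (hab : Ortho a b)
    {u : Fin N → M → ℝ} (hu : Sph γ u) {ζ : M → ℝ} (hζ : Lip ζ) :
    Integrable (IVV C τ a b u ζ) C.μ := by
  have hU : ∀ i, VARbm C (fun o => u i (C.pt o)) := fun i => VARbm_pt C (hu.lip i)
  have h1 := VARbm_IV C hτ a b hU (fun i => VARbm_gx C (hu.lip i)) (VARbm_pt C hζ) (VARbm_gx C hζ)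
  have h2 := VARbm_IV C hτ a b hU (fun i => VARbm_gy C (hu.lip i)) (VARbm_pt C hζ) (VARbm_gy C hζ)
  obtain ⟨hm, B, hB⟩ := VARbm_add C h1 h2
  exact C.integrable_of_bdd hm hB

private theorem VAR_dir {τ : ℝ} (hτ : 0 < τ) {N : ℕ} (ε : ℝ) {a b : Fin N → ℝ} (hab : Ortho a b)
    (p : ℝ → M) (u : Fin N → M → ℝ) (ζ : M → ℝ) (g : Fin N → ℝ) (z : ℝ)
    (hone : ∑ i, u i (p 0) ^ 2 = 1)
    (hg : ∀ i, HasDerivAt (fun s => u i (p s)) (g i) 0)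
    (hz : HasDerivAt (fun s => ζ (p s)) z 0) :
    ∑ i, deriv (fun s => comp τ ε a b u ζ i (p s)) 0 ^ 2 ≤
      (∑ i, cmpD τ ε a b (fun j => u j (p 0)) g (ζ (p 0)) z i ^ 2) /
        ∑ i, cmp τ ε a b (fun j => u j (p 0)) (ζ (p 0)) i ^ 2 := by
  have h := normalize_deriv (fun i s => cmp τ ε a b (fun j => u j (p s)) (ζ (p s)) i)
    (fun i => cmpD τ ε a b (fun j => u j (p 0)) g (ζ (p 0)) z i)
    (fun i => hasDerivAt_cmp hτ ε a b (fun j s => u j (p s)) g (fun s => ζ (p s)) z hg hz i)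
    (lt_of_lt_of_le one_pos (cmp_sq hτ ε a b (fun j => u j (p 0)) hab hone (ζ (p 0))))
  exact h

private theorem VAR_pt {τ : ℝ} (hτ : 0 < τ) {C₁ : ℝ}
    (hexp : ∀ {N : ℕ} (a b u g : Fin N → ℝ)
    (ζ z ε : ℝ), Ortho a b → ∑ i, u i ^ 2 = 1 → ∑ i, u i * g i = 0 → |ζ| ≤ 1 → |z| ≤ 1 → 0 < ε →
    ε ≤ 1 →
    (∑ i, cmpD τ ε a b u g ζ z i ^ 2) / (∑ i, cmp τ ε a b u ζ i ^ 2) ≤
      ∑ i, g i ^ 2 + ε ^ 2 * IV τ a b u g ζ z + ε ^ 4 * (C₁ * (∑ i, g i ^ 2 + 1)))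
    {N : ℕ} {a b : Fin N → ℝ} (hab : Ortho a b) {u : Fin N → M → ℝ} {ζ : M → ℝ} {ε : ℝ}
    (hu : Sph γ u) (hζ : LipschitzWith 1 ζ) (hζ1 : ∀ x, |ζ x| ≤ 1) (hε : 0 < ε) (hε1 : ε ≤ 1) :
    ∀ᵐ o ∂C.μ, C.G (comp τ ε a b u ζ) o ≤ C.G u o + ε ^ 2 * IVV C τ a b u ζ o
      + ε ^ 4 * (C₁ * (C.G u o + 2)) := by
  have hLζ : Lip ζ := ⟨1, hζ⟩
  have h1 : ∀ᵐ o ∂C.μ, ∀ i, HasDerivAt (fun s => u i (C.px o s)) (C.gx (u i) o) 0 ∧
      HasDerivAt (fun s => u i (C.py o s)) (C.gy (u i) o) 0 :=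
    ae_all_iff.2 fun i => C.ae_has (hu.lip i)
  filter_upwards [h1, C.ae_has hLζ, C.ae_sph hu, C.ae_grad_le hζ] with o hd hdz hs hgz
  have hzx : |C.gx ζ o| ≤ 1 := by
    refine abs_le_of_sq_le_sq ?_ zero_le_one
    have : (((1 : ℝ≥0) : ℝ)) ^ 2 = 1 := by norm_num
    rw [this] at hgz
    nlinarith [sq_nonneg (C.gy ζ o)]
  have hzy : |C.gy ζ o| ≤ 1 := by
    refine abs_le_of_sq_le_sq ?_ zero_le_one
    have : (((1 : ℝ≥0) : ℝ)) ^ 2 = 1 := by norm_num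
    rw [this] at hgz
    nlinarith [sq_nonneg (C.gx ζ o)]
  have e0 : C.px o 0 = C.pt o := rfl
  have e1 : C.py o 0 = C.pt o := C.py_zero o
  have hx := VAR_dir hτ ε hab (C.px o) u ζ (fun i => C.gx (u i) o) (C.gx ζ o)
    (hu.unit _) (fun i => (hd i).1) hdz.1
  have hy := VAR_dir hτ ε hab (C.py o) u ζ (fun i => C.gy (u i) o) (C.gy ζ o)
    (hu.unit _) (fun i => (hd i).2) hdz.2
  rw [e0] at hx
  rw [e1] at hy
  have hx2 := hx.trans (hexp a b (fun j => u j (C.pt o)) (fun i => C.gx (u i) o) (ζ (C.pt o))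
    (C.gx ζ o) ε hab (hu.unit _) hs.1 (hζ1 _) hzx hε hε1)
  have hy2 := hy.trans (hexp a b (fun j => u j (C.pt o)) (fun i => C.gy (u i) o) (ζ (C.pt o))
    (C.gy ζ o) ε hab (hu.unit _) hs.2 (hζ1 _) hzy hε hε1)
  have eG : ∀ {K : ℕ} (w : Fin K → M → ℝ), C.G w o = ∑ i, C.gx (w i) o ^ 2 + ∑ i, C.gy (w i) o ^ 2 :=
    fun w => by rw [Calc.G, Finset.sum_add_distrib]
  rw [eG, eG, IVV]
  have hx3 : ∑ i, C.gx (comp τ ε a b u ζ i) o ^ 2 ≤ _ := hx2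
  have hy3 : ∑ i, C.gy (comp τ ε a b u ζ i) o ^ 2 ≤ _ := hy2
  nlinarith [hx3, hy3]

/-- the second variation inequality; only the competitor `comp τ ε a b u ζ` is used -/
theorem var_comp {τ : ℝ} (hτ : 0 < τ) : ∃ C₀ : ℝ, 0 ≤ C₀ ∧ ∀ {N : ℕ} (a b : Fin N → ℝ)
    (u : Fin N → M → ℝ) (ζ : M → ℝ) (δ ε : ℝ), Ortho a b → Sph γ u →
    C.E u ≤ C.E (comp τ ε a b u ζ) + δ →
    LipschitzWith 1 ζ → (∀ x, |ζ x| ≤ 1) → OddB γ ζ → 0 < ε → ε ≤ 1 →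
    -(2 * δ / ε ^ 2) - ε ^ 2 * (C₀ * (C.vol + C.E u)) ≤ ∫ o, IVV C τ a b u ζ o ∂C.μ := by
  obtain ⟨C₁, hC₁, hexp⟩ := expansion hτ
  refine ⟨2 * C₁, by positivity, ?_⟩
  intro N a b u ζ δ ε hab hu hmin hζ hζ1 hodd hε hε1
  have hLζ : Lip ζ := ⟨1, hζ⟩
  have hw : Sph γ (comp τ ε a b u ζ) := sph_comp hτ ε hab hu hLζ hodd
  have hpt := VAR_pt C hτ hexp hab hu hζ hζ1 hε hε1
  have hIG := C.integrable_G hu.lip
  have hIV := integrable_IVV C hτ hab hu hLζ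
  have hone : Integrable (fun _ : Om => (1 : ℝ)) C.μ :=
    C.integrable_of_bdd aemeasurable_const (Eventually.of_forall fun _ => le_rfl)
  have hint : ∫ o, C.G (comp τ ε a b u ζ) o ∂C.μ ≤
      ∫ o, (((1 + ε ^ 4 * C₁) * C.G u o + ε ^ 2 * IVV C τ a b u ζ o)
        + (ε ^ 4 * (C₁ * 2)) * (1 : ℝ)) ∂C.μ := by
    refine integral_mono_ae (C.integrable_G hw.lip) ?_ ?_
    · exact ((hIG.const_mul _).add (hIV.const_mul _)).add (hone.const_mul _)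
    · filter_upwards [hpt] with o ho
      refine ho.trans (le_of_eq ?_)
      ring
  have e1 : ∫ o, (((1 + ε ^ 4 * C₁) * C.G u o + ε ^ 2 * IVV C τ a b u ζ o)
        + (ε ^ 4 * (C₁ * 2)) * (1 : ℝ)) ∂C.μ
      = (1 + ε ^ 4 * C₁) * ∫ o, C.G u o ∂C.μ + ε ^ 2 * ∫ o, IVV C τ a b u ζ o ∂C.μ
        + (ε ^ 4 * (C₁ * 2)) * C.vol := by
    have i1 : Integrable (fun o => (1 + ε ^ 4 * C₁) * C.G u o) C.μ := hIG.const_mul _
    have i2 : Integrable (fun o => ε ^ 2 * IVV C τ a b u ζ o) C.μ := hIV.const_mul _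
    have i3 : Integrable (fun _ : Om => (ε ^ 4 * (C₁ * 2)) * (1 : ℝ)) C.μ := hone.const_mul _
    have i4 : Integrable (fun o => (1 + ε ^ 4 * C₁) * C.G u o + ε ^ 2 * IVV C τ a b u ζ o) C.μ :=
      i1.add i2
    rw [integral_add i4 i3, integral_add i1 i2, integral_const_mul, integral_const_mul,
      integral_const_mul, C.integral_one]
  rw [e1] at hint
  have hE : ∀ {K : ℕ} (w : Fin K → M → ℝ), C.E w = (1 / 2) * ∫ o, C.G w o ∂C.μ := fun _ => rfl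
  rw [hE, hE] at hmin
  rw [hE]
  have hε2 : 0 < ε ^ 2 := by positivity
  set I := ∫ o, IVV C τ a b u ζ o ∂C.μ with hI
  set A := ∫ o, C.G u o ∂C.μ with hA
  set W := ∫ o, C.G (comp τ ε a b u ζ) o ∂C.μ with hW
  have key : -(2 * δ) ≤ ε ^ 2 * I + ε ^ 4 * C₁ * A + ε ^ 4 * (C₁ * 2) * C.vol := by
    nlinarith
  have h2 : -(2 * δ) / ε ^ 2 ≤
      (ε ^ 2 * I + ε ^ 4 * C₁ * A + ε ^ 4 * (C₁ * 2) * C.vol) / ε ^ 2 :=
    div_le_div_of_nonneg_right key hε2.le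
  have h3 : (ε ^ 2 * I + ε ^ 4 * C₁ * A + ε ^ 4 * (C₁ * 2) * C.vol) / ε ^ 2
      = I + ε ^ 2 * (2 * C₁ * (C.vol + 1 / 2 * A)) := by
    field_simp
    ring
  rw [h3, neg_div] at h2
  linarith

theorem var_ineq {τ : ℝ} (hτ : 0 < τ) : ∃ C₀ : ℝ, 0 ≤ C₀ ∧ ∀ {N : ℕ} (a b : Fin N → ℝ)
    (u : Fin N → M → ℝ) (ζ : M → ℝ) (δ ε : ℝ), Ortho a b → Sph γ u → C.NearMin u δ →
    LipschitzWith 1 ζ → (∀ x, |ζ x| ≤ 1) → OddB γ ζ → 0 < ε → ε ≤ 1 →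
    -(2 * δ / ε ^ 2) - ε ^ 2 * (C₀ * (C.vol + C.E u)) ≤ ∫ o, IVV C τ a b u ζ o ∂C.μ := by
  obtain ⟨C₀, hC₀, h⟩ := var_comp C hτ
  refine ⟨C₀, hC₀, ?_⟩
  intro N a b u ζ δ ε hab hu hnm hζ hζ1 hodd hε hε1
  exact h a b u ζ δ ε hab hu (hnm _ (sph_comp hτ ε hab hu ⟨1, hζ⟩ hodd)) hζ hζ1 hodd hε hε1

end Pool.Agent.EWD
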