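import Mathlib
import Pool.Agent.EWD.Defs

/-
RTA: the weight on `ℝ³`.  [about 110 lines]

`wgt y = exp (-‖y‖²)/‖y‖`. (At `y = 0` it is 0 because of the division by zero; this does not matter.)
`integral_wgt`: `MeasureTheory.integral_fun_norm_addHaar` (and its integrability version
`integrable_fun_norm_addHaar`) with dimension 3:
 `∫ f ‖y‖ = 3 vol(ball 0 1) ∫_{r > 0} r² f r`, volume `4π/3` (`EuclideanSpace.volume_ball` or
 `InnerProductSpace.volume_ball`), and `∫_{r>0} r² exp(-r²)/r = ∫ r exp(-r²) = 1/2`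
 (`integral_mul_cexp_neg_mul_sq`, `Real.integral_rpow_mul_exp_neg_mul_rpow`, or the primitive
 `- exp(-r²)/2` with `integral_Ioi_of_hasDerivAt_of_tendsto`).
`lint_rot`: for `v = 0` both sides agree (`qq 0 y = 0`). For `v ≠ 0` there is a linear isometry `R` of `E3`
with `R v = ‖v‖ e₂` (`e₂ = EuclideanSpace.single 2 1`; for instance a reflection, or extend the unit vectors to
orthonormal bases); it preserves the volume (`LinearIsometryEquiv.measurePreserving`) and
`qq v (R⁻¹ y) = qq (R v) y`, `wgt (R⁻¹ y) = wgt y`; `qq (r e₂) y = r² - (r y 2/‖y‖)² = r² (1 - (y 2/‖y‖)²)`.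
-/

open MeasureTheory Set Filter Topology
open scoped ENNReal NNReal

namespace Pool.Agent.EWD

private theorem RTA_cancel {r : ℝ} (hr : r ∈ Ioi (0 : ℝ)) :
    r ^ (Module.finrank ℝ E3 - 1) • (Real.exp (-r ^ 2) / r) = r * Real.exp (-r ^ 2) := by
  have h3 : Module.finrank ℝ E3 = 3 := by simp
  have h0 : r ≠ 0 := (mem_Ioi.1 hr).ne'
  rw [h3, smul_eq_mul]
  field_simp

private theorem RTA_deriv (r : ℝ) :
    HasDerivAt (fun r : ℝ => -Real.exp (-r ^ 2) / 2) (r * Real.exp (-r ^ 2)) r := by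
  have h1 : HasDerivAt (fun r : ℝ => -r ^ 2) (-(2 * r)) r := by
    have h := (hasDerivAt_pow 2 r).neg
    refine h.congr_deriv ?_
    norm_num
  have h2 := (h1.exp.neg).div_const 2
  refine h2.congr_deriv ?_
  ring

private theorem RTA_tendsto :
    Tendsto (fun r : ℝ => -Real.exp (-r ^ 2) / 2) atTop (𝓝 0) := by
  have h1 : Tendsto (fun r : ℝ => -r ^ 2) atTop atBot :=
    tendsto_neg_atTop_atBot.comp (tendsto_pow_atTop two_ne_zero)
  have h2 := ((Real.tendsto_exp_atBot.comp h1).neg).div_const 2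
  simpa using h2

private theorem RTA_int : IntegrableOn (fun r : ℝ => r * Real.exp (-r ^ 2)) (Ioi 0) := by
  refine integrableOn_Ioi_deriv_of_nonneg (RTA_deriv 0).continuousAt.continuousWithinAt
    (fun x _ => RTA_deriv x) (fun x hx => ?_) RTA_tendsto
  have := (mem_Ioi.1 hx).le
  positivity

private theorem RTA_half : ∫ r in Ioi (0 : ℝ), r * Real.exp (-r ^ 2) = 1 / 2 := by
  rw [integral_Ioi_of_hasDerivAt_of_nonneg (RTA_deriv 0).continuousAt.continuousWithinAt
    (fun x _ => RTA_deriv x) (fun x hx => ?_) RTA_tendsto]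
  · norm_num
  · have := (mem_Ioi.1 hx).le
    positivity

theorem measurable_wgt : Measurable wgt := by
  unfold wgt
  fun_prop

theorem wgt_nonneg (y : E3) : 0 ≤ wgt y := by
  unfold wgt
  positivity

theorem integrable_wgt : Integrable wgt := by
  have h := (integrable_fun_norm_addHaar (volume : Measure E3)
    (f := fun r : ℝ => Real.exp (-r ^ 2) / r)).2
  refine h ?_
  refine RTA_int.congr_fun ?_ measurableSet_Ioi
  intro r hr
  exact (RTA_cancel hr).symm

theorem integral_wgt : ∫ y : E3, wgt y = 2 * Real.pi := by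
  have h := integral_fun_norm_addHaar (volume : Measure E3) (fun r : ℝ => Real.exp (-r ^ 2) / r)
  have h1 : ∫ r in Ioi (0 : ℝ), r ^ (Module.finrank ℝ E3 - 1) • (Real.exp (-r ^ 2) / r) = 1 / 2 := by
    rw [← RTA_half]
    exact setIntegral_congr_fun measurableSet_Ioi fun r hr => RTA_cancel hr
  have h2 : (volume : Measure E3).real (Metric.ball 0 1) = Real.pi * 4 / 3 := by
    rw [Measure.real, EuclideanSpace.volume_ball_fin_three, ENNReal.ofReal_one, one_pow, one_mul,
      ENNReal.toReal_ofReal (by positivity)]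
  have h3 : Module.finrank ℝ E3 = 3 := by simp
  rw [h1, h2, h3] at h
  refine Eq.trans h ?_
  simp only [nsmul_eq_mul, smul_eq_mul]
  norm_num
  ring

theorem lint_wgt : ∫⁻ y : E3, ENNReal.ofReal (wgt y) = ENNReal.ofReal (2 * Real.pi) := by
  rw [← integral_wgt, ofReal_integral_eq_lintegral_ofReal integrable_wgt
    (Eventually.of_forall wgt_nonneg)]

theorem qq_nonneg (v y : E3) : 0 ≤ qq v y := by
  unfold qq
  have h := abs_real_inner_le_norm v y
  have h1 : |inner ℝ v y / ‖y‖| ≤ ‖v‖ := by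
    rw [abs_div, abs_norm]
    exact div_le_of_le_mul₀ (norm_nonneg _) (norm_nonneg _) h
  have h2 : (inner ℝ v y / ‖y‖) ^ 2 ≤ ‖v‖ ^ 2 := by
    rw [← sq_abs]
    exact pow_le_pow_left₀ (abs_nonneg _) h1 2
  linarith

theorem qq_le (v y : E3) : qq v y ≤ ‖v‖ ^ 2 := by
  unfold qq
  have := sq_nonneg (inner ℝ v y / ‖y‖)
  linarith

theorem measurable_qq : Measurable (fun p : E3 × E3 => qq p.1 p.2) := by
  unfold qq
  fun_prop

theorem lint_rot (f : ℝ → ℝ≥0∞) (hf : Measurable f) (v : E3) :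
    ∫⁻ y : E3, ENNReal.ofReal (wgt y) * f (qq v y) =
      ∫⁻ y : E3, ENNReal.ofReal (wgt y) * f (‖v‖ ^ 2 * (1 - (y 2 / ‖y‖) ^ 2)) := by
  set w : E3 := EuclideanSpace.single 2 ‖v‖ with hw
  have hnw : ‖v‖ = ‖w‖ := by
    rw [hw, EuclideanSpace.norm_single, norm_norm]
  have hR : (ℝ ∙ (v - w))ᗮ.reflection v = w := Submodule.reflection_sub hnw
  set R : E3 ≃ₗᵢ[ℝ] E3 := (ℝ ∙ (v - w))ᗮ.reflection with hRdef
  have hmp : MeasurePreserving R := R.measurePreserving
  have hemb : MeasurableEmbedding R := R.toHomeomorph.measurableEmbedding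
  rw [← hmp.lintegral_comp_emb hemb
    (fun y => ENNReal.ofReal (wgt y) * f (‖v‖ ^ 2 * (1 - (y 2 / ‖y‖) ^ 2)))]
  refine lintegral_congr fun y => ?_
  have h1 : wgt (R y) = wgt y := by
    unfold wgt
    rw [R.norm_map]
  rw [h1]
  congr 2
  have h2 : inner ℝ v y = ‖v‖ * (R y) 2 := by
    rw [← R.inner_map_map v y, hR, hw]
    simp [EuclideanSpace.inner_single_left]
  unfold qq
  rw [h2, R.norm_map]
  ring

end Pool.Agent.EWD
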