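import Mathlib
import Pool.Agent.EWD.Defs

/-
RTB: `∫ wgt(y)/√(1 - (y₂/|y|)²) dy = π²`.  [about 130 lines]

`1 - (y 2/‖y‖)² = (y 0² + y 1²)/‖y‖²` for `y ≠ 0`, so the integrand is
 `exp(-‖y‖²)/√(y 0² + y 1²) = exp(-y 2²) · exp(-(y 0² + y 1²))/√(y 0² + y 1²)` for almost all `y`
 (`‖y‖ > 0`; if `y 0 = y 1 = 0` both sides are 0 or on a null set).
Transfer from `E3 = EuclideanSpace ℝ (Fin 3)` to `Fin 3 → ℝ` (`EuclideanSpace.volume_preserving_...`), then to
`(ℝ × ℝ) × ℝ` (`MeasureTheory.volume_preserving_piFinSuccAbove`, `volume_preserving_finTwoArrow`, ...),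
Tonelli: `∫⁻ exp(-t²) = √π` (`integral_gaussian`), and by polar coordinates
(`lintegral_comp_polarCoord_symm`) `∫⁻ exp(-r²)/r over ℝ² = 2π ∫_{r>0} exp(-r²) dr = 2π √π/2`. The product is
`√π · π √π = π²`.
-/

open MeasureTheory Set Filter Topology
open scoped ENNReal NNReal

namespace Pool.Agent.EWD

private theorem RTB_gauss : ∫⁻ t : ℝ, ENNReal.ofReal (Real.exp (-t ^ 2)) =
    ENNReal.ofReal (√Real.pi) := by
  have h1 : ∀ t : ℝ, Real.exp (-t ^ 2) = Real.exp (-1 * t ^ 2) := by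
    intro t
    rw [neg_one_mul]
  simp_rw [h1]
  rw [← ofReal_integral_eq_lintegral_ofReal (integrable_exp_neg_mul_sq one_pos)
    (Eventually.of_forall fun t => (Real.exp_pos _).le), integral_gaussian, div_one]

private theorem RTB_gaussIoi : ∫⁻ t in Ioi (0 : ℝ), ENNReal.ofReal (Real.exp (-t ^ 2)) =
    ENNReal.ofReal (√Real.pi / 2) := by
  have h1 : ∀ t : ℝ, Real.exp (-t ^ 2) = Real.exp (-1 * t ^ 2) := by
    intro t
    rw [neg_one_mul]
  simp_rw [h1]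
  rw [← ofReal_integral_eq_lintegral_ofReal (integrable_exp_neg_mul_sq one_pos).integrableOn
    (Eventually.of_forall fun t => (Real.exp_pos _).le), integral_gaussian_Ioi, div_one]

theorem lint_plane : ∫⁻ p : ℝ × ℝ, ENNReal.ofReal (Real.exp (-(p.1 ^ 2 + p.2 ^ 2)) /
    √(p.1 ^ 2 + p.2 ^ 2)) = ENNReal.ofReal (Real.pi * √Real.pi) := by
  rw [← lintegral_comp_polarCoord_symm]
  have h1 : ∀ p ∈ polarCoord.target, ENNReal.ofReal p.1 • ENNReal.ofReal
      (Real.exp (-((polarCoord.symm p).1 ^ 2 + (polarCoord.symm p).2 ^ 2)) /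
        √((polarCoord.symm p).1 ^ 2 + (polarCoord.symm p).2 ^ 2)) =
      ENNReal.ofReal (Real.exp (-p.1 ^ 2)) * 1 := by
    intro p hp
    rw [polarCoord_target] at hp
    have hr : 0 < p.1 := hp.1
    have e1 : (polarCoord.symm p).1 ^ 2 + (polarCoord.symm p).2 ^ 2 = p.1 ^ 2 := by
      rw [polarCoord_symm_apply]
      simp only
      rw [mul_pow, mul_pow, ← mul_add, Real.cos_sq_add_sin_sq, mul_one]
    rw [e1, Real.sqrt_sq hr.le, smul_eq_mul, ← ENNReal.ofReal_mul hr.le, mul_one]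
    congr 1
    field_simp
  rw [setLIntegral_congr_fun polarCoord.open_target.measurableSet h1, polarCoord_target]
  rw [Measure.volume_eq_prod, ← Measure.prod_restrict]
  rw [lintegral_prod_mul (f := fun r : ℝ => ENNReal.ofReal (Real.exp (-r ^ 2)))
    (g := fun _ : ℝ => (1 : ℝ≥0∞)) (by fun_prop) (by fun_prop)]
  rw [RTB_gaussIoi, lintegral_one, Measure.restrict_apply_univ, Real.volume_Ioo,
    ← ENNReal.ofReal_mul (by positivity)]
  congr 1
  ring

private theorem RTB_mp : MeasurePreserving (fun y : E3 => (y 2, ((y 0 : ℝ), (y 1 : ℝ))))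
    (volume : Measure E3) (volume : Measure (ℝ × (ℝ × ℝ))) := by
  have h1 : MeasurePreserving (fun y : E3 => y.ofLp) volume volume :=
    PiLp.volume_preserving_ofLp (Fin 3)
  have h2 := volume_preserving_piFinSuccAbove (fun _ : Fin 3 => ℝ) 2
  have h3 := (MeasurePreserving.id (volume : Measure ℝ)).prod
    (volume_preserving_finTwoArrow ℝ)
  have h4 := h3.comp (h2.comp h1)
  exact h4

theorem lint_inv : ∫⁻ y : E3, ENNReal.ofReal (wgt y) *
    ENNReal.ofReal (1 / √(1 - (y 2 / ‖y‖) ^ 2)) = ENNReal.ofReal (Real.pi ^ 2) := by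
  have h1 : ∀ y : E3, ENNReal.ofReal (wgt y) * ENNReal.ofReal (1 / √(1 - (y 2 / ‖y‖) ^ 2)) =
      (fun z : ℝ × (ℝ × ℝ) => ENNReal.ofReal (Real.exp (-z.1 ^ 2)) *
        ENNReal.ofReal (Real.exp (-(z.2.1 ^ 2 + z.2.2 ^ 2)) / √(z.2.1 ^ 2 + z.2.2 ^ 2)))
        (y 2, (y 0, y 1)) := by
    intro y
    simp only
    have hn : ‖y‖ ^ 2 = y 2 ^ 2 + (y 0 ^ 2 + y 1 ^ 2) := by
      rw [EuclideanSpace.real_norm_sq_eq, Fin.sum_univ_three]
      ring
    have hw : 0 ≤ wgt y := div_nonneg (Real.exp_pos _).le (norm_nonneg _)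
    rw [← ENNReal.ofReal_mul hw, ← ENNReal.ofReal_mul (Real.exp_pos _).le]
    congr 1
    rcases eq_or_ne y 0 with hy | hy
    · subst hy
      simp [wgt]
    · have hpos : 0 < ‖y‖ := norm_pos_iff.2 hy
      have e1 : 1 - (y 2 / ‖y‖) ^ 2 = (y 0 ^ 2 + y 1 ^ 2) / ‖y‖ ^ 2 := by
        rw [div_pow, eq_div_iff (by positivity), sub_mul, div_mul_cancel₀ _ (by positivity)]
        linarith
      rw [e1, Real.sqrt_div (by positivity), Real.sqrt_sq hpos.le, one_div, inv_div, wgt, hn,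
        neg_add, Real.exp_add, neg_add]
      rw [Real.exp_add]
      field_simp
  have h2 := RTB_mp.lintegral_comp (f := fun z : ℝ × (ℝ × ℝ) =>
    ENNReal.ofReal (Real.exp (-z.1 ^ 2)) *
      ENNReal.ofReal (Real.exp (-(z.2.1 ^ 2 + z.2.2 ^ 2)) / √(z.2.1 ^ 2 + z.2.2 ^ 2)))
    (by fun_prop)
  rw [lintegral_congr h1, h2, Measure.volume_eq_prod]
  rw [lintegral_prod_mul (f := fun r : ℝ => ENNReal.ofReal (Real.exp (-r ^ 2)))
    (g := fun p : ℝ × ℝ => ENNReal.ofReal (Real.exp (-(p.1 ^ 2 + p.2 ^ 2)) /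
    √(p.1 ^ 2 + p.2 ^ 2))) (by fun_prop) (by fun_prop)]
  rw [lint_plane, RTB_gauss, ← ENNReal.ofReal_mul (Real.sqrt_nonneg _)]
  congr 1
  have := Real.mul_self_sqrt Real.pi_pos.le
  calc √Real.pi * (Real.pi * √Real.pi) = Real.pi * (√Real.pi * √Real.pi) := by ring
    _ = Real.pi ^ 2 := by rw [this]; ring

/-- almost every `y` is not on the third axis -/
theorem ae_axis : ∀ᵐ y : E3, 0 < 1 - (y 2 / ‖y‖) ^ 2 := by
  have h1 : volume ((LinearMap.ker (EuclideanSpace.proj 0 : E3 →L[ℝ] ℝ).toLinearMap : Submodule ℝ E3) : Set E3) = 0 := by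
    apply Measure.addHaar_submodule
    rw [Ne, LinearMap.ker_eq_top]
    intro h
    have h2 : (EuclideanSpace.proj 0 : E3 →L[ℝ] ℝ).toLinearMap (EuclideanSpace.single 0 1) =
      (0 : E3 →ₗ[ℝ] ℝ) (EuclideanSpace.single 0 1) := by rw [h]
    simp at h2
  have h2 : ∀ᵐ y : E3, y ∉ ((LinearMap.ker (EuclideanSpace.proj 0 : E3 →L[ℝ] ℝ).toLinearMap : Submodule ℝ E3) : Set E3) :=
    measure_eq_zero_iff_ae_notMem.1 h1
  filter_upwards [h2] with y hy
  have h0 : y 0 ≠ 0 := by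
    intro h
    apply hy
    simp [h]
  have hy0 : y ≠ 0 := by
    rintro rfl
    exact h0 rfl
  have hn : ‖y‖ ^ 2 = y 2 ^ 2 + (y 0 ^ 2 + y 1 ^ 2) := by
    rw [EuclideanSpace.real_norm_sq_eq, Fin.sum_univ_three]
    ring
  have hpos : 0 < ‖y‖ := norm_pos_iff.2 hy0
  have e1 : 1 - (y 2 / ‖y‖) ^ 2 = (y 0 ^ 2 + y 1 ^ 2) / ‖y‖ ^ 2 := by
    rw [div_pow, eq_div_iff (by positivity), sub_mul, div_mul_cancel₀ _ (by positivity)]
    linarith
  rw [e1]
  have : 0 < y 0 ^ 2 := by positivity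
  positivity

end Pool.Agent.EWD
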