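import Mathlib
import Pool.Agent.EWD.Defs
import Pool.Agent.EWD.KER
import Pool.Agent.EWD.RTA
import Pool.Agent.EWD.RTB

/-
LIM: the average error tends to 0.  [about 90 lines]

`Lam τ m = ∫⁻ wgt · ll τ q`, `q = m² (1 - (y 2/‖y‖)²) ∈ [0, 1]`. By `ll_le`: `ll τ q ≤ 1/√q
= (1/m) (1/√(1 - (y 2/‖y‖)²))`, whose weighted integral is `π²/m < ∞` (`lint_inv`).
For `q > 0` (almost every `y`, `ae_axis`), `ll τ q → 0` as `τ → 0`: `0 ≤ 1 - K √q ≤ τ²/(q + τ²)`
(`one_sub_KK_mul_sqrt_le`). Dominated convergence (`tendsto_lintegral_filter_of_dominated_convergence`).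
-/

open MeasureTheory Set Filter Topology
open scoped ENNReal NNReal

namespace Pool.Agent.EWD

private theorem lim_rng (y : E3) : 0 ≤ 1 - (y 2 / ‖y‖) ^ 2 ∧ 1 - (y 2 / ‖y‖) ^ 2 ≤ 1 := by
  have h1 : |y 2| ≤ ‖y‖ := by
    have := PiLp.norm_apply_le y 2
    simpa [Real.norm_eq_abs] using this
  have h2 : |y 2 / ‖y‖| ≤ 1 := by
    rw [abs_div, abs_of_nonneg (norm_nonneg y)]
    exact div_le_one_of_le₀ h1 (norm_nonneg y)
  have h3 : (y 2 / ‖y‖) ^ 2 ≤ 1 := by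
    rw [← sq_abs]
    exact pow_le_one₀ (abs_nonneg _) h2
  exact ⟨by linarith, by nlinarith [sq_nonneg (y 2 / ‖y‖)]⟩

private theorem lim_q {m : ℝ} (hm : 0 < m) (hm1 : m ≤ 1) (y : E3) :
    0 ≤ m ^ 2 * (1 - (y 2 / ‖y‖) ^ 2) ∧ m ^ 2 * (1 - (y 2 / ‖y‖) ^ 2) ≤ 1 := by
  obtain ⟨h1, h2⟩ := lim_rng y
  have h3 : m ^ 2 ≤ 1 := pow_le_one₀ hm.le hm1
  exact ⟨mul_nonneg (sq_nonneg m) h1, mul_le_one₀ h3 h1 h2⟩

private theorem lim_meas : Measurable (fun y : E3 => 1 - (y 2 / ‖y‖) ^ 2) := by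
  have h : Measurable (fun y : E3 => y 2) := by fun_prop
  exact measurable_const.sub ((h.div measurable_norm).pow_const 2)

private theorem lim_measF (τ m : ℝ) : Measurable (fun y : E3 => ENNReal.ofReal (wgt y) *
    ENNReal.ofReal (ll τ (m ^ 2 * (1 - (y 2 / ‖y‖) ^ 2)))) := by
  exact measurable_wgt.ennreal_ofReal.mul
    ((measurable_ll τ).comp (lim_meas.const_mul (m ^ 2))).ennreal_ofReal

private theorem lim_bound {τ m : ℝ} (hτ : 0 < τ) (hm : 0 < m) (hm1 : m ≤ 1) (y : E3) :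
    ENNReal.ofReal (wgt y) * ENNReal.ofReal (ll τ (m ^ 2 * (1 - (y 2 / ‖y‖) ^ 2))) ≤
      ENNReal.ofReal (1 / m) * (ENNReal.ofReal (wgt y) *
        ENNReal.ofReal (1 / √(1 - (y 2 / ‖y‖) ^ 2))) := by
  obtain ⟨h1, h2⟩ := lim_q hm hm1 y
  have h3 := ll_le hτ h1 h2
  rw [Real.sqrt_mul (sq_nonneg m), Real.sqrt_sq hm.le] at h3
  rw [mul_left_comm, ← ENNReal.ofReal_mul (p := 1 / m) (by positivity)]
  refine mul_le_mul' le_rfl (ENNReal.ofReal_le_ofReal ?_)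
  rw [div_mul_div_comm, one_mul]
  exact h3

private theorem lim_fin (m : ℝ) : ∫⁻ y : E3, ENNReal.ofReal (1 / m) * (ENNReal.ofReal (wgt y) *
        ENNReal.ofReal (1 / √(1 - (y 2 / ‖y‖) ^ 2))) ≠ ∞ := by
  rw [lintegral_const_mul' _ _ ENNReal.ofReal_ne_top, lint_inv]
  exact ENNReal.mul_ne_top ENNReal.ofReal_ne_top ENNReal.ofReal_ne_top

theorem Lam_lt_top {τ m : ℝ} (hτ : 0 < τ) (hm : 0 < m) (hm1 : m ≤ 1) : Lam τ m < ∞ := by
  refine lt_of_le_of_lt (lintegral_mono fun y => lim_bound hτ hm hm1 y) ?_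
  exact lt_top_iff_ne_top.2 (lim_fin m)

private theorem lim_ll {q : ℝ} (hq : 0 < q) (hq1 : q ≤ 1) :
    Tendsto (fun τ => ll τ q) (𝓝[>] 0) (𝓝 0) := by
  have hs : 0 < √q := Real.sqrt_pos.2 hq
  have h0 : Tendsto (fun τ : ℝ => τ ^ 2 / (q + τ ^ 2) / √q) (𝓝[>] 0) (𝓝 0) := by
    have hc : ContinuousAt (fun τ : ℝ => τ ^ 2 / (q + τ ^ 2) / √q) 0 := by
      refine ContinuousAt.div_const (ContinuousAt.div (by fun_prop) (by fun_prop) ?_) _
      simpa using hq.ne'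
    have h := hc.tendsto
    simp only [ne_eq, OfNat.ofNat_ne_zero, not_false_eq_true, zero_pow, zero_div] at h
    exact h.mono_left nhdsWithin_le_nhds
  refine tendsto_of_tendsto_of_tendsto_of_le_of_le' tendsto_const_nhds h0 ?_ ?_
  · filter_upwards [self_mem_nhdsWithin] with τ hτ
    exact ll_nonneg hτ hq.le hq1
  · filter_upwards [self_mem_nhdsWithin] with τ hτ
    unfold ll
    exact div_le_div_of_nonneg_right (one_sub_KK_mul_sqrt_le hτ hq hq1) hs.le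

theorem tendsto_Lam {m : ℝ} (hm : 0 < m) (hm1 : m ≤ 1) :
    Tendsto (fun τ => (Lam τ m).toReal) (𝓝[>] 0) (𝓝 0) := by
  have key : Tendsto (fun τ => Lam τ m) (𝓝[>] 0) (𝓝 (∫⁻ _y : E3, 0)) := by
    unfold Lam
    refine tendsto_lintegral_filter_of_dominated_convergence
      (fun y => ENNReal.ofReal (1 / m) * (ENNReal.ofReal (wgt y) *
        ENNReal.ofReal (1 / √(1 - (y 2 / ‖y‖) ^ 2)))) ?_ ?_ (lim_fin m) ?_
    · exact Eventually.of_forall fun τ => lim_measF τ m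
    · filter_upwards [self_mem_nhdsWithin] with τ hτ
      exact Eventually.of_forall fun y => lim_bound hτ hm hm1 y
    · filter_upwards [ae_axis] with y hy
      obtain ⟨h1, h2⟩ := lim_q hm hm1 y
      have h3 : 0 < m ^ 2 * (1 - (y 2 / ‖y‖) ^ 2) := by positivity
      have h4 := ENNReal.tendsto_ofReal (lim_ll h3 h2)
      have h5 := ENNReal.Tendsto.const_mul (a := ENNReal.ofReal (wgt y)) h4
        (Or.inr ENNReal.ofReal_ne_top)
      simpa using h5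
  have h6 := (ENNReal.tendsto_toReal (a := ∫⁻ _y : E3, 0) (by simp)).comp key
  simpa [Function.comp_def] using h6

end Pool.Agent.EWD
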