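import Mathlib
import Pool.Agent.EWD.Defs
import Pool.Agent.EWD.KER
import Pool.Agent.EWD.RTA
import Pool.Agent.EWD.RTB
import Pool.Agent.EWD.LIM

/-
AVG: average over `y`.  [about 170 lines, Tonelli]

`μ` is a finite measure on `Om`. `v : Om → E3`, `m ≤ ‖v o‖ ≤ 1`, `g : Om → ℝ` nonnegative and bounded.
(1) `∫⁻_y wgt/√(qq v y) = π²/‖v‖` (`lint_rot` with `f q = ofReal (1/√q)`, `lint_inv`).
(2) For a.e. `y`: `g/√(qq (v ·) y)` is integrable: by Tonelli `∫⁻_y wgt ∫⁻_o g/√qq = ∫⁻_o g π²/‖v‖ ≤ B π²/m μ(univ) < ∞`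
  (`lintegral_lintegral_swap`, `ae_lt_top'`), and `wgt y > 0` for `y ≠ 0`.
(3) Hence for a.e. `y` the inequality of `H` holds. All its terms are nonnegative (`qq ≤ ‖v‖² ≤ 1`,
  `ll_nonneg`, `KK_pos`), so in `ℝ≥0∞`: `ofReal π² ≤ ∫⁻_o ofReal (KK τ qq) + ∫⁻_o ofReal (2 g ll) + ofReal R`
  (`ofReal_integral_eq_lintegral_ofReal`; the integrands are integrable: `KK_le`, `2 g ll ≤ 2 g/√qq`).
(4) Multiply by `ofReal (wgt y)`, integrate in `y` and use Tonelli. `∫⁻_y wgt KK τ (qq v y) ≤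
  √(1+τ²) ∫⁻_y wgt/√qq = √(1+τ²) π²/‖v‖ ≤ √(1+τ²) π²/m` (`KK_le_sqrt`, for a.e. `y` one has `0 < qq v y`;
  or bound where `qq = 0` by a null set: by `lint_rot` with an indicator and `ae_axis`), and
  `∫⁻_y wgt ll τ (qq v y) = ∫⁻_y wgt ll τ (‖v‖² (1 - ..)) ≤ Lam τ m` (`lint_rot`, `ll_anti`, `ae_axis`).
(5) `2π π² ≤ √(1+τ²) π²/m μ(univ) + 2 (∫ g) Lam + 2π R`; take `toReal`.
-/

open MeasureTheory Set Filter Topology
open scoped ENNReal NNReal

namespace Pool.Agent.EWD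

private theorem AVG_ofReal_int {α : Type} [MeasurableSpace α] (μ : Measure α) (f : α → ℝ) (hf : ∀ a, 0 ≤ f a) :
    ENNReal.ofReal (∫ a, f a ∂μ) ≤ ∫⁻ a, ENNReal.ofReal (f a) ∂μ := by
  by_cases h : Integrable f μ
  · rw [ofReal_integral_eq_lintegral_ofReal h (Eventually.of_forall hf)]
  · rw [integral_undef h, ENNReal.ofReal_zero]
    exact bot_le

private theorem AVG_sqrt (w : E3) (t : ℝ) : √(‖w‖ ^ 2 * t) = ‖w‖ * √t := by
  rw [Real.sqrt_mul (sq_nonneg _), Real.sqrt_sq (norm_nonneg _)]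

private theorem AVG_inv (w : E3) :
    ∫⁻ y : E3, ENNReal.ofReal (wgt y) * ENNReal.ofReal (1 / √(‖w‖ ^ 2 * (1 - (y 2 / ‖y‖) ^ 2))) =
      ENNReal.ofReal (1 / ‖w‖) * ENNReal.ofReal (Real.pi ^ 2) := by
  rw [← lint_inv, ← lintegral_const_mul' _ _ ENNReal.ofReal_ne_top]
  refine lintegral_congr fun y => ?_
  rw [AVG_sqrt, ← one_div_mul_one_div, ENNReal.ofReal_mul (by positivity)]
  ring

private theorem AVG_inv_qq (w : E3) :
    ∫⁻ y : E3, ENNReal.ofReal (wgt y) * ENNReal.ofReal (1 / √(qq w y)) =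
      ENNReal.ofReal (1 / ‖w‖) * ENNReal.ofReal (Real.pi ^ 2) := by
  rw [lint_rot (fun q => ENNReal.ofReal (1 / √q)) (by fun_prop) w]
  exact AVG_inv w

private theorem AVG_KK {τ : ℝ} (hτ : 0 < τ) {w : E3} (hw : 0 < ‖w‖) :
    ∫⁻ y : E3, ENNReal.ofReal (wgt y) * ENNReal.ofReal (KK τ (qq w y)) ≤
      ENNReal.ofReal (√(1 + τ ^ 2)) * (ENNReal.ofReal (1 / ‖w‖) * ENNReal.ofReal (Real.pi ^ 2)) := by
  rw [lint_rot (fun q => ENNReal.ofReal (KK τ q)) (measurable_KK τ).ennreal_ofReal w, ← AVG_inv w,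
    ← lintegral_const_mul' _ _ ENNReal.ofReal_ne_top]
  refine lintegral_mono_ae ?_
  filter_upwards [ae_axis] with y hy
  have hq : 0 < ‖w‖ ^ 2 * (1 - (y 2 / ‖y‖) ^ 2) := by positivity
  calc ENNReal.ofReal (wgt y) * ENNReal.ofReal (KK τ (‖w‖ ^ 2 * (1 - (y 2 / ‖y‖) ^ 2)))
      ≤ ENNReal.ofReal (wgt y) * ENNReal.ofReal (√(1 + τ ^ 2) *
          (1 / √(‖w‖ ^ 2 * (1 - (y 2 / ‖y‖) ^ 2)))) := by
        refine mul_le_mul_right (ENNReal.ofReal_le_ofReal ?_) _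
        rw [mul_one_div]
        exact KK_le_sqrt hτ hq
    _ = _ := by
        rw [ENNReal.ofReal_mul (Real.sqrt_nonneg _)]
        ring

private theorem AVG_ll {τ : ℝ} (hτ : 0 < τ) {m : ℝ} (hm : 0 < m) {w : E3} (hw : m ≤ ‖w‖) (hw1 : ‖w‖ ≤ 1) :
    ∫⁻ y : E3, ENNReal.ofReal (wgt y) * ENNReal.ofReal (ll τ (qq w y)) ≤ Lam τ m := by
  rw [lint_rot (fun q => ENNReal.ofReal (ll τ q)) (measurable_ll τ).ennreal_ofReal w]
  unfold Lam
  refine lintegral_mono_ae ?_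
  filter_upwards [ae_axis] with y hy
  refine mul_le_mul_right (ENNReal.ofReal_le_ofReal ?_) _
  have h1 : m ^ 2 ≤ ‖w‖ ^ 2 := pow_le_pow_left₀ hm.le hw 2
  have h2 : ‖w‖ ^ 2 ≤ 1 := by
    rw [sq_le_one_iff₀ (norm_nonneg _)]
    exact hw1
  have h3 : 1 - (y 2 / ‖y‖) ^ 2 ≤ 1 := by
    have := sq_nonneg (y 2 / ‖y‖)
    linarith
  refine ll_anti hτ (by positivity) (mul_le_mul_of_nonneg_right h1 hy.le) ?_
  calc ‖w‖ ^ 2 * (1 - (y 2 / ‖y‖) ^ 2) ≤ 1 * 1 := mul_le_mul h2 h3 hy.le zero_le_one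
    _ = 1 := one_mul 1

private theorem AVG_wgt_pos {y : E3} (hy : y ≠ 0) : 0 < wgt y := by
  unfold wgt
  have : 0 < ‖y‖ := norm_pos_iff.2 hy
  positivity

theorem average (μ : Measure Om) [IsFiniteMeasure μ] {v : Om → E3} (hv : AEMeasurable v μ) {m : ℝ}
    (hm : 0 < m) (hmv : ∀ o, m ≤ ‖v o‖) (hv1 : ∀ o, ‖v o‖ ≤ 1) {g : Om → ℝ} (hg : AEMeasurable g μ)
    (hg0 : ∀ o, 0 ≤ g o) {B : ℝ} (hgB : ∀ᵐ o ∂μ, g o ≤ B) {τ : ℝ} (hτ : 0 < τ) {R : ℝ} (hR : 0 ≤ R)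
    (H : ∀ᵐ y : E3, Integrable (fun o => g o / √(qq (v o) y)) μ →
      Real.pi ^ 2 ≤ ∫ o, KK τ (qq (v o) y) ∂μ + ∫ o, 2 * (g o * ll τ (qq (v o) y)) ∂μ + R) :
    2 * Real.pi ^ 3 ≤ √(1 + τ ^ 2) * (Real.pi ^ 2 / m) * (μ univ).toReal
      + 2 * (∫ o, g o ∂μ) * (Lam τ m).toReal + 2 * Real.pi * R := by
  have hm1 : m ≤ 1 := (hmv (0, 0)).trans (hv1 (0, 0))
  have hvpos : ∀ o, 0 < ‖v o‖ := fun o => hm.trans_le (hmv o)
  have hB0 : 0 ≤ᵐ[μ] g := Eventually.of_forall hg0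
  have hgi : Integrable g μ := by
    refine Integrable.of_bound hg.aestronglyMeasurable B ?_
    filter_upwards [hgB] with o ho
    rw [Real.norm_eq_abs, abs_of_nonneg (hg0 o)]
    exact ho
  -- joint measurability
  have hvp : AEMeasurable (fun p : Om × E3 => v p.1) (μ.prod volume) :=
    hv.comp_quasiMeasurePreserving Measure.quasiMeasurePreserving_fst
  have hgp : AEMeasurable (fun p : Om × E3 => g p.1) (μ.prod volume) :=
    hg.comp_quasiMeasurePreserving Measure.quasiMeasurePreserving_fst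
  have hqp : AEMeasurable (fun p : Om × E3 => qq (v p.1) p.2) (μ.prod volume) :=
    Measurable.comp_aemeasurable (g := fun p : E3 × E3 => qq p.1 p.2)
      (f := fun p : Om × E3 => (v p.1, p.2)) measurable_qq (hvp.prodMk measurable_snd.aemeasurable)
  have hwp : AEMeasurable (fun p : Om × E3 => ENNReal.ofReal (wgt p.2)) (μ.prod volume) :=
    ((measurable_wgt.comp measurable_snd).ennreal_ofReal).aemeasurable
  have hsqrt : Measurable (fun q : ℝ => ENNReal.ofReal (1 / √q)) := by fun_prop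
  -- swap of the integrals
  have swap : ∀ F : Om → E3 → ℝ≥0∞, AEMeasurable (Function.uncurry F) (μ.prod volume) →
      ∫⁻ y, ∫⁻ o, F o y ∂μ = ∫⁻ o, ∫⁻ y, F o y ∂volume ∂μ := fun F hF =>
    (lintegral_lintegral_swap hF).symm
  -- (2) integrability for almost all y
  have hF1 : AEMeasurable (Function.uncurry fun (o : Om) (y : E3) => ENNReal.ofReal (wgt y) *
      (ENNReal.ofReal (g o) * ENNReal.ofReal (1 / √(qq (v o) y)))) (μ.prod volume) :=
    hwp.mul (hgp.ennreal_ofReal.mul (hsqrt.comp_aemeasurable hqp))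
  have hfin1 : ∫⁻ y : E3, ∫⁻ o, ENNReal.ofReal (wgt y) *
      (ENNReal.ofReal (g o) * ENNReal.ofReal (1 / √(qq (v o) y))) ∂μ ≠ ∞ := by
    rw [swap _ hF1]
    have h1 : ∀ o, ∫⁻ y : E3, ENNReal.ofReal (wgt y) *
        (ENNReal.ofReal (g o) * ENNReal.ofReal (1 / √(qq (v o) y))) =
        ENNReal.ofReal (g o) * (ENNReal.ofReal (1 / ‖v o‖) * ENNReal.ofReal (Real.pi ^ 2)) := by
      intro o
      rw [← AVG_inv_qq, ← lintegral_const_mul' _ _ ENNReal.ofReal_ne_top]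
      refine lintegral_congr fun y => ?_
      ring
    simp only [h1]
    have h2 : ∫⁻ o, ENNReal.ofReal (g o) * (ENNReal.ofReal (1 / ‖v o‖) * ENNReal.ofReal (Real.pi ^ 2)) ∂μ
        ≤ ∫⁻ _, ENNReal.ofReal B * (ENNReal.ofReal (1 / m) * ENNReal.ofReal (Real.pi ^ 2)) ∂μ := by
      refine lintegral_mono_ae ?_
      filter_upwards [hgB] with o ho
      refine mul_le_mul' (ENNReal.ofReal_le_ofReal ho) (mul_le_mul' (ENNReal.ofReal_le_ofReal ?_) le_rfl)
      exact one_div_le_one_div_of_le hm (hmv o)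
    refine ne_top_of_le_ne_top ?_ h2
    rw [lintegral_const]
    exact ENNReal.mul_ne_top (ENNReal.mul_ne_top ENNReal.ofReal_ne_top
      (ENNReal.mul_ne_top ENNReal.ofReal_ne_top ENNReal.ofReal_ne_top)) (measure_ne_top _ _)
  have hae0 : ∀ᵐ y : E3, y ≠ 0 := by
    rw [ae_iff]
    simp only [ne_eq, not_not]
    exact measure_singleton 0
  have hae1 : ∀ᵐ y : E3, ∫⁻ o, ENNReal.ofReal (wgt y) *
      (ENNReal.ofReal (g o) * ENNReal.ofReal (1 / √(qq (v o) y))) ∂μ < ∞ :=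
    ae_lt_top' hF1.lintegral_prod_left' hfin1
  have hint : ∀ᵐ y : E3, Integrable (fun o => g o / √(qq (v o) y)) μ := by
    filter_upwards [hae0, hae1] with y hy0 hy1
    have hqy : AEMeasurable (fun o => qq (v o) y) μ :=
      Measurable.comp_aemeasurable (g := fun p : E3 × E3 => qq p.1 p.2)
        (f := fun o : Om => (v o, y)) measurable_qq (hv.prodMk aemeasurable_const)
    have hmeas : AEStronglyMeasurable (fun o => g o / √(qq (v o) y)) μ :=
      (hg.div hqy.sqrt).aestronglyMeasurable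
    refine ⟨hmeas, ?_⟩
    rw [hasFiniteIntegral_iff_ofReal (Eventually.of_forall fun o =>
      div_nonneg (hg0 o) (Real.sqrt_nonneg _))]
    have h1 : ∫⁻ o, ENNReal.ofReal (wgt y) *
        (ENNReal.ofReal (g o) * ENNReal.ofReal (1 / √(qq (v o) y))) ∂μ =
        ENNReal.ofReal (wgt y) * ∫⁻ o, ENNReal.ofReal (g o / √(qq (v o) y)) ∂μ := by
      rw [← lintegral_const_mul' _ _ ENNReal.ofReal_ne_top]
      refine lintegral_congr fun o => ?_
      rw [← ENNReal.ofReal_mul (hg0 o), mul_one_div]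
    rw [h1] at hy1
    by_contra hcon
    rw [not_lt, top_le_iff] at hcon
    rw [hcon, ENNReal.mul_top] at hy1
    · exact absurd hy1 (lt_irrefl _)
    · rw [ne_eq, ENNReal.ofReal_eq_zero, not_le]
      exact AVG_wgt_pos hy0
  -- (3) the inequality in the extended nonnegative numbers
  have hq1 : ∀ o y, qq (v o) y ≤ 1 := fun o y => (qq_le _ _).trans (by
    rw [sq_le_one_iff₀ (norm_nonneg _)]
    exact hv1 o)
  have hineq : ∀ᵐ y : E3, ENNReal.ofReal (Real.pi ^ 2) ≤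
      ∫⁻ o, ENNReal.ofReal (KK τ (qq (v o) y)) ∂μ
      + ∫⁻ o, ENNReal.ofReal (2 * (g o * ll τ (qq (v o) y))) ∂μ + ENNReal.ofReal R := by
    filter_upwards [hint, H] with y hy1 hy2
    refine (ENNReal.ofReal_le_ofReal (hy2 hy1)).trans ?_
    refine ENNReal.ofReal_add_le.trans (add_le_add (ENNReal.ofReal_add_le.trans (add_le_add ?_ ?_)) le_rfl)
    · exact AVG_ofReal_int μ _ fun o => (KK_pos hτ (qq_nonneg _ _)).le
    · exact AVG_ofReal_int μ _ fun o => mul_nonneg zero_le_two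
        (mul_nonneg (hg0 o) (ll_nonneg hτ (qq_nonneg _ _) (hq1 o y)))
  -- (4) integrate
  have hF2 : AEMeasurable (Function.uncurry fun (o : Om) (y : E3) => ENNReal.ofReal (wgt y) *
      ENNReal.ofReal (KK τ (qq (v o) y))) (μ.prod volume) :=
    hwp.mul ((measurable_KK τ).ennreal_ofReal.comp_aemeasurable hqp)
  have hF3 : AEMeasurable (Function.uncurry fun (o : Om) (y : E3) => ENNReal.ofReal (wgt y) *
      ENNReal.ofReal (2 * (g o * ll τ (qq (v o) y)))) (μ.prod volume) :=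
    hwp.mul ((hgp.mul ((measurable_ll τ).comp_aemeasurable hqp)).const_mul 2).ennreal_ofReal
  have hI2 : ∫⁻ y : E3, ∫⁻ o, ENNReal.ofReal (wgt y) * ENNReal.ofReal (KK τ (qq (v o) y)) ∂μ ≤
      ENNReal.ofReal (√(1 + τ ^ 2) * (Real.pi ^ 2 / m)) * μ univ := by
    rw [swap _ hF2, ← lintegral_const]
    refine lintegral_mono fun o => (AVG_KK hτ (hvpos o)).trans ?_
    rw [ENNReal.ofReal_mul (Real.sqrt_nonneg _)]
    refine mul_le_mul' le_rfl ?_
    rw [← ENNReal.ofReal_mul (by positivity)]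
    refine ENNReal.ofReal_le_ofReal ?_
    rw [one_div_mul_eq_div]
    exact div_le_div_of_nonneg_left (by positivity) hm (hmv o)
  have hI3 : ∫⁻ y : E3, ∫⁻ o, ENNReal.ofReal (wgt y) *
      ENNReal.ofReal (2 * (g o * ll τ (qq (v o) y))) ∂μ ≤
      ENNReal.ofReal (2 * ∫ o, g o ∂μ) * Lam τ m := by
    rw [swap _ hF3]
    have h1 : ∀ o, ∫⁻ y : E3, ENNReal.ofReal (wgt y) *
        ENNReal.ofReal (2 * (g o * ll τ (qq (v o) y))) ≤ ENNReal.ofReal (2 * g o) * Lam τ m := by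
      intro o
      have h2 : ∫⁻ y : E3, ENNReal.ofReal (wgt y) *
          ENNReal.ofReal (2 * (g o * ll τ (qq (v o) y))) = ENNReal.ofReal (2 * g o) *
          ∫⁻ y : E3, ENNReal.ofReal (wgt y) * ENNReal.ofReal (ll τ (qq (v o) y)) := by
        rw [← lintegral_const_mul' _ _ ENNReal.ofReal_ne_top]
        refine lintegral_congr fun y => ?_
        rw [← mul_assoc, ENNReal.ofReal_mul (mul_nonneg zero_le_two (hg0 o))]
        ring
      rw [h2]
      exact mul_le_mul' le_rfl (AVG_ll hτ hm (hmv o) (hv1 o))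
    refine (lintegral_mono h1).trans ?_
    rw [lintegral_mul_const' _ _ (Lam_lt_top hτ hm hm1).ne, ← integral_const_mul,
      ofReal_integral_eq_lintegral_ofReal (hgi.const_mul 2)
        (Eventually.of_forall fun o => mul_nonneg zero_le_two (hg0 o))]
  have hmain : ENNReal.ofReal (2 * Real.pi) * ENNReal.ofReal (Real.pi ^ 2) ≤
      ENNReal.ofReal (√(1 + τ ^ 2) * (Real.pi ^ 2 / m)) * μ univ
      + ENNReal.ofReal (2 * ∫ o, g o ∂μ) * Lam τ m + ENNReal.ofReal (2 * Real.pi) * ENNReal.ofReal R := by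
    have h1 : ∫⁻ y : E3, ENNReal.ofReal (wgt y) * ENNReal.ofReal (Real.pi ^ 2) ≤
        ∫⁻ y : E3, (∫⁻ o, ENNReal.ofReal (wgt y) * ENNReal.ofReal (KK τ (qq (v o) y)) ∂μ
          + ∫⁻ o, ENNReal.ofReal (wgt y) * ENNReal.ofReal (2 * (g o * ll τ (qq (v o) y))) ∂μ
          + ENNReal.ofReal (wgt y) * ENNReal.ofReal R) := by
      refine lintegral_mono_ae ?_
      filter_upwards [hineq] with y hy
      rw [lintegral_const_mul' _ _ ENNReal.ofReal_ne_top, lintegral_const_mul' _ _ ENNReal.ofReal_ne_top,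
        ← mul_add, ← mul_add]
      exact mul_le_mul' le_rfl hy
    rw [lintegral_mul_const' _ _ ENNReal.ofReal_ne_top, lint_wgt] at h1
    refine h1.trans ?_
    have hmm : AEMeasurable (fun y : E3 => ∫⁻ o, ENNReal.ofReal (wgt y) *
        ENNReal.ofReal (KK τ (qq (v o) y)) ∂μ) volume := hF2.lintegral_prod_left'
    rw [lintegral_add_right _ (measurable_wgt.ennreal_ofReal.mul_const _),
      lintegral_add_left' hmm, lintegral_mul_const' _ _ ENNReal.ofReal_ne_top, lint_wgt]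
    exact add_le_add (add_le_add hI2 hI3) le_rfl
  -- (5) real numbers
  have hLam : Lam τ m ≠ ∞ := (Lam_lt_top hτ hm hm1).ne
  have hg1 : 0 ≤ ∫ o, g o ∂μ := integral_nonneg hg0
  have hA : ENNReal.ofReal (√(1 + τ ^ 2) * (Real.pi ^ 2 / m)) * μ univ ≠ ∞ :=
    ENNReal.mul_ne_top ENNReal.ofReal_ne_top (measure_ne_top _ _)
  have hBt : ENNReal.ofReal (2 * ∫ o, g o ∂μ) * Lam τ m ≠ ∞ :=
    ENNReal.mul_ne_top ENNReal.ofReal_ne_top hLam
  have hC : ENNReal.ofReal (2 * Real.pi) * ENNReal.ofReal R ≠ ∞ :=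
    ENNReal.mul_ne_top ENNReal.ofReal_ne_top ENNReal.ofReal_ne_top
  have hfinal := ENNReal.toReal_mono (ENNReal.add_ne_top.2 ⟨ENNReal.add_ne_top.2 ⟨hA, hBt⟩, hC⟩) hmain
  rw [ENNReal.toReal_add (ENNReal.add_ne_top.2 ⟨hA, hBt⟩) hC, ENNReal.toReal_add hA hBt,
    ENNReal.toReal_mul, ENNReal.toReal_mul, ENNReal.toReal_mul, ENNReal.toReal_mul,
    ENNReal.toReal_ofReal (by positivity), ENNReal.toReal_ofReal (by positivity),
    ENNReal.toReal_ofReal (by positivity), ENNReal.toReal_ofReal (by positivity),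
    ENNReal.toReal_ofReal hR] at hfinal
  calc 2 * Real.pi ^ 3 = 2 * Real.pi * Real.pi ^ 2 := by ring
    _ ≤ _ := hfinal

end Pool.Agent.EWD
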