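import Mathlib
import Pool.Agent.EWD.Defs
import Pool.Agent.EWD.LPA
import Pool.Agent.EWD.RUL

/-
CRB: bounds, measurability and linearity of `cr ψ X Y`.  [about 120 lines, easy]

`cr ψ = (gx ψ Ty - gy ψ Tx)/q`, `rot = √(Tx² + Ty²)/q`, `q = X² + Y²` at `C.pt o`.
`|cr ψ| ≤ √(gx ψ² + gy ψ²) * rot ≤ L rot` (Cauchy-Schwarz, `ae_grad_le`); also when `q = 0` (then both
sides are 0, division by zero).
Measurability from `meas_pt`, `meas_gx`, `meas_gy`. Integrable: bounded by `L rot`.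
`rot_le`: if `X = lin a u`, `Y = lin b u` with `a, b` orthonormal and `u` any, then
`Tx² ≤ (X² + Y²) (gx X² + gx Y²)` and `gx X² + gx Y² ≤ ∑ gx u²` (`ae_lin` and Bessel's inequality, see
`bessel` in PWI), hence `rot ≤ √(G u)/√q`.
-/

open MeasureTheory Set Filter Topology
open scoped ENNReal NNReal

namespace Pool.Agent.EWD

private theorem CRB_bessel {N : ℕ} {a b : Fin N → ℝ} (h : Ortho a b) (g : Fin N → ℝ) :
    (∑ i, a i * g i) ^ 2 + (∑ i, b i * g i) ^ 2 ≤ ∑ i, g i ^ 2 := by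
  have key : ∀ A B : ℝ, ∑ i, (g i - A * a i - B * b i) ^ 2
      = ∑ i, g i ^ 2 - 2 * A * ∑ i, a i * g i - 2 * B * ∑ i, b i * g i
        + A ^ 2 * ∑ i, a i ^ 2 + B ^ 2 * ∑ i, b i ^ 2 + 2 * A * B * ∑ i, a i * b i := by
    intro A B
    rw [Finset.mul_sum, Finset.mul_sum, Finset.mul_sum, Finset.mul_sum, Finset.mul_sum,
      ← Finset.sum_sub_distrib, ← Finset.sum_sub_distrib, ← Finset.sum_add_distrib,
      ← Finset.sum_add_distrib, ← Finset.sum_add_distrib]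
    refine Finset.sum_congr rfl fun i _ => ?_
    ring
  have h0 : 0 ≤ ∑ i, (g i - (∑ j, a j * g j) * a i - (∑ j, b j * g j) * b i) ^ 2 :=
    Finset.sum_nonneg fun i _ => sq_nonneg _
  rw [key, h.na, h.nb, h.ab] at h0
  nlinarith [h0]

private theorem CRB_cs (a b c d : ℝ) : (a * d - b * c) ^ 2 ≤ (a ^ 2 + b ^ 2) * (c ^ 2 + d ^ 2) := by
  nlinarith [sq_nonneg (a * c + b * d)]

variable {M : Type} [MetricSpace M] {γ : ℝ → M} (C : Calc M γ)

namespace Calc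

theorem meas_cr {ψ X Y : M → ℝ} (hψ : Lip ψ) (hX : Lip X) (hY : Lip Y) :
    AEMeasurable (C.cr ψ X Y) C.μ := by
  have hTx : AEMeasurable (C.Tx X Y) C.μ :=
    ((C.meas_pt hX).mul (C.meas_gx hY)).sub ((C.meas_pt hY).mul (C.meas_gx hX))
  have hTy : AEMeasurable (C.Ty X Y) C.μ :=
    ((C.meas_pt hX).mul (C.meas_gy hY)).sub ((C.meas_pt hY).mul (C.meas_gy hX))
  exact (((C.meas_gx hψ).mul hTy).sub ((C.meas_gy hψ).mul hTx)).div
    (((C.meas_pt hX).pow_const 2).add ((C.meas_pt hY).pow_const 2))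

theorem meas_rot {X Y : M → ℝ} (hX : Lip X) (hY : Lip Y) : AEMeasurable (C.rot X Y) C.μ := by
  have hTx : AEMeasurable (C.Tx X Y) C.μ :=
    ((C.meas_pt hX).mul (C.meas_gx hY)).sub ((C.meas_pt hY).mul (C.meas_gx hX))
  have hTy : AEMeasurable (C.Ty X Y) C.μ :=
    ((C.meas_pt hX).mul (C.meas_gy hY)).sub ((C.meas_pt hY).mul (C.meas_gy hX))
  exact (Real.continuous_sqrt.measurable.comp_aemeasurable
    ((hTx.pow_const 2).add (hTy.pow_const 2))).div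
    (((C.meas_pt hX).pow_const 2).add ((C.meas_pt hY).pow_const 2))

theorem rot_nonneg (X Y : M → ℝ) (o : Om) : 0 ≤ C.rot X Y o := by
  unfold rot
  positivity

theorem abs_cr_le (ψ X Y : M → ℝ) (o : Om) :
    |C.cr ψ X Y o| ≤ √(C.gx ψ o ^ 2 + C.gy ψ o ^ 2) * C.rot X Y o := by
  unfold cr rot
  have hq : 0 ≤ X (C.pt o) ^ 2 + Y (C.pt o) ^ 2 := by positivity
  rw [abs_div, abs_of_nonneg hq, ← mul_div_assoc, ← Real.sqrt_mul (by positivity)]
  refine div_le_div_of_nonneg_right (Real.abs_le_sqrt ?_) hq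
  exact CRB_cs _ _ _ _

theorem ae_cr_le {ψ : M → ℝ} {L : ℝ≥0} (hψ : LipschitzWith L ψ) (X Y : M → ℝ) :
    ∀ᵐ o ∂C.μ, |C.cr ψ X Y o| ≤ L * C.rot X Y o := by
  filter_upwards [C.ae_grad_le hψ] with o ho
  refine (C.abs_cr_le ψ X Y o).trans ?_
  refine mul_le_mul_of_nonneg_right ?_ (C.rot_nonneg X Y o)
  calc √(C.gx ψ o ^ 2 + C.gy ψ o ^ 2) ≤ √((L : ℝ) ^ 2) := Real.sqrt_le_sqrt ho
    _ = L := Real.sqrt_sq L.2

theorem integrable_cr {ψ X Y : M → ℝ} (hψ : Lip ψ) (hX : Lip X) (hY : Lip Y)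
    (hr : Integrable (C.rot X Y) C.μ) : Integrable (C.cr ψ X Y) C.μ := by
  obtain ⟨L, hL⟩ := hψ
  refine (hr.const_mul (L : ℝ)).mono' (C.meas_cr ⟨L, hL⟩ hX hY).aestronglyMeasurable ?_
  filter_upwards [C.ae_cr_le hL X Y] with o ho
  rw [Real.norm_eq_abs]
  exact ho

/-- `cr` depends linearly on the gradient of the first function -/
theorem ae_cr_sub {f g : M → ℝ} (hf : Lip f) (hg : Lip g) (X Y : M → ℝ) :
    ∀ᵐ o ∂C.μ, C.cr (fun x => f x - g x) X Y o = C.cr f X Y o - C.cr g X Y o := by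
  filter_upwards [C.ae_sub hf hg] with o ho
  unfold cr
  rw [ho.1, ho.2]
  ring

theorem ae_cr_const_mul {f : M → ℝ} (hf : Lip f) (c : ℝ) (X Y : M → ℝ) :
    ∀ᵐ o ∂C.μ, C.cr (fun x => c * f x) X Y o = c * C.cr f X Y o := by
  filter_upwards [C.ae_const_mul hf c] with o ho
  unfold cr
  rw [ho.1, ho.2]
  ring

theorem cr_const (c : ℝ) (X Y : M → ℝ) (o : Om) : C.cr (fun _ => c) X Y o = 0 := by
  unfold cr
  rw [(C.ae_const c o).1, (C.ae_const c o).2]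
  simp

theorem ae_rot_le {N : ℕ} {a b : Fin N → ℝ} (hab : Ortho a b) {u : Fin N → M → ℝ}
    (hu : ∀ i, Lip (u i)) : ∀ᵐ o ∂C.μ, C.rot (lin a u) (lin b u) o ≤
      √(C.G u o) / √(qf (lin a u) (lin b u) (C.pt o)) := by
  filter_upwards [C.ae_lin a hu, C.ae_lin b hu] with o ha hb
  have hq : 0 ≤ qf (lin a u) (lin b u) (C.pt o) := by unfold qf; positivity
  have h1 : C.gx (lin a u) o ^ 2 + C.gx (lin b u) o ^ 2 ≤ ∑ i, C.gx (u i) o ^ 2 := by
    rw [ha.1, hb.1]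
    exact CRB_bessel hab _
  have h2 : C.gy (lin a u) o ^ 2 + C.gy (lin b u) o ^ 2 ≤ ∑ i, C.gy (u i) o ^ 2 := by
    rw [ha.2, hb.2]
    exact CRB_bessel hab _
  have hG : C.G u o = ∑ i, C.gx (u i) o ^ 2 + ∑ i, C.gy (u i) o ^ 2 := by
    unfold G
    rw [Finset.sum_add_distrib]
  have h3 : C.Tx (lin a u) (lin b u) o ^ 2 + C.Ty (lin a u) (lin b u) o ^ 2 ≤
      qf (lin a u) (lin b u) (C.pt o) * C.G u o := by
    have e1 : C.Tx (lin a u) (lin b u) o ^ 2 ≤ qf (lin a u) (lin b u) (C.pt o) *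
        (C.gx (lin a u) o ^ 2 + C.gx (lin b u) o ^ 2) := CRB_cs _ _ _ _
    have e2 : C.Ty (lin a u) (lin b u) o ^ 2 ≤ qf (lin a u) (lin b u) (C.pt o) *
        (C.gy (lin a u) o ^ 2 + C.gy (lin b u) o ^ 2) := CRB_cs _ _ _ _
    have e3 := mul_le_mul_of_nonneg_left h1 hq
    have e4 := mul_le_mul_of_nonneg_left h2 hq
    rw [hG, mul_add]
    linarith
  change √(C.Tx (lin a u) (lin b u) o ^ 2 + C.Ty (lin a u) (lin b u) o ^ 2) /
    qf (lin a u) (lin b u) (C.pt o) ≤ _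
  rcases hq.eq_or_lt with h0 | h0
  · rw [← h0]
    simp
  · have hs : 0 < √(qf (lin a u) (lin b u) (C.pt o)) := Real.sqrt_pos.2 h0
    rw [div_le_div_iff₀ h0 hs]
    calc √(C.Tx (lin a u) (lin b u) o ^ 2 + C.Ty (lin a u) (lin b u) o ^ 2) *
        √(qf (lin a u) (lin b u) (C.pt o))
        ≤ √(qf (lin a u) (lin b u) (C.pt o) * C.G u o) * √(qf (lin a u) (lin b u) (C.pt o)) :=
          mul_le_mul_of_nonneg_right (Real.sqrt_le_sqrt h3) hs.le
      _ = √(C.G u o) * (√(qf (lin a u) (lin b u) (C.pt o)) *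
          √(qf (lin a u) (lin b u) (C.pt o))) := by
          rw [Real.sqrt_mul hq]
          ring
      _ = √(C.G u o) * qf (lin a u) (lin b u) (C.pt o) := by rw [Real.mul_self_sqrt hq]

end Calc

end Pool.Agent.EWD
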