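import Mathlib
import Pool.Agent.EWD.Defs
import Pool.Agent.EWD.LPA
import Pool.Agent.EWD.RUL
import Pool.Agent.EWD.CRB

/-
BNA: gradients of truncations.  [about 150 lines]

`clamp b t = max (-b) (min b t)`, `bnd a b t = max 0 (min 1 ((t - a)/(b - a)))`. Both are Lipschitz
functions of `t`.
Take `o` where `ψ`, `clamp b ∘ ψ`, `clamp a ∘ ψ`, `bnd a b ∘ ψ`, `bnd a b ∘ (-ψ)` are differentiable along both
curves (`ae_has`). Let `t = ψ (pt)`.
 If `a < t < b`: near 0 on the curves `clamp a ψ = a`, `bnd a b (-ψ) = 0`, `clamp b ψ = ψ`,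
   `bnd a b ψ = (ψ - a)/(b - a)`; so the derivatives are `0, 0, ψ', ψ'/(b - a)`. Symmetric for `-b < t < -a`.
 If `|t| < a`: `bnd` terms are locally 0 and both clamps are locally `ψ`.
 If `b < |t|`: all are locally constant.
 If `t = b`: `clamp b ψ` has its maximum value `b` at 0, so its derivative is 0 (it is differentiable);
   the same for `bnd a b ψ` (value 1) and for the other functions, which are locally constant.
 If `t = a > 0`: `clamp a ψ` has a maximum, `bnd a b ψ` a minimum: derivative 0; `bnd a b (-ψ)` is locally 0 ;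
   `clamp b ψ = ψ` locally and `bnd a b ψ ≥ 0`: `clamp b ψ - clamp a ψ = (b - a) (bnd a b ψ)` near 0, so the
   derivative of `clamp b ψ` is 0 too. The other equality cases are similar (`a = 0`: `clamp 0 ψ = 0`).
In fact the identity `clamp b t = clamp a t + (b - a) (bnd a b t - bnd a b (-t))` holds for all `t`
(`0 ≤ a < b`), so it suffices to show that at most one of the three terms has nonzero derivative: if
`t > a` or `t = a`, the derivatives of `clamp a ψ` and `bnd a b (-ψ)` vanish, etc.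
-/

open MeasureTheory Set Filter Topology
open scoped ENNReal NNReal

namespace Pool.Agent.EWD

variable {M : Type} [MetricSpace M] {γ : ℝ → M} (C : Calc M γ)

private theorem BNA_clamp_le {b : ℝ} (hb : 0 ≤ b) (t : ℝ) : clamp b t ≤ b := by
  unfold clamp
  exact max_le (by linarith) (min_le_left _ _)

private theorem BNA_le_clamp (b t : ℝ) : -b ≤ clamp b t := by
  unfold clamp
  exact le_max_left _ _

private theorem BNA_clamp_hi {b t : ℝ} (hb : 0 ≤ b) (h : b ≤ t) : clamp b t = b := by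
  unfold clamp
  rw [min_eq_left h, max_eq_right (by linarith)]

private theorem BNA_clamp_lo {b t : ℝ} (hb : 0 ≤ b) (h : t ≤ -b) : clamp b t = -b := by
  unfold clamp
  rw [min_eq_right (by linarith), max_eq_left h]

private theorem BNA_clamp_mid {b t : ℝ} (h1 : -b ≤ t) (h2 : t ≤ b) : clamp b t = t := by
  unfold clamp
  rw [min_eq_right h2, max_eq_right h1]

private theorem BNA_bnd_nonneg (a b t : ℝ) : 0 ≤ bnd a b t := by
  unfold bnd
  exact le_max_left _ _

private theorem BNA_bnd_lo {a b t : ℝ} (hab : a < b) (h : t ≤ a) : bnd a b t = 0 := by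
  unfold bnd
  have h1 : (t - a) / (b - a) ≤ 0 := div_nonpos_of_nonpos_of_nonneg (by linarith) (by linarith)
  rw [min_eq_right (by linarith), max_eq_left h1]

private theorem BNA_bnd_hi {a b t : ℝ} (hab : a < b) (h : b ≤ t) : bnd a b t = 1 := by
  unfold bnd
  have h1 : 1 ≤ (t - a) / (b - a) := by
    rw [le_div_iff₀ (by linarith)]
    linarith
  rw [min_eq_left h1, max_eq_right zero_le_one]

private theorem BNA_bnd_mid {a b t : ℝ} (hab : a < b) (h1 : a ≤ t) (h2 : t ≤ b) :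
    bnd a b t = (t - a) / (b - a) := by
  unfold bnd
  have h3 : (t - a) / (b - a) ≤ 1 := by
    rw [div_le_one (by linarith)]
    linarith
  have h4 : 0 ≤ (t - a) / (b - a) := div_nonneg (by linarith) (by linarith)
  rw [min_eq_right h3, max_eq_right h4]

theorem lip_clamp {ψ : M → ℝ} (hψ : Lip ψ) (b : ℝ) : Lip (fun x => clamp b (ψ x)) := by
  unfold clamp
  exact (lip_const (-b)).max ((lip_const b).min hψ)

theorem lip_bnd {ψ : M → ℝ} (hψ : Lip ψ) {a b : ℝ} (hab : a < b) :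
    Lip (fun x => bnd a b (ψ x)) := by
  unfold bnd
  refine (lip_const 0).max ((lip_const 1).min ?_)
  have h1 := (hψ.sub (lip_const a)).const_mul (1 / (b - a))
  have e : (fun x => (ψ x - a) / (b - a)) = fun x => 1 / (b - a) * (ψ x - a) := by
    funext x
    ring
  rw [e]
  exact h1

theorem clamp_eq {a b : ℝ} (ha : 0 ≤ a) (hab : a < b) (t : ℝ) :
    clamp b t = clamp a t + (b - a) * (bnd a b t - bnd a b (-t)) := by
  have hba : b - a ≠ 0 := by
    have : 0 < b - a := by linarith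
    exact this.ne'
  rcases le_total b t with h | h
  · rw [BNA_clamp_hi (by linarith) h, BNA_clamp_hi ha (by linarith), BNA_bnd_hi hab h,
      BNA_bnd_lo hab (by linarith)]
    ring
  rcases le_total a t with h1 | h1
  · rw [BNA_clamp_mid (by linarith) h, BNA_clamp_hi ha h1, BNA_bnd_mid hab h1 h,
      BNA_bnd_lo hab (by linarith)]
    field_simp
    ring
  rcases le_total (-a) t with h2 | h2
  · rw [BNA_clamp_mid (by linarith) h, BNA_clamp_mid h2 h1, BNA_bnd_lo hab h1,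
      BNA_bnd_lo hab (by linarith)]
    ring
  rcases le_total (-b) t with h3 | h3
  · rw [BNA_clamp_mid h3 h, BNA_clamp_lo ha h2, BNA_bnd_lo hab h1,
      BNA_bnd_mid hab (by linarith) (by linarith)]
    field_simp
    ring
  · rw [BNA_clamp_lo (by linarith) h3, BNA_clamp_lo ha h2, BNA_bnd_lo hab h1,
      BNA_bnd_hi hab (by linarith)]
    ring

private theorem BNA_max {f : ℝ → ℝ} {d : ℝ} (h : HasDerivAt f d 0) (hm : ∀ s, f s ≤ f 0) :
    d = 0 := by
  have h1 : IsLocalMax f 0 := Filter.Eventually.of_forall hm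
  exact h1.hasDerivAt_eq_zero h

private theorem BNA_min {f : ℝ → ℝ} {d : ℝ} (h : HasDerivAt f d 0) (hm : ∀ s, f 0 ≤ f s) :
    d = 0 := by
  have h1 : IsLocalMin f 0 := Filter.Eventually.of_forall hm
  exact h1.hasDerivAt_eq_zero h

private theorem BNA_one {f : ℝ → ℝ} {a b dA dB dC dD : ℝ} (ha : 0 ≤ a) (hab : a < b)
    (hA : HasDerivAt (fun s => clamp b (f s)) dA 0) (hB : HasDerivAt (fun s => clamp a (f s)) dB 0)
    (hC : HasDerivAt (fun s => bnd a b (f s)) dC 0)
    (hD : HasDerivAt (fun s => bnd a b (-f s)) dD 0) :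
    dA = dB + (b - a) * (dC - dD) ∧ (a ≤ f 0 → dB = 0 ∧ dD = 0) ∧ (f 0 ≤ -a → dB = 0 ∧ dC = 0) ∧
      (-a ≤ f 0 → f 0 ≤ a → dC = 0 ∧ dD = 0) := by
  refine ⟨?_, ?_, ?_, ?_⟩
  · have h1 : HasDerivAt (fun s => clamp a (f s) + (b - a) * (bnd a b (f s) - bnd a b (-f s)))
        (dB + (b - a) * (dC - dD)) 0 := hB.add ((hC.sub hD).const_mul (b - a))
    have e : (fun s => clamp b (f s)) =
        fun s => clamp a (f s) + (b - a) * (bnd a b (f s) - bnd a b (-f s)) := by
      funext s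
      exact clamp_eq ha hab (f s)
    rw [e] at hA
    exact hA.unique h1
  · intro h
    refine ⟨BNA_max hB fun s => ?_, BNA_min hD fun s => ?_⟩
    · rw [BNA_clamp_hi ha h]
      exact BNA_clamp_le ha _
    · rw [BNA_bnd_lo hab (by linarith)]
      exact BNA_bnd_nonneg _ _ _
  · intro h
    refine ⟨BNA_min hB fun s => ?_, BNA_min hC fun s => ?_⟩
    · rw [BNA_clamp_lo ha h]
      exact BNA_le_clamp _ _
    · rw [BNA_bnd_lo hab (by linarith)]
      exact BNA_bnd_nonneg _ _ _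
  · intro h1 h2
    refine ⟨BNA_min hC fun s => ?_, BNA_min hD fun s => ?_⟩
    · rw [BNA_bnd_lo hab h2]
      exact BNA_bnd_nonneg _ _ _
    · rw [BNA_bnd_lo hab (by linarith)]
      exact BNA_bnd_nonneg _ _ _

theorem ae_band {ψ : M → ℝ} (hψ : Lip ψ) {a b : ℝ} (ha : 0 ≤ a) (hab : a < b) (X Y : M → ℝ) :
    ∀ᵐ o ∂C.μ, |C.cr (fun x => clamp b (ψ x)) X Y o| =
      |C.cr (fun x => clamp a (ψ x)) X Y o| + (b - a) *
        (|C.cr (fun x => bnd a b (ψ x)) X Y o| + |C.cr (fun x => bnd a b (-ψ x)) X Y o|) := by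
  filter_upwards [C.ae_has (lip_clamp hψ b), C.ae_has (lip_clamp hψ a), C.ae_has (lip_bnd hψ hab),
    C.ae_has (lip_bnd hψ.neg hab)] with o hA hB hC hD
  have hba : 0 < b - a := by linarith
  obtain ⟨x1, x2, x3, x4⟩ := BNA_one (f := fun s => ψ (C.px o s)) ha hab hA.1 hB.1 hC.1 hD.1
  obtain ⟨y1, y2, y3, y4⟩ := BNA_one (f := fun s => ψ (C.py o s)) ha hab hA.2 hB.2 hC.2 hD.2
  have hs : C.py o 0 = C.px o 0 := C.same o
  simp only [hs] at y2 y3 y4
  unfold Calc.cr
  rw [x1, y1]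
  rcases le_total a (ψ (C.px o 0)) with h | h
  · rw [(x2 h).1, (x2 h).2, (y2 h).1, (y2 h).2]
    have e : ((0 + (b - a) * (C.gx (fun x => bnd a b (ψ x)) o - 0)) * C.Ty X Y o -
        (0 + (b - a) * (C.gy (fun x => bnd a b (ψ x)) o - 0)) * C.Tx X Y o) /
        (X (C.pt o) ^ 2 + Y (C.pt o) ^ 2) = (b - a) * ((C.gx (fun x => bnd a b (ψ x)) o * C.Ty X Y o
          - C.gy (fun x => bnd a b (ψ x)) o * C.Tx X Y o) / (X (C.pt o) ^ 2 + Y (C.pt o) ^ 2)) := by
      ring
    rw [e, abs_mul, abs_of_pos hba]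
    simp
  rcases le_total (-a) (ψ (C.px o 0)) with h1 | h1
  · rw [(x4 h1 h).1, (x4 h1 h).2, (y4 h1 h).1, (y4 h1 h).2]
    simp
  · rw [(x3 h1).1, (x3 h1).2, (y3 h1).1, (y3 h1).2]
    have e : ((0 + (b - a) * (0 - C.gx (fun x => bnd a b (-ψ x)) o)) * C.Ty X Y o -
        (0 + (b - a) * (0 - C.gy (fun x => bnd a b (-ψ x)) o)) * C.Tx X Y o) /
        (X (C.pt o) ^ 2 + Y (C.pt o) ^ 2) = -((b - a) * ((C.gx (fun x => bnd a b (-ψ x)) o *
          C.Ty X Y o - C.gy (fun x => bnd a b (-ψ x)) o * C.Tx X Y o) /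
          (X (C.pt o) ^ 2 + Y (C.pt o) ^ 2))) := by
      ring
    rw [e, abs_neg, abs_mul, abs_of_pos hba]
    simp

private theorem BNA_two {f : ℝ → ℝ} {b d e : ℝ} (hb : 0 ≤ b)
    (hA : HasDerivAt (fun s => clamp b (f s)) e 0) (hf : HasDerivAt f d 0) :
    (b ≤ f 0 → e = 0) ∧ (f 0 ≤ -b → e = 0) ∧ (-b < f 0 → f 0 < b → e = d) := by
  refine ⟨fun h => BNA_max hA fun s => ?_, fun h => BNA_min hA fun s => ?_, fun h1 h2 => ?_⟩
  · rw [BNA_clamp_hi hb h]
    exact BNA_clamp_le hb _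
  · rw [BNA_clamp_lo hb h]
    exact BNA_le_clamp _ _
  · have hc : ContinuousAt f 0 := hf.continuousAt
    have h3 : ∀ᶠ s in 𝓝 (0 : ℝ), f s ∈ Ioo (-b) b := hc (Ioo_mem_nhds h1 h2)
    have h4 : (fun s => clamp b (f s)) =ᶠ[𝓝 0] f := by
      filter_upwards [h3] with s hs
      exact BNA_clamp_mid hs.1.le hs.2.le
    exact (hA.congr_of_eventuallyEq h4.symm).unique hf

theorem ae_clamp_le {ψ : M → ℝ} (hψ : Lip ψ) {b : ℝ} (hb : 0 ≤ b) (X Y : M → ℝ) :
    ∀ᵐ o ∂C.μ, |C.cr (fun x => clamp b (ψ x)) X Y o| ≤ |C.cr ψ X Y o| := by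
  filter_upwards [C.ae_has (lip_clamp hψ b), C.ae_has hψ] with o hA hB
  obtain ⟨x1, x2, x3⟩ := BNA_two (f := fun s => ψ (C.px o s)) hb hA.1 hB.1
  obtain ⟨y1, y2, y3⟩ := BNA_two (f := fun s => ψ (C.py o s)) hb hA.2 hB.2
  have hs : C.py o 0 = C.px o 0 := C.same o
  simp only [hs] at y1 y2 y3
  unfold Calc.cr
  rcases le_or_gt b (ψ (C.px o 0)) with h | h
  · rw [x1 h, y1 h]
    simp
  rcases le_or_gt (ψ (C.px o 0)) (-b) with h1 | h1
  · rw [x2 h1, y2 h1]
    simp
  · rw [x3 h1 h, y3 h1 h]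

end Pool.Agent.EWD
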