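import Mathlib
import Pool.Agent.EWD.Defs
import Pool.Agent.EWD.LPA
import Pool.Agent.EWD.RUL
import Pool.Agent.EWD.CRB
import Pool.Agent.EWD.BNA

/-
BNB: the contribution of all bands.  [about 150 lines]

Let `F b = ∫ |cr (clamp b ∘ ψ) X Y|`.
(1) If `0 ≤ a < b ≤ c` and no `z ∈ Z` has `a < |ψ z| < b`, then `2π (b - a) ≤ F b - F a`: the functions
 `f true = bnd a b ∘ ψ`, `f false = bnd a b ∘ (-ψ)` form a pair for
 `S = {(z, true) | b ≤ ψ z} ∪ {(z, false) | b ≤ -ψ z}` (subset of `VV Z`): the values at `z` are 1 if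
 `±ψ z ≥ b`, 0 if `±ψ z ≤ a`; `glue`: `ψ (γ (t + π)) = -ψ (γ t)`. `(P, true) ∈ S` as `ψ P = c ≥ b`, and
 `(P, false) ∉ S` as `-c ≤ 0 < b`. So `2π ≤ JJ f`, and `F b = F a + (b - a) JJ f` by `ae_band`
 (everything is integrable by `integrable_cr`).
(2) For all `0 ≤ a ≤ b ≤ c`: `2π (b - a) ≤ F b - F a`, by strong induction on the number of `z ∈ Z` with
 `a < |ψ z| < b`: if there is one, with `t = |ψ z|`, apply the induction hypothesis to `[a, t]` and `[t, b]`.
(3) `F 0 = 0` (`clamp 0 = 0`) and `F c ≤ ∫ |cr ψ|` (`ae_clamp_le`).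
-/

open MeasureTheory Set Filter Topology
open scoped ENNReal NNReal

namespace Pool.Agent.EWD

variable {M : Type} [MetricSpace M] {γ : ℝ → M} (C : Calc M γ)

private theorem BNB_clamp_zero (t : ℝ) : clamp 0 t = 0 := by
  unfold clamp
  rw [neg_zero]
  exact max_eq_left (min_le_left _ _)

private theorem BNB_bnd_rng (a b t : ℝ) : 0 ≤ bnd a b t ∧ bnd a b t ≤ 1 := by
  unfold bnd
  exact ⟨le_max_left _ _, max_le zero_le_one (min_le_left _ _)⟩

private theorem BNB_bnd_one {a b t : ℝ} (hab : a < b) (h : b ≤ t) : bnd a b t = 1 := by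
  unfold bnd
  have h1 : 1 ≤ (t - a) / (b - a) := by
    rw [le_div_iff₀ (by linarith)]
    linarith
  rw [min_eq_left h1]
  exact max_eq_right zero_le_one

private theorem BNB_bnd_zero {a b t : ℝ} (hab : a < b) (h : t ≤ a) : bnd a b t = 0 := by
  unfold bnd
  have h1 : (t - a) / (b - a) ≤ 0 := div_nonpos_of_nonpos_of_nonneg (by linarith) (by linarith)
  exact max_eq_left ((min_le_right _ _).trans h1)

theorem bands {X Y : M → ℝ} (hX : Lip X) (hY : Lip Y) (hr : Integrable (C.rot X Y) C.μ)
    {Z : Finset M} {ψ : M → ℝ} (hψ : Lip ψ) (oψ : OddB γ ψ) {c : ℝ} (hc : 0 ≤ c) {P : M}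
    (hP : P ∈ Z) (hPc : ψ P = c)
    (hsel : ∀ S ⊆ VV Z, (P, true) ∈ S → (P, false) ∉ S → ∀ f, Pair γ Z S f →
      2 * Real.pi ≤ C.JJ X Y f) :
    2 * Real.pi * c ≤ ∫ o, |C.cr ψ X Y o| ∂C.μ := by
  classical
  set F : ℝ → ℝ := fun b => ∫ o, |C.cr (fun x => clamp b (ψ x)) X Y o| ∂C.μ with hF
  have hint : ∀ b, Integrable (fun o => |C.cr (fun x => clamp b (ψ x)) X Y o|) C.μ := fun b =>
    (C.integrable_cr (lip_clamp hψ b) hX hY hr).abs
  -- step 1
  have step1 : ∀ a b : ℝ, 0 ≤ a → a < b → b ≤ c → (∀ z ∈ Z, ¬ (a < |ψ z| ∧ |ψ z| < b)) →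
      2 * Real.pi * (b - a) ≤ F b - F a := by
    intro a b ha hab hbc hno
    let f : Bool → M → ℝ := fun i x => bnd a b (cond i (ψ x) (-ψ x))
    let S : Finset (M × Bool) := (VV Z).filter (fun v => b ≤ cond v.2 (ψ v.1) (-ψ v.1))
    have hl1 : Lip (f true) := lip_bnd hψ hab
    have hl2 : Lip (f false) := lip_bnd hψ.neg hab
    have hmem : ∀ z ∈ Z, ∀ i, (z, i) ∈ S ↔ b ≤ cond i (ψ z) (-ψ z) := by
      intro z hz i
      simp only [S, VV, Finset.mem_filter, Finset.mem_product, Finset.mem_univ, and_true]
      exact ⟨fun h => h.2, fun h => ⟨hz, h⟩⟩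
    have hpair : Pair γ Z S f := by
      refine ⟨?_, ?_, ?_, ?_, ?_⟩
      · intro i
        cases i
        · exact hl2
        · exact hl1
      · intro i x
        exact BNB_bnd_rng _ _ _
      · intro t
        change bnd a b (ψ (γ (t + Real.pi))) = bnd a b (-ψ (γ t))
        rw [oψ t]
      · intro z hz i hi
        exact BNB_bnd_one hab ((hmem z hz i).1 hi)
      · intro z hz i hi
        apply BNB_bnd_zero hab
        by_contra hcon
        push Not at hcon
        rw [hmem z hz i] at hi
        push Not at hi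
        apply hno z hz
        have habs : |ψ z| = cond i (ψ z) (-ψ z) := by
          cases i
          · simp only [cond_false] at hcon ⊢
            exact abs_of_neg (by linarith)
          · simp only [cond_true] at hcon ⊢
            exact abs_of_pos (by linarith)
        rw [habs]
        exact ⟨hcon, hi⟩
    have hJ := hsel S (Finset.filter_subset _ _) ((hmem P hP true).2 (by
        simp only [cond_true]
        rw [hPc]
        exact hbc)) (by
        intro h
        have h2 := (hmem P hP false).1 h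
        simp only [cond_false] at h2
        rw [hPc] at h2
        linarith) f hpair
    have hi1 : Integrable (fun o => |C.cr (f true) X Y o|) C.μ := (C.integrable_cr hl1 hX hY hr).abs
    have hi2 : Integrable (fun o => |C.cr (f false) X Y o|) C.μ := (C.integrable_cr hl2 hX hY hr).abs
    have hFb : F b = F a + (b - a) * C.JJ X Y f := by
      have h1 : F b = ∫ o, (|C.cr (fun x => clamp a (ψ x)) X Y o| + (b - a) *
          (|C.cr (f true) X Y o| + |C.cr (f false) X Y o|)) ∂C.μ :=
        integral_congr_ae (ae_band C hψ ha hab X Y)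
      have hi3 : Integrable (fun o => (b - a) * (|C.cr (f true) X Y o| + |C.cr (f false) X Y o|)) C.μ :=
        (hi1.add hi2).const_mul (b - a)
      rw [h1, integral_add (hint a) hi3, integral_const_mul]
      rfl
    have hba : 0 < b - a := by linarith
    have h3 : 2 * Real.pi * (b - a) ≤ (b - a) * C.JJ X Y f := by
      rw [mul_comm]
      exact mul_le_mul_of_nonneg_left hJ hba.le
    linarith
  -- step 2
  have step2 : ∀ n : ℕ, ∀ a b : ℝ, 0 ≤ a → a ≤ b → b ≤ c →
      (Z.filter (fun z => a < |ψ z| ∧ |ψ z| < b)).card ≤ n →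
      2 * Real.pi * (b - a) ≤ F b - F a := by
    intro n
    induction n with
    | zero =>
      intro a b ha hab hbc hn
      rcases hab.eq_or_lt with h | h
      · rw [h]
        simp
      · apply step1 a b ha h hbc
        intro z hz hz2
        have h2 : z ∈ Z.filter (fun z => a < |ψ z| ∧ |ψ z| < b) := Finset.mem_filter.2 ⟨hz, hz2⟩
        have h3 := Finset.card_pos.2 ⟨z, h2⟩
        omega
    | succ n ih =>
      intro a b ha hab hbc hn
      rcases hab.eq_or_lt with h | h
      · rw [h]
        simp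
      · by_cases hex : ∃ z ∈ Z, a < |ψ z| ∧ |ψ z| < b
        · obtain ⟨z, hz, hz1, hz2⟩ := hex
          have hzm : z ∈ Z.filter (fun z => a < |ψ z| ∧ |ψ z| < b) :=
            Finset.mem_filter.2 ⟨hz, hz1, hz2⟩
          have hc1 : (Z.filter (fun w => a < |ψ w| ∧ |ψ w| < |ψ z|)).card ≤ n := by
            have hlt : (Z.filter (fun w => a < |ψ w| ∧ |ψ w| < |ψ z|)).card <
                (Z.filter (fun z => a < |ψ z| ∧ |ψ z| < b)).card := by
              apply Finset.card_lt_card
              refine ⟨?_, ?_⟩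
              · intro w hw
                rw [Finset.mem_filter] at hw ⊢
                exact ⟨hw.1, hw.2.1, hw.2.2.trans hz2⟩
              · intro hsub
                have h4 := hsub hzm
                rw [Finset.mem_filter] at h4
                exact absurd h4.2.2 (lt_irrefl _)
            omega
          have hc2 : (Z.filter (fun w => |ψ z| < |ψ w| ∧ |ψ w| < b)).card ≤ n := by
            have hlt : (Z.filter (fun w => |ψ z| < |ψ w| ∧ |ψ w| < b)).card <
                (Z.filter (fun z => a < |ψ z| ∧ |ψ z| < b)).card := by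
              apply Finset.card_lt_card
              refine ⟨?_, ?_⟩
              · intro w hw
                rw [Finset.mem_filter] at hw ⊢
                exact ⟨hw.1, hz1.trans hw.2.1, hw.2.2⟩
              · intro hsub
                have h4 := hsub hzm
                rw [Finset.mem_filter] at h4
                exact absurd h4.2.1 (lt_irrefl _)
            omega
          have h5 := ih a |ψ z| ha hz1.le (hz2.le.trans hbc) hc1
          have h6 := ih |ψ z| b (ha.trans hz1.le) hz2.le hbc hc2
          linarith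
        · apply step1 a b ha h hbc
          intro z hz hz2
          exact hex ⟨z, hz, hz2⟩
  -- step 3
  have h0 : F 0 = 0 := by
    have h1 : (fun x => clamp 0 (ψ x)) = (fun _ : M => (0 : ℝ)) := by
      funext x
      exact BNB_clamp_zero _
    simp only [hF, h1, C.cr_const, abs_zero, integral_zero]
  have hcF : F c ≤ ∫ o, |C.cr ψ X Y o| ∂C.μ :=
    integral_mono_ae (hint c) (C.integrable_cr hψ hX hY hr).abs (ae_clamp_le C hψ hc X Y)
  have h7 := step2 _ 0 c le_rfl hc le_rfl le_rfl
  rw [h0] at h7
  linarith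

end Pool.Agent.EWD
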