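import Mathlib
import Pool.Agent.EWD.Defs
import Pool.Agent.EWD.LPA

/-
CUA: pairs exist; operations on pairs.  [about 140 lines, elementary]

`exists_pair`. The range of `γ` is compact (`γ` is continuous and `2π`-periodic: it is the image of
`[0, 2π]`) and does not meet the finite set `Z`, so some `r > 0` satisfies `r ≤ dist z (γ t)` for all
`z ∈ Z`, `t`, and `r ≤ dist z z'` for `z ≠ z'` in `Z`. Put `f i x = ∑ over (z, j) ∈ S, j = i, z ∈ Z of
max 0 (1 - dist x z / r')` with `r' = r/2` (at most one term is nonzero), or the supremum of these terms,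
or: `f i x = max 0 (1 - infDist x {z ∈ Z | (z, i) ∈ S} / r)` (and 0 if this set is empty). It is 0 on
the range of `γ`, so `glue` holds.
`union`, `inter`, `compl`, `swap`: pointwise max, min, `1 - f`, exchange of the two functions;
`glue` for the exchange uses `f true (γ (t + 2π)) = f true (γ t)`.
-/

open MeasureTheory Set Filter Topology
open scoped ENNReal NNReal

namespace Pool.Agent.EWD

variable {M : Type} [MetricSpace M] {γ : ℝ → M}

private theorem CUA_fin {ι : Type} (s : Finset ι) (g : ι → ℝ) (h : ∀ i ∈ s, 0 < g i) :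
    ∃ r : ℝ, 0 < r ∧ ∀ i ∈ s, r ≤ g i := by
  classical
  induction s using Finset.induction_on with
  | empty => exact ⟨1, one_pos, fun i hi => absurd hi (Finset.notMem_empty i)⟩
  | insert j t hj ih =>
    obtain ⟨r, hr, h1⟩ := ih fun i hi => h i (Finset.mem_insert_of_mem hi)
    refine ⟨min r (g j), lt_min hr (h j (Finset.mem_insert_self j t)), fun i hi => ?_⟩
    rcases Finset.mem_insert.1 hi with rfl | hi
    · exact min_le_right _ _
    · exact (min_le_left _ _).trans (h1 i hi)

theorem exists_pair [CompactSpace M] (hγ : Bd γ) {Z : Finset M} (hZ : ∀ z ∈ Z, ∀ t, γ t ≠ z)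
    (S : Finset (M × Bool)) : ∃ f, Pair γ Z S f := by
  classical
  have hper : Function.Periodic γ (2 * Real.pi) := hγ.per
  have hK : IsCompact (range γ) := hper.compact_of_continuous (by positivity) hγ.lip.continuous
  have hpos : ∀ z ∈ Z, 0 < Metric.infDist z (range γ) := by
    intro z hz
    refine (hK.isClosed.notMem_iff_infDist_pos (range_nonempty γ)).1 ?_
    rintro ⟨t, ht⟩
    exact hZ z hz t ht
  obtain ⟨r1, hr1, h1⟩ := CUA_fin Z (fun z => Metric.infDist z (range γ)) hpos
  obtain ⟨r2, hr2, h2⟩ := CUA_fin (Z ×ˢ Z) (fun p => if p.1 = p.2 then 1 else dist p.1 p.2) (by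
    intro p _
    by_cases hp : p.1 = p.2
    · simp [hp]
    · simp [hp])
  obtain ⟨r, hr, hra, hrb⟩ : ∃ r : ℝ, 0 < r ∧ r ≤ r1 ∧ r ≤ r2 :=
    ⟨min r1 r2, lt_min hr1 hr2, min_le_left _ _, min_le_right _ _⟩
  obtain ⟨T, hT⟩ : ∃ T : Bool → Set M, ∀ i z, z ∈ T i ↔ z ∈ Z ∧ (z, i) ∈ S :=
    ⟨fun i => {z | z ∈ Z ∧ (z, i) ∈ S}, fun i z => Iff.rfl⟩
  obtain ⟨f, hf0, hf1⟩ : ∃ f : Bool → M → ℝ, (∀ i, ¬ (T i).Nonempty → f i = fun _ => 0) ∧
      (∀ i, (T i).Nonempty → f i = fun x => max 0 (1 - r⁻¹ * Metric.infDist x (T i))) := by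
    refine ⟨fun i => if (T i).Nonempty then fun x => max 0 (1 - r⁻¹ * Metric.infDist x (T i))
      else fun _ => 0, fun i hi => if_neg hi, fun i hi => if_pos hi⟩
  have hfar : ∀ i x, (∀ y ∈ T i, r ≤ dist x y) → f i x = 0 := by
    intro i x hx
    by_cases hi : (T i).Nonempty
    · rw [hf1 i hi]
      have h3 : r ≤ Metric.infDist x (T i) := (Metric.le_infDist hi).2 fun y hy => hx y hy
      have h4 : 1 ≤ r⁻¹ * Metric.infDist x (T i) := by
        calc (1 : ℝ) = r⁻¹ * r := (inv_mul_cancel₀ hr.ne').symm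
          _ ≤ _ := mul_le_mul_of_nonneg_left h3 (inv_nonneg.2 hr.le)
      exact max_eq_left (by linarith)
    · rw [hf0 i hi]
  have hbd : ∀ i t, f i (γ t) = 0 := by
    intro i t
    refine hfar i (γ t) fun y hy => ?_
    have h3 := h1 y ((hT i y).1 hy).1
    have h4 : Metric.infDist y (range γ) ≤ dist y (γ t) := Metric.infDist_le_dist_of_mem ⟨t, rfl⟩
    rw [dist_comm]
    linarith
  refine ⟨f, fun i => ?_, fun i x => ?_, fun t => ?_, fun z hz i hS => ?_, fun z hz i hS => ?_⟩
  · by_cases hi : (T i).Nonempty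
    · rw [hf1 i hi]
      have h3 : Lip (fun x => Metric.infDist x (T i)) := ⟨1, Metric.lipschitz_infDist_pt _⟩
      exact (lip_const 0).max ((lip_const 1).sub (h3.const_mul r⁻¹))
    · rw [hf0 i hi]
      exact lip_const 0
  · by_cases hi : (T i).Nonempty
    · rw [hf1 i hi]
      refine ⟨le_max_left _ _, max_le zero_le_one ?_⟩
      have h3 : 0 ≤ r⁻¹ * Metric.infDist x (T i) :=
        mul_nonneg (inv_nonneg.2 hr.le) Metric.infDist_nonneg
      linarith
    · rw [hf0 i hi]
      exact ⟨le_rfl, zero_le_one⟩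
  · rw [hbd, hbd]
  · have hz' : z ∈ T i := (hT i z).2 ⟨hz, hS⟩
    rw [hf1 i ⟨z, hz'⟩]
    simp only
    rw [Metric.infDist_zero_of_mem hz']
    simp
  · refine hfar i z fun y hy => ?_
    have hy' := (hT i y).1 hy
    have hne : z ≠ y := by
      rintro rfl
      exact hS hy'.2
    have h3 := h2 (z, y) (Finset.mk_mem_product hz hy'.1)
    simp only [if_neg hne] at h3
    linarith

open Classical in
theorem Pair.union {Z : Finset M} {S T : Finset (M × Bool)} {f g : Bool → M → ℝ}
    (hf : Pair γ Z S f) (hg : Pair γ Z T g) :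
    Pair γ Z (S ∪ T) (fun i x => max (f i x) (g i x)) := by
  refine ⟨fun i => (hf.lip i).max (hg.lip i), fun i x => ?_, fun t => ?_, fun z hz i hS => ?_,
    fun z hz i hS => ?_⟩
  · exact ⟨(hf.rng i x).1.trans (le_max_left _ _), max_le (hf.rng i x).2 (hg.rng i x).2⟩
  · rw [hf.glue, hg.glue]
  · rcases Finset.mem_union.1 hS with h | h
    · rw [hf.one z hz i h]
      exact max_eq_left (hg.rng i z).2
    · rw [hg.one z hz i h]
      exact max_eq_right (hf.rng i z).2
  · rw [Finset.mem_union, not_or] at hS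
    rw [hf.zero z hz i hS.1, hg.zero z hz i hS.2]
    exact max_self 0

open Classical in
theorem Pair.inter {Z : Finset M} {S T : Finset (M × Bool)} {f g : Bool → M → ℝ}
    (hf : Pair γ Z S f) (hg : Pair γ Z T g) :
    Pair γ Z (S ∩ T) (fun i x => min (f i x) (g i x)) := by
  refine ⟨fun i => (hf.lip i).min (hg.lip i), fun i x => ?_, fun t => ?_, fun z hz i hS => ?_,
    fun z hz i hS => ?_⟩
  · exact ⟨le_min (hf.rng i x).1 (hg.rng i x).1, (min_le_left _ _).trans (hf.rng i x).2⟩
  · rw [hf.glue, hg.glue]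
  · rw [Finset.mem_inter] at hS
    rw [hf.one z hz i hS.1, hg.one z hz i hS.2]
    exact min_self 1
  · by_cases h : (z, i) ∈ S
    · have h' : (z, i) ∉ T := fun h' => hS (Finset.mem_inter.2 ⟨h, h'⟩)
      rw [hg.zero z hz i h']
      exact min_eq_right (hf.rng i z).1
    · rw [hf.zero z hz i h]
      exact min_eq_left (hg.rng i z).1

open Classical in
theorem Pair.compl {Z : Finset M} {S : Finset (M × Bool)} {f : Bool → M → ℝ}
    (hf : Pair γ Z S f) : Pair γ Z (VV Z \ S) (fun i x => 1 - f i x) := by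
  refine ⟨fun i => (lip_const 1).sub (hf.lip i), fun i x => ?_, fun t => ?_, fun z hz i hS => ?_,
    fun z hz i hS => ?_⟩
  · have h := hf.rng i x
    exact ⟨by linarith [h.2], by linarith [h.1]⟩
  · rw [hf.glue]
  · rw [Finset.mem_sdiff] at hS
    rw [hf.zero z hz i hS.2]
    ring
  · have h : (z, i) ∈ S := by
      by_contra h
      refine hS (Finset.mem_sdiff.2 ⟨?_, h⟩)
      exact Finset.mk_mem_product hz (Finset.mem_univ i)
    rw [hf.one z hz i h]
    ring

private theorem CUA_sw {Z : Finset M} (S : Finset (M × Bool)) [DecidableEq (M × Bool)] (z : M)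
    (i : Bool) : (z, i) ∈ S.image sw ↔ (z, !i) ∈ S := by
  rw [Finset.mem_image]
  constructor
  · rintro ⟨⟨y, j⟩, hy, he⟩
    simp only [sw, Prod.mk.injEq] at he
    obtain ⟨rfl, rfl⟩ := he
    simpa using hy
  · intro h
    exact ⟨(z, !i), h, by simp [sw]⟩

open Classical in
theorem Pair.swap (hγ : Bd γ) {Z : Finset M} {S : Finset (M × Bool)} {f : Bool → M → ℝ}
    (hf : Pair γ Z S f) : Pair γ Z (S.image sw) (fun i x => f (!i) x) := by
  refine ⟨fun i => hf.lip (!i), fun i x => hf.rng (!i) x, fun t => ?_, fun z hz i hS => ?_,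
    fun z hz i hS => ?_⟩
  · have h1 := hf.glue (t + Real.pi)
    have h2 : t + Real.pi + Real.pi = t + 2 * Real.pi := by ring
    rw [h2, hγ.per] at h1
    simpa using h1.symm
  · exact hf.one z hz (!i) ((CUA_sw (Z := Z) S z i).1 hS)
  · exact hf.zero z hz (!i) fun h => hS ((CUA_sw (Z := Z) S z i).2 h)

end Pool.Agent.EWD
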