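import Mathlib
import Pool.Agent.EWD.Defs
import Pool.Agent.EWD.LPA
import Pool.Agent.EWD.RUL
import Pool.Agent.EWD.CRB

/-
CUB: submodularity of the capacity of pairs.  [about 120 lines]

(1) `ae_max_min`: for Lipschitz `f, g`, for a.e. `o`: either `gx`, `gy` of `max f g`, `min f g` are those of
`f`, `g` (in this order) or those of `g`, `f` (in this order). Take `o` such that `f, g, max, min` and
`|f - g|` are all differentiable along both curves (`ae_has`). If `f(pt) > g(pt)` then `max = f`, `min = g`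
near 0 along the curves (the curves `s ↦ f (px o s)` are continuous at 0), similarly for `<`.
If `f(pt) = g(pt)`: `D(s) = f - g` along the curve has `D(0) = 0` and `|D|` is differentiable at 0 with a
minimum there, so its derivative is 0; hence `D(s)/s → 0` and `D'(0) = 0`. Now
`max = (f + g + |D|)/2`, `min = (f + g - |D|)/2` have derivative `(f' + g')/2 = f' = g'`.
(2) so `|cr max| + |cr min| = |cr f| + |cr g|` a.e. (`cr ψ` depends only on `gx ψ o`, `gy ψ o`).
(3) integrate (all four are integrable: `integrable_cr`, `Lip.max`, `Lip.min`); sum over `i`.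
-/

open MeasureTheory Set Filter Topology
open scoped ENNReal NNReal

namespace Pool.Agent.EWD

variable {M : Type} [MetricSpace M] {γ : ℝ → M} (C : Calc M γ)

private theorem CUB_gt {F G : ℝ → ℝ} {F' G' m1 m2 : ℝ} (hF : HasDerivAt F F' 0)
    (hG : HasDerivAt G G' 0) (h1 : HasDerivAt (fun s => max (F s) (G s)) m1 0)
    (h2 : HasDerivAt (fun s => min (F s) (G s)) m2 0) (h : G 0 < F 0) : m1 = F' ∧ m2 = G' := by
  have hev : ∀ᶠ s in 𝓝 (0 : ℝ), G s < F s :=
    (hG.continuousAt.tendsto).eventually_lt (hF.continuousAt.tendsto) h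
  constructor
  · refine h1.unique (hF.congr_of_eventuallyEq ?_)
    filter_upwards [hev] with s hs
    exact max_eq_left hs.le
  · refine h2.unique (hG.congr_of_eventuallyEq ?_)
    filter_upwards [hev] with s hs
    exact min_eq_right hs.le

private theorem CUB_lt {F G : ℝ → ℝ} {F' G' m1 m2 : ℝ} (hF : HasDerivAt F F' 0)
    (hG : HasDerivAt G G' 0) (h1 : HasDerivAt (fun s => max (F s) (G s)) m1 0)
    (h2 : HasDerivAt (fun s => min (F s) (G s)) m2 0) (h : F 0 < G 0) : m1 = G' ∧ m2 = F' := by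
  have hev : ∀ᶠ s in 𝓝 (0 : ℝ), F s < G s :=
    (hF.continuousAt.tendsto).eventually_lt (hG.continuousAt.tendsto) h
  constructor
  · refine h1.unique (hG.congr_of_eventuallyEq ?_)
    filter_upwards [hev] with s hs
    exact max_eq_right hs.le
  · refine h2.unique (hF.congr_of_eventuallyEq ?_)
    filter_upwards [hev] with s hs
    exact min_eq_left hs.le

private theorem CUB_eq {F G : ℝ → ℝ} {F' G' m1 m2 : ℝ} (hF : HasDerivAt F F' 0)
    (hG : HasDerivAt G G' 0) (h1 : HasDerivAt (fun s => max (F s) (G s)) m1 0)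
    (h2 : HasDerivAt (fun s => min (F s) (G s)) m2 0) (h : F 0 = G 0) : m1 = F' ∧ m2 = G' := by
  have hA : HasDerivAt (fun s => max (F s) (G s) - min (F s) (G s)) (m1 - m2) 0 := h1.sub h2
  have hS : HasDerivAt (fun s => max (F s) (G s) + min (F s) (G s)) (m1 + m2) 0 := h1.add h2
  have hS' : HasDerivAt (fun s => max (F s) (G s) + min (F s) (G s)) (F' + G') 0 := by
    refine (hF.add hG).congr_of_eventuallyEq (Eventually.of_forall fun s => ?_)
    exact max_add_min _ _
  have hsum : m1 + m2 = F' + G' := hS.unique hS'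
  have hmin : IsLocalMin (fun s => max (F s) (G s) - min (F s) (G s)) 0 := by
    refine Eventually.of_forall fun s => ?_
    have e0 : max (F 0) (G 0) - min (F 0) (G 0) = 0 := by simp [h]
    change max (F 0) (G 0) - min (F 0) (G 0) ≤ max (F s) (G s) - min (F s) (G s)
    rw [e0]
    exact sub_nonneg.2 (min_le_max)
  have hz : m1 - m2 = 0 := hmin.hasDerivAt_eq_zero hA
  have hA0 : HasDerivAt (fun s => max (F s) (G s) - min (F s) (G s)) 0 0 := by
    rw [hz] at hA
    exact hA
  have hD : HasDerivAt (fun s => F s - G s) 0 0 := by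
    rw [hasDerivAt_iff_isLittleO] at hA0 ⊢
    refine Asymptotics.IsLittleO.congr_left (f₁ := fun s => F s - G s) ?_ ?_
    · rw [← Asymptotics.isLittleO_norm_left]
      refine hA0.congr_left fun s => ?_
      have e0 : max (F 0) (G 0) - min (F 0) (G 0) = 0 := by simp [h]
      rw [e0, max_sub_min_eq_abs']
      simp
    · intro s
      simp [h]
  have hd : F' - G' = 0 := (hF.sub hG).unique hD
  constructor <;> linarith

private theorem CUB_cr (u w : M → ℝ) (X Y : M → ℝ) (o : Om) (h : C.gx u o = C.gx w o)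
    (h' : C.gy u o = C.gy w o) : C.cr u X Y o = C.cr w X Y o := by
  unfold Calc.cr
  rw [h, h']

theorem ae_max_min {f g : M → ℝ} (hf : Lip f) (hg : Lip g) (X Y : M → ℝ) : ∀ᵐ o ∂C.μ,
    |C.cr (fun x => max (f x) (g x)) X Y o| + |C.cr (fun x => min (f x) (g x)) X Y o|
      = |C.cr f X Y o| + |C.cr g X Y o| := by
  filter_upwards [C.ae_has hf, C.ae_has hg, C.ae_has (hf.max hg), C.ae_has (hf.min hg)]
    with o h1 h2 h3 h4
  have hs : C.py o 0 = C.px o 0 := C.same o
  rcases lt_trichotomy (f (C.px o 0)) (g (C.px o 0)) with h | h | h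
  · have hx := CUB_lt h1.1 h2.1 h3.1 h4.1 h
    have hy := CUB_lt h1.2 h2.2 h3.2 h4.2 (by rw [hs]; exact h)
    rw [CUB_cr C (fun x => max (f x) (g x)) g X Y o hx.1 hy.1,
      CUB_cr C (fun x => min (f x) (g x)) f X Y o hx.2 hy.2]
    ring
  · have hx := CUB_eq h1.1 h2.1 h3.1 h4.1 h
    have hy := CUB_eq h1.2 h2.2 h3.2 h4.2 (by rw [hs]; exact h)
    rw [CUB_cr C (fun x => max (f x) (g x)) f X Y o hx.1 hy.1,
      CUB_cr C (fun x => min (f x) (g x)) g X Y o hx.2 hy.2]
  · have hx := CUB_gt h1.1 h2.1 h3.1 h4.1 h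
    have hy := CUB_gt h1.2 h2.2 h3.2 h4.2 (by rw [hs]; exact h)
    rw [CUB_cr C (fun x => max (f x) (g x)) f X Y o hx.1 hy.1,
      CUB_cr C (fun x => min (f x) (g x)) g X Y o hx.2 hy.2]

theorem JJ_max_min {X Y : M → ℝ} (hX : Lip X) (hY : Lip Y) (hr : Integrable (C.rot X Y) C.μ)
    {f g : Bool → M → ℝ} (hf : ∀ i, Lip (f i)) (hg : ∀ i, Lip (g i)) :
    C.JJ X Y (fun i x => max (f i x) (g i x)) + C.JJ X Y (fun i x => min (f i x) (g i x))
      = C.JJ X Y f + C.JJ X Y g := by
  have i1 : ∀ i, Integrable (fun o => |C.cr (fun x => max (f i x) (g i x)) X Y o|) C.μ :=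
    fun i => (C.integrable_cr ((hf i).max (hg i)) hX hY hr).abs
  have i2 : ∀ i, Integrable (fun o => |C.cr (fun x => min (f i x) (g i x)) X Y o|) C.μ :=
    fun i => (C.integrable_cr ((hf i).min (hg i)) hX hY hr).abs
  have i3 : ∀ i, Integrable (fun o => |C.cr (f i) X Y o|) C.μ :=
    fun i => (C.integrable_cr (hf i) hX hY hr).abs
  have i4 : ∀ i, Integrable (fun o => |C.cr (g i) X Y o|) C.μ :=
    fun i => (C.integrable_cr (hg i) hX hY hr).abs
  have e1 : C.JJ X Y (fun i x => max (f i x) (g i x)) + C.JJ X Y (fun i x => min (f i x) (g i x))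
      = ∫ o, ((|C.cr (fun x => max (f true x) (g true x)) X Y o|
        + |C.cr (fun x => max (f false x) (g false x)) X Y o|)
        + (|C.cr (fun x => min (f true x) (g true x)) X Y o|
        + |C.cr (fun x => min (f false x) (g false x)) X Y o|)) ∂C.μ :=
    (integral_add ((i1 true).add (i1 false)) ((i2 true).add (i2 false))).symm
  have e2 : C.JJ X Y f + C.JJ X Y g
      = ∫ o, ((|C.cr (f true) X Y o| + |C.cr (f false) X Y o|)
        + (|C.cr (g true) X Y o| + |C.cr (g false) X Y o|)) ∂C.μ :=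
    (integral_add ((i3 true).add (i3 false)) ((i4 true).add (i4 false))).symm
  rw [e1, e2]
  refine integral_congr_ae ?_
  filter_upwards [ae_max_min C (hf true) (hg true) X Y, ae_max_min C (hf false) (hg false) X Y]
    with o h1 h2
  linarith

end Pool.Agent.EWD
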