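import Mathlib
import Pool.Agent.EWD.Defs
import Pool.Agent.EWD.LPA
import Pool.Agent.EWD.RUL
import Pool.Agent.EWD.CRB

/-
SVA: the regularised Stokes formula.  [about 120 lines]

Fix `ε > 0` and let `h = 1/(q + ε²)`, `q = X² + Y²` (Lipschitz, `Lip.div`). Apply `C.stokes` to the pairs
`(ψ h X, Y)` and `(ψ h Y, X)` and subtract. Almost everywhere (product rule `ae_mul`, and the
derivative of `h`: `∇h = - h² ∇q`, `∇q = 2 X ∇X + 2 Y ∇Y`)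
 `∇(ψ h X) ∧ ∇Y - ∇(ψ h Y) ∧ ∇X = h ∇ψ ∧ (X ∇Y - Y ∇X) + ψ (∇h ∧ (X ∇Y - Y ∇X) + 2 h ∇X ∧ ∇Y)`,
 `∇h ∧ (X ∇Y - Y ∇X) = - 2 h² q ∇X ∧ ∇Y`, and `2 h - 2 h² q = 2 ε² h²`.
Finally `h ∇ψ ∧ T = (q/(q + ε²)) cr ψ X Y` (if `q = 0` then `X = Y = 0` and `T = 0`).
The boundary side: `sg (∫ ψ h X Y' - ∫ ψ h Y X')`, the two integrands are interval integrable
(bounded, measurable).
-/

open MeasureTheory Set Filter Topology
open scoped ENNReal NNReal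

namespace Pool.Agent.EWD

variable {M : Type} [MetricSpace M] [CompactSpace M] {γ : ℝ → M} (C : Calc M γ)

private theorem sva_integrable_wed {u w : M → ℝ} (hu : Lip u) (hw : Lip w) :
    Integrable (fun o => C.gx u o * C.gy w o - C.gy u o * C.gx w o) C.μ := by
  obtain ⟨L, hL⟩ := hu
  obtain ⟨K, hK⟩ := hw
  have hu : Lip u := ⟨L, hL⟩
  have hw : Lip w := ⟨K, hK⟩
  refine Calc.integrable_of_bdd C (B := 2 * ((L : ℝ) * K)) ?_ ?_
  · exact ((Calc.meas_gx C hu).mul (Calc.meas_gy C hw)).sub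
      ((Calc.meas_gy C hu).mul (Calc.meas_gx C hw))
  · filter_upwards [Calc.ae_grad_le C hL, Calc.ae_grad_le C hK] with o h1 h2
    have e1 : |C.gx u o| ≤ L := abs_le_of_sq_le_sq (by nlinarith [sq_nonneg (C.gy u o)]) L.2
    have e2 : |C.gy u o| ≤ L := abs_le_of_sq_le_sq (by nlinarith [sq_nonneg (C.gx u o)]) L.2
    have e3 : |C.gx w o| ≤ K := abs_le_of_sq_le_sq (by nlinarith [sq_nonneg (C.gy w o)]) K.2
    have e4 : |C.gy w o| ≤ K := abs_le_of_sq_le_sq (by nlinarith [sq_nonneg (C.gx w o)]) K.2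
    have f1 : |C.gx u o * C.gy w o| ≤ (L : ℝ) * K := by
      rw [abs_mul]
      exact mul_le_mul e1 e4 (abs_nonneg _) L.2
    have f2 : |C.gy u o * C.gx w o| ≤ (L : ℝ) * K := by
      rw [abs_mul]
      exact mul_le_mul e2 e3 (abs_nonneg _) L.2
    calc |C.gx u o * C.gy w o - C.gy u o * C.gx w o|
        ≤ |C.gx u o * C.gy w o| + |C.gy u o * C.gx w o| := abs_sub _ _
      _ ≤ 2 * ((L : ℝ) * K) := by linarith

private theorem sva_bd {γ : ℝ → M} (hγ : LipschitzWith 1 γ) {u w : M → ℝ} (hu : Lip u) (hw : Lip w) :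
    IntervalIntegrable (fun t => u (γ t) * deriv (fun s => w (γ s)) t) volume 0 (2 * Real.pi) := by
  obtain ⟨B, hB0, hB⟩ := hu.bdd
  obtain ⟨K, hK⟩ := hw
  have hKl : LipschitzWith (K * 1) (fun s => w (γ s)) := hK.comp hγ
  have hd : ∀ t, ‖deriv (fun s => w (γ s)) t‖ ≤ K := by
    intro t
    have := norm_deriv_le_of_lipschitz (x₀ := t) hKl
    simpa using this
  rw [intervalIntegrable_iff]
  refine MeasureTheory.Measure.integrableOn_of_bounded (M := B * K) ?_ ?_ ?_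
  · simp [Set.uIoc]
  · refine AEStronglyMeasurable.mul ?_ ?_
    · exact (hu.cont.comp hγ.continuous).aestronglyMeasurable
    · exact (measurable_deriv _).aestronglyMeasurable
  · refine Filter.Eventually.of_forall fun t => ?_
    rw [norm_mul]
    refine mul_le_mul ?_ (hd t) (norm_nonneg _) hB0
    rw [Real.norm_eq_abs]
    exact hB _

private theorem sva_alg (x y p e xa xb ya yb pa pb : ℝ) (he : 0 < e) :
    ((p * (1 / (x ^ 2 + y ^ 2 + e ^ 2)) * xa + x * (p * (-(1 / (x ^ 2 + y ^ 2 + e ^ 2) ^ 2) * (2 * x * xa + 2 * y * ya))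
        + 1 / (x ^ 2 + y ^ 2 + e ^ 2) * pa)) * yb
      - (p * (1 / (x ^ 2 + y ^ 2 + e ^ 2)) * xb + x * (p * (-(1 / (x ^ 2 + y ^ 2 + e ^ 2) ^ 2) * (2 * x * xb + 2 * y * yb))
        + 1 / (x ^ 2 + y ^ 2 + e ^ 2) * pb)) * ya)
    - ((p * (1 / (x ^ 2 + y ^ 2 + e ^ 2)) * ya + y * (p * (-(1 / (x ^ 2 + y ^ 2 + e ^ 2) ^ 2) * (2 * x * xa + 2 * y * ya))
        + 1 / (x ^ 2 + y ^ 2 + e ^ 2) * pa)) * xb
      - (p * (1 / (x ^ 2 + y ^ 2 + e ^ 2)) * yb + y * (p * (-(1 / (x ^ 2 + y ^ 2 + e ^ 2) ^ 2) * (2 * x * xb + 2 * y * yb))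
        + 1 / (x ^ 2 + y ^ 2 + e ^ 2) * pb)) * xa)
    = (x ^ 2 + y ^ 2) / (x ^ 2 + y ^ 2 + e ^ 2) *
        ((pa * (x * yb - y * xb) - pb * (x * ya - y * xa)) / (x ^ 2 + y ^ 2))
      + p * (2 * e ^ 2 / (x ^ 2 + y ^ 2 + e ^ 2) ^ 2) * (xa * yb - xb * ya) := by
  have hW : 0 < x ^ 2 + y ^ 2 + e ^ 2 := by positivity
  have h1 : (x ^ 2 + y ^ 2) / (x ^ 2 + y ^ 2 + e ^ 2) *
        ((pa * (x * yb - y * xb) - pb * (x * ya - y * xa)) / (x ^ 2 + y ^ 2)) =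
        (pa * (x * yb - y * xb) - pb * (x * ya - y * xa)) / (x ^ 2 + y ^ 2 + e ^ 2) := by
    by_cases hq : x ^ 2 + y ^ 2 = 0
    · have hx : x = 0 := by nlinarith [sq_nonneg x, sq_nonneg y]
      have hy : y = 0 := by nlinarith [sq_nonneg x, sq_nonneg y]
      subst hx hy
      simp
    · field_simp
  rw [h1]
  field_simp
  ring

theorem stokes_eps (hγ : Bd γ) {ψ X Y : M → ℝ} (hψ : Lip ψ) (hX : Lip X) (hY : Lip Y) {ε : ℝ}
    (hε : 0 < ε) :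
    ∫ o, (qf X Y (C.pt o) / (qf X Y (C.pt o) + ε ^ 2)) * C.cr ψ X Y o ∂C.μ
      + ∫ o, ψ (C.pt o) * (2 * ε ^ 2 / (X (C.pt o) ^ 2 + Y (C.pt o) ^ 2 + ε ^ 2) ^ 2) *
        C.wed X Y o ∂C.μ
      = C.sg * ∫ t in (0 : ℝ)..(2 * Real.pi), ψ (γ t) *
        ((X (γ t) * deriv (fun s => Y (γ s)) t - Y (γ t) * deriv (fun s => X (γ s)) t) /
          (X (γ t) ^ 2 + Y (γ t) ^ 2 + ε ^ 2)) := by
  have hX2 : Lip (fun x => X x ^ 2) := hX.pow 2
  have hY2 : Lip (fun x => Y x ^ 2) := hY.pow 2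
  have hq : Lip (fun x => X x ^ 2 + Y x ^ 2) := hX2.add hY2
  have hW : Lip (fun x => X x ^ 2 + Y x ^ 2 + ε ^ 2) := hq.add (lip_const _)
  have hε2 : 0 < ε ^ 2 := by positivity
  have hWpos : ∀ x, ε ^ 2 ≤ X x ^ 2 + Y x ^ 2 + ε ^ 2 := fun x => by
    nlinarith [sq_nonneg (X x), sq_nonneg (Y x)]
  have hH : Lip (fun x => 1 / (X x ^ 2 + Y x ^ 2 + ε ^ 2)) := (lip_const 1).div hW hε2 hWpos
  have hψH : Lip (fun x => ψ x * (1 / (X x ^ 2 + Y x ^ 2 + ε ^ 2))) := hψ.mul hH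
  have hA : Lip (fun x => ψ x * (1 / (X x ^ 2 + Y x ^ 2 + ε ^ 2)) * X x) := hψH.mul hX
  have hB : Lip (fun x => ψ x * (1 / (X x ^ 2 + Y x ^ 2 + ε ^ 2)) * Y x) := hψH.mul hY
  have hW2 : Lip (fun x => (X x ^ 2 + Y x ^ 2 + ε ^ 2) ^ 2) := hW.pow 2
  have hk : Lip (fun x => ψ x * (2 * ε ^ 2 / (X x ^ 2 + Y x ^ 2 + ε ^ 2) ^ 2)) := by
    refine hψ.mul ((lip_const (2 * ε ^ 2)).div hW2 (c := (ε ^ 2) ^ 2) (by positivity) ?_)
    intro x
    have := hWpos x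
    nlinarith
  -- the two Stokes formulas
  have s1 := C.stokes _ _ hA hY
  have s2 := C.stokes _ _ hB hX
  have i1 := sva_integrable_wed C hA hY
  have i2 := sva_integrable_wed C hB hX
  have i3 := sva_integrable_wed C hX hY
  -- the second integrand is integrable
  have i4 : Integrable (fun o => ψ (C.pt o) * (2 * ε ^ 2 / (X (C.pt o) ^ 2 + Y (C.pt o) ^ 2 + ε ^ 2) ^ 2) *
        C.wed X Y o) C.μ := by
    obtain ⟨B, hB0, hBd⟩ := hk.bdd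
    refine Integrable.bdd_mul (c := B) i3 (Calc.meas_pt C hk).aestronglyMeasurable ?_
    refine Filter.Eventually.of_forall fun o => ?_
    rw [Real.norm_eq_abs]
    exact hBd _
  -- pointwise identity
  have key : ∀ᵐ o ∂C.μ,
      (C.gx (fun x => ψ x * (1 / (X x ^ 2 + Y x ^ 2 + ε ^ 2)) * X x) o * C.gy Y o
        - C.gy (fun x => ψ x * (1 / (X x ^ 2 + Y x ^ 2 + ε ^ 2)) * X x) o * C.gx Y o)
      - (C.gx (fun x => ψ x * (1 / (X x ^ 2 + Y x ^ 2 + ε ^ 2)) * Y x) o * C.gy X o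
        - C.gy (fun x => ψ x * (1 / (X x ^ 2 + Y x ^ 2 + ε ^ 2)) * Y x) o * C.gx X o)
      = (qf X Y (C.pt o) / (qf X Y (C.pt o) + ε ^ 2)) * C.cr ψ X Y o
        + ψ (C.pt o) * (2 * ε ^ 2 / (X (C.pt o) ^ 2 + Y (C.pt o) ^ 2 + ε ^ 2) ^ 2) * C.wed X Y o := by
    have d1 := Calc.ae_mul C hψH hX
    have d2 := Calc.ae_mul C hψH hY
    have d3 := Calc.ae_mul C hψ hH
    have d4 := Calc.ae_comp C hW (f := fun y => 1 / y) (f' := fun y => -(1 / y ^ 2)) (by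
      intro x
      have hne : X x ^ 2 + Y x ^ 2 + ε ^ 2 ≠ 0 := (lt_of_lt_of_le hε2 (hWpos x)).ne'
      have := hasDerivAt_inv hne
      simpa [one_div] using this)
    have d5 := Calc.ae_add C hq (lip_const (ε ^ 2))
    have d6 := Calc.ae_add C hX2 hY2
    have d7 := Calc.ae_comp C hX (f := fun y => y ^ 2) (f' := fun y => 2 * y) (by
      intro x
      simpa using hasDerivAt_pow 2 (X x))
    have d8 := Calc.ae_comp C hY (f := fun y => y ^ 2) (f' := fun y => 2 * y) (by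
      intro x
      simpa using hasDerivAt_pow 2 (Y x))
    filter_upwards [d1, d2, d3, d4, d5, d6, d7, d8] with o e1 e2 e3 e4 e5 e6 e7 e8
    have c0 := Calc.ae_const C (ε ^ 2) o
    have gW : C.gx (fun x => X x ^ 2 + Y x ^ 2 + ε ^ 2) o
        = 2 * X (C.pt o) * C.gx X o + 2 * Y (C.pt o) * C.gx Y o := by
      rw [e5.1, e6.1, e7.1, e8.1, c0.1, add_zero]
    have gW' : C.gy (fun x => X x ^ 2 + Y x ^ 2 + ε ^ 2) o
        = 2 * X (C.pt o) * C.gy X o + 2 * Y (C.pt o) * C.gy Y o := by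
      rw [e5.2, e6.2, e7.2, e8.2, c0.2, add_zero]
    rw [e1.1, e1.2, e2.1, e2.2, e3.1, e3.2, e4.1, e4.2, gW, gW']
    have := sva_alg (X (C.pt o)) (Y (C.pt o)) (ψ (C.pt o)) ε (C.gx X o) (C.gy X o) (C.gx Y o)
      (C.gy Y o) (C.gx ψ o) (C.gy ψ o) hε
    simp only [qf, Calc.cr, Calc.Tx, Calc.Ty, Calc.wed]
    exact this
  have i5 : Integrable (fun o => (qf X Y (C.pt o) / (qf X Y (C.pt o) + ε ^ 2)) * C.cr ψ X Y o) C.μ := by
    have h1 := (i1.sub i2).sub i4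
    refine h1.congr ?_
    filter_upwards [key] with o ho
    simp only [Pi.sub_apply]
    rw [ho]
    ring
  rw [← integral_add i5 i4]
  have e1 : ∫ o, ((qf X Y (C.pt o) / (qf X Y (C.pt o) + ε ^ 2)) * C.cr ψ X Y o
        + ψ (C.pt o) * (2 * ε ^ 2 / (X (C.pt o) ^ 2 + Y (C.pt o) ^ 2 + ε ^ 2) ^ 2) * C.wed X Y o) ∂C.μ
      = ∫ o, ((C.gx (fun x => ψ x * (1 / (X x ^ 2 + Y x ^ 2 + ε ^ 2)) * X x) o * C.gy Y o
        - C.gy (fun x => ψ x * (1 / (X x ^ 2 + Y x ^ 2 + ε ^ 2)) * X x) o * C.gx Y o)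
      - (C.gx (fun x => ψ x * (1 / (X x ^ 2 + Y x ^ 2 + ε ^ 2)) * Y x) o * C.gy X o
        - C.gy (fun x => ψ x * (1 / (X x ^ 2 + Y x ^ 2 + ε ^ 2)) * Y x) o * C.gx X o)) ∂C.μ := by
    refine integral_congr_ae ?_
    filter_upwards [key] with o ho
    exact ho.symm
  rw [e1, integral_sub i1 i2]
  have s1' : ∫ o, (C.gx (fun x => ψ x * (1 / (X x ^ 2 + Y x ^ 2 + ε ^ 2)) * X x) o * C.gy Y o
        - C.gy (fun x => ψ x * (1 / (X x ^ 2 + Y x ^ 2 + ε ^ 2)) * X x) o * C.gx Y o) ∂C.μ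
      = C.sg * ∫ t in (0 : ℝ)..(2 * Real.pi),
        (ψ (γ t) * (1 / (X (γ t) ^ 2 + Y (γ t) ^ 2 + ε ^ 2)) * X (γ t)) * deriv (fun s => Y (γ s)) t := s1
  have s2' : ∫ o, (C.gx (fun x => ψ x * (1 / (X x ^ 2 + Y x ^ 2 + ε ^ 2)) * Y x) o * C.gy X o
        - C.gy (fun x => ψ x * (1 / (X x ^ 2 + Y x ^ 2 + ε ^ 2)) * Y x) o * C.gx X o) ∂C.μ
      = C.sg * ∫ t in (0 : ℝ)..(2 * Real.pi),
        (ψ (γ t) * (1 / (X (γ t) ^ 2 + Y (γ t) ^ 2 + ε ^ 2)) * Y (γ t)) * deriv (fun s => X (γ s)) t := s2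
  rw [s1', s2', ← mul_sub, ← intervalIntegral.integral_sub (sva_bd hγ.lip hA hY) (sva_bd hγ.lip hB hX)]
  congr 1
  refine intervalIntegral.integral_congr fun t _ => ?_
  ring

end Pool.Agent.EWD
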