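import Mathlib
import Pool.Agent.EWD.Defs
import Pool.Agent.EWD.LPA

/-
WIN: the winding number along the boundary is odd.  [about 130 lines]

`P t = X (γ t)`, `Q t = Y (γ t)` are Lipschitz with `P (t + π) = - P t` etc., `r = P² + Q² > 0`, continuous
and `2π`-periodic (`hγ.per`), so `r ≥ c > 0`; `kap = (P Q' - Q P')/r` is measurable, bounded, and
`π`-periodic (derivative of `P (t + π) = - P t`).
Let `g t = ∫₀ᵗ kap` (Lipschitz, `g' = kap` a.e.). The functions
 `A = (P cos g + Q sin g)/√r`, `B = (Q cos g - P sin g)/√r` are Lipschitz on `[0, 2π]` and have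
derivative 0 almost everywhere, so they are constant
(`AbsolutelyContinuousOnInterval.integral_deriv_eq_sub`, `LipschitzOnWith.absolutelyContinuousOnInterval`).
With `A² + B² = 1`. Compare `t = 0` (`g = 0`) and `t = π` (`P π = - P 0`, `r π = r 0`): rotation by
`- g π` maps `-(P 0, Q 0)` to `(P 0, Q 0)`, so `cos (g π) = -1`, `g π = (2k+1) π`. As `kap` is `π`-periodic,
`∫₀^{2π} kap = 2 g π = 2π (2k+1)`.
-/

open MeasureTheory Set Filter Topology
open scoped ENNReal NNReal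

namespace Pool.Agent.EWD

variable {M : Type} [MetricSpace M] {γ : ℝ → M}

private theorem WIN_comp {f h : ℝ → ℝ} {a b : ℝ} {s : Set ℝ} {K : ℝ≥0}
    (hf : AbsolutelyContinuousOnInterval f a b) (hh : LipschitzOnWith K h s)
    (hs : ∀ x ∈ uIcc a b, f x ∈ s) : AbsolutelyContinuousOnInterval (fun x => h (f x)) a b := by
  rw [absolutelyContinuousOnInterval_iff] at hf ⊢
  intro ε hε
  obtain ⟨δ, hδ, H⟩ := hf (ε / (K + 1)) (by positivity)
  refine ⟨δ, hδ, fun E hE hd => ?_⟩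
  have h1 := H E hE hd
  have h2 : ∀ i ∈ Finset.range E.1, dist (h (f (E.2 i).1)) (h (f (E.2 i).2)) ≤
      ((K : ℝ) + 1) * dist (f (E.2 i).1) (f (E.2 i).2) := by
    intro i hi
    obtain ⟨m1, m2⟩ := hE.1 i hi
    have := hh.dist_le_mul _ (hs _ m1) _ (hs _ m2)
    nlinarith [dist_nonneg (x := f (E.2 i).1) (y := f (E.2 i).2)]
  calc _ ≤ ∑ i ∈ Finset.range E.1, ((K : ℝ) + 1) * dist (f (E.2 i).1) (f (E.2 i).2) :=
        Finset.sum_le_sum h2
    _ = ((K : ℝ) + 1) * ∑ i ∈ Finset.range E.1, dist (f (E.2 i).1) (f (E.2 i).2) := by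
        rw [Finset.mul_sum]
    _ < ((K : ℝ) + 1) * (ε / ((K : ℝ) + 1)) := by
        apply mul_lt_mul_of_pos_left h1
        positivity
    _ = ε := by
        have : ((K : ℝ) + 1) ≠ 0 := by positivity
        field_simp

private theorem WIN_lip (hγ : Bd γ) {X : M → ℝ} (hX : Lip X) :
    ∃ K : ℝ≥0, LipschitzWith K (fun t => X (γ t)) := by
  obtain ⟨L, hL⟩ := hX
  exact ⟨L * 1, hL.comp hγ.lip⟩

private theorem WIN_ac {f : ℝ → ℝ} {K : ℝ≥0} (hf : LipschitzWith K f) (a b : ℝ) :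
    AbsolutelyContinuousOnInterval f a b :=
  LipschitzOnWith.absolutelyContinuousOnInterval (hf.lipschitzOnWith)

omit [MetricSpace M] in
theorem kap_periodic {X Y : M → ℝ} (oX : OddB γ X) (oY : OddB γ Y) (t : ℝ) :
    kap γ X Y (t + Real.pi) = kap γ X Y t := by
  have key : ∀ {Z : M → ℝ}, OddB γ Z →
      deriv (fun s => Z (γ s)) (t + Real.pi) = -deriv (fun s => Z (γ s)) t := by
    intro Z oZ
    have h1 := deriv_comp_add_const (fun s => Z (γ s)) Real.pi t
    rw [← h1]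
    have h2 : (fun x => Z (γ (x + Real.pi))) = fun x => -(Z (γ x)) := funext fun x => oZ x
    rw [h2]
    exact deriv.fun_neg
  unfold kap
  rw [key oX, key oY, oX t, oY t]
  congr 1
  · ring
  · ring

theorem kap_integrable (hγ : Bd γ) {X Y : M → ℝ} (hX : Lip X) (hY : Lip Y)
    (hpos : ∀ t, 0 < X (γ t) ^ 2 + Y (γ t) ^ 2) (a b : ℝ) :
    IntervalIntegrable (kap γ X Y) volume a b := by
  obtain ⟨K, hK⟩ := WIN_lip hγ hX
  obtain ⟨L, hL⟩ := WIN_lip hγ hY
  have c1 : Continuous (fun t => X (γ t)) := hK.continuous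
  have c2 : Continuous (fun t => Y (γ t)) := hL.continuous
  have cr : Continuous (fun t => X (γ t) ^ 2 + Y (γ t) ^ 2) := (c1.pow 2).add (c2.pow 2)
  have i1 : IntervalIntegrable (deriv (fun s => X (γ s))) volume a b :=
    (WIN_ac hK a b).intervalIntegrable_deriv
  have i2 : IntervalIntegrable (deriv (fun s => Y (γ s))) volume a b :=
    (WIN_ac hL a b).intervalIntegrable_deriv
  have j2 : IntervalIntegrable (fun t => (X (γ t) / (X (γ t) ^ 2 + Y (γ t) ^ 2)) *
      deriv (fun s => Y (γ s)) t) volume a b :=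
    i2.continuousOn_mul ((c1.div cr (fun t => (hpos t).ne')).continuousOn)
  have j1 : IntervalIntegrable (fun t => (Y (γ t) / (X (γ t) ^ 2 + Y (γ t) ^ 2)) *
      deriv (fun s => X (γ s)) t) volume a b :=
    i1.continuousOn_mul ((c2.div cr (fun t => (hpos t).ne')).continuousOn)
  have := j2.sub j1
  refine this.congr ?_
  intro t _
  unfold kap
  simp only
  ring

private theorem WIN_deriv {P Q g : ℝ → ℝ} {t P' Q' : ℝ} (α β : ℝ) (hP : HasDerivAt P P' t)
    (hQ : HasDerivAt Q Q' t) (hr : 0 < P t ^ 2 + Q t ^ 2)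
    (hg : HasDerivAt g ((P t * Q' - Q t * P') / (P t ^ 2 + Q t ^ 2)) t) :
    HasDerivAt (fun s => (α * (P s * Real.cos (g s) + Q s * Real.sin (g s)) +
      β * (Q s * Real.cos (g s) - P s * Real.sin (g s))) * (√(P s ^ 2 + Q s ^ 2))⁻¹) 0 t := by
  have hc := hg.cos
  have hs := hg.sin
  have hrd : HasDerivAt (fun s => P s ^ 2 + Q s ^ 2) (2 * (P t * P' + Q t * Q')) t := by
    have := (hP.fun_pow 2).fun_add (hQ.fun_pow 2)
    refine this.congr_deriv ?_
    push_cast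
    ring
  have hS := hrd.sqrt hr.ne'
  have hS0 : √(P t ^ 2 + Q t ^ 2) ≠ 0 := (Real.sqrt_pos.2 hr).ne'
  have hI := hS.fun_inv hS0
  have h1 := (((hP.fun_mul hc).fun_add (hQ.fun_mul hs)).const_mul α).fun_add
    (((hQ.fun_mul hc).fun_sub (hP.fun_mul hs)).const_mul β)
  have h2 := h1.fun_mul hI
  refine h2.congr_deriv ?_
  have hsq : √(P t ^ 2 + Q t ^ 2) ^ 2 = P t ^ 2 + Q t ^ 2 := Real.sq_sqrt hr.le
  generalize hSS : √(P t ^ 2 + Q t ^ 2) = S at *
  rw [← hsq]
  generalize P t = p at *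
  generalize Q t = q at *
  generalize Real.cos (g t) = c at *
  generalize Real.sin (g t) = s at *
  field_simp
  linear_combination (α * (P' * c + s * Q') + β * (c * Q' - P' * s)) * hsq

theorem wind (hγ : Bd γ) {X Y : M → ℝ} (hX : Lip X) (hY : Lip Y) (oX : OddB γ X) (oY : OddB γ Y)
    (hpos : ∀ t, 0 < X (γ t) ^ 2 + Y (γ t) ^ 2) :
    ∃ k : ℤ, ∫ t in (0 : ℝ)..(2 * Real.pi), kap γ X Y t = 2 * Real.pi * (2 * k + 1) := by
  obtain ⟨K, hK⟩ := WIN_lip hγ hX
  obtain ⟨L, hL⟩ := WIN_lip hγ hY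
  have hki : ∀ a b, IntervalIntegrable (kap γ X Y) volume a b := kap_integrable hγ hX hY hpos
  have c1 : Continuous (fun t => X (γ t)) := hK.continuous
  have c2 : Continuous (fun t => Y (γ t)) := hL.continuous
  have cr : Continuous (fun t => X (γ t) ^ 2 + Y (γ t) ^ 2) := (c1.pow 2).add (c2.pow 2)
  set g : ℝ → ℝ := fun t => ∫ s in (0 : ℝ)..t, kap γ X Y s with hg
  have gac : AbsolutelyContinuousOnInterval g 0 Real.pi :=
    (hki 0 Real.pi).absolutelyContinuousOnInterval_intervalIntegral left_mem_uIcc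
  have pac : AbsolutelyContinuousOnInterval (fun t => X (γ t)) 0 Real.pi := WIN_ac hK _ _
  have qac : AbsolutelyContinuousOnInterval (fun t => Y (γ t)) 0 Real.pi := WIN_ac hL _ _
  have cac : AbsolutelyContinuousOnInterval (fun t => Real.cos (g t)) 0 Real.pi :=
    WIN_comp gac (Real.lipschitzWith_cos.lipschitzOnWith (s := univ)) (fun _ _ => mem_univ _)
  have sac : AbsolutelyContinuousOnInterval (fun t => Real.sin (g t)) 0 Real.pi :=
    WIN_comp gac (Real.lipschitzWith_sin.lipschitzOnWith (s := univ)) (fun _ _ => mem_univ _)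
  have rac : AbsolutelyContinuousOnInterval (fun t => X (γ t) ^ 2 + Y (γ t) ^ 2) 0 Real.pi := by
    have := (pac.mul pac).add (qac.mul qac)
    have e : (fun t => X (γ t) ^ 2 + Y (γ t) ^ 2) =
        (fun t => X (γ t)) * (fun t => X (γ t)) + (fun t => Y (γ t)) * (fun t => Y (γ t)) := by
      funext t
      simp only [Pi.add_apply, Pi.mul_apply]
      ring
    rw [e]
    exact this
  obtain ⟨x₀, hx₀, hmin⟩ := (isCompact_uIcc (a := (0 : ℝ)) (b := Real.pi)).exists_isMinOn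
    ⟨0, left_mem_uIcc⟩ cr.continuousOn
  obtain ⟨x₁, hx₁, hmax⟩ := (isCompact_uIcc (a := (0 : ℝ)) (b := Real.pi)).exists_isMaxOn
    ⟨0, left_mem_uIcc⟩ cr.continuousOn
  set lo : ℝ := X (γ x₀) ^ 2 + Y (γ x₀) ^ 2 with hlo
  set hi : ℝ := X (γ x₁) ^ 2 + Y (γ x₁) ^ 2 with hhi
  have lopos : 0 < lo := hpos x₀
  have hcd : ContDiffOn ℝ 1 (fun x : ℝ => (√x)⁻¹) (Icc lo hi) := by
    refine ContDiffOn.inv (ContDiffOn.sqrt contDiffOn_id ?_) ?_
    · intro x hx
      exact (lt_of_lt_of_le lopos hx.1).ne'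
    · intro x hx
      exact (Real.sqrt_pos.2 (lt_of_lt_of_le lopos hx.1)).ne'
  obtain ⟨W, hW⟩ := hcd.exists_lipschitzOnWith (by decide) (convex_Icc _ _) isCompact_Icc
  have iac : AbsolutelyContinuousOnInterval (fun t => (√(X (γ t) ^ 2 + Y (γ t) ^ 2))⁻¹)
      0 Real.pi :=
    WIN_comp (f := fun t => X (γ t) ^ 2 + Y (γ t) ^ 2) (h := fun x : ℝ => (√x)⁻¹)
      (s := Icc lo hi) rac hW (fun x hx => ⟨hmin hx, hmax hx⟩)
  have key : ∀ α β : ℝ, (α * (X (γ 0) * Real.cos (g 0) + Y (γ 0) * Real.sin (g 0)) +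
      β * (Y (γ 0) * Real.cos (g 0) - X (γ 0) * Real.sin (g 0))) *
        (√(X (γ 0) ^ 2 + Y (γ 0) ^ 2))⁻¹ =
      (α * (X (γ Real.pi) * Real.cos (g Real.pi) + Y (γ Real.pi) * Real.sin (g Real.pi)) +
      β * (Y (γ Real.pi) * Real.cos (g Real.pi) - X (γ Real.pi) * Real.sin (g Real.pi))) *
        (√(X (γ Real.pi) ^ 2 + Y (γ Real.pi) ^ 2))⁻¹ := by
    intro α β
    have Fac : AbsolutelyContinuousOnInterval (fun t =>
        (α * (X (γ t) * Real.cos (g t) + Y (γ t) * Real.sin (g t)) +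
        β * (Y (γ t) * Real.cos (g t) - X (γ t) * Real.sin (g t))) *
        (√(X (γ t) ^ 2 + Y (γ t) ^ 2))⁻¹) 0 Real.pi :=
      ((((pac.mul cac).add (qac.mul sac)).const_mul α).add
        (((qac.mul cac).sub (pac.mul sac)).const_mul β)).mul iac
    have F0 : ∀ᵐ x, x ∈ uIcc 0 Real.pi → HasDerivAt (fun t =>
        (α * (X (γ t) * Real.cos (g t) + Y (γ t) * Real.sin (g t)) +
        β * (Y (γ t) * Real.cos (g t) - X (γ t) * Real.sin (g t))) *
        (√(X (γ t) ^ 2 + Y (γ t) ^ 2))⁻¹) 0 x := by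
      filter_upwards [hK.ae_differentiableAt_real, hL.ae_differentiableAt_real,
        (hki 0 Real.pi).ae_hasDerivAt_integral] with x h1 h2 h3 hx
      exact WIN_deriv (P := fun t => X (γ t)) (Q := fun t => Y (γ t)) α β h1.hasDerivAt
        h2.hasDerivAt (hpos x) (h3 hx 0 left_mem_uIcc)
    obtain ⟨C, hC⟩ := Fac.const_of_ae_hasDerivAt_zero F0
    exact (hC 0 left_mem_uIcc).trans (hC Real.pi right_mem_uIcc).symm
  have g0 : g 0 = 0 := by simp [hg]
  have hXπ : X (γ Real.pi) = -X (γ 0) := by simpa using oX 0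
  have hYπ : Y (γ Real.pi) = -Y (γ 0) := by simpa using oY 0
  have h := key (X (γ 0)) (Y (γ 0))
  rw [g0, hXπ, hYπ, Real.cos_zero, Real.sin_zero] at h
  have hr0 := hpos 0
  have hS : 0 < (√(X (γ 0) ^ 2 + Y (γ 0) ^ 2))⁻¹ := inv_pos.2 (Real.sqrt_pos.2 hr0)
  have hneg : (-X (γ 0)) ^ 2 + (-Y (γ 0)) ^ 2 = X (γ 0) ^ 2 + Y (γ 0) ^ 2 := by ring
  rw [hneg] at h
  have h' := mul_right_cancel₀ hS.ne' h
  have hcos : Real.cos (g Real.pi) = -1 := by
    have h2 : (X (γ 0) ^ 2 + Y (γ 0) ^ 2) * (Real.cos (g Real.pi) + 1) = 0 := by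
      linear_combination h'
    rcases mul_eq_zero.1 h2 with h3 | h3
    · exact absurd h3 hr0.ne'
    · linarith
  obtain ⟨k, hk⟩ := Real.cos_eq_neg_one_iff.1 hcos
  refine ⟨k, ?_⟩
  have hper : Function.Periodic (kap γ X Y) Real.pi := fun t => kap_periodic oX oY t
  have h3 := hper.intervalIntegral_add_eq_add 0 Real.pi (fun a b => hki a b)
  rw [zero_add, ← two_mul] at h3
  rw [h3]
  have h4 : ∫ s in (0 : ℝ)..Real.pi, kap γ X Y s = g Real.pi := rfl
  rw [h4, ← hk]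
  ring

end Pool.Agent.EWD
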