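import Mathlib
import Pool.Agent.EWD.Defs
import Pool.Agent.EWD.LPA
import Pool.Agent.EWD.RUL
import Pool.Agent.EWD.CRB
import Pool.Agent.EWD.WIN
import Pool.Agent.EWD.SVA

/-
SVB: the Stokes formula with vortices.  [about 90 lines]

Let `ε → 0` in `stokes_eps`. First integral: dominated by `|cr ψ X Y|` (integrable), pointwise limit
`cr ψ X Y` (if `q = 0` then `cr = 0`). Second: `hV.lim`. Right side: `r = q ∘ γ ≥ c > 0` (continuous,
periodic), bounded by the integrable function `B |kap|`, dominated convergence.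
Limits along `𝓝[>] 0`: use `tendsto_nhds_unique`.
-/

open MeasureTheory Set Filter Topology
open scoped ENNReal NNReal

namespace Pool.Agent.EWD

variable {M : Type} [MetricSpace M] [CompactSpace M] {γ : ℝ → M} (C : Calc M γ)

private theorem SVB_sq : Tendsto (fun ε : ℝ => ε ^ 2) (𝓝[>] 0) (𝓝 0) := by
  have h : Tendsto (fun ε : ℝ => ε ^ 2) (𝓝 0) (𝓝 ((0 : ℝ) ^ 2)) :=
    (continuous_pow 2).tendsto 0
  rw [zero_pow two_ne_zero] at h
  exact h.mono_left nhdsWithin_le_nhds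

private theorem SVB_meas_qf {X Y : M → ℝ} (hX : Lip X) (hY : Lip Y) :
    AEMeasurable (fun o => qf X Y (C.pt o)) C.μ := by
  unfold qf
  exact ((C.meas_pt hX).pow_const 2).add ((C.meas_pt hY).pow_const 2)

private theorem SVB_one {ψ X Y : M → ℝ} (hψ : Lip ψ) (hX : Lip X) (hY : Lip Y)
    (hr : Integrable (C.rot X Y) C.μ) :
    Tendsto (fun ε : ℝ => ∫ o, (qf X Y (C.pt o) / (qf X Y (C.pt o) + ε ^ 2)) * C.cr ψ X Y o ∂C.μ)
      (𝓝[>] 0) (𝓝 (∫ o, C.cr ψ X Y o ∂C.μ)) := by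
  have hq0 : ∀ o, 0 ≤ qf X Y (C.pt o) := fun o => by unfold qf; positivity
  refine tendsto_integral_filter_of_dominated_convergence (fun o => |C.cr ψ X Y o|) ?_ ?_ ?_ ?_
  · refine Eventually.of_forall fun ε => ?_
    exact (((SVB_meas_qf C hX hY).div ((SVB_meas_qf C hX hY).add_const _)).mul
      (C.meas_cr hψ hX hY)).aestronglyMeasurable
  · refine Eventually.of_forall fun ε => Eventually.of_forall fun o => ?_
    rw [Real.norm_eq_abs, abs_mul]
    refine mul_le_of_le_one_left (abs_nonneg _) ?_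
    rw [abs_of_nonneg (div_nonneg (hq0 o) (add_nonneg (hq0 o) (sq_nonneg _)))]
    refine div_le_one_of_le₀ ?_ (add_nonneg (hq0 o) (sq_nonneg _))
    nlinarith [sq_nonneg ε]
  · exact (C.integrable_cr hψ hX hY hr).abs
  · refine Eventually.of_forall fun o => ?_
    by_cases hq : qf X Y (C.pt o) = 0
    · have hcr : C.cr ψ X Y o = 0 := by
        unfold Calc.cr
        unfold qf at hq
        rw [hq, div_zero]
      rw [hcr]
      simp only [mul_zero]
      exact tendsto_const_nhds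
    · have h1 : Tendsto (fun ε : ℝ => (qf X Y (C.pt o) / (qf X Y (C.pt o) + ε ^ 2)) * C.cr ψ X Y o)
          (𝓝[>] 0) (𝓝 ((qf X Y (C.pt o) / (qf X Y (C.pt o) + 0)) * C.cr ψ X Y o)) := by
        refine Tendsto.mul_const _ (Tendsto.div tendsto_const_nhds
          (tendsto_const_nhds.add SVB_sq) ?_)
        rwa [add_zero]
      rw [add_zero, div_self hq, one_mul] at h1
      exact h1

private theorem SVB_two (hγ : Bd γ) {ψ X Y : M → ℝ} (hψ : Lip ψ) (hX : Lip X) (hY : Lip Y)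
    (hb : ∀ t, 0 < X (γ t) ^ 2 + Y (γ t) ^ 2) :
    Tendsto (fun ε : ℝ => ∫ t in (0 : ℝ)..(2 * Real.pi), ψ (γ t) *
        ((X (γ t) * deriv (fun s => Y (γ s)) t - Y (γ t) * deriv (fun s => X (γ s)) t) /
          (X (γ t) ^ 2 + Y (γ t) ^ 2 + ε ^ 2)))
      (𝓝[>] 0) (𝓝 (∫ t in (0 : ℝ)..(2 * Real.pi), ψ (γ t) * kap γ X Y t)) := by
  obtain ⟨B, hB0, hB⟩ := hψ.bdd
  have cγ : Continuous γ := hγ.lip.continuous
  have mψ : Measurable fun t => ψ (γ t) := (hψ.cont.comp cγ).measurable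
  have mX : Measurable fun t => X (γ t) := (hX.cont.comp cγ).measurable
  have mY : Measurable fun t => Y (γ t) := (hY.cont.comp cγ).measurable
  have mX' : Measurable fun t => deriv (fun s => X (γ s)) t := measurable_deriv _
  have mY' : Measurable fun t => deriv (fun s => Y (γ s)) t := measurable_deriv _
  refine intervalIntegral.tendsto_integral_filter_of_dominated_convergence
    (fun t => B * |kap γ X Y t|) ?_ ?_ ?_ ?_
  · refine Eventually.of_forall fun ε => ?_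
    exact (mψ.mul (((mX.mul mY').sub (mY.mul mX')).div
      (((mX.pow_const 2).add (mY.pow_const 2)).add_const _))).aestronglyMeasurable
  · refine Eventually.of_forall fun ε => Eventually.of_forall fun t _ => ?_
    rw [Real.norm_eq_abs, abs_mul]
    refine mul_le_mul (hB _) ?_ (abs_nonneg _) hB0
    unfold kap
    rw [abs_div, abs_div]
    have h1 := hb t
    rw [abs_of_pos h1, abs_of_pos (by positivity : 0 < X (γ t) ^ 2 + Y (γ t) ^ 2 + ε ^ 2)]
    refine div_le_div_of_nonneg_left (abs_nonneg _) h1 ?_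
    nlinarith [sq_nonneg ε]
  · exact ((kap_integrable hγ hX hY hb 0 (2 * Real.pi)).abs).const_mul B
  · refine Eventually.of_forall fun t _ => ?_
    refine Tendsto.const_mul _ ?_
    have h1 : Tendsto (fun ε : ℝ => (X (γ t) * deriv (fun s => Y (γ s)) t
        - Y (γ t) * deriv (fun s => X (γ s)) t) / (X (γ t) ^ 2 + Y (γ t) ^ 2 + ε ^ 2))
        (𝓝[>] 0) (𝓝 ((X (γ t) * deriv (fun s => Y (γ s)) t
        - Y (γ t) * deriv (fun s => X (γ s)) t) / (X (γ t) ^ 2 + Y (γ t) ^ 2 + 0))) := by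
      refine Tendsto.div tendsto_const_nhds (tendsto_const_nhds.add SVB_sq) ?_
      rw [add_zero]
      exact (hb t).ne'
    rw [add_zero] at h1
    exact h1

theorem stokes_vort (hγ : Bd γ) {X Y : M → ℝ} {Z : Finset M} {s : M → ℝ} (hV : C.Vort X Y Z s)
    (hr : Integrable (C.rot X Y) C.μ) {ψ : M → ℝ} (hψ : Lip ψ) :
    ∫ o, C.cr ψ X Y o ∂C.μ = C.sg * (∫ t in (0 : ℝ)..(2 * Real.pi), ψ (γ t) * kap γ X Y t)
      - 2 * Real.pi * ∑ z ∈ Z, s z * ψ z := by
  have h1 := (SVB_one C hψ hV.lipX hV.lipY hr).add (hV.lim ψ hψ)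
  have h2 := (SVB_two hγ hψ hV.lipX hV.lipY hV.bdry).const_mul C.sg
  have h3 : (fun ε : ℝ => (∫ o, (qf X Y (C.pt o) / (qf X Y (C.pt o) + ε ^ 2)) * C.cr ψ X Y o ∂C.μ)
      + ∫ o, ψ (C.pt o) * (2 * ε ^ 2 / (X (C.pt o) ^ 2 + Y (C.pt o) ^ 2 + ε ^ 2) ^ 2) *
        C.wed X Y o ∂C.μ) =ᶠ[𝓝[>] 0] fun ε : ℝ => C.sg * ∫ t in (0 : ℝ)..(2 * Real.pi), ψ (γ t) *
        ((X (γ t) * deriv (fun s => Y (γ s)) t - Y (γ t) * deriv (fun s => X (γ s)) t) /
          (X (γ t) ^ 2 + Y (γ t) ^ 2 + ε ^ 2)) := by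
    filter_upwards [self_mem_nhdsWithin] with ε hε
    exact stokes_eps C hγ hψ hV.lipX hV.lipY hε
  have h4 := tendsto_nhds_unique (h1.congr' h3) h2
  linarith

end Pool.Agent.EWD
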