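import Mathlib
import Pool.Agent.EWD.Defs
import Pool.Agent.EWD.LPA
import Pool.Agent.EWD.RUL
import Pool.Agent.EWD.CRB
import Pool.Agent.EWD.WIN
import Pool.Agent.EWD.SVB

/-
PAR: parity of the number of zeros; lower bound for pairs.  [about 130 lines]

(1) `sum_odd`: `stokes_vort` with `ψ = 1` (`cr_const`): `2π ∑ s = sg ∫ kap = ± 2π (2k+1)` (`wind`), so
`∑ s` is an odd integer. Each `s z = ± 1`, so the cardinality of `Z` is odd.
(2) `JJ_ge`: for a pair `f`, `∫ cr (f true) - ∫ cr (f false)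
  = sg (∫ f true (γ t) kap - ∫ f false (γ t) kap) - 2π ∑ s (f true - f false)`, and the boundary terms cancel:
`f false (γ t) = f true (γ (t + π))`, `kap` is `π`-periodic, the integral over a period of a
`2π`-periodic function does not depend on the base point. Hence
`JJ ≥ |∫ cr (f true)| + |∫ cr (f false)| ≥ 2π |∑ s (f true z - f false z)|`.
(3) `JJ_odd`: the values of `f i` on `Z` are 0 or 1, so `∑ s (f true z - f false z)` is an integer of
the same parity as the number of `(z, i)` with `f i z = 1`, which is `S.card` for `S ⊆ VV Z`.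
-/

open MeasureTheory Set Filter Topology
open scoped ENNReal NNReal

namespace Pool.Agent.EWD

variable {M : Type} [MetricSpace M] [CompactSpace M] {γ : ℝ → M} (C : Calc M γ)

theorem sum_odd (hγ : Bd γ) {X Y : M → ℝ} {Z : Finset M} {s : M → ℝ} (hV : C.Vort X Y Z s)
    (hr : Integrable (C.rot X Y) C.μ) : ∃ k : ℤ, ∑ z ∈ Z, s z = 2 * k + 1 := by
  have h1 := stokes_vort C hγ hV hr (lip_const (M := M) 1)
  obtain ⟨k, hk⟩ := wind hγ hV.lipX hV.lipY hV.oddX hV.oddY hV.bdry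
  have h2 : ∫ o, C.cr (fun _ => (1 : ℝ)) X Y o ∂C.μ = 0 := by
    have : ∀ o, C.cr (fun _ => (1 : ℝ)) X Y o = 0 := fun o => C.cr_const 1 X Y o
    simp [this]
  rw [h2] at h1
  simp only [one_mul, mul_one] at h1
  rw [hk] at h1
  have hpi : (2 * Real.pi) ≠ 0 := by positivity
  have h3 : (2 * Real.pi) * (∑ z ∈ Z, s z) = (2 * Real.pi) * (C.sg * (2 * k + 1)) := by
    linear_combination h1
  have h4 := mul_left_cancel₀ hpi h3
  rcases C.pm with hs | hs
  · exact ⟨k, by rw [h4, hs]; ring⟩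
  · refine ⟨-k - 1, ?_⟩
    rw [h4, hs]
    push_cast
    ring

private theorem PAR_par {Z : Finset M} {s : M → ℝ} (h : ∀ z ∈ Z, s z = 1 ∨ s z = -1) :
    ∃ m : ℤ, ∑ z ∈ Z, s z = (Z.card : ℝ) - 2 * m := by
  classical
  induction Z using Finset.induction_on with
  | empty => exact ⟨0, by simp⟩
  | insert a Z ha ih =>
    obtain ⟨m, hm⟩ := ih fun z hz => h z (Finset.mem_insert_of_mem hz)
    rw [Finset.sum_insert ha, Finset.card_insert_of_notMem ha, hm]
    rcases h a (Finset.mem_insert_self a Z) with h1 | h1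
    · exact ⟨m, by rw [h1]; push_cast; ring⟩
    · exact ⟨m + 1, by rw [h1]; push_cast; ring⟩

theorem card_odd (hγ : Bd γ) {X Y : M → ℝ} {Z : Finset M} {s : M → ℝ} (hV : C.Vort X Y Z s)
    (hr : Integrable (C.rot X Y) C.μ) : Odd Z.card := by
  obtain ⟨k, hk⟩ := sum_odd C hγ hV hr
  obtain ⟨m, hm⟩ := PAR_par hV.pm
  have h1 : ((Z.card : ℤ) : ℝ) = ((2 * (k + m) + 1 : ℤ) : ℝ) := by
    push_cast
    linarith
  have h2 : (Z.card : ℤ) = 2 * (k + m) + 1 := by exact_mod_cast h1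
  have h3 : Odd (Z.card : ℤ) := ⟨k + m, h2⟩
  exact_mod_cast h3

private theorem PAR_bdry {X Y : M → ℝ} (oX : OddB γ X) (oY : OddB γ Y) (hγ : Bd γ)
    {Z : Finset M} {S : Finset (M × Bool)} {f : Bool → M → ℝ} (hf : Pair γ Z S f) :
    (∫ t in (0 : ℝ)..(2 * Real.pi), f false (γ t) * kap γ X Y t)
      = ∫ t in (0 : ℝ)..(2 * Real.pi), f true (γ t) * kap γ X Y t := by
  have hk : ∀ t, kap γ X Y (t + Real.pi) = kap γ X Y t := kap_periodic oX oY
  have h1 : ∀ t, f false (γ t) * kap γ X Y t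
      = (fun t => f true (γ t) * kap γ X Y t) (t + Real.pi) := by
    intro t
    change _ = f true (γ (t + Real.pi)) * kap γ X Y (t + Real.pi)
    rw [hf.glue, hk]
  simp_rw [h1]
  have hper : Function.Periodic (fun t => f true (γ t) * kap γ X Y t) (2 * Real.pi) := by
    intro t
    change f true (γ (t + 2 * Real.pi)) * kap γ X Y (t + 2 * Real.pi) = _
    rw [hγ.per, show t + 2 * Real.pi = t + Real.pi + Real.pi by ring, hk, hk]
  rw [intervalIntegral.integral_comp_add_right (fun t => f true (γ t) * kap γ X Y t) Real.pi]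
  have h2 := hper.intervalIntegral_add_eq Real.pi 0
  rw [zero_add] at h2
  rw [zero_add, add_comm (2 * Real.pi) Real.pi]
  exact h2

theorem JJ_ge (hγ : Bd γ) {X Y : M → ℝ} {Z : Finset M} {s : M → ℝ} (hV : C.Vort X Y Z s)
    (hr : Integrable (C.rot X Y) C.μ) {S : Finset (M × Bool)} {f : Bool → M → ℝ}
    (hf : Pair γ Z S f) :
    2 * Real.pi * |∑ z ∈ Z, s z * (f true z - f false z)| ≤ C.JJ X Y f := by
  have h1 := stokes_vort C hγ hV hr (hf.lip true)
  have h2 := stokes_vort C hγ hV hr (hf.lip false)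
  rw [PAR_bdry hV.oddX hV.oddY hγ hf] at h2
  have hs : ∑ z ∈ Z, s z * (f true z - f false z)
      = ∑ z ∈ Z, s z * f true z - ∑ z ∈ Z, s z * f false z := by
    rw [← Finset.sum_sub_distrib]
    exact Finset.sum_congr rfl fun z _ => by ring
  have h3 : 2 * Real.pi * (∑ z ∈ Z, s z * (f true z - f false z))
      = (∫ o, C.cr (f false) X Y o ∂C.μ) - ∫ o, C.cr (f true) X Y o ∂C.μ := by
    rw [hs]
    linear_combination h1 - h2
  have i1 : Integrable (fun o => |C.cr (f true) X Y o|) C.μ :=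
    (C.integrable_cr (hf.lip true) hV.lipX hV.lipY hr).abs
  have i2 : Integrable (fun o => |C.cr (f false) X Y o|) C.μ :=
    (C.integrable_cr (hf.lip false) hV.lipX hV.lipY hr).abs
  have hpi : (0 : ℝ) < 2 * Real.pi := by positivity
  have h4 : 2 * Real.pi * |∑ z ∈ Z, s z * (f true z - f false z)|
      = |(∫ o, C.cr (f false) X Y o ∂C.μ) - ∫ o, C.cr (f true) X Y o ∂C.μ| := by
    rw [← h3, abs_mul, abs_of_pos hpi]
  rw [h4]
  unfold Calc.JJ
  rw [integral_add i1 i2]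
  have h5 : |∫ o, C.cr (f true) X Y o ∂C.μ| ≤ ∫ o, |C.cr (f true) X Y o| ∂C.μ :=
    abs_integral_le_integral_abs
  have h6 : |∫ o, C.cr (f false) X Y o ∂C.μ| ≤ ∫ o, |C.cr (f false) X Y o| ∂C.μ :=
    abs_integral_le_integral_abs
  have h7 := abs_sub (∫ o, C.cr (f false) X Y o ∂C.μ) (∫ o, C.cr (f true) X Y o ∂C.μ)
  linarith

private theorem PAR_card {Z : Finset M} {S : Finset (M × Bool)} (hS : S ⊆ VV Z)
    {f : Bool → M → ℝ} (h1 : ∀ z ∈ Z, ∀ i, (z, i) ∈ S → f i z = 1)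
    (h0 : ∀ z ∈ Z, ∀ i, (z, i) ∉ S → f i z = 0) :
    (S.card : ℝ) = ∑ z ∈ Z, (f true z + f false z) := by
  classical
  have e1 : S = (Z ×ˢ (Finset.univ : Finset Bool)).filter (· ∈ S) := by
    rw [Finset.filter_mem_eq_inter]
    exact (Finset.inter_eq_right.2 hS).symm
  have e2 : (S.card : ℝ) = ∑ v ∈ Z ×ˢ (Finset.univ : Finset Bool), if v ∈ S then (1 : ℝ) else 0 := by
    rw [← Finset.sum_filter, ← e1]
    simp
  rw [e2, Finset.sum_product]
  refine Finset.sum_congr rfl fun z hz => ?_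
  rw [Fintype.sum_bool]
  have key : ∀ i, (if (z, i) ∈ S then (1 : ℝ) else 0) = f i z := by
    intro i
    split_ifs with h
    · exact (h1 z hz i h).symm
    · exact (h0 z hz i h).symm
  rw [key, key]

private theorem PAR_val {Z : Finset M} {s : M → ℝ} {S : Finset (M × Bool)}
    {f : Bool → M → ℝ} (hs : ∀ z ∈ Z, s z = 1 ∨ s z = -1)
    (h1 : ∀ z ∈ Z, ∀ i, (z, i) ∈ S → f i z = 1)
    (h0 : ∀ z ∈ Z, ∀ i, (z, i) ∉ S → f i z = 0) :
    ∃ m : ℤ, ∑ z ∈ Z, s z * (f true z - f false z)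
      = ∑ z ∈ Z, (f true z + f false z) - 2 * m := by
  classical
  have h01 : ∀ z ∈ Z, ∀ i, ∃ k : ℤ, f i z = k := by
    intro z hz i
    by_cases h : (z, i) ∈ S
    · exact ⟨1, by rw [h1 z hz i h]; simp⟩
    · exact ⟨0, by rw [h0 z hz i h]; simp⟩
  have key : ∀ z ∈ Z, ∃ m : ℤ, s z * (f true z - f false z) = (f true z + f false z) - 2 * m := by
    intro z hz
    obtain ⟨a, ha⟩ := h01 z hz true
    obtain ⟨b, hb⟩ := h01 z hz false
    rcases hs z hz with h | h
    · exact ⟨b, by rw [h, hb]; ring⟩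
    · exact ⟨a, by rw [h, ha]; ring⟩
  choose! m hm using key
  refine ⟨∑ z ∈ Z, m z, ?_⟩
  push_cast
  rw [Finset.sum_congr rfl hm, Finset.sum_sub_distrib, Finset.mul_sum]

theorem JJ_odd (hγ : Bd γ) {X Y : M → ℝ} {Z : Finset M} {s : M → ℝ} (hV : C.Vort X Y Z s)
    (hr : Integrable (C.rot X Y) C.μ) {S : Finset (M × Bool)} (hS : S ⊆ VV Z) (ho : Odd S.card)
    {f : Bool → M → ℝ} (hf : Pair γ Z S f) : 2 * Real.pi ≤ C.JJ X Y f := by
  have h1 := JJ_ge C hγ hV hr hf
  obtain ⟨m, hm⟩ := PAR_val hV.pm hf.one hf.zero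
  rw [← PAR_card hS hf.one hf.zero] at hm
  obtain ⟨k, hk⟩ := ho
  have h2 : ∑ z ∈ Z, s z * (f true z - f false z) = ((2 * (k - m) + 1 : ℤ) : ℝ) := by
    rw [hm, hk]
    push_cast
    ring
  rw [h2] at h1
  have h3 : (1 : ℝ) ≤ |((2 * (k - m) + 1 : ℤ) : ℝ)| := by
    rw [← Int.cast_abs]
    have : (1 : ℤ) ≤ |2 * ((k : ℤ) - m) + 1| := by
      rcases le_or_gt 0 (2 * ((k : ℤ) - m) + 1) with h | h
      · rw [abs_of_nonneg h]
        omega
      · rw [abs_of_neg h]
        omega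
    exact_mod_cast this
  have hpi : (0 : ℝ) < 2 * Real.pi := by positivity
  nlinarith

end Pool.Agent.EWD
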