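import Mathlib
import Pool.Agent.EWD.Defs
import Pool.Agent.EWD.LPA
import Pool.Agent.EWD.RUL
import Pool.Agent.EWD.CRB
import Pool.Agent.EWD.PAR
import Pool.Agent.EWD.CUA
import Pool.Agent.EWD.CUB

/-
CUC: the capacity of sets of zeros.  [about 150 lines]

`cut S = inf {JJ f / (2π) | f a pair for S}`; the set is nonempty (`exists_pair`; `Z` does not meet the
range of `γ` since `qf > 0` on it, `hV.bdry`, `hV.zero`) and bounded below by 0 (`JJ ≥ 0`).
`cut_le`: `csInf_le`. `le_cut`: `le_csInf`. Approximation: for `e > 0` there is a pair with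
`JJ f / (2π) < cut S + e` (`exists_lt_of_csInf_lt`).
`cut_sub`: take near optimal pairs for `S`, `T`; `Pair.union`, `Pair.inter`, `JJ_max_min`.
`cut_compl`: `Pair.compl` in both directions (`VV Z \ (VV Z \ S) = S` for `S ⊆ VV Z`); `cr (1 - f) = - cr f`
a.e., so `JJ` is the same. `cut_swap`: `Pair.swap` in both directions, `JJ` is the same (the two
integrals are exchanged; `sw (sw v) = v`). `cut_odd`: `JJ_odd`.
-/

open MeasureTheory Set Filter Topology
open scoped ENNReal NNReal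

namespace Pool.Agent.EWD

variable {M : Type} [MetricSpace M] [CompactSpace M] {γ : ℝ → M} (C : Calc M γ)

theorem CUC_JJ_nonneg (X Y : M → ℝ) (f : Bool → M → ℝ) : 0 ≤ C.JJ X Y f := by
  unfold Calc.JJ
  exact integral_nonneg fun o => add_nonneg (abs_nonneg _) (abs_nonneg _)

theorem CUC_bdd (X Y : M → ℝ) (Z : Finset M) (S : Finset (M × Bool)) :
    BddBelow {r | ∃ f, Pair γ Z S f ∧ r = C.JJ X Y f / (2 * Real.pi)} := by
  refine ⟨0, ?_⟩
  rintro r ⟨f, _, rfl⟩
  exact div_nonneg (CUC_JJ_nonneg C X Y f) (by positivity)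

theorem CUC_ne (hγ : Bd γ) {X Y : M → ℝ} {Z : Finset M} {s : M → ℝ} (hV : C.Vort X Y Z s)
    (S : Finset (M × Bool)) :
    {r | ∃ f, Pair γ Z S f ∧ r = C.JJ X Y f / (2 * Real.pi)}.Nonempty := by
  have hZ : ∀ z ∈ Z, ∀ t, γ t ≠ z := by
    intro z hz t ht
    have h1 := (hV.zero z).1 hz
    have h2 := hV.bdry t
    rw [ht, h1.1, h1.2] at h2
    norm_num at h2
  obtain ⟨f, hf⟩ := exists_pair hγ hZ S
  exact ⟨_, f, hf, rfl⟩

theorem CUC_near (hγ : Bd γ) {X Y : M → ℝ} {Z : Finset M} {s : M → ℝ} (hV : C.Vort X Y Z s)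
    (S : Finset (M × Bool)) {e : ℝ} (he : 0 < e) :
    ∃ f, Pair γ Z S f ∧ C.JJ X Y f / (2 * Real.pi) < C.cut X Y Z S + e := by
  have h1 : sInf {r | ∃ f, Pair γ Z S f ∧ r = C.JJ X Y f / (2 * Real.pi)} < C.cut X Y Z S + e := by
    change C.cut X Y Z S < C.cut X Y Z S + e
    linarith
  obtain ⟨r, ⟨f, hf, hr⟩, hlt⟩ := exists_lt_of_csInf_lt (CUC_ne C hγ hV S) h1
  exact ⟨f, hf, by rw [← hr]; exact hlt⟩

theorem cut_le {X Y : M → ℝ} {Z : Finset M} {S : Finset (M × Bool)} {f : Bool → M → ℝ}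
    (hf : Pair γ Z S f) : C.cut X Y Z S ≤ C.JJ X Y f / (2 * Real.pi) :=
  csInf_le (CUC_bdd C X Y Z S) ⟨f, hf, rfl⟩

open Classical in
theorem cut_sub (hγ : Bd γ) {X Y : M → ℝ} {Z : Finset M} {s : M → ℝ} (hV : C.Vort X Y Z s)
    (hr : Integrable (C.rot X Y) C.μ) (S T : Finset (M × Bool)) :
    C.cut X Y Z (S ∪ T) + C.cut X Y Z (S ∩ T) ≤ C.cut X Y Z S + C.cut X Y Z T := by
  refine le_of_forall_pos_le_add fun e he => ?_
  obtain ⟨f, hf, hf1⟩ := CUC_near C hγ hV S (half_pos he)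
  obtain ⟨g, hg, hg1⟩ := CUC_near C hγ hV T (half_pos he)
  have h1 := cut_le C (X := X) (Y := Y) (hf.union hg)
  have h2 := cut_le C (X := X) (Y := Y) (hf.inter hg)
  have h3 := JJ_max_min C hV.lipX hV.lipY hr hf.lip hg.lip
  have h4 : C.JJ X Y (fun i x => max (f i x) (g i x)) / (2 * Real.pi)
      + C.JJ X Y (fun i x => min (f i x) (g i x)) / (2 * Real.pi)
      = C.JJ X Y f / (2 * Real.pi) + C.JJ X Y g / (2 * Real.pi) := by
    rw [← add_div, ← add_div, h3]
  linarith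

theorem CUC_JJ_compl (X Y : M → ℝ) {f : Bool → M → ℝ} (hf : ∀ i, Lip (f i)) :
    C.JJ X Y (fun i x => 1 - f i x) = C.JJ X Y f := by
  unfold Calc.JJ
  refine integral_congr_ae ?_
  filter_upwards [C.ae_cr_sub (lip_const (M := M) 1) (hf true) X Y,
    C.ae_cr_sub (lip_const (M := M) 1) (hf false) X Y] with o h1 h2
  have e1 : C.cr (fun x => 1 - f true x) X Y o = - C.cr (f true) X Y o := by
    rw [h1, C.cr_const]; ring
  have e2 : C.cr (fun x => 1 - f false x) X Y o = - C.cr (f false) X Y o := by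
    rw [h2, C.cr_const]; ring
  change |C.cr (fun x => 1 - f true x) X Y o| + |C.cr (fun x => 1 - f false x) X Y o| = _
  rw [e1, e2, abs_neg, abs_neg]

open Classical in
theorem CUC_compl_le (hγ : Bd γ) {X Y : M → ℝ} {Z : Finset M} {s : M → ℝ} (hV : C.Vort X Y Z s)
    (S : Finset (M × Bool)) : C.cut X Y Z (VV Z \ S) ≤ C.cut X Y Z S := by
  refine le_csInf (CUC_ne C hγ hV S) ?_
  rintro r ⟨f, hf, rfl⟩
  have h1 := cut_le C (X := X) (Y := Y) hf.compl
  rw [CUC_JJ_compl C X Y hf.lip] at h1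
  exact h1

open Classical in
theorem cut_compl (hγ : Bd γ) {X Y : M → ℝ} {Z : Finset M} {s : M → ℝ} (hV : C.Vort X Y Z s)
    {S : Finset (M × Bool)} (hS : S ⊆ VV Z) : C.cut X Y Z (VV Z \ S) = C.cut X Y Z S := by
  refine le_antisymm (CUC_compl_le C hγ hV S) ?_
  have h1 := CUC_compl_le C hγ hV (VV Z \ S)
  rwa [Finset.sdiff_sdiff_eq_self hS] at h1

theorem CUC_sw_sw (v : M × Bool) : sw (sw v) = v := by
  unfold sw; simp

theorem CUC_JJ_swap (X Y : M → ℝ) (f : Bool → M → ℝ) :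
    C.JJ X Y (fun i x => f (!i) x) = C.JJ X Y f := by
  unfold Calc.JJ
  refine integral_congr_ae (Eventually.of_forall fun o => ?_)
  change |C.cr (fun x => f false x) X Y o| + |C.cr (fun x => f true x) X Y o| = _
  rw [add_comm]

open Classical in
theorem cut_swap (hγ : Bd γ) {X Y : M → ℝ} {Z : Finset M} (S : Finset (M × Bool)) :
    C.cut X Y Z (S.image sw) = C.cut X Y Z S := by
  unfold Calc.cut
  congr 1
  ext r
  constructor
  · rintro ⟨f, hf, rfl⟩
    have h1 := hf.swap hγ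
    have h2 : (S.image sw).image sw = S := by
      rw [Finset.image_image]
      have : (sw ∘ sw : M × Bool → M × Bool) = id := by
        funext v
        exact CUC_sw_sw v
      rw [this, Finset.image_id]
    rw [h2] at h1
    exact ⟨_, h1, by rw [CUC_JJ_swap]⟩
  · rintro ⟨f, hf, rfl⟩
    exact ⟨_, hf.swap hγ, by rw [CUC_JJ_swap]⟩

theorem cut_odd (hγ : Bd γ) {X Y : M → ℝ} {Z : Finset M} {s : M → ℝ} (hV : C.Vort X Y Z s)
    (hr : Integrable (C.rot X Y) C.μ) {S : Finset (M × Bool)} (hS : S ⊆ VV Z)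
    (ho : Odd S.card) : 1 ≤ C.cut X Y Z S := by
  refine le_csInf (CUC_ne C hγ hV S) ?_
  rintro r ⟨f, hf, rfl⟩
  rw [le_div_iff₀ (by positivity), one_mul]
  exact JJ_odd C hγ hV hr hS ho hf

end Pool.Agent.EWD
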