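import Mathlib

/-
FIL: the finite lemma (selection).  [about 150 lines, elementary, Finset]

`c` is a symmetric submodular set function, invariant under the free involution `τ`, at least 1 on
sets with an odd number of elements, and `V` has `4 k + 2` elements. Then some `x` has `1 ≤ c S` for
every `S` that contains `x` and not `τ x`.

Proof. Suppose not: for every `x ∈ V` there is `S ⊆ V` with `x ∈ S`, `τ x ∉ S`, `c S < 1`.
Feasible sets for `x`: `F x = {S ⊆ V | x ∈ S ∧ τ x ∉ S}`. Let `f x` be the minimum of `c` on `F x`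
(finite set), and choose `R x ∈ F x` with `c (R x) = f x` and with smallest cardinality among these.
(1) If `S, T ∈ F x` and both attain `f x` then `S ∩ T, S ∪ T ∈ F x`, so `sub` gives that `S ∩ T` attains
    it too; hence `R x ⊆ T` for every minimiser `T ∈ F x` (else `R x ∩ T` is a smaller minimiser).
    `f (τ x) = f x` (apply `inv`; `S.image τ ∈ F (τ x)`), and `R (τ x) = (R x).image τ`.
(2) posimodularity: `c (S \ T) + c (T \ S) ≤ c S + c T` for `S, T ⊆ V` (apply `sub` to `S` and `V \ T`: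
    `S ∩ (V \ T) = S \ T`, `V \ (S ∪ (V \ T)) = T \ S`, and use `compl`).
(3) `R x` is free: `R x` and `(R x).image τ` are disjoint. Apply (2) to `S = R x`, `T = (R x).image τ`:
    `x ∈ S \ T`, `τ x ∉ S \ T`, so `c (S \ T) ≥ f x`; `T \ S` is the image of `S \ T`, so it has the same
    value; hence `c (S \ T) = f x` and by (1) `R x ⊆ S \ T`.
(4) laminar: for `x, y ∈ V` one of `R x ⊆ R y`, `R y ⊆ R x`, `Disjoint (R x) (R y)` holds.
    Suppose not (crossing), and by symmetry `f y ≤ f x`.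
    (a) `x ∉ R y`. Then `x ∈ R x \ R y`, `τ x ∉`, so `c (R x \ R y) > f x` (strict, because it is a proper
        subset of `R x`, by (1)), so by (2) `c (R y \ R x) < f y`. Hence `y ∉ R y \ R x`, so
        `y ∈ R x ∩ R y`. Then `c (R x ∩ R y) > f y` (proper subset of `R y`), so by `sub`
        `c (R x ∪ R y) < f x`. If `τ x ∉ R y` this contradicts the definition of `f x`. So
        `τ x ∈ R y`, and `x ∉ R y`: `f y = c (R y) ≥ f (τ x) = f x`. So `f x = f y`. As `y ∈ R x` and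
        `τ y ∉ R x` (by (3)), `R x` is a minimiser for `y`, so `R y ⊆ R x` by (1): contradiction.
    (b) `x ∈ R y`. Then `x ∈ R x ∩ R y`, so `c (R x ∩ R y) > f x`, so `c (R x ∪ R y) < f y`; hence
        `τ y ∈ R x`, and `y ∉ R x` by (3). Then `y ∈ R y \ R x`, `c (R y \ R x) > f y`, so by (2)
        `c (R x \ R y) < f x`. It contains `τ y` (as `τ y ∉ R y`) and not `y`: `f y = f (τ y) ≤
        c (R x \ R y) < f x`. But `x ∈ R y` and `τ x ∉ R y` (by (3)) give `f x ≤ c (R y) = f y`.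
(5) Let `𝓜` be the set of the maximal (for inclusion) sets among the `R x`, `x ∈ V`. They are pairwise
    disjoint (by (4)) and cover `V`, the family is invariant under image by `τ`, `R ≠ R.image τ`
    (by (3), non-empty), and each has an even number of elements (by `odd` and `c R < 1`). So
    `V.card = ∑ R ∈ 𝓜, R.card`, and pairing `R` with its image gives `4 ∣ V.card`. Contradiction.
    (A simple way to get `4 ∣ V.card`: let `W` be the union of a choice of one set from each pair;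
    or strong induction: prove for `τ`-invariant unions.)
-/

namespace Pool.Agent.EWD

open Finset in
private theorem FIL_choose {α : Type} [DecidableEq α] (V : Finset α) (τ : α → α) (c : Finset α → ℝ)
    (x : α) (h : ∃ S ⊆ V, x ∈ S ∧ τ x ∉ S ∧ c S < 1) :
    ∃ R : Finset α, R ⊆ V ∧ x ∈ R ∧ τ x ∉ R ∧ c R < 1 ∧
      (∀ T ⊆ V, x ∈ T → τ x ∉ T → c R ≤ c T) ∧
      (∀ T ⊆ V, x ∈ T → τ x ∉ T → c T ≤ c R → R.card ≤ T.card) := by
  obtain ⟨S, hSV, hxS, hτS, hS1⟩ := h
  have hmem : ∀ T : Finset α, T ∈ V.powerset.filter (fun T => x ∈ T ∧ τ x ∉ T) ↔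
      T ⊆ V ∧ x ∈ T ∧ τ x ∉ T := by
    intro T
    rw [mem_filter, mem_powerset]
  obtain ⟨S0, hS0, hmin⟩ := exists_min_image (V.powerset.filter (fun T => x ∈ T ∧ τ x ∉ T)) c
    ⟨S, (hmem S).2 ⟨hSV, hxS, hτS⟩⟩
  obtain ⟨R, hR, hcard⟩ := exists_min_image
    ((V.powerset.filter (fun T => x ∈ T ∧ τ x ∉ T)).filter (fun T => c T ≤ c S0))
    Finset.card ⟨S0, mem_filter.2 ⟨hS0, le_rfl⟩⟩
  rw [mem_filter] at hR
  have hR2 := (hmem R).1 hR.1
  refine ⟨R, hR2.1, hR2.2.1, hR2.2.2, ?_, ?_, ?_⟩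
  · exact lt_of_le_of_lt (hR.2.trans (hmin S ((hmem S).2 ⟨hSV, hxS, hτS⟩))) hS1
  · intro T hT hx hτ
    exact hR.2.trans (hmin T ((hmem T).2 ⟨hT, hx, hτ⟩))
  · intro T hT hx hτ hc
    exact hcard T (mem_filter.2 ⟨(hmem T).2 ⟨hT, hx, hτ⟩, hc.trans hR.2⟩)

theorem finlem {α : Type} [DecidableEq α] (V : Finset α) (τ : α → α) (hτV : ∀ x ∈ V, τ x ∈ V)
    (hττ : ∀ x, τ (τ x) = x) (hfree : ∀ x ∈ V, τ x ≠ x) (c : Finset α → ℝ)
    (sub : ∀ S ⊆ V, ∀ T ⊆ V, c (S ∪ T) + c (S ∩ T) ≤ c S + c T)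
    (compl : ∀ S ⊆ V, c (V \ S) = c S)
    (inv : ∀ S ⊆ V, c (S.image τ) = c S)
    (odd : ∀ S ⊆ V, _root_.Odd S.card → 1 ≤ c S)
    (hV : ∃ k : ℕ, V.card = 4 * k + 2) :
    ∃ x ∈ V, ∀ S ⊆ V, x ∈ S → τ x ∉ S → 1 ≤ c S := by
  by_contra hcon
  push Not at hcon
  have hch : ∀ x, x ∈ V → ∃ R : Finset α, R ⊆ V ∧ x ∈ R ∧ τ x ∉ R ∧ c R < 1 ∧
      (∀ T ⊆ V, x ∈ T → τ x ∉ T → c R ≤ c T) ∧
      (∀ T ⊆ V, x ∈ T → τ x ∉ T → c T ≤ c R → R.card ≤ T.card) := by
    intro x hx
    obtain ⟨S, h1, h2, h3, h4⟩ := hcon x hx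
    exact FIL_choose V τ c x ⟨S, h1, h2, h3, h4⟩
  choose! R hRV hxR hτR hR1 hmin hcard using hch
  -- images
  have hmi : ∀ (S : Finset α) (z : α), z ∈ S.image τ ↔ τ z ∈ S := by
    intro S z
    rw [Finset.mem_image]
    constructor
    · rintro ⟨w, hw, rfl⟩
      rw [hττ]; exact hw
    · intro h
      exact ⟨τ z, h, hττ z⟩
  have hii : ∀ S : Finset α, (S.image τ).image τ = S := by
    intro S
    ext z
    rw [hmi, hmi, hττ]
  have hiV : ∀ S ⊆ V, S.image τ ⊆ V := by
    intro S hS z hz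
    rw [hmi] at hz
    have := hτV _ (hS hz)
    rwa [hττ] at this
  have hic : ∀ S : Finset α, (S.image τ).card = S.card := by
    intro S
    refine Finset.card_image_of_injective S ?_
    intro a b hab
    rw [← hττ a, ← hττ b, hab]
  -- (1)
  have h1 : ∀ x ∈ V, ∀ T ⊆ V, x ∈ T → τ x ∉ T → c T ≤ c (R x) → R x ⊆ T := by
    intro x hx T hT hxT hτT hc
    have h2 := sub (R x) (hRV x hx) T hT
    have h3 := hmin x hx (R x ∪ T) (Finset.union_subset (hRV x hx) hT)
      (Finset.mem_union_left _ (hxR x hx))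
      (by rw [Finset.mem_union, not_or]; exact ⟨hτR x hx, hτT⟩)
    have h4 := hcard x hx (R x ∩ T) (Finset.inter_subset_left.trans (hRV x hx))
      (Finset.mem_inter.2 ⟨hxR x hx, hxT⟩)
      (fun h => hτT (Finset.mem_inter.1 h).2) (by linarith)
    have h5 := Finset.eq_of_subset_of_card_le (Finset.inter_subset_left (s₁ := R x) (s₂ := T)) h4
    rw [← h5]
    exact Finset.inter_subset_right
  have h1' : ∀ x ∈ V, ∀ T ⊆ V, x ∈ T → τ x ∉ T → ¬ R x ⊆ T → c (R x) < c T := by
    intro x hx T hT hxT hτT hn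
    by_contra hc
    exact hn (h1 x hx T hT hxT hτT (not_lt.1 hc))
  -- (2)
  have h2 : ∀ S ⊆ V, ∀ T ⊆ V, c (S \ T) + c (T \ S) ≤ c S + c T := by
    intro S hS T hT
    have h3 := sub S hS (V \ T) Finset.sdiff_subset
    have e1 : S ∩ (V \ T) = S \ T := by
      ext z
      rw [Finset.mem_inter, Finset.mem_sdiff, Finset.mem_sdiff]
      exact ⟨fun h => ⟨h.1, h.2.2⟩, fun h => ⟨h.1, hS h.1, h.2⟩⟩
    have e2 : V \ (S ∪ (V \ T)) = T \ S := by
      ext z
      rw [Finset.mem_sdiff, Finset.mem_union, Finset.mem_sdiff, Finset.mem_sdiff]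
      constructor
      · rintro ⟨h4, h5⟩
        rw [not_or, not_and_not_right] at h5
        exact ⟨h5.2 h4, h5.1⟩
      · rintro ⟨h4, h5⟩
        refine ⟨hT h4, ?_⟩
        rw [not_or]
        exact ⟨h5, fun h => h.2 h4⟩
    have e3 := compl (S ∪ (V \ T)) (Finset.union_subset hS Finset.sdiff_subset)
    rw [e2] at e3
    have e4 := compl T hT
    rw [e1] at h3
    linarith
  -- the involution
  have hRi_mem : ∀ x ∈ V, τ x ∈ (R x).image τ ∧ τ (τ x) ∉ (R x).image τ := by
    intro x hx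
    rw [hmi, hmi, hττ]
    exact ⟨hxR x hx, hτR x hx⟩
  have hcle : ∀ x ∈ V, c (R (τ x)) ≤ c (R x) := by
    intro x hx
    have h3 := hmin (τ x) (hτV x hx) ((R x).image τ) (hiV _ (hRV x hx)) (hRi_mem x hx).1
      (hRi_mem x hx).2
    rwa [inv _ (hRV x hx)] at h3
  have hceq : ∀ x ∈ V, c (R (τ x)) = c (R x) := by
    intro x hx
    refine le_antisymm (hcle x hx) ?_
    have h3 := hcle (τ x) (hτV x hx)
    rwa [hττ] at h3
  have hsub : ∀ x ∈ V, R (τ x) ⊆ (R x).image τ := by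
    intro x hx
    refine h1 (τ x) (hτV x hx) ((R x).image τ) (hiV _ (hRV x hx)) (hRi_mem x hx).1
      (hRi_mem x hx).2 ?_
    rw [inv _ (hRV x hx), hceq x hx]
  have hReq : ∀ x ∈ V, R (τ x) = (R x).image τ := by
    intro x hx
    refine Finset.eq_of_subset_of_card_le (hsub x hx) ?_
    rw [hic]
    have h3 := Finset.card_le_card (hsub (τ x) (hτV x hx))
    rwa [hττ, hic] at h3
  -- (3)
  have h3 : ∀ x ∈ V, Disjoint (R x) ((R x).image τ) := by
    intro x hx
    have h4 := h2 (R x) (hRV x hx) ((R x).image τ) (hiV _ (hRV x hx))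
    have e1 : (R x).image τ \ R x = (R x \ (R x).image τ).image τ := by
      ext z
      rw [hmi, Finset.mem_sdiff, Finset.mem_sdiff, hmi, hmi, hττ]
    rw [e1, inv _ (Finset.sdiff_subset.trans (hRV x hx)), inv _ (hRV x hx)] at h4
    have h5 := h1 x hx (R x \ (R x).image τ) (Finset.sdiff_subset.trans (hRV x hx))
      (Finset.mem_sdiff.2 ⟨hxR x hx, by rw [hmi]; exact hτR x hx⟩)
      (fun h => hτR x hx (Finset.mem_sdiff.1 h).1) (by linarith)
    rw [Finset.disjoint_left]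
    intro z hz
    exact (Finset.mem_sdiff.1 (h5 hz)).2
  have h3' : ∀ x ∈ V, ∀ z ∈ R x, τ z ∉ R x := by
    intro x hx z hz hz2
    exact (Finset.disjoint_left.1 (h3 x hx) hz) ((hmi _ _).2 hz2)
  -- (4)
  have h4 : ∀ x ∈ V, ∀ y ∈ V, c (R y) ≤ c (R x) →
      R x ⊆ R y ∨ R y ⊆ R x ∨ Disjoint (R x) (R y) := by
    intro x hx y hy hc
    by_contra hn
    rw [not_or, not_or] at hn
    obtain ⟨hn1, hn2, hn3⟩ := hn
    have hAV := hRV x hx
    have hBV := hRV y hy
    have hsm := sub (R x) hAV (R y) hBV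
    have hpm := h2 (R x) hAV (R y) hBV
    have hUV : R x ∪ R y ⊆ V := Finset.union_subset hAV hBV
    by_cases hxB : x ∈ R y
    · have h5 := h1' x hx (R x ∩ R y) (Finset.inter_subset_left.trans hAV)
        (Finset.mem_inter.2 ⟨hxR x hx, hxB⟩) (fun h => hτR x hx (Finset.mem_inter.1 h).1)
        (fun h => hn1 (h.trans Finset.inter_subset_right))
      have h6 : τ y ∈ R x := by
        by_contra h7
        have h8 := hmin y hy (R x ∪ R y) hUV (Finset.mem_union_right _ (hxR y hy))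
          (by rw [Finset.mem_union, not_or]; exact ⟨h7, hτR y hy⟩)
        linarith
      have h7 : y ∉ R x := fun h => h3' x hx y h h6
      have h8 := h1' y hy (R y \ R x) (Finset.sdiff_subset.trans hBV)
        (Finset.mem_sdiff.2 ⟨hxR y hy, h7⟩) (fun h => hτR y hy (Finset.mem_sdiff.1 h).1)
        (fun h => hn3 (Finset.disjoint_right.2 fun z hz => (Finset.mem_sdiff.1 (h hz)).2))
      have h9 := hmin (τ y) (hτV y hy) (R x \ R y) (Finset.sdiff_subset.trans hAV)
        (Finset.mem_sdiff.2 ⟨h6, hτR y hy⟩)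
        (by rw [hττ]; exact fun h => h7 (Finset.mem_sdiff.1 h).1)
      rw [hceq y hy] at h9
      have h10 := hmin x hx (R y) hBV hxB (h3' y hy x hxB)
      linarith
    · have h5 := h1' x hx (R x \ R y) (Finset.sdiff_subset.trans hAV)
        (Finset.mem_sdiff.2 ⟨hxR x hx, hxB⟩) (fun h => hτR x hx (Finset.mem_sdiff.1 h).1)
        (fun h => hn3 (Finset.disjoint_left.2 fun z hz => (Finset.mem_sdiff.1 (h hz)).2))
      have h6 : y ∈ R x := by
        by_contra h7
        have h8 := hmin y hy (R y \ R x) (Finset.sdiff_subset.trans hBV)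
          (Finset.mem_sdiff.2 ⟨hxR y hy, h7⟩) (fun h => hτR y hy (Finset.mem_sdiff.1 h).1)
        linarith
      have h7 := h1' y hy (R x ∩ R y) (Finset.inter_subset_left.trans hAV)
        (Finset.mem_inter.2 ⟨h6, hxR y hy⟩) (fun h => hτR y hy (Finset.mem_inter.1 h).2)
        (fun h => hn2 (h.trans Finset.inter_subset_left))
      have h8 : τ x ∈ R y := by
        by_contra h9
        have h10 := hmin x hx (R x ∪ R y) hUV (Finset.mem_union_left _ (hxR x hx))
          (by rw [Finset.mem_union, not_or]; exact ⟨hτR x hx, h9⟩)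
        linarith
      have h9 := hmin (τ x) (hτV x hx) (R y) hBV h8 (by rw [hττ]; exact hxB)
      rw [hceq x hx] at h9
      exact hn2 (h1 y hy (R x) hAV h6 (h3' x hx y h6) h9)
  have h4' : ∀ x ∈ V, ∀ y ∈ V, R x ⊆ R y ∨ R y ⊆ R x ∨ Disjoint (R x) (R y) := by
    intro x hx y hy
    rcases le_total (c (R y)) (c (R x)) with h | h
    · exact h4 x hx y hy h
    · rcases h4 y hy x hx h with h5 | h5 | h5
      · exact Or.inr (Or.inl h5)
      · exact Or.inl h5
      · exact Or.inr (Or.inr h5.symm)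
  -- (5)
  let 𝓜 : Finset (Finset α) := (V.image R).filter (fun A => ∀ x ∈ V, A ⊆ R x → A = R x)
  have hM : ∀ A : Finset α, A ∈ 𝓜 ↔ (∃ x ∈ V, R x = A) ∧ ∀ x ∈ V, A ⊆ R x → A = R x := by
    intro A
    rw [Finset.mem_filter, Finset.mem_image]
  have hdisj : (𝓜 : Set (Finset α)).PairwiseDisjoint id := by
    intro A hA B hB hAB
    rw [Finset.mem_coe, hM] at hA hB
    obtain ⟨⟨x, hx, rfl⟩, hA2⟩ := hA
    obtain ⟨⟨y, hy, rfl⟩, hB2⟩ := hB
    change Disjoint (R x) (R y)
    rcases h4' x hx y hy with h5 | h5 | h5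
    · exact absurd (hA2 y hy h5) hAB
    · exact absurd (hB2 x hx h5).symm hAB
    · exact h5
  have hcov : 𝓜.biUnion id = V := by
    ext v
    rw [Finset.mem_biUnion]
    constructor
    · rintro ⟨A, hA, hv⟩
      rw [hM] at hA
      obtain ⟨⟨x, hx, rfl⟩, _⟩ := hA
      exact hRV x hx hv
    · intro hv
      obtain ⟨A, hA, hAmax⟩ := Finset.exists_max_image ((V.image R).filter (fun A => R v ⊆ A))
        Finset.card ⟨R v, Finset.mem_filter.2 ⟨Finset.mem_image_of_mem R hv, Finset.Subset.refl _⟩⟩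
      rw [Finset.mem_filter, Finset.mem_image] at hA
      obtain ⟨⟨x, hx, hxA⟩, hvA⟩ := hA
      refine ⟨A, (hM A).2 ⟨⟨x, hx, hxA⟩, ?_⟩, hvA (hxR v hv)⟩
      intro y hy hAy
      refine Finset.eq_of_subset_of_card_le hAy ?_
      exact hAmax (R y) (Finset.mem_filter.2 ⟨Finset.mem_image_of_mem R hy, hvA.trans hAy⟩)
  have hsum : V.card = ∑ A ∈ 𝓜, A.card := by
    conv_lhs => rw [← hcov]
    exact Finset.card_biUnion hdisj
  have hzero : ∑ A ∈ 𝓜, (A.card : ZMod 4) = 0 := by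
    refine Finset.sum_involution (fun A _ => A.image τ) ?_ ?_ ?_ ?_
    · intro A hA
      rw [hM] at hA
      obtain ⟨⟨x, hx, rfl⟩, _⟩ := hA
      rw [hic]
      have h5 : Even (R x).card := by
        rw [← Nat.not_odd_iff_even]
        intro h6
        have h7 := odd (R x) (hRV x hx) h6
        have h8 := hR1 x hx
        linarith
      obtain ⟨j, hj⟩ := h5
      rw [hj, ← Nat.cast_add, ZMod.natCast_eq_zero_iff]
      exact ⟨j, by ring⟩
    · intro A hA _ hAA
      rw [hM] at hA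
      obtain ⟨⟨x, hx, rfl⟩, _⟩ := hA
      have h5 := h3 x hx
      rw [hAA] at h5
      have h6 := Finset.disjoint_left.1 h5 (hxR x hx)
      exact h6 (hxR x hx)
    · intro A hA
      rw [hM] at hA ⊢
      obtain ⟨⟨x, hx, rfl⟩, hA2⟩ := hA
      refine ⟨⟨τ x, hτV x hx, hReq x hx⟩, ?_⟩
      intro y hy hsub2
      have h5 : R x ⊆ R (τ y) := by
        rw [hReq y hy]
        intro z hz
        rw [hmi]
        apply hsub2
        rw [hmi, hττ]
        exact hz
      have h6 := hA2 (τ y) (hτV y hy) h5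
      rw [h6, hReq y hy, hii]
    · intro A _
      exact hii A
  obtain ⟨k, hk⟩ := hV
  have h5 : ((V.card : ℕ) : ZMod 4) = 0 := by
    rw [hsum, Nat.cast_sum]
    exact hzero
  rw [hk, ZMod.natCast_eq_zero_iff] at h5
  omega

end Pool.Agent.EWD
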