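import Mathlib
import Pool.Agent.EWD.Defs
import Pool.Agent.EWD.FIL
import Pool.Agent.EWD.PAR
import Pool.Agent.EWD.CUC

/-
SEL: selection of a zero.  [about 80 lines]

Apply `finlem` to `V = VV Z`, the involution `sw` and `c = C.cut X Y Z`; `|V| = 2 |Z| = 4k + 2` by `card_odd`.
It gives `v = (z, i)`. If `i = true` take `z`. If `i = false`: for `S` with `(z, true) ∈ S`,
`(z, false) ∉ S`, the set `S.image sw` contains `(z, false)` and not `(z, true)`, so
`1 ≤ cut (S.image sw) = cut S` (`cut_swap`). Then `cut_le`: `JJ f ≥ 2π cut S ≥ 2π`.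
-/

open MeasureTheory Set Filter Topology
open scoped ENNReal NNReal

namespace Pool.Agent.EWD

variable {M : Type} [MetricSpace M] [CompactSpace M] {γ : ℝ → M} (C : Calc M γ)

omit [MetricSpace M] [CompactSpace M] in
private theorem SEL_card (Z : Finset M) : (VV Z).card = 2 * Z.card := by
  rw [VV, Finset.card_product]
  simp [mul_comm]

theorem select (hγ : Bd γ) {X Y : M → ℝ} {Z : Finset M} {s : M → ℝ} (hV : C.Vort X Y Z s)
    (hr : Integrable (C.rot X Y) C.μ) :
    ∃ z ∈ Z, ∀ S ⊆ VV Z, (z, true) ∈ S → (z, false) ∉ S → ∀ f, Pair γ Z S f →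
      2 * Real.pi ≤ C.JJ X Y f := by
  classical
  have hmem : ∀ v : M × Bool, v ∈ VV Z ↔ v.1 ∈ Z := by
    intro v
    simp [VV]
  have key := finlem (VV Z) (sw : M × Bool → M × Bool)
    (fun v hv => (hmem _).2 ((hmem v).1 hv))
    (fun v => by simp [sw])
    (fun v _ h => by
      have h2 := congrArg Prod.snd h
      simp [sw] at h2)
    (C.cut X Y Z)
    (fun S _ T _ => cut_sub C hγ hV hr S T)
    (fun S hS => cut_compl C hγ hV hS)
    (fun S _ => cut_swap C hγ (X := X) (Y := Y) (Z := Z) S)
    (fun S hS ho => cut_odd C hγ hV hr hS ho)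
    (by
      obtain ⟨k, hk⟩ := card_odd C hγ hV hr
      refine ⟨k, ?_⟩
      rw [SEL_card, hk]
      ring)
  obtain ⟨⟨z, i⟩, hz, hS⟩ := key
  have hzZ : z ∈ Z := (hmem _).1 hz
  have h2pi : (0 : ℝ) < 2 * Real.pi := by positivity
  refine ⟨z, hzZ, ?_⟩
  intro S hSV ht hf f hp
  have hcut : 1 ≤ C.cut X Y Z S := by
    cases i with
    | true => exact hS S hSV ht (by simpa [sw] using hf)
    | false =>
      have h1 : S.image sw ⊆ VV Z := by
        intro v hv
        obtain ⟨w, hw, rfl⟩ := Finset.mem_image.1 hv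
        exact (hmem _).2 ((hmem w).1 (hSV hw))
      have h3 : 1 ≤ C.cut X Y Z (S.image sw) := by
        refine hS _ h1 ?_ ?_
        · exact Finset.mem_image.2 ⟨(z, true), ht, by simp [sw]⟩
        · intro hmem2
          obtain ⟨w, hw, hw2⟩ := Finset.mem_image.1 hmem2
          apply hf
          have : w = (z, false) := by
            have h5 : sw (sw w) = sw (sw (z, false)) := by rw [hw2]
            simpa [sw] using h5
          rwa [this] at hw
      have h4 := cut_swap C hγ (X := X) (Y := Y) (Z := Z) S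
      rw [h4] at h3
      exact h3
  have h6 := cut_le C (X := X) (Y := Y) hp
  have h7 : 1 ≤ C.JJ X Y f / (2 * Real.pi) := le_trans hcut h6
  rwa [le_div_iff₀ h2pi, one_mul] at h7

end Pool.Agent.EWD
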