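import Mathlib
import Pool.Agent.EWD.Defs
import Pool.Agent.EWD.LPA

/-
THP: the odd 1-Lipschitz function with value `π/2` at `P`.  [about 120 lines, elementary]

(1) `dist_curve`: for `t ≤ s ≤ t + π`: `dist (γ t) (γ s) = s - t`, because
 `π ≤ dist (γ t) (γ (t + π)) ≤ dist (γ t) (γ s) + dist (γ s) (γ (t + π)) ≤ (s - t) + (t + π - s) = π`.
 Hence `dist (γ (t + π)) (γ (s + π)) = dist (γ t) (γ s)` for all `t, s` (by periodicity reduce to
 `t ≤ s ≤ t + 2π`; if `s > t + π` replace `t` by `t + 2π`, then `s ≤ t + 2π ≤ s + π`).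
(2) `h₀ t = (dist P (γ (t + π)) - dist P (γ t)) / 2`; `|h₀ t - h₀ s| ≤ dist (γ t) (γ s)`, `|h₀ t| ≤ π/2`.
(3) `h x = ⨅ t, (h₀ t + dist x (γ t))` (bounded below by `-π/2`) is 1-Lipschitz, `h (γ s) = h₀ s` by (2), and
 `h P = ⨅ t, (dist P (γ (t + π)) + dist P (γ t)) / 2 ≥ π/2` by `hγ.anti`.
(4) `θ = max (-π/2) (min (π/2) (h x))`. `θ (γ (t + π)) = h₀ (t + π) = - h₀ t` by `hγ.per`.
-/

open Set Filter Topology
open scoped ENNReal NNReal

namespace Pool.Agent.EWD

variable {M : Type} [MetricSpace M] {γ : ℝ → M}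

private theorem thp_le (hγ : Bd γ) {t s : ℝ} (h : t ≤ s) : dist (γ t) (γ s) ≤ s - t := by
  have h1 := hγ.lip.dist_le_mul t s
  rw [Real.dist_eq, abs_sub_comm, abs_of_nonneg (by linarith)] at h1
  simpa using h1

private theorem thp_eq (hγ : Bd γ) {t s : ℝ} (h : t ≤ s) (h' : s ≤ t + Real.pi) :
    dist (γ t) (γ s) = s - t := by
  have h1 := hγ.anti t
  have h2 := dist_triangle (γ t) (γ s) (γ (t + Real.pi))
  have h3 := thp_le hγ h'
  have h4 := thp_le hγ h
  linarith

private theorem thp_shift (hγ : Bd γ) (t s : ℝ) :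
    dist (γ (t + Real.pi)) (γ (s + Real.pi)) = dist (γ t) (γ s) := by
  have hpi := Real.pi_pos
  have hp : Function.Periodic γ (2 * Real.pi) := hγ.per
  -- the integer translate
  obtain ⟨k, hk, -⟩ := existsUnique_add_zsmul_mem_Ico (by linarith : (0 : ℝ) < 2 * Real.pi) s t
  have e1 : γ (s + k • (2 * Real.pi)) = γ s := (hp.zsmul k) s
  have e2 : γ (s + k • (2 * Real.pi) + Real.pi) = γ (s + Real.pi) := by
    have := (hp.zsmul k) (s + Real.pi)
    rw [← this]
    congr 1
    ring
  rw [← e1, ← e2]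
  generalize s + k • (2 * Real.pi) = s' at hk
  obtain ⟨hk1, hk2⟩ := hk
  by_cases hc : s' ≤ t + Real.pi
  · rw [thp_eq hγ hk1 hc, thp_eq hγ (by linarith) (by linarith)]
    ring
  · push Not at hc
    have f1 : γ (t + 2 * Real.pi) = γ t := hγ.per t
    have f2 : γ (t + 2 * Real.pi + Real.pi) = γ (t + Real.pi) := by
      rw [← hγ.per (t + Real.pi)]
      congr 1
      ring
    rw [← f1, ← f2, dist_comm, dist_comm (γ (t + 2 * Real.pi)),
      thp_eq hγ (by linarith) (by linarith), thp_eq hγ (by linarith) (by linarith)]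
    ring

theorem exists_theta (hγ : Bd γ) (P : M) : ∃ θ : M → ℝ, LipschitzWith 1 θ ∧ OddB γ θ ∧
    (∀ x, |θ x| ≤ Real.pi / 2) ∧ θ P = Real.pi / 2 := by
  have hpi := Real.pi_pos
  set h0 : ℝ → ℝ := fun t => (dist P (γ (t + Real.pi)) - dist P (γ t)) / 2 with hh0
  have h0lip : ∀ t s, |h0 t - h0 s| ≤ dist (γ t) (γ s) := by
    intro t s
    have a1 := abs_dist_sub_le (γ (t + Real.pi)) (γ (s + Real.pi)) P
    have a2 := abs_dist_sub_le (γ t) (γ s) P
    rw [thp_shift hγ] at a1
    rw [dist_comm _ P, dist_comm _ P] at a1 a2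
    rw [abs_le] at a1 a2 ⊢
    simp only [hh0]
    constructor <;> linarith [a1.1, a1.2, a2.1, a2.2]
  have hpile : ∀ t, dist (γ t) (γ (t + Real.pi)) ≤ Real.pi := by
    intro t
    have := thp_le hγ (by linarith : t ≤ t + Real.pi)
    linarith
  have h0bd : ∀ t, |h0 t| ≤ Real.pi / 2 := by
    intro t
    have a1 := abs_dist_sub_le (γ (t + Real.pi)) (γ t) P
    rw [dist_comm _ P, dist_comm _ P, dist_comm (γ (t + Real.pi))] at a1
    have a2 := hpile t
    rw [abs_le] at a1 ⊢
    simp only [hh0]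
    constructor <;> linarith [a1.1, a1.2]
  have h0odd : ∀ t, h0 (t + Real.pi) = - h0 t := by
    intro t
    have f : γ (t + Real.pi + Real.pi) = γ t := by
      rw [← hγ.per t]
      congr 1
      ring
    simp only [hh0, f]
    ring
  have hbdd : ∀ x, BddBelow (range fun t => h0 t + dist x (γ t)) := by
    intro x
    refine ⟨-(Real.pi / 2), ?_⟩
    rintro _ ⟨t, rfl⟩
    have := (abs_le.1 (h0bd t)).1
    have := dist_nonneg (x := x) (y := γ t)
    simp only
    linarith
  set h : M → ℝ := fun x => ⨅ t, (h0 t + dist x (γ t)) with hh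
  have hlip : LipschitzWith 1 h := by
    refine LipschitzWith.of_le_add ?_
    intro x y
    have : h x - dist x y ≤ h y := by
      refine le_ciInf fun t => ?_
      have a1 : h x ≤ h0 t + dist x (γ t) := ciInf_le (hbdd x) t
      have a2 := dist_triangle x y (γ t)
      linarith
    linarith
  have hcurve : ∀ s, h (γ s) = h0 s := by
    intro s
    refine le_antisymm ?_ ?_
    · have a1 : h (γ s) ≤ h0 s + dist (γ s) (γ s) := ciInf_le (hbdd (γ s)) s
      simpa using a1
    · refine le_ciInf fun t => ?_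
      have a1 := (abs_le.1 (h0lip s t)).2
      linarith
  have hP : Real.pi / 2 ≤ h P := by
    refine le_ciInf fun t => ?_
    have a1 := hγ.anti t
    have a2 := dist_triangle (γ t) P (γ (t + Real.pi))
    rw [dist_comm (γ t) P] at a2
    simp only [hh0]
    linarith
  refine ⟨fun x => max (-(Real.pi / 2)) (min (Real.pi / 2) (h x)), ?_, ?_, ?_, ?_⟩
  · exact (hlip.const_min (Real.pi / 2)).const_max (-(Real.pi / 2))
  · intro t
    have a1 := abs_le.1 (h0bd t)
    simp only [hcurve, h0odd]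
    rw [min_eq_right a1.2, max_eq_right a1.1, min_eq_right (by linarith), max_eq_right (by linarith)]
  · intro x
    rw [abs_le]
    refine ⟨le_max_left _ _, max_le (by linarith) (min_le_left _ _)⟩
  · simp only
    rw [min_eq_left hP, max_eq_right (by linarith)]

end Pool.Agent.EWD
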