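import Mathlib
import Pool.Agent.EWD.Defs
import Pool.Agent.EWD.LPA
import Pool.Agent.EWD.RUL
import Pool.Agent.EWD.CRB
import Pool.Agent.EWD.SEL
import Pool.Agent.EWD.BNB
import Pool.Agent.EWD.THP

/-
TOP: the topological lower bound.  [about 60 lines]

`HH x = x - sin (2x)/2` has derivative `1 - cos 2x ∈ [0, 2]`, so it is 2-Lipschitz; it is odd;
`HH (π/2) = π/2`. `select` gives `P ∈ Z`; `exists_theta` gives `θ`; apply `bands` to `ψ = HH ∘ θ`,
`c = π/2`: `2π (π/2) = π²`.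
-/

open MeasureTheory Set Filter Topology
open scoped ENNReal NNReal

namespace Pool.Agent.EWD

private theorem TOP_deriv (x : ℝ) : HasDerivAt HH (1 - Real.cos (2 * x)) x := by
  have h1 : HasDerivAt (fun y : ℝ => 2 * y) 2 x := by
    simpa using (hasDerivAt_id x).const_mul (2 : ℝ)
  have h2 := (h1.sin).div_const 2
  have h3 := (hasDerivAt_id x).sub h2
  have h4 : (1 : ℝ) - Real.cos (2 * x) * 2 / 2 = 1 - Real.cos (2 * x) := by ring
  rw [h4] at h3
  exact h3

theorem lip_HH : LipschitzWith 2 HH := by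
  have hd : Differentiable ℝ HH := fun x => (TOP_deriv x).differentiableAt
  refine lipschitzWith_of_nnnorm_deriv_le hd ?_
  intro x
  rw [(TOP_deriv x).deriv]
  have h1 := Real.neg_one_le_cos (2 * x)
  have h2 := Real.cos_le_one (2 * x)
  rw [← NNReal.coe_le_coe, coe_nnnorm, Real.norm_eq_abs, abs_le]
  constructor
  · have : ((2 : ℝ≥0) : ℝ) = 2 := rfl
    rw [this]
    linarith
  · have : ((2 : ℝ≥0) : ℝ) = 2 := rfl
    rw [this]
    linarith

variable {M : Type} [MetricSpace M] [CompactSpace M] {γ : ℝ → M} (C : Calc M γ)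

theorem top_bound (hγ : Bd γ) {X Y : M → ℝ} {Z : Finset M} {s : M → ℝ} (hV : C.Vort X Y Z s)
    (hr : Integrable (C.rot X Y) C.μ) : ∃ θ : M → ℝ, LipschitzWith 1 θ ∧ OddB γ θ ∧
      Real.pi ^ 2 ≤ ∫ o, |C.cr (fun x => HH (θ x)) X Y o| ∂C.μ := by
  obtain ⟨P, hP, hsel⟩ := select C hγ hV hr
  obtain ⟨θ, hθ, hodd, hbd, hθP⟩ := exists_theta hγ P
  refine ⟨θ, hθ, hodd, ?_⟩
  have hL : Lip (fun x => HH (θ x)) := ⟨2 * 1, lip_HH.comp hθ⟩
  have ho : OddB γ (fun x => HH (θ x)) := by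
    intro t
    have h1 := hodd t
    simp only [HH]
    rw [h1]
    have : 2 * -θ (γ t) = -(2 * θ (γ t)) := by ring
    rw [this, Real.sin_neg]
    ring
  have hc : (0 : ℝ) ≤ Real.pi / 2 := by positivity
  have hPc : (fun x => HH (θ x)) P = Real.pi / 2 := by
    simp only [HH]
    rw [hθP]
    have : 2 * (Real.pi / 2) = Real.pi := by ring
    rw [this, Real.sin_pi]
    ring
  have key := bands C hV.lipX hV.lipY hr hL ho hc hP hPc hsel
  calc Real.pi ^ 2 = 2 * Real.pi * (Real.pi / 2) := by ring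
    _ ≤ _ := key

end Pool.Agent.EWD
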