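import Mathlib
import Pool.Agent.EWD.Defs
import Pool.Agent.EWD.KER
import Pool.Agent.EWD.LPA
import Pool.Agent.EWD.RUL
import Pool.Agent.EWD.CRB
import Pool.Agent.EWD.PWI
import Pool.Agent.EWD.CSR
import Pool.Agent.EWD.TOP

/-
PYR: the inequality for one direction `y`, for maps that satisfy the second variation inequality with
the error `r` (the proof is the one of PYI).
-/

open MeasureTheory Set Filter Topology
open scoped ENNReal NNReal

namespace Pool.Agent.EWD

variable {M : Type} [MetricSpace M] [CompactSpace M] {γ : ℝ → M} (C : Calc M γ)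

theorem pyr (hγ : Bd γ) {τ : ℝ} (hτ : 0 < τ) {N : ℕ} (a b : Fin N → ℝ)
    (u : Fin N → M → ℝ) (Z : Finset M) (s : M → ℝ) (r : ℝ) (hab : Ortho a b) (hu : Sph γ u)
    (hS : SVP C τ a b u r) (hV : C.Vort (lin a u) (lin b u) Z s)
    (hI : Integrable (fun o => √(C.G u o) / √(qf (lin a u) (lin b u) (C.pt o))) C.μ) :
    Real.pi ^ 2 ≤ ∫ o, KK τ (qf (lin a u) (lin b u) (C.pt o)) ∂C.μ
      + ∫ o, 2 * (√(C.G u o) * ll τ (qf (lin a u) (lin b u) (C.pt o))) ∂C.μ + r := by
  have hX : Lip (lin a u) := lip_lin a hu.lip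
  have hY : Lip (lin b u) := lip_lin b hu.lip
  have hrle := C.ae_rot_le hab hu.lip
  have hr : Integrable (C.rot (lin a u) (lin b u)) C.μ := by
    refine hI.mono' (C.meas_rot hX hY).aestronglyMeasurable ?_
    filter_upwards [hrle] with o ho
    rw [Real.norm_eq_abs, abs_of_nonneg (C.rot_nonneg _ _ o)]
    exact ho
  obtain ⟨θ, hθ, hodd, hπ⟩ := top_bound C hγ hV hr
  have hψL : LipschitzWith (2 * 1) (fun x => HH (θ x)) := lip_HH.comp hθ
  have hcs := csr C hτ a b u θ r hab hu hS hθ hodd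
  have hq0 : ∀ o, 0 ≤ qf (lin a u) (lin b u) (C.pt o) := fun o => by unfold qf; positivity
  have hq1 : ∀ o, qf (lin a u) (lin b u) (C.pt o) ≤ 1 := fun o => by
    have h1 := bessel hab (fun i => u i (C.pt o))
    rw [hu.unit] at h1
    exact h1
  have hqm : AEMeasurable (fun o => qf (lin a u) (lin b u) (C.pt o)) C.μ :=
    ((C.meas_pt hX).pow_const 2).add ((C.meas_pt hY).pow_const 2)
  have hKm : AEMeasurable (fun o => KK τ (qf (lin a u) (lin b u) (C.pt o))) C.μ :=
    (measurable_KK τ).comp_aemeasurable hqm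
  have hFi : Integrable (fun o => |C.cr (fun x => HH (θ x)) (lin a u) (lin b u) o|) C.μ :=
    (C.integrable_cr ⟨_, hψL⟩ hX hY hr).abs
  have hKn : ∀ o, 0 ≤ KK τ (qf (lin a u) (lin b u) (C.pt o)) *
      √(qf (lin a u) (lin b u) (C.pt o)) := fun o =>
    mul_nonneg (KK_pos hτ (hq0 o)).le (Real.sqrt_nonneg _)
  have hK1 : ∀ o, KK τ (qf (lin a u) (lin b u) (C.pt o)) *
      √(qf (lin a u) (lin b u) (C.pt o)) ≤ 1 := fun o => KK_mul_sqrt_le hτ (hq0 o) (hq1 o)
  have hAi : Integrable (fun o => KK τ (qf (lin a u) (lin b u) (C.pt o)) *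
      √(qf (lin a u) (lin b u) (C.pt o)) *
        |C.cr (fun x => HH (θ x)) (lin a u) (lin b u) o|) C.μ := by
    refine hFi.mono' ?_ ?_
    · exact ((hKm.mul hqm.sqrt).mul hFi.aemeasurable).aestronglyMeasurable
    · refine Eventually.of_forall fun o => ?_
      rw [Real.norm_eq_abs, abs_of_nonneg (mul_nonneg (hKn o) (abs_nonneg _))]
      exact mul_le_of_le_one_left (abs_nonneg _) (hK1 o)
  have hLi : Integrable (fun o => 2 * (√(C.G u o) *
      ll τ (qf (lin a u) (lin b u) (C.pt o)))) C.μ := by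
    refine (hI.const_mul 2).mono' ?_ ?_
    · exact ((((C.meas_G hu.lip).sqrt).mul
        ((measurable_ll τ).comp_aemeasurable hqm)).const_mul 2).aestronglyMeasurable
    · refine Eventually.of_forall fun o => ?_
      have h1 := ll_nonneg hτ (hq0 o) (hq1 o)
      have h2 := ll_le hτ (hq0 o) (hq1 o)
      rw [Real.norm_eq_abs, abs_of_nonneg (by positivity)]
      refine mul_le_mul_of_nonneg_left ?_ (by norm_num)
      calc √(C.G u o) * ll τ (qf (lin a u) (lin b u) (C.pt o))
          ≤ √(C.G u o) * (1 / √(qf (lin a u) (lin b u) (C.pt o))) :=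
            mul_le_mul_of_nonneg_left h2 (Real.sqrt_nonneg _)
        _ = √(C.G u o) / √(qf (lin a u) (lin b u) (C.pt o)) := by ring
  have hpt : ∀ᵐ o ∂C.μ, |C.cr (fun x => HH (θ x)) (lin a u) (lin b u) o| ≤
      KK τ (qf (lin a u) (lin b u) (C.pt o)) * √(qf (lin a u) (lin b u) (C.pt o)) *
        |C.cr (fun x => HH (θ x)) (lin a u) (lin b u) o| +
      2 * (√(C.G u o) * ll τ (qf (lin a u) (lin b u) (C.pt o))) := by
    filter_upwards [hrle, C.ae_cr_le hψL (lin a u) (lin b u)] with o h1 h2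
    have h3 : (((2 * 1 : ℝ≥0)) : ℝ) = 2 := by norm_num
    rw [h3] at h2
    have hrest : (1 - KK τ (qf (lin a u) (lin b u) (C.pt o)) *
        √(qf (lin a u) (lin b u) (C.pt o))) *
          |C.cr (fun x => HH (θ x)) (lin a u) (lin b u) o| ≤
        2 * (√(C.G u o) * ll τ (qf (lin a u) (lin b u) (C.pt o))) := by
      calc (1 - KK τ (qf (lin a u) (lin b u) (C.pt o)) *
        √(qf (lin a u) (lin b u) (C.pt o))) *
          |C.cr (fun x => HH (θ x)) (lin a u) (lin b u) o|
          ≤ (1 - KK τ (qf (lin a u) (lin b u) (C.pt o)) *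
            √(qf (lin a u) (lin b u) (C.pt o))) *
            (2 * (√(C.G u o) / √(qf (lin a u) (lin b u) (C.pt o)))) := by
            refine mul_le_mul_of_nonneg_left ?_ (sub_nonneg.2 (hK1 o))
            linarith
        _ = 2 * (√(C.G u o) * ll τ (qf (lin a u) (lin b u) (C.pt o))) := by
            unfold ll
            ring
    linarith
  have hint : ∫ o, |C.cr (fun x => HH (θ x)) (lin a u) (lin b u) o| ∂C.μ ≤
      (∫ o, KK τ (qf (lin a u) (lin b u) (C.pt o)) * √(qf (lin a u) (lin b u) (C.pt o)) *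
        |C.cr (fun x => HH (θ x)) (lin a u) (lin b u) o| ∂C.μ) +
      ∫ o, 2 * (√(C.G u o) * ll τ (qf (lin a u) (lin b u) (C.pt o))) ∂C.μ := by
    rw [← integral_add hAi hLi]
    exact integral_mono_ae hFi (hAi.add hLi) hpt
  linarith

end Pool.Agent.EWD
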