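import Mathlib
import Pool.Agent.EWD.Defs
import Pool.Agent.EWD.LPA
import Pool.Agent.EWD.RUL
import Pool.Agent.EWD.KER
import Pool.Agent.EWD.CSR
import Pool.Agent.EWD.PYR
import Pool.Agent.EWD.LIM
import Pool.Agent.EWD.AVG

/-
FNR (helper81, after FNA by helper69): the abstract final statement for maps that satisfy the second
variation inequality up to small errors.
-/

open MeasureTheory Set Filter Topology
open scoped ENNReal NNReal

namespace Pool.Agent.EWD

variable {M : Type} [MetricSpace M] [CompactSpace M] {γ : ℝ → M} (C : Calc M γ)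

omit [CompactSpace M] in
private theorem fnr_norm {n : ℕ} {u : Fin (n + 3) → M → ℝ} (hu : Sph γ u) (x : M) :
    ‖vv u x‖ ≤ 1 := by
  have h := hu.unit x
  rw [Fin.sum_univ_succ, Fin.sum_univ_succ, Fin.sum_univ_succ] at h
  have h2 : 0 ≤ ∑ i : Fin n, u i.succ.succ.succ x ^ 2 := Finset.sum_nonneg fun i _ => sq_nonneg _
  have h3 : ‖vv u x‖ ^ 2 ≤ 1 := by
    rw [EuclideanSpace.norm_sq_eq, Fin.sum_univ_three]
    simp only [vv, Real.norm_eq_abs, sq_abs]
    simp only [Fin.succ_zero_eq_one, Fin.succ_one_eq_two] at h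
    simp
    linarith
  nlinarith [norm_nonneg (vv u x)]

omit [CompactSpace M] in
private theorem fnr_meas {n : ℕ} {u : Fin (n + 3) → M → ℝ} (hu : ∀ i, Lip (u i)) :
    AEMeasurable (fun o => vv u (C.pt o)) C.μ := by
  unfold vv
  refine (WithLp.measurable_toLp (p := 2) (X := Fin 3 → ℝ)).comp_aemeasurable ?_
  refine aemeasurable_pi_lambda _ fun i => ?_
  fin_cases i
  · exact C.meas_pt (hu 0)
  · exact C.meas_pt (hu 1)
  · exact C.meas_pt (hu 2)

private theorem fnr_step (hγ : Bd γ) {n : ℕ} {m : ℝ} (hm : 0 < m) {τ : ℝ} (hτ : 0 < τ) {r : ℝ}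
    (hr : 0 ≤ r) {u : Fin (n + 3) → M → ℝ} (hu : Sph γ u)
    (hN : ∀ a b, Ortho a b → SVP C τ a b u r) (hmu : ∀ x, m ≤ ‖vv u x‖)
    (H : ∀ᵐ y : E3, ∃ (a b : Fin (n + 3) → ℝ) (Z : Finset M) (s : M → ℝ), Ortho a b ∧
        (∀ x, qf (lin a u) (lin b u) x = qq (vv u x) y) ∧ C.Vort (lin a u) (lin b u) Z s)
    {B : ℝ} (hE : C.E u ≤ B) :
    2 * Real.pi ^ 3 ≤ √(1 + τ ^ 2) * (Real.pi ^ 2 / m) * C.vol
      + (C.vol + 2 * B) * (Lam τ m).toReal + 2 * Real.pi * r := by
  haveI := C.fin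
  have hpi := Real.pi_pos
  obtain ⟨B', hB0, hB⟩ := C.ae_G_le hu.lip
  have hGm : AEMeasurable (fun o => √(C.G u o)) C.μ :=
    Real.continuous_sqrt.measurable.comp_aemeasurable (C.meas_G hu.lip)
  have hGB : ∀ᵐ o ∂C.μ, √(C.G u o) ≤ √B' := by
    filter_upwards [hB] with o ho
    exact Real.sqrt_le_sqrt ho
  have hv0 := C.vol_nonneg
  have hE0 := C.E_nonneg u
  have key := average C.μ (fnr_meas C hu.lip) hm (fun o => hmu _) (fun o => fnr_norm hu _) hGm
    (fun o => Real.sqrt_nonneg _) hGB hτ hr (by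
      filter_upwards [H] with y hy hint
      obtain ⟨a, b, Z, s, hab, hq, hV⟩ := hy
      have h := pyr C hγ hτ a b u Z s r hab hu (hN a b hab) hV (by simpa only [hq] using hint)
      simpa only [hq] using h)
  have h2 : 2 * ∫ o, √(C.G u o) ∂C.μ ≤ C.vol + 2 * C.E u := by
    have e : C.vol + 2 * C.E u = ∫ o, (1 + C.G u o) ∂C.μ := by
      rw [integral_add (integrable_const _) (C.integrable_G hu.lip), C.integral_one]
      unfold Calc.E
      ring
    rw [e, ← integral_const_mul]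
    refine integral_mono_ae ?_ ((integrable_const _).add (C.integrable_G hu.lip)) ?_
    · refine (C.integrable_of_bdd hGm (B := √B') ?_).const_mul 2
      filter_upwards [hGB] with o ho
      rwa [abs_of_nonneg (Real.sqrt_nonneg _)]
    · refine Eventually.of_forall fun o => ?_
      have h3 := Real.sq_sqrt (C.G_nonneg u o)
      simp only
      nlinarith [sq_nonneg (√(C.G u o) - 1)]
  have h4 : 2 * (∫ o, √(C.G u o) ∂C.μ) * (Lam τ m).toReal ≤
      (C.vol + 2 * B) * (Lam τ m).toReal := by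
    refine mul_le_mul_of_nonneg_right ?_ ENNReal.toReal_nonneg
    linarith
  have h7 : (C.μ univ).toReal = C.vol := rfl
  rw [h7] at key
  nlinarith

/-- the final statement for maps that satisfy the second variation inequality up to small errors -/
theorem final_sv (hγ : Bd γ) {n : ℕ} {m : ℝ} (hm : 0 < m) {B : ℝ}
    (H : ∀ τ : ℝ, 0 < τ → ∀ r : ℝ, 0 < r → ∃ u : Fin (n + 3) → M → ℝ, Sph γ u ∧ C.E u ≤ B ∧
      (∀ x, m ≤ ‖vv u x‖) ∧ (∀ a b, Ortho a b → SVP C τ a b u r) ∧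
      ∀ᵐ y : E3, ∃ (a b : Fin (n + 3) → ℝ) (Z : Finset M) (s : M → ℝ), Ortho a b ∧
        (∀ x, qf (lin a u) (lin b u) x = qq (vv u x) y) ∧ C.Vort (lin a u) (lin b u) Z s) :
    2 * Real.pi * m ≤ C.vol := by
  have hpi := Real.pi_pos
  obtain ⟨u₁, hu₁, -, hm₁, -⟩ := H 1 one_pos 1 one_pos
  have hm1 : m ≤ 1 := (hm₁ (γ 0)).trans (fnr_norm hu₁ _)
  have step : ∀ τ : ℝ, 0 < τ → 2 * Real.pi ^ 3 ≤ √(1 + τ ^ 2) * (Real.pi ^ 2 / m) * C.vol
      + (C.vol + 2 * B) * (Lam τ m).toReal := by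
    intro τ hτ
    refine le_of_forall_pos_le_add fun e he => ?_
    obtain ⟨u, hu, hE, hmu, hN, hy⟩ := H τ hτ (e / (2 * Real.pi)) (by positivity)
    have h := fnr_step C hγ hm hτ (r := e / (2 * Real.pi)) (by positivity) hu hN hmu hy hE
    have e1 : 2 * Real.pi * (e / (2 * Real.pi)) = e := by field_simp
    rw [e1] at h
    exact h
  have hlim : Tendsto (fun τ : ℝ => √(1 + τ ^ 2) * (Real.pi ^ 2 / m) * C.vol
      + (C.vol + 2 * B) * (Lam τ m).toReal) (𝓝[>] 0)
      (𝓝 (√(1 + 0 ^ 2) * (Real.pi ^ 2 / m) * C.vol + (C.vol + 2 * B) * 0)) := by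
    refine Tendsto.add ?_ ((tendsto_Lam hm hm1).const_mul _)
    have hc : Continuous (fun τ : ℝ => √(1 + τ ^ 2) * (Real.pi ^ 2 / m) * C.vol) := by fun_prop
    exact (hc.tendsto 0).mono_left nhdsWithin_le_nhds
  have hfin := ge_of_tendsto hlim (by
    filter_upwards [self_mem_nhdsWithin] with τ hτ
    exact step τ hτ)
  simp only [ne_eq, OfNat.ofNat_ne_zero, not_false_eq_true, zero_pow, add_zero, Real.sqrt_one,
    one_mul, mul_zero] at hfin
  have h1 : 2 * Real.pi ^ 3 * m ≤ Real.pi ^ 2 * C.vol := by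
    have := mul_le_mul_of_nonneg_right hfin hm.le
    calc 2 * Real.pi ^ 3 * m ≤ Real.pi ^ 2 / m * C.vol * m := this
      _ = Real.pi ^ 2 * C.vol := by field_simp
  have h2 : Real.pi ^ 2 * (2 * Real.pi * m) ≤ Real.pi ^ 2 * C.vol := by
    calc Real.pi ^ 2 * (2 * Real.pi * m) = 2 * Real.pi ^ 3 * m := by ring
      _ ≤ _ := h1
  exact le_of_mul_le_mul_left h2 (by positivity)

end Pool.Agent.EWD
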