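import Mathlib
import Pool.Agent.EWD.Defs
import Pool.Agent.EWD.LPA
import Pool.Agent.EWD.RUL
import Pool.Agent.EWD.KER
import Pool.Agent.EWD.PWI
import Pool.Agent.EWD.EXP
import Pool.Agent.EWD.SPC
import Pool.Agent.EWD.VAR
import Pool.Agent.EWD.CSR
import Pool.Agent.EWD.FNR

/-
FLC (helper81): the abstract final statement for local near minimisers. The competitor
`comp τ ε a b u ζ` is at distance `O(ε)` of `u`.
-/

open MeasureTheory Set Filter Topology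
open scoped ENNReal NNReal

namespace Pool.Agent.EWD

/-- the constant in the distance between the competitor and the map -/
noncomputable def kc (τ : ℝ) : ℝ := √(1 + τ ^ 2) / τ + (1 / τ ^ 2) ^ 2 + 1 / τ ^ 2

theorem kc_pos {τ : ℝ} (hτ : 0 < τ) : 0 < kc τ := by
  unfold kc
  positivity

private theorem flc_proj {N : ℕ} {a b : Fin N → ℝ} (h : Ortho a b) {u : Fin N → ℝ}
    (hu : ∑ i, u i ^ 2 = 1) (i : Fin N) :
    |u i - (∑ j, a j * u j) * a i - (∑ j, b j * u j) * b i| ≤ 1 := by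
  obtain ⟨X, hX⟩ : ∃ X, X = ∑ j, a j * u j := ⟨_, rfl⟩
  obtain ⟨Y, hY⟩ : ∃ Y, Y = ∑ j, b j * u j := ⟨_, rfl⟩
  rw [← hX, ← hY]
  have h1 : ∑ i, (u i - X * a i - Y * b i) ^ 2 = 1 - X ^ 2 - Y ^ 2 := by
    have e : ∀ i, (u i - X * a i - Y * b i) ^ 2 = u i ^ 2 - 2 * X * (a i * u i)
        - 2 * Y * (b i * u i) + X ^ 2 * a i ^ 2 + Y ^ 2 * b i ^ 2 + 2 * X * Y * (a i * b i) := by
      intro i; ring
    simp only [e]
    rw [Finset.sum_add_distrib, Finset.sum_add_distrib, Finset.sum_add_distrib,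
      Finset.sum_sub_distrib, Finset.sum_sub_distrib, ← Finset.mul_sum, ← Finset.mul_sum,
      ← Finset.mul_sum, ← Finset.mul_sum, ← Finset.mul_sum, hu, ← hX, ← hY, h.na, h.nb, h.ab]
    ring
  have h2 : (u i - X * a i - Y * b i) ^ 2 ≤ ∑ i, (u i - X * a i - Y * b i) ^ 2 :=
    Finset.single_le_sum (f := fun i => (u i - X * a i - Y * b i) ^ 2)
      (fun j _ => sq_nonneg _) (Finset.mem_univ i)
  refine abs_le_of_sq_le_sq ?_ zero_le_one
  nlinarith [sq_nonneg X, sq_nonneg Y]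

/-- the competitor is close to the map -/
theorem comp_close {M : Type} [MetricSpace M] {γ : ℝ → M} {τ : ℝ} (hτ : 0 < τ) {ε : ℝ}
    (hε : 0 < ε) (hε1 : ε ≤ 1) {N : ℕ} {a b : Fin N → ℝ} (hab : Ortho a b) {u : Fin N → M → ℝ}
    (hu : Sph γ u) {ζ : M → ℝ} (hζ : ∀ x, |ζ x| ≤ 1) (i : Fin N) (x : M) :
    |comp τ ε a b u ζ i.castSucc x - u i x| ≤ ε * kc τ := by
  have hu1 := hu.unit x
  have hS := cmp_sq_eq hτ ε a b (fun j => u j x) hab hu1 (ζ x)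
  have hS1 := cmp_sq hτ ε a b (fun j => u j x) hab hu1 (ζ x)
  obtain ⟨q, hq⟩ : ∃ q, q = (∑ i, a i * u i x) ^ 2 + (∑ i, b i * u i x) ^ 2 := ⟨_, rfl⟩
  rw [← hq] at hS
  have hq0 : 0 ≤ q := by rw [hq]; positivity
  obtain ⟨T, hT⟩ : ∃ T, T = ∑ k, cmp τ ε a b (fun j => u j x) (ζ x) k ^ 2 := ⟨_, rfl⟩
  rw [← hT] at hS hS1
  have hζ2 : ζ x ^ 2 ≤ 1 := by
    have := hζ x
    rw [← sq_abs]
    nlinarith [abs_nonneg (ζ x)]
  have hK := KK_le hτ hq0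
  have hK0 := KK_pos hτ hq0
  have hB := BB_le hτ hq0
  have hB0 := BB_pos hτ hq0
  have hε2 : ε ^ 2 ≤ ε := by nlinarith
  have h1 : KK τ q * ζ x ^ 2 ≤ √(1 + τ ^ 2) / τ := by nlinarith [sq_nonneg (ζ x)]
  have hb1 : BB τ q * ζ x ^ 2 ≤ 1 / τ ^ 2 := by nlinarith [sq_nonneg (ζ x)]
  have hb0 : 0 ≤ BB τ q * ζ x ^ 2 := by positivity
  have hT2 : T - 1 ≤ 2 * (ε * (√(1 + τ ^ 2) / τ + (1 / τ ^ 2) ^ 2)) := by
    have h3 : ε ^ 2 * (KK τ q * ζ x ^ 2) ≤ ε * (√(1 + τ ^ 2) / τ) := by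
      have h30 : 0 ≤ KK τ q * ζ x ^ 2 := by positivity
      nlinarith
    have h4 : (BB τ q * ζ x ^ 2) ^ 2 ≤ (1 / τ ^ 2) ^ 2 := pow_le_pow_left₀ hb0 hb1 2
    have h5 : ε ^ 4 / 4 * (BB τ q * ζ x ^ 2) ^ 2 * (1 - q) ≤ ε * (1 / τ ^ 2) ^ 2 := by
      have h6 : ε ^ 4 / 4 ≤ ε := by
        have : ε ^ 4 ≤ ε := by
          calc ε ^ 4 ≤ ε ^ 1 := pow_le_pow_of_le_one hε.le hε1 (by norm_num)
            _ = ε := pow_one ε
        linarith
      calc ε ^ 4 / 4 * (BB τ q * ζ x ^ 2) ^ 2 * (1 - q)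
          ≤ ε ^ 4 / 4 * (BB τ q * ζ x ^ 2) ^ 2 * 1 := by
            refine mul_le_mul_of_nonneg_left (by linarith) (by positivity)
        _ = ε ^ 4 / 4 * (BB τ q * ζ x ^ 2) ^ 2 := mul_one _
        _ ≤ ε * (1 / τ ^ 2) ^ 2 := mul_le_mul h6 h4 (sq_nonneg _) hε.le
    have h7 : 0 ≤ ε * (√(1 + τ ^ 2) / τ) := by positivity
    have h8 : 0 ≤ ε * (1 / τ ^ 2) ^ 2 := by positivity
    rw [hS]
    nlinarith
  have hsT : 1 ≤ √T := Real.one_le_sqrt.2 hS1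
  have hsT2 : √T - 1 ≤ ε * (√(1 + τ ^ 2) / τ + (1 / τ ^ 2) ^ 2) := by
    have h3 : (√T - 1) * 2 ≤ T - 1 := by
      have h4 : √T ^ 2 = T := Real.sq_sqrt (by linarith)
      nlinarith
    linarith
  obtain ⟨c, hc⟩ : ∃ c, c = cmp τ ε a b (fun j => u j x) (ζ x) i.castSucc := ⟨_, rfl⟩
  have hcT : |c| ≤ √T := by
    apply Real.abs_le_sqrt
    rw [hT, hc]
    exact Finset.single_le_sum (f := fun k => cmp τ ε a b (fun j => u j x) (ζ x) k ^ 2)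
      (fun j _ => sq_nonneg _) (Finset.mem_univ i.castSucc)
  have hcu : |c - u i x| ≤ ε * (1 / τ ^ 2) := by
    have e : c - u i x = ε ^ 2 / 2 * (BB τ q * ζ x ^ 2 *
        (u i x - (∑ j, a j * u j x) * a i - (∑ j, b j * u j x) * b i)) := by
      rw [hc, hq]
      unfold cmp eta
      rw [Fin.snoc_castSucc]
      ring
    rw [e, abs_mul, abs_mul, abs_of_nonneg (by positivity : (0 : ℝ) ≤ ε ^ 2 / 2),
      abs_of_nonneg hb0]
    have h3 := flc_proj hab hu1 i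
    calc ε ^ 2 / 2 * (BB τ q * ζ x ^ 2 *
        |u i x - (∑ j, a j * u j x) * a i - (∑ j, b j * u j x) * b i|)
        ≤ ε * (1 / τ ^ 2 * 1) := by
          refine mul_le_mul (by linarith [sq_nonneg ε]) ?_ (by positivity) hε.le
          exact mul_le_mul hb1 h3 (abs_nonneg _) (by positivity)
      _ = ε * (1 / τ ^ 2) := by ring
  have e : comp τ ε a b u ζ i.castSucc x = c / √T := by
    unfold comp
    rw [← hT, ← hc]
  have h3 : |c / √T - c| ≤ √T - 1 := by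
    have h4 : c / √T - c = -(c / √T) * (√T - 1) := by
      field_simp
      ring
    rw [h4, abs_mul, abs_neg, abs_div, abs_of_pos (by linarith : 0 < √T),
      abs_of_nonneg (by linarith : 0 ≤ √T - 1)]
    have h5 : |c| / √T ≤ 1 := (div_le_one (by linarith)).2 hcT
    have := mul_le_mul_of_nonneg_right h5 (by linarith : 0 ≤ √T - 1)
    linarith
  rw [e]
  calc |c / √T - u i x| = |(c / √T - c) + (c - u i x)| := by congr 1; ring
    _ ≤ |c / √T - c| + |c - u i x| := abs_add_le _ _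
    _ ≤ (√T - 1) + ε * (1 / τ ^ 2) := add_le_add h3 hcu
    _ ≤ ε * (√(1 + τ ^ 2) / τ + (1 / τ ^ 2) ^ 2) + ε * (1 / τ ^ 2) := by linarith
    _ = ε * kc τ := by unfold kc; ring

variable {M : Type} [MetricSpace M] [CompactSpace M] {γ : ℝ → M} (C : Calc M γ)

/-- `u` minimises the energy up to `δ` among the odd maps that are `ρ`-close to `u` -/
def LocMin {N : ℕ} (u : Fin N → M → ℝ) (ρ δ : ℝ) : Prop :=
  ∀ w : Fin (N + 1) → M → ℝ, Sph γ w → (∀ x i, |w (Fin.castSucc i) x - u i x| ≤ ρ) →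
    C.E u ≤ C.E w + δ

/-- the final statement for local near minimisers -/
theorem final_loc (hγ : Bd γ) {n : ℕ} {m : ℝ} (hm : 0 < m) {ρ : ℝ} (hρ : 0 < ρ) {B : ℝ}
    (H : ∀ δ : ℝ, 0 < δ → ∃ u : Fin (n + 3) → M → ℝ, Sph γ u ∧ C.E u ≤ B ∧
      (∀ x, m ≤ ‖vv u x‖) ∧ LocMin C u ρ δ ∧
      ∀ᵐ y : E3, ∃ (a b : Fin (n + 3) → ℝ) (Z : Finset M) (s : M → ℝ), Ortho a b ∧
        (∀ x, qf (lin a u) (lin b u) x = qq (vv u x) y) ∧ C.Vort (lin a u) (lin b u) Z s) :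
    2 * Real.pi * m ≤ C.vol := by
  refine final_sv C hγ (n := n) hm (B := B) ?_
  intro τ hτ r hr
  obtain ⟨C₀, hC₀, hvar⟩ := var_comp C hτ
  have hv0 := C.vol_nonneg
  have hkc := kc_pos hτ
  obtain ⟨D, hD⟩ : ∃ D, D = 2 + C₀ * (C.vol + |B|) := ⟨_, rfl⟩
  have hD0 : 0 < D := by rw [hD]; positivity
  obtain ⟨ε, hε⟩ : ∃ ε, ε = min 1 (min (ρ / kc τ) (r / D)) := ⟨_, rfl⟩
  have hε0 : 0 < ε := by rw [hε]; positivity
  have hε1 : ε ≤ 1 := by rw [hε]; exact min_le_left _ _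
  have hερ : ε * kc τ ≤ ρ := by
    rw [← le_div_iff₀ hkc, hε]
    exact (min_le_right _ _).trans (min_le_left _ _)
  have hεr : ε * D ≤ r := by
    rw [← le_div_iff₀ hD0, hε]
    exact (min_le_right _ _).trans (min_le_right _ _)
  obtain ⟨u, hu, hE, hmu, hN, hy⟩ := H (ε ^ 4) (pow_pos hε0 4)
  refine ⟨u, hu, hE, hmu, ?_, hy⟩
  intro a b hab ζ hζ hζ1 hodd
  have h1 := hvar a b u ζ (ε ^ 4) ε hab hu (hN _ (sph_comp hτ ε hab hu ⟨1, hζ⟩ hodd) ?_) hζ hζ1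
    hodd hε0 hε1
  · refine le_trans ?_ h1
    have e : 2 * ε ^ 4 / ε ^ 2 = 2 * ε ^ 2 := by
      field_simp
    rw [e]
    have h2 : C.E u ≤ |B| := hE.trans (le_abs_self B)
    have h3 : C₀ * (C.vol + C.E u) ≤ C₀ * (C.vol + |B|) := by gcongr
    have h4 : ε ^ 2 * D ≤ r := by
      refine le_trans ?_ hεr
      refine mul_le_mul_of_nonneg_right ?_ hD0.le
      nlinarith
    have h5 : ε ^ 2 * D = 2 * ε ^ 2 + ε ^ 2 * (C₀ * (C.vol + |B|)) := by rw [hD]; ring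
    nlinarith [sq_nonneg ε]
  · intro x i
    exact (comp_close hτ hε0 hε1 hab hu hζ1 i x).trans hερ

end Pool.Agent.EWD
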