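import Mathlib
import Pool.Agent.EWD.GDF
import Pool.Agent.EWD.RTA

/-
ONB: orthonormal bases of `y^⊥` in `E3`.  [about 90 lines, linear algebra]

For `y ≠ 0` there are `a, b` with `‖a‖ = ‖b‖ = 1`, `⟪a, b⟫ = 0`, both orthogonal to `y`, and `(a, b, y/‖y‖)` is an
orthonormal basis: take an orthonormal basis of `(ℝ ∙ y)ᗮ` (dimension 2: `Submodule.finrank_add_finrank_orthogonal`,
`finrank_span_singleton`; `stdOrthonormalBasis`), or extend `y/‖y‖` to an orthonormal basis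
(`Orthonormal.exists_orthonormalBasis_extension_of_card_eq`). Parseval (`OrthonormalBasis.sum_sq_norm_inner_right`)
gives `⟪a, v⟫² + ⟪b, v⟫² + ⟪y/‖y‖, v⟫² = ‖v‖²`, i.e. `= qq v y`; and if `⟪a, v⟫ = ⟪b, v⟫ = 0` then
`v = ⟪y/‖y‖, v⟫ y/‖y‖`.
`emb a : Fin (n+3) → ℝ` extends by zero: `∑ emb a i * u i = ∑_{i<3} a i u i` (`Fin.sum_univ_castAdd`-like
splitting or `Finset.sum` over `i.val < 3`), so `lin (emb a) u x = ⟪a, vv u x⟫`, and `emb` of orthonormal vectors
is `Ortho`.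
-/

open MeasureTheory Set Filter Measure
open scoped ENNReal NNReal

namespace Pool.Agent.EWD

theorem exists_ab {y : E3} (hy : y ≠ 0) : ∃ a b : E3, inner ℝ a a = (1 : ℝ) ∧ inner ℝ b b = (1 : ℝ) ∧
    inner ℝ a b = (0 : ℝ) ∧ (∀ v : E3, inner ℝ a v ^ 2 + inner ℝ b v ^ 2 = qq v y) ∧
    (∀ v : E3, inner ℝ a v = (0 : ℝ) → inner ℝ b v = (0 : ℝ) → ∃ r : ℝ, v = r • y) := by
  have hy0 : ‖y‖ ≠ 0 := norm_ne_zero_iff.mpr hy
  have hcard : Module.finrank ℝ E3 = Fintype.card (Fin 3) := by simp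
  have horth : Orthonormal ℝ (({2} : Set (Fin 3)).domRestrict (fun _ : Fin 3 => (‖y‖⁻¹ : ℝ) • y)) := by
    constructor
    · intro i
      change ‖(‖y‖⁻¹ : ℝ) • y‖ = 1
      rw [norm_smul, norm_inv, norm_norm]
      exact inv_mul_cancel₀ hy0
    · intro i j hij
      exact absurd (Subtype.ext (by rw [Set.mem_singleton_iff.mp i.2, Set.mem_singleton_iff.mp j.2])) hij
  obtain ⟨e, he⟩ := Orthonormal.exists_orthonormalBasis_extension_of_card_eq hcard horth
  have he2 : e 2 = (‖y‖⁻¹ : ℝ) • y := he 2 rfl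
  have hn : ∀ i, inner ℝ (e i) (e i) = (1 : ℝ) := by
    intro i
    rw [real_inner_self_eq_norm_sq, e.orthonormal.1 i]
    norm_num
  refine ⟨e 0, e 1, hn 0, hn 1, e.orthonormal.2 (by decide), ?_, ?_⟩
  · intro v
    have h1 := e.sum_sq_norm_inner_right v
    rw [Fin.sum_univ_three] at h1
    simp only [Real.norm_eq_abs, sq_abs] at h1
    have h2 : inner ℝ (e 2) v = inner ℝ v y / ‖y‖ := by
      rw [he2, real_inner_smul_left, real_inner_comm]
      field_simp
    unfold qq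
    rw [← h1, h2]
    ring
  · intro v h0 h1
    have h2 := e.sum_repr' v
    rw [Fin.sum_univ_three, h0, h1, zero_smul, zero_smul, zero_add, zero_add, he2, smul_smul] at h2
    exact ⟨_, h2.symm⟩

private theorem ONB_sum {n : ℕ} (a : E3) (c : Fin (n + 3) → ℝ) :
    ∑ i, emb a i * c i = a 0 * c 0 + a 1 * c 1 + a 2 * c 2 := by
  rw [Fin.sum_univ_succ, Fin.sum_univ_succ, Fin.sum_univ_succ]
  have h : ∀ i : Fin n, emb (n := n) a i.succ.succ.succ * c i.succ.succ.succ = 0 := by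
    intro i
    unfold emb
    rw [dif_neg, zero_mul]
    simp only [Fin.val_succ]
    omega
  rw [Finset.sum_congr rfl (fun i _ => h i), Finset.sum_const_zero]
  have e0 : emb (n := n) a 0 = a 0 := by
    unfold emb
    rw [dif_pos]
    rfl
  have e1 : emb (n := n) a (Fin.succ 0) = a 1 := by
    unfold emb
    rw [dif_pos]
    rfl
  have e2 : emb (n := n) a (Fin.succ (Fin.succ 0)) = a 2 := by
    unfold emb
    rw [dif_pos]
    rfl
  rw [e0, e1, e2]
  have s1 : (Fin.succ 0 : Fin (n + 3)) = 1 := rfl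
  have s2 : (Fin.succ (Fin.succ 0) : Fin (n + 3)) = 2 := rfl
  rw [s1, s2]
  ring

private theorem ONB_inner (a b : E3) : inner ℝ a b = a 0 * b 0 + a 1 * b 1 + a 2 * b 2 := by
  rw [PiLp.inner_apply, Fin.sum_univ_three]
  simp only [RCLike.inner_apply, conj_trivial]
  ring

private theorem ONB_emb {n : ℕ} (a b : E3) : ∑ i, emb (n := n) a i * emb b i = inner ℝ a b := by
  rw [ONB_sum, ONB_inner]
  have e0 : emb (n := n) b 0 = b 0 := by
    unfold emb
    rw [dif_pos]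
    rfl
  have e1 : emb (n := n) b 1 = b 1 := by
    change emb (n := n) b (Fin.succ 0) = b 1
    unfold emb
    rw [dif_pos]
    rfl
  have e2 : emb (n := n) b 2 = b 2 := by
    change emb (n := n) b (Fin.succ (Fin.succ 0)) = b 2
    unfold emb
    rw [dif_pos]
    rfl
  rw [e0, e1, e2]

theorem ortho_emb {n : ℕ} {a b : E3} (ha : inner ℝ a a = (1 : ℝ)) (hb : inner ℝ b b = (1 : ℝ))
    (hab : inner ℝ a b = (0 : ℝ)) : Ortho (emb (n := n) a) (emb b) := by
  refine ⟨?_, ?_, ?_⟩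
  · rw [← ha, ← ONB_emb (n := n)]
    exact Finset.sum_congr rfl (fun i _ => sq _)
  · rw [← hb, ← ONB_emb (n := n)]
    exact Finset.sum_congr rfl (fun i _ => sq _)
  · rw [← hab, ← ONB_emb (n := n)]

theorem lin_emb {M : Type} {n : ℕ} (a : E3) (u : Fin (n + 3) → M → ℝ) (x : M) :
    lin (emb a) u x = inner ℝ a (vv u x) := by
  unfold lin
  rw [ONB_sum a (fun i => u i x), ONB_inner]
  simp [vv]

end Pool.Agent.EWD
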