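import Mathlib
import Pool.Agent.EWD.GDF

/-
C1L: `C¹` functions in charts.  [about 60 lines]

`ContMDiff (𝓡∂ 2) 𝓘(ℝ, V) 1 X` composed with the smooth inverse chart (`cmd_symm`, H74/FAC/Riem1) is
`ContMDiffOn 𝓘(ℝ, E2) 𝓘(ℝ, V) 1` on the target, i.e. `ContDiffOn` (`contMDiffOn_iff_contDiffOn`). At
`z` in the target with `0 < z 0` the target is a neighbourhood of `z` (`e.extend_target_mem_nhdsWithin`
and `range_nhds`, or `mem_interior_target_iff`, H74/FAC/Riem3).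
-/

open MeasureTheory Set Filter Measure Manifold Bundle
open scoped ContDiff Topology ENNReal NNReal

set_option linter.unusedSectionVars false

namespace Pool.Agent.EWD

open Pool.Agent.H74.FAC

variable {M : Type} [MetricSpace M] [ChartedSpace HP M] [IsManifold (𝓡∂ 2) ∞ M] [CompactSpace M]

variable {V : Type} [NormedAddCommGroup V] [NormedSpace ℝ V]

theorem contDiffOn_chart {e : OpenPartialHomeomorph M HP}
    (he : e ∈ IsManifold.maximalAtlas (𝓡∂ 2) ∞ M) {X : M → V}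
    (hX : ContMDiff (𝓡∂ 2) 𝓘(ℝ, V) 1 X) :
    ContDiffOn ℝ 1 (fun y => X ((e.extend (𝓡∂ 2)).symm y)) (e.extend (𝓡∂ 2)).target := by
  rw [← contMDiffOn_iff_contDiffOn]
  have h0 : ContMDiffOn 𝓘(ℝ, E2) (𝓡∂ 2) ∞ (e.extend (𝓡∂ 2)).symm (e.extend (𝓡∂ 2)).target := by
    rw [OpenPartialHomeomorph.extend_target']
    exact contMDiffOn_extend_symm he
  have h1 : ContMDiffOn 𝓘(ℝ, E2) (𝓡∂ 2) 1 (e.extend (𝓡∂ 2)).symm (e.extend (𝓡∂ 2)).target :=
    h0.of_le (by simp)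
  exact hX.comp_contMDiffOn h1

theorem target_nhds {e : OpenPartialHomeomorph M HP} {z : E2}
    (hz : z ∈ (e.extend (𝓡∂ 2)).target) (h0 : 0 < z 0) : (e.extend (𝓡∂ 2)).target ∈ 𝓝 z := by
  have h1 : (e.extend (𝓡∂ 2)).target ∈ 𝓝[range (𝓡∂ 2)] z := by
    have h := (e.extend (𝓡∂ 2)).map_target hz
    rw [OpenPartialHomeomorph.extend_source] at h
    have := e.extend_target_mem_nhdsWithin (I := 𝓡∂ 2) h
    rwa [(e.extend (𝓡∂ 2)).right_inv hz] at this
  have h2 : range (𝓡∂ 2) ∈ 𝓝 z := by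
    rw [mem_nhds_iff]
    refine ⟨interior (range (𝓡∂ 2)), interior_subset, isOpen_interior, ?_⟩
    rw [interior_range]
    exact h0
  rwa [nhdsWithin_eq_nhds.2 h2] at h1

theorem contDiffAt_chart {e : OpenPartialHomeomorph M HP}
    (he : e ∈ IsManifold.maximalAtlas (𝓡∂ 2) ∞ M) {X : M → V}
    (hX : ContMDiff (𝓡∂ 2) 𝓘(ℝ, V) 1 X) {z : E2} (hz : z ∈ (e.extend (𝓡∂ 2)).target)
    (h0 : 0 < z 0) : ContDiffAt ℝ 1 (fun y => X ((e.extend (𝓡∂ 2)).symm y)) z :=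
  (contDiffOn_chart he hX).contDiffAt (target_nhds hz h0)

end Pool.Agent.EWD
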