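import Mathlib
import Pool.Agent.EWD.GDF
import Pool.Agent.EWD.C1L

/-
SRA: Sard for `(z, r) ↦ r v(z)`, interior points.  [about 120 lines]

`V z = v (e.symm z)`, `C¹` at the points `z` of the target with `0 < z 0` (`contDiffAt_chart`). Consider
`Φ : E3 → E3`, `Φ p = p 2 • V !₂[p 0, p 1]`, on `s = {p | !₂[p 0, p 1] ∈ target, 0 < p 0, tri (∂₀V) (∂₁V) V = 0}`
(at `!₂[p 0, p 1]`). It is differentiable at every point of `s`, with
`DΦ(p) h = h 2 • V + p 2 • (h 0 • ∂₀V + h 1 • ∂₁V)`, whose determinant is `(p 2)² tri (∂₀V) (∂₁V) V = 0`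
(`LinearMap.det` via the matrix in the standard basis, `Matrix.det_fin_three`). Hence `Φ '' s` is a null set:
`MeasureTheory.addHaar_image_eq_zero_of_det_fderivWithin_eq_zero`. The bad set is `Φ '' s`.
-/

open MeasureTheory Set Filter Measure Manifold Bundle
open scoped ContDiff Topology ENNReal NNReal

set_option linter.unusedSectionVars false

namespace Pool.Agent.EWD

open Pool.Agent.H74.FAC

variable {M : Type} [MetricSpace M] [ChartedSpace HP M] [IsManifold (𝓡∂ 2) ∞ M] [CompactSpace M]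

/-- projection to the first two coordinates -/
private noncomputable def SRA_P : E3 →L[ℝ] E2 :=
  LinearMap.toContinuousLinearMap
    { toFun := fun p => !₂[p 0, p 1]
      map_add' := by
        intro p q
        ext i
        fin_cases i <;> simp
      map_smul' := by
        intro c p
        ext i
        fin_cases i <;> simp }

private theorem SRA_P_apply (p : E3) : SRA_P p = !₂[p 0, p 1] := rfl

/-- third coordinate -/
private noncomputable def SRA_Q : E3 →L[ℝ] ℝ :=
  LinearMap.toContinuousLinearMap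
    { toFun := fun p => p 2
      map_add' := by
        intro p q
        simp
      map_smul' := by
        intro c p
        simp }

private theorem SRA_Q_apply (p : E3) : SRA_Q p = p 2 := rfl

private theorem SRA_P_single0 : SRA_P (EuclideanSpace.single 0 (1 : ℝ)) = bv 0 := by
  rw [SRA_P_apply]
  ext i
  fin_cases i <;> simp [bv]

private theorem SRA_P_single1 : SRA_P (EuclideanSpace.single 1 (1 : ℝ)) = bv 1 := by
  rw [SRA_P_apply]
  ext i
  fin_cases i <;> simp [bv]

private theorem SRA_P_single2 : SRA_P (EuclideanSpace.single 2 (1 : ℝ)) = 0 := by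
  rw [SRA_P_apply]
  ext i
  fin_cases i <;> simp

private theorem SRA_det (r : ℝ) (D : E2 →L[ℝ] E3) (w : E3)
    (h : tri (D (bv 0)) (D (bv 1)) w = 0) :
    (r • (D.comp SRA_P) + SRA_Q.smulRight w).det = 0 := by
  have hb : ∀ j : Fin 3, (EuclideanSpace.basisFun (Fin 3) ℝ).toBasis j
      = EuclideanSpace.single j (1 : ℝ) := by
    intro j
    simp
  rw [ContinuousLinearMap.det, ← LinearMap.det_toMatrix (EuclideanSpace.basisFun (Fin 3) ℝ).toBasis,
    Matrix.det_fin_three]
  simp only [LinearMap.toMatrix_apply, hb]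
  unfold tri at h
  simp only [OrthonormalBasis.coe_toBasis_repr_apply, EuclideanSpace.basisFun_repr,
    ContinuousLinearMap.coe_coe, ContinuousLinearMap.add_apply, ContinuousLinearMap.smul_apply,
    ContinuousLinearMap.comp_apply, ContinuousLinearMap.smulRight_apply, SRA_P_single0,
    SRA_P_single1, SRA_P_single2, SRA_Q_apply, map_zero, PiLp.add_apply, PiLp.smul_apply,
    smul_eq_mul, EuclideanSpace.single_apply]
  simp
  linear_combination (r ^ 2) * h

theorem sard_int {e : OpenPartialHomeomorph M HP} (he : e ∈ IsManifold.maximalAtlas (𝓡∂ 2) ∞ M)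
    {v : M → E3} (hv : ContMDiff (𝓡∂ 2) 𝓘(ℝ, E3) 1 v) :
    ∀ᵐ y : E3, ∀ z ∈ (e.extend (𝓡∂ 2)).target, 0 < z 0 → ∀ r : ℝ,
      y = r • v ((e.extend (𝓡∂ 2)).symm z) →
      tri (fderiv ℝ (fun y => v ((e.extend (𝓡∂ 2)).symm y)) z (bv 0))
        (fderiv ℝ (fun y => v ((e.extend (𝓡∂ 2)).symm y)) z (bv 1))
        (v ((e.extend (𝓡∂ 2)).symm z)) ≠ 0 := by
  set V : E2 → E3 := fun y => v ((e.extend (𝓡∂ 2)).symm y) with hV
  set s : Set E3 := {p | SRA_P p ∈ (e.extend (𝓡∂ 2)).target ∧ 0 < (SRA_P p) 0 ∧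
    tri (fderiv ℝ V (SRA_P p) (bv 0)) (fderiv ℝ V (SRA_P p) (bv 1)) (V (SRA_P p)) = 0} with hs
  have hder : ∀ p ∈ s, HasFDerivWithinAt (fun p : E3 => p 2 • V (SRA_P p))
      (p 2 • ((fderiv ℝ V (SRA_P p)).comp SRA_P) + SRA_Q.smulRight (V (SRA_P p))) s p := by
    intro p hp
    have h1 : HasFDerivAt V (fderiv ℝ V (SRA_P p)) (SRA_P p) :=
      ((contDiffAt_chart he hv hp.1 hp.2.1).differentiableAt one_ne_zero).hasFDerivAt
    have h2 : HasFDerivAt (fun p : E3 => V (SRA_P p)) ((fderiv ℝ V (SRA_P p)).comp SRA_P) p :=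
      h1.comp p SRA_P.hasFDerivAt
    have h3 : HasFDerivAt (fun p : E3 => SRA_Q p) SRA_Q p := SRA_Q.hasFDerivAt
    exact (h3.smul h2).hasFDerivWithinAt
  have hz : volume ((fun p : E3 => p 2 • V (SRA_P p)) '' s) = 0 :=
    addHaar_image_eq_zero_of_det_fderivWithin_eq_zero volume hder
      (fun p hp => SRA_det _ _ _ hp.2.2)
  rw [ae_iff]
  refine measure_mono_null ?_ hz
  intro y hy
  simp only [mem_setOf_eq, not_forall, not_not] at hy
  obtain ⟨z, hz1, hz2, r, hr, ht⟩ := hy
  have hp : SRA_P (!₂[z 0, z 1, r] : E3) = z := by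
    rw [SRA_P_apply]
    ext i
    fin_cases i <;> simp
  refine ⟨!₂[z 0, z 1, r], ⟨?_, ?_, ?_⟩, ?_⟩
  · rw [hp]; exact hz1
  · rw [hp]; exact hz2
  · rw [hp]; exact ht
  · show (!₂[z 0, z 1, r] : E3) 2 • V (SRA_P (!₂[z 0, z 1, r] : E3)) = y
    rw [hp, hr]
    rfl

end Pool.Agent.EWD
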