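import Mathlib
import Pool.Agent.EWD.GDF
import Pool.Agent.EWD.LPA
import Pool.Agent.EWD.SRA

/-
SRL: Sard for `(z, r) ↦ r v(z)`, `v` Lipschitz.  [about 160 lines]

(1) `null_image`: a locally Lipschitz map `E3 → E3` maps null sets to null sets. `volume` on `E3` is a positive
 multiple of `μH[3]` (both are additive Haar measures: `isAddHaarMeasure_hausdorffMeasure`,
 `Measure.isAddHaarMeasure_eq_smul` / `addHaarMeasure_unique`), and `LipschitzOnWith.hausdorffMeasure_image_le`; cut `S` into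
 `S ∩ ball 0 n`.
(2) `P` a patch, `V : E2 → E3` a globally Lipschitz map with `V z = v (e.symm z)` on `P.D` (components: `P.exists_ext`,
 H74/FAC/Patch; or `LipschitzOnWith.extend_pi`), `Φ p = p 2 • V !₂[p 0, p 1]` is locally Lipschitz on `E3`. Null sets
 `S₁ = {p | p 0 = 0}` and `S₂ = {p | V is not differentiable at !₂[p 0, p 1]}` (Rademacher
 `LipschitzWith.ae_differentiableAt`, and `p ↦ !₂[p 0, p 1]` is quasi measure preserving: Fubini); their images are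
 null. On `S₃ = {p | V differentiable at !₂[p 0, p 1], tri (∂₀V) (∂₁V) V = 0}` the map `Φ` is differentiable with
 determinant 0 (see the proof of `sard_int` in SRA), so `Φ '' S₃` is null
 (`addHaar_image_eq_zero_of_det_fderivWithin_eq_zero`).
 If `y` is in none of the images and `y = r • v x`, `x ∈ P.V`, `z = e x ∈ P.D`, `p = (z 0, z 1, r)`, then `z 0 ≠ 0`, so
 `0 < z 0` (`ext_nonneg`) and `z ∈ P.O`, where `v ∘ e.symm = V` near `z`.
-/

open MeasureTheory Set Filter Measure Manifold Bundle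
open scoped ContDiff Topology ENNReal NNReal

set_option linter.unusedSectionVars false

namespace Pool.Agent.EWD

open Pool.Agent.H74.FAC

variable {M : Type} [MetricSpace M] [ChartedSpace HP M] [IsManifold (𝓡∂ 2) ∞ M] [CompactSpace M]

theorem null_image {Φ : E3 → E3} (hΦ : ∀ R : ℝ, ∃ K : ℝ≥0, LipschitzOnWith K Φ (Metric.ball 0 R))
    {S : Set E3} (hS : volume S = 0) : volume (Φ '' S) = 0 := by
  have hfr : (0 : ℝ) ≤ (Module.finrank ℝ E3 : ℝ) := Nat.cast_nonneg _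
  have h1 : (μH[(Module.finrank ℝ E3 : ℝ)] : Measure E3) ≪ volume :=
    absolutelyContinuous_isAddHaarMeasure _ _
  have h2 : (volume : Measure E3) ≪ μH[(Module.finrank ℝ E3 : ℝ)] :=
    absolutelyContinuous_isAddHaarMeasure _ _
  have hcov : Φ '' S ⊆ ⋃ n : ℕ, Φ '' (S ∩ Metric.ball 0 (n : ℝ)) := by
    rintro _ ⟨p, hp, rfl⟩
    obtain ⟨n, hn⟩ := exists_nat_gt ‖p‖
    exact mem_iUnion.2 ⟨n, p, ⟨hp, by rwa [mem_ball_zero_iff]⟩, rfl⟩
  refine measure_mono_null hcov (measure_iUnion_null fun n => ?_)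
  obtain ⟨K, hK⟩ := hΦ n
  apply h2
  have h3 : μH[(Module.finrank ℝ E3 : ℝ)] (S ∩ Metric.ball 0 (n : ℝ)) = 0 :=
    measure_mono_null inter_subset_left (h1 hS)
  have h4 := (hK.mono (inter_subset_right (s := S))).hausdorffMeasure_image_le hfr
  rw [h3, mul_zero] at h4
  exact nonpos_iff_eq_zero.1 h4

/-- projection to the first two coordinates -/
private noncomputable def SRL_P : E3 →L[ℝ] E2 :=
  LinearMap.toContinuousLinearMap
    { toFun := fun p => !₂[p 0, p 1]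
      map_add' := by
        intro p q
        ext i
        fin_cases i <;> simp
      map_smul' := by
        intro c p
        ext i
        fin_cases i <;> simp }

private theorem SRL_P_apply (p : E3) : SRL_P p = !₂[p 0, p 1] := rfl

private theorem SRL_P_mk (z : E2) (r : ℝ) : SRL_P (!₂[z 0, z 1, r] : E3) = z := by
  rw [SRL_P_apply]
  ext i
  fin_cases i <;> simp

/-- third coordinate -/
private noncomputable def SRL_Q : E3 →L[ℝ] ℝ :=
  LinearMap.toContinuousLinearMap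
    { toFun := fun p => p 2
      map_add' := by
        intro p q
        simp
      map_smul' := by
        intro c p
        simp }

private theorem SRL_Q_apply (p : E3) : SRL_Q p = p 2 := rfl

private theorem SRL_P_single0 : SRL_P (EuclideanSpace.single 0 (1 : ℝ)) = bv 0 := by
  rw [SRL_P_apply]
  ext i
  fin_cases i <;> simp [bv]

private theorem SRL_P_single1 : SRL_P (EuclideanSpace.single 1 (1 : ℝ)) = bv 1 := by
  rw [SRL_P_apply]
  ext i
  fin_cases i <;> simp [bv]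

private theorem SRL_P_single2 : SRL_P (EuclideanSpace.single 2 (1 : ℝ)) = 0 := by
  rw [SRL_P_apply]
  ext i
  fin_cases i <;> simp

private theorem SRL_det (r : ℝ) (D : E2 →L[ℝ] E3) (w : E3)
    (h : tri (D (bv 0)) (D (bv 1)) w = 0) :
    (r • (D.comp SRL_P) + SRL_Q.smulRight w).det = 0 := by
  have hb : ∀ j : Fin 3, (EuclideanSpace.basisFun (Fin 3) ℝ).toBasis j
      = EuclideanSpace.single j (1 : ℝ) := by
    intro j
    simp
  rw [ContinuousLinearMap.det, ← LinearMap.det_toMatrix (EuclideanSpace.basisFun (Fin 3) ℝ).toBasis,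
    Matrix.det_fin_three]
  simp only [LinearMap.toMatrix_apply, hb]
  unfold tri at h
  simp only [OrthonormalBasis.coe_toBasis_repr_apply, EuclideanSpace.basisFun_repr,
    ContinuousLinearMap.coe_coe, _root_.add_apply, _root_.smul_apply,
    ContinuousLinearMap.comp_apply, ContinuousLinearMap.smulRight_apply, SRL_P_single0,
    SRL_P_single1, SRL_P_single2, SRL_Q_apply, map_zero, PiLp.add_apply, PiLp.smul_apply,
    smul_eq_mul, PiLp.single_apply]
  simp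
  linear_combination (r ^ 2) * h

/-- a map into three dimensional space with Lipschitz components is Lipschitz -/
private theorem SRL_lip3 {U : Fin 3 → E2 → ℝ} {c : Fin 3 → ℝ≥0}
    (hU : ∀ i, LipschitzWith (c i) (U i)) :
    LipschitzWith (c 0 + c 1 + c 2) (fun z => (!₂[U 0 z, U 1 z, U 2 z] : E3)) := by
  apply LipschitzWith.of_dist_le_mul
  intro z w
  have h0 := (hU 0).dist_le_mul z w
  have h1 := (hU 1).dist_le_mul z w
  have h2 := (hU 2).dist_le_mul z w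
  rw [EuclideanSpace.dist_eq, Fin.sum_univ_three]
  have e0 : 0 ≤ dist (U 0 z) (U 0 w) := dist_nonneg
  have e1 : 0 ≤ dist (U 1 z) (U 1 w) := dist_nonneg
  have e2 : 0 ≤ dist (U 2 z) (U 2 w) := dist_nonneg
  have h3 : √(dist (U 0 z) (U 0 w) ^ 2 + dist (U 1 z) (U 1 w) ^ 2 + dist (U 2 z) (U 2 w) ^ 2)
      ≤ dist (U 0 z) (U 0 w) + dist (U 1 z) (U 1 w) + dist (U 2 z) (U 2 w) := by
    apply Real.sqrt_le_iff.2
    constructor
    · positivity
    · nlinarith [mul_nonneg e0 e1, mul_nonneg e0 e2, mul_nonneg e1 e2]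
  refine le_trans (b := dist (U 0 z) (U 0 w) + dist (U 1 z) (U 1 w) + dist (U 2 z) (U 2 w)) h3 ?_
  push_cast
  linarith

/-- the cone over a Lipschitz map is locally Lipschitz -/
private theorem SRL_cone {V : E2 → E3} {C : ℝ≥0} (hV : LipschitzWith C V) (R : ℝ) :
    ∃ K : ℝ≥0, LipschitzOnWith K (fun p : E3 => SRL_Q p • V (SRL_P p)) (Metric.ball 0 R) := by
  have hR : 0 ≤ max R 0 := le_max_right _ _
  refine ⟨⟨‖SRL_Q‖ * (‖V 0‖ + C * (‖SRL_P‖ * max R 0)) + ‖SRL_Q‖ * max R 0 * (C * ‖SRL_P‖),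
    by positivity⟩, LipschitzOnWith.of_dist_le_mul ?_⟩
  intro p hp q hq
  rw [mem_ball_zero_iff] at hp hq
  have hp' : ‖p‖ ≤ max R 0 := hp.le.trans (le_max_left _ _)
  have hq' : ‖q‖ ≤ max R 0 := hq.le.trans (le_max_left _ _)
  rw [dist_eq_norm, dist_eq_norm]
  have h1 : SRL_Q p • V (SRL_P p) - SRL_Q q • V (SRL_P q)
      = SRL_Q (p - q) • V (SRL_P p) + SRL_Q q • (V (SRL_P p) - V (SRL_P q)) := by
    rw [map_sub, sub_smul, smul_sub]
    abel
  rw [h1]
  have h2 : ‖SRL_Q (p - q)‖ ≤ ‖SRL_Q‖ * ‖p - q‖ := SRL_Q.le_opNorm _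
  have h3 : ‖SRL_Q q‖ ≤ ‖SRL_Q‖ * max R 0 :=
    (SRL_Q.le_opNorm _).trans (mul_le_mul_of_nonneg_left hq' (norm_nonneg _))
  have h4 : ‖V (SRL_P p) - V (SRL_P q)‖ ≤ C * (‖SRL_P‖ * ‖p - q‖) := by
    have h5 := hV.dist_le_mul (SRL_P p) (SRL_P q)
    rw [dist_eq_norm, dist_eq_norm, ← map_sub] at h5
    exact h5.trans (mul_le_mul_of_nonneg_left (SRL_P.le_opNorm _) C.2)
  have h6 : ‖V (SRL_P p)‖ ≤ ‖V 0‖ + C * (‖SRL_P‖ * max R 0) := by
    have h5 := hV.dist_le_mul (SRL_P p) 0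
    rw [dist_eq_norm, dist_eq_norm, sub_zero] at h5
    have h7 : ‖SRL_P p‖ ≤ ‖SRL_P‖ * max R 0 :=
      (SRL_P.le_opNorm _).trans (mul_le_mul_of_nonneg_left hp' (norm_nonneg _))
    have h8 : ‖V (SRL_P p)‖ ≤ ‖V 0‖ + ‖V (SRL_P p) - V 0‖ := by
      have := norm_add_le (V 0) (V (SRL_P p) - V 0)
      rwa [add_sub_cancel] at this
    have h9 : (C : ℝ) * ‖SRL_P p‖ ≤ C * (‖SRL_P‖ * max R 0) :=
      mul_le_mul_of_nonneg_left h7 C.2
    linarith
  calc ‖SRL_Q (p - q) • V (SRL_P p) + SRL_Q q • (V (SRL_P p) - V (SRL_P q))‖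
      ≤ ‖SRL_Q (p - q)‖ * ‖V (SRL_P p)‖ + ‖SRL_Q q‖ * ‖V (SRL_P p) - V (SRL_P q)‖ := by
        refine (norm_add_le _ _).trans ?_
        rw [norm_smul, norm_smul]
    _ ≤ (‖SRL_Q‖ * ‖p - q‖) * (‖V 0‖ + C * (‖SRL_P‖ * max R 0))
        + (‖SRL_Q‖ * max R 0) * (C * (‖SRL_P‖ * ‖p - q‖)) := by
        refine add_le_add (mul_le_mul h2 h6 (norm_nonneg _) (by positivity))
          (mul_le_mul h3 h4 (norm_nonneg _) (by positivity))
    _ = (‖SRL_Q‖ * (‖V 0‖ + C * (‖SRL_P‖ * max R 0)) + ‖SRL_Q‖ * max R 0 * (C * ‖SRL_P‖))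
        * ‖p - q‖ := by ring

theorem sard_lip (P : Patch M) {v : M → E3} (hv : ∃ L : ℝ≥0, LipschitzWith L v) :
    ∀ᵐ y : E3, ∀ x ∈ P.V, ∀ r : ℝ, y = r • v x →
      0 < (P.e.extend (𝓡∂ 2) x) 0 ∧
      DifferentiableAt ℝ (fun y => v ((P.e.extend (𝓡∂ 2)).symm y)) (P.e.extend (𝓡∂ 2) x) ∧
      tri (fderiv ℝ (fun y => v ((P.e.extend (𝓡∂ 2)).symm y)) (P.e.extend (𝓡∂ 2) x) (bv 0))
        (fderiv ℝ (fun y => v ((P.e.extend (𝓡∂ 2)).symm y)) (P.e.extend (𝓡∂ 2) x) (bv 1))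
        (v x) ≠ 0 := by
  obtain ⟨L, hL⟩ := hv
  -- a global extension of `v` in the chart
  have hcomp : ∀ i : Fin 3, LipschitzWith L (fun x => v x i) := by
    intro i
    apply LipschitzWith.of_dist_le_mul
    intro x y
    refine le_trans ?_ (hL.dist_le_mul x y)
    rw [dist_eq_norm, dist_eq_norm]
    exact PiLp.norm_apply_le (v x - v y) i
  choose c U hU hUD using fun i : Fin 3 => P.exists_ext (hcomp i)
  obtain ⟨V, hVdef⟩ : ∃ V : E2 → E3, V = fun z => (!₂[U 0 z, U 1 z, U 2 z] : E3) := ⟨_, rfl⟩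
  have hV : LipschitzWith (c 0 + c 1 + c 2) V := by
    rw [hVdef]
    exact SRL_lip3 hU
  have hVD : ∀ z ∈ P.D, V z = v ((P.e.extend (𝓡∂ 2)).symm z) := by
    intro z hz
    rw [hVdef]
    ext i
    fin_cases i
    · exact hUD 0 z hz
    · exact hUD 1 z hz
    · exact hUD 2 z hz
  -- the first null set
  set G : Set E2 := {z | DifferentiableAt ℝ V z} ∩ {z : E2 | z 0 ≠ 0} with hG
  have hGm : MeasurableSet G := by
    refine (measurableSet_of_differentiableAt ℝ V).inter ?_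
    have ho : IsOpen {z : E2 | z 0 ≠ 0} := by
      have : {z : E2 | z 0 ≠ 0} = (fun z : E2 => z 0) ⁻¹' {0}ᶜ := rfl
      rw [this]
      exact isOpen_compl_singleton.preimage (continuous_coord 0)
    exact ho.measurableSet
  have hline : ∀ᵐ z : E2, z 0 ≠ 0 := by
    have hsub : volume ((LinearMap.ker ((EuclideanSpace.proj (0 : Fin 2) : E2 →L[ℝ] ℝ) :
        E2 →ₗ[ℝ] ℝ) : Submodule ℝ E2) : Set E2) = 0 := by
      apply Measure.addHaar_submodule
      intro h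
      rw [LinearMap.ker_eq_top] at h
      have h1 : ((EuclideanSpace.proj (0 : Fin 2) : E2 →L[ℝ] ℝ) : E2 →ₗ[ℝ] ℝ)
          (EuclideanSpace.single 0 (1 : ℝ)) = 0 := by rw [h]; rfl
      simp at h1
    rw [ae_iff]
    refine measure_mono_null ?_ hsub
    intro z hz
    simp only [ne_eq, not_not, mem_ofPred_eq] at hz
    simpa using hz
  have hGae : ∀ᵐ z : E2, z ∈ G := by
    filter_upwards [hV.ae_differentiableAt (μ := volume), hline] with z h1 h2
    exact ⟨h1, h2⟩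
  have hsurj : Function.Surjective (SRL_P : E3 →ₗ[ℝ] E2) :=
    fun z => ⟨!₂[z 0, z 1, 0], SRL_P_mk z 0⟩
  have hPae : ∀ᵐ p : E3, SRL_P p ∈ G :=
    (ae_comp_linearMap_mem_iff (SRL_P : E3 →ₗ[ℝ] E2) volume volume hsurj hGm).2 hGae
  have hz1 : volume ((fun p : E3 => SRL_Q p • V (SRL_P p)) '' {p | ¬ SRL_P p ∈ G}) = 0 :=
    null_image (SRL_cone hV) (ae_iff.1 hPae)
  -- the second null set
  set s : Set E3 := {p | DifferentiableAt ℝ V (SRL_P p) ∧
    tri (fderiv ℝ V (SRL_P p) (bv 0)) (fderiv ℝ V (SRL_P p) (bv 1)) (V (SRL_P p)) = 0} with hs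
  have hder : ∀ p ∈ s, HasFDerivWithinAt (fun p : E3 => SRL_Q p • V (SRL_P p))
      (SRL_Q p • ((fderiv ℝ V (SRL_P p)).comp SRL_P) + SRL_Q.smulRight (V (SRL_P p))) s p := by
    intro p hp
    have h1 : HasFDerivAt V (fderiv ℝ V (SRL_P p)) (SRL_P p) := hp.1.hasFDerivAt
    have h2 : HasFDerivAt (fun p : E3 => V (SRL_P p)) ((fderiv ℝ V (SRL_P p)).comp SRL_P) p :=
      h1.comp p SRL_P.hasFDerivAt
    have h3 : HasFDerivAt (fun p : E3 => SRL_Q p) SRL_Q p := SRL_Q.hasFDerivAt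
    exact (h3.smul h2).hasFDerivWithinAt
  have hz2 : volume ((fun p : E3 => SRL_Q p • V (SRL_P p)) '' s) = 0 :=
    addHaar_image_eq_zero_of_det_fderivWithin_eq_zero volume hder
      (fun p hp => SRL_det _ _ _ hp.2)
  have hae : ∀ᵐ y : E3, y ∉ (fun p : E3 => SRL_Q p • V (SRL_P p)) '' {p | ¬ SRL_P p ∈ G} ∧
      y ∉ (fun p : E3 => SRL_Q p • V (SRL_P p)) '' s :=
    (measure_eq_zero_iff_ae_notMem.1 hz1).and (measure_eq_zero_iff_ae_notMem.1 hz2)
  filter_upwards [hae] with y hy x hx r hr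
  have hD := P.mem_D_of_V hx
  have hVx : V (P.e.extend (𝓡∂ 2) x) = v x := by
    rw [hVD _ hD, ext_left_inv (P.V_sub hx)]
  set z := P.e.extend (𝓡∂ 2) x with hz
  have hp : SRL_P (!₂[z 0, z 1, r] : E3) = z := SRL_P_mk z r
  have hq : SRL_Q (!₂[z 0, z 1, r] : E3) = r := rfl
  have hy' : (fun p : E3 => SRL_Q p • V (SRL_P p)) (!₂[z 0, z 1, r] : E3) = y := by
    show SRL_Q (!₂[z 0, z 1, r] : E3) • V (SRL_P (!₂[z 0, z 1, r] : E3)) = y
    rw [hp, hq, hVx, hr]
  have hzG : z ∈ G := by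
    by_contra hcon
    apply hy.1
    refine ⟨_, ?_, hy'⟩
    show ¬ SRL_P (!₂[z 0, z 1, r] : E3) ∈ G
    rw [hp]
    exact hcon
  have hpos : 0 < z 0 := lt_of_le_of_ne (ext_nonneg _ _) (Ne.symm hzG.2)
  have hO : z ∈ P.O := ⟨hx.2, hpos⟩
  have hev : (fun y => v ((P.e.extend (𝓡∂ 2)).symm y)) =ᶠ[𝓝 z] V := by
    filter_upwards [P.O_open.mem_nhds hO] with w hw
    rw [hVD w (P.O_sub_D hw)]
  refine ⟨hpos, ?_, ?_⟩
  · rw [hev.differentiableAt_iff]
    exact hzG.1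
  · rw [hev.fderiv_eq, ← hVx]
    intro ht
    apply hy.2
    refine ⟨_, ?_, hy'⟩
    show DifferentiableAt ℝ V (SRL_P (!₂[z 0, z 1, r] : E3)) ∧
      tri (fderiv ℝ V (SRL_P (!₂[z 0, z 1, r] : E3)) (bv 0))
        (fderiv ℝ V (SRL_P (!₂[z 0, z 1, r] : E3)) (bv 1))
        (V (SRL_P (!₂[z 0, z 1, r] : E3))) = 0
    rw [hp]
    exact ⟨hzG.1, ht⟩

end Pool.Agent.EWD
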