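import Mathlib
import Pool.Agent.EWD.GDF
import Pool.Agent.EWD.LPA
import Pool.Agent.EWD.RTA
import Pool.Agent.EWD.ONB
import Pool.Agent.EWD.SRL

/-
SRM: for almost every `y` the zeros are interior and nondegenerate, Lipschitz version of SRC.
[copy of the proof of SRC, about 110 lines]

See outputs/live/Pool/Agent/EWD/SRC.lean; use `sard_lip` for the finitely many patches `A.P k`.
`X ∘ e.symm = ⟪a, v ∘ e.symm⟫` is differentiable where `v ∘ e.symm` is.
-/

open MeasureTheory Set Filter Measure Manifold Bundle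
open scoped ContDiff Topology ENNReal NNReal

set_option linter.unusedSectionVars false

namespace Pool.Agent.EWD

open Pool.Agent.H74.FAC

variable {M : Type} [MetricSpace M] [ChartedSpace HP M] [IsManifold (𝓡∂ 2) ∞ M] [CompactSpace M]

private theorem SRM_left {V0 V1 V y : E3} {al be t r : ℝ} (hV : V = r • y)
    (hw : al • V0 + be • V1 = t • y) : al * tri V0 V1 V = 0 := by
  have h : ∀ i, al * V0 i + be * V1 i = t * y i := by
    intro i
    have := congrArg (fun w : E3 => w i) hw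
    simpa using this
  have hv : ∀ i, V i = r * y i := by
    intro i
    rw [hV]
    simp
  unfold tri
  rw [hv 0, hv 1, hv 2]
  linear_combination (V1 1 * (r * y 2) - V1 2 * (r * y 1)) * h 0
    - (V1 0 * (r * y 2) - V1 2 * (r * y 0)) * h 1 + (V1 0 * (r * y 1) - V1 1 * (r * y 0)) * h 2

private theorem SRM_right {V0 V1 V y : E3} {al be t r : ℝ} (hV : V = r • y)
    (hw : al • V0 + be • V1 = t • y) : be * tri V0 V1 V = 0 := by
  have h : ∀ i, al * V0 i + be * V1 i = t * y i := by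
    intro i
    have := congrArg (fun w : E3 => w i) hw
    simpa using this
  have hv : ∀ i, V i = r * y i := by
    intro i
    rw [hV]
    simp
  unfold tri
  rw [hv 0, hv 1, hv 2]
  linear_combination (V0 2 * (r * y 1) - V0 1 * (r * y 2)) * h 0
    + (V0 0 * (r * y 2) - V0 2 * (r * y 0)) * h 1 + (V0 1 * (r * y 0) - V0 0 * (r * y 1)) * h 2

private theorem SRM_ker (p q p' q' : ℝ) (h : p * q' - q * p' = 0) :
    ∃ al be : ℝ, (al ≠ 0 ∨ be ≠ 0) ∧ al * p + be * q = 0 ∧ al * p' + be * q' = 0 := by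
  by_cases h1 : p = 0 ∧ q = 0
  · obtain ⟨rfl, rfl⟩ := h1
    by_cases h2 : p' = 0 ∧ q' = 0
    · obtain ⟨rfl, rfl⟩ := h2
      exact ⟨1, 0, Or.inl one_ne_zero, by simp, by simp⟩
    · refine ⟨q', -p', ?_, by simp, by ring⟩
      by_contra hc
      apply h2
      simp only [not_or, not_not, neg_eq_zero] at hc
      exact ⟨hc.2, hc.1⟩
  · refine ⟨q, -p, ?_, by ring, by linarith⟩
    by_contra hc
    apply h1
    simp only [not_or, not_not, neg_eq_zero] at hc
    exact ⟨hc.2, hc.1⟩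

private theorem SRM_lin {a b y V V0 V1 : E3} {r : ℝ}
    (hab : ∀ w : E3, inner ℝ a w = (0 : ℝ) → inner ℝ b w = (0 : ℝ) → ∃ r : ℝ, w = r • y)
    (hV : V = r • y)
    (hdet : inner ℝ a V0 * inner ℝ b V1 - inner ℝ a V1 * inner ℝ b V0 = (0 : ℝ)) :
    tri V0 V1 V = 0 := by
  obtain ⟨al, be, hne, h1, h2⟩ := SRM_ker _ _ _ _ hdet
  obtain ⟨t, ht⟩ := hab (al • V0 + be • V1)
    (by rw [inner_add_right, inner_smul_right, inner_smul_right]; exact h1)
    (by rw [inner_add_right, inner_smul_right, inner_smul_right]; exact h2)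
  rcases hne with h | h
  · exact (mul_eq_zero.1 (SRM_left hV ht)).resolve_left h
  · exact (mul_eq_zero.1 (SRM_right hV ht)).resolve_left h

theorem sard_zeros_lip (A : Cov M) {v : M → E3} (hv : ∃ L : ℝ≥0, LipschitzWith L v)
    (hv0 : ∀ x, v x ≠ 0) : ∀ᵐ y : E3, y ≠ 0 ∧ ∀ a b : E3,
      (∀ w : E3, inner ℝ a w = (0 : ℝ) → inner ℝ b w = (0 : ℝ) → ∃ r : ℝ, w = r • y) →
      ∀ x, inner ℝ a (v x) = (0 : ℝ) → inner ℝ b (v x) = (0 : ℝ) → ∀ k, x ∈ (A.P k).V →
        0 < ((A.P k).e.extend (𝓡∂ 2) x) 0 ∧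
        DifferentiableAt ℝ (fun y => (inner ℝ a (v (((A.P k).e.extend (𝓡∂ 2)).symm y)) : ℝ))
          ((A.P k).e.extend (𝓡∂ 2) x) ∧
        DifferentiableAt ℝ (fun y => (inner ℝ b (v (((A.P k).e.extend (𝓡∂ 2)).symm y)) : ℝ))
          ((A.P k).e.extend (𝓡∂ 2) x) ∧
        Jc (A.P k).e (fun x => inner ℝ a (v x)) (fun x => inner ℝ b (v x))
          ((A.P k).e.extend (𝓡∂ 2) x) ≠ 0 := by
  have h1 : ∀ᵐ y : E3, ∀ k, ∀ x ∈ (A.P k).V, ∀ r : ℝ, y = r • v x →
      0 < ((A.P k).e.extend (𝓡∂ 2) x) 0 ∧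
      DifferentiableAt ℝ (fun y => v (((A.P k).e.extend (𝓡∂ 2)).symm y))
        ((A.P k).e.extend (𝓡∂ 2) x) ∧
      tri (fderiv ℝ (fun y => v (((A.P k).e.extend (𝓡∂ 2)).symm y))
          ((A.P k).e.extend (𝓡∂ 2) x) (bv 0))
        (fderiv ℝ (fun y => v (((A.P k).e.extend (𝓡∂ 2)).symm y))
          ((A.P k).e.extend (𝓡∂ 2) x) (bv 1))
        (v x) ≠ 0 :=
    ae_all_iff.2 fun k => sard_lip (A.P k) hv
  have h3 : ∀ᵐ y : E3, y ≠ 0 := by
    rw [ae_iff]
    have : {a : E3 | ¬ a ≠ 0} = {0} := by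
      ext a
      simp
    rw [this]
    exact measure_singleton 0
  filter_upwards [h1, h3] with y hy1 hy3
  refine ⟨hy3, ?_⟩
  intro a b hab x hax hbx k hk
  obtain ⟨r, hr⟩ := hab (v x) hax hbx
  have hr0 : r ≠ 0 := by
    rintro rfl
    apply hv0 x
    rw [hr, zero_smul]
  have hy : y = r⁻¹ • v x := by
    rw [hr, smul_smul, inv_mul_cancel₀ hr0, one_smul]
  obtain ⟨hpos, hd, htri⟩ := hy1 k x hk r⁻¹ hy
  have hin : ∀ c : E3, HasFDerivAt
      (fun y => (inner ℝ c (v (((A.P k).e.extend (𝓡∂ 2)).symm y)) : ℝ))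
      ((innerSL ℝ c).comp (fderiv ℝ (fun y => v (((A.P k).e.extend (𝓡∂ 2)).symm y))
        ((A.P k).e.extend (𝓡∂ 2) x))) ((A.P k).e.extend (𝓡∂ 2) x) := by
    intro c
    exact (innerSL ℝ c).hasFDerivAt.comp ((A.P k).e.extend (𝓡∂ 2) x) hd.hasFDerivAt
  refine ⟨hpos, (hin a).differentiableAt, (hin b).differentiableAt, ?_⟩
  intro hJ
  apply htri
  refine SRM_lin hab hr ?_
  unfold Jc at hJ
  rw [(hin a).fderiv, (hin b).fderiv] at hJ
  exact hJ

end Pool.Agent.EWD
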