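import Mathlib
import Pool.Agent.EWD.GDF

/-
PVA: Stokes in the plane for Lipschitz functions with compact support.  [about 130 lines]

`JL f g = ∂₀f ∂₁g - ∂₁f ∂₀g` with line derivatives (H74/FAC/HP4), `bv 0, bv 1` the standard basis.
(1) `JL_int_zero`: `integral_lineDeriv_swap` (H74/FAC/HalfPlane) for `v = bv 0`, `w = bv 1`, and
 `integrable_prod_lineDeriv` (HP5).
(2) `planar_eps`: let `q = F₀² + F₁²`, `h = 1/(q + ε²)` (Lipschitz: `q` is Lipschitz because `F₀, F₁` are Lipschitz with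
 compact support, hence bounded; `bdd_of_compact`, `lip_mul` in HP3; `h` is bounded). Apply (1) to the
 pairs `(η h F₀, F₁)` and `(η h F₁, F₀)` and subtract. Almost everywhere (product rule `ae_lineDeriv_mul` in HP4,
 or `LipschitzWith.ae_lineDifferentiableAt` and the one variable rules)
 `JL (η h F₀) F₁ - JL (η h F₁) F₀ = h (F₀ JL η F₁ - F₁ JL η F₀) + η (2 h - 2 h² q) JL F₀ F₁`, and
 `2 h - 2 h² q = 2 ε² h²` (same computation as in SVA).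
-/

open MeasureTheory Set Filter Measure
open scoped ContDiff Topology ENNReal NNReal

set_option linter.unusedSectionVars false

namespace Pool.Agent.EWD

open Pool.Agent.H74.FAC

/-- `F₀ dη ∧ dF₁ - F₁ dη ∧ dF₀` -/
noncomputable def thf (η F₀ F₁ : E2 → ℝ) (z : E2) : ℝ := F₀ z * JL η F₁ z - F₁ z * JL η F₀ z

theorem JL_int_zero {f g : E2 → ℝ} {C D : ℝ≥0} (hf : LipschitzWith C f) (cf : HasCompactSupport f)
    (hg : LipschitzWith D g) (cg : HasCompactSupport g) : ∫ z, JL f g z = 0 := by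
  have sw := integral_lineDeriv_swap (μ := (volume : Measure E2)) hf cf hg cg (bv 0) (bv 1)
  have i1 := integrable_prod_lineDeriv hf cf hg (bv 0) (bv 1)
  have i2 := integrable_prod_lineDeriv hf cf hg (bv 1) (bv 0)
  simp only [JL]
  rw [integral_sub i1 i2, sw, sub_self]

theorem integrable_thf {η F₀ F₁ : E2 → ℝ} {C C₀ C₁ : ℝ≥0} (hη : LipschitzWith C η)
    (cη : HasCompactSupport η) (h0 : LipschitzWith C₀ F₀) (c0 : HasCompactSupport F₀)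
    (h1 : LipschitzWith C₁ F₁) (c1 : HasCompactSupport F₁) : Integrable (thf η F₀ F₁) := by
  obtain ⟨B0, hB0⟩ := bdd_of_compact h0.continuous c0
  obtain ⟨B1, hB1⟩ := bdd_of_compact h1.continuous c1
  refine Integrable.sub ?_ ?_
  · exact (integrable_JL hη cη h1).bdd_mul (c := B0) h0.continuous.aestronglyMeasurable
      (Eventually.of_forall hB0)
  · exact (integrable_JL hη cη h0).bdd_mul (c := B1) h1.continuous.aestronglyMeasurable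
      (Eventually.of_forall hB1)

private theorem PVA_inv_lip {F₀ F₁ : E2 → ℝ} {C₀ C₁ : ℝ≥0} (h0 : LipschitzWith C₀ F₀)
    (c0 : HasCompactSupport F₀) (h1 : LipschitzWith C₁ F₁) (c1 : HasCompactSupport F₁) {ε : ℝ}
    (hε : 0 < ε) : ∃ K : ℝ≥0, LipschitzWith K (fun z => (F₀ z ^ 2 + F₁ z ^ 2 + ε ^ 2)⁻¹) := by
  obtain ⟨B0, hB0⟩ := bdd_of_compact h0.continuous c0
  obtain ⟨B1, hB1⟩ := bdd_of_compact h1.continuous c1
  obtain ⟨K0, hK0⟩ := lip_mul h0 h0 hB0 hB0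
  obtain ⟨K1, hK1⟩ := lip_mul h1 h1 hB1 hB1
  refine ⟨⟨((K0 : ℝ) + K1) / ε ^ 4, by positivity⟩, lip_of_abs (by positivity) ?_⟩
  intro x y
  have e1 := lip_abs hK0 x y
  have e2 := lip_abs hK1 x y
  set qx := F₀ x ^ 2 + F₁ x ^ 2 + ε ^ 2 with hqx
  set qy := F₀ y ^ 2 + F₁ y ^ 2 + ε ^ 2 with hqy
  have p1 : ε ^ 2 ≤ qx := by rw [hqx]; nlinarith [sq_nonneg (F₀ x), sq_nonneg (F₁ x)]
  have p2 : ε ^ 2 ≤ qy := by rw [hqy]; nlinarith [sq_nonneg (F₀ y), sq_nonneg (F₁ y)]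
  have hε2 : 0 < ε ^ 2 := by positivity
  have p1' : 0 < qx := hε2.trans_le p1
  have p2' : 0 < qy := hε2.trans_le p2
  have e3 : |qx - qy| ≤ ((K0 : ℝ) + K1) * dist x y := by
    have : qx - qy = (F₀ x * F₀ x - F₀ y * F₀ y) + (F₁ x * F₁ x - F₁ y * F₁ y) := by
      rw [hqx, hqy]; ring
    rw [this]
    refine (abs_add_le _ _).trans ?_
    rw [add_mul]
    exact add_le_add e1 e2
  rw [inv_sub_inv p1'.ne' p2'.ne', abs_div, abs_of_pos (mul_pos p1' p2'), abs_sub_comm,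
    div_mul_eq_mul_div]
  have hd : 0 ≤ ((K0 : ℝ) + K1) * dist x y := by positivity
  refine div_le_div₀ hd e3 (by positivity) ?_
  calc ε ^ 4 = ε ^ 2 * ε ^ 2 := by ring
    _ ≤ qx * qy := mul_le_mul p1 p2 hε2.le p1'.le

private theorem PVA_deriv {η F₀ F₁ : E2 → ℝ} {C C₀ C₁ : ℝ≥0} (hη : LipschitzWith C η)
    (h0 : LipschitzWith C₀ F₀) (h1 : LipschitzWith C₁ F₁) {ε : ℝ} (hε : 0 < ε) (v : E2) :
    ∀ᵐ x, lineDeriv ℝ (fun z => η z * (F₀ z * (F₀ z ^ 2 + F₁ z ^ 2 + ε ^ 2)⁻¹)) x v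
      = (lineDeriv ℝ η x v * F₀ x + η x * lineDeriv ℝ F₀ x v) / (F₀ x ^ 2 + F₁ x ^ 2 + ε ^ 2)
        - η x * F₀ x * (2 * F₀ x * lineDeriv ℝ F₀ x v + 2 * F₁ x * lineDeriv ℝ F₁ x v) /
          (F₀ x ^ 2 + F₁ x ^ 2 + ε ^ 2) ^ 2 := by
  filter_upwards [hη.ae_lineDifferentiableAt (μ := volume) v,
    h0.ae_lineDifferentiableAt (μ := volume) v,
    h1.ae_lineDifferentiableAt (μ := volume) v] with x d d0 d1
  have e : HasDerivAt (fun t : ℝ => η (x + t • v)) (lineDeriv ℝ η x v) 0 := d.hasLineDerivAt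
  have e0 : HasDerivAt (fun t : ℝ => F₀ (x + t • v)) (lineDeriv ℝ F₀ x v) 0 := d0.hasLineDerivAt
  have e1 : HasDerivAt (fun t : ℝ => F₁ (x + t • v)) (lineDeriv ℝ F₁ x v) 0 := d1.hasLineDerivAt
  have hq := (((e0.pow 2).add (e1.pow 2)).add_const (ε ^ 2))
  have hpos : F₀ x ^ 2 + F₁ x ^ 2 + ε ^ 2 ≠ 0 := by positivity
  have hi := hq.inv (by simpa using hpos)
  have hm := (e.mul (e0.mul hi)).deriv
  have hl : lineDeriv ℝ (fun z => η z * (F₀ z * (F₀ z ^ 2 + F₁ z ^ 2 + ε ^ 2)⁻¹)) x v =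
    deriv ((fun t : ℝ => η (x + t • v)) * ((fun t : ℝ => F₀ (x + t • v)) *
      (fun t : ℝ => ((((fun t : ℝ => F₀ (x + t • v)) ^ 2 + (fun t : ℝ => F₁ (x + t • v)) ^ 2) t
        + ε ^ 2))⁻¹))) 0 := rfl
  rw [hl]
  refine Eq.trans hm ?_
  simp only [Pi.mul_apply, Pi.add_apply, Pi.pow_apply, Pi.inv_apply, zero_smul, add_zero]
  field_simp
  ring

theorem planar_eps {η F₀ F₁ : E2 → ℝ} {C C₀ C₁ : ℝ≥0} (hη : LipschitzWith C η)
    (cη : HasCompactSupport η) (h0 : LipschitzWith C₀ F₀) (c0 : HasCompactSupport F₀)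
    (h1 : LipschitzWith C₁ F₁) (c1 : HasCompactSupport F₁) {ε : ℝ} (hε : 0 < ε) :
    ∫ z, η z * (2 * ε ^ 2 / (F₀ z ^ 2 + F₁ z ^ 2 + ε ^ 2) ^ 2) * JL F₀ F₁ z
      = -∫ z, thf η F₀ F₁ z / (F₀ z ^ 2 + F₁ z ^ 2 + ε ^ 2) := by
  obtain ⟨K, hK⟩ := PVA_inv_lip h0 c0 h1 c1 hε
  obtain ⟨B, hB⟩ := bdd_of_compact hη.continuous cη
  obtain ⟨B0, hB0⟩ := bdd_of_compact h0.continuous c0
  obtain ⟨B1, hB1⟩ := bdd_of_compact h1.continuous c1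
  have hε2 : 0 < ε ^ 2 := by positivity
  have hq : ∀ z, ε ^ 2 ≤ F₀ z ^ 2 + F₁ z ^ 2 + ε ^ 2 := fun z => by
    nlinarith [sq_nonneg (F₀ z), sq_nonneg (F₁ z)]
  have hBi : ∀ z, |(F₀ z ^ 2 + F₁ z ^ 2 + ε ^ 2)⁻¹| ≤ (ε ^ 2)⁻¹ := by
    intro z
    rw [abs_of_pos (inv_pos.2 (hε2.trans_le (hq z)))]
    exact inv_anti₀ hε2 (hq z)
  obtain ⟨K0, hK0⟩ := lip_mul h0 hK hB0 hBi
  obtain ⟨K1, hK1⟩ := lip_mul h1 hK hB1 hBi
  have hA0 : ∀ z, |F₀ z * (F₀ z ^ 2 + F₁ z ^ 2 + ε ^ 2)⁻¹| ≤ B0 * (ε ^ 2)⁻¹ := by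
    intro z
    rw [abs_mul]
    exact mul_le_mul (hB0 z) (hBi z) (abs_nonneg _) ((abs_nonneg _).trans (hB0 z))
  have hA1 : ∀ z, |F₁ z * (F₀ z ^ 2 + F₁ z ^ 2 + ε ^ 2)⁻¹| ≤ B1 * (ε ^ 2)⁻¹ := by
    intro z
    rw [abs_mul]
    exact mul_le_mul (hB1 z) (hBi z) (abs_nonneg _) ((abs_nonneg _).trans (hB1 z))
  obtain ⟨L0, hL0⟩ := lip_mul hη hK0 hB hA0
  obtain ⟨L1, hL1⟩ := lip_mul hη hK1 hB hA1
  have cs0 : HasCompactSupport (fun z => η z * (F₀ z * (F₀ z ^ 2 + F₁ z ^ 2 + ε ^ 2)⁻¹)) :=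
    cη.mul_right
  have cs1 : HasCompactSupport (fun z => η z * (F₁ z * (F₀ z ^ 2 + F₁ z ^ 2 + ε ^ 2)⁻¹)) :=
    cη.mul_right
  have z0 := JL_int_zero hL0 cs0 h1 c1
  have z1 := JL_int_zero hL1 cs1 h0 c0
  have i0 := integrable_JL hL0 cs0 h1
  have i1 := integrable_JL hL1 cs1 h0
  have key : (fun z => JL (fun z => η z * (F₀ z * (F₀ z ^ 2 + F₁ z ^ 2 + ε ^ 2)⁻¹)) F₁ z
      - JL (fun z => η z * (F₁ z * (F₀ z ^ 2 + F₁ z ^ 2 + ε ^ 2)⁻¹)) F₀ z) =ᵐ[volume]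
      fun z => thf η F₀ F₁ z / (F₀ z ^ 2 + F₁ z ^ 2 + ε ^ 2) +
        η z * (2 * ε ^ 2 / (F₀ z ^ 2 + F₁ z ^ 2 + ε ^ 2) ^ 2) * JL F₀ F₁ z := by
    have g0 := PVA_deriv hη h0 h1 hε (bv 0)
    have g1 := PVA_deriv hη h0 h1 hε (bv 1)
    have g2 := PVA_deriv hη h1 h0 hε (bv 0)
    have g3 := PVA_deriv hη h1 h0 hε (bv 1)
    have hsw : (fun z => η z * (F₁ z * (F₁ z ^ 2 + F₀ z ^ 2 + ε ^ 2)⁻¹)) =
        fun z => η z * (F₁ z * (F₀ z ^ 2 + F₁ z ^ 2 + ε ^ 2)⁻¹) := by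
      funext z
      rw [add_comm (F₁ z ^ 2)]
    rw [hsw] at g2 g3
    filter_upwards [g0, g1, g2, g3] with z a0 a1 a2 a3
    have hpos : F₀ z ^ 2 + F₁ z ^ 2 + ε ^ 2 ≠ 0 := (hε2.trans_le (hq z)).ne'
    rw [add_comm (F₁ z ^ 2) (F₀ z ^ 2)] at a2 a3
    simp only [JL, thf]
    rw [a0, a1, a2, a3]
    field_simp
    ring
  have it : Integrable (fun z => thf η F₀ F₁ z / (F₀ z ^ 2 + F₁ z ^ 2 + ε ^ 2)) := by
    simp_rw [div_eq_mul_inv]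
    exact (integrable_thf hη cη h0 c0 h1 c1).mul_bdd (c := (ε ^ 2)⁻¹)
      hK.continuous.aestronglyMeasurable (Eventually.of_forall hBi)
  have is : Integrable (fun z => thf η F₀ F₁ z / (F₀ z ^ 2 + F₁ z ^ 2 + ε ^ 2) +
        η z * (2 * ε ^ 2 / (F₀ z ^ 2 + F₁ z ^ 2 + ε ^ 2) ^ 2) * JL F₀ F₁ z) :=
    (i0.sub i1).congr key
  have ij : Integrable (fun z => η z * (2 * ε ^ 2 / (F₀ z ^ 2 + F₁ z ^ 2 + ε ^ 2) ^ 2)
      * JL F₀ F₁ z) := by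
    have := is.sub it
    refine this.congr (Eventually.of_forall fun z => ?_)
    simp
  have hint := integral_congr_ae key
  rw [integral_sub i0 i1, z0, z1, integral_add it ij] at hint
  linarith

end Pool.Agent.EWD
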