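import Mathlib
import Pool.Agent.EWD.GDF
import Pool.Agent.EWD.PVA

/-
PVB: the limit when `η` is locally constant at the zero.  [about 80 lines]

`U` is open, `η` is constant on `U`, and `F₀, F₁` have no common zero in the compact set `K = tsupport η \ U`. So
`q = F₀² + F₁² ≥ c > 0` on `K` (if `K` is empty, `thf = 0`). `thf η F₀ F₁ z = 0` for `z ∉ K`: if `z ∈ U` or
`z ∉ tsupport η`, then `η` is constant near `z` and the line derivatives vanish. Hence
`|thf/(q + ε²)| ≤ |thf|/c` and dominated convergence in `planar_eps`.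
-/

open MeasureTheory Set Filter Measure
open scoped ContDiff Topology ENNReal NNReal

set_option linter.unusedSectionVars false

namespace Pool.Agent.EWD

open Pool.Agent.H74.FAC

private theorem PVB_zero {η F : E2 → ℝ} {z : E2} {t : ℝ} (h : η =ᶠ[𝓝 z] fun _ => t) :
    JL η F z = 0 := by
  have e : ∀ v, lineDeriv ℝ η z v = 0 := fun v => by
    rw [h.lineDeriv_eq]
    simp [lineDeriv]
  simp [JL, e]

private theorem PVB_mem {η F₀ F₁ : E2 → ℝ} {U : Set E2} (hU : IsOpen U) {t : ℝ}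
    (hc : ∀ z ∈ U, η z = t) {z : E2} (h : thf η F₀ F₁ z ≠ 0) : z ∈ tsupport η \ U := by
  by_contra hn
  apply h
  have key : ∃ t : ℝ, η =ᶠ[𝓝 z] fun _ => t := by
    by_cases h1 : z ∈ U
    · exact ⟨t, Filter.mem_of_superset (hU.mem_nhds h1) fun y hy => hc y hy⟩
    · have h2 : z ∉ tsupport η := fun h2 => hn ⟨h2, h1⟩
      exact ⟨0, notMem_tsupport_iff_eventuallyEq.1 h2⟩
  obtain ⟨t', ht'⟩ := key
  rw [thf, PVB_zero ht', PVB_zero ht']
  ring

private theorem PVB_bound {η F₀ F₁ : E2 → ℝ} (cη : HasCompactSupport η) (h0 : Continuous F₀)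
    (h1 : Continuous F₁) {U : Set E2} (hU : IsOpen U) {t : ℝ}
    (hc : ∀ z ∈ U, η z = t) (hz : ∀ z ∈ tsupport η, z ∉ U → 0 < F₀ z ^ 2 + F₁ z ^ 2) :
    ∃ c : ℝ, 0 < c ∧ ∀ z, thf η F₀ F₁ z ≠ 0 → c ≤ F₀ z ^ 2 + F₁ z ^ 2 := by
  have hK : IsCompact (tsupport η \ U) := cη.isCompact.diff hU
  have hcont : Continuous fun z => F₀ z ^ 2 + F₁ z ^ 2 := (h0.pow 2).add (h1.pow 2)
  by_cases hne : (tsupport η \ U).Nonempty
  · obtain ⟨z0, hz0, hmin⟩ := hK.exists_isMinOn hne hcont.continuousOn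
    exact ⟨F₀ z0 ^ 2 + F₁ z0 ^ 2, hz z0 hz0.1 hz0.2, fun z h => hmin (PVB_mem hU hc h)⟩
  · exact ⟨1, one_pos, fun z h => absurd ⟨z, PVB_mem hU hc h⟩ hne⟩

theorem planar_away {η F₀ F₁ : E2 → ℝ} {C C₀ C₁ : ℝ≥0} (hη : LipschitzWith C η)
    (cη : HasCompactSupport η) (h0 : LipschitzWith C₀ F₀) (c0 : HasCompactSupport F₀)
    (h1 : LipschitzWith C₁ F₁) (c1 : HasCompactSupport F₁) {U : Set E2} (hU : IsOpen U) {t : ℝ}
    (hc : ∀ z ∈ U, η z = t) (hz : ∀ z ∈ tsupport η, z ∉ U → 0 < F₀ z ^ 2 + F₁ z ^ 2) :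
    Tendsto (fun ε : ℝ => ∫ z, η z * (2 * ε ^ 2 / (F₀ z ^ 2 + F₁ z ^ 2 + ε ^ 2) ^ 2) * JL F₀ F₁ z)
      (𝓝[>] 0) (𝓝 (-∫ z, thf η F₀ F₁ z / (F₀ z ^ 2 + F₁ z ^ 2))) := by
  obtain ⟨c, hc0, hcb⟩ := PVB_bound cη h0.continuous h1.continuous hU hc hz
  have hint := integrable_thf hη cη h0 c0 h1 c1
  have hlim : Tendsto (fun ε : ℝ => ∫ z, thf η F₀ F₁ z / (F₀ z ^ 2 + F₁ z ^ 2 + ε ^ 2))
      (𝓝[>] 0) (𝓝 (∫ z, thf η F₀ F₁ z / (F₀ z ^ 2 + F₁ z ^ 2))) := by
    refine tendsto_integral_filter_of_dominated_convergence (fun z => |thf η F₀ F₁ z| / c)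
      ?_ ?_ (hint.abs.div_const c) ?_
    · refine Eventually.of_forall fun ε => ?_
      refine (hint.aestronglyMeasurable.aemeasurable.div ?_).aestronglyMeasurable
      exact (((h0.continuous.pow 2).add (h1.continuous.pow 2)).add
        continuous_const).aemeasurable
    · refine Eventually.of_forall fun ε => Eventually.of_forall fun z => ?_
      by_cases h : thf η F₀ F₁ z = 0
      · rw [h]
        simp
      · have h2 := hcb z h
        have h3 : c ≤ F₀ z ^ 2 + F₁ z ^ 2 + ε ^ 2 := by nlinarith [sq_nonneg ε]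
        rw [Real.norm_eq_abs, abs_div, abs_of_pos (hc0.trans_le h3)]
        exact div_le_div_of_nonneg_left (abs_nonneg _) hc0 h3
    · refine Eventually.of_forall fun z => ?_
      by_cases h : thf η F₀ F₁ z = 0
      · simp only [h, zero_div]
        exact tendsto_const_nhds
      · have h2 := hcb z h
        have h3 : F₀ z ^ 2 + F₁ z ^ 2 ≠ 0 := (hc0.trans_le h2).ne'
        have h4 : Tendsto (fun ε : ℝ => F₀ z ^ 2 + F₁ z ^ 2 + ε ^ 2) (𝓝[>] 0)
            (𝓝 (F₀ z ^ 2 + F₁ z ^ 2)) := by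
          have : Continuous fun ε : ℝ => F₀ z ^ 2 + F₁ z ^ 2 + ε ^ 2 := by fun_prop
          have h5 := this.tendsto 0
          simp only [ne_eq, OfNat.ofNat_ne_zero, not_false_eq_true, zero_pow, add_zero] at h5
          exact h5.mono_left nhdsWithin_le_nhds
        exact tendsto_const_nhds.div h4 h3
  refine (hlim.neg).congr' ?_
  filter_upwards [self_mem_nhdsWithin] with ε hε
  exact (planar_eps hη cη h0 c0 h1 c1 hε).symm

end Pool.Agent.EWD
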