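import Mathlib
import Pool.Agent.EWD.GDF
import Pool.Agent.EWD.PVA

/-
PVC: comparison of two maps.  [about 140 lines]

`K = tsupport η \ U` is compact and `R = F₀ A₀ + F₁ A₁ > 0` on `K`, so `R ≥ 2 c > 0` on `K`. Let
`g = arctan(S/max R c)`, `S = F₁ A₀ - F₀ A₁`: Lipschitz with compact support (`S` has compact support). By
`JL_int_zero` `∫ JL η g = 0`. `JL η g z = 0` for `z ∉ K` (`η` is constant near `z`). Near `K` `g = arctan(S/R)`, and at
points where all functions are differentiable in the directions `bv 0, bv 1` (a.e.)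
`∂g = (R ∂S - S ∂R)/(R² + S²)`, `R² + S² = (F₀² + F₁²)(A₀² + A₁²)`, and
`R ∂S - S ∂R = (A₀² + A₁²)(F₀ ∂F₁ - F₁ ∂F₀) - (F₀² + F₁²)(A₀ ∂A₁ - A₁ ∂A₀)` (`ring`), so
`JL η g = thf η F₀ F₁/q_F - thf η A₀ A₁/q_A` a.e. on `K` (and both sides are 0 off `K`). Integrate. The two
integrals converge: `thf` is integrable, it vanishes off `K`, and `q_F, q_A` are bounded below on `K`.
-/

open MeasureTheory Set Filter Measure
open scoped ContDiff Topology ENNReal NNReal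

set_option linter.unusedSectionVars false

namespace Pool.Agent.EWD

open Pool.Agent.H74.FAC

private theorem PVC_zero {η F : E2 → ℝ} {z : E2} {t : ℝ} (h : η =ᶠ[𝓝 z] fun _ => t) :
    JL η F z = 0 := by
  have e : ∀ v, lineDeriv ℝ η z v = 0 := fun v => by
    rw [h.lineDeriv_eq]
    simp [lineDeriv]
  simp [JL, e]

private theorem PVC_const {η : E2 → ℝ} {U : Set E2} (hU : IsOpen U) {t : ℝ}
    (hc : ∀ z ∈ U, η z = t) {z : E2} (hn : z ∉ tsupport η \ U) : ∃ t : ℝ, η =ᶠ[𝓝 z] fun _ => t := by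
  by_cases h1 : z ∈ U
  · exact ⟨t, Filter.mem_of_superset (hU.mem_nhds h1) fun y hy => hc y hy⟩
  · have h2 : z ∉ tsupport η := fun h2 => hn ⟨h2, h1⟩
    exact ⟨0, notMem_tsupport_iff_eventuallyEq.1 h2⟩

private theorem PVC_off {η F : E2 → ℝ} {U : Set E2} (hU : IsOpen U) {t : ℝ}
    (hc : ∀ z ∈ U, η z = t) {z : E2} (hn : z ∉ tsupport η \ U) : JL η F z = 0 := by
  obtain ⟨s, hs⟩ := PVC_const hU hc hn
  exact PVC_zero hs

private theorem PVC_integrable {η F₀ F₁ : E2 → ℝ} {C C₀ C₁ : ℝ≥0} (hη : LipschitzWith C η)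
    (cη : HasCompactSupport η) (h0 : LipschitzWith C₀ F₀) (c0 : HasCompactSupport F₀)
    (h1 : LipschitzWith C₁ F₁) (c1 : HasCompactSupport F₁) {U : Set E2} (hU : IsOpen U) {t : ℝ}
    (hc : ∀ z ∈ U, η z = t) (hz : ∀ z ∈ tsupport η \ U, 0 < F₀ z ^ 2 + F₁ z ^ 2) :
    Integrable (fun z => thf η F₀ F₁ z / (F₀ z ^ 2 + F₁ z ^ 2)) := by
  have hK : IsCompact (tsupport η \ U) := cη.isCompact.diff hU
  have hcont : Continuous fun z => F₀ z ^ 2 + F₁ z ^ 2 :=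
    (h0.continuous.pow 2).add (h1.continuous.pow 2)
  have hex : ∃ c : ℝ, 0 < c ∧ ∀ z ∈ tsupport η \ U, c ≤ F₀ z ^ 2 + F₁ z ^ 2 := by
    by_cases hne : (tsupport η \ U).Nonempty
    · obtain ⟨z0, hz0, hmin⟩ := hK.exists_isMinOn hne hcont.continuousOn
      exact ⟨F₀ z0 ^ 2 + F₁ z0 ^ 2, hz z0 hz0, fun z h => hmin h⟩
    · exact ⟨1, one_pos, fun z h => absurd ⟨z, h⟩ hne⟩
  obtain ⟨c, hc0, hcb⟩ := hex
  have hint := integrable_thf hη cη h0 c0 h1 c1
  refine Integrable.mono' (hint.abs.div_const c) ?_ (Eventually.of_forall fun z => ?_)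
  · exact (hint.aestronglyMeasurable.aemeasurable.div hcont.aemeasurable).aestronglyMeasurable
  · by_cases hzK : z ∈ tsupport η \ U
    · have h2 := hcb z hzK
      rw [Real.norm_eq_abs, abs_div, abs_of_pos (hc0.trans_le h2)]
      exact div_le_div_of_nonneg_left (abs_nonneg _) hc0 h2
    · have e0 : thf η F₀ F₁ z = 0 := by
        rw [thf, PVC_off hU hc hzK, PVC_off hU hc hzK]
        ring
      rw [e0]
      simp

private theorem PVC_lip {R S : E2 → ℝ} {C D : ℝ≥0} (hR : LipschitzWith C R) (hS : LipschitzWith D S)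
    (cS : HasCompactSupport S) {c : ℝ} (hc : 0 < c) :
    ∃ K : ℝ≥0, LipschitzWith K (fun z => Real.arctan (S z * (max (R z) c)⁻¹)) := by
  have h1 : LipschitzWith C (fun z => max (R z) c) := by
    have := hR.max_const c
    exact this
  have h2 : LipschitzWith ⟨(C : ℝ) / c ^ 2, by positivity⟩ (fun z => (max (R z) c)⁻¹) := by
    refine lip_of_abs (by positivity) ?_
    intro x y
    have p1 : c ≤ max (R x) c := le_max_right _ _
    have p2 : c ≤ max (R y) c := le_max_right _ _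
    have p1' := hc.trans_le p1
    have p2' := hc.trans_le p2
    have e := lip_abs h1 x y
    rw [inv_sub_inv p1'.ne' p2'.ne', abs_div, abs_of_pos (mul_pos p1' p2'), abs_sub_comm,
      div_mul_eq_mul_div]
    have hd : 0 ≤ (C : ℝ) * dist x y := by positivity
    refine div_le_div₀ hd e (by positivity) ?_
    calc c ^ 2 = c * c := by ring
      _ ≤ _ := mul_le_mul p1 p2 hc.le p1'.le
  have hb : ∀ z, |(max (R z) c)⁻¹| ≤ c⁻¹ := fun z => by
    have p1 : c ≤ max (R z) c := le_max_right _ _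
    rw [abs_of_pos (inv_pos.2 (hc.trans_le p1))]
    exact inv_anti₀ hc p1
  obtain ⟨B, hB⟩ := bdd_of_compact hS.continuous cS
  obtain ⟨K, hK⟩ := lip_mul hS h2 hB hb
  have ha : LipschitzWith 1 Real.arctan := by
    refine lipschitzWith_of_nnnorm_deriv_le Real.differentiable_arctan ?_
    intro x
    rw [← NNReal.coe_le_coe, coe_nnnorm, Real.deriv_arctan, Real.norm_eq_abs, NNReal.coe_one,
      abs_of_pos (by positivity), div_le_one (by positivity)]
    nlinarith [sq_nonneg x]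
  exact ⟨1 * K, ha.comp hK⟩

private theorem PVC_deriv {F₀ F₁ A₀ A₁ : E2 → ℝ} {z v : E2} {c : ℝ} (hc : 0 < c)
    (d0 : LineDifferentiableAt ℝ F₀ z v) (d1 : LineDifferentiableAt ℝ F₁ z v)
    (e0 : LineDifferentiableAt ℝ A₀ z v) (e1 : LineDifferentiableAt ℝ A₁ z v)
    (hcont : Continuous fun z => F₀ z * A₀ z + F₁ z * A₁ z)
    (hz : c < F₀ z * A₀ z + F₁ z * A₁ z) :
    lineDeriv ℝ (fun z => Real.arctan ((F₁ z * A₀ z - F₀ z * A₁ z) *
        (max (F₀ z * A₀ z + F₁ z * A₁ z) c)⁻¹)) z v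
      = (F₀ z * lineDeriv ℝ F₁ z v - F₁ z * lineDeriv ℝ F₀ z v) / (F₀ z ^ 2 + F₁ z ^ 2)
        - (A₀ z * lineDeriv ℝ A₁ z v - A₁ z * lineDeriv ℝ A₀ z v) / (A₀ z ^ 2 + A₁ z ^ 2) := by
  have f0 : HasDerivAt (fun t : ℝ => F₀ (z + t • v)) (lineDeriv ℝ F₀ z v) 0 := d0.hasLineDerivAt
  have f1 : HasDerivAt (fun t : ℝ => F₁ (z + t • v)) (lineDeriv ℝ F₁ z v) 0 := d1.hasLineDerivAt
  have a0 : HasDerivAt (fun t : ℝ => A₀ (z + t • v)) (lineDeriv ℝ A₀ z v) 0 := e0.hasLineDerivAt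
  have a1 : HasDerivAt (fun t : ℝ => A₁ (z + t • v)) (lineDeriv ℝ A₁ z v) 0 := e1.hasLineDerivAt
  have hR := (f0.mul a0).add (f1.mul a1)
  have hS := (f1.mul a0).sub (f0.mul a1)
  have hRz : 0 < F₀ z * A₀ z + F₁ z * A₁ z := hc.trans hz
  have hne : ((fun t : ℝ => F₀ (z + t • v)) * (fun t : ℝ => A₀ (z + t • v)) +
      (fun t : ℝ => F₁ (z + t • v)) * (fun t : ℝ => A₁ (z + t • v))) 0 ≠ 0 := by
    simp only [Pi.add_apply, Pi.mul_apply, zero_smul, add_zero]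
    exact hRz.ne'
  have hg := (hS.div hR hne).arctan
  have hev : (fun t : ℝ => Real.arctan ((F₁ (z + t • v) * A₀ (z + t • v)
      - F₀ (z + t • v) * A₁ (z + t • v)) *
        (max (F₀ (z + t • v) * A₀ (z + t • v) + F₁ (z + t • v) * A₁ (z + t • v)) c)⁻¹)) =ᶠ[𝓝 0]
      fun t : ℝ => Real.arctan ((((fun t : ℝ => F₁ (z + t • v)) * (fun t : ℝ => A₀ (z + t • v)) -
        (fun t : ℝ => F₀ (z + t • v)) * (fun t : ℝ => A₁ (z + t • v))) /
        ((fun t : ℝ => F₀ (z + t • v)) * (fun t : ℝ => A₀ (z + t • v)) +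
          (fun t : ℝ => F₁ (z + t • v)) * (fun t : ℝ => A₁ (z + t • v)))) t) := by
    have hl : Continuous fun t : ℝ => F₀ (z + t • v) * A₀ (z + t • v)
        + F₁ (z + t • v) * A₁ (z + t • v) :=
      hcont.comp (continuous_const.add (continuous_id.smul continuous_const))
    have : ∀ᶠ t : ℝ in 𝓝 0, c < F₀ (z + t • v) * A₀ (z + t • v)
        + F₁ (z + t • v) * A₁ (z + t • v) := by
      refine hl.continuousAt.eventually (lt_mem_nhds ?_)
      simpa using hz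
    filter_upwards [this] with t ht
    rw [max_eq_left ht.le]
    simp only [Pi.div_apply, Pi.sub_apply, Pi.mul_apply, Pi.add_apply]
    rfl
  have hd := (hg.congr_of_eventuallyEq hev).deriv
  have hq : (F₀ z ^ 2 + F₁ z ^ 2) * (A₀ z ^ 2 + A₁ z ^ 2) =
      (F₀ z * A₀ z + F₁ z * A₁ z) ^ 2 + (F₁ z * A₀ z - F₀ z * A₁ z) ^ 2 := by ring
  have hpos : 0 < (F₀ z ^ 2 + F₁ z ^ 2) * (A₀ z ^ 2 + A₁ z ^ 2) := by
    rw [hq]; positivity
  have hF : 0 < F₀ z ^ 2 + F₁ z ^ 2 := by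
    rcases (by positivity : 0 ≤ F₀ z ^ 2 + F₁ z ^ 2).lt_or_eq with h | h
    · exact h
    · rw [← h, zero_mul] at hpos
      exact absurd hpos (lt_irrefl _)
  have hA : 0 < A₀ z ^ 2 + A₁ z ^ 2 := by
    rcases (by positivity : 0 ≤ A₀ z ^ 2 + A₁ z ^ 2).lt_or_eq with h | h
    · exact h
    · rw [← h, mul_zero] at hpos
      exact absurd hpos (lt_irrefl _)
  rw [lineDeriv]
  refine Eq.trans hd ?_
  simp only [Pi.mul_apply, Pi.add_apply, Pi.sub_apply, Pi.div_apply, zero_smul, add_zero]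
  set R := F₀ z * A₀ z + F₁ z * A₁ z with hRdef
  set S := F₁ z * A₀ z - F₀ z * A₁ z with hSdef
  have h1 : 1 + (S / R) ^ 2 = (F₀ z ^ 2 + F₁ z ^ 2) * (A₀ z ^ 2 + A₁ z ^ 2) / R ^ 2 := by
    rw [hq]
    field_simp
  rw [h1]
  have hR2 : R ≠ 0 := hRz.ne'
  rw [div_sub_div _ _ hF.ne' hA.ne', one_div, inv_div, div_mul_div_comm, div_eq_div_iff
    (by positivity) (by positivity)]
  rw [hRdef, hSdef]
  ring

theorem planar_compare {η F₀ F₁ A₀ A₁ : E2 → ℝ} {C C₀ C₁ D₀ D₁ : ℝ≥0} (hη : LipschitzWith C η)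
    (cη : HasCompactSupport η) (h0 : LipschitzWith C₀ F₀) (c0 : HasCompactSupport F₀)
    (h1 : LipschitzWith C₁ F₁) (c1 : HasCompactSupport F₁) (a0 : LipschitzWith D₀ A₀)
    (b0 : HasCompactSupport A₀) (a1 : LipschitzWith D₁ A₁) (b1 : HasCompactSupport A₁)
    {U : Set E2} (hU : IsOpen U) {t : ℝ} (hc : ∀ z ∈ U, η z = t)
    (hz : ∀ z ∈ tsupport η, z ∉ U → 0 < F₀ z * A₀ z + F₁ z * A₁ z) :
    ∫ z, thf η F₀ F₁ z / (F₀ z ^ 2 + F₁ z ^ 2) = ∫ z, thf η A₀ A₁ z / (A₀ z ^ 2 + A₁ z ^ 2) := by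
  have hK : IsCompact (tsupport η \ U) := cη.isCompact.diff hU
  have hcont : Continuous fun z => F₀ z * A₀ z + F₁ z * A₁ z :=
    (h0.continuous.mul a0.continuous).add (h1.continuous.mul a1.continuous)
  have hex : ∃ c : ℝ, 0 < c ∧ ∀ z ∈ tsupport η \ U, c < F₀ z * A₀ z + F₁ z * A₁ z := by
    by_cases hne : (tsupport η \ U).Nonempty
    · obtain ⟨z0, hz0, hmin⟩ := hK.exists_isMinOn hne hcont.continuousOn
      have hp := hz z0 hz0.1 hz0.2
      refine ⟨(F₀ z0 * A₀ z0 + F₁ z0 * A₁ z0) / 2, by positivity, fun z h => ?_⟩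
      have := hmin h
      simp only [mem_setOf_eq] at this
      linarith
    · exact ⟨1, one_pos, fun z h => absurd ⟨z, h⟩ hne⟩
  obtain ⟨c, hc0, hcb⟩ := hex
  obtain ⟨B0, hB0⟩ := bdd_of_compact h0.continuous c0
  obtain ⟨B1, hB1⟩ := bdd_of_compact h1.continuous c1
  obtain ⟨G0, hG0⟩ := bdd_of_compact a0.continuous b0
  obtain ⟨G1, hG1⟩ := bdd_of_compact a1.continuous b1
  obtain ⟨K1, k1⟩ := lip_mul h0 a0 hB0 hG0
  obtain ⟨K2, k2⟩ := lip_mul h1 a1 hB1 hG1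
  obtain ⟨K3, k3⟩ := lip_mul h1 a0 hB1 hG0
  obtain ⟨K4, k4⟩ := lip_mul h0 a1 hB0 hG1
  have lR : LipschitzWith (K1 + K2) fun z => F₀ z * A₀ z + F₁ z * A₁ z := k1.add k2
  have lS : LipschitzWith (K3 + K4) fun z => F₁ z * A₀ z - F₀ z * A₁ z := k3.sub k4
  have cS : HasCompactSupport fun z => F₁ z * A₀ z - F₀ z * A₁ z :=
    (c1.mul_right (f' := A₀)).sub (c0.mul_right (f' := A₁))
  obtain ⟨K, lg⟩ := PVC_lip lR lS cS hc0
  have cg : HasCompactSupport fun z => Real.arctan ((F₁ z * A₀ z - F₀ z * A₁ z) *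
        (max (F₀ z * A₀ z + F₁ z * A₁ z) c)⁻¹) := by
    have : HasCompactSupport fun z => (F₁ z * A₀ z - F₀ z * A₁ z) *
        (max (F₀ z * A₀ z + F₁ z * A₁ z) c)⁻¹ := cS.mul_right
    exact this.comp_left Real.arctan_zero
  have hint := JL_int_zero hη cη lg cg
  have qpos : ∀ z ∈ tsupport η \ U, 0 < (F₀ z ^ 2 + F₁ z ^ 2) * (A₀ z ^ 2 + A₁ z ^ 2) := by
    intro z h
    have hR := hz z h.1 h.2
    have hq : (F₀ z ^ 2 + F₁ z ^ 2) * (A₀ z ^ 2 + A₁ z ^ 2) =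
      (F₀ z * A₀ z + F₁ z * A₁ z) ^ 2 + (F₁ z * A₀ z - F₀ z * A₁ z) ^ 2 := by ring
    rw [hq]; positivity
  have qF : ∀ z ∈ tsupport η \ U, 0 < F₀ z ^ 2 + F₁ z ^ 2 := by
    intro z h
    rcases (by positivity : 0 ≤ F₀ z ^ 2 + F₁ z ^ 2).lt_or_eq with h' | h'
    · exact h'
    · have := qpos z h
      rw [← h', zero_mul] at this
      exact absurd this (lt_irrefl _)
  have qA : ∀ z ∈ tsupport η \ U, 0 < A₀ z ^ 2 + A₁ z ^ 2 := by
    intro z h
    rcases (by positivity : 0 ≤ A₀ z ^ 2 + A₁ z ^ 2).lt_or_eq with h' | h'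
    · exact h'
    · have := qpos z h
      rw [← h', mul_zero] at this
      exact absurd this (lt_irrefl _)
  have iF := PVC_integrable hη cη h0 c0 h1 c1 hU hc qF
  have iA := PVC_integrable hη cη a0 b0 a1 b1 hU hc qA
  have key : (fun z => JL η (fun z => Real.arctan ((F₁ z * A₀ z - F₀ z * A₁ z) *
        (max (F₀ z * A₀ z + F₁ z * A₁ z) c)⁻¹)) z) =ᵐ[volume]
      fun z => thf η F₀ F₁ z / (F₀ z ^ 2 + F₁ z ^ 2) - thf η A₀ A₁ z / (A₀ z ^ 2 + A₁ z ^ 2) := by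
    filter_upwards [h0.ae_lineDifferentiableAt (μ := volume) (bv 0),
      h1.ae_lineDifferentiableAt (μ := volume) (bv 0),
      a0.ae_lineDifferentiableAt (μ := volume) (bv 0),
      a1.ae_lineDifferentiableAt (μ := volume) (bv 0),
      h0.ae_lineDifferentiableAt (μ := volume) (bv 1),
      h1.ae_lineDifferentiableAt (μ := volume) (bv 1),
      a0.ae_lineDifferentiableAt (μ := volume) (bv 1),
      a1.ae_lineDifferentiableAt (μ := volume) (bv 1)] with z m1 m2 m3 m4 m5 m6 m7 m8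
    by_cases hzK : z ∈ tsupport η \ U
    · have s0 := PVC_deriv hc0 m1 m2 m3 m4 hcont (hcb z hzK)
      have s1 := PVC_deriv hc0 m5 m6 m7 m8 hcont (hcb z hzK)
      simp only [JL, thf]
      rw [s0, s1]
      ring
    · simp only [thf]
      rw [PVC_off hU hc hzK, PVC_off hU hc hzK, PVC_off hU hc hzK, PVC_off hU hc hzK,
        PVC_off hU hc hzK]
      simp
  rw [integral_congr_ae key, integral_sub iF iA] at hint
  exact sub_eq_zero.1 hint

end Pool.Agent.EWD
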