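import Mathlib
import Pool.Agent.EWD.GDF
import Pool.Agent.EWD.PVA

/-
PVD: the error term.  [about 110 lines]

`(q + ε²)² ≥ 4 q ε²`, so `2 ε²/(q + ε²)² ≤ 1/(2 q)`; where `η z ≠ 0` (so `z ≠ z₀`) `q ≥ c ‖z - z₀‖²`, `|JL F₀ F₁| ≤ 2 C₀ C₁`
(`norm_lineDeriv_le_of_lipschitz`). So the integrand is dominated by `(C₀ C₁ L/c)/‖z - z₀‖` on the compact support of
`η`, which is integrable (`‖z‖⁻¹` is integrable on balls of the plane: `integrable_fun_norm_addHaar` /
`integral_fun_norm_addHaar` in dimension 2 reduces to `∫ r · (1/r) dr`, or polar coordinates; translate by `z₀`).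
For `z ≠ z₀` with `η z ≠ 0` the integrand tends to 0 as `ε → 0` (`q > 0`). Dominated convergence.
Measurability: `JL` is measurable (`aestronglyMeasurable_lineDeriv`), `η, F₀, F₁` are continuous.
-/

open MeasureTheory Set Filter Measure
open scoped ContDiff Topology ENNReal NNReal

set_option linter.unusedSectionVars false

namespace Pool.Agent.EWD

open Pool.Agent.H74.FAC

private theorem pvd_int (R : ℝ) :
    Integrable (fun z : E2 => (if ‖z‖ ≤ R then ‖z‖⁻¹ else 0 : ℝ)) := by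
  have h := (integrable_fun_norm_addHaar (E := E2) (F := ℝ) (volume : Measure E2)
    (f := fun r : ℝ => if r ≤ R then r⁻¹ else 0)).2 ?_
  · exact h
  · have hd : Module.finrank ℝ E2 - 1 = 1 := by simp
    rw [hd]
    have h1 : IntegrableOn (fun y : ℝ => (Set.Iic R).indicator (fun _ => (1 : ℝ)) y)
        (Set.Ioi 0) volume := by
      rw [IntegrableOn, integrable_indicator_iff measurableSet_Iic]
      have : IntegrableOn (fun _ : ℝ => (1 : ℝ)) (Set.Ioc 0 R) volume := by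
        exact integrableOn_const (by simp)
      rw [IntegrableOn, Measure.restrict_restrict measurableSet_Iic, Set.Iic_inter_Ioi]
      exact this
    refine h1.congr_fun ?_ measurableSet_Ioi
    intro y hy
    have hy' : (0 : ℝ) < y := hy
    by_cases hR : y ≤ R
    · simp only [Set.indicator, Set.mem_Iic, hR, if_true, pow_one, smul_eq_mul]
      field_simp
    · simp only [Set.indicator, Set.mem_Iic, hR, if_false, pow_one, smul_eq_mul, mul_zero]

private theorem pvd_ineq {q ε : ℝ} (hq : 0 < q) (hε : 0 < ε) :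
    2 * ε ^ 2 / (q + ε ^ 2) ^ 2 ≤ (2 * q)⁻¹ := by
  have h1 : 0 < ε ^ 2 := by positivity
  rw [inv_eq_one_div, div_le_div_iff₀ (by positivity) (by positivity)]
  nlinarith [sq_nonneg (q - ε ^ 2)]

private theorem pvd_JL {F₀ F₁ : E2 → ℝ} {C₀ C₁ : ℝ≥0} (h0 : LipschitzWith C₀ F₀)
    (h1 : LipschitzWith C₁ F₁) (z : E2) : |JL F₀ F₁ z| ≤ 2 * ((C₀ : ℝ) * C₁) := by
  have hb : ∀ i, ‖bv i‖ = 1 := by intro i; simp [bv]
  have a0 : |lineDeriv ℝ F₀ z (bv 0)| ≤ C₀ := by
    have := norm_lineDeriv_le_of_lipschitz ℝ (v := bv 0) (x₀ := z) h0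
    rwa [hb, mul_one, Real.norm_eq_abs] at this
  have a1 : |lineDeriv ℝ F₀ z (bv 1)| ≤ C₀ := by
    have := norm_lineDeriv_le_of_lipschitz ℝ (v := bv 1) (x₀ := z) h0
    rwa [hb, mul_one, Real.norm_eq_abs] at this
  have b0 : |lineDeriv ℝ F₁ z (bv 0)| ≤ C₁ := by
    have := norm_lineDeriv_le_of_lipschitz ℝ (v := bv 0) (x₀ := z) h1
    rwa [hb, mul_one, Real.norm_eq_abs] at this
  have b1 : |lineDeriv ℝ F₁ z (bv 1)| ≤ C₁ := by
    have := norm_lineDeriv_le_of_lipschitz ℝ (v := bv 1) (x₀ := z) h1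
    rwa [hb, mul_one, Real.norm_eq_abs] at this
  unfold JL
  refine (abs_sub _ _).trans ?_
  rw [abs_mul, abs_mul]
  have e1 := mul_le_mul a0 b1 (abs_nonneg _) (NNReal.coe_nonneg C₀)
  have e2 := mul_le_mul a1 b0 (abs_nonneg _) (NNReal.coe_nonneg C₀)
  linarith

theorem planar_err {η F₀ F₁ : E2 → ℝ} {C₀ C₁ : ℝ≥0} (hη : Continuous η)
    (cη : HasCompactSupport η) (h0 : LipschitzWith C₀ F₀) (h1 : LipschitzWith C₁ F₁) {z₀ : E2}
    {L c : ℝ} (hL : ∀ z, |η z| ≤ L * ‖z - z₀‖) (hc : 0 < c)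
    (hq : ∀ z, η z ≠ 0 → c * ‖z - z₀‖ ^ 2 ≤ F₀ z ^ 2 + F₁ z ^ 2) :
    Tendsto (fun ε : ℝ => ∫ z, η z * (2 * ε ^ 2 / (F₀ z ^ 2 + F₁ z ^ 2 + ε ^ 2) ^ 2) * JL F₀ F₁ z)
      (𝓝[>] 0) (𝓝 0) := by
  obtain ⟨R, hR⟩ : ∃ R : ℝ, ∀ z, η z ≠ 0 → ‖z - z₀‖ ≤ R := by
    obtain ⟨R, hR⟩ := cη.isBounded.subset_closedBall z₀
    refine ⟨R, fun z hz => ?_⟩
    have := hR (subset_tsupport η hz)
    rwa [Metric.mem_closedBall, dist_eq_norm] at this
  set b : E2 → ℝ := fun z => (|L| * (C₀ * C₁) / c) * (if ‖z - z₀‖ ≤ R then ‖z - z₀‖⁻¹ else 0)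
    with hb
  have hbi : Integrable b := ((pvd_int R).comp_sub_right z₀).const_mul _
  have hnn : ∀ z, 0 ≤ F₀ z ^ 2 + F₁ z ^ 2 := fun z => by positivity
  have hz0 : ∀ z, η z ≠ 0 → 0 < ‖z - z₀‖ := by
    intro z hz
    by_contra hcon
    have h1 : ‖z - z₀‖ = 0 := le_antisymm (not_lt.1 hcon) (norm_nonneg _)
    have h2 := hL z
    rw [h1, mul_zero] at h2
    exact hz (abs_nonpos_iff.1 h2)
  have key : Tendsto (fun ε : ℝ => ∫ z, η z * (2 * ε ^ 2 / (F₀ z ^ 2 + F₁ z ^ 2 + ε ^ 2) ^ 2)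
      * JL F₀ F₁ z) (𝓝[>] 0) (𝓝 (∫ _ : E2, (0 : ℝ))) := by
    refine tendsto_integral_filter_of_dominated_convergence b ?_ ?_ hbi ?_
    · filter_upwards [self_mem_nhdsWithin] with ε hε
      have hε' : (0 : ℝ) < ε := hε
      refine (Continuous.aestronglyMeasurable ?_).mul ?_
      · refine hη.mul ?_
        refine Continuous.div continuous_const ?_ ?_
        · exact (((h0.continuous.pow 2).add (h1.continuous.pow 2)).add continuous_const).pow 2
        · intro z
          have := hnn z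
          positivity
      · have m : ∀ (F : E2 → ℝ) (i : Fin 2), Continuous F →
            Measurable (fun z => lineDeriv ℝ F z (bv i)) := fun F i hF => measurable_lineDeriv hF
        exact (((m F₀ 0 h0.continuous).mul (m F₁ 1 h1.continuous)).sub
          ((m F₀ 1 h0.continuous).mul (m F₁ 0 h1.continuous))).aestronglyMeasurable
    · filter_upwards [self_mem_nhdsWithin] with ε hε
      have hε' : (0 : ℝ) < ε := hε
      filter_upwards with z
      by_cases hz : η z = 0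
      · rw [hz, zero_mul, zero_mul, norm_zero, hb]
        simp only
        split_ifs
        · positivity
        · simp
      · have hr := hz0 z hz
        have hRz := hR z hz
        have hqz := hq z hz
        have hqp : 0 < F₀ z ^ 2 + F₁ z ^ 2 := lt_of_lt_of_le (by positivity) hqz
        have e1 : |η z| ≤ |L| * ‖z - z₀‖ :=
          (hL z).trans (mul_le_mul_of_nonneg_right (le_abs_self L) (norm_nonneg _))
        have e2 : 2 * ε ^ 2 / (F₀ z ^ 2 + F₁ z ^ 2 + ε ^ 2) ^ 2 ≤ (2 * (c * ‖z - z₀‖ ^ 2))⁻¹ :=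
          (pvd_ineq hqp hε').trans (inv_anti₀ (by positivity) (by linarith))
        have e3 := pvd_JL h0 h1 z
        have e2n : 0 ≤ 2 * ε ^ 2 / (F₀ z ^ 2 + F₁ z ^ 2 + ε ^ 2) ^ 2 := by positivity
        rw [norm_mul, norm_mul, Real.norm_eq_abs, Real.norm_eq_abs, Real.norm_eq_abs,
          abs_of_nonneg e2n, hb]
        simp only [hRz, if_true]
        calc |η z| * (2 * ε ^ 2 / (F₀ z ^ 2 + F₁ z ^ 2 + ε ^ 2) ^ 2) * |JL F₀ F₁ z|
            ≤ (|L| * ‖z - z₀‖) * (2 * (c * ‖z - z₀‖ ^ 2))⁻¹ * (2 * ((C₀ : ℝ) * C₁)) := by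
              gcongr
          _ = |L| * (C₀ * C₁) / c * ‖z - z₀‖⁻¹ := by
              field_simp
    · filter_upwards with z
      by_cases hz : η z = 0
      · simp only [hz, zero_mul]
        exact tendsto_const_nhds
      · have hr := hz0 z hz
        have hqz := hq z hz
        have hqp : 0 < F₀ z ^ 2 + F₁ z ^ 2 := lt_of_lt_of_le (by positivity) hqz
        have hc : ContinuousAt (fun ε : ℝ => η z * (2 * ε ^ 2 / (F₀ z ^ 2 + F₁ z ^ 2 + ε ^ 2) ^ 2)
            * JL F₀ F₁ z) 0 := by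
          have hne : (F₀ z ^ 2 + F₁ z ^ 2 + (0 : ℝ) ^ 2) ^ 2 ≠ 0 := by
            have : 0 < F₀ z ^ 2 + F₁ z ^ 2 + (0 : ℝ) ^ 2 := by linarith [sq_nonneg (0 : ℝ)]
            positivity
          refine ContinuousAt.mul (ContinuousAt.mul continuousAt_const ?_) continuousAt_const
          exact ContinuousAt.div (by fun_prop) (by fun_prop) hne
        have := hc.tendsto
        simp only [ne_eq, OfNat.ofNat_ne_zero, not_false_eq_true, zero_pow, mul_zero, zero_div,
          zero_mul] at this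
        exact this.mono_left nhdsWithin_le_nhds
  rwa [integral_zero] at key

end Pool.Agent.EWD
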