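import Mathlib
import Pool.Agent.EWD.GDF

/-
PAI: approximate identity in the plane.  [about 120 lines]

`h_ε p = 2 ε²/(‖p‖² + ε²)²` on `E2 = EuclideanSpace ℝ (Fin 2)`.
(1) `∫ h_ε = 2π` for `ε > 0`: `integral_fun_norm_addHaar` (dimension 2, `volume (ball 0 1) = π`:
 `EuclideanSpace.volume_ball_fin_two`): `2 π ∫_{r>0} 2 ε² r/(r² + ε²)² dr = 2π [-ε²/(r² + ε²)]₀^∞ = 2π`
 (`integral_Ioi_of_hasDerivAt_of_tendsto`); integrability likewise.
(2) `∫_{ball 0 ρ} g h_ε → 2π g 0`: scale `p = ε p'` and use dominated convergence, or Mathlib's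
 `tendsto_setIntegral_peak_smul_of_integrableOn_of_tendsto`. Outside a ball of radius `r` we have
 `h_ε ≤ 2 ε²/r⁴ → 0` and `∫_{outside} h_ε = 2π ε²/(r² + ε²) → 0`.
-/

open MeasureTheory Set Filter Measure Manifold Bundle
open scoped ContDiff Topology ENNReal NNReal

set_option linter.unusedSectionVars false

namespace Pool.Agent.EWD

open Pool.Agent.H74.FAC

private theorem PAI_deriv {ε : ℝ} (hε : 0 < ε) (y : ℝ) :
    HasDerivAt (fun y : ℝ => - ε ^ 2 / (y ^ 2 + ε ^ 2)) (y ^ (2 - 1) • (2 * ε ^ 2 / (y ^ 2 + ε ^ 2) ^ 2)) y := by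
  have h0 : y ^ 2 + ε ^ 2 ≠ 0 := by positivity
  have h1 : HasDerivAt (fun y : ℝ => y ^ 2 + ε ^ 2) (2 * y) y := by
    have := (hasDerivAt_pow 2 y).add_const (ε ^ 2)
    simpa using this
  have h2 := (hasDerivAt_const y (- ε ^ 2)).div h1 h0
  have h3 : y ^ (2 - 1) • (2 * ε ^ 2 / (y ^ 2 + ε ^ 2) ^ 2) =
      (0 * (y ^ 2 + ε ^ 2) - -ε ^ 2 * (2 * y)) / (y ^ 2 + ε ^ 2) ^ 2 := by
    rw [smul_eq_mul]
    field_simp
    ring
  rw [h3]
  exact h2

private theorem PAI_tend (ε : ℝ) : Tendsto (fun y : ℝ => - ε ^ 2 / (y ^ 2 + ε ^ 2)) atTop (𝓝 0) := by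
  apply Tendsto.const_div_atTop
  exact tendsto_atTop_add_const_right _ _ (tendsto_pow_atTop (by norm_num))

private theorem PAI_cont {ε : ℝ} (hε : 0 < ε) :
    Continuous (fun y : ℝ => - ε ^ 2 / (y ^ 2 + ε ^ 2)) := by
  apply Continuous.div
  · fun_prop
  · fun_prop
  · intro y
    positivity

private theorem PAI_int {ε : ℝ} (hε : 0 < ε) :
    IntegrableOn (fun y : ℝ => y ^ (2 - 1) • (2 * ε ^ 2 / (y ^ 2 + ε ^ 2) ^ 2)) (Ioi 0) volume := by
  refine integrableOn_Ioi_deriv_of_nonneg (PAI_cont hε).continuousWithinAt (fun y _ => PAI_deriv hε y) ?_ (PAI_tend ε)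
  intro y hy
  have hy' : 0 < y := hy
  rw [smul_eq_mul]
  positivity

private theorem PAI_fin : Module.finrank ℝ E2 = 2 := finrank_euclideanSpace_fin

theorem integral_peak {ε : ℝ} (hε : 0 < ε) :
    Integrable (fun p : E2 => 2 * ε ^ 2 / (‖p‖ ^ 2 + ε ^ 2) ^ 2) ∧
    ∫ p : E2, 2 * ε ^ 2 / (‖p‖ ^ 2 + ε ^ 2) ^ 2 = 2 * Real.pi := by
  have hv : (volume : Measure E2).real (Metric.ball 0 1) = Real.pi := by
    rw [measureReal_def, EuclideanSpace.volume_ball_fin_two]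
    rw [ENNReal.ofReal_one, one_pow, one_mul, ENNReal.toReal_ofReal Real.pi_pos.le]
  constructor
  · have h1 := (integrable_fun_norm_addHaar (volume : Measure E2)
      (f := fun y : ℝ => 2 * ε ^ 2 / (y ^ 2 + ε ^ 2) ^ 2)).2
    apply h1
    rw [PAI_fin]
    exact PAI_int hε
  · have h1 := integral_fun_norm_addHaar (volume : Measure E2)
      (fun y : ℝ => 2 * ε ^ 2 / (y ^ 2 + ε ^ 2) ^ 2)
    rw [PAI_fin, hv] at h1
    rw [h1]
    have h2 := integral_Ioi_of_hasDerivAt_of_tendsto (PAI_cont hε).continuousWithinAt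
      (fun y _ => PAI_deriv hε y) (PAI_int hε) (PAI_tend ε)
    rw [h2]
    have h3 : (0 : ℝ) - - ε ^ 2 / (0 ^ 2 + ε ^ 2) = 1 := by
      have : ε ^ 2 ≠ 0 := by positivity
      field_simp
      ring
    rw [h3]
    simp

private theorem PAI_scale {ε : ℝ} (hε : 0 < ε) (G : E2 → ℝ) :
    ∫ p : E2, G p * (2 * ε ^ 2 / (‖p‖ ^ 2 + ε ^ 2) ^ 2) =
      ∫ q : E2, G (ε • q) * (2 * 1 ^ 2 / (‖q‖ ^ 2 + 1 ^ 2) ^ 2) := by
  have h1 := Measure.integral_comp_smul (volume : Measure E2)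
    (fun p : E2 => G p * (2 * ε ^ 2 / (‖p‖ ^ 2 + ε ^ 2) ^ 2)) ε
  rw [PAI_fin] at h1
  have h2 : |(ε ^ 2)⁻¹| = (ε ^ 2)⁻¹ := abs_of_pos (by positivity)
  rw [h2, smul_eq_mul] at h1
  have h3 : ∫ p : E2, G p * (2 * ε ^ 2 / (‖p‖ ^ 2 + ε ^ 2) ^ 2) =
      ε ^ 2 * ∫ q : E2, G (ε • q) * (2 * ε ^ 2 / (‖ε • q‖ ^ 2 + ε ^ 2) ^ 2) := by
    rw [h1, ← mul_assoc, mul_inv_cancel₀ (by positivity), one_mul]
  rw [h3, ← integral_const_mul]
  refine integral_congr_ae (Eventually.of_forall fun q => ?_)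
  simp only
  rw [norm_smul, Real.norm_of_nonneg hε.le]
  have h4 : ‖q‖ ^ 2 + 1 ≠ 0 := by positivity
  have h5 : (ε * ‖q‖) ^ 2 + ε ^ 2 = ε ^ 2 * (‖q‖ ^ 2 + 1) := by ring
  rw [h5]
  field_simp

theorem tendsto_peak {ρ : ℝ} (hρ : 0 < ρ) {g : E2 → ℝ} (hg : ContinuousAt g 0)
    (hm : AEStronglyMeasurable g (volume.restrict (Metric.ball 0 ρ))) {B : ℝ}
    (hB : ∀ p ∈ Metric.ball (0 : E2) ρ, |g p| ≤ B) :
    Tendsto (fun ε : ℝ => ∫ p in Metric.ball (0 : E2) ρ, g p *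
      (2 * ε ^ 2 / (‖p‖ ^ 2 + ε ^ 2) ^ 2)) (𝓝[>] 0) (𝓝 (2 * Real.pi * g 0)) := by
  set G : E2 → ℝ := (Metric.ball (0 : E2) ρ).indicator g with hG
  have h0 : (0 : E2) ∈ Metric.ball (0 : E2) ρ := Metric.mem_ball_self hρ
  have hB0 : 0 ≤ B := (abs_nonneg _).trans (hB 0 h0)
  have hGm : AEStronglyMeasurable G volume := (aestronglyMeasurable_indicator_iff Metric.isOpen_ball.measurableSet).2 hm
  have hGB : ∀ p, |G p| ≤ B := by
    intro p
    by_cases hp : p ∈ Metric.ball (0 : E2) ρ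
    · rw [hG, indicator_of_mem hp]
      exact hB p hp
    · rw [hG, indicator_of_notMem hp, abs_zero]
      exact hB0
  have hG0 : G 0 = g 0 := by rw [hG, indicator_of_mem h0]
  have hGc : ContinuousAt G 0 := by
    have h1 : g =ᶠ[𝓝 0] G := by
      filter_upwards [Metric.ball_mem_nhds (0 : E2) hρ] with p hp
      rw [hG, indicator_of_mem hp]
    exact hg.congr h1
  have hcongr : ∀ᶠ ε : ℝ in 𝓝[>] 0, (∫ q : E2, G (ε • q) * (2 * 1 ^ 2 / (‖q‖ ^ 2 + 1 ^ 2) ^ 2)) =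
      ∫ p in Metric.ball (0 : E2) ρ, g p * (2 * ε ^ 2 / (‖p‖ ^ 2 + ε ^ 2) ^ 2) := by
    filter_upwards [self_mem_nhdsWithin] with ε hε
    rw [← PAI_scale hε G, ← integral_indicator Metric.isOpen_ball.measurableSet]
    refine integral_congr_ae (Eventually.of_forall fun p => ?_)
    simp only
    by_cases hp : p ∈ Metric.ball (0 : E2) ρ
    · rw [hG, indicator_of_mem hp, indicator_of_mem hp]
    · rw [hG, indicator_of_notMem hp, indicator_of_notMem hp, zero_mul]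
  refine Tendsto.congr' hcongr ?_
  have hlim : 2 * Real.pi * g 0 = ∫ q : E2, G 0 * (2 * 1 ^ 2 / (‖q‖ ^ 2 + 1 ^ 2) ^ 2) := by
    rw [integral_const_mul, (integral_peak one_pos).2, hG0]
    ring
  rw [hlim]
  refine tendsto_integral_filter_of_dominated_convergence
    (fun q : E2 => B * (2 * 1 ^ 2 / (‖q‖ ^ 2 + 1 ^ 2) ^ 2)) ?_ ?_ ?_ ?_
  · filter_upwards [self_mem_nhdsWithin] with ε hε
    have hε' : ε ≠ 0 := ne_of_gt hε
    have h1 : Measure.QuasiMeasurePreserving (fun q : E2 => ε • q) volume volume := by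
      refine ⟨(continuous_const_smul ε).measurable, ?_⟩
      rw [Measure.map_addHaar_smul (volume : Measure E2) hε']
      exact Measure.smul_absolutelyContinuous
    exact (hGm.comp_quasiMeasurePreserving h1).mul (integral_peak one_pos).1.aestronglyMeasurable
  · refine Eventually.of_forall fun ε => Eventually.of_forall fun q => ?_
    rw [norm_mul, Real.norm_eq_abs, Real.norm_eq_abs]
    have h2 : (0 : ℝ) ≤ 2 * 1 ^ 2 / (‖q‖ ^ 2 + 1 ^ 2) ^ 2 := by positivity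
    rw [abs_of_nonneg h2]
    exact mul_le_mul_of_nonneg_right (hGB _) h2
  · exact (integral_peak one_pos).1.const_mul B
  · refine Eventually.of_forall fun q => ?_
    have h3 : Tendsto (fun ε : ℝ => ε • q) (𝓝[>] 0) (𝓝 (0 : E2)) := by
      have h4 : Tendsto (fun ε : ℝ => ε • q) (𝓝 0) (𝓝 ((0 : ℝ) • q)) :=
        (continuous_id.smul continuous_const).tendsto 0
      rw [zero_smul] at h4
      exact h4.mono_left nhdsWithin_le_nhds
    exact (hGc.tendsto.comp h3).mul_const _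

end Pool.Agent.EWD
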