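import Mathlib
import Pool.Agent.EWD.GDF
import Pool.Agent.EWD.PAI

/-
PVE: the linear case.  [about 90 lines]

`L : E2 →L[ℝ] E2` invertible (`L.det ≠ 0`). Substitute `p = L (z - z₀)` (translation invariance and
`MeasureTheory.Measure.integral_comp_...`/`integral_image_eq_integral_abs_det_fderiv_smul` on `univ`, or
`Measure.map_linearMap_addHaar_eq_smul_addHaar`): `∫ η(z) h_ε(L(z - z₀)) |det L| dz = ∫ η(z₀ + L⁻¹ p) h_ε p dp`, with
`h_ε p = 2 ε²/(‖p‖² + ε²)²`. The function `g p = η(z₀ + L⁻¹ p)` is continuous with compact support, contained in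
some ball, so `∫ g h_ε = ∫_{ball 0 ρ} g h_ε → 2π g 0` (`tendsto_peak`). `det L = ±|det L|`.
-/

open MeasureTheory Set Filter Measure
open scoped ContDiff Topology ENNReal NNReal

set_option linter.unusedSectionVars false

namespace Pool.Agent.EWD

open Pool.Agent.H74.FAC

theorem planar_linear {L : E2 →L[ℝ] E2} (hL : L.det ≠ 0) {η : E2 → ℝ} (hη : Continuous η)
    (cη : HasCompactSupport η) (z₀ : E2) :
    Tendsto (fun ε : ℝ => ∫ z, η z * (2 * ε ^ 2 / (‖L (z - z₀)‖ ^ 2 + ε ^ 2) ^ 2) * L.det)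
      (𝓝[>] 0) (𝓝 (2 * Real.pi * ((if 0 < L.det then 1 else -1) * η z₀))) := by
  obtain ⟨Le, hLe⟩ : ∃ Le : E2 ≃L[ℝ] E2, ∀ z, Le z = L z :=
    ⟨L.toContinuousLinearEquivOfDetNeZero hL, fun z => rfl⟩
  obtain ⟨g, hg⟩ : ∃ g : E2 → ℝ, ∀ p, g p = η (z₀ + Le.symm p) := ⟨_, fun _ => rfl⟩
  have hgf : g = fun p => η (z₀ + Le.symm p) := funext hg
  have gc : Continuous g := by
    rw [hgf]
    exact hη.comp (continuous_const.add Le.symm.continuous)
  -- bounded support
  obtain ⟨R, hR⟩ := cη.isBounded.exists_norm_le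
  have hsupp : ∀ p, g p ≠ 0 → ‖p‖ ≤ ‖L‖ * (R + ‖z₀‖) := by
    intro p hp
    have h1 : z₀ + Le.symm p ∈ tsupport η := subset_tsupport _ (by
      rw [Function.mem_support, ← hg]
      exact hp)
    have h2 := hR _ h1
    have h3 : ‖Le.symm p‖ ≤ R + ‖z₀‖ := by
      have : Le.symm p = (z₀ + Le.symm p) - z₀ := by abel
      rw [this]
      exact (norm_sub_le _ _).trans (by linarith)
    have h4 : p = L (Le.symm p) := by rw [← hLe, Le.apply_symm_apply]
    calc ‖p‖ = ‖L (Le.symm p)‖ := by rw [← h4]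
      _ ≤ ‖L‖ * ‖Le.symm p‖ := L.le_opNorm _
      _ ≤ ‖L‖ * (R + ‖z₀‖) := mul_le_mul_of_nonneg_left h3 (norm_nonneg _)
  obtain ⟨ρ, hρ⟩ : ∃ ρ : ℝ, ρ = max (‖L‖ * (R + ‖z₀‖)) 0 + 1 := ⟨_, rfl⟩
  have hρ0 : 0 < ρ := by
    rw [hρ]
    have := le_max_right (‖L‖ * (R + ‖z₀‖)) 0
    linarith
  have hout : ∀ p, p ∉ Metric.ball (0 : E2) ρ → g p = 0 := by
    intro p hp
    by_contra hne
    apply hp
    rw [mem_ball_zero_iff, hρ]
    have h1 := hsupp p hne
    have h2 := le_max_left (‖L‖ * (R + ‖z₀‖)) 0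
    linarith
  -- bounded
  obtain ⟨B, hB⟩ := cη.exists_bound_of_continuous hη
  have hpeak := tendsto_peak hρ0 (g := g) gc.continuousAt gc.aestronglyMeasurable (B := B)
    (fun p _ => by
      rw [hg]
      exact hB _)
  have hg0 : g 0 = η z₀ := by rw [hg, map_zero, add_zero]
  rw [hg0] at hpeak
  -- change of variables
  have hcv : ∀ ε : ℝ, ∫ z, |L.det| * (η z * (2 * ε ^ 2 / (‖L (z - z₀)‖ ^ 2 + ε ^ 2) ^ 2)) =
      ∫ p in Metric.ball (0 : E2) ρ, g p * (2 * ε ^ 2 / (‖p‖ ^ 2 + ε ^ 2) ^ 2) := by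
    intro ε
    have h1 := integral_image_eq_integral_abs_det_fderiv_smul (volume : Measure E2)
      (s := univ) (f := fun z => L (z - z₀)) (f' := fun _ => L) MeasurableSet.univ
      (fun x _ => by
        have h2 : HasFDerivAt (fun z => L (z - z₀)) (L.comp (ContinuousLinearMap.id ℝ E2)) x :=
          L.hasFDerivAt.comp x ((hasFDerivAt_id x).sub_const z₀)
        rw [ContinuousLinearMap.comp_id] at h2
        exact h2.hasFDerivWithinAt)
      (fun x _ y _ hxy => by
        have h2 : Le (x - z₀) = Le (y - z₀) := by rw [hLe, hLe]; exact hxy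
        have h3 := Le.injective h2
        exact sub_left_injective h3)
      (fun p => g p * (2 * ε ^ 2 / (‖p‖ ^ 2 + ε ^ 2) ^ 2))
    have h2 : (fun z => L (z - z₀)) '' univ = univ := by
      rw [image_univ]
      apply Function.Surjective.range_eq
      intro p
      refine ⟨z₀ + Le.symm p, ?_⟩
      show L (z₀ + Le.symm p - z₀) = p
      rw [add_sub_cancel_left, ← hLe, Le.apply_symm_apply]
    rw [h2, setIntegral_univ, setIntegral_univ] at h1
    rw [setIntegral_eq_integral_of_forall_compl_eq_zero (fun p hp => by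
      rw [hout p hp, zero_mul]), h1]
    congr 1
    funext z
    have h3 : g (L (z - z₀)) = η z := by
      rw [hg, ← hLe, Le.symm_apply_apply, add_sub_cancel]
    show |L.det| * _ = |L.det| • (g (L (z - z₀)) * _)
    rw [h3, smul_eq_mul]
  have hfin : ∀ ε : ℝ, ∫ z, η z * (2 * ε ^ 2 / (‖L (z - z₀)‖ ^ 2 + ε ^ 2) ^ 2) * L.det =
      (if 0 < L.det then 1 else -1) *
        ∫ p in Metric.ball (0 : E2) ρ, g p * (2 * ε ^ 2 / (‖p‖ ^ 2 + ε ^ 2) ^ 2) := by
    intro ε
    rw [← hcv ε, ← integral_const_mul]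
    congr 1
    funext z
    split_ifs with h
    · rw [abs_of_pos h]; ring
    · have h' : L.det ≤ 0 := not_lt.1 h
      rw [abs_of_nonpos h']; ring
  have := hpeak.const_mul (if 0 < L.det then (1 : ℝ) else -1)
  have e : 2 * Real.pi * ((if 0 < L.det then 1 else -1) * η z₀) =
      (if 0 < L.det then (1 : ℝ) else -1) * (2 * Real.pi * η z₀) := by ring
  rw [e]
  exact this.congr fun ε => (hfin ε).symm

end Pool.Agent.EWD
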