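import Mathlib
import Pool.Agent.EWD.GDF
import Pool.Agent.EWD.PVA
import Pool.Agent.EWD.PVB
import Pool.Agent.EWD.PVC
import Pool.Agent.EWD.PVD
import Pool.Agent.EWD.PVE

/-
PVF: the local contribution of a zero of a Lipschitz map that is differentiable there with
invertible derivative.  [about 170 lines]

Let `L : E2 →L[ℝ] E2` be the linear map with components `fderiv F₀ z₀`, `fderiv F₁ z₀`; `L.det = J ≠ 0` (`det_E2`), so
`‖L w‖ ≥ m ‖w‖` with `m > 0`. Differentiability: there is `r > 0` with `closedBall z₀ (2 r) ⊆ U` and, for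
`‖z - z₀‖ ≤ 2 r`, `F(z) = (F₀ z, F₁ z)` satisfies `‖F z - L (z - z₀)‖ ≤ ‖L(z - z₀)‖/2`; so
`q ≥ (m²/4) ‖z - z₀‖²` and, with `A = L(z - z₀)`, `F₀ A₀ + F₁ A₁ > 0` for `0 < ‖z - z₀‖ ≤ 2r`.
`N = ball z₀ r`. Cutoffs: `χ z = max 0 (min 1 (2 - 2‖z - z₀‖/r))`: 1 on `ball z₀ (r/2)`, support in
`closedBall z₀ r`, Lipschitz; `κ` Lipschitz, compact support, 1 on `ball z₀ (2r)`: `Aᵢ z := κ z * (L (z - z₀)) i` is Lipschitz
with compact support.
(1) `χ`: `planar_away` for `(F₀, F₁)` and for `(A₀, A₁)` (with `U' = ball z₀ (r/2)`), `planar_compare`, and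
 `planar_linear` (on the support of `χ` `Aᵢ` is linear and `JL A₀ A₁ = L.det`) with `tendsto_nhds_unique`: the
 limit for `χ` is `2π σ`, `σ = ±1` the sign of `J`.
(2) `g` Lipschitz on `N` and bounded by `B`: extend it to a globally Lipschitz function `G` (`LipschitzOnWith.extend_real`;
 also bounded if you truncate). `∫_N g h JL = ∫ χ G h JL + ∫_N (1 - χ) g h JL`. The last integral tends to 0: on
 `N \ ball z₀ (r/2)` `q ≥ (m²/4)(r/2)²`, so `h_ε ≤ 2 ε²/q²`. And `χ G = G z₀ χ + χ (G - G z₀)`: `planar_err` for the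
 second function (`|χ (G - G z₀)| ≤ Lip(G) ‖z - z₀‖`, `q ≥ (m²/4)‖z - z₀‖²` on the support of `χ`).
-/

open MeasureTheory Set Filter Measure
open scoped ContDiff Topology ENNReal NNReal

set_option linter.unusedSectionVars false

namespace Pool.Agent.EWD

open Pool.Agent.H74.FAC

private lemma cut (z₀ : E2) {s t : ℝ} (hst : s < t) :
    ∃ (χ : E2 → ℝ) (C : ℝ≥0), LipschitzWith C χ ∧ HasCompactSupport χ ∧ (∀ z, 0 ≤ χ z) ∧
      (∀ z, χ z ≤ 1) ∧ (∀ z, ‖z - z₀‖ ≤ s → χ z = 1) ∧ (∀ z, t ≤ ‖z - z₀‖ → χ z = 0) ∧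
      tsupport χ ⊆ Metric.closedBall z₀ t := by
  have hd : 0 < t - s := sub_pos.2 hst
  have hz : ∀ z : E2, t ≤ ‖z - z₀‖ → max 0 (min 1 ((t - ‖z - z₀‖) / (t - s))) = 0 := by
    intro z hz
    have h1 : (t - ‖z - z₀‖) / (t - s) ≤ 0 := div_nonpos_of_nonpos_of_nonneg (by linarith) hd.le
    exact max_eq_left ((min_le_right _ _).trans h1)
  have hsub : Function.support (fun z : E2 => max 0 (min 1 ((t - ‖z - z₀‖) / (t - s))))
      ⊆ Metric.closedBall z₀ t := by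
    intro z hz1
    rw [Metric.mem_closedBall, dist_eq_norm]
    by_contra hcon
    push Not at hcon
    exact hz1 (hz z hcon.le)
  have hb : LipschitzWith ⟨1 / (t - s), by positivity⟩
      (fun z : E2 => (t - ‖z - z₀‖) / (t - s)) := by
    apply lip_of_abs
    intro x y
    rw [← sub_div, abs_div, abs_of_pos hd, div_le_iff₀ hd]
    have h1 : |(t - ‖x - z₀‖) - (t - ‖y - z₀‖)| ≤ dist x y := by
      have h2 : (t - ‖x - z₀‖) - (t - ‖y - z₀‖) = ‖y - z₀‖ - ‖x - z₀‖ := by ring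
      rw [h2]
      have h3 := abs_norm_sub_norm_le (y - z₀) (x - z₀)
      rw [sub_sub_sub_cancel_right] at h3
      rw [dist_comm, dist_eq_norm]
      exact h3
    calc |(t - ‖x - z₀‖) - (t - ‖y - z₀‖)| ≤ dist x y := h1
      _ = 1 / (t - s) * dist x y * (t - s) := by field_simp
  refine ⟨fun z => max 0 (min 1 ((t - ‖z - z₀‖) / (t - s))), _, (hb.const_min 1).const_max 0, ?_,
    ?_, ?_, ?_, hz, closure_minimal hsub Metric.isClosed_closedBall⟩
  · exact HasCompactSupport.of_support_subset_isCompact (isCompact_closedBall z₀ t) hsub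
  · intro z
    exact le_max_left _ _
  · intro z
    exact max_le zero_le_one (min_le_left _ _)
  · intro z hz1
    have h1 : 1 ≤ (t - ‖z - z₀‖) / (t - s) := by
      rw [le_div_iff₀ hd]
      linarith
    show max 0 (min 1 _) = 1
    rw [min_eq_left h1]
    exact max_eq_right zero_le_one

private lemma lin_cut (D : E2 →L[ℝ] ℝ) (z₀ : E2) {R : ℝ} (hR : 0 < R) :
    ∃ (A : E2 → ℝ) (C : ℝ≥0), LipschitzWith C A ∧ HasCompactSupport A ∧
      ∀ z, ‖z - z₀‖ ≤ R → A z = D (z - z₀) := by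
  obtain ⟨κ, C, hκ, cκ, h0, h1, hone, -, -⟩ := cut z₀ (show R < R + 1 by linarith)
  have hM : 0 ≤ ‖D‖ * R := by positivity
  have hlin : LipschitzWith ‖D‖₊ (fun z : E2 => D (z - z₀)) := by
    have h := D.lipschitz.comp ((LipschitzWith.id (α := E2)).sub (LipschitzWith.const z₀))
    simp only [add_zero, mul_one] at h
    exact h
  have hT := (hlin.const_min (‖D‖ * R)).const_max (-(‖D‖ * R))
  have hTb : ∀ z : E2, |max (-(‖D‖ * R)) (min (‖D‖ * R) (D (z - z₀)))| ≤ ‖D‖ * R := by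
    intro z
    rw [abs_le]
    exact ⟨le_max_left _ _, max_le (by linarith) (min_le_left _ _)⟩
  obtain ⟨C', hC'⟩ := lip_mul hκ hT (A := 1) (fun z => by rw [abs_of_nonneg (h0 z)]; exact h1 z) hTb
  refine ⟨_, C', hC', ?_, ?_⟩
  · exact cκ.mul_right
  · intro z hz
    have h2 : |D (z - z₀)| ≤ ‖D‖ * R := by
      rw [← Real.norm_eq_abs]
      exact (D.le_opNorm _).trans (by gcongr)
    rw [abs_le] at h2
    show κ z * max (-(‖D‖ * R)) (min (‖D‖ * R) (D (z - z₀))) = _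
    rw [hone z hz, one_mul, min_eq_right h2.2, max_eq_right h2.1]

private lemma line_eq {A : E2 → ℝ} {D : E2 →L[ℝ] ℝ} {z₀ : E2} {R : ℝ}
    (hA : ∀ z, ‖z - z₀‖ ≤ R → A z = D (z - z₀)) {z : E2} (hz : ‖z - z₀‖ < R) (v : E2) :
    lineDeriv ℝ A z v = D v := by
  have h1 : A =ᶠ[𝓝 z] fun y => D (y - z₀) := by
    have h2 : Metric.ball z₀ R ∈ 𝓝 z := by
      apply Metric.isOpen_ball.mem_nhds
      rw [Metric.mem_ball, dist_eq_norm]
      exact hz
    filter_upwards [h2] with y hy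
    rw [Metric.mem_ball, dist_eq_norm] at hy
    exact hA y hy.le
  rw [h1.lineDeriv_eq]
  have h3 : HasFDerivAt (fun y : E2 => D (y - z₀)) D z := by
    have h4 := D.hasFDerivAt (x := z - z₀)
    have h5 := h4.comp z ((hasFDerivAt_id z).sub_const z₀)
    rw [ContinuousLinearMap.comp_id] at h5
    exact h5
  exact (h3.hasLineDerivAt v).lineDeriv

private lemma quad {m ρ a b x y : ℝ} (h : m ^ 2 * ρ ^ 2 ≤ a ^ 2 + b ^ 2)
    (hx : |x - a| ≤ m / 4 * ρ) (hy : |y - b| ≤ m / 4 * ρ) :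
    m ^ 2 / 4 * ρ ^ 2 ≤ x ^ 2 + y ^ 2 ∧ m ^ 2 / 4 * ρ ^ 2 ≤ x * a + y * b := by
  have h1 : (x - a) ^ 2 ≤ (m / 4 * ρ) ^ 2 := by
    rw [← sq_abs (x - a)]
    exact pow_le_pow_left₀ (abs_nonneg _) hx 2
  have h2 : (y - b) ^ 2 ≤ (m / 4 * ρ) ^ 2 := by
    rw [← sq_abs (y - b)]
    exact pow_le_pow_left₀ (abs_nonneg _) hy 2
  constructor
  · nlinarith [sq_nonneg (a + 2 * (x - a)), sq_nonneg (b + 2 * (y - b)), sq_nonneg (m * ρ)]
  · nlinarith [sq_nonneg (a + (x - a)), sq_nonneg (b + (y - b)), sq_nonneg (m * ρ)]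

theorem planar_lip {F₀ F₁ : E2 → ℝ} {C₀ C₁ : ℝ≥0} (h0 : LipschitzWith C₀ F₀)
    (c0 : HasCompactSupport F₀) (h1 : LipschitzWith C₁ F₁) (c1 : HasCompactSupport F₁) {z₀ : E2}
    (e0 : F₀ z₀ = 0) (e1 : F₁ z₀ = 0) (d0 : DifferentiableAt ℝ F₀ z₀)
    (d1 : DifferentiableAt ℝ F₁ z₀)
    (hJ : fderiv ℝ F₀ z₀ (bv 0) * fderiv ℝ F₁ z₀ (bv 1)
      - fderiv ℝ F₀ z₀ (bv 1) * fderiv ℝ F₁ z₀ (bv 0) ≠ 0) {U : Set E2} (hU : IsOpen U)
    (hz : z₀ ∈ U) :
    ∃ N : Set E2, IsOpen N ∧ z₀ ∈ N ∧ N ⊆ U ∧ (∀ z ∈ N, F₀ z = 0 → F₁ z = 0 → z = z₀) ∧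
      ∀ (g : E2 → ℝ) (K : ℝ≥0) (B : ℝ), LipschitzOnWith K g N → (∀ z ∈ N, |g z| ≤ B) →
        Tendsto (fun ε : ℝ => ∫ z in N, g z * (2 * ε ^ 2 / (F₀ z ^ 2 + F₁ z ^ 2 + ε ^ 2) ^ 2) *
          JL F₀ F₁ z) (𝓝[>] 0)
          (𝓝 (2 * Real.pi * ((if 0 < fderiv ℝ F₀ z₀ (bv 0) * fderiv ℝ F₁ z₀ (bv 1)
            - fderiv ℝ F₀ z₀ (bv 1) * fderiv ℝ F₁ z₀ (bv 0) then 1 else -1) * g z₀))) := by
  set D0 := fderiv ℝ F₀ z₀ with hD0
  set D1 := fderiv ℝ F₁ z₀ with hD1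
  let L : E2 →L[ℝ] E2 := (EuclideanSpace.equiv (Fin 2) ℝ).symm.toContinuousLinearMap.comp
    (ContinuousLinearMap.pi ![D0, D1])
  have hL0 : ∀ w, (L w) 0 = D0 w := fun w => rfl
  have hL1 : ∀ w, (L w) 1 = D1 w := fun w => rfl
  have hdet : L.det = D0 (bv 0) * D1 (bv 1) - D0 (bv 1) * D1 (bv 0) := by
    rw [det_E2, hL0, hL1, hL0, hL1]
  have hnorm : ∀ w, ‖L w‖ ^ 2 = D0 w ^ 2 + D1 w ^ 2 := by
    intro w
    rw [EuclideanSpace.norm_sq_eq, Fin.sum_univ_two, hL0, hL1, Real.norm_eq_abs, Real.norm_eq_abs,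
      sq_abs, sq_abs]
  have hdet0 : L.det ≠ 0 := by rw [hdet]; exact hJ
  -- lower bound
  obtain ⟨m, hm, hlow⟩ : ∃ m : ℝ, 0 < m ∧ ∀ w, m ^ 2 * ‖w‖ ^ 2 ≤ D0 w ^ 2 + D1 w ^ 2 := by
    have hu : IsUnit (L : E2 →ₗ[ℝ] E2) := by
      rw [LinearMap.isUnit_iff_isUnit_det, isUnit_iff_ne_zero]
      exact hdet0
    have hker : LinearMap.ker (L : E2 →ₗ[ℝ] E2) = ⊥ := (LinearMap.isUnit_iff_ker_eq_bot _).1 hu
    obtain ⟨K, hK, hanti⟩ := LinearMap.exists_antilipschitzWith _ hker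
    refine ⟨(K : ℝ)⁻¹, by positivity, fun w => ?_⟩
    have h1 := hanti.le_mul_dist w 0
    rw [dist_zero_right, map_zero, dist_zero_right] at h1
    have h2 : ‖w‖ ≤ K * ‖L w‖ := h1
    have hKp : (0 : ℝ) < K := by exact_mod_cast hK
    rw [← hnorm w, ← mul_pow]
    apply pow_le_pow_left₀ (by positivity)
    rw [inv_mul_le_iff₀ hKp]
    exact h2
  -- differentiability
  obtain ⟨r, hr, hrU, hd0, hd1⟩ : ∃ r : ℝ, 0 < r ∧ (∀ z, ‖z - z₀‖ ≤ 2 * r → z ∈ U) ∧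
      (∀ z, ‖z - z₀‖ ≤ 2 * r → |F₀ z - D0 (z - z₀)| ≤ m / 4 * ‖z - z₀‖) ∧
      (∀ z, ‖z - z₀‖ ≤ 2 * r → |F₁ z - D1 (z - z₀)| ≤ m / 4 * ‖z - z₀‖) := by
    have h0 := (d0.hasFDerivAt.isLittleO).def (show 0 < m / 4 by positivity)
    have h1 := (d1.hasFDerivAt.isLittleO).def (show 0 < m / 4 by positivity)
    have h2 : ∀ᶠ z in 𝓝 z₀, z ∈ U := hU.mem_nhds hz
    obtain ⟨δ, hδ, hall⟩ := Metric.eventually_nhds_iff.1 ((h0.and h1).and h2)
    refine ⟨δ / 3, by positivity, fun z hzr => ?_, fun z hzr => ?_, fun z hzr => ?_⟩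
    all_goals
      have h3 : dist z z₀ < δ := by
        rw [dist_eq_norm]
        linarith
      obtain ⟨⟨h4, h5⟩, h6⟩ := hall h3
    · exact h6
    · rw [e0, sub_zero] at h4
      exact h4
    · rw [e1, sub_zero] at h5
      exact h5
  have hq : ∀ z, ‖z - z₀‖ ≤ 2 * r → m ^ 2 / 4 * ‖z - z₀‖ ^ 2 ≤ F₀ z ^ 2 + F₁ z ^ 2 ∧
      m ^ 2 / 4 * ‖z - z₀‖ ^ 2 ≤ F₀ z * D0 (z - z₀) + F₁ z * D1 (z - z₀) :=
    fun z hzr => quad (hlow _) (hd0 z hzr) (hd1 z hzr)
  have hpos : ∀ z, 0 < ‖z - z₀‖ → 0 < m ^ 2 / 4 * ‖z - z₀‖ ^ 2 := fun z h => by positivity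
  -- cutoffs
  obtain ⟨χ, Cχ, hχ, cχ, χ0, χ1, χone, χzero, χsup⟩ := cut z₀ (show r / 2 < r by linarith)
  obtain ⟨A₀, CA0, lA0, cA0, hA0⟩ := lin_cut D0 z₀ (show 0 < 2 * r by linarith)
  obtain ⟨A₁, CA1, lA1, cA1, hA1⟩ := lin_cut D1 z₀ (show 0 < 2 * r by linarith)
  have hsup : ∀ z ∈ tsupport χ, ‖z - z₀‖ ≤ r := by
    intro z hz
    have := χsup hz
    rwa [Metric.mem_closedBall, dist_eq_norm] at this
  have hout : ∀ z, z ∉ Metric.ball z₀ (r / 2) → 0 < ‖z - z₀‖ := by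
    intro z hz
    rw [Metric.mem_ball, dist_eq_norm, not_lt] at hz
    linarith
  have hcon : ∀ z ∈ Metric.ball z₀ (r / 2), χ z = 1 := by
    intro z hz
    rw [Metric.mem_ball, dist_eq_norm] at hz
    exact χone z hz.le
  have T1 := planar_away hχ cχ h0 c0 h1 c1 Metric.isOpen_ball hcon (by
    intro z hz1 hz2
    have h3 := hsup z hz1
    exact lt_of_lt_of_le (hpos z (hout z hz2)) (hq z (by linarith)).1)
  have T2 := planar_away hχ cχ lA0 cA0 lA1 cA1 Metric.isOpen_ball hcon (by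
    intro z hz1 hz2
    have h3 := hsup z hz1
    rw [hA0 z (by linarith), hA1 z (by linarith)]
    refine lt_of_lt_of_le ?_ (hlow (z - z₀))
    have := hout z hz2
    positivity)
  have T3 := planar_compare hχ cχ h0 c0 h1 c1 lA0 cA0 lA1 cA1 Metric.isOpen_ball hcon (by
    intro z hz1 hz2
    have h3 := hsup z hz1
    rw [hA0 z (by linarith), hA1 z (by linarith)]
    exact lt_of_lt_of_le (hpos z (hout z hz2)) (hq z (by linarith)).2)
  have T4 := planar_linear hdet0 hχ.continuous cχ z₀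
  have T5 : (fun ε : ℝ => ∫ z, χ z * (2 * ε ^ 2 / (A₀ z ^ 2 + A₁ z ^ 2 + ε ^ 2) ^ 2) * JL A₀ A₁ z)
      = fun ε : ℝ => ∫ z, χ z * (2 * ε ^ 2 / (‖L (z - z₀)‖ ^ 2 + ε ^ 2) ^ 2) * L.det := by
    funext ε
    congr 1
    funext z
    by_cases hz1 : r ≤ ‖z - z₀‖
    · rw [χzero z hz1]
      simp
    · push Not at hz1
      have h3 : ‖z - z₀‖ ≤ 2 * r := by linarith
      have h4 : ‖z - z₀‖ < 2 * r := by linarith
      rw [hA0 z h3, hA1 z h3, hnorm, hdet]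
      unfold JL
      rw [line_eq hA0 h4, line_eq hA1 h4, line_eq hA0 h4, line_eq hA1 h4]
  rw [T5] at T2
  have T6 := tendsto_nhds_unique T2 T4
  rw [← T3] at T6
  rw [T6, χone z₀ (by simp; positivity), hdet] at T1
  -- the neighbourhood
  have hzN : z₀ ∈ Metric.ball z₀ r := Metric.mem_ball_self hr
  refine ⟨Metric.ball z₀ r, Metric.isOpen_ball, hzN, ?_, ?_, ?_⟩
  · intro z hz1
    rw [Metric.mem_ball, dist_eq_norm] at hz1
    exact hrU z (by linarith)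
  · intro z hz1 hz2 hz3
    rw [Metric.mem_ball, dist_eq_norm] at hz1
    by_contra hne
    have h3 : 0 < ‖z - z₀‖ := norm_pos_iff.2 (sub_ne_zero.2 hne)
    have h4 := (hq z (by linarith)).1
    rw [hz2, hz3] at h4
    have h5 := hpos z h3
    norm_num at h4
    linarith
  · intro g K B hg hB
    obtain ⟨G, hG, hGg⟩ := hg.extend_real
    have hJi : Integrable (JL F₀ F₁) := integrable_JL h0 c0 h1
    have hcont : ∀ ε : ℝ, ε ≠ 0 →
        Continuous (fun z => 2 * ε ^ 2 / (F₀ z ^ 2 + F₁ z ^ 2 + ε ^ 2) ^ 2) := by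
      intro ε hε
      refine continuous_const.div (((h0.continuous.pow 2).add (h1.continuous.pow 2)).add
        continuous_const |>.pow 2) (fun z => ?_)
      have : 0 < F₀ z ^ 2 + F₁ z ^ 2 + ε ^ 2 := by positivity
      positivity
    have hbd : ∀ ε : ℝ, ε ≠ 0 → ∀ z, |2 * ε ^ 2 / (F₀ z ^ 2 + F₁ z ^ 2 + ε ^ 2) ^ 2|
        ≤ 2 / ε ^ 2 := by
      intro ε hε z
      have h2 : 0 < ε ^ 2 := by positivity
      rw [abs_of_nonneg (by positivity), div_le_div_iff₀ (by positivity) h2]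
      have h3 : ε ^ 2 ≤ F₀ z ^ 2 + F₁ z ^ 2 + ε ^ 2 := by nlinarith [sq_nonneg (F₀ z), sq_nonneg (F₁ z)]
      nlinarith [mul_self_nonneg (F₀ z ^ 2 + F₁ z ^ 2)]
    have hint : ∀ (f : E2 → ℝ) (ε : ℝ), ε ≠ 0 → Continuous f → (∃ b, ∀ z, |f z| ≤ b) →
        Integrable (fun z => f z * (2 * ε ^ 2 / (F₀ z ^ 2 + F₁ z ^ 2 + ε ^ 2) ^ 2)
          * JL F₀ F₁ z) := by
      intro f ε hε hf ⟨b, hb⟩
      have hb0 : 0 ≤ b := (abs_nonneg _).trans (hb z₀)
      refine hJi.bdd_mul (c := b * (2 / ε ^ 2)) (hf.mul (hcont ε hε)).aestronglyMeasurable ?_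
      refine Eventually.of_forall fun z => ?_
      rw [Real.norm_eq_abs, abs_mul]
      exact mul_le_mul (hb z) (hbd ε hε z) (abs_nonneg _) hb0
    have hη2L : ∀ z, |χ z * (G z - G z₀)| ≤ K * ‖z - z₀‖ := by
      intro z
      rw [abs_mul, abs_of_nonneg (χ0 z)]
      have h2 := lip_abs hG z z₀
      rw [dist_eq_norm] at h2
      calc χ z * |G z - G z₀| ≤ 1 * (K * ‖z - z₀‖) :=
            mul_le_mul (χ1 z) h2 (abs_nonneg _) zero_le_one
        _ = K * ‖z - z₀‖ := one_mul _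
    have hη2c : Continuous (fun z => χ z * (G z - G z₀)) :=
      hχ.continuous.mul (hG.continuous.sub continuous_const)
    have hη2s : HasCompactSupport (fun z => χ z * (G z - G z₀)) := cχ.mul_right
    have hη2b : ∃ b, ∀ z, |χ z * (G z - G z₀)| ≤ b := by
      obtain ⟨b, hb⟩ := bdd_of_compact hη2c hη2s
      exact ⟨b, hb⟩
    have T7 := planar_err hη2c hη2s h0 h1 hη2L (show 0 < m ^ 2 / 4 by positivity) (by
      intro z hz1
      have h2 : ¬ r ≤ ‖z - z₀‖ := by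
        intro h3
        apply hz1
        rw [χzero z h3, zero_mul]
      push Not at h2
      exact (hq z (by linarith)).1)
    -- the remainder
    have hB0 : 0 ≤ B := (abs_nonneg _).trans (hB z₀ hzN)
    set c := m ^ 2 / 4 * (r / 2) ^ 2 with hc
    have hcpos : 0 < c := by positivity
    have hRi : ∀ ε : ℝ, ε ≠ 0 → IntegrableOn (fun z => (1 - χ z) * G z *
        (2 * ε ^ 2 / (F₀ z ^ 2 + F₁ z ^ 2 + ε ^ 2) ^ 2) * JL F₀ F₁ z) (Metric.ball z₀ r) := by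
      intro ε hε
      refine (hJi.integrableOn).bdd_mul (c := B * (2 / ε ^ 2))
        (((continuous_const.sub hχ.continuous).mul hG.continuous).mul
          (hcont ε hε)).aestronglyMeasurable ?_
      refine (ae_restrict_iff' Metric.isOpen_ball.measurableSet).2 (Eventually.of_forall fun z hz => ?_)
      rw [Real.norm_eq_abs, abs_mul, abs_mul]
      have h2 : |1 - χ z| ≤ 1 := by
        rw [abs_le]
        constructor
        · linarith [χ1 z]
        · linarith [χ0 z]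
      have h3 : |G z| ≤ B := by
        rw [← hGg hz]
        exact hB z hz
      calc |1 - χ z| * |G z| * |2 * ε ^ 2 / (F₀ z ^ 2 + F₁ z ^ 2 + ε ^ 2) ^ 2|
          ≤ 1 * B * (2 / ε ^ 2) := by
            gcongr
            exact hbd ε hε z
        _ = B * (2 / ε ^ 2) := by ring
    have T8 : Tendsto (fun ε : ℝ => ∫ z in Metric.ball z₀ r, (1 - χ z) * G z *
        (2 * ε ^ 2 / (F₀ z ^ 2 + F₁ z ^ 2 + ε ^ 2) ^ 2) * JL F₀ F₁ z) (𝓝[>] 0) (𝓝 0) := by
      have h2 : Tendsto (fun ε : ℝ => ε ^ 2 * (2 * B / c ^ 2 *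
          ∫ z in Metric.ball z₀ r, |JL F₀ F₁ z|)) (𝓝[>] 0) (𝓝 0) := by
        have h3 : Tendsto (fun ε : ℝ => ε ^ 2 * (2 * B / c ^ 2 *
            ∫ z in Metric.ball z₀ r, |JL F₀ F₁ z|)) (𝓝 0) (𝓝 (0 ^ 2 * (2 * B / c ^ 2 *
            ∫ z in Metric.ball z₀ r, |JL F₀ F₁ z|))) :=
          (((continuous_id.pow 2).mul continuous_const).tendsto 0)
        have h4 : (0 : ℝ) ^ 2 * (2 * B / c ^ 2 *
            ∫ z in Metric.ball z₀ r, |JL F₀ F₁ z|) = 0 := by ring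
        rw [h4] at h3
        exact h3.mono_left nhdsWithin_le_nhds
      refine squeeze_zero_norm' ?_ h2
      filter_upwards [self_mem_nhdsWithin] with ε hε
      have hε0 : (0 : ℝ) < ε := hε
      have h3 : Integrable (fun z => ε ^ 2 * (2 * B / c ^ 2) * |JL F₀ F₁ z|)
          (volume.restrict (Metric.ball z₀ r)) := (hJi.abs.integrableOn).const_mul _
      have h4 := norm_integral_le_of_norm_le h3 (f := fun z => (1 - χ z) * G z *
        (2 * ε ^ 2 / (F₀ z ^ 2 + F₁ z ^ 2 + ε ^ 2) ^ 2) * JL F₀ F₁ z) (by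
          refine (ae_restrict_iff' Metric.isOpen_ball.measurableSet).2
            (Eventually.of_forall fun z hz => ?_)
          rw [norm_mul, Real.norm_eq_abs, Real.norm_eq_abs]
          refine mul_le_mul_of_nonneg_right ?_ (abs_nonneg _)
          have h3 : |G z| ≤ B := by
            rw [← hGg hz]
            exact hB z hz
          by_cases hz2 : z ∈ Metric.ball z₀ (r / 2)
          · rw [hcon z hz2]
            simp
            positivity
          · rw [Metric.mem_ball, dist_eq_norm] at hz hz2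
            push Not at hz2
            have h5 := (hq z (by linarith)).1
            have h6 : c ≤ F₀ z ^ 2 + F₁ z ^ 2 + ε ^ 2 := by
              have h7 : c ≤ m ^ 2 / 4 * ‖z - z₀‖ ^ 2 := by
                rw [hc]
                gcongr
              nlinarith [sq_nonneg ε]
            have h8 : |2 * ε ^ 2 / (F₀ z ^ 2 + F₁ z ^ 2 + ε ^ 2) ^ 2| ≤ 2 * ε ^ 2 / c ^ 2 := by
              rw [abs_of_nonneg (by positivity)]
              gcongr
            have h9 : |1 - χ z| ≤ 1 := by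
              rw [abs_le]
              constructor
              · linarith [χ1 z]
              · linarith [χ0 z]
            rw [abs_mul, abs_mul]
            calc |1 - χ z| * |G z| * |2 * ε ^ 2 / (F₀ z ^ 2 + F₁ z ^ 2 + ε ^ 2) ^ 2|
                ≤ 1 * B * (2 * ε ^ 2 / c ^ 2) := by gcongr
              _ = ε ^ 2 * (2 * B / c ^ 2) := by ring)
      refine h4.trans (le_of_eq ?_)
      rw [integral_const_mul]
      ring
    have T9 := ((T1.const_mul (G z₀)).add T7).add T8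
    have e1 : g z₀ = G z₀ := hGg hzN
    have e2 : G z₀ * (2 * Real.pi * ((if 0 < D0 (bv 0) * D1 (bv 1) - D0 (bv 1) * D1 (bv 0) then 1
        else -1) * 1)) + 0 + 0 = 2 * Real.pi * ((if 0 < D0 (bv 0) * D1 (bv 1) - D0 (bv 1) * D1 (bv 0)
        then 1 else -1) * g z₀) := by
      rw [e1]
      ring
    rw [e2] at T9
    refine T9.congr' ?_
    filter_upwards [self_mem_nhdsWithin] with ε hε
    have hε0 : ε ≠ 0 := ne_of_gt hε
    have i1 := hint χ ε hε0 hχ.continuous ⟨1, fun z => by rw [abs_of_nonneg (χ0 z)]; exact χ1 z⟩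
    have i2 := hint _ ε hε0 hη2c hη2b
    have s1 : G z₀ * (∫ z, χ z * (2 * ε ^ 2 / (F₀ z ^ 2 + F₁ z ^ 2 + ε ^ 2) ^ 2) * JL F₀ F₁ z)
        + (∫ z, χ z * (G z - G z₀) * (2 * ε ^ 2 / (F₀ z ^ 2 + F₁ z ^ 2 + ε ^ 2) ^ 2) * JL F₀ F₁ z)
        = ∫ z, χ z * G z * (2 * ε ^ 2 / (F₀ z ^ 2 + F₁ z ^ 2 + ε ^ 2) ^ 2) * JL F₀ F₁ z := by
      rw [← integral_const_mul, ← integral_add (i1.const_mul _) i2]
      congr 1
      funext z
      ring
    have s2 : (∫ z, χ z * G z * (2 * ε ^ 2 / (F₀ z ^ 2 + F₁ z ^ 2 + ε ^ 2) ^ 2) * JL F₀ F₁ z)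
        = ∫ z in Metric.ball z₀ r, χ z * G z * (2 * ε ^ 2 / (F₀ z ^ 2 + F₁ z ^ 2 + ε ^ 2) ^ 2)
          * JL F₀ F₁ z := by
      symm
      apply setIntegral_eq_integral_of_forall_compl_eq_zero
      intro z hz1
      rw [Metric.mem_ball, dist_eq_norm] at hz1
      push Not at hz1
      rw [χzero z hz1]
      simp
    have i3 : Integrable (fun z => χ z * G z * (2 * ε ^ 2 / (F₀ z ^ 2 + F₁ z ^ 2 + ε ^ 2) ^ 2)
        * JL F₀ F₁ z) := by
      have h2 := (i1.const_mul (G z₀)).add i2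
      refine h2.congr (Eventually.of_forall fun z => ?_)
      simp only [Pi.add_apply]
      ring
    rw [s1, s2, ← integral_add i3.integrableOn (hRi ε hε0)]
    refine setIntegral_congr_fun Metric.isOpen_ball.measurableSet fun z hz1 => ?_
    have e3 : g z = G z := hGg hz1
    rw [e3]
    ring

end Pool.Agent.EWD
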