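import Mathlib
import Pool.Agent.EWD.GDF
import Pool.Agent.EWD.LPA
import Pool.Agent.EWD.PVF

/-
LZL: a neighbourhood of a nondegenerate zero, Lipschitz version of LOC.  [about 130 lines]

`P` a patch (H74/FAC/Patch), `x₀ ∈ P.V`, `z₀ = P.e x₀`, `0 < z₀ 0`, so `z₀ ∈ P.O` (open half ball). Let `F₀ = (P.cut hX).F`,
`F₁ = (P.cut hY).F` (H74/FAC/Patch2): globally Lipschitz with compact support, equal to `X ∘ e.symm`,
`Y ∘ e.symm` on `P.O` (`Cut.eqO`), same derivatives (`Cut.ev`). Apply `planar_lip` with the open set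
`U' = {z ∈ P.O | e.symm z ∈ U}` and put `T = e.symm '' N` (open, `e '' T = N`, as in the proof of `local_zero` in LOC).
`g z = ψ (e.symm z)` is Lipschitz on `N ⊆ P.D` (`P.lip` and `ψ` Lipschitz), bounded by `B`. Almost everywhere on
`N` `Jc P.e X Y = JL F₀ F₁` (`Cut.Jc_eq`).
-/

open MeasureTheory Set Filter Measure Manifold Bundle
open scoped ContDiff Topology ENNReal NNReal

set_option linter.unusedSectionVars false

namespace Pool.Agent.EWD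

open Pool.Agent.H74.FAC

variable {M : Type} [MetricSpace M] [ChartedSpace HP M] [IsManifold (𝓡∂ 2) ∞ M] [CompactSpace M]

theorem local_zero_lip (P : Patch M) {X Y : M → ℝ} (hX : Lip X) (hY : Lip Y) {x₀ : M}
    (hx : x₀ ∈ P.V) (h0 : 0 < (P.e.extend (𝓡∂ 2) x₀) 0) (hX0 : X x₀ = 0) (hY0 : Y x₀ = 0)
    (dX : DifferentiableAt ℝ (fun y => X ((P.e.extend (𝓡∂ 2)).symm y)) (P.e.extend (𝓡∂ 2) x₀))
    (dY : DifferentiableAt ℝ (fun y => Y ((P.e.extend (𝓡∂ 2)).symm y)) (P.e.extend (𝓡∂ 2) x₀))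
    (hJ : Jc P.e X Y (P.e.extend (𝓡∂ 2) x₀) ≠ 0) {U : Set M} (hU : IsOpen U) (hxU : x₀ ∈ U) :
    ∃ T : Set M, IsOpen T ∧ x₀ ∈ T ∧ T ⊆ U ∧ T ⊆ P.V ∧
      (∀ x ∈ T, X x = 0 → Y x = 0 → x = x₀) ∧
      ∀ (ψ : M → ℝ) (B : ℝ), Lip ψ → (∀ x, |ψ x| ≤ B) →
        Tendsto (fun ε : ℝ => ∫ z in P.e.extend (𝓡∂ 2) '' T,
          ψ ((P.e.extend (𝓡∂ 2)).symm z) * (2 * ε ^ 2 / (X ((P.e.extend (𝓡∂ 2)).symm z) ^ 2 +
            Y ((P.e.extend (𝓡∂ 2)).symm z) ^ 2 + ε ^ 2) ^ 2) * Jc P.e X Y z) (𝓝[>] 0)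
          (𝓝 (2 * Real.pi * ((if 0 < Jc P.e X Y (P.e.extend (𝓡∂ 2) x₀) then 1 else -1) *
            ψ x₀))) := by
  obtain ⟨LX, hLX⟩ := hX
  obtain ⟨LY, hLY⟩ := hY
  have F := P.cut hLX
  have G := P.cut hLY
  have hxs : x₀ ∈ P.e.source := P.V_sub hx
  have hz₀ : P.e.extend (𝓡∂ 2) x₀ ∈ (P.e.extend (𝓡∂ 2)).target := ext_mem_target hxs
  have hzO : P.e.extend (𝓡∂ 2) x₀ ∈ P.O := ⟨hx.2, h0⟩
  have hcs : ContinuousOn (P.e.extend (𝓡∂ 2)).symm (P.e.extend (𝓡∂ 2)).target :=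
    P.e.continuousOn_extend_symm
  have hOt : P.O ⊆ (P.e.extend (𝓡∂ 2)).target := P.O_sub_D.trans P.sub
  have hU' : IsOpen (P.O ∩ (P.e.extend (𝓡∂ 2)).symm ⁻¹' U) :=
    (hcs.mono hOt).isOpen_inter_preimage P.O_open hU
  have hzU' : P.e.extend (𝓡∂ 2) x₀ ∈ P.O ∩ (P.e.extend (𝓡∂ 2)).symm ⁻¹' U := by
    refine ⟨hzO, ?_⟩
    rw [mem_preimage, ext_left_inv hxs]
    exact hxU
  have e0 : F.F (P.e.extend (𝓡∂ 2) x₀) = 0 := by rw [F.eqO hzO, ext_left_inv hxs, hX0]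
  have e1 : G.F (P.e.extend (𝓡∂ 2) x₀) = 0 := by rw [G.eqO hzO, ext_left_inv hxs, hY0]
  have d0 : DifferentiableAt ℝ F.F (P.e.extend (𝓡∂ 2) x₀) :=
    (F.ev hzO).differentiableAt_iff.1 dX
  have d1 : DifferentiableAt ℝ G.F (P.e.extend (𝓡∂ 2) x₀) :=
    (G.ev hzO).differentiableAt_iff.1 dY
  have hJJ : fderiv ℝ F.F (P.e.extend (𝓡∂ 2) x₀) (bv 0) * fderiv ℝ G.F (P.e.extend (𝓡∂ 2) x₀) (bv 1)
      - fderiv ℝ F.F (P.e.extend (𝓡∂ 2) x₀) (bv 1) * fderiv ℝ G.F (P.e.extend (𝓡∂ 2) x₀) (bv 0)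
      = Jc P.e X Y (P.e.extend (𝓡∂ 2) x₀) := by
    unfold Jc
    rw [(F.ev hzO).fderiv_eq, (G.ev hzO).fderiv_eq]
  obtain ⟨N, hNo, hzN, hNU, hzero, hlim⟩ := planar_lip F.lip F.cs G.lip G.cs e0 e1 d0 d1
    (by rw [hJJ]; exact hJ) hU' hzU'
  rw [hJJ] at hlim
  have hNO : N ⊆ P.O := fun z hz => (hNU hz).1
  have hNt : N ⊆ (P.e.extend (𝓡∂ 2)).target := hNO.trans hOt
  have him : P.e.extend (𝓡∂ 2) '' (P.e.source ∩ P.e.extend (𝓡∂ 2) ⁻¹' N) = N := by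
    ext z
    constructor
    · rintro ⟨x, ⟨_, hxN⟩, rfl⟩
      exact hxN
    · intro hz
      refine ⟨(P.e.extend (𝓡∂ 2)).symm z, ⟨symm_mem_source (hNt hz), ?_⟩,
        (P.e.extend (𝓡∂ 2)).right_inv (hNt hz)⟩
      rw [mem_preimage, (P.e.extend (𝓡∂ 2)).right_inv (hNt hz)]
      exact hz
  refine ⟨P.e.source ∩ P.e.extend (𝓡∂ 2) ⁻¹' N, P.e.isOpen_extend_preimage hNo, ⟨hxs, hzN⟩, ?_,
    ?_, ?_, ?_⟩
  · rintro x ⟨hxs', hxN⟩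
    have := (hNU hxN).2
    rwa [mem_preimage, ext_left_inv hxs'] at this
  · rintro x ⟨hxs', hxN⟩
    exact ⟨hxs', (hNO hxN).1⟩
  · rintro x ⟨hxs', hxN⟩ hx0 hy0
    have h := hzero _ hxN (by rw [F.eqO (hNO hxN), ext_left_inv hxs', hx0])
      (by rw [G.eqO (hNO hxN), ext_left_inv hxs', hy0])
    rw [← ext_left_inv hxs', h, ext_left_inv hxs]
  · intro ψ B hψ hB
    obtain ⟨Lψ, hLψ⟩ := hψ
    rw [him]
    have h := hlim (fun z => ψ ((P.e.extend (𝓡∂ 2)).symm z)) (Lψ * P.K) B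
      (hLψ.comp_lipschitzOnWith (P.lip.mono (hNO.trans P.O_sub_D))) (fun z _ => hB _)
    simp only [ext_left_inv hxs] at h
    refine h.congr (fun ε => ?_)
    refine setIntegral_congr_ae hNo.measurableSet ?_
    filter_upwards [F.Jc_eq G] with z hz hzN'
    rw [hz (hNO hzN'), F.eqO (hNO hzN'), G.eqO (hNO hzN')]

end Pool.Agent.EWD
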