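import Mathlib
import Pool.Agent.EWD.GDF
import Pool.Agent.EWD.LPA

/-
WTR: the weighted integrals `BT`.  [about 150 lines]

`BT A f T u w = ∑ₖ ∫_{eₖ(Sₖ ∩ T)} f ∘ eₖ⁻¹ Jc eₖ u w`, `f` bounded and Borel measurable, `u, w` Lipschitz, `T` Borel.
(1) Integrability on each piece: `Patch.integrableOn_Jc` and `Integrable.bdd_mul`; `f ∘ e.symm` is measurable on
 the measurable set `e(S)`.
(2) `BT_union`: additivity for disjoint Borel sets `T, T'` (the images are disjoint by injectivity of the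
 chart; `setIntegral_union`).
(3) `BT_loc`: for `T ⊆ (A.P l).V`: each term is transferred to the chart `l` with the weighted version of
 `int_transfer` (copy the proof in H74/FAC/Chg2: the weight is `f ∘ e'.symm` on one side and `f ∘ e.symm` on the
 other, they agree at corresponding points), then the union over `k` is `T` (copy the second half of
 the proof of `Cov.B_loc`, H74/FAC/Global1).
(4) `BT_le`: if `|f| ≤ c` on `T` then `|BT A f T u w| ≤ c K` where `K = ∑ₖ ∫_{im A k} |Jc eₖ u w|`.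
-/

open MeasureTheory Set Filter Measure Manifold Bundle
open scoped ContDiff Topology ENNReal NNReal

set_option linter.unusedSectionVars false

namespace Pool.Agent.EWD

open Pool.Agent.H74.FAC

variable {M : Type} [MetricSpace M] [ChartedSpace HP M] [IsManifold (𝓡∂ 2) ∞ M] [CompactSpace M]

private theorem wtr_meas {e : OpenPartialHomeomorph M HP} {f : M → ℝ} (hf : Measurable[borel M] f)
    {S : Set M} (hS : MeasurableSet[borel M] S) (hsub : S ⊆ e.source) :
    AEStronglyMeasurable (fun z => f ((e.extend (𝓡∂ 2)).symm z))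
      (volume.restrict (e.extend (𝓡∂ 2) '' S)) := by
  letI : MeasurableSpace M := borel M
  haveI : BorelSpace M := ⟨rfl⟩
  have hc : ContinuousOn (e.extend (𝓡∂ 2)).symm (e.extend (𝓡∂ 2) '' S) := by
    intro z hz
    obtain ⟨x, hx, rfl⟩ := hz
    exact (e.continuousAt_extend_symm (hsub hx)).continuousWithinAt
  have h1 : AEMeasurable (e.extend (𝓡∂ 2)).symm (volume.restrict (e.extend (𝓡∂ 2) '' S)) :=
    hc.aemeasurable (meas_image hS hsub)
  exact (hf.comp_aemeasurable h1).aestronglyMeasurable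

private theorem wtr_int {P : Patch M} {f : M → ℝ} (hf : Measurable[borel M] f) {B : ℝ}
    (hB : ∀ x, |f x| ≤ B) {S : Set M} (hS : MeasurableSet[borel M] S) (hsub : S ⊆ P.V) {u w : M → ℝ}
    (hu : Lip u) (hw : Lip w) :
    IntegrableOn (fun z => f ((P.e.extend (𝓡∂ 2)).symm z) * Jc P.e u w z)
      (P.e.extend (𝓡∂ 2) '' S) := by
  obtain ⟨L, hL⟩ := hu
  obtain ⟨L', hL'⟩ := hw
  refine Integrable.bdd_mul (c := B) (Patch.integrableOn_Jc hL hL' hS hsub)
    (wtr_meas hf hS (hsub.trans P.V_sub)) (ae_of_all _ fun z => ?_)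
  rw [Real.norm_eq_abs]
  exact hB _

private theorem wtr_inner {e e' : OpenPartialHomeomorph M HP}
    (he : e ∈ IsManifold.maximalAtlas (𝓡∂ 2) ∞ M)
    (he' : e' ∈ IsManifold.maximalAtlas (𝓡∂ 2) ∞ M) (hp : PosCC e e') {S : Set M}
    (hS : MeasurableSet[borel M] S) (h1 : S ⊆ e.source) (h2 : S ⊆ e'.source) (f u w : M → ℝ) :
    ∫ z in e'.extend (𝓡∂ 2) '' (innerPart e S), f ((e'.extend (𝓡∂ 2)).symm z) * Jc e' u w z
      = ∫ z in e.extend (𝓡∂ 2) '' (innerPart e S), f ((e.extend (𝓡∂ 2)).symm z) * Jc e u w z := by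
  have hm : MeasurableSet (e.extend (𝓡∂ 2) '' (innerPart e S)) :=
    meas_image (meas_innerPart hS h1) ((innerPart_sub S).trans h1)
  have him : e'.extend (𝓡∂ 2) '' (innerPart e S)
      = cc e e' '' (e.extend (𝓡∂ 2) '' (innerPart e S)) := by
    rw [image_image]
    apply image_congr
    intro x hx
    rw [cc_apply (h1 hx.1)]
  rw [him]
  rw [integral_image_eq_integral_abs_det_fderiv_smul volume hm
    (f' := fun z => fderiv ℝ (cc e e') z)]
  · apply setIntegral_congr_fun hm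
    rintro z ⟨x, hx, rfl⟩
    simp only [smul_eq_mul]
    rw [abs_of_pos (cc_det_pos hp (h1 hx.1) (h2 hx.1) hx.2), cc_apply (h1 hx.1),
      Jc_transfer he he' u w (h1 hx.1) (h2 hx.1) hx.2, ext_left_inv (h1 hx.1), ext_left_inv (h2 hx.1)]
    ring
  · rintro z ⟨x, hx, rfl⟩
    exact (cc_hasFDerivAt he he' (h1 hx.1) (h2 hx.1) hx.2).hasFDerivAt.hasFDerivWithinAt
  · rintro z ⟨x, hx, rfl⟩ z' ⟨x', hx', rfl⟩ h
    rw [cc_apply (h1 hx.1), cc_apply (h1 hx'.1)] at h
    have hinj := (e'.extend (𝓡∂ 2)).injOn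
    rw [OpenPartialHomeomorph.extend_source] at hinj
    rw [hinj (h2 hx.1) (h2 hx'.1) h]

private theorem wtr_transfer {e e' : OpenPartialHomeomorph M HP}
    (he : e ∈ IsManifold.maximalAtlas (𝓡∂ 2) ∞ M)
    (he' : e' ∈ IsManifold.maximalAtlas (𝓡∂ 2) ∞ M) (hp : PosCC e e') {S : Set M}
    (hS : MeasurableSet[borel M] S) (h1 : S ⊆ e.source) (h2 : S ⊆ e'.source) (f u w : M → ℝ) :
    ∫ z in e'.extend (𝓡∂ 2) '' S, f ((e'.extend (𝓡∂ 2)).symm z) * Jc e' u w z
      = ∫ z in e.extend (𝓡∂ 2) '' S, f ((e.extend (𝓡∂ 2)).symm z) * Jc e u w z := by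
  rw [setIntegral_congr_set (innerPart_ae (e := e') S), setIntegral_congr_set (innerPart_ae (e := e) S),
    ← innerPart_eq he he' h1 h2]
  exact wtr_inner he he' hp hS h1 h2 f u w

private theorem wtr_disj {e : OpenPartialHomeomorph M HP} {S S' : Set M} (h : S ⊆ e.source)
    (h' : S' ⊆ e.source) (hd : Disjoint S S') :
    Disjoint (e.extend (𝓡∂ 2) '' S) (e.extend (𝓡∂ 2) '' S') := by
  rw [Set.disjoint_left]
  rintro z ⟨x, hx, rfl⟩ ⟨y, hy, hxy⟩
  have hinj := (e.extend (𝓡∂ 2)).injOn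
  rw [OpenPartialHomeomorph.extend_source] at hinj
  have := hinj (h' hy) (h hx) hxy
  rw [this] at hy
  exact Set.disjoint_left.1 hd hx hy

theorem BT_union (A : Cov M) {f : M → ℝ} (hf : Measurable[borel M] f) {B : ℝ}
    (hB : ∀ x, |f x| ≤ B) {T T' : Set M} (hT : MeasurableSet[borel M] T)
    (hT' : MeasurableSet[borel M] T') (hd : Disjoint T T') {u w : M → ℝ} (hu : Lip u) (hw : Lip w) :
    BT A f (T ∪ T') u w = BT A f T u w + BT A f T' u w := by
  letI : MeasurableSpace M := borel M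
  haveI : BorelSpace M := ⟨rfl⟩
  unfold BT
  rw [← Finset.sum_add_distrib]
  refine Finset.sum_congr rfl fun k _ => ?_
  have s1 : A.S k ∩ T ⊆ (A.P k).V := inter_subset_left.trans (A.S_sub k)
  have s2 : A.S k ∩ T' ⊆ (A.P k).V := inter_subset_left.trans (A.S_sub k)
  have m1 : MeasurableSet[borel M] (A.S k ∩ T) := (A.S_meas k).inter hT
  have m2 : MeasurableSet[borel M] (A.S k ∩ T') := (A.S_meas k).inter hT'
  rw [inter_union_distrib_left, image_union]
  exact setIntegral_union (wtr_disj (s1.trans (A.P k).V_sub) (s2.trans (A.P k).V_sub)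
    (hd.mono inter_subset_right inter_subset_right)) (meas_image m2 (s2.trans (A.P k).V_sub))
    (wtr_int hf hB m1 s1 hu hw) (wtr_int hf hB m2 s2 hu hw)

theorem BT_loc (A : Cov M) {f : M → ℝ} (hf : Measurable[borel M] f) {B : ℝ}
    (hB : ∀ x, |f x| ≤ B) {T : Set M} (hT : MeasurableSet[borel M] T) (l : Fin A.n)
    (hl : T ⊆ (A.P l).V) {u w : M → ℝ} (hu : Lip u) (hw : Lip w) :
    BT A f T u w = ∫ z in (A.P l).e.extend (𝓡∂ 2) '' T,
      f (((A.P l).e.extend (𝓡∂ 2)).symm z) * Jc (A.P l).e u w z := by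
  letI : MeasurableSpace M := borel M
  haveI : BorelSpace M := ⟨rfl⟩
  have h1 : ∀ k, ∫ z in (A.P k).e.extend (𝓡∂ 2) '' (A.S k ∩ T),
        f (((A.P k).e.extend (𝓡∂ 2)).symm z) * Jc (A.P k).e u w z
      = ∫ z in (A.P l).e.extend (𝓡∂ 2) '' (A.S k ∩ T),
        f (((A.P l).e.extend (𝓡∂ 2)).symm z) * Jc (A.P l).e u w z := by
    intro k
    exact wtr_transfer (A.P l).he (A.P k).he (A.pos l k) ((A.S_meas k).inter hT)
      ((inter_subset_right.trans hl).trans (A.P l).V_sub)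
      ((inter_subset_left.trans (A.S_sub k)).trans (A.P k).V_sub) f u w
  unfold BT
  simp_rw [h1]
  rw [← integral_iUnion_fintype]
  · congr 2
    rw [← image_iUnion, ← iUnion_inter]
    have : ⋃ k, A.S k = univ := by
      ext x
      simpa using A.S_cover x
    rw [this, univ_inter]
  · intro k
    exact meas_image ((A.S_meas k).inter hT) ((inter_subset_right.trans hl).trans (A.P l).V_sub)
  · intro i j hij
    exact wtr_disj ((inter_subset_right.trans hl).trans (A.P l).V_sub)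
      ((inter_subset_right.trans hl).trans (A.P l).V_sub)
      ((A.S_disj hij).mono inter_subset_left inter_subset_left)
  · intro k
    exact wtr_int hf hB ((A.S_meas k).inter hT) (inter_subset_right.trans hl) hu hw

theorem BT_le (A : Cov M) {u w : M → ℝ} (hu : Lip u) (hw : Lip w) :
    ∃ K : ℝ, 0 ≤ K ∧ ∀ (f : M → ℝ) (c B : ℝ) (T : Set M), Measurable[borel M] f → (∀ x, |f x| ≤ B) →
      MeasurableSet[borel M] T → 0 ≤ c → (∀ x ∈ T, |f x| ≤ c) → |BT A f T u w| ≤ c * K := by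
  letI : MeasurableSpace M := borel M
  haveI : BorelSpace M := ⟨rfl⟩
  have hJ : ∀ k, IntegrableOn (Jc (A.P k).e u w) ((A.P k).e.extend (𝓡∂ 2) '' (A.S k)) := by
    intro k
    obtain ⟨L, hL⟩ := hu
    obtain ⟨L', hL'⟩ := hw
    exact Patch.integrableOn_Jc hL hL' (A.S_meas k) (A.S_sub k)
  refine ⟨∑ k, ∫ z in (A.P k).e.extend (𝓡∂ 2) '' (A.S k), |Jc (A.P k).e u w z|,
    Finset.sum_nonneg fun k _ => integral_nonneg fun z => abs_nonneg _, ?_⟩
  intro f c B T hf hB hT hc hfc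
  unfold BT
  refine (Finset.abs_sum_le_sum_abs _ _).trans ?_
  rw [Finset.mul_sum]
  refine Finset.sum_le_sum fun k _ => ?_
  have s1 : A.S k ∩ T ⊆ (A.P k).V := inter_subset_left.trans (A.S_sub k)
  have m1 : MeasurableSet[borel M] (A.S k ∩ T) := (A.S_meas k).inter hT
  have hms := meas_image m1 (s1.trans (A.P k).V_sub)
  have hsub : (A.P k).e.extend (𝓡∂ 2) '' (A.S k ∩ T) ⊆ (A.P k).e.extend (𝓡∂ 2) '' (A.S k) :=
    image_mono inter_subset_left
  have i1 : IntegrableOn (fun z => |Jc (A.P k).e u w z|) ((A.P k).e.extend (𝓡∂ 2) '' (A.S k)) :=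
    (hJ k).norm
  calc |∫ z in (A.P k).e.extend (𝓡∂ 2) '' (A.S k ∩ T),
        f (((A.P k).e.extend (𝓡∂ 2)).symm z) * Jc (A.P k).e u w z|
      ≤ ∫ z in (A.P k).e.extend (𝓡∂ 2) '' (A.S k ∩ T),
        |f (((A.P k).e.extend (𝓡∂ 2)).symm z) * Jc (A.P k).e u w z| := abs_integral_le_integral_abs
    _ ≤ ∫ z in (A.P k).e.extend (𝓡∂ 2) '' (A.S k ∩ T), c * |Jc (A.P k).e u w z| := by
        refine setIntegral_mono_on (wtr_int hf hB m1 s1 hu hw).norm
          ((i1.mono_set hsub).const_mul c) hms ?_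
        rintro z ⟨x, hx, rfl⟩
        rw [abs_mul, ext_left_inv ((s1.trans (A.P k).V_sub) hx)]
        exact mul_le_mul_of_nonneg_right (hfc x hx.2) (abs_nonneg _)
    _ = c * ∫ z in (A.P k).e.extend (𝓡∂ 2) '' (A.S k ∩ T), |Jc (A.P k).e u w z| :=
        integral_const_mul _ _
    _ ≤ c * ∫ z in (A.P k).e.extend (𝓡∂ 2) '' (A.S k), |Jc (A.P k).e u w z| := by
        refine mul_le_mul_of_nonneg_left (setIntegral_mono_set i1 (ae_of_all _ fun z => abs_nonneg _)
          (LE.le.eventuallyLE hsub)) hc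

end Pool.Agent.EWD
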