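import Mathlib
import Pool.Agent.EWD.GDF
import Pool.Agent.EWD.LPA
import Pool.Agent.EWD.CAL
import Pool.Agent.EWD.ENE
import Pool.Agent.EWD.ONB
import Pool.Agent.EWD.SRM
import Pool.Agent.EWD.VTL
import Pool.Agent.EWD.FLC

/-
MFL (helper81): the theorem on the manifold, for Lipschitz maps that are local near minimisers.
-/

open MeasureTheory Set Filter Measure Manifold Bundle
open scoped ContDiff Topology ENNReal NNReal

set_option linter.unusedSectionVars false

namespace Pool.Agent.EWD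

open Pool.Agent.H74.FAC

section

variable {M : Type} [MetricSpace M]

theorem mfl_lip_cm {N : ℕ} {u : M → EuclideanSpace ℝ (Fin N)} (hu : ∃ L : ℝ≥0, LipschitzWith L u)
    (i : Fin N) : Lip (cm u i) := by
  obtain ⟨L, hL⟩ := hu
  refine ⟨L, LipschitzWith.of_dist_le_mul fun x y => ?_⟩
  refine le_trans ?_ (hL.dist_le_mul x y)
  unfold cm
  rw [Real.dist_eq, dist_eq_norm]
  have h := PiLp.norm_apply_le (u x - u y) i
  simpa using h

theorem mfl_lip_of {N : ℕ} {w : M → EuclideanSpace ℝ (Fin N)} (hw : ∀ i, Lip (cm w i)) :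
    ∃ L : ℝ≥0, LipschitzWith L w := by
  choose L hL using hw
  refine ⟨∑ i, L i, LipschitzWith.of_dist_le_mul fun x y => ?_⟩
  rw [dist_eq_norm]
  have h1 : ‖w x - w y‖ ≤ ∑ i, ‖(w x - w y) i‖ := by
    rw [EuclideanSpace.norm_eq]
    apply Real.sqrt_le_iff.2
    refine ⟨Finset.sum_nonneg fun i _ => norm_nonneg _, ?_⟩
    exact Finset.sum_sq_le_sq_sum_of_nonneg fun i _ => norm_nonneg _
  refine h1.trans ?_
  rw [NNReal.coe_sum, Finset.sum_mul]
  apply Finset.sum_le_sum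
  intro i _
  have := (hL i).dist_le_mul x y
  unfold cm at this
  rw [Real.dist_eq] at this
  simpa using this

theorem mfl_vv {n : ℕ} (u : M → EuclideanSpace ℝ (Fin (n + 3))) (x : M) :
    ‖vv (cm u) x‖ = √(u x 0 ^ 2 + u x 1 ^ 2 + u x 2 ^ 2) := by
  rw [EuclideanSpace.norm_eq]
  congr 1
  simp [vv, cm, Fin.sum_univ_three]

end

variable {M : Type} [MetricSpace M] [ChartedSpace HP M] [IsManifold (𝓡∂ 2) ∞ M] [CompactSpace M]
  [RiemannianBundle (fun x : M => TangentSpace (𝓡∂ 2) x)]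
  [IsContMDiffRiemannianBundle (𝓡∂ 2) ∞ E2 (fun x : M => TangentSpace (𝓡∂ 2) x)]
  [IsRiemannianManifold (𝓡∂ 2) M]

/-- for almost every direction `y` the zeros of the two functions orthogonal to `y` are
nondegenerate -/
theorem vort_ae [Nonempty M] (A : Cov M) {φ : S1 → M} (hφ : IsometricFilling φ) {n : ℕ} {m : ℝ}
    (hm : 0 < m) {u : Fin (n + 3) → M → ℝ} (hu : Sph (gam φ) u) (hmu : ∀ x, m ≤ ‖vv u x‖) :
    ∀ᵐ y : E3, ∃ (a b : Fin (n + 3) → ℝ) (Z : Finset M) (s : M → ℝ), Ortho a b ∧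
        (∀ x, qf (lin a u) (lin b u) x = qq (vv u x) y) ∧
        (cal A hφ).Vort (lin a u) (lin b u) Z s := by
  have hv : ∃ L : ℝ≥0, LipschitzWith L (vv u) := by
    refine mfl_lip_of fun i => ?_
    fin_cases i
    · exact hu.lip 0
    · exact hu.lip 1
    · exact hu.lip 2
  have hv0 : ∀ x, vv u x ≠ 0 := by
    intro x h
    have := hmu x
    rw [h, norm_zero] at this
    linarith
  filter_upwards [sard_zeros_lip A hv hv0] with y hy
  obtain ⟨hy0, hy1⟩ := hy
  obtain ⟨a, b, ha, hb, hab, hq, hr⟩ := exists_ab hy0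
  have eX : lin (emb a) u = fun x => inner ℝ a (vv u x) := funext fun x => lin_emb a u x
  have eY : lin (emb b) u = fun x => inner ℝ b (vv u x) := funext fun x => lin_emb b u x
  have oX : ∀ c : Fin (n + 3) → ℝ, OddB (gam φ) (lin c u) := by
    intro c t
    unfold lin
    rw [← Finset.sum_neg_distrib]
    apply Finset.sum_congr rfl
    intro i _
    rw [hu.odd i t]
    ring
  obtain ⟨Z, s, hV⟩ := vort_of_nondeg_lip A hφ (X := lin (emb a) u) (Y := lin (emb b) u)
    (lip_lin _ hu.lip) (lip_lin _ hu.lip) (oX _) (oX _) (by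
      intro x h1 h2 k hk
      rw [eX] at h1 ⊢
      rw [eY] at h2 ⊢
      exact hy1 a b hr x h1 h2 k hk)
  refine ⟨emb a, emb b, Z, s, ortho_emb ha hb hab, ?_, hV⟩
  intro x
  unfold qf
  rw [lin_emb, lin_emb]
  exact hq _

theorem main_lip (ho : Orientable M) {φ : S1 → M} (hφ : IsometricFilling φ) {n : ℕ} {m ρ B : ℝ}
    (hm : 0 < m) (hρ : 0 < ρ)
    (H : ∀ δ : ℝ, 0 < δ → ∃ u : M → EuclideanSpace ℝ (Fin (n + 3)),
      (∃ L : ℝ≥0, LipschitzWith L u) ∧
      (∀ x, ‖u x‖ = 1) ∧ (∀ t : ℝ, u (φ ((t + Real.pi : ℝ) : S1)) = -u (φ (t : S1))) ∧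
      (∀ x, m ≤ √(u x 0 ^ 2 + u x 1 ^ 2 + u x 2 ^ 2)) ∧ energy u ≤ ENNReal.ofReal B ∧
      ∀ w : M → EuclideanSpace ℝ (Fin (n + 4)), (∃ L : ℝ≥0, LipschitzWith L w) →
        (∀ x, ‖w x‖ = 1) → (∀ t : ℝ, w (φ ((t + Real.pi : ℝ) : S1)) = -w (φ (t : S1))) →
        (∀ x (i : Fin (n + 3)), |w x i.castSucc - u x i| ≤ ρ) →
        energy u ≤ energy w + ENNReal.ofReal δ) :
    ENNReal.ofReal (2 * Real.pi * m) ≤ area M := by
  obtain ⟨A⟩ := exists_cov ho
  haveI : Nonempty M := ⟨φ 0⟩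
  refine le_trans (ENNReal.ofReal_le_ofReal ?_) (cal_vol_le A hφ)
  refine final_loc (cal A hφ) (bd_gam hφ) (n := n) hm hρ (B := |B|) ?_
  intro δ hδ
  obtain ⟨u, hL, hu1, hodd, hmu, hB, hmin⟩ := H δ hδ
  have hlip : ∀ i, Lip (cm u i) := mfl_lip_cm hL
  have hoddi : ∀ i, OddB (gam φ) (cm u i) := by
    intro i t
    unfold cm gam
    rw [hodd t]
    simp
  have hSph : Sph (gam φ) (cm u) := by
    refine ⟨hlip, fun x => ?_, hoddi⟩
    have h := hu1 x
    rw [EuclideanSpace.norm_eq, Real.sqrt_eq_one] at h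
    simpa [cm] using h
  have hvv : ∀ x, m ≤ ‖vv (cm u) x‖ := fun x => by rw [mfl_vv]; exact hmu x
  refine ⟨cm u, hSph, ?_, hvv, ?_, vort_ae A hφ hm hSph hvv⟩
  · rw [energy_eq A hφ hlip] at hB
    exact (ENNReal.ofReal_le_ofReal_iff (abs_nonneg B)).1
      (hB.trans (ENNReal.ofReal_le_ofReal (le_abs_self B)))
  · intro w' hw' hclose
    have h1 := hmin (fun x => WithLp.toLp 2 (fun i => w' i x)) (mfl_lip_of hw'.lip)
      (by
        intro x
        have hs : ‖(WithLp.toLp 2 (fun i => w' i x) : EuclideanSpace ℝ (Fin (n + 4)))‖ ^ 2 = 1 := by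
          rw [EuclideanSpace.norm_sq_eq, ← hw'.unit x]
          refine Finset.sum_congr rfl fun i _ => ?_
          rw [Real.norm_eq_abs, sq_abs]
        have h0 := norm_nonneg (WithLp.toLp 2 (fun i => w' i x) : EuclideanSpace ℝ (Fin (n + 4)))
        nlinarith [hs])
      (by
        intro t
        ext i
        exact hw'.odd i t)
      (fun x i => hclose x i)
    rw [energy_eq A hφ hlip, energy_eq A hφ
      (w := fun x => WithLp.toLp 2 (fun i => w' i x)) hw'.lip] at h1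
    have h2 : cm (fun x => (WithLp.toLp 2 (fun i => w' i x) : EuclideanSpace ℝ (Fin (n + 4))))
      = w' := rfl
    rw [h2, ← ENNReal.ofReal_add ((cal A hφ).E_nonneg w') hδ.le] at h1
    exact (ENNReal.ofReal_le_ofReal_iff (add_nonneg ((cal A hφ).E_nonneg w') hδ.le)).1 h1

end Pool.Agent.EWD
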