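import Mathlib
import Pool.Agent.EWD.GDF

/-
CFA: transport of charts by a diffeomorphism.  [about 90 lines]

`σ : M → M` smooth with `σ (σ x) = x`. `tch h e = h.toOpenPartialHomeomorph.trans e`, where `h : M ≃ₜ M` is the
homeomorphism with `h x = σ x`. It is the chart `x ↦ e (σ x)` with source `σ⁻¹(e.source)`, and
`(tch h e).symm = σ ∘ e.symm`.
`tch_mem`: it belongs to the maximal atlas: `mem_maximalAtlas_iff`, for every chart `e'` of the atlas
`(tch h e).symm ≫ e'` and `e'.symm ≫ tch h e` are in `contDiffGroupoid ∞ (𝓡∂ 2)`: unfold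
(`contDiffGroupoid`, `contDiffPregroupoid`, `mem_groupoid_of_pregroupoid`); the coordinate expressions
`I ∘ e' ∘ σ ∘ e.symm ∘ I.symm` are `ContDiffOn` because `σ`, `e'` and `e.symm` are `ContMDiffOn`
(`contMDiffOn_extend`, `contMDiffOn_extend_symm`, `contMDiffOn_iff_contDiffOn`). Mathlib might have a
criterion: a chart with `ContMDiffOn` forward and backward maps is in the maximal atlas.
-/

open MeasureTheory Set Filter Measure Manifold Bundle
open scoped ContDiff Topology ENNReal NNReal

set_option linter.unusedSectionVars false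

namespace Pool.Agent.EWD

open Pool.Agent.H74.FAC

variable {M : Type} [MetricSpace M] [ChartedSpace HP M] [IsManifold (𝓡∂ 2) ∞ M] [CompactSpace M]

/-- the homeomorphism defined by a continuous involution -/
def invH {M : Type} [TopologicalSpace M] {σ : M → M} (hc : Continuous σ) (hi : ∀ x, σ (σ x) = x) :
    M ≃ₜ M where
  toFun := σ
  invFun := σ
  left_inv := hi
  right_inv := hi
  continuous_toFun := hc
  continuous_invFun := hc

/-- the transported chart -/
noncomputable def tch {M : Type} [TopologicalSpace M] [ChartedSpace HP M] {σ : M → M} (hc : Continuous σ)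
    (hi : ∀ x, σ (σ x) = x) (e : OpenPartialHomeomorph M HP) : OpenPartialHomeomorph M HP :=
  (invH hc hi).toOpenPartialHomeomorph.trans e

theorem tch_symm {σ : M → M} (hc : Continuous σ) (hi : ∀ x, σ (σ x) = x)
    (e : OpenPartialHomeomorph M HP) (z : E2) :
    ((tch hc hi e).extend (𝓡∂ 2)).symm z = σ ((e.extend (𝓡∂ 2)).symm z) := by
  rfl

theorem tch_apply {σ : M → M} (hc : Continuous σ) (hi : ∀ x, σ (σ x) = x)
    (e : OpenPartialHomeomorph M HP) (x : M) :
    (tch hc hi e).extend (𝓡∂ 2) x = e.extend (𝓡∂ 2) (σ x) := by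
  rfl

theorem tch_source {σ : M → M} (hc : Continuous σ) (hi : ∀ x, σ (σ x) = x)
    (e : OpenPartialHomeomorph M HP) (x : M) : x ∈ (tch hc hi e).source ↔ σ x ∈ e.source := by
  constructor
  · rintro ⟨-, h⟩
    exact h
  · intro h
    exact ⟨Set.mem_univ _, h⟩

theorem tch_mem {σ : M → M} (hσ : ContMDiff (𝓡∂ 2) (𝓡∂ 2) ∞ σ) (hi : ∀ x, σ (σ x) = x)
    {e : OpenPartialHomeomorph M HP} (he : e ∈ IsManifold.maximalAtlas (𝓡∂ 2) ∞ M) :
    tch hσ.continuous hi e ∈ IsManifold.maximalAtlas (𝓡∂ 2) ∞ M := by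
  refine OpenPartialHomeomorph.mem_maximalAtlas_of_contMDiffOn _ ?_ ?_
  · have h1 := contMDiffOn_of_mem_maximalAtlas he
    have h2 : ContMDiffOn (𝓡∂ 2) (𝓡∂ 2) ∞ (fun x => e (σ x)) (tch hσ.continuous hi e).source :=
      h1.comp hσ.contMDiffOn fun x hx => (tch_source hσ.continuous hi e x).1 hx
    exact h2
  · have h1 := contMDiffOn_symm_of_mem_maximalAtlas he
    have h2 : ContMDiffOn (𝓡∂ 2) (𝓡∂ 2) ∞ (fun x => σ (e.symm x)) (tch hσ.continuous hi e).target :=
      hσ.comp_contMDiffOn (h1.mono fun x hx => hx.1)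
    exact h2

end Pool.Agent.EWD
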