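import Mathlib
import Pool.Agent.EWD.GDF
import Pool.Agent.EWD.GRM
import Pool.Agent.EWD.CFA
import Pool.Agent.H74.FAC.Chg2
import Pool.Agent.MIR.Conf

/-
CFB: the metric in the transported chart.  [about 110 lines]

`σ` is a smooth involution such that `dist (σ x) (σ y)/dist x y` has a limit as `y → x`, for every `x`. Then at every
`z` in the target of `e` with `0 < z 0` there is `u > 0` with `‖dv e' z v‖ = u ‖dv e z v‖` for all `v`, `e' = tch σ e`.
Use `Pool.Agent.MIR.conf_ip` (outputs/live/Pool/Agent/MIR/Conf.lean, with `ip` from MIR/Defs2.lean): for `Ψ : ℂ → M`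
smooth and injective on an open set, `ip (σ ∘ Ψ) p v w = u² ip Ψ p v w`. Take `Ψ = e.symm ∘ T`, `T : ℂ → E2` the linear
isometry `a + b i ↦ (a, b)`, on the open set of `p` with `T p` in the interior of the target. `ip` is the
inner product of `mfderiv Ψ p v`; `mfderiv (e.symm ∘ T) p v = dv e (T p) (T v)` (chain rule; at interior points
`mfderivWithin` over `range` is `mfderiv`: `mfderivWithin_of_mem_nhds`, `range_nhds`), and `σ ∘ e.symm = e'.symm`
(`tch_symm`), so `ip (σ ∘ Ψ) p v v = ‖dv e' (T p) (T v)‖²`. The `RiemannianSpace` instance is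
`{ smooth := inferInstance, metric := inferInstance, smoothMetric := inferInstance, dist_eq := inferInstance }`.
`u > 0` because `dv e' z v ≠ 0` for `v ≠ 0` (`dv_ne_zero`, `tch_mem`).
By polarisation (`norm_dv_sq`) all entries of `gram e' z` are `u²` times those of `gram e z`, and
`dens e' w z = dens e (w ∘ σ) z` (the derivatives are those of the same function `w ∘ σ ∘ e.symm`;
numerator and `√det` both get the factor `u²`).
-/

open MeasureTheory Set Filter Measure Manifold Bundle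
open scoped ContDiff Topology ENNReal NNReal

set_option linter.unusedSectionVars false

namespace Pool.Agent.EWD

open Pool.Agent.H74.FAC

variable {M : Type} [MetricSpace M] [ChartedSpace HP M] [IsManifold (𝓡∂ 2) ∞ M] [CompactSpace M]
  [RiemannianBundle (fun x : M => TangentSpace (𝓡∂ 2) x)]
  [IsContMDiffRiemannianBundle (𝓡∂ 2) ∞ E2 (fun x : M => TangentSpace (𝓡∂ 2) x)]
  [IsRiemannianManifold (𝓡∂ 2) M]

/-- the linear isometry `a + b i ↦ (a, b)` -/
private noncomputable def CFB_T : ℂ ≃ₗᵢ[ℝ] E2 := Complex.orthonormalBasisOneI.repr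

private lemma CFB_T1 : CFB_T 1 = bv 0 := by
  ext i
  fin_cases i <;> simp [CFB_T, bv]

private lemma CFB_TI : CFB_T Complex.I = bv 1 := by
  ext i
  fin_cases i <;> simp [CFB_T, bv]

/-- the parametrisation by the complex plane -/
private noncomputable def CFB_P (e : OpenPartialHomeomorph M HP) (p : ℂ) : M :=
  (e.extend (𝓡∂ 2)).symm (CFB_T p)

private lemma CFB_nhds {e : OpenPartialHomeomorph M HP} {z : E2}
    (hz : z ∈ (e.extend (𝓡∂ 2)).target) (h0 : 0 < z 0) : (e.extend (𝓡∂ 2)).target ∈ 𝓝 z := by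
  have h1 := target_mem_nhdsWithin hz
  rwa [nhdsWithin_eq_nhds.2 (range_nhds h0)] at h1

private lemma CFB_mf {e : OpenPartialHomeomorph M HP} {p : ℂ} (h0 : 0 < (CFB_T p) 0)
    (hd : MDifferentiableAt 𝓘(ℝ, E2) (𝓡∂ 2) (e.extend (𝓡∂ 2)).symm (CFB_T p)) (v : ℂ) :
    mfderiv 𝓘(ℝ, ℂ) (𝓡∂ 2) (CFB_P e) p v = dv e (CFB_T p) (CFB_T v) := by
  have hT : HasMFDerivAt 𝓘(ℝ, ℂ) 𝓘(ℝ, E2) (fun q : ℂ => CFB_T q) p
      (CFB_T.toContinuousLinearEquiv : ℂ →L[ℝ] E2) :=
    (CFB_T.toContinuousLinearEquiv : ℂ →L[ℝ] E2).hasFDerivAt.hasMFDerivAt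
  have h1 := (hd.hasMFDerivAt.comp p hT).mfderiv
  have h2 : mfderivWithin 𝓘(ℝ, E2) (𝓡∂ 2) (e.extend (𝓡∂ 2)).symm (range (𝓡∂ 2)) (CFB_T p)
      = mfderiv 𝓘(ℝ, E2) (𝓡∂ 2) (e.extend (𝓡∂ 2)).symm (CFB_T p) :=
    mfderivWithin_of_mem_nhds (range_nhds h0)
  unfold dv
  rw [h2]
  have h3 := congrArg (fun L => L v) h1
  exact h3

private lemma CFB_md {e : OpenPartialHomeomorph M HP} (he : e ∈ IsManifold.maximalAtlas (𝓡∂ 2) ∞ M)
    {z : E2} (hz : z ∈ (e.extend (𝓡∂ 2)).target) (h0 : 0 < z 0) :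
    MDifferentiableAt 𝓘(ℝ, E2) (𝓡∂ 2) (e.extend (𝓡∂ 2)).symm z :=
  ((cmd_symm he z hz).mdifferentiableWithinAt (by simp)).mdifferentiableAt (CFB_nhds hz h0)

private lemma CFB_target {σ : M → M} (hc : Continuous σ) (hi : ∀ x, σ (σ x) = x)
    (e : OpenPartialHomeomorph M HP) :
    ((tch hc hi e).extend (𝓡∂ 2)).target = (e.extend (𝓡∂ 2)).target := by
  rw [OpenPartialHomeomorph.extend_target, OpenPartialHomeomorph.extend_target]
  congr 2
  ext x
  simp [tch]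

/-- the metric in the transported chart -/
private lemma CFB_conf {σ : M → M} (hσ : ContMDiff (𝓡∂ 2) (𝓡∂ 2) ∞ σ) (hi : ∀ x, σ (σ x) = x)
    (hc : ∀ x, ∃ u : ℝ, Tendsto (fun y => dist (σ x) (σ y) / dist x y) (𝓝[≠] x) (𝓝 u))
    {e : OpenPartialHomeomorph M HP} (he : e ∈ IsManifold.maximalAtlas (𝓡∂ 2) ∞ M)
    {p : ℂ} (hz : CFB_T p ∈ (e.extend (𝓡∂ 2)).target) (h0 : 0 < (CFB_T p) 0) :
    ∃ u : ℝ, 0 ≤ u ∧ ∀ v w : ℂ,
      inner ℝ (dv (tch hσ.continuous hi e) (CFB_T p) (CFB_T v))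
        (dv (tch hσ.continuous hi e) (CFB_T p) (CFB_T w))
      = u ^ 2 * inner ℝ (dv e (CFB_T p) (CFB_T v)) (dv e (CFB_T p) (CFB_T w)) := by
  let R : Pool.Agent.H74.Surf.RiemannianSpace (𝓡∂ 2) M :=
    { smooth := inferInstance
      metric := inferInstance
      smoothMetric := inferInstance
      dist_eq := inferInstance }
  have hU : IsOpen (CFB_T ⁻¹' (interior (e.extend (𝓡∂ 2)).target)) :=
    isOpen_interior.preimage CFB_T.continuous
  have hΨ : ContMDiffOn 𝓘(ℝ, ℂ) (𝓡∂ 2) ∞ (CFB_P e) (CFB_T ⁻¹' (interior (e.extend (𝓡∂ 2)).target)) := by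
    have h1 : ContMDiff 𝓘(ℝ, ℂ) 𝓘(ℝ, E2) ∞ (fun q : ℂ => CFB_T q) :=
      (CFB_T.toContinuousLinearEquiv : ℂ →L[ℝ] E2).contDiff.contMDiff
    refine (cmd_symm he).comp h1.contMDiffOn fun q hq => ?_
    have h2 : CFB_T q ∈ interior (e.extend (𝓡∂ 2)).target := hq
    have h3 : CFB_T q ∈ (e.extend (𝓡∂ 2)).target := interior_subset h2
    exact h3
  have hinj : InjOn (CFB_P e) (CFB_T ⁻¹' (interior (e.extend (𝓡∂ 2)).target)) := by
    intro a ha b hb hab
    apply CFB_T.injective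
    exact (e.extend (𝓡∂ 2)).symm.injOn (interior_subset ha) (interior_subset hb) hab
  have hp : p ∈ CFB_T ⁻¹' (interior (e.extend (𝓡∂ 2)).target) :=
    mem_interior_iff_mem_nhds.2 (CFB_nhds hz h0)
  obtain ⟨u, hu0, hu⟩ := Pool.Agent.MIR.conf_ip (R := R) hU hΨ hinj hσ hp (hc _)
  refine ⟨u, hu0, fun v w => ?_⟩
  have h1 := hu v w
  have e1 : Pool.Agent.MIR.ip (R := R) (CFB_P e) p v w
      = inner ℝ (dv e (CFB_T p) (CFB_T v)) (dv e (CFB_T p) (CFB_T w)) := by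
    have a1 := CFB_mf h0 (CFB_md he hz h0) v
    have a2 := CFB_mf h0 (CFB_md he hz h0) w
    show inner ℝ (mfderiv 𝓘(ℝ, ℂ) (𝓡∂ 2) (CFB_P e) p v) (mfderiv 𝓘(ℝ, ℂ) (𝓡∂ 2) (CFB_P e) p w) = _
    rw [a1, a2]
    rfl
  have he' := tch_mem hσ hi he
  have hz' : CFB_T p ∈ ((tch hσ.continuous hi e).extend (𝓡∂ 2)).target := by
    rw [CFB_target]
    exact hz
  have hP : σ ∘ CFB_P e = CFB_P (tch hσ.continuous hi e) := by
    funext q
    exact (tch_symm hσ.continuous hi e (CFB_T q)).symm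
  have e2 : Pool.Agent.MIR.ip (R := R) (CFB_P (tch hσ.continuous hi e)) p v w
      = inner ℝ (dv (tch hσ.continuous hi e) (CFB_T p) (CFB_T v))
        (dv (tch hσ.continuous hi e) (CFB_T p) (CFB_T w)) := by
    have a1 := CFB_mf h0 (CFB_md he' hz' h0) v
    have a2 := CFB_mf h0 (CFB_md he' hz' h0) w
    show inner ℝ (mfderiv 𝓘(ℝ, ℂ) (𝓡∂ 2) (CFB_P (tch hσ.continuous hi e)) p v)
      (mfderiv 𝓘(ℝ, ℂ) (𝓡∂ 2) (CFB_P (tch hσ.continuous hi e)) p w) = _
    rw [a1, a2]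
    rfl
  rw [hP, e1, e2] at h1
  exact h1

private lemma CFB_gram00 (e : OpenPartialHomeomorph M HP) (z : E2) : gram e z 0 0 = g0 e z := rfl
private lemma CFB_gram01 (e : OpenPartialHomeomorph M HP) (z : E2) : gram e z 0 1 = g1 e z := rfl
private lemma CFB_gram11 (e : OpenPartialHomeomorph M HP) (z : E2) : gram e z 1 1 = g2 e z := rfl

theorem dens_tch {σ : M → M} (hσ : ContMDiff (𝓡∂ 2) (𝓡∂ 2) ∞ σ) (hi : ∀ x, σ (σ x) = x)
    (hc : ∀ x, ∃ u : ℝ, Tendsto (fun y => dist (σ x) (σ y) / dist x y) (𝓝[≠] x) (𝓝 u))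
    {e : OpenPartialHomeomorph M HP} (he : e ∈ IsManifold.maximalAtlas (𝓡∂ 2) ∞ M) {N : ℕ}
    (w : M → EuclideanSpace ℝ (Fin N)) {z : E2} (hz : z ∈ (e.extend (𝓡∂ 2)).target)
    (h0 : 0 < z 0) :
    dens (tch hσ.continuous hi e) w z = dens e (fun x => w (σ x)) z := by
  obtain ⟨p, rfl⟩ := CFB_T.surjective z
  obtain ⟨u, hu0, hu⟩ := CFB_conf hσ hi hc he hz h0
  have q0 : g0 (tch hσ.continuous hi e) (CFB_T p) = u ^ 2 * g0 e (CFB_T p) := by
    have h := hu 1 1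
    rw [CFB_T1] at h
    exact h
  have q1 : g1 (tch hσ.continuous hi e) (CFB_T p) = u ^ 2 * g1 e (CFB_T p) := by
    have h := hu 1 Complex.I
    rw [CFB_T1, CFB_TI] at h
    exact h
  have q2 : g2 (tch hσ.continuous hi e) (CFB_T p) = u ^ 2 * g2 e (CFB_T p) := by
    have h := hu Complex.I Complex.I
    rw [CFB_TI] at h
    exact h
  have hz' : CFB_T p ∈ ((tch hσ.continuous hi e).extend (𝓡∂ 2)).target := by
    rw [CFB_target]
    exact hz
  have hpos := g0_pos (tch_mem hσ hi he) hz'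
  have hu : u ^ 2 ≠ 0 := by
    intro h
    rw [q0, h, zero_mul] at hpos
    exact lt_irrefl _ hpos
  have hd : dg (tch hσ.continuous hi e) (CFB_T p) = (u ^ 2) ^ 2 * dg e (CFB_T p) := by
    unfold dg
    rw [q0, q1, q2]
    ring
  have hf : (fun y => w (((tch hσ.continuous hi e).extend (𝓡∂ 2)).symm y))
      = fun y => (fun x => w (σ x)) ((e.extend (𝓡∂ 2)).symm y) := by
    funext y
    rw [tch_symm]
  unfold dens
  rw [hf, dg_eq, dg_eq, CFB_gram00, CFB_gram01, CFB_gram11, CFB_gram00, CFB_gram01, CFB_gram11, hd,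
    q0, q1, q2, Real.sqrt_mul (sq_nonneg _), Real.sqrt_sq (sq_nonneg u)]
  congr 1
  rw [← mul_div_mul_left _ (√(dg e (CFB_T p))) hu]
  congr 1
  ring

end Pool.Agent.EWD
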