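import Mathlib
import Pool.Agent.EWD.GDF
import Pool.Agent.EWD.GRM
import Pool.Agent.EWD.CFA
import Pool.Agent.EWD.CFB
import Pool.Agent.EWD.LPA
import Pool.Agent.EWD.CAL
import Pool.Agent.EWD.ENE

/-
CFC: conformal invariance of the energy.  [about 110 lines]

`energy (w ∘ σ) ≤ energy w`: take an admissible family `(e_i, S_i)`. The family `(tch σ e_i, σ⁻¹(S_i))` is admissible
(`tch_mem`; `σ⁻¹(S_i)` is Borel and contained in the source of `tch σ e_i`: `tch_source`; disjoint), the coordinate sets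
agree: `(tch σ e_i) '' (σ⁻¹ S_i) = e_i '' S_i` (`tch_apply`, `σ` is bijective), and on them, up to the null set
`z 0 = 0` (`null_line`), `dens (tch σ e_i) w = dens e_i (w ∘ σ)` (`dens_tch`; the points are in the target
and have `0 ≤ z 0`). So each sum for `w ∘ σ` is one of the sums for `w`. Apply this to `w ∘ σ` to get equality.
`E_comp`: translate with `energy_eq` (for `w = ` the map with components `w j`; `E ≥ 0`, `ENNReal.ofReal` injective on
nonnegative numbers).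
-/

open MeasureTheory Set Filter Measure Manifold Bundle
open scoped ContDiff Topology ENNReal NNReal

set_option linter.unusedSectionVars false

namespace Pool.Agent.EWD

open Pool.Agent.H74.FAC

variable {M : Type} [MetricSpace M] [ChartedSpace HP M] [IsManifold (𝓡∂ 2) ∞ M] [CompactSpace M]
  [RiemannianBundle (fun x : M => TangentSpace (𝓡∂ 2) x)]
  [IsContMDiffRiemannianBundle (𝓡∂ 2) ∞ E2 (fun x : M => TangentSpace (𝓡∂ 2) x)]
  [IsRiemannianManifold (𝓡∂ 2) M]

private theorem CFC_image {σ : M → M} (hc : Continuous σ) (hi : ∀ x, σ (σ x) = x)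
    (e : OpenPartialHomeomorph M HP) (S : Set M) :
    (tch hc hi e).extend (𝓡∂ 2) '' (σ ⁻¹' S) = e.extend (𝓡∂ 2) '' S := by
  ext z
  constructor
  · rintro ⟨x, hx, rfl⟩
    exact ⟨σ x, hx, (tch_apply hc hi e x).symm⟩
  · rintro ⟨x, hx, rfl⟩
    refine ⟨σ x, ?_, ?_⟩
    · show σ (σ x) ∈ S
      rw [hi]
      exact hx
    · rw [tch_apply, hi]

private theorem CFC_le {σ : M → M} (hσ : ContMDiff (𝓡∂ 2) (𝓡∂ 2) ∞ σ) (hi : ∀ x, σ (σ x) = x)
    (hc : ∀ x, ∃ u : ℝ, Tendsto (fun y => dist (σ x) (σ y) / dist x y) (𝓝[≠] x) (𝓝 u)) {N : ℕ}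
    (w : M → EuclideanSpace ℝ (Fin N)) : energy (fun x => w (σ x)) ≤ energy w := by
  unfold energy
  refine iSup_le fun n => iSup_le fun e => iSup_le fun S => iSup_le fun h => ?_
  obtain ⟨h1, h2, h3, h4⟩ := h
  refine le_iSup_of_le n (le_iSup_of_le (fun i => tch hσ.continuous hi (e i))
    (le_iSup_of_le (fun i => σ ⁻¹' (S i)) (le_iSup_of_le ⟨?_, ?_, ?_, ?_⟩ ?_)))
  · exact fun i => tch_mem hσ hi (h1 i)
  · intro i
    letI : MeasurableSpace M := borel M
    haveI : BorelSpace M := ⟨rfl⟩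
    exact hσ.continuous.measurable (h2 i)
  · intro i x hx
    rw [tch_source]
    exact h3 i hx
  · intro i j hij
    exact (h4 hij).preimage σ
  · refine le_of_eq (Finset.sum_congr rfl fun i _ => ?_)
    rw [CFC_image]
    refine setLIntegral_congr_fun_ae (meas_image (h2 i) (h3 i)) ?_
    filter_upwards [null_line 0] with z hz hzS
    obtain ⟨x, hx, rfl⟩ := hzS
    rw [dens_tch hσ hi hc (h1 i) w (ext_mem_target (h3 i hx))
      (lt_of_le_of_ne (ext_nonneg _ _) (Ne.symm hz))]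

theorem energy_comp {σ : M → M} (hσ : ContMDiff (𝓡∂ 2) (𝓡∂ 2) ∞ σ) (hi : ∀ x, σ (σ x) = x)
    (hc : ∀ x, ∃ u : ℝ, Tendsto (fun y => dist (σ x) (σ y) / dist x y) (𝓝[≠] x) (𝓝 u)) {N : ℕ}
    (w : M → EuclideanSpace ℝ (Fin N)) : energy (fun x => w (σ x)) = energy w := by
  refine le_antisymm (CFC_le hσ hi hc w) ?_
  have h := CFC_le hσ hi hc (fun x => w (σ x))
  simp only [hi] at h
  exact h

private theorem CFC_nonneg [Nonempty M] (A : Cov M) {φ : S1 → M} (hφ : IsometricFilling φ) {N : ℕ}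
    (w : Fin N → M → ℝ) : 0 ≤ (cal A hφ).E w := by
  unfold Calc.E
  refine mul_nonneg (by norm_num) (integral_nonneg fun o => ?_)
  unfold Calc.G
  exact Finset.sum_nonneg fun i _ => add_nonneg (sq_nonneg _) (sq_nonneg _)

theorem E_comp [Nonempty M] (A : Cov M) {φ : S1 → M} (hφ : IsometricFilling φ) {σ : M → M}
    (hσ : ContMDiff (𝓡∂ 2) (𝓡∂ 2) ∞ σ) (hi : ∀ x, σ (σ x) = x)
    (hc : ∀ x, ∃ u : ℝ, Tendsto (fun y => dist (σ x) (σ y) / dist x y) (𝓝[≠] x) (𝓝 u))
    (hL : ∃ K : ℝ≥0, LipschitzWith K σ) {N : ℕ} (w : Fin N → M → ℝ) (hw : ∀ j, Lip (w j)) :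
    (cal A hφ).E (fun j x => w j (σ x)) = (cal A hφ).E w := by
  obtain ⟨K, hK⟩ := hL
  obtain ⟨W, hW⟩ : ∃ W : M → EuclideanSpace ℝ (Fin N), ∀ x i, W x i = w i x :=
    ⟨fun x => WithLp.toLp 2 (fun i => w i x), fun _ _ => rfl⟩
  have e1 : cm W = w := by
    funext i x
    exact hW x i
  have e2 : cm (fun x => W (σ x)) = fun j x => w j (σ x) := by
    funext i x
    exact hW (σ x) i
  have l1 : ∀ i, Lip (cm W i) := by
    intro i
    rw [e1]
    exact hw i
  have l2 : ∀ i, Lip (cm (fun x => W (σ x)) i) := by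
    intro i
    rw [e2]
    obtain ⟨L, hL⟩ := hw i
    exact ⟨L * K, hL.comp hK⟩
  have h1 := energy_eq A hφ l1
  have h2 := energy_eq A hφ l2
  rw [energy_comp hσ hi hc W, h1, e1, e2] at h2
  exact ((ENNReal.ofReal_eq_ofReal_iff (CFC_nonneg A hφ w) (CFC_nonneg A hφ _)).1 h2).symm

end Pool.Agent.EWD
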