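import Mathlib
import Pool.Agent.EWD.Defs
import Pool.Agent.EWD.KER
import Pool.Agent.EWD.LPA
import Pool.Agent.EWD.RUL
import Pool.Agent.EWD.PWI
import Pool.Agent.EWD.VAR

/-
CSI: stability turned into a lower bound of `∫ K`.  [about 140 lines]

Let `ζ = sin θ` (1-Lipschitz, `|ζ| ≤ 1`, odd), `X = lin a u`, `Y = lin b u`, `q = qf X Y`.
For almost every `o` (all values at `C.pt o`): by `pointwise` in the two directions (`∑ u g = 0` by
`ae_sph`, `gx X = ∑ a gx u` by `ae_lin`)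
 `IVV ≤ K q |∇ζ|² - K q (Tx² + Ty²)/q * ζ²`.
`∇ζ = cos θ ∇θ` (`ae_comp`), so `|∇ζ|² = |∇θ|² - sin² θ |∇θ|²` and `|∇θ|² ≤ 1` (`ae_grad_le`):
 `IVV + K sin² θ (|∇θ|² + |T|²/q) ≤ K |∇θ|² ≤ K`.
`|∇θ|² + |T|²/q ≥ 2 |∇θ ∧ T|/√q` (AM-GM and `|∇θ ∧ T| ≤ |∇θ| |T|`; when `q = 0` then `T = 0`), and
`∇(HH ∘ θ) = (1 - cos 2θ) ∇θ = 2 sin² θ ∇θ`, so
 `K sin² θ (|∇θ|² + |T|²/q) ≥ K √q |cr (HH ∘ θ) X Y|`   (as `cr ψ X Y = (∇ψ ∧ T)/q`).
Integrate and use `var_ineq` (`ζ`): `∫ IVV ≥ - 2 δ/ε² - ε² C₀ (vol + E u)`.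
Integrability: `K` is bounded by `KK_le`; the left integrand is bounded: `K √q |cr| ≤ K - IVV`, and it is
a.e. measurable.
-/

open MeasureTheory Set Filter Topology
open scoped ENNReal NNReal

namespace Pool.Agent.EWD

variable {M : Type} [MetricSpace M] [CompactSpace M] {γ : ℝ → M} (C : Calc M γ)

private theorem CSI_alg {q : ℝ} (hq : 0 ≤ q) {s : ℝ} (hs : 0 ≤ s) (gx gy tx ty : ℝ) :
    √q * |(2 * s * gx * ty - 2 * s * gy * tx) / q| ≤
      s * (gx ^ 2 + gy ^ 2 + (tx ^ 2 / q + ty ^ 2 / q)) := by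
  rcases hq.eq_or_lt with h | h
  · rw [← h]
    simp only [Real.sqrt_zero, zero_mul, div_zero, add_zero]
    positivity
  · have hr : 0 < √q := Real.sqrt_pos.2 h
    have hrr : √q ^ 2 = q := Real.sq_sqrt hq
    set r := √q with hrdef
    rw [← hrr]
    have h1 : (2 * s * gx * ty - 2 * s * gy * tx) / r ^ 2 =
        (s * (2 * (gx * (ty / r) - gy * (tx / r)))) / r := by
      field_simp
    rw [h1, abs_div, abs_of_pos hr, abs_mul, abs_of_nonneg hs, mul_div_cancel₀ _ hr.ne']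
    rw [← div_pow, ← div_pow]
    refine mul_le_mul_of_nonneg_left ?_ hs
    rw [abs_le]
    constructor
    · nlinarith [sq_nonneg (gx + ty / r), sq_nonneg (gy - tx / r)]
    · nlinarith [sq_nonneg (gx - ty / r), sq_nonneg (gy + tx / r)]

private theorem CSI_HH (x : ℝ) : HasDerivAt HH (2 * Real.sin x ^ 2) x := by
  have h1 : HasDerivAt (fun y : ℝ => Real.sin (2 * y)) (Real.cos (2 * x) * (2 * 1)) x :=
    (Real.hasDerivAt_sin (2 * x)).comp x ((hasDerivAt_id x).const_mul 2)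
  have h2 := (hasDerivAt_id x).sub (h1.div_const 2)
  refine h2.congr_deriv ?_
  rw [Real.cos_two_mul, Real.cos_sq']
  ring

theorem csi {τ : ℝ} (hτ : 0 < τ) : ∃ C₀ : ℝ, 0 ≤ C₀ ∧ ∀ {N : ℕ} (a b : Fin N → ℝ)
    (u : Fin N → M → ℝ) (θ : M → ℝ) (δ ε : ℝ), Ortho a b → Sph γ u → C.NearMin u δ →
    LipschitzWith 1 θ → OddB γ θ → 0 < ε → ε ≤ 1 →
    ∫ o, KK τ (qf (lin a u) (lin b u) (C.pt o)) * √(qf (lin a u) (lin b u) (C.pt o)) *
        |C.cr (fun x => HH (θ x)) (lin a u) (lin b u) o| ∂C.μ ≤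
      ∫ o, KK τ (qf (lin a u) (lin b u) (C.pt o)) ∂C.μ
        + (2 * δ / ε ^ 2 + ε ^ 2 * (C₀ * (C.vol + C.E u))) := by
  obtain ⟨C₀, hC₀, H⟩ := var_ineq C hτ
  refine ⟨C₀, hC₀, ?_⟩
  intro N a b u θ δ ε hab hu hmin hθ hodd hε hε1
  have hθL : Lip θ := ⟨1, hθ⟩
  have hX : Lip (lin a u) := lip_lin a hu.lip
  have hY : Lip (lin b u) := lip_lin b hu.lip
  have hζ : LipschitzWith 1 (fun x => Real.sin (θ x)) := by
    have h := Real.lipschitzWith_sin.comp hθ
    rw [one_mul] at h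
    exact h
  have hζL : Lip (fun x => Real.sin (θ x)) := ⟨1, hζ⟩
  have hζodd : OddB γ (fun x => Real.sin (θ x)) := by
    intro t
    simp only [hodd t, Real.sin_neg]
  have hvar := H a b u (fun x => Real.sin (θ x)) δ ε hab hu hmin hζ
    (fun x => Real.abs_sin_le_one _) hζodd hε hε1
  have hIint := integrable_IVV C hτ hab hu hζL
  -- bounds of q
  have hq0 : ∀ x, 0 ≤ qf (lin a u) (lin b u) x := fun x => by unfold qf; positivity
  have hKint : Integrable (fun o => KK τ (qf (lin a u) (lin b u) (C.pt o))) C.μ := by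
    refine C.integrable_of_bdd (B := √(1 + τ ^ 2) / τ) ?_ (Eventually.of_forall fun o => ?_)
    · refine (measurable_KK τ).comp_aemeasurable ?_
      exact ((C.meas_pt hX).pow_const 2).add ((C.meas_pt hY).pow_const 2)
    · rw [abs_of_pos (KK_pos hτ (hq0 _))]
      exact KK_le hτ (hq0 _)
  -- the pointwise estimate
  have key : ∀ᵐ o ∂C.μ,
      KK τ (qf (lin a u) (lin b u) (C.pt o)) * √(qf (lin a u) (lin b u) (C.pt o)) *
        |C.cr (fun x => HH (θ x)) (lin a u) (lin b u) o| ≤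
      KK τ (qf (lin a u) (lin b u) (C.pt o)) - IVV C τ a b u (fun x => Real.sin (θ x)) o := by
    filter_upwards [C.ae_sph hu, C.ae_lin a hu.lip, C.ae_lin b hu.lip,
      C.ae_comp hθL (f := Real.sin) (f' := Real.cos) (fun x => Real.hasDerivAt_sin _),
      C.ae_comp hθL (f := HH) (f' := fun x => 2 * Real.sin x ^ 2) (fun x => CSI_HH _),
      C.ae_grad_le hθ] with o h1 h2 h3 h4 h5 h6
    have hunit := hu.unit (C.pt o)
    have hx := pointwise hτ a b (fun i => u i (C.pt o)) (fun i => C.gx (u i) o) hab hunit h1.1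
      (Real.sin (θ (C.pt o))) (C.gx (fun x => Real.sin (θ x)) o)
    have hy := pointwise hτ a b (fun i => u i (C.pt o)) (fun i => C.gy (u i) o) hab hunit h1.2
      (Real.sin (θ (C.pt o))) (C.gy (fun x => Real.sin (θ x)) o)
    have hK := KK_pos hτ (hq0 (C.pt o))
    have halg := CSI_alg (hq0 (C.pt o)) (sq_nonneg (Real.sin (θ (C.pt o)))) (C.gx θ o) (C.gy θ o)
      (C.Tx (lin a u) (lin b u) o) (C.Ty (lin a u) (lin b u) o)
    have hcr : C.cr (fun x => HH (θ x)) (lin a u) (lin b u) o =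
        (2 * Real.sin (θ (C.pt o)) ^ 2 * C.gx θ o * C.Ty (lin a u) (lin b u) o -
          2 * Real.sin (θ (C.pt o)) ^ 2 * C.gy θ o * C.Tx (lin a u) (lin b u) o) /
          qf (lin a u) (lin b u) (C.pt o) := by
      unfold Calc.cr qf
      rw [h5.1, h5.2]
    rw [hcr]
    have hqe : qf (lin a u) (lin b u) (C.pt o) =
        (∑ i, a i * u i (C.pt o)) ^ 2 + (∑ i, b i * u i (C.pt o)) ^ 2 := rfl
    have hTx : C.Tx (lin a u) (lin b u) o =
        (∑ i, a i * u i (C.pt o)) * (∑ i, b i * C.gx (u i) o) -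
          (∑ i, b i * u i (C.pt o)) * (∑ i, a i * C.gx (u i) o) := by
      unfold Calc.Tx
      rw [h2.1, h3.1]
      rfl
    have hTy : C.Ty (lin a u) (lin b u) o =
        (∑ i, a i * u i (C.pt o)) * (∑ i, b i * C.gy (u i) o) -
          (∑ i, b i * u i (C.pt o)) * (∑ i, a i * C.gy (u i) o) := by
      unfold Calc.Ty
      rw [h2.2, h3.2]
      rfl
    rw [← hqe, ← hTx, h4.1] at hx
    rw [← hqe, ← hTy, h4.2] at hy
    unfold IVV
    rw [h4.1, h4.2]
    set K := KK τ (qf (lin a u) (lin b u) (C.pt o))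
    set q := qf (lin a u) (lin b u) (C.pt o)
    set s := Real.sin (θ (C.pt o))
    set c := Real.cos (θ (C.pt o))
    have hcs : c ^ 2 = 1 - s ^ 2 := Real.cos_sq' _
    have h7 := mul_le_mul_of_nonneg_left halg hK.le
    have h8 : K * (C.gx θ o ^ 2 + C.gy θ o ^ 2) ≤ K * 1 := by
      refine mul_le_mul_of_nonneg_left ?_ hK.le
      simpa using h6
    have h9 : K * (c * C.gx θ o) ^ 2 + K * (c * C.gy θ o) ^ 2 =
        K * (C.gx θ o ^ 2 + C.gy θ o ^ 2) - K * (s ^ 2 * (C.gx θ o ^ 2 + C.gy θ o ^ 2)) := by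
      linear_combination K * (C.gx θ o ^ 2 + C.gy θ o ^ 2) * hcs
    rw [mul_assoc]
    nlinarith [h7, h8, h9, hx, hy]
  have hnonneg : 0 ≤ᵐ[C.μ] fun o =>
      KK τ (qf (lin a u) (lin b u) (C.pt o)) * √(qf (lin a u) (lin b u) (C.pt o)) *
        |C.cr (fun x => HH (θ x)) (lin a u) (lin b u) o| :=
    Eventually.of_forall fun o => by
      have := KK_pos hτ (hq0 (C.pt o))
      simp only [Pi.zero_apply]
      positivity
  have hfin := integral_mono_of_nonneg hnonneg (hKint.sub hIint) key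
  simp only [Pi.sub_apply] at hfin
  rw [integral_sub hKint hIint] at hfin
  linarith

end Pool.Agent.EWD
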