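import Mathlib
import Pool.Agent.EWD.Defs
import Pool.Agent.EWD.KER
import Pool.Agent.EWD.LPA
import Pool.Agent.EWD.RUL
import Pool.Agent.EWD.CRB
import Pool.Agent.EWD.PWI
import Pool.Agent.EWD.CSI
import Pool.Agent.EWD.TOP

/-
PYI: the inequality for one direction `y`.  [about 130 lines]

`X = lin a u`, `Y = lin b u`, `q = qf X Y (C.pt o) ∈ [0, 1]` (`bessel`, `hu.unit`), `K = KK τ q`.
`rot ≤ √G/√q` (`ae_rot_le`) is integrable. Take `θ` from `top_bound`, `ψ = HH ∘ θ` (2-Lipschitz). Then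
 `π² ≤ ∫ |cr ψ| = ∫ K √q |cr ψ| + ∫ (1 - K √q) |cr ψ|`,
and `(1 - K √q) |cr ψ| ≤ (1 - K √q) 2 rot ≤ 2 √G (1 - K √q)/√q = 2 √G ll τ q` (`ae_cr_le`,
`KK_mul_sqrt_le`); if `q = 0` then `cr ψ = 0`. Use `csi` for the first integral.
Integrability: `K √q |cr ψ| ≤ |cr ψ| ≤ 2 rot`; `2 √G ll ≤ 2 √G/√q` (`ll_le`, `ll_nonneg`).
-/

open MeasureTheory Set Filter Topology
open scoped ENNReal NNReal

namespace Pool.Agent.EWD

variable {M : Type} [MetricSpace M] [CompactSpace M] {γ : ℝ → M} (C : Calc M γ)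

theorem pyi (hγ : Bd γ) {τ : ℝ} (hτ : 0 < τ) : ∃ C₀ : ℝ, 0 ≤ C₀ ∧ ∀ {N : ℕ} (a b : Fin N → ℝ)
    (u : Fin N → M → ℝ) (Z : Finset M) (s : M → ℝ) (δ ε : ℝ), Ortho a b → Sph γ u →
    C.NearMin u δ → C.Vort (lin a u) (lin b u) Z s →
    Integrable (fun o => √(C.G u o) / √(qf (lin a u) (lin b u) (C.pt o))) C.μ → 0 < ε → ε ≤ 1 →
    Real.pi ^ 2 ≤ ∫ o, KK τ (qf (lin a u) (lin b u) (C.pt o)) ∂C.μ
      + ∫ o, 2 * (√(C.G u o) * ll τ (qf (lin a u) (lin b u) (C.pt o))) ∂C.μ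
      + (2 * δ / ε ^ 2 + ε ^ 2 * (C₀ * (C.vol + C.E u))) := by
  obtain ⟨C₀, hC₀, H⟩ := csi C hτ
  refine ⟨C₀, hC₀, ?_⟩
  intro N a b u Z s δ ε hab hu hmin hV hI hε hε1
  have hX : Lip (lin a u) := lip_lin a hu.lip
  have hY : Lip (lin b u) := lip_lin b hu.lip
  have hrle := C.ae_rot_le hab hu.lip
  have hr : Integrable (C.rot (lin a u) (lin b u)) C.μ := by
    refine hI.mono' (C.meas_rot hX hY).aestronglyMeasurable ?_
    filter_upwards [hrle] with o ho
    rw [Real.norm_eq_abs, abs_of_nonneg (C.rot_nonneg _ _ o)]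
    exact ho
  obtain ⟨θ, hθ, hodd, hπ⟩ := top_bound C hγ hV hr
  have hψL : LipschitzWith (2 * 1) (fun x => HH (θ x)) := lip_HH.comp hθ
  have hcs := H a b u θ δ ε hab hu hmin hθ hodd hε hε1
  have hq0 : ∀ o, 0 ≤ qf (lin a u) (lin b u) (C.pt o) := fun o => by unfold qf; positivity
  have hq1 : ∀ o, qf (lin a u) (lin b u) (C.pt o) ≤ 1 := fun o => by
    have h1 := bessel hab (fun i => u i (C.pt o))
    rw [hu.unit] at h1
    exact h1
  have hqm : AEMeasurable (fun o => qf (lin a u) (lin b u) (C.pt o)) C.μ :=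
    ((C.meas_pt hX).pow_const 2).add ((C.meas_pt hY).pow_const 2)
  have hKm : AEMeasurable (fun o => KK τ (qf (lin a u) (lin b u) (C.pt o))) C.μ :=
    (measurable_KK τ).comp_aemeasurable hqm
  have hFi : Integrable (fun o => |C.cr (fun x => HH (θ x)) (lin a u) (lin b u) o|) C.μ :=
    (C.integrable_cr ⟨_, hψL⟩ hX hY hr).abs
  have hKn : ∀ o, 0 ≤ KK τ (qf (lin a u) (lin b u) (C.pt o)) *
      √(qf (lin a u) (lin b u) (C.pt o)) := fun o =>
    mul_nonneg (KK_pos hτ (hq0 o)).le (Real.sqrt_nonneg _)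
  have hK1 : ∀ o, KK τ (qf (lin a u) (lin b u) (C.pt o)) *
      √(qf (lin a u) (lin b u) (C.pt o)) ≤ 1 := fun o => KK_mul_sqrt_le hτ (hq0 o) (hq1 o)
  have hAi : Integrable (fun o => KK τ (qf (lin a u) (lin b u) (C.pt o)) *
      √(qf (lin a u) (lin b u) (C.pt o)) *
        |C.cr (fun x => HH (θ x)) (lin a u) (lin b u) o|) C.μ := by
    refine hFi.mono' ?_ ?_
    · exact ((hKm.mul hqm.sqrt).mul hFi.aemeasurable).aestronglyMeasurable
    · refine Eventually.of_forall fun o => ?_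
      rw [Real.norm_eq_abs, abs_of_nonneg (mul_nonneg (hKn o) (abs_nonneg _))]
      exact mul_le_of_le_one_left (abs_nonneg _) (hK1 o)
  have hLi : Integrable (fun o => 2 * (√(C.G u o) *
      ll τ (qf (lin a u) (lin b u) (C.pt o)))) C.μ := by
    refine (hI.const_mul 2).mono' ?_ ?_
    · exact ((((C.meas_G hu.lip).sqrt).mul
        ((measurable_ll τ).comp_aemeasurable hqm)).const_mul 2).aestronglyMeasurable
    · refine Eventually.of_forall fun o => ?_
      have h1 := ll_nonneg hτ (hq0 o) (hq1 o)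
      have h2 := ll_le hτ (hq0 o) (hq1 o)
      rw [Real.norm_eq_abs, abs_of_nonneg (by positivity)]
      refine mul_le_mul_of_nonneg_left ?_ (by norm_num)
      calc √(C.G u o) * ll τ (qf (lin a u) (lin b u) (C.pt o))
          ≤ √(C.G u o) * (1 / √(qf (lin a u) (lin b u) (C.pt o))) :=
            mul_le_mul_of_nonneg_left h2 (Real.sqrt_nonneg _)
        _ = √(C.G u o) / √(qf (lin a u) (lin b u) (C.pt o)) := by ring
  have hpt : ∀ᵐ o ∂C.μ, |C.cr (fun x => HH (θ x)) (lin a u) (lin b u) o| ≤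
      KK τ (qf (lin a u) (lin b u) (C.pt o)) * √(qf (lin a u) (lin b u) (C.pt o)) *
        |C.cr (fun x => HH (θ x)) (lin a u) (lin b u) o| +
      2 * (√(C.G u o) * ll τ (qf (lin a u) (lin b u) (C.pt o))) := by
    filter_upwards [hrle, C.ae_cr_le hψL (lin a u) (lin b u)] with o h1 h2
    have h3 : (((2 * 1 : ℝ≥0)) : ℝ) = 2 := by norm_num
    rw [h3] at h2
    have hrest : (1 - KK τ (qf (lin a u) (lin b u) (C.pt o)) *
        √(qf (lin a u) (lin b u) (C.pt o))) *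
          |C.cr (fun x => HH (θ x)) (lin a u) (lin b u) o| ≤
        2 * (√(C.G u o) * ll τ (qf (lin a u) (lin b u) (C.pt o))) := by
      calc (1 - KK τ (qf (lin a u) (lin b u) (C.pt o)) *
        √(qf (lin a u) (lin b u) (C.pt o))) *
          |C.cr (fun x => HH (θ x)) (lin a u) (lin b u) o|
          ≤ (1 - KK τ (qf (lin a u) (lin b u) (C.pt o)) *
            √(qf (lin a u) (lin b u) (C.pt o))) *
            (2 * (√(C.G u o) / √(qf (lin a u) (lin b u) (C.pt o)))) := by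
            refine mul_le_mul_of_nonneg_left ?_ (sub_nonneg.2 (hK1 o))
            linarith
        _ = 2 * (√(C.G u o) * ll τ (qf (lin a u) (lin b u) (C.pt o))) := by
            unfold ll
            ring
    linarith
  have hint : ∫ o, |C.cr (fun x => HH (θ x)) (lin a u) (lin b u) o| ∂C.μ ≤
      (∫ o, KK τ (qf (lin a u) (lin b u) (C.pt o)) * √(qf (lin a u) (lin b u) (C.pt o)) *
        |C.cr (fun x => HH (θ x)) (lin a u) (lin b u) o| ∂C.μ) +
      ∫ o, 2 * (√(C.G u o) * ll τ (qf (lin a u) (lin b u) (C.pt o))) ∂C.μ := by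
    rw [← integral_add hAi hLi]
    exact integral_mono_ae hFi (hAi.add hLi) hpt
  linarith

end Pool.Agent.EWD
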