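import Mathlib
import Pool.Agent.EWD.Defs
import Pool.Agent.EWD.LPA
import Pool.Agent.EWD.RUL
import Pool.Agent.EWD.KER
import Pool.Agent.EWD.PYI
import Pool.Agent.EWD.LIM
import Pool.Agent.EWD.AVG

/-
FNA: the abstract final statement.  [about 150 lines]

`M` is not empty (`γ 0`), so `m ≤ ‖vv u x‖ ≤ 1`. Let `u₁` be the map for `δ = 1` and `w₁ = Fin.snoc u₁ 0`
(`Sph γ w₁`, `E w₁ = E u₁`: `ae_const`); then for every `δ`: `E u ≤ E u₁ + δ` by `NearMin`.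
Fix `τ > 0`, `C₀` from `pyi`, `0 < ε ≤ 1`, `δ = ε⁴`, `u` the map for `δ`. For a.e. `y` there are `a, b, Z, s` with
`qf (lin a u) (lin b u) x = qq (vv u x) y`. `pyi` gives the hypothesis `H` of `average` for `v o = vv u (C.pt o)`,
`g o = √(C.G u o)`, `R = 2 ε² + ε² C₀ (vol + E u)` (note that `H` has the integrability as a hypothesis). So
 `2π³ ≤ √(1+τ²) (π²/m) vol + 2 (∫ √G) Lam + 2π R`, and `2 ∫ √G ≤ ∫ (1 + G) = vol + 2 E u`,
 `E u ≤ E u₁ + 1`. Let `ε → 0`: `2π³ ≤ √(1+τ²) (π²/m) vol + (vol + 2 E u₁ + 2) (Lam τ m).toReal`. Let `τ → 0`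
 (`tendsto_Lam`): `2π³ ≤ (π²/m) vol`.
(`ε → 0` can be replaced by `le_of_forall_pos_le_add`.)
-/

open MeasureTheory Set Filter Topology
open scoped ENNReal NNReal

namespace Pool.Agent.EWD

variable {M : Type} [MetricSpace M] [CompactSpace M] {γ : ℝ → M} (C : Calc M γ)

omit [CompactSpace M] in
private theorem fna_norm {n : ℕ} {u : Fin (n + 3) → M → ℝ} (hu : Sph γ u) (x : M) :
    ‖vv u x‖ ≤ 1 := by
  have h := hu.unit x
  rw [Fin.sum_univ_succ, Fin.sum_univ_succ, Fin.sum_univ_succ] at h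
  have h2 : 0 ≤ ∑ i : Fin n, u i.succ.succ.succ x ^ 2 := Finset.sum_nonneg fun i _ => sq_nonneg _
  have h3 : ‖vv u x‖ ^ 2 ≤ 1 := by
    rw [EuclideanSpace.norm_sq_eq, Fin.sum_univ_three]
    simp only [vv, Real.norm_eq_abs, sq_abs]
    simp only [Fin.succ_zero_eq_one, Fin.succ_one_eq_two] at h
    simp
    linarith
  nlinarith [norm_nonneg (vv u x)]

omit [CompactSpace M] in
private theorem fna_snoc {N : ℕ} {u : Fin N → M → ℝ} (hu : Sph γ u) :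
    Sph γ (Fin.snoc u (fun _ => 0) : Fin (N + 1) → M → ℝ) ∧
      C.E (Fin.snoc u (fun _ => 0) : Fin (N + 1) → M → ℝ) = C.E u := by
  refine ⟨⟨?_, ?_, ?_⟩, ?_⟩
  · intro i
    refine Fin.lastCases ?_ (fun j => ?_) i
    · rw [Fin.snoc_last]
      exact lip_const 0
    · rw [Fin.snoc_castSucc]
      exact hu.lip j
  · intro x
    rw [Fin.sum_univ_castSucc]
    simp only [Fin.snoc_castSucc, Fin.snoc_last]
    rw [hu.unit x]
    ring
  · intro i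
    refine Fin.lastCases ?_ (fun j => ?_) i
    · rw [Fin.snoc_last]
      intro t
      simp
    · rw [Fin.snoc_castSucc]
      exact hu.odd j
  · unfold Calc.E
    congr 2
    funext o
    unfold Calc.G
    rw [Fin.sum_univ_castSucc]
    simp only [Fin.snoc_castSucc, Fin.snoc_last]
    rw [(C.ae_const 0 o).1, (C.ae_const 0 o).2]
    ring

omit [CompactSpace M] in
private theorem fna_meas {n : ℕ} {u : Fin (n + 3) → M → ℝ} (hu : ∀ i, Lip (u i)) :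
    AEMeasurable (fun o => vv u (C.pt o)) C.μ := by
  unfold vv
  refine (WithLp.measurable_toLp (p := 2) (X := Fin 3 → ℝ)).comp_aemeasurable ?_
  refine aemeasurable_pi_lambda _ fun i => ?_
  fin_cases i
  · exact C.meas_pt (hu 0)
  · exact C.meas_pt (hu 1)
  · exact C.meas_pt (hu 2)

private theorem fna_step (hγ : Bd γ) {n : ℕ} {m : ℝ} (hm : 0 < m) {τ : ℝ} (hτ : 0 < τ) {C₀ : ℝ}
    (hC₀ : 0 ≤ C₀) (hC : ∀ {N : ℕ} (a b : Fin N → ℝ)
    (u : Fin N → M → ℝ) (Z : Finset M) (s : M → ℝ) (δ ε : ℝ), Ortho a b → Sph γ u →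
    C.NearMin u δ → C.Vort (lin a u) (lin b u) Z s →
    Integrable (fun o => √(C.G u o) / √(qf (lin a u) (lin b u) (C.pt o))) C.μ → 0 < ε → ε ≤ 1 →
    Real.pi ^ 2 ≤ ∫ o, KK τ (qf (lin a u) (lin b u) (C.pt o)) ∂C.μ
      + ∫ o, 2 * (√(C.G u o) * ll τ (qf (lin a u) (lin b u) (C.pt o))) ∂C.μ
      + (2 * δ / ε ^ 2 + ε ^ 2 * (C₀ * (C.vol + C.E u))))
    {u : Fin (n + 3) → M → ℝ} {ε : ℝ} (hε : 0 < ε) (hε1 : ε ≤ 1) (hu : Sph γ u)
    (hN : C.NearMin u (ε ^ 4)) (hmu : ∀ x, m ≤ ‖vv u x‖)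
    (H : ∀ᵐ y : E3, ∃ (a b : Fin (n + 3) → ℝ) (Z : Finset M) (s : M → ℝ), Ortho a b ∧
        (∀ x, qf (lin a u) (lin b u) x = qq (vv u x) y) ∧ C.Vort (lin a u) (lin b u) Z s)
    {E₁ : ℝ} (hE : C.E u ≤ E₁ + 1) :
    2 * Real.pi ^ 3 ≤ √(1 + τ ^ 2) * (Real.pi ^ 2 / m) * C.vol
      + (C.vol + 2 * E₁ + 2) * (Lam τ m).toReal
      + ε ^ 2 * (2 * Real.pi * (2 + C₀ * (C.vol + (E₁ + 1)))) := by
  haveI := C.fin
  have hpi := Real.pi_pos
  obtain ⟨B, hB0, hB⟩ := C.ae_G_le hu.lip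
  have hGm : AEMeasurable (fun o => √(C.G u o)) C.μ :=
    Real.continuous_sqrt.measurable.comp_aemeasurable (C.meas_G hu.lip)
  have hGB : ∀ᵐ o ∂C.μ, √(C.G u o) ≤ √B := by
    filter_upwards [hB] with o ho
    exact Real.sqrt_le_sqrt ho
  have hv0 := C.vol_nonneg
  have hE0 := C.E_nonneg u
  have hR : 0 ≤ 2 * ε ^ 4 / ε ^ 2 + ε ^ 2 * (C₀ * (C.vol + C.E u)) := by positivity
  have key := average C.μ (fna_meas C hu.lip) hm (fun o => hmu _) (fun o => fna_norm hu _) hGm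
    (fun o => Real.sqrt_nonneg _) hGB hτ hR (by
      filter_upwards [H] with y hy hint
      obtain ⟨a, b, Z, s, hab, hq, hV⟩ := hy
      have h := hC a b u Z s (ε ^ 4) ε hab hu hN hV (by simpa only [hq] using hint) hε hε1
      simpa only [hq] using h)
  have h2 : 2 * ∫ o, √(C.G u o) ∂C.μ ≤ C.vol + 2 * C.E u := by
    have e : C.vol + 2 * C.E u = ∫ o, (1 + C.G u o) ∂C.μ := by
      rw [integral_add (integrable_const _) (C.integrable_G hu.lip), C.integral_one]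
      unfold Calc.E
      ring
    rw [e, ← integral_const_mul]
    refine integral_mono_ae ?_ ((integrable_const _).add (C.integrable_G hu.lip)) ?_
    · refine (C.integrable_of_bdd hGm (B := √B) ?_).const_mul 2
      filter_upwards [hGB] with o ho
      rwa [abs_of_nonneg (Real.sqrt_nonneg _)]
    · refine Eventually.of_forall fun o => ?_
      have h3 := Real.sq_sqrt (C.G_nonneg u o)
      simp only
      nlinarith [sq_nonneg (√(C.G u o) - 1)]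
  have h4 : 2 * (∫ o, √(C.G u o) ∂C.μ) * (Lam τ m).toReal ≤
      (C.vol + 2 * E₁ + 2) * (Lam τ m).toReal := by
    refine mul_le_mul_of_nonneg_right ?_ ENNReal.toReal_nonneg
    linarith
  have h5 : 2 * ε ^ 4 / ε ^ 2 + ε ^ 2 * (C₀ * (C.vol + C.E u)) ≤
      ε ^ 2 * (2 + C₀ * (C.vol + (E₁ + 1))) := by
    have e : 2 * ε ^ 4 / ε ^ 2 = 2 * ε ^ 2 := by
      field_simp
    rw [e]
    have : C₀ * (C.vol + C.E u) ≤ C₀ * (C.vol + (E₁ + 1)) := by gcongr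
    nlinarith [sq_nonneg ε]
  have h6 := mul_le_mul_of_nonneg_left h5 (by positivity : (0 : ℝ) ≤ 2 * Real.pi)
  have h7 : (C.μ univ).toReal = C.vol := rfl
  rw [h7] at key
  nlinarith

theorem final_abs (hγ : Bd γ) {n : ℕ} {m : ℝ} (hm : 0 < m)
    (H : ∀ δ : ℝ, 0 < δ → ∃ u : Fin (n + 3) → M → ℝ, Sph γ u ∧ C.NearMin u δ ∧
      (∀ x, m ≤ ‖vv u x‖) ∧
      ∀ᵐ y : E3, ∃ (a b : Fin (n + 3) → ℝ) (Z : Finset M) (s : M → ℝ), Ortho a b ∧
        (∀ x, qf (lin a u) (lin b u) x = qq (vv u x) y) ∧ C.Vort (lin a u) (lin b u) Z s) :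
    2 * Real.pi * m ≤ C.vol := by
  have hpi := Real.pi_pos
  obtain ⟨u₁, hu₁, -, hm₁, -⟩ := H 1 one_pos
  have hm1 : m ≤ 1 := (hm₁ (γ 0)).trans (fna_norm hu₁ _)
  have hE : ∀ (δ : ℝ), δ ≤ 1 → ∀ u : Fin (n + 3) → M → ℝ, C.NearMin u δ →
      C.E u ≤ C.E u₁ + 1 := by
    intro δ hδ u hu
    have h := hu _ (fna_snoc C hu₁).1
    rw [(fna_snoc C hu₁).2] at h
    linarith
  have step : ∀ τ : ℝ, 0 < τ → 2 * Real.pi ^ 3 ≤ √(1 + τ ^ 2) * (Real.pi ^ 2 / m) * C.vol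
      + (C.vol + 2 * C.E u₁ + 2) * (Lam τ m).toReal := by
    intro τ hτ
    obtain ⟨C₀, hC₀, hC⟩ := pyi C hγ hτ
    set A : ℝ := 2 * Real.pi * (2 + C₀ * (C.vol + (C.E u₁ + 1))) with hA
    have hlim : Tendsto (fun ε : ℝ => √(1 + τ ^ 2) * (Real.pi ^ 2 / m) * C.vol
        + (C.vol + 2 * C.E u₁ + 2) * (Lam τ m).toReal + ε ^ 2 * A) (𝓝[>] 0)
        (𝓝 (√(1 + τ ^ 2) * (Real.pi ^ 2 / m) * C.vol
        + (C.vol + 2 * C.E u₁ + 2) * (Lam τ m).toReal)) := by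
      have hc : Continuous (fun ε : ℝ => √(1 + τ ^ 2) * (Real.pi ^ 2 / m) * C.vol
        + (C.vol + 2 * C.E u₁ + 2) * (Lam τ m).toReal + ε ^ 2 * A) := by fun_prop
      have h := (hc.tendsto 0).mono_left (nhdsWithin_le_nhds (s := Ioi (0 : ℝ)))
      simpa using h
    refine ge_of_tendsto hlim ?_
    filter_upwards [Ioc_mem_nhdsGT (zero_lt_one : (0 : ℝ) < 1)] with ε hε
    obtain ⟨u, hu, hN, hmu, hy⟩ := H (ε ^ 4) (pow_pos hε.1 4)
    exact fna_step C hγ hm hτ hC₀ hC hε.1 hε.2 hu hN hmu hy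
      (hE _ (pow_le_one₀ hε.1.le hε.2) u hN)
  have hlim : Tendsto (fun τ : ℝ => √(1 + τ ^ 2) * (Real.pi ^ 2 / m) * C.vol
      + (C.vol + 2 * C.E u₁ + 2) * (Lam τ m).toReal) (𝓝[>] 0)
      (𝓝 (√(1 + 0 ^ 2) * (Real.pi ^ 2 / m) * C.vol + (C.vol + 2 * C.E u₁ + 2) * 0)) := by
    refine Tendsto.add ?_ ((tendsto_Lam hm hm1).const_mul _)
    have hc : Continuous (fun τ : ℝ => √(1 + τ ^ 2) * (Real.pi ^ 2 / m) * C.vol) := by fun_prop
    exact (hc.tendsto 0).mono_left nhdsWithin_le_nhds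
  have hfin := ge_of_tendsto hlim (by
    filter_upwards [self_mem_nhdsWithin] with τ hτ
    exact step τ hτ)
  simp only [ne_eq, OfNat.ofNat_ne_zero, not_false_eq_true, zero_pow, add_zero, Real.sqrt_one,
    one_mul, mul_zero] at hfin
  have h1 : 2 * Real.pi ^ 3 * m ≤ Real.pi ^ 2 * C.vol := by
    have := mul_le_mul_of_nonneg_right hfin hm.le
    calc 2 * Real.pi ^ 3 * m ≤ Real.pi ^ 2 / m * C.vol * m := this
      _ = Real.pi ^ 2 * C.vol := by field_simp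
  have h2 : Real.pi ^ 2 * (2 * Real.pi * m) ≤ Real.pi ^ 2 * C.vol := by
    calc Real.pi ^ 2 * (2 * Real.pi * m) = 2 * Real.pi ^ 3 * m := by ring
      _ ≤ _ := h1
  exact le_of_mul_le_mul_left h2 (by positivity)

end Pool.Agent.EWD
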