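import Mathlib
import Pool.Agent.EWD.Defs

/-
MBD (helper81): two commuting involutions of the circle whose product is the antipodal map.
If both are dividing, then the half of one is invariant under the other.
-/

open Set Filter Topology

namespace Pool.Agent.EWD

/-- closed sets that cover the line, both nonempty, intersect -/
theorem mbd_conn {A B : Set ℝ} (hA : IsClosed A) (hB : IsClosed B) (hc : ∀ t, t ∈ A ∨ t ∈ B)
    (a : ∃ t, t ∈ A) (b : ∃ t, t ∈ B) : ∃ t, t ∈ A ∧ t ∈ B := by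
  have h := isPreconnected_closed_iff.1 isPreconnected_univ A B hA hB (fun t _ => hc t)
    (by obtain ⟨t, ht⟩ := a; exact ⟨t, mem_univ _, ht⟩)
    (by obtain ⟨t, ht⟩ := b; exact ⟨t, mem_univ _, ht⟩)
  obtain ⟨t, -, h1, h2⟩ := h
  exact ⟨t, h1, h2⟩

/-- a dividing involution has a fixed point on the curve -/
theorem mbd_fix {M : Type} [TopologicalSpace M] {γ : ℝ → M} (hγ : Continuous γ) {f : M → M}
    (hf : Continuous f) (inv : ∀ x, f (f x) = x) (bd : ∀ t, ∃ s, f (γ t) = γ s) {Q : Set M}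
    (cl : IsClosed Q) (cov : ∀ x, x ∈ Q ∨ f x ∈ Q) (mir : ∀ x, x ∈ Q → f x ∈ Q → f x = x) :
    ∃ t, f (γ t) = γ t := by
  have hA : IsClosed {t | γ t ∈ Q} := cl.preimage hγ
  have hB : IsClosed {t | f (γ t) ∈ Q} := cl.preimage (hf.comp hγ)
  have hAB : (∃ t, γ t ∈ Q) ∧ ∃ t, f (γ t) ∈ Q := by
    obtain ⟨s, hs⟩ := bd 0
    rcases cov (γ 0) with h | h
    · refine ⟨⟨0, h⟩, s, ?_⟩
      rw [← hs, inv]
      exact h
    · exact ⟨⟨s, hs ▸ h⟩, 0, h⟩
  obtain ⟨t, h1, h2⟩ := mbd_conn hA hB (fun t => cov (γ t)) hAB.1 hAB.2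
  exact ⟨t, mir _ h1 h2⟩

/-- the situation: `f`, `g` commuting involutions, `f (g (γ t)) = γ (t + π)` -/
theorem mbd {M : Type} [TopologicalSpace M] [T2Space M] {γ : ℝ → M} (hγ : Continuous γ)
    (per : ∀ t, γ (t + 2 * Real.pi) = γ t)
    (inj : ∀ s t, γ s = γ t → ∃ k : ℤ, s - t = k * (2 * Real.pi))
    {f g : M → M} (hf : Continuous f) (hg : Continuous g)
    (invf : ∀ x, f (f x) = x) (invg : ∀ x, g (g x) = x) (comm : ∀ x, f (g x) = g (f x))
    (bd : ∀ t, ∃ s, f (γ t) = γ s) (bdg : ∀ t, ∃ s, g (γ t) = γ s)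
    (J : ∀ t, f (g (γ t)) = γ (t + Real.pi)) {P Q : Set M}
    (clQ : IsClosed Q) (covQ : ∀ x, x ∈ Q ∨ f x ∈ Q) (mirQ : ∀ x, x ∈ Q → f x ∈ Q → f x = x)
    (clP : IsClosed P) (covP : ∀ x, x ∈ P ∨ g x ∈ P) (mirP : ∀ x, x ∈ P → g x ∈ P → g x = x)
    (t : ℝ) (ht : γ t ∈ Q) : g (γ t) ∈ Q := by
  have hpi := Real.pi_pos
  obtain ⟨t₀, h0⟩ := mbd_fix hγ hf invf bd clQ covQ mirQ
  obtain ⟨t₁, h1⟩ := mbd_fix hγ hg invg bdg clP covP mirP
  have perk : ∀ (k : ℤ) t, γ (t + k * (2 * Real.pi)) = γ t := by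
    intro k t
    have hp : Function.Periodic γ (2 * Real.pi) := per
    have := hp.int_mul k t
    simpa using this
  -- `g (γ t) = f (γ (t + π))`
  have gf : ∀ t, g (γ t) = f (γ (t + Real.pi)) := fun t => by rw [← J t, invf]
  -- `f` commutes with the antipodal map
  have fJ : ∀ s t, f (γ s) = γ t → f (γ (s + Real.pi)) = γ (t + Real.pi) := by
    intro s t h
    rw [← J s, invf, ← J t, ← h, ← comm (γ s), invf]
  have finj : ∀ x y, f x = f y → x = y := fun x y h => by rw [← invf x, h, invf]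
  -- the fixed point of `g` in the arc
  have hg1 : ∀ t, g (γ t) = γ t → g (γ (t + Real.pi)) = γ (t + Real.pi) := by
    intro t h
    rw [← J t, ← comm, invg, h]
  have hg2 : ∀ n : ℤ, g (γ (t₁ + n * Real.pi)) = γ (t₁ + n * Real.pi) := by
    intro n
    induction n using Int.induction_on with
    | zero => simpa using h1
    | succ n ih =>
      have h := hg1 _ ih
      push_cast at h ⊢
      have e : t₁ + (n : ℝ) * Real.pi + Real.pi = t₁ + ((n : ℝ) + 1) * Real.pi := by ring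
      rwa [e] at h
    | pred n ih =>
      have h := hg1 _ ih
      push_cast at h ⊢
      have e : t₁ + -(n : ℝ) * Real.pi + Real.pi = t₁ + (-(n : ℝ) - 1) * Real.pi + 2 * Real.pi := by
        ring
      rwa [e, per] at h
  obtain ⟨s, hs0, hs1, hs⟩ : ∃ s, t₀ ≤ s ∧ s < t₀ + Real.pi ∧ g (γ s) = γ s := by
    refine ⟨t₁ + (-⌊(t₁ - t₀) / Real.pi⌋ : ℤ) * Real.pi, ?_, ?_, hg2 _⟩
    · have h := Int.floor_le ((t₁ - t₀) / Real.pi)
      rw [le_div_iff₀ hpi] at h
      push_cast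
      linarith
    · have h := Int.lt_floor_add_one ((t₁ - t₀) / Real.pi)
      rw [div_lt_iff₀ hpi] at h
      push_cast
      linarith
  have kint : ∀ k : ℤ, ∀ c : ℝ, |c| < 2 * Real.pi → c = k * (2 * Real.pi) → c = 0 := by
    intro k c hc e
    have h : |(k : ℝ)| < 1 := by
      rw [e, abs_mul, abs_of_pos (by linarith : 0 < 2 * Real.pi)] at hc
      nlinarith
    have h2 : k = 0 := Int.abs_lt_one_iff.1 (by exact_mod_cast h)
    rw [e, h2]
    simp
  have hne : ∀ a b : ℝ, |a - b| < 2 * Real.pi → a ≠ b → γ a ≠ γ b := by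
    intro a b h1 h2 h
    obtain ⟨k, hk⟩ := inj a b h
    exact h2 (sub_eq_zero.1 (kint k _ h1 hk))
  have h0' : f (γ (t₀ + Real.pi)) = γ (t₀ + Real.pi) := fJ _ _ h0
  have hs2 : t₀ < s := by
    refine lt_of_le_of_ne hs0 fun h => ?_
    have h3 := J s
    rw [hs, ← h, h0] at h3
    exact hne t₀ (t₀ + Real.pi) (by rw [sub_add_cancel_left, abs_neg, abs_of_pos hpi]; linarith)
      (by linarith) h3
  -- normalisation
  have norm : ∀ r : ℝ, ∃ r', t₀ ≤ r' ∧ r' < t₀ + 2 * Real.pi ∧ γ r = γ r' := by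
    intro r
    refine ⟨r + (-⌊(r - t₀) / (2 * Real.pi)⌋ : ℤ) * (2 * Real.pi), ?_, ?_, (perk _ _).symm⟩
    · have h := Int.floor_le ((r - t₀) / (2 * Real.pi))
      rw [le_div_iff₀ (by linarith)] at h
      push_cast
      linarith
    · have h := Int.lt_floor_add_one ((r - t₀) / (2 * Real.pi))
      rw [div_lt_iff₀ (by linarith)] at h
      push_cast
      linarith
  have clA : IsClosed (γ '' Icc t₀ (t₀ + Real.pi)) := (isCompact_Icc.image hγ).isClosed
  have clB : IsClosed (γ '' Icc (t₀ + Real.pi) (t₀ + 2 * Real.pi)) :=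
    (isCompact_Icc.image hγ).isClosed
  have cov : ∀ r, γ r ∈ γ '' Icc t₀ (t₀ + Real.pi) ∨
      γ r ∈ γ '' Icc (t₀ + Real.pi) (t₀ + 2 * Real.pi) := by
    intro r
    obtain ⟨r', h1, h2, h3⟩ := norm r
    rcases le_total r' (t₀ + Real.pi) with h | h
    · exact Or.inl ⟨r', ⟨h1, h⟩, h3.symm⟩
    · exact Or.inr ⟨r', ⟨h, h2.le⟩, h3.symm⟩
  have cap : ∀ x, x ∈ γ '' Icc t₀ (t₀ + Real.pi) →
      x ∈ γ '' Icc (t₀ + Real.pi) (t₀ + 2 * Real.pi) → x = γ t₀ ∨ x = γ (t₀ + Real.pi) := by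
    rintro x ⟨a, ⟨ha1, ha2⟩, rfl⟩ ⟨b, ⟨hb1, hb2⟩, hab⟩
    by_cases h : |b - a| < 2 * Real.pi
    · right
      by_contra hcon
      have hba : b ≠ a := by
        rintro rfl
        exact hcon (by rw [le_antisymm ha2 hb1])
      exact hne b a h hba hab
    · left
      have h2 : 2 * Real.pi ≤ b - a := by
        rw [abs_of_nonneg (by linarith)] at h
        linarith
      have h3 : a = t₀ := by linarith
      rw [h3]
  have key : ∀ r ∈ Ioo t₀ (t₀ + Real.pi), f (γ r) ∉ γ '' Icc t₀ (t₀ + Real.pi) := by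
    intro r hr hcon
    obtain ⟨r', hr', h1, h2⟩ := isPreconnected_closed_iff.1 (isPreconnected_Ioo (a := t₀)
      (b := t₀ + Real.pi)) _ _ (clA.preimage (hf.comp hγ)) (clB.preimage (hf.comp hγ))
      (fun r _ => by
        obtain ⟨s, hs⟩ := bd r
        rcases cov s with h | h
        · left
          rw [mem_preimage, Function.comp_apply, hs]; exact h
        · right
          rw [mem_preimage, Function.comp_apply, hs]; exact h)
      ⟨r, hr, hcon⟩
      ⟨s, ⟨hs2, hs1⟩, by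
        have h := J s
        rw [hs] at h
        rw [mem_preimage, Function.comp_apply, h]
        exact ⟨s + Real.pi, ⟨by linarith, by linarith⟩, rfl⟩⟩
    have h3 : γ r' = γ t₀ ∨ γ r' = γ (t₀ + Real.pi) := by
      rcases cap _ h1 h2 with h | h
      · left
        refine finj _ _ ?_
        rw [h0]; exact h
      · right
        refine finj _ _ ?_
        rw [h0']; exact h
    rcases h3 with h | h
    · exact hne _ _ (by rw [abs_of_nonneg (by linarith [hr'.1])]; linarith [hr'.2]) hr'.1.ne' h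
    · exact hne _ _ (by
        rw [abs_of_nonpos (by linarith [hr'.2])]; linarith [hr'.1]) hr'.2.ne h
  have arc : ∀ r ∈ Ioo t₀ (t₀ + Real.pi), ∃ r' ∈ Ioo t₀ (t₀ + Real.pi),
      f (γ r) = γ (r' + Real.pi) := by
    intro r hr
    obtain ⟨a, ha⟩ := bd r
    obtain ⟨a', h1, h2, h3⟩ := norm a
    rw [h3] at ha
    have h4 : t₀ + Real.pi < a' := by
      by_contra hcon
      exact key r hr ⟨a', ⟨h1, not_lt.1 hcon⟩, ha.symm⟩
    refine ⟨a' - Real.pi, ⟨by linarith, by linarith⟩, ?_⟩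
    rw [ha, sub_add_cancel]
  have dich : (∀ r ∈ Ioo t₀ (t₀ + Real.pi), γ r ∈ Q ∧ f (γ r) ∉ Q) ∨
      (∀ r ∈ Ioo t₀ (t₀ + Real.pi), f (γ r) ∈ Q ∧ γ r ∉ Q) := by
    have dis : ∀ r ∈ Ioo t₀ (t₀ + Real.pi), γ r ∈ Q → f (γ r) ∈ Q → False := by
      intro r hr h1 h2
      have h3 := mirQ _ h1 h2
      refine key r hr ?_
      rw [h3]
      exact ⟨r, Ioo_subset_Icc_self hr, rfl⟩
    by_cases hA : ∃ r ∈ Ioo t₀ (t₀ + Real.pi), γ r ∈ Q
    · left
      intro r hr
      have h1 : γ r ∈ Q := by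
        by_contra hcon
        obtain ⟨r₁, hr₁, h₁⟩ := hA
        obtain ⟨r', hr', h1, h2⟩ := isPreconnected_closed_iff.1 (isPreconnected_Ioo (a := t₀)
          (b := t₀ + Real.pi)) _ _ (clQ.preimage hγ) (clQ.preimage (hf.comp hγ))
          (fun r _ => covQ (γ r)) ⟨r₁, hr₁, h₁⟩ ⟨r, hr, (covQ (γ r)).resolve_left hcon⟩
        exact dis r' hr' h1 h2
      exact ⟨h1, fun h2 => dis r hr h1 h2⟩
    · right
      intro r hr
      have h1 : γ r ∉ Q := fun h => hA ⟨r, hr, h⟩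
      exact ⟨(covQ (γ r)).resolve_left h1, h1⟩
  have fixQ : ∀ x, f x = x → x ∈ Q := by
    intro x hx
    rcases covQ x with h | h
    · exact h
    · rwa [hx] at h
  obtain ⟨r, hr0, hr1, hr⟩ := norm t
  rw [hr] at ht ⊢
  rcases hr0.eq_or_lt with e | hr0
  · rw [← e, gf, h0']
    exact fixQ _ h0'
  rcases lt_trichotomy r (t₀ + Real.pi) with h | h | h
  · obtain ⟨r', hr', h2⟩ := arc r ⟨hr0, h⟩
    rcases dich with hd | hd
    · have h3 : g (γ r) = γ r' := by
        rw [gf, fJ _ _ h2]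
        have e : r' + Real.pi + Real.pi = r' + 2 * Real.pi := by ring
        rw [e, per]
      rw [h3]
      exact (hd r' hr').1
    · exact absurd ht (hd r ⟨hr0, h⟩).2
  · rw [h, gf]
    have e : t₀ + Real.pi + Real.pi = t₀ + 2 * Real.pi := by ring
    rw [e, per, h0]
    exact fixQ _ h0
  · have hI : r - Real.pi ∈ Ioo t₀ (t₀ + Real.pi) := ⟨by linarith, by linarith⟩
    obtain ⟨r', hr', h2⟩ := arc _ hI
    have h3 : f (γ r) = γ r' := by
      have h4 := fJ _ _ h2
      rw [sub_add_cancel] at h4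
      rw [h4]
      have e : r' + Real.pi + Real.pi = r' + 2 * Real.pi := by ring
      rw [e, per]
    rcases dich with hd | hd
    · have h5 := (hd r' hr').2
      rw [← h3, invf] at h5
      exact absurd ht h5
    · rw [gf]
      have e : r + Real.pi = r - Real.pi + 2 * Real.pi := by ring
      rw [e, per]
      exact (hd _ hI).1

end Pool.Agent.EWD
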