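import Mathlib
import Pool.Agent.EWD.Defs
import Pool.Agent.EWD.LPA
import Pool.Agent.EWD.THP

/-
NEX: odd maps into the sphere exist.  [about 120 lines]

As in THP: for `t ≤ s ≤ t + π`, `dist (γ t) (γ s) = s - t` and `dist (γ (t + π)) (γ (s + π)) = dist (γ t) (γ s)` for all
`t, s` (copy the lemma from outputs/live/Pool/Agent/EWD/THP.lean). Let
 `f₁ x = (dist x (γ π) - dist x (γ 0))/2`, `f₂ x = (dist x (γ (3π/2)) - dist x (γ (π/2)))/2`, `f₃ x = infDist x (range γ)`.
They are Lipschitz; `f₁, f₂` are odd on the boundary, `f₃` vanishes there. `f₁² + f₂² + f₃² > 0` everywhere: if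
`x ∉ range γ` then `f₃ x > 0` (the range is compact: image of `[0, 2π]`); if `x = γ t`, `t ∈ [0, 2π)`: `f₁ (γ t) = π/2 - t` for
`0 ≤ t ≤ π` and `t - 3π/2` for `π ≤ t ≤ 2π`, zero only for `t = π/2, 3π/2`, where `f₂ = ±π/2`. By compactness
`f₁² + f₂² + f₃² ≥ c > 0`. Divide by the square root (`Lip.sqrt`, `Lip.div`), fourth component 0.
-/

open MeasureTheory Set Filter Topology
open scoped ENNReal NNReal

namespace Pool.Agent.EWD

variable {M : Type} [MetricSpace M] [CompactSpace M] {γ : ℝ → M}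

private theorem nex_le (hγ : Bd γ) {t s : ℝ} (h : t ≤ s) : dist (γ t) (γ s) ≤ s - t := by
  have h1 := hγ.lip.dist_le_mul t s
  rw [Real.dist_eq, abs_sub_comm, abs_of_nonneg (by linarith)] at h1
  simpa using h1

private theorem nex_eq (hγ : Bd γ) {t s : ℝ} (h : t ≤ s) (h' : s ≤ t + Real.pi) :
    dist (γ t) (γ s) = s - t := by
  have h1 := hγ.anti t
  have h2 := dist_triangle (γ t) (γ s) (γ (t + Real.pi))
  have h3 := nex_le hγ h'
  have h4 := nex_le hγ h
  linarith

private theorem nex_shift (hγ : Bd γ) (t s : ℝ) :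
    dist (γ (t + Real.pi)) (γ (s + Real.pi)) = dist (γ t) (γ s) := by
  have hpi := Real.pi_pos
  have hp : Function.Periodic γ (2 * Real.pi) := hγ.per
  obtain ⟨k, hk, -⟩ := existsUnique_add_zsmul_mem_Ico (by linarith : (0 : ℝ) < 2 * Real.pi) s t
  have e1 : γ (s + k • (2 * Real.pi)) = γ s := (hp.zsmul k) s
  have e2 : γ (s + k • (2 * Real.pi) + Real.pi) = γ (s + Real.pi) := by
    have := (hp.zsmul k) (s + Real.pi)
    rw [← this]
    congr 1
    ring
  rw [← e1, ← e2]
  generalize s + k • (2 * Real.pi) = s' at hk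
  obtain ⟨hk1, hk2⟩ := hk
  by_cases hc : s' ≤ t + Real.pi
  · rw [nex_eq hγ hk1 hc, nex_eq hγ (by linarith) (by linarith)]
    ring
  · push Not at hc
    have f1 : γ (t + 2 * Real.pi) = γ t := hγ.per t
    have f2 : γ (t + 2 * Real.pi + Real.pi) = γ (t + Real.pi) := by
      rw [← hγ.per (t + Real.pi)]
      congr 1
      ring
    rw [← f1, ← f2, dist_comm, dist_comm (γ (t + 2 * Real.pi)),
      nex_eq hγ (by linarith) (by linarith), nex_eq hγ (by linarith) (by linarith)]
    ring

/-- half of the difference of the distances to two opposite points -/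
private noncomputable def nexF (γ : ℝ → M) (a : ℝ) (x : M) : ℝ := (dist x (γ (a + Real.pi)) - dist x (γ a)) / 2

private theorem nexF_lip (a : ℝ) : Lip (nexF γ a) := by
  have h1 : Lip (fun x : M => dist x (γ (a + Real.pi))) := ⟨1, LipschitzWith.dist_left _⟩
  have h2 : Lip (fun x : M => dist x (γ a)) := ⟨1, LipschitzWith.dist_left _⟩
  have h3 := (h1.sub h2).const_mul (1 / 2)
  have e : nexF γ a = fun x => 1 / 2 * (dist x (γ (a + Real.pi)) - dist x (γ a)) := by
    funext x
    rw [nexF]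
    ring
  rw [e]
  exact h3

private theorem nexF_odd (hγ : Bd γ) (a : ℝ) : OddB γ (nexF γ a) := by
  intro t
  have e : γ a = γ (a + Real.pi + Real.pi) := by
    rw [← hγ.per a]
    congr 1
    ring
  have h1 := nex_shift hγ t a
  have h2 := nex_shift hγ t (a + Real.pi)
  rw [← e] at h2
  rw [nexF, nexF, h1, h2]
  ring

private theorem nexF_zero (hγ : Bd γ) {t : ℝ} (h0 : 0 ≤ t) (h2 : t < 2 * Real.pi) (h : nexF γ 0 (γ t) = 0) :
    t = Real.pi / 2 ∨ t = 3 * Real.pi / 2 := by
  have hpi := Real.pi_pos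
  rw [nexF, zero_add] at h
  by_cases ht : t ≤ Real.pi
  · left
    have e1 : dist (γ t) (γ Real.pi) = Real.pi - t := nex_eq hγ ht (by linarith)
    have e2 : dist (γ t) (γ 0) = t - 0 := by
      rw [dist_comm]
      exact nex_eq hγ h0 (by linarith)
    rw [e1, e2] at h
    linarith
  · right
    push Not at ht
    have e0 : γ 0 = γ (2 * Real.pi) := by
      rw [← hγ.per 0, zero_add]
    have e1 : dist (γ t) (γ Real.pi) = t - Real.pi := by
      rw [dist_comm]
      exact nex_eq hγ ht.le (by linarith)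
    have e2 : dist (γ t) (γ 0) = 2 * Real.pi - t := by
      rw [e0]
      exact nex_eq hγ h2.le (by linarith)
    rw [e1, e2] at h
    linarith

private theorem nex_pos (hγ : Bd γ) (t : ℝ) : 0 < nexF γ 0 (γ t) ^ 2 + nexF γ (Real.pi / 2) (γ t) ^ 2 := by
  have hpi := Real.pi_pos
  have hp : Function.Periodic γ (2 * Real.pi) := hγ.per
  obtain ⟨k, hk, -⟩ := existsUnique_add_zsmul_mem_Ico (by linarith : (0 : ℝ) < 2 * Real.pi) t 0
  have e1 : γ (t + k • (2 * Real.pi)) = γ t := (hp.zsmul k) t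
  rw [← e1]
  generalize t + k • (2 * Real.pi) = t' at hk
  obtain ⟨hk1, hk2⟩ := hk
  by_cases h : nexF γ 0 (γ t') = 0
  · have h3 : dist (γ (Real.pi / 2)) (γ (Real.pi / 2 + Real.pi)) = Real.pi := by
      rw [nex_eq hγ (by linarith) le_rfl]
      ring
    rcases nexF_zero hγ hk1 (by linarith) h with rfl | h4
    · have h5 : nexF γ (Real.pi / 2) (γ (Real.pi / 2)) = Real.pi / 2 := by
        rw [nexF, h3, dist_self, sub_zero]
      rw [h5]
      positivity
    · have e3 : t' = Real.pi / 2 + Real.pi := by linarith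
      have h5 : nexF γ (Real.pi / 2) (γ t') = -(Real.pi / 2) := by
        rw [e3, nexF, dist_self, dist_comm, h3]
        ring
      rw [h5]
      have : 0 < (Real.pi / 2) ^ 2 := by positivity
      nlinarith [sq_nonneg (nexF γ 0 (γ t'))]
  · have h4 : 0 < nexF γ 0 (γ t') ^ 2 := by positivity
    nlinarith [sq_nonneg (nexF γ (Real.pi / 2) (γ t'))]

private theorem nex_range (hγ : Bd γ) : IsClosed (range γ) := by
  have hp : Function.Periodic γ (2 * Real.pi) := hγ.per
  have hpi := Real.pi_pos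
  have e : range γ = γ '' (Icc 0 (0 + 2 * Real.pi)) := (hp.image_Icc (by linarith) 0).symm
  rw [e]
  exact (isCompact_Icc.image hγ.lip.continuous).isClosed

theorem exists_sph (hγ : Bd γ) : ∃ w : Fin 4 → M → ℝ, Sph γ w := by
  have hL1 := nexF_lip (γ := γ) 0
  have hL2 := nexF_lip (γ := γ) (Real.pi / 2)
  have hL3 : Lip (fun x : M => Metric.infDist x (range γ)) := ⟨1, Metric.lipschitz_infDist_pt _⟩
  obtain ⟨q, hq⟩ : ∃ q : M → ℝ, q = fun x => nexF γ 0 x ^ 2 + nexF γ (Real.pi / 2) x ^ 2 +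
    Metric.infDist x (range γ) ^ 2 := ⟨_, rfl⟩
  have hLq : Lip q := by
    rw [hq]
    exact ((hL1.pow 2).add (hL2.pow 2)).add (hL3.pow 2)
  have hpos : ∀ x, 0 < q x := by
    intro x
    rw [hq]
    by_cases hx : x ∈ range γ
    · obtain ⟨t, rfl⟩ := hx
      have h1 := nex_pos hγ t
      have h2 := sq_nonneg (Metric.infDist (γ t) (range γ))
      simp only
      linarith
    · have h1 : 0 < Metric.infDist x (range γ) := ((nex_range hγ).notMem_iff_infDist_pos ⟨γ 0, mem_range_self 0⟩).1 hx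
      have h2 := sq_nonneg (nexF γ 0 x)
      have h3 := sq_nonneg (nexF γ (Real.pi / 2) x)
      have h4 : 0 < Metric.infDist x (range γ) ^ 2 := by positivity
      simp only
      linarith
  obtain ⟨x0, -, hx0⟩ := isCompact_univ.exists_isMinOn ⟨γ 0, mem_univ (γ 0)⟩ hLq.cont.continuousOn
  have hc := hpos x0
  have hmin : ∀ x, q x0 ≤ q x := fun x => hx0 (mem_univ x)
  have hLs : Lip (fun x => √(q x)) := hLq.sqrt hc hmin
  have hs : ∀ x, √(q x0) ≤ √(q x) := fun x => Real.sqrt_le_sqrt (hmin x)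
  have hs0 : 0 < √(q x0) := Real.sqrt_pos.2 hc
  have hoddq : ∀ t, q (γ (t + Real.pi)) = q (γ t) := by
    intro t
    have h3 : ∀ s, Metric.infDist (γ s) (range γ) = 0 := fun s =>
      Metric.infDist_zero_of_mem (mem_range_self s)
    rw [hq]
    simp only
    rw [nexF_odd hγ 0 t, nexF_odd hγ (Real.pi / 2) t, h3, h3]
    ring
  refine ⟨![fun x => nexF γ 0 x / √(q x), fun x => nexF γ (Real.pi / 2) x / √(q x),
    fun x => Metric.infDist x (range γ) / √(q x), fun _ => 0], ?_, ?_, ?_⟩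
  · intro i
    fin_cases i
    · exact hL1.div hLs hs0 hs
    · exact hL2.div hLs hs0 hs
    · exact hL3.div hLs hs0 hs
    · exact lip_const 0
  · intro x
    have h1 : √(q x) ≠ 0 := (Real.sqrt_pos.2 (hpos x)).ne'
    have h2 : √(q x) ^ 2 = q x := Real.sq_sqrt (hpos x).le
    have h3 : q x = nexF γ 0 x ^ 2 + nexF γ (Real.pi / 2) x ^ 2 + Metric.infDist x (range γ) ^ 2 := by
      rw [hq]
    simp only [Fin.sum_univ_four, Matrix.cons_val_zero, Matrix.cons_val_one, Matrix.cons_val]
    rw [div_pow, div_pow, div_pow, h2, ← add_div, ← add_div, ← h3]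
    have := (hpos x).ne'
    simp [this]
  · intro i t
    fin_cases i
    · show nexF γ 0 (γ (t + Real.pi)) / √(q (γ (t + Real.pi))) = -(nexF γ 0 (γ t) / √(q (γ t)))
      rw [nexF_odd hγ 0 t, hoddq, neg_div]
    · show nexF γ (Real.pi / 2) (γ (t + Real.pi)) / √(q (γ (t + Real.pi))) = -(nexF γ (Real.pi / 2) (γ t) / √(q (γ t)))
      rw [nexF_odd hγ _ t, hoddq, neg_div]
    · show Metric.infDist (γ (t + Real.pi)) (range γ) / √(q (γ (t + Real.pi))) =
        -(Metric.infDist (γ t) (range γ) / √(q (γ t)))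
      rw [Metric.infDist_zero_of_mem (mem_range_self _), Metric.infDist_zero_of_mem (mem_range_self _)]
      simp
    · show (0 : ℝ) = -0
      simp

end Pool.Agent.EWD
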