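import Mathlib
import Pool.Agent.EWD.Defs

/-
SYD: definitions for the symmetric case (helper81). Complete.
`Mir γ σ τ P Q`: two commuting involutions `σ, τ` of `M` that preserve the boundary curve, on which
their product is the antipodal map; `P` is a half of `M` for `σ`, `Q` a half for `τ`.
`pA, pB, pC, pD`: the four isotypic parts of a map. `symm w`: the symmetrised map into the sphere `S²`.
-/

open MeasureTheory Set Filter Topology
open scoped ENNReal NNReal

noncomputable section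

namespace Pool.Agent.EWD

/-- two commuting dividing reflections -/
structure Mir {M : Type} [MetricSpace M] (γ : ℝ → M) (σ τ : M → M) (P Q : Set M) : Prop where
  invS : ∀ x, σ (σ x) = x
  invT : ∀ x, τ (τ x) = x
  comm : ∀ x, σ (τ x) = τ (σ x)
  bdS : ∀ t : ℝ, ∃ s : ℝ, σ (γ t) = γ s
  bdJ : ∀ t : ℝ, σ (τ (γ t)) = γ (t + Real.pi)
  clP : IsClosed P
  clQ : IsClosed Q
  covP : ∀ x, x ∈ P ∨ σ x ∈ P
  covQ : ∀ x, x ∈ Q ∨ τ x ∈ Q
  mirP : ∀ x, x ∈ P → σ x ∈ P → σ x = x
  mirQ : ∀ x, x ∈ Q → τ x ∈ Q → τ x = x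
  invP : ∀ t : ℝ, γ t ∈ P → τ (γ t) ∈ P
  invQ : ∀ t : ℝ, γ t ∈ Q → σ (γ t) ∈ Q

/-- between points of two closed sets that cover the space there are almost geodesic points that
belong to both sets -/
def Betw (M : Type) [MetricSpace M] : Prop :=
  ∀ A B : Set M, IsClosed A → IsClosed B → A ∪ B = univ → ∀ x ∈ A, ∀ y ∈ B, ∀ ε : ℝ, 0 < ε →
    ∃ c ∈ A ∩ B, dist x c + dist c y ≤ dist x y + ε

variable {M : Type}

/-- the part that is even under `σ`, odd under `τ` -/
def pA (σ τ : M → M) {N : ℕ} (w : Fin N → M → ℝ) (j : Fin N) (x : M) : ℝ :=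
  (w j x + w j (σ x) - w j (τ x) - w j (σ (τ x))) / 4

/-- the part that is odd under `σ`, even under `τ` -/
def pB (σ τ : M → M) {N : ℕ} (w : Fin N → M → ℝ) (j : Fin N) (x : M) : ℝ :=
  (w j x - w j (σ x) + w j (τ x) - w j (σ (τ x))) / 4

/-- the part that is even under both -/
def pC (σ τ : M → M) {N : ℕ} (w : Fin N → M → ℝ) (j : Fin N) (x : M) : ℝ :=
  (w j x + w j (σ x) + w j (τ x) + w j (σ (τ x))) / 4

/-- the part that is odd under both -/
def pD (σ τ : M → M) {N : ℕ} (w : Fin N → M → ℝ) (j : Fin N) (x : M) : ℝ :=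
  (w j x - w j (σ x) - w j (τ x) + w j (σ (τ x))) / 4

open Classical in
/-- the norm of `v` with the sign `+` on `Q` and `-` outside -/
def sgnorm {N : ℕ} (Q : Set M) (v : Fin N → M → ℝ) (x : M) : ℝ :=
  if x ∈ Q then √(∑ j, v j x ^ 2) else -√(∑ j, v j x ^ 2)

/-- the symmetrised map -/
def symm (σ τ : M → M) (P Q : Set M) {N : ℕ} (w : Fin N → M → ℝ) : Fin 3 → M → ℝ :=
  ![sgnorm Q (pA σ τ w), sgnorm P (pB σ τ w),
    fun x => √(∑ j, (pC σ τ w j x ^ 2 + pD σ τ w j x ^ 2))]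

end Pool.Agent.EWD
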