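import Mathlib
import Pool.Agent.EWD.GDF
import Pool.Agent.EWD.SYD

/-
PTH: `M` has the property `Betw`.  [about 100 lines]

`x ∈ A`, `y ∈ B`, `ε > 0`. `edist x y = riemannianEDist x y` (`IsRiemannianManifold.out`), which is the infimum of the
lengths of `C¹` paths: `exists_lt_of_riemannianEDist_lt` gives a path `η : ℝ → M`, `C¹` on `[0, 1]`, from `x` to `y` with
`pathELength η 0 1 < ofReal (dist x y + ε)` (see the proof of `rlow_dist` in outputs/live/Pool/Agent/MIR/RLow.lean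
lines 261-306 for the use of these lemmas). `[0, 1]` is connected and covered by the closed sets
`η⁻¹ A ∋ 0`, `η⁻¹ B ∋ 1`, so some `t ∈ [0, 1]` has `c = η t ∈ A ∩ B` (`isPreconnected_Icc`,
`isPreconnected_closed_iff`). `edist x c ≤ pathELength η 0 t`, `edist c y ≤ pathELength η t 1`
(`riemannianEDist_le_pathELength`), and the lengths add (`pathELength_add`).
-/

open MeasureTheory Set Filter Measure Manifold Bundle
open scoped ContDiff Topology ENNReal NNReal

set_option linter.unusedSectionVars false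

namespace Pool.Agent.EWD

open Pool.Agent.H74.FAC

variable {M : Type} [MetricSpace M] [ChartedSpace HP M] [IsManifold (𝓡∂ 2) ∞ M] [CompactSpace M]
  [RiemannianBundle (fun x : M => TangentSpace (𝓡∂ 2) x)]
  [IsContMDiffRiemannianBundle (𝓡∂ 2) ∞ E2 (fun x : M => TangentSpace (𝓡∂ 2) x)]
  [IsRiemannianManifold (𝓡∂ 2) M]

theorem betw : Betw M := by
  intro A B hA hB hAB x hx y hy ε hε
  have hd0 : 0 < dist x y + ε := add_pos_of_nonneg_of_pos dist_nonneg hε
  have hd : riemannianEDist (𝓡∂ 2) x y < ENNReal.ofReal (dist x y + ε) := by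
    rw [← IsRiemannianManifold.out (I := 𝓡∂ 2), edist_dist]
    exact (ENNReal.ofReal_lt_ofReal_iff hd0).2 (by linarith)
  obtain ⟨η, h0, h1, hs, hl⟩ := exists_lt_of_riemannianEDist_lt hd
  have hc : ContinuousOn η (Icc 0 1) := hs.continuousOn
  obtain ⟨t, ht, hAt, hBt⟩ : ∃ t ∈ Icc (0 : ℝ) 1, η t ∈ A ∧ η t ∈ B := by
    have hpre : IsPreconnected (η '' Icc 0 1) := isPreconnected_Icc.image η hc
    obtain ⟨_, ⟨t, ht, rfl⟩, hA', hB'⟩ := isPreconnected_closed_iff.1 hpre A B hA hB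
      (by rw [hAB]; exact subset_univ _)
      ⟨x, ⟨0, left_mem_Icc.2 zero_le_one, h0⟩, hx⟩ ⟨y, ⟨1, right_mem_Icc.2 zero_le_one, h1⟩, hy⟩
    exact ⟨t, ht, hA', hB'⟩
  refine ⟨η t, ⟨hAt, hBt⟩, ?_⟩
  have e1 : edist x (η t) ≤ pathELength (𝓡∂ 2) η 0 t := by
    rw [IsRiemannianManifold.out (I := 𝓡∂ 2)]
    exact riemannianEDist_le_pathELength (hs.mono (Icc_subset_Icc_right ht.2)) h0 rfl ht.1
  have e2 : edist (η t) y ≤ pathELength (𝓡∂ 2) η t 1 := by
    rw [IsRiemannianManifold.out (I := 𝓡∂ 2)]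
    exact riemannianEDist_le_pathELength (hs.mono (Icc_subset_Icc_left ht.1)) rfl h1 ht.2
  have e3 : edist x (η t) + edist (η t) y < ENNReal.ofReal (dist x y + ε) := by
    refine (add_le_add e1 e2).trans_lt ?_
    rw [pathELength_add ht.1 ht.2]
    exact hl
  rw [edist_dist, edist_dist, ← ENNReal.ofReal_add dist_nonneg dist_nonneg] at e3
  exact ((ENNReal.ofReal_lt_ofReal_iff hd0).1 e3).le

end Pool.Agent.EWD
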