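import Mathlib
import Pool.Agent.EWD.GDF
import Pool.Agent.EWD.C1L
import Pool.Agent.MIR.SLip

/-
SLP: smooth maps `M → M` are Lipschitz (this is `slip_main` of `Pool.Agent.MIR.SLip`).
-/

open MeasureTheory Set Filter Measure Manifold Bundle
open scoped ContDiff Topology ENNReal NNReal

set_option linter.unusedSectionVars false

namespace Pool.Agent.EWD

open Pool.Agent.H74.FAC

variable {M : Type} [MetricSpace M] [ChartedSpace HP M] [IsManifold (𝓡∂ 2) ∞ M] [CompactSpace M]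
  [RiemannianBundle (fun x : M => TangentSpace (𝓡∂ 2) x)]
  [IsContMDiffRiemannianBundle (𝓡∂ 2) ∞ E2 (fun x : M => TangentSpace (𝓡∂ 2) x)]
  [IsRiemannianManifold (𝓡∂ 2) M]

theorem smooth_lip {σ : M → M} (hσ : ContMDiff (𝓡∂ 2) (𝓡∂ 2) ∞ σ) :
    ∃ K : ℝ≥0, LipschitzWith K σ :=
  Pool.Agent.MIR.slip_main hσ

end Pool.Agent.EWD
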