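import Mathlib
import Pool.Agent.EWD.Defs
import Pool.Agent.EWD.SYD

/-
SYA: algebra of the symmetrisation.  [about 150 lines]

`J = σ ∘ τ`; `J (γ t) = γ (t + π)` by `bdJ`.
`sum_parts`: `pA² + pB² + pC² + pD² = (w(x)² + w(σx)² + w(τx)² + w(στx)²)/4` (`ring`).
`pA (τ x) = - pA x`, `pA (σ x) = pA x`, `pB (σ x) = - pB x`, `pB (τ x) = pB x` (`invS`, `invT`, `comm`).
On the boundary `pC = pD = 0`: with `OddB`: `w(γ(π - t)) = - w(γ(-t))`, `w(γ(t - π)) = - w(γ t)`.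
`sgnorm_odd`: `sgnorm Q (pA w) (γ (t + π)) = - sgnorm Q (pA w) (γ t)`: `x = γ t`, `J x = σ (τ x)`,
 `pA (J x) = - pA x`, so the norms agree. If `x ∈ Q` and `J x ∈ Q`, then `τ x ∈ Q` (apply `σ`: `invQ`), so
 `τ x = x` (`mirQ`) and `pA x = 0`. If `x ∉ Q` then `τ x ∈ Q` (`covQ`), `J x = σ (τ x) ∈ Q` (`invQ`). The remaining
 case has opposite signs. Same for `P`, `pB` (with `J x = τ (σ x)`).
`sgnorm_mirror`: `pA` vanishes on `Q ∩ {x | τ x ∈ Q}`.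
-/

open MeasureTheory Set Filter Topology
open scoped ENNReal NNReal

namespace Pool.Agent.EWD

variable {M : Type} [MetricSpace M] {γ : ℝ → M} {σ τ : M → M} {P Q : Set M}

theorem sum_parts (σ τ : M → M) {N : ℕ} (w : Fin N → M → ℝ) (j : Fin N) (x : M) :
    pA σ τ w j x ^ 2 + pB σ τ w j x ^ 2 + pC σ τ w j x ^ 2 + pD σ τ w j x ^ 2
      = (w j x ^ 2 + w j (σ x) ^ 2 + w j (τ x) ^ 2 + w j (σ (τ x)) ^ 2) / 4 := by
  unfold pA pB pC pD
  ring

theorem sgnorm_sq {N : ℕ} (Q : Set M) (v : Fin N → M → ℝ) (x : M) :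
    sgnorm Q v x ^ 2 = ∑ j, v j x ^ 2 := by
  have h0 : 0 ≤ ∑ j, v j x ^ 2 := Finset.sum_nonneg fun j _ => sq_nonneg _
  unfold sgnorm
  split_ifs
  · exact Real.sq_sqrt h0
  · rw [neg_sq]
    exact Real.sq_sqrt h0

theorem symm_unit {N : ℕ} {w : Fin N → M → ℝ} (hw : ∀ x, ∑ j, w j x ^ 2 = 1) (x : M) :
    ∑ i, symm σ τ P Q w i x ^ 2 = 1 := by
  have h0 : 0 ≤ ∑ j, (pC σ τ w j x ^ 2 + pD σ τ w j x ^ 2) :=
    Finset.sum_nonneg fun j _ => add_nonneg (sq_nonneg _) (sq_nonneg _)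
  rw [Fin.sum_univ_three]
  show sgnorm Q (pA σ τ w) x ^ 2 + sgnorm P (pB σ τ w) x ^ 2
    + (√(∑ j, (pC σ τ w j x ^ 2 + pD σ τ w j x ^ 2))) ^ 2 = 1
  rw [sgnorm_sq, sgnorm_sq, Real.sq_sqrt h0, ← Finset.sum_add_distrib, ← Finset.sum_add_distrib]
  have h1 : ∀ j ∈ (Finset.univ : Finset (Fin N)), pA σ τ w j x ^ 2 + pB σ τ w j x ^ 2
      + (pC σ τ w j x ^ 2 + pD σ τ w j x ^ 2)
      = (w j x ^ 2 + w j (σ x) ^ 2 + w j (τ x) ^ 2 + w j (σ (τ x)) ^ 2) / 4 := by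
    intro j _
    rw [← sum_parts σ τ w j x]
    ring
  rw [Finset.sum_congr rfl h1, ← Finset.sum_div, Finset.sum_add_distrib, Finset.sum_add_distrib,
    Finset.sum_add_distrib, hw, hw, hw, hw]
  norm_num

theorem pA_mirror (h : Mir γ σ τ P Q) {N : ℕ} (w : Fin N → M → ℝ) (j : Fin N) {x : M} (hx : x ∈ Q)
    (hx' : τ x ∈ Q) : pA σ τ w j x = 0 := by
  unfold pA
  rw [h.mirQ x hx hx']
  ring

theorem pB_mirror (h : Mir γ σ τ P Q) {N : ℕ} (w : Fin N → M → ℝ) (j : Fin N) {x : M} (hx : x ∈ P)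
    (hx' : σ x ∈ P) : pB σ τ w j x = 0 := by
  unfold pB
  rw [h.comm x, h.mirP x hx hx']
  ring

private theorem J_eq (h : Mir γ σ τ P Q) (t : ℝ) :
    γ (t + Real.pi) = σ (τ (γ t)) := by
  exact (h.bdJ t).symm

private theorem tst (h : Mir γ σ τ P Q) (x : M) : τ (σ (τ x)) = σ x := by
  rw [← h.comm, h.invT]

private theorem pA_J (h : Mir γ σ τ P Q) {N : ℕ} (w : Fin N → M → ℝ) (j : Fin N) (x : M) :
    pA σ τ w j (σ (τ x)) = -pA σ τ w j x := by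
  unfold pA
  rw [h.invS, tst h, h.invS]
  ring

private theorem pB_J (h : Mir γ σ τ P Q) {N : ℕ} (w : Fin N → M → ℝ) (j : Fin N) (x : M) :
    pB σ τ w j (σ (τ x)) = -pB σ τ w j x := by
  unfold pB
  rw [h.invS, tst h, h.invS]
  ring

private theorem sg_neg {N : ℕ} (R : Set M) (v : Fin N → M → ℝ) (x y : M)
    (h1 : ∀ j, v j y = -v j x) (h2 : x ∈ R → y ∈ R → ∀ j, v j x = 0) (h3 : x ∉ R → y ∈ R) :
    sgnorm R v y = -sgnorm R v x := by
  have e : ∑ j, v j y ^ 2 = ∑ j, v j x ^ 2 := Finset.sum_congr rfl fun j _ => by rw [h1 j, neg_sq]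
  unfold sgnorm
  rw [e]
  by_cases hx : x ∈ R
  · by_cases hy : y ∈ R
    · have e2 : ∑ j, v j x ^ 2 = 0 := Finset.sum_eq_zero fun j _ => by rw [h2 hx hy j]; norm_num
      rw [if_pos hx, if_pos hy, e2, Real.sqrt_zero, neg_zero]
    · rw [if_pos hx, if_neg hy]
  · rw [if_neg hx, if_pos (h3 hx), neg_neg]

private theorem bdT (h : Mir γ σ τ P Q) (t : ℝ) : ∃ s : ℝ, τ (γ t) = γ s ∧
    γ (s + Real.pi) = σ (γ t) := by
  obtain ⟨s, hs⟩ := h.bdS t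
  refine ⟨s + Real.pi, ?_, ?_⟩
  · rw [← h.bdJ s, ← hs, ← h.comm, h.invS]
  · rw [← h.bdJ, ← h.bdJ, ← h.comm, h.invT, h.invS, hs]

theorem symm_odd (h : Mir γ σ τ P Q) {N : ℕ} {w : Fin N → M → ℝ}
    (hw : ∀ j, OddB γ (w j)) (i : Fin 3) : OddB γ (symm σ τ P Q w i) := by
  intro t
  fin_cases i
  · show sgnorm Q (pA σ τ w) (γ (t + Real.pi)) = -sgnorm Q (pA σ τ w) (γ t)
    rw [J_eq h]
    refine sg_neg Q _ _ _ (fun j => pA_J h w j _) ?_ ?_
    · intro hx hy j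
      refine pA_mirror h w j hx ?_
      have := h.invQ (t + Real.pi) (by rw [← h.bdJ]; exact hy)
      rwa [← h.bdJ, h.invS] at this
    · intro hx
      obtain ⟨s, hs, -⟩ := bdT h t
      have h1 := (h.covQ (γ t)).resolve_left hx
      rw [hs] at h1 ⊢
      exact h.invQ _ h1
  · show sgnorm P (pB σ τ w) (γ (t + Real.pi)) = -sgnorm P (pB σ τ w) (γ t)
    rw [J_eq h]
    refine sg_neg P _ _ _ (fun j => pB_J h w j _) ?_ ?_
    · intro hx hy j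
      refine pB_mirror h w j hx ?_
      have := h.invP (t + Real.pi) (by rw [← h.bdJ]; exact hy)
      rwa [← h.bdJ, h.comm, h.invT] at this
    · intro hx
      rw [h.comm]
      obtain ⟨s, hs⟩ := h.bdS t
      have h1 := (h.covP (γ t)).resolve_left hx
      rw [hs] at h1 ⊢
      exact h.invP _ h1
  · have key : ∀ t j, pC σ τ w j (γ t) = 0 ∧ pD σ τ w j (γ t) = 0 := by
      intro t j
      have h1 : w j (σ (τ (γ t))) = -w j (γ t) := by
        rw [← J_eq h]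
        exact hw j t
      have h2 : w j (τ (γ t)) = -w j (σ (γ t)) := by
        obtain ⟨s, hs⟩ := h.bdS t
        have h3 : τ (γ t) = γ (s + Real.pi) := by
          rw [← h.bdJ s, ← hs, ← h.comm, h.invS]
        rw [h3, hs, hw j s]
      unfold pC pD
      rw [h1, h2]
      constructor <;> ring
    have key2 : ∀ t, √(∑ j, (pC σ τ w j (γ t) ^ 2 + pD σ τ w j (γ t) ^ 2)) = 0 := by
      intro t
      rw [Finset.sum_eq_zero, Real.sqrt_zero]
      intro j _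
      rw [(key t j).1, (key t j).2]
      norm_num
    show √(∑ j, (pC σ τ w j (γ (t + Real.pi)) ^ 2 + pD σ τ w j (γ (t + Real.pi)) ^ 2))
      = -√(∑ j, (pC σ τ w j (γ t) ^ 2 + pD σ τ w j (γ t) ^ 2))
    rw [key2, key2, neg_zero]

end Pool.Agent.EWD
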