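import Mathlib
import Pool.Agent.EWD.Defs
import Pool.Agent.EWD.SYD
import Pool.Agent.EWD.LPA
import Pool.Agent.EWD.SYA

/-
SYB: the symmetrised map is Lipschitz.  [about 110 lines]

`sgnorm_lip`: let `v j` be Lipschitz and vanish on `Q ∩ Q'`, `Q' = {x | τ x ∈ Q}` closed, `Q ∪ Q' = univ`.
`f x = √(∑ vⱼ(x)²)` is Lipschitz: `|f x - f y| ≤ √(∑ (vⱼ x - vⱼ y)²)` (norm of `EuclideanSpace`), constant `L`. For `x, y` both
in `Q` or both not in `Q` `|g x - g y| = |f x - f y|`. For `x ∈ Q`, `y ∉ Q` (so `y ∈ Q'`): for `ε > 0` take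
`c ∈ Q ∩ Q'` from `Betw`; `f c = 0`, so `|g x - g y| = f x + f y ≤ L (dist x c + dist c y) ≤ L (dist x y + ε)`.
`Q'` is closed because `τ` is continuous (Lipschitz). Compositions `w j ∘ σ` are Lipschitz. The third component is
the norm of the vector `(pC, pD)`: Lipschitz.
-/

open MeasureTheory Set Filter Topology
open scoped ENNReal NNReal

namespace Pool.Agent.EWD

variable {M : Type} [MetricSpace M] {γ : ℝ → M} {σ τ : M → M} {P Q : Set M}

private theorem lip_norm {ι : Type} [Fintype ι] {v : ι → M → ℝ} (hv : ∀ j, Lip (v j)) :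
    Lip (fun x => √(∑ j, v j x ^ 2)) := by
  choose L hL using hv
  refine ⟨⟨√(∑ j, (L j : ℝ) ^ 2), Real.sqrt_nonneg _⟩, LipschitzWith.of_dist_le_mul ?_⟩
  intro x y
  rw [Real.dist_eq]
  show |√(∑ j, v j x ^ 2) - √(∑ j, v j y ^ 2)| ≤ √(∑ j, (L j : ℝ) ^ 2) * dist x y
  have e : ∀ z, √(∑ j, v j z ^ 2) = ‖(WithLp.toLp 2 (fun j => v j z) : EuclideanSpace ℝ ι)‖ := by
    intro z
    rw [EuclideanSpace.norm_eq]
    simp
  rw [e, e]
  refine (abs_norm_sub_norm_le _ _).trans ?_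
  rw [EuclideanSpace.norm_eq, ← Real.sqrt_sq (dist_nonneg : 0 ≤ dist x y),
    ← Real.sqrt_mul (Finset.sum_nonneg fun j _ => sq_nonneg _)]
  apply Real.sqrt_le_sqrt
  rw [Finset.sum_mul]
  refine Finset.sum_le_sum fun j _ => ?_
  have h1 := (hL j).dist_le_mul x y
  rw [Real.dist_eq] at h1
  rw [← mul_pow]
  show ‖v j x - v j y‖ ^ 2 ≤ _
  rw [Real.norm_eq_abs]
  exact pow_le_pow_left₀ (abs_nonneg _) h1 2

private theorem lip_div4 {u : M → ℝ} (hu : Lip u) : Lip (fun x => u x / 4) := by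
  have h1 := hu.const_mul (1 / 4)
  have e : (fun x => 1 / 4 * u x) = fun x => u x / 4 := by
    funext x
    ring
  rwa [e] at h1

private theorem lip_cmp {u : M → ℝ} (hu : Lip u) {s : M → M} (hs : ∃ K : ℝ≥0, LipschitzWith K s) :
    Lip (fun x => u (s x)) := by
  obtain ⟨L, hL⟩ := hu
  obtain ⟨K, hK⟩ := hs
  exact ⟨_, hL.comp hK⟩

theorem sgnorm_lip (hB : Betw M) {Q Q' : Set M} (hQ : IsClosed Q) (hQ' : IsClosed Q')
    (hc : Q ∪ Q' = univ) {N : ℕ} {v : Fin N → M → ℝ} (hv : ∀ j, Lip (v j))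
    (h0 : ∀ x ∈ Q ∩ Q', ∀ j, v j x = 0) : Lip (sgnorm Q v) := by
  obtain ⟨L, hL⟩ := lip_norm hv
  have hd : ∀ x y, |√(∑ j, v j x ^ 2) - √(∑ j, v j y ^ 2)| ≤ L * dist x y := by
    intro x y
    have h1 := hL.dist_le_mul x y
    rwa [Real.dist_eq] at h1
  have key : ∀ x ∈ Q, ∀ y, y ∉ Q → √(∑ j, v j x ^ 2) + √(∑ j, v j y ^ 2) ≤ L * dist x y := by
    intro x hx y hy
    have hy' : y ∈ Q' := by
      have : y ∈ Q ∪ Q' := by rw [hc]; exact mem_univ y
      exact this.resolve_left hy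
    have hL0 : (0 : ℝ) ≤ L := L.2
    refine le_of_forall_pos_le_add fun ε hε => ?_
    obtain ⟨c, hc1, hc2⟩ := hB Q Q' hQ hQ' hc x hx y hy' (ε / (L + 1)) (by positivity)
    have hfc : √(∑ j, v j c ^ 2) = 0 := by
      rw [Finset.sum_eq_zero, Real.sqrt_zero]
      intro j _
      rw [h0 c hc1 j]
      norm_num
    have h1 := hd x c
    have h2 := hd c y
    rw [hfc, sub_zero, abs_of_nonneg (Real.sqrt_nonneg _)] at h1
    rw [hfc, zero_sub, abs_neg, abs_of_nonneg (Real.sqrt_nonneg _)] at h2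
    have h3 : (L : ℝ) * (ε / (L + 1)) ≤ ε := by
      rw [mul_div_assoc', div_le_iff₀ (by positivity)]
      nlinarith
    have h4 := mul_le_mul_of_nonneg_left hc2 hL0
    nlinarith
  refine ⟨L, LipschitzWith.of_dist_le_mul ?_⟩
  intro x y
  rw [Real.dist_eq]
  unfold sgnorm
  by_cases hx : x ∈ Q
  · by_cases hy : y ∈ Q
    · rw [if_pos hx, if_pos hy]
      exact hd x y
    · rw [if_pos hx, if_neg hy, sub_neg_eq_add, abs_of_nonneg (by positivity)]
      exact key x hx y hy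
  · by_cases hy : y ∈ Q
    · rw [if_neg hx, if_pos hy, abs_sub_comm, sub_neg_eq_add, abs_of_nonneg (by positivity),
        dist_comm]
      exact key y hy x hx
    · rw [if_neg hx, if_neg hy, neg_sub_neg, abs_sub_comm]
      exact hd x y

theorem symm_lip (hB : Betw M) (h : Mir γ σ τ P Q) (hσ : ∃ K : ℝ≥0, LipschitzWith K σ)
    (hτ : ∃ K : ℝ≥0, LipschitzWith K τ) {N : ℕ} {w : Fin N → M → ℝ} (hw : ∀ j, Lip (w j))
    (i : Fin 3) : Lip (symm σ τ P Q w i) := by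
  have hστ : ∃ K : ℝ≥0, LipschitzWith K (fun x => σ (τ x)) := by
    obtain ⟨K, hK⟩ := hσ
    obtain ⟨K', hK'⟩ := hτ
    exact ⟨_, hK.comp hK'⟩
  have h1 : ∀ j, Lip (fun x => w j (σ x)) := fun j => lip_cmp (hw j) hσ
  have h2 : ∀ j, Lip (fun x => w j (τ x)) := fun j => lip_cmp (hw j) hτ
  have h3 : ∀ j, Lip (fun x => w j (σ (τ x))) := fun j => lip_cmp (hw j) hστ
  have cσ : Continuous σ := by
    obtain ⟨K, hK⟩ := hσ
    exact hK.continuous
  have cτ : Continuous τ := by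
    obtain ⟨K, hK⟩ := hτ
    exact hK.continuous
  fin_cases i
  · show Lip (sgnorm Q (pA σ τ w))
    refine sgnorm_lip hB h.clQ (h.clQ.preimage cτ) ?_ ?_ ?_
    · exact eq_univ_of_forall h.covQ
    · intro j
      exact lip_div4 ((((hw j).add (h1 j)).sub (h2 j)).sub (h3 j))
    · intro x hx j
      exact pA_mirror h w j hx.1 hx.2
  · show Lip (sgnorm P (pB σ τ w))
    refine sgnorm_lip hB h.clP (h.clP.preimage cσ) ?_ ?_ ?_
    · exact eq_univ_of_forall h.covP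
    · intro j
      exact lip_div4 ((((hw j).sub (h1 j)).add (h2 j)).sub (h3 j))
    · intro x hx j
      exact pB_mirror h w j hx.1 hx.2
  · show Lip (fun x => √(∑ j, (pC σ τ w j x ^ 2 + pD σ τ w j x ^ 2)))
    have h4 : ∀ j, Lip (pC σ τ w j) := fun j =>
      lip_div4 ((((hw j).add (h1 j)).add (h2 j)).add (h3 j))
    have h5 : ∀ j, Lip (pD σ τ w j) := fun j =>
      lip_div4 ((((hw j).sub (h1 j)).sub (h2 j)).add (h3 j))
    have h6 : Lip (fun x => √(∑ j : Fin N ⊕ Fin N, Sum.elim (pC σ τ w) (pD σ τ w) j x ^ 2)) := by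
      refine lip_norm ?_
      rintro (j | j)
      · exact h4 j
      · exact h5 j
    have e : (fun x => √(∑ j : Fin N ⊕ Fin N, Sum.elim (pC σ τ w) (pD σ τ w) j x ^ 2))
        = fun x => √(∑ j, (pC σ τ w j x ^ 2 + pD σ τ w j x ^ 2)) := by
      funext x
      rw [Fintype.sum_sum_type, Finset.sum_add_distrib]
      rfl
    rwa [e] at h6

end Pool.Agent.EWD
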