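import Mathlib
import Pool.Agent.EWD.Defs

/-
KAT: Kato's inequality in one variable.  [about 50 lines]

`D(s)² = ∑ vⱼ(s)²` for all `s`. If `D(0) = 0` then `vⱼ(0) = 0` and `(D(s)/s)² = ∑ (vⱼ(s)/s)²`, let `s → 0`. If
`D(0) ≠ 0`: differentiate `D² = ∑ vⱼ²` at 0: `D(0) D' = ∑ vⱼ(0) vⱼ'`, so `D(0)² D'² ≤ (∑ vⱼ(0)²)(∑ vⱼ'²)` by
Cauchy-Schwarz, and `∑ vⱼ(0)² = D(0)²`.
-/

open MeasureTheory Set Filter Topology
open scoped ENNReal NNReal

namespace Pool.Agent.EWD

theorem kato {ι : Type} [Fintype ι] {D : ℝ → ℝ} {D' : ℝ} {v : ι → ℝ → ℝ} {v' : ι → ℝ}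
    (hD : HasDerivAt D D' 0) (hv : ∀ j, HasDerivAt (v j) (v' j) 0)
    (h : ∀ s, D s ^ 2 = ∑ j, v j s ^ 2) : D' ^ 2 ≤ ∑ j, v' j ^ 2 := by
  by_cases h0 : D 0 = 0
  · have hv0 : ∀ j, v j 0 = 0 := by
      intro j
      have h1 : ∑ j, v j 0 ^ 2 = 0 := by
        rw [← h 0, h0]; ring
      have h2 := (Finset.sum_eq_zero_iff_of_nonneg (fun i _ => sq_nonneg (v i 0))).1 h1 j
        (Finset.mem_univ j)
      exact pow_eq_zero_iff (two_ne_zero) |>.1 h2
    have t1 : Tendsto (fun s => slope D 0 s ^ 2) (𝓝[≠] 0) (𝓝 (D' ^ 2)) :=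
      (hasDerivAt_iff_tendsto_slope.1 hD).pow 2
    have t2 : Tendsto (fun s => ∑ j, slope (v j) 0 s ^ 2) (𝓝[≠] 0) (𝓝 (∑ j, v' j ^ 2)) := by
      apply tendsto_finsetSum
      intro j _
      exact (hasDerivAt_iff_tendsto_slope.1 (hv j)).pow 2
    have e : (fun s => slope D 0 s ^ 2) = fun s => ∑ j, slope (v j) 0 s ^ 2 := by
      funext s
      simp only [slope_def_field, h0, hv0, sub_zero, div_pow]
      rw [h s, Finset.sum_div]
    rw [e] at t1
    exact le_of_eq (tendsto_nhds_unique t1 t2)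
  · have d1 : HasDerivAt (fun s => D s ^ 2) (2 * D 0 * D') 0 := by
      have := hD.fun_pow 2
      simpa using this
    have d2 : HasDerivAt (fun s => ∑ j, v j s ^ 2) (∑ j, 2 * v j 0 * v' j) 0 := by
      have := HasDerivAt.fun_sum (u := Finset.univ) (fun j _ => (hv j).pow 2)
      simpa using this
    have e : (fun s => D s ^ 2) = fun s => ∑ j, v j s ^ 2 := funext h
    rw [e] at d1
    have e1 : D 0 * D' = ∑ j, v j 0 * v' j := by
      have e2 := d1.unique d2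
      have e3 : ∑ j, 2 * v j 0 * v' j = 2 * ∑ j, v j 0 * v' j := by
        rw [Finset.mul_sum]
        exact Finset.sum_congr rfl (fun j _ => by ring)
      rw [e3] at e2
      linarith
    have cs := Finset.sum_mul_sq_le_sq_mul_sq Finset.univ (fun j => v j 0) v'
    rw [← e1, ← h 0, mul_pow] at cs
    have hp : 0 < D 0 ^ 2 := by positivity
    exact le_of_mul_le_mul_left cs hp

end Pool.Agent.EWD
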