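import Mathlib
import Pool.Agent.EWD.Defs
import Pool.Agent.EWD.SYD
import Pool.Agent.EWD.LPA
import Pool.Agent.EWD.RUL
import Pool.Agent.EWD.KAT
import Pool.Agent.EWD.SYA
import Pool.Agent.EWD.SYB

/-
SYC: the symmetrised map has at most the energy of `w`.  [about 140 lines]

The `24` functions involved (`symm w i`, `pA w j`, ..., `w j ∘ g`) are Lipschitz. For almost every `o` all are
differentiable along both curves (`ae_has`), and by `kato` (applied to `D s = symm w i (px o s)`, with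
`D² = ∑ pA²` (`sgnorm_sq`), `∑ pB²`, `∑ (pC² + pD²)`)
 `∑ᵢ gx (symm w i)² ≤ ∑ⱼ (gx (pA w j)² + gx (pB w j)² + gx (pC w j)² + gx (pD w j)²)`, and by linearity
 (`ae_add` etc., or `HasDerivAt` uniqueness) this is `(1/4) ∑ⱼ (gx (w j)² + gx (w j ∘ σ)² + gx (w j ∘ τ)² + gx (w j ∘ σ ∘ τ)²)`
 (same identity as `sum_parts`). Same for `gy`. Integrate: `E (symm w) ≤ (E w + E (w ∘ σ) + E (w ∘ τ) + E (w ∘ σ ∘ τ))/4 = E w`
 by the invariance hypotheses (`w ∘ σ ∘ τ = (w ∘ σ) ∘ τ`).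
-/

open MeasureTheory Set Filter Topology
open scoped ENNReal NNReal

namespace Pool.Agent.EWD

variable {M : Type} [MetricSpace M] {γ : ℝ → M} {σ τ : M → M} {P Q : Set M} (C : Calc M γ)

private theorem path_le {N : ℕ} {w : Fin N → M → ℝ} (p : ℝ → M) (g : Fin 3 → ℝ)
    (a b c d : Fin N → ℝ) (hg : ∀ i, HasDerivAt (fun s => symm σ τ P Q w i (p s)) (g i) 0)
    (ha : ∀ j, HasDerivAt (fun s => w j (p s)) (a j) 0)
    (hb : ∀ j, HasDerivAt (fun s => w j (σ (p s))) (b j) 0)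
    (hc : ∀ j, HasDerivAt (fun s => w j (τ (p s))) (c j) 0)
    (hd : ∀ j, HasDerivAt (fun s => w j (σ (τ (p s)))) (d j) 0) :
    ∑ i, g i ^ 2 ≤ (∑ j, a j ^ 2 + ∑ j, b j ^ 2 + ∑ j, c j ^ 2 + ∑ j, d j ^ 2) / 4 := by
  have h1 : g 0 ^ 2 ≤ ∑ j, ((a j + b j - c j - d j) / 4) ^ 2 := by
    refine kato (D := fun s => sgnorm Q (pA σ τ w) (p s)) (v := fun j s => pA σ τ w j (p s))
      (hg 0) (fun j => ?_) (fun s => sgnorm_sq _ _ _)
    exact ((((ha j).add (hb j)).sub (hc j)).sub (hd j)).div_const 4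
  have h2 : g 1 ^ 2 ≤ ∑ j, ((a j - b j + c j - d j) / 4) ^ 2 := by
    refine kato (D := fun s => sgnorm P (pB σ τ w) (p s)) (v := fun j s => pB σ τ w j (p s))
      (hg 1) (fun j => ?_) (fun s => sgnorm_sq _ _ _)
    exact ((((ha j).sub (hb j)).add (hc j)).sub (hd j)).div_const 4
  have h3 : g 2 ^ 2 ≤ ∑ j : Fin N ⊕ Fin N, Sum.elim (fun j => (a j + b j + c j + d j) / 4)
      (fun j => (a j - b j - c j + d j) / 4) j ^ 2 := by
    refine kato (D := fun s => √(∑ j, (pC σ τ w j (p s) ^ 2 + pD σ τ w j (p s) ^ 2)))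
      (v := Sum.elim (fun j s => pC σ τ w j (p s)) (fun j s => pD σ τ w j (p s)))
      (hg 2) ?_ (fun s => ?_)
    · rintro (j | j)
      · exact ((((ha j).add (hb j)).add (hc j)).add (hd j)).div_const 4
      · exact ((((ha j).sub (hb j)).sub (hc j)).add (hd j)).div_const 4
    · show (√(∑ j, (pC σ τ w j (p s) ^ 2 + pD σ τ w j (p s) ^ 2))) ^ 2 = _
      rw [Real.sq_sqrt (Finset.sum_nonneg fun j _ => add_nonneg (sq_nonneg _) (sq_nonneg _)),
        Fintype.sum_sum_type, Finset.sum_add_distrib]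
      rfl
  rw [Fintype.sum_sum_type] at h3
  simp only [Sum.elim_inl, Sum.elim_inr] at h3
  rw [Fin.sum_univ_three]
  refine (add_le_add (add_le_add h1 h2) h3).trans (le_of_eq ?_)
  rw [← Finset.sum_add_distrib, ← Finset.sum_add_distrib, ← Finset.sum_add_distrib,
    ← Finset.sum_add_distrib, ← Finset.sum_add_distrib, ← Finset.sum_add_distrib, Finset.sum_div]
  refine Finset.sum_congr rfl fun j _ => ?_
  ring

theorem E_symm_le (hB : Betw M) (h : Mir γ σ τ P Q) (hσ : ∃ K : ℝ≥0, LipschitzWith K σ)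
    (hτ : ∃ K : ℝ≥0, LipschitzWith K τ) {N : ℕ}
    (eσ : ∀ w : Fin N → M → ℝ, (∀ j, Lip (w j)) → C.E (fun j x => w j (σ x)) = C.E w)
    (eτ : ∀ w : Fin N → M → ℝ, (∀ j, Lip (w j)) → C.E (fun j x => w j (τ x)) = C.E w)
    {w : Fin N → M → ℝ} (hw : ∀ j, Lip (w j)) : C.E (symm σ τ P Q w) ≤ C.E w := by
  have lc : ∀ u : M → ℝ, Lip u → ∀ s : M → M, (∃ K : ℝ≥0, LipschitzWith K s) →
      Lip (fun x => u (s x)) := by
    rintro u ⟨L, hL⟩ s ⟨K, hK⟩
    exact ⟨_, hL.comp hK⟩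
  have hστ : ∃ K : ℝ≥0, LipschitzWith K (fun x => σ (τ x)) := by
    obtain ⟨K, hK⟩ := hσ
    obtain ⟨K', hK'⟩ := hτ
    exact ⟨_, hK.comp hK'⟩
  have l1 : ∀ j, Lip (fun x => w j (σ x)) := fun j => lc _ (hw j) σ hσ
  have l2 : ∀ j, Lip (fun x => w j (τ x)) := fun j => lc _ (hw j) τ hτ
  have l3 : ∀ j, Lip (fun x => w j (σ (τ x))) := fun j => lc _ (hw j) _ hστ
  have l0 : ∀ i, Lip (symm σ τ P Q w i) := symm_lip hB h hσ hτ hw
  have a0 := ae_all_iff.mpr fun i => C.ae_has (l0 i)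
  have a1 := ae_all_iff.mpr fun i => C.ae_has (hw i)
  have a2 := ae_all_iff.mpr fun i => C.ae_has (l1 i)
  have a3 := ae_all_iff.mpr fun i => C.ae_has (l2 i)
  have a4 := ae_all_iff.mpr fun i => C.ae_has (l3 i)
  have key : ∀ᵐ o ∂C.μ, C.G (symm σ τ P Q w) o ≤ (C.G w o + C.G (fun j x => w j (σ x)) o
      + C.G (fun j x => w j (τ x)) o + C.G (fun j x => w j (σ (τ x))) o) / 4 := by
    filter_upwards [a0, a1, a2, a3, a4] with o b0 b1 b2 b3 b4
    have hx := path_le (C.px o) _ _ _ _ _ (fun i => (b0 i).1) (fun i => (b1 i).1)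
      (fun i => (b2 i).1) (fun i => (b3 i).1) (fun i => (b4 i).1)
    have hy := path_le (C.py o) _ _ _ _ _ (fun i => (b0 i).2) (fun i => (b1 i).2)
      (fun i => (b2 i).2) (fun i => (b3 i).2) (fun i => (b4 i).2)
    unfold Calc.G
    simp only [Finset.sum_add_distrib]
    linarith
  have i0 := C.integrable_G l0
  have i1 := C.integrable_G hw
  have i2 := C.integrable_G l1
  have i3 := C.integrable_G l2
  have i4 := C.integrable_G l3
  have m := integral_mono_ae i0 ((((i1.add i2).add i3).add i4).div_const 4) key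
  have e : ∫ o, (C.G w o + C.G (fun j x => w j (σ x)) o
      + C.G (fun j x => w j (τ x)) o + C.G (fun j x => w j (σ (τ x))) o) / 4 ∂C.μ
      = (∫ o, C.G w o ∂C.μ + ∫ o, C.G (fun j x => w j (σ x)) o ∂C.μ
      + ∫ o, C.G (fun j x => w j (τ x)) o ∂C.μ
      + ∫ o, C.G (fun j x => w j (σ (τ x))) o ∂C.μ) / 4 := by
    rw [integral_div]
    congr 1
    have j1 := integral_add i1 i2
    have j2 := integral_add (i1.add i2) i3
    have j3 := integral_add ((i1.add i2).add i3) i4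
    simp only [Pi.add_apply] at j1 j2 j3
    rw [j3, j2, j1]
  have e1 := eσ w hw
  have e2 := eτ w hw
  have e3 := (eτ (fun j x => w j (σ x)) l1).trans e1
  have m' : ∫ o, C.G (symm σ τ P Q w) o ∂C.μ ≤ ∫ o, (C.G w o + C.G (fun j x => w j (σ x)) o
      + C.G (fun j x => w j (τ x)) o + C.G (fun j x => w j (σ (τ x))) o) / 4 ∂C.μ := m
  rw [e] at m'
  unfold Calc.E at e1 e2 e3 ⊢
  linarith

end Pool.Agent.EWD
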