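import Mathlib
import Pool.Agent.EWD.GDF
import Pool.Agent.EWD.LPA
import Pool.Agent.EWD.CAL
import Pool.Agent.EWD.FNA
import Pool.Agent.EWD.MFL
import Pool.Agent.EWD.SYD
import Pool.Agent.EWD.SYA
import Pool.Agent.EWD.SYB
import Pool.Agent.EWD.SYC
import Pool.Agent.EWD.NEX
import Pool.Agent.EWD.PTH
import Pool.Agent.EWD.SLP
import Pool.Agent.EWD.CFC
import Pool.Agent.EWD.MBD

/-
TMF (helper81): fillings with two commuting conformal reflections.
-/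

open MeasureTheory Set Filter Measure Manifold Bundle
open scoped ContDiff Topology ENNReal NNReal

set_option linter.unusedSectionVars false

namespace Pool.Agent.EWD

open Pool.Agent.H74.FAC

variable {M : Type} [MetricSpace M] [ChartedSpace HP M] [IsManifold (𝓡∂ 2) ∞ M] [CompactSpace M]
  [RiemannianBundle (fun x : M => TangentSpace (𝓡∂ 2) x)]
  [IsContMDiffRiemannianBundle (𝓡∂ 2) ∞ E2 (fun x : M => TangentSpace (𝓡∂ 2) x)]
  [IsRiemannianManifold (𝓡∂ 2) M]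

theorem two_mirrors (ho : Orientable M) {φ : S1 → M} (hφ : IsometricFilling φ) {σ τ : M → M}
    (sσ : ContMDiff (𝓡∂ 2) (𝓡∂ 2) ∞ σ) (sτ : ContMDiff (𝓡∂ 2) (𝓡∂ 2) ∞ τ)
    (cσ : ∀ x, ∃ u : ℝ, Tendsto (fun y => dist (σ x) (σ y) / dist x y) (𝓝[≠] x) (𝓝 u))
    (cτ : ∀ x, ∃ u : ℝ, Tendsto (fun y => dist (τ x) (τ y) / dist x y) (𝓝[≠] x) (𝓝 u))
    {P Q : Set M} (h : Mir (gam φ) σ τ P Q) :
    ENNReal.ofReal (2 * Real.pi) ≤ area M := by
  obtain ⟨A⟩ := exists_cov ho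
  haveI : Nonempty M := ⟨φ 0⟩
  have hγ := bd_gam hφ
  have lσ := smooth_lip sσ
  have lτ := smooth_lip sτ
  have hB : Betw M := betw
  have h1 : 2 * Real.pi * 1 ≤ (cal A hφ).vol := by
    refine final_abs (cal A hφ) hγ (n := 0) one_pos ?_
    intro δ hδ
    obtain ⟨w₀, hw₀⟩ := exists_sph hγ
    obtain ⟨w, hw, hwm⟩ : ∃ w : Fin 4 → M → ℝ, Sph (gam φ) w ∧
        ∀ w' : Fin 4 → M → ℝ, Sph (gam φ) w' → (cal A hφ).E w ≤ (cal A hφ).E w' + δ := by
      have hne : {r : ℝ | ∃ w : Fin 4 → M → ℝ, Sph (gam φ) w ∧ (cal A hφ).E w = r}.Nonempty :=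
        ⟨_, w₀, hw₀, rfl⟩
      have hbd : BddBelow {r : ℝ | ∃ w : Fin 4 → M → ℝ, Sph (gam φ) w ∧ (cal A hφ).E w = r} := by
        refine ⟨0, ?_⟩
        rintro _ ⟨w, -, rfl⟩
        exact (cal A hφ).E_nonneg w
      obtain ⟨_, ⟨w, hw, rfl⟩, hlt⟩ := exists_lt_of_csInf_lt hne
        (lt_add_of_pos_right (sInf {r : ℝ | ∃ w : Fin 4 → M → ℝ, Sph (gam φ) w ∧
          (cal A hφ).E w = r}) hδ)
      refine ⟨w, hw, fun w' hw' => ?_⟩
      have := csInf_le hbd ⟨w', hw', rfl⟩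
      linarith
    have hE : (cal A hφ).E (symm σ τ P Q w) ≤ (cal A hφ).E w :=
      E_symm_le (cal A hφ) hB h lσ lτ (fun w hw => E_comp A hφ sσ h.invS cσ lσ w hw)
        (fun w hw => E_comp A hφ sτ h.invT cτ lτ w hw) hw.lip
    have hS : Sph (gam φ) (symm σ τ P Q w) :=
      ⟨symm_lip hB h lσ lτ hw.lip, symm_unit hw.unit, symm_odd h hw.odd⟩
    have hv : ∀ x, (1 : ℝ) ≤ ‖vv (n := 0) (symm σ τ P Q w) x‖ := by
      intro x
      have h2 := hS.unit x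
      rw [Fin.sum_univ_three] at h2
      rw [EuclideanSpace.norm_eq, Fin.sum_univ_three]
      apply Real.one_le_sqrt.2
      simp only [vv, Real.norm_eq_abs, sq_abs]
      exact h2.ge
    refine ⟨symm σ τ P Q w, hS, ?_, hv, vort_ae A hφ one_pos hS hv⟩
    intro w' hw'
    exact hE.trans (hwm w' hw')
  rw [mul_one] at h1
  exact (ENNReal.ofReal_le_ofReal h1).trans (cal_vol_le A hφ)

omit [CompactSpace M] [RiemannianBundle (fun x : M => TangentSpace (𝓡∂ 2) x)]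
  [IsContMDiffRiemannianBundle (𝓡∂ 2) ∞ E2 (fun x : M => TangentSpace (𝓡∂ 2) x)]
  [IsRiemannianManifold (𝓡∂ 2) M] in
/-- a smooth involution preserves the boundary -/
theorem tmf_bdry {φ : S1 → M} (hφ : IsometricFilling φ) {σ : M → M}
    (sσ : ContMDiff (𝓡∂ 2) (𝓡∂ 2) ∞ σ) (iσ : ∀ x, σ (σ x) = x) (t : ℝ) :
    ∃ s : ℝ, σ (gam φ t) = gam φ s := by
  let Φ : M ≃ₘ^∞⟮𝓡∂ 2, 𝓡∂ 2⟯ M :=
    { toFun := σ
      invFun := σ
      left_inv := iσ
      right_inv := iσ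
      contMDiff_toFun := sσ
      contMDiff_invFun := sσ }
  have h1 := Φ.preimage_boundary (by simp)
  have h2 : σ (gam φ t) ∈ (𝓡∂ 2).boundary M := by
    have h3 : gam φ t ∈ (𝓡∂ 2).boundary M := by
      rw [← hφ.range_eq]
      exact mem_range_self _
    rw [← h1] at h3
    exact h3
  rw [← hφ.range_eq] at h2
  obtain ⟨y, hy⟩ := h2
  obtain ⟨s, rfl⟩ := QuotientAddGroup.mk_surjective y
  exact ⟨s, hy.symm⟩

/-- fillings with two commuting conformal involutions that are dividing and whose product acts on the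
boundary as the antipodal map -/
theorem two_reflections (ho : Orientable M) {φ : S1 → M} (hφ : IsometricFilling φ) {σ τ : M → M}
    (sσ : ContMDiff (𝓡∂ 2) (𝓡∂ 2) ∞ σ) (sτ : ContMDiff (𝓡∂ 2) (𝓡∂ 2) ∞ τ)
    (iσ : ∀ x, σ (σ x) = x) (iτ : ∀ x, τ (τ x) = x)
    (cσ : ∀ x, ∃ u : ℝ, Tendsto (fun y => dist (σ x) (σ y) / dist x y) (𝓝[≠] x) (𝓝 u))
    (cτ : ∀ x, ∃ u : ℝ, Tendsto (fun y => dist (τ x) (τ y) / dist x y) (𝓝[≠] x) (𝓝 u))
    (comm : ∀ x, σ (τ x) = τ (σ x))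
    (J : ∀ t : ℝ, σ (τ (φ (t : S1))) = φ ((t + Real.pi : ℝ) : S1))
    {P : Set M} (clP : IsClosed P) (covP : ∀ x, x ∈ P ∨ σ x ∈ P)
    (mirP : ∀ x, x ∈ P → σ x ∈ P → σ x = x)
    {Q : Set M} (clQ : IsClosed Q) (covQ : ∀ x, x ∈ Q ∨ τ x ∈ Q)
    (mirQ : ∀ x, x ∈ Q → τ x ∈ Q → τ x = x) :
    ENNReal.ofReal (2 * Real.pi) ≤ area M := by
  have hγ := bd_gam hφ
  have inj : ∀ s t, gam φ s = gam φ t → ∃ k : ℤ, s - t = k * (2 * Real.pi) := by
    intro s t h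
    have h1 : dist (s : S1) (t : S1) = 0 := by
      rw [← hφ.dist_eq]
      unfold gam at h
      rw [h, dist_self]
    rw [dist_eq_zero, QuotientAddGroup.eq, AddSubgroup.mem_zmultiples_iff] at h1
    obtain ⟨k, hk⟩ := h1
    refine ⟨-k, ?_⟩
    rw [zsmul_eq_mul] at hk
    push_cast
    linarith
  have bσ := tmf_bdry hφ sσ iσ
  have bτ := tmf_bdry hφ sτ iτ
  refine two_mirrors ho hφ sσ sτ cσ cτ (P := P) (Q := Q)
    { invS := iσ
      invT := iτ
      comm := comm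
      bdS := bσ
      bdJ := J
      clP := clP
      clQ := clQ
      covP := covP
      covQ := covQ
      mirP := mirP
      mirQ := mirQ
      invP := ?_
      invQ := ?_ }
  · exact mbd hγ.lip.continuous hγ.per inj sσ.continuous sτ.continuous iσ iτ comm bσ bτ J clP covP
      mirP clQ covQ mirQ
  · exact mbd hγ.lip.continuous hγ.per inj sτ.continuous sσ.continuous iτ iσ
      (fun x => (comm x).symm) bτ bσ (fun t => (comm _).symm.trans (J t)) clQ covQ mirQ clP covP mirP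

end Pool.Agent.EWD
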