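import Mathlib
import Pool.Agent.EWD.GDF
import Pool.Agent.EWD.PAI

/-
PLN: the local contribution of a nondegenerate zero in the plane.  [about 150 lines]

`F : E2 → E2` is `C¹` near `z₀`, `F z₀ = 0`, `det DF(z₀) ≠ 0`. By the inverse function theorem
(`ContDiffAt.toOpenPartialHomeomorph` or `HasStrictFDerivAt.toOpenPartialHomeomorph`) there is a local
homeomorphism; by continuity of `fderiv F` (`ContDiffAt.continuousAt_fderiv`) shrink so that on an open
`N₀ ∋ z₀`, `N₀ ⊆ U`, `F` is injective, `C¹` and `det DF` has the sign of `det DF(z₀)`. The image of `N₀` is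
open, choose `ρ` with `ball 0 ρ ⊆ F '' N₀` and put `N = N₀ ∩ F⁻¹(ball 0 ρ)`: open, `F '' N = ball 0 ρ`.
Change of variables (`integral_image_eq_integral_abs_det_fderiv_smul`), with the local inverse `Φ`:
 `∫_N g h_ε(F) |det DF| = ∫_{ball 0 ρ} g(Φ p) h_ε p`, and `tendsto_peak` for `g ∘ Φ` (continuous on the ball,
bounded by `B`).
-/

open MeasureTheory Set Filter Measure Manifold Bundle
open scoped ContDiff Topology ENNReal NNReal

set_option linter.unusedSectionVars false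

namespace Pool.Agent.EWD

open Pool.Agent.H74.FAC

private theorem PLN_nbh {F : E2 → E2} {z₀ : E2} (hF : ContDiffAt ℝ 1 F z₀) (h0 : F z₀ = 0)
    (hdet : (fderiv ℝ F z₀).det ≠ 0) {U : Set E2} (hU : IsOpen U) (hz : z₀ ∈ U) :
    ∃ (e : OpenPartialHomeomorph E2 E2) (N : Set E2) (ρ : ℝ), 0 < ρ ∧ (∀ z, e z = F z) ∧
      IsOpen N ∧ z₀ ∈ N ∧ N ⊆ U ∧ N ⊆ e.source ∧ F '' N = Metric.ball 0 ρ ∧
      (∀ z ∈ N, DifferentiableAt ℝ F z) ∧
      (∀ z ∈ N, 0 < (if 0 < (fderiv ℝ F z₀).det then (1 : ℝ) else -1) * (fderiv ℝ F z).det) := by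
  set A := (fderiv ℝ F z₀).toContinuousLinearEquivOfDetNeZero hdet with hA
  have hs : HasStrictFDerivAt F (A : E2 →L[ℝ] E2) z₀ := by
    have h1 : (A : E2 →L[ℝ] E2) = fderiv ℝ F z₀ := by
      ext x
      simp [hA]
    rw [h1]
    exact hF.hasStrictFDerivAt one_ne_zero
  set e := hs.toOpenPartialHomeomorph F with he
  have hec : ∀ z, e z = F z := by
    intro z
    rw [he, HasStrictFDerivAt.toOpenPartialHomeomorph_coe]
  have hsrc : z₀ ∈ e.source := hs.mem_toOpenPartialHomeomorph_source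
  have e1 : ∀ᶠ z in 𝓝 z₀, ContDiffAt ℝ 1 F z := hF.eventually (by decide)
  have hdc : ContinuousAt (fun z => (if 0 < (fderiv ℝ F z₀).det then (1 : ℝ) else -1) *
      (fderiv ℝ F z).det) z₀ :=
    continuousAt_const.mul (ContinuousLinearMap.continuous_det.continuousAt.comp
      (hF.continuousAt_fderiv one_ne_zero))
  have e2 : ∀ᶠ z in 𝓝 z₀, 0 < (if 0 < (fderiv ℝ F z₀).det then (1 : ℝ) else -1) *
      (fderiv ℝ F z).det := by
    apply hdc.eventually_const_lt
    split_ifs with h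
    · linarith
    · have : (fderiv ℝ F z₀).det < 0 := lt_of_le_of_ne (not_lt.1 h) hdet
      linarith
  have e3 : ∀ᶠ z in 𝓝 z₀, z ∈ U := hU.mem_nhds hz
  have e4 : ∀ᶠ z in 𝓝 z₀, z ∈ e.source := e.open_source.mem_nhds hsrc
  obtain ⟨V, hV, hVo, hzV⟩ := mem_nhds_iff.1 ((e1.and e2).and (e3.and e4))
  have hVs : V ⊆ e.source := fun z hz => (hV hz).2.2
  have himo : IsOpen (F '' V) := by
    have := e.isOpen_image_of_subset_source hVo hVs
    have h2 : (e '' V) = F '' V := by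
      ext y
      simp only [mem_image, hec]
    rwa [h2] at this
  obtain ⟨ρ, hρ, hball⟩ := Metric.isOpen_iff.1 himo 0 ⟨z₀, hzV, h0⟩
  refine ⟨e, V ∩ F ⁻¹' (Metric.ball 0 ρ), ρ, hρ, hec, ?_, ⟨hzV, ?_⟩, ?_, ?_, ?_, ?_, ?_⟩
  · refine ContinuousOn.isOpen_inter_preimage ?_ hVo Metric.isOpen_ball
    intro z hz
    exact (hV hz).1.1.continuousAt.continuousWithinAt
  · rw [mem_preimage, h0]
    exact Metric.mem_ball_self hρ
  · exact fun z hz => (hV hz.1).2.1
  · exact fun z hz => hVs hz.1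
  · apply Subset.antisymm
    · rintro _ ⟨z, hz, rfl⟩
      exact hz.2
    · intro p hp
      obtain ⟨z, hz, rfl⟩ := hball hp
      exact ⟨z, ⟨hz, hp⟩, rfl⟩
  · exact fun z hz => (hV hz.1).1.1.differentiableAt one_ne_zero
  · exact fun z hz => (hV hz.1).1.2

theorem planar {F : E2 → E2} {z₀ : E2} (hF : ContDiffAt ℝ 1 F z₀) (h0 : F z₀ = 0)
    (hdet : (fderiv ℝ F z₀).det ≠ 0) {U : Set E2} (hU : IsOpen U) (hz : z₀ ∈ U) :
    ∃ N : Set E2, IsOpen N ∧ z₀ ∈ N ∧ N ⊆ U ∧ (∀ z ∈ N, F z = 0 → z = z₀) ∧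
      ∀ (g : E2 → ℝ) (B : ℝ), ContinuousOn g N → (∀ z ∈ N, |g z| ≤ B) →
        Tendsto (fun ε : ℝ => ∫ z in N, g z * (2 * ε ^ 2 / (‖F z‖ ^ 2 + ε ^ 2) ^ 2) *
          (fderiv ℝ F z).det) (𝓝[>] 0)
          (𝓝 (2 * Real.pi * ((if 0 < (fderiv ℝ F z₀).det then 1 else -1) * g z₀))) := by
  obtain ⟨e, N, ρ, hρ, hec, hNo, hzN, hNU, hNs, him, hdiff, hsgn⟩ := PLN_nbh hF h0 hdet hU hz
  have hinj : InjOn F N := by
    intro x hx y hy hxy
    exact e.injOn (hNs hx) (hNs hy) (by rw [hec, hec]; exact hxy)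
  refine ⟨N, hNo, hzN, hNU, fun z hz hz0 => hinj hz hzN (by rw [hz0, h0]), ?_⟩
  intro g B hg hB
  set s : ℝ := if 0 < (fderiv ℝ F z₀).det then (1 : ℝ) else -1 with hs
  have hss : s * s = 1 := by
    rw [hs]
    split_ifs <;> norm_num
  have hleft : ∀ z ∈ N, e.symm (F z) = z := by
    intro z hz
    rw [← hec]
    exact e.left_inv (hNs hz)
  have hmaps : ∀ p ∈ Metric.ball (0 : E2) ρ, e.symm p ∈ N := by
    intro p hp
    rw [← him] at hp
    obtain ⟨z, hz, rfl⟩ := hp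
    rw [hleft z hz]
    exact hz
  have htar : Metric.ball (0 : E2) ρ ⊆ e.target := by
    intro p hp
    rw [← him] at hp
    obtain ⟨z, hz, rfl⟩ := hp
    rw [← hec]
    exact e.map_source (hNs hz)
  have hcont : ContinuousOn (fun p => g (e.symm p)) (Metric.ball 0 ρ) :=
    hg.comp (e.continuousOn_symm.mono htar) hmaps
  have hs0 : e.symm 0 = z₀ := by
    rw [← h0]
    exact hleft z₀ hzN
  have hlim := tendsto_peak hρ (g := fun p => g (e.symm p))
    (hcont.continuousAt (Metric.ball_mem_nhds 0 hρ))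
    (hcont.aestronglyMeasurable measurableSet_ball) (B := B)
    (fun p hp => hB _ (hmaps p hp))
  rw [hs0] at hlim
  have hint : ∀ ε : ℝ, ∫ z in N, g z * (2 * ε ^ 2 / (‖F z‖ ^ 2 + ε ^ 2) ^ 2) *
      (fderiv ℝ F z).det =
      s * ∫ p in Metric.ball (0 : E2) ρ, g (e.symm p) * (2 * ε ^ 2 / (‖p‖ ^ 2 + ε ^ 2) ^ 2) := by
    intro ε
    rw [← him, integral_image_eq_integral_abs_det_fderiv_smul volume hNo.measurableSet
      (fun z hz => (hdiff z hz).hasFDerivAt.hasFDerivWithinAt) hinj, ← integral_const_mul]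
    refine setIntegral_congr_fun hNo.measurableSet fun z hz => ?_
    rw [hleft z hz, smul_eq_mul]
    have h1 : |(fderiv ℝ F z).det| = s * (fderiv ℝ F z).det := by
      have h2 := hsgn z hz
      have h3 : |s| = 1 := by
        rw [hs]
        split_ifs <;> simp
      rw [← abs_of_pos h2, abs_mul, h3, one_mul]
    rw [h1]
    linear_combination (-(g z * (2 * ε ^ 2 / (‖F z‖ ^ 2 + ε ^ 2) ^ 2) * (fderiv ℝ F z).det)) * hss
  simp_rw [hint]
  have := hlim.const_mul s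
  refine this.congr' ?_ |>.trans (le_of_eq ?_)
  · exact Eventually.of_forall fun ε => rfl
  · congr 1
    ring

end Pool.Agent.EWD
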