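import Mathlib
import Pool.Agent.EWD.GDF
import Pool.Agent.EWD.PAI
import Pool.Agent.EWD.PLN
import Pool.Agent.EWD.C1L

/-
LOC: a neighbourhood of a nondegenerate zero.  [about 140 lines]

`e` a chart, `x₀` a point of its source with `0 < (e x₀) 0`, `X x₀ = Y x₀ = 0`, `Jc e X Y (e x₀) ≠ 0`, `U` open,
`x₀ ∈ U`. Let `F z = !₂[X (e.symm z), Y (e.symm z)] : E2`; it is `C¹` at `z₀ = e x₀` (`contDiffAt_chart`),
`F z₀ = 0`, and `(fderiv F z).det = Jc e X Y z` where `X ∘ e.symm`, `Y ∘ e.symm` are differentiable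
(`det_E2`, H74/FAC/Chg; `fderiv` of `F` has components the `fderiv`s). Apply `planar` with the open set
`U' = {z ∈ interior of the target, 0 < z 0, e.symm z ∈ U}` (open: `e.symm` is continuous on the
target) and put `T = e.symm '' N`. It is open in `M` (`T = e.source ∩ e⁻¹(N)`, `N` open:
`isOpen_extend_preimage'`), `T ⊆ U ∩ e.source`, `e '' T = N`, the only zero in `T` is `x₀`.
With `g z = ψ (e.symm z)`: continuous on `N`, bounded by the bound of `ψ`. `‖F z‖² = X² + Y²`.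
-/

open MeasureTheory Set Filter Measure Manifold Bundle
open scoped ContDiff Topology ENNReal NNReal

set_option linter.unusedSectionVars false

namespace Pool.Agent.EWD

open Pool.Agent.H74.FAC

variable {M : Type} [MetricSpace M] [ChartedSpace HP M] [IsManifold (𝓡∂ 2) ∞ M] [CompactSpace M]

private lemma comp_fderiv {F : E2 → E2} {z : E2} (hF : DifferentiableAt ℝ F z) (i : Fin 2) (v : E2) :
    (fderiv ℝ F z v) i = fderiv ℝ (fun y => F y i) z v := by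
  have h : HasFDerivAt (fun y => F y i) ((EuclideanSpace.proj i : E2 →L[ℝ] ℝ).comp (fderiv ℝ F z)) z :=
    (EuclideanSpace.proj i : E2 →L[ℝ] ℝ).hasFDerivAt.comp z hF.hasFDerivAt
  rw [h.fderiv]
  rfl

private lemma det_eq {e : OpenPartialHomeomorph M HP}
    (he : e ∈ IsManifold.maximalAtlas (𝓡∂ 2) ∞ M) {X Y : M → ℝ}
    (hX : ContMDiff (𝓡∂ 2) 𝓘(ℝ, ℝ) 1 X) (hY : ContMDiff (𝓡∂ 2) 𝓘(ℝ, ℝ) 1 Y) {z : E2}
    (hz : z ∈ (e.extend (𝓡∂ 2)).target) (h0 : 0 < z 0) :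
    ContDiffAt ℝ 1 (fun y => (!₂[X ((e.extend (𝓡∂ 2)).symm y), Y ((e.extend (𝓡∂ 2)).symm y)] : E2)) z ∧
    (fderiv ℝ (fun y => (!₂[X ((e.extend (𝓡∂ 2)).symm y), Y ((e.extend (𝓡∂ 2)).symm y)] : E2)) z).det
      = Jc e X Y z := by
  have hP := contDiffAt_chart he hX hz h0
  have hQ := contDiffAt_chart he hY hz h0
  have hF : ContDiffAt ℝ 1 (fun y => (!₂[X ((e.extend (𝓡∂ 2)).symm y),
      Y ((e.extend (𝓡∂ 2)).symm y)] : E2)) z := by
    rw [contDiffAt_euclidean]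
    intro i
    fin_cases i
    · simpa using hP
    · simpa using hQ
  refine ⟨hF, ?_⟩
  have hd := hF.differentiableAt (by simp)
  rw [det_E2, comp_fderiv hd, comp_fderiv hd, comp_fderiv hd, comp_fderiv hd]
  unfold Jc
  simp

theorem local_zero {e : OpenPartialHomeomorph M HP}
    (he : e ∈ IsManifold.maximalAtlas (𝓡∂ 2) ∞ M) {X Y : M → ℝ}
    (hX : ContMDiff (𝓡∂ 2) 𝓘(ℝ, ℝ) 1 X) (hY : ContMDiff (𝓡∂ 2) 𝓘(ℝ, ℝ) 1 Y) {x₀ : M}
    (hx : x₀ ∈ e.source) (h0 : 0 < (e.extend (𝓡∂ 2) x₀) 0) (hX0 : X x₀ = 0) (hY0 : Y x₀ = 0)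
    (hJ : Jc e X Y (e.extend (𝓡∂ 2) x₀) ≠ 0) {U : Set M} (hU : IsOpen U) (hxU : x₀ ∈ U) :
    ∃ T : Set M, IsOpen T ∧ x₀ ∈ T ∧ T ⊆ U ∧ T ⊆ e.source ∧
      (∀ x ∈ T, X x = 0 → Y x = 0 → x = x₀) ∧
      ∀ (ψ : M → ℝ) (B : ℝ), Continuous ψ → (∀ x, |ψ x| ≤ B) →
        Tendsto (fun ε : ℝ => ∫ z in e.extend (𝓡∂ 2) '' T,
          ψ ((e.extend (𝓡∂ 2)).symm z) * (2 * ε ^ 2 / (X ((e.extend (𝓡∂ 2)).symm z) ^ 2 +
            Y ((e.extend (𝓡∂ 2)).symm z) ^ 2 + ε ^ 2) ^ 2) * Jc e X Y z) (𝓝[>] 0)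
          (𝓝 (2 * Real.pi * ((if 0 < Jc e X Y (e.extend (𝓡∂ 2) x₀) then 1 else -1) * ψ x₀))) := by
  have hz₀ : e.extend (𝓡∂ 2) x₀ ∈ (e.extend (𝓡∂ 2)).target := ext_mem_target hx
  have hcs : ContinuousOn (e.extend (𝓡∂ 2)).symm (e.extend (𝓡∂ 2)).target :=
    e.continuousOn_extend_symm
  obtain ⟨hF, hdet⟩ := det_eq he hX hY hz₀ h0
  have hF0 : (fun y => (!₂[X ((e.extend (𝓡∂ 2)).symm y), Y ((e.extend (𝓡∂ 2)).symm y)] : E2))
      (e.extend (𝓡∂ 2) x₀) = 0 := by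
    simp only [ext_left_inv hx, hX0, hY0]
    ext i
    fin_cases i <;> simp
  have hO : IsOpen ((interior (e.extend (𝓡∂ 2)).target ∩ (e.extend (𝓡∂ 2)).symm ⁻¹' U) ∩
      {z : E2 | 0 < z 0}) := by
    refine IsOpen.inter ?_ ?_
    · exact (hcs.mono interior_subset).isOpen_inter_preimage isOpen_interior hU
    · exact isOpen_lt continuous_const (by fun_prop)
  have hzO : e.extend (𝓡∂ 2) x₀ ∈ ((interior (e.extend (𝓡∂ 2)).target ∩
      (e.extend (𝓡∂ 2)).symm ⁻¹' U) ∩ {z : E2 | 0 < z 0}) := by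
    refine ⟨⟨(mem_interior_target_iff e hx).2 h0, ?_⟩, h0⟩
    rw [mem_preimage, ext_left_inv hx]
    exact hxU
  obtain ⟨N, hNo, hzN, hNU, hzero, hlim⟩ := planar hF hF0 (by rw [hdet]; exact hJ) hO hzO
  have hNt : N ⊆ (e.extend (𝓡∂ 2)).target := fun z hz => interior_subset (hNU hz).1.1
  have him : e.extend (𝓡∂ 2) '' (e.source ∩ e.extend (𝓡∂ 2) ⁻¹' N) = N := by
    ext z
    constructor
    · rintro ⟨x, ⟨_, hxN⟩, rfl⟩
      exact hxN
    · intro hz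
      refine ⟨(e.extend (𝓡∂ 2)).symm z, ⟨symm_mem_source (hNt hz), ?_⟩,
        (e.extend (𝓡∂ 2)).right_inv (hNt hz)⟩
      rw [mem_preimage, (e.extend (𝓡∂ 2)).right_inv (hNt hz)]
      exact hz
  refine ⟨e.source ∩ e.extend (𝓡∂ 2) ⁻¹' N, e.isOpen_extend_preimage hNo, ⟨hx, hzN⟩, ?_,
    inter_subset_left, ?_, ?_⟩
  · rintro x ⟨hxs, hxN⟩
    have := (hNU hxN).1.2
    rwa [mem_preimage, ext_left_inv hxs] at this
  · rintro x ⟨hxs, hxN⟩ hx0 hy0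
    have h := hzero _ hxN (by
      simp only [ext_left_inv hxs, hx0, hy0]
      ext i
      fin_cases i <;> simp)
    rw [← ext_left_inv hxs, h, ext_left_inv hx]
  · intro ψ B hψ hB
    rw [him]
    have h := hlim (fun z => ψ ((e.extend (𝓡∂ 2)).symm z)) B
      (hψ.comp_continuousOn (hcs.mono hNt)) (fun z _ => hB _)
    rw [hdet] at h
    simp only [ext_left_inv hx] at h
    refine h.congr (fun ε => ?_)
    refine setIntegral_congr_fun hNo.measurableSet (fun z hz => ?_)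
    have h2 := (det_eq he hX hY (hNt hz) (hNU hz).2).2
    rw [h2]
    have h3 : ‖(!₂[X ((e.extend (𝓡∂ 2)).symm z), Y ((e.extend (𝓡∂ 2)).symm z)] : E2)‖ ^ 2
        = X ((e.extend (𝓡∂ 2)).symm z) ^ 2 + Y ((e.extend (𝓡∂ 2)).symm z) ^ 2 := by
      rw [EuclideanSpace.norm_sq_eq, Fin.sum_univ_two]
      simp
    rw [h3]

end Pool.Agent.EWD
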