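import Mathlib
import Pool.Agent.EWD.GDF
import Pool.Agent.EWD.C1L

/-
SRB: the cone over the boundary curve is a null set.  [about 90 lines]

With `Φ p = p 2 • V !₂[p 0, p 1]` as in SRA and `s = {p | p 0 = 0, !₂[p 0, p 1] ∈ target}`: `V` is `C¹` on the
target (`contDiffOn_chart`), so `Φ` is `DifferentiableOn ℝ Φ s` (composition: `DifferentiableWithinAt.comp` with
`p ↦ !₂[p 0, p 1]`, which maps `s` into the target). `s` is contained in the plane `p 0 = 0`, a null set
(`Measure.addHaar_submodule` or `Measure.addHaar_affineSubspace`), so `Φ '' s` is null: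
`MeasureTheory.addHaar_image_eq_zero_of_differentiableOn_of_addHaar_eq_zero`.
-/

open MeasureTheory Set Filter Measure Manifold Bundle
open scoped ContDiff Topology ENNReal NNReal

set_option linter.unusedSectionVars false

namespace Pool.Agent.EWD

open Pool.Agent.H74.FAC

variable {M : Type} [MetricSpace M] [ChartedSpace HP M] [IsManifold (𝓡∂ 2) ∞ M] [CompactSpace M]

/-- the projection to the first two coordinates -/
private def SRB_pr (p : E3) : E2 := !₂[p 0, p 1]

private theorem SRB_pr_diff : Differentiable ℝ SRB_pr := by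
  rw [differentiable_euclidean]
  intro i
  fin_cases i
  · exact (EuclideanSpace.proj (𝕜 := ℝ) (0 : Fin 3) : E3 →L[ℝ] ℝ).differentiable
  · exact (EuclideanSpace.proj (𝕜 := ℝ) (1 : Fin 3) : E3 →L[ℝ] ℝ).differentiable

private theorem SRB_plane : volume {p : E3 | p 0 = 0} = 0 := by
  have h := Measure.addHaar_submodule (volume : Measure E3)
    (LinearMap.ker (EuclideanSpace.proj (𝕜 := ℝ) (0 : Fin 3) : E3 →L[ℝ] ℝ).toLinearMap) (by
      intro h
      have h1 : (EuclideanSpace.single (0 : Fin 3) (1 : ℝ) : E3) ∈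
          LinearMap.ker (EuclideanSpace.proj (𝕜 := ℝ) (0 : Fin 3) : E3 →L[ℝ] ℝ).toLinearMap := by
        rw [h]
        trivial
      rw [LinearMap.mem_ker] at h1
      simp at h1)
  refine measure_mono_null ?_ h
  intro p hp
  exact hp

theorem sard_bdry {e : OpenPartialHomeomorph M HP} (he : e ∈ IsManifold.maximalAtlas (𝓡∂ 2) ∞ M)
    {v : M → E3} (hv : ContMDiff (𝓡∂ 2) 𝓘(ℝ, E3) 1 v) :
    ∀ᵐ y : E3, ∀ z ∈ (e.extend (𝓡∂ 2)).target, z 0 = 0 → ∀ r : ℝ,
      y ≠ r • v ((e.extend (𝓡∂ 2)).symm z) := by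
  have hV := contDiffOn_chart he hv
  have hs0 : volume {p : E3 | p 0 = 0 ∧ SRB_pr p ∈ (e.extend (𝓡∂ 2)).target} = 0 :=
    measure_mono_null (fun p hp => hp.1) SRB_plane
  have hd : DifferentiableOn ℝ (fun p : E3 => p 2 • v ((e.extend (𝓡∂ 2)).symm (SRB_pr p)))
      {p : E3 | p 0 = 0 ∧ SRB_pr p ∈ (e.extend (𝓡∂ 2)).target} := by
    intro p hp
    have h1 : DifferentiableWithinAt ℝ (fun p : E3 => v ((e.extend (𝓡∂ 2)).symm (SRB_pr p)))
        {p : E3 | p 0 = 0 ∧ SRB_pr p ∈ (e.extend (𝓡∂ 2)).target} p :=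
      DifferentiableWithinAt.comp (g := fun y : E2 => v ((e.extend (𝓡∂ 2)).symm y)) (f := SRB_pr)
        (t := (e.extend (𝓡∂ 2)).target) p
        ((hV.differentiableOn (by norm_num)) (SRB_pr p) hp.2)
        (SRB_pr_diff p).differentiableWithinAt (fun q hq => hq.2)
    have h2 : DifferentiableAt ℝ (fun p : E3 => p 2) p :=
      (EuclideanSpace.proj (𝕜 := ℝ) (2 : Fin 3) : E3 →L[ℝ] ℝ).differentiable p
    exact h2.differentiableWithinAt.smul h1
  have h0 := MeasureTheory.addHaar_image_eq_zero_of_differentiableOn_of_addHaar_eq_zero volume hd hs0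
  rw [ae_iff]
  refine measure_mono_null ?_ h0
  intro y hy
  rw [mem_ofPred_eq] at hy
  push Not at hy
  obtain ⟨z, hz, hz0, r, hr⟩ := hy
  have hp : SRB_pr !₂[z 0, z 1, r] = z := by
    ext i
    fin_cases i <;> simp [SRB_pr]
  refine ⟨!₂[z 0, z 1, r], ⟨by simpa using hz0, by rw [hp]; exact hz⟩, ?_⟩
  simp only [hp]
  rw [hr]
  simp

end Pool.Agent.EWD
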