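import Mathlib
import Pool.Agent.EWD.GDF
import Pool.Agent.EWD.C1L
import Pool.Agent.EWD.RTA
import Pool.Agent.EWD.ONB
import Pool.Agent.EWD.SRA
import Pool.Agent.EWD.SRB

/-
SRC: for almost every `y` the zeros of `(⟪a, v⟫, ⟪b, v⟫)` are interior and nondegenerate.  [about 110 lines]

Take `y ≠ 0` outside the null sets of `sard_int`, `sard_bdry` for the finitely many charts `(A.P k).e`. Let
`a, b` be as in the hypothesis, `x ∈ (A.P k).V` with `⟪a, v x⟫ = ⟪b, v x⟫ = 0`, `z = e x` (in the target,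
`0 ≤ z 0`: `ext_nonneg`). Then `v x = r • y`, `r ≠ 0` because `v x ≠ 0`, so `y = r⁻¹ • v x`. By `sard_bdry` `z 0 ≠ 0`,
so `0 < z 0`, and by `sard_int` `tri V₀ V₁ V ≠ 0` (`V₀, V₁` the partial derivatives of `V = v ∘ e.symm` at `z`,
`V = v x`). `Jc e X Y z = ⟪a, V₀⟫ ⟪b, V₁⟫ - ⟪a, V₁⟫ ⟪b, V₀⟫` for `X = ⟪a, v ·⟫`, `Y = ⟪b, v ·⟫` (differentiate the inner
product with a constant). If it were 0, there were `(α, β) ≠ 0` with `w = α V₀ + β V₁`, `⟪a, w⟫ = ⟪b, w⟫ = 0`, so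
`w = t • y` is a multiple of `V = r • y`, and `tri V₀ V₁ V = 0` (`tri` is multilinear and alternating; in
coordinates: `nlinarith`-free, use `α tri V₀ V₁ V = tri w V₁ V = 0` and `β tri V₀ V₁ V = tri V₀ w V = 0`).
-/

open MeasureTheory Set Filter Measure Manifold Bundle
open scoped ContDiff Topology ENNReal NNReal

set_option linter.unusedSectionVars false

namespace Pool.Agent.EWD

open Pool.Agent.H74.FAC

variable {M : Type} [MetricSpace M] [ChartedSpace HP M] [IsManifold (𝓡∂ 2) ∞ M] [CompactSpace M]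
  [RiemannianBundle (fun x : M => TangentSpace (𝓡∂ 2) x)]
  [IsContMDiffRiemannianBundle (𝓡∂ 2) ∞ E2 (fun x : M => TangentSpace (𝓡∂ 2) x)]
  [IsRiemannianManifold (𝓡∂ 2) M]

private theorem SRC_left {V0 V1 V y : E3} {al be t r : ℝ} (hV : V = r • y)
    (hw : al • V0 + be • V1 = t • y) : al * tri V0 V1 V = 0 := by
  have h : ∀ i, al * V0 i + be * V1 i = t * y i := by
    intro i
    have := congrArg (fun w : E3 => w i) hw
    simpa using this
  have hv : ∀ i, V i = r * y i := by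
    intro i
    rw [hV]
    simp
  unfold tri
  rw [hv 0, hv 1, hv 2]
  linear_combination (V1 1 * (r * y 2) - V1 2 * (r * y 1)) * h 0
    - (V1 0 * (r * y 2) - V1 2 * (r * y 0)) * h 1 + (V1 0 * (r * y 1) - V1 1 * (r * y 0)) * h 2

private theorem SRC_right {V0 V1 V y : E3} {al be t r : ℝ} (hV : V = r • y)
    (hw : al • V0 + be • V1 = t • y) : be * tri V0 V1 V = 0 := by
  have h : ∀ i, al * V0 i + be * V1 i = t * y i := by
    intro i
    have := congrArg (fun w : E3 => w i) hw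
    simpa using this
  have hv : ∀ i, V i = r * y i := by
    intro i
    rw [hV]
    simp
  unfold tri
  rw [hv 0, hv 1, hv 2]
  linear_combination (V0 2 * (r * y 1) - V0 1 * (r * y 2)) * h 0
    + (V0 0 * (r * y 2) - V0 2 * (r * y 0)) * h 1 + (V0 1 * (r * y 0) - V0 0 * (r * y 1)) * h 2

private theorem SRC_ker (p q p' q' : ℝ) (h : p * q' - q * p' = 0) :
    ∃ al be : ℝ, (al ≠ 0 ∨ be ≠ 0) ∧ al * p + be * q = 0 ∧ al * p' + be * q' = 0 := by
  by_cases h1 : p = 0 ∧ q = 0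
  · obtain ⟨rfl, rfl⟩ := h1
    by_cases h2 : p' = 0 ∧ q' = 0
    · obtain ⟨rfl, rfl⟩ := h2
      exact ⟨1, 0, Or.inl one_ne_zero, by simp, by simp⟩
    · refine ⟨q', -p', ?_, by simp, by ring⟩
      by_contra hc
      apply h2
      simp only [not_or, not_not, neg_eq_zero] at hc
      exact ⟨hc.2, hc.1⟩
  · refine ⟨q, -p, ?_, by ring, by linarith⟩
    by_contra hc
    apply h1
    simp only [not_or, not_not, neg_eq_zero] at hc
    exact ⟨hc.2, hc.1⟩

private theorem SRC_lin {a b y V V0 V1 : E3} {r : ℝ}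
    (hab : ∀ w : E3, inner ℝ a w = (0 : ℝ) → inner ℝ b w = (0 : ℝ) → ∃ r : ℝ, w = r • y)
    (hV : V = r • y)
    (hdet : inner ℝ a V0 * inner ℝ b V1 - inner ℝ a V1 * inner ℝ b V0 = (0 : ℝ)) :
    tri V0 V1 V = 0 := by
  obtain ⟨al, be, hne, h1, h2⟩ := SRC_ker _ _ _ _ hdet
  obtain ⟨t, ht⟩ := hab (al • V0 + be • V1)
    (by rw [inner_add_right, inner_smul_right, inner_smul_right]; exact h1)
    (by rw [inner_add_right, inner_smul_right, inner_smul_right]; exact h2)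
  rcases hne with h | h
  · exact (mul_eq_zero.1 (SRC_left hV ht)).resolve_left h
  · exact (mul_eq_zero.1 (SRC_right hV ht)).resolve_left h

theorem sard_zeros (A : Cov M) {v : M → E3} (hv : ContMDiff (𝓡∂ 2) 𝓘(ℝ, E3) 1 v)
    (hv0 : ∀ x, v x ≠ 0) : ∀ᵐ y : E3, y ≠ 0 ∧ ∀ a b : E3,
      (∀ w : E3, inner ℝ a w = (0 : ℝ) → inner ℝ b w = (0 : ℝ) → ∃ r : ℝ, w = r • y) →
      ∀ x, inner ℝ a (v x) = (0 : ℝ) → inner ℝ b (v x) = (0 : ℝ) → ∀ k, x ∈ (A.P k).V →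
        0 < ((A.P k).e.extend (𝓡∂ 2) x) 0 ∧
        Jc (A.P k).e (fun x => inner ℝ a (v x)) (fun x => inner ℝ b (v x))
          ((A.P k).e.extend (𝓡∂ 2) x) ≠ 0 := by
  have h1 : ∀ᵐ y : E3, ∀ k, ∀ z ∈ ((A.P k).e.extend (𝓡∂ 2)).target, 0 < z 0 → ∀ r : ℝ,
      y = r • v (((A.P k).e.extend (𝓡∂ 2)).symm z) →
      tri (fderiv ℝ (fun y => v (((A.P k).e.extend (𝓡∂ 2)).symm y)) z (bv 0))
        (fderiv ℝ (fun y => v (((A.P k).e.extend (𝓡∂ 2)).symm y)) z (bv 1))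
        (v (((A.P k).e.extend (𝓡∂ 2)).symm z)) ≠ 0 :=
    ae_all_iff.2 fun k => sard_int (A.P k).he hv
  have h2 : ∀ᵐ y : E3, ∀ k, ∀ z ∈ ((A.P k).e.extend (𝓡∂ 2)).target, z 0 = 0 → ∀ r : ℝ,
      y ≠ r • v (((A.P k).e.extend (𝓡∂ 2)).symm z) :=
    ae_all_iff.2 fun k => sard_bdry (A.P k).he hv
  have h3 : ∀ᵐ y : E3, y ≠ 0 := by
    rw [ae_iff]
    have : {a : E3 | ¬ a ≠ 0} = {0} := by
      ext a
      simp
    rw [this]
    exact measure_singleton 0
  filter_upwards [h1, h2, h3] with y hy1 hy2 hy3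
  refine ⟨hy3, ?_⟩
  intro a b hab x hax hbx k hk
  set e := (A.P k).e with he
  have hxs : x ∈ e.source := (A.P k).V_sub hk
  have hxs' : x ∈ (e.extend (𝓡∂ 2)).source := by
    rw [OpenPartialHomeomorph.extend_source]
    exact hxs
  have hz : e.extend (𝓡∂ 2) x ∈ (e.extend (𝓡∂ 2)).target := (e.extend (𝓡∂ 2)).map_source hxs'
  have hxz : (e.extend (𝓡∂ 2)).symm (e.extend (𝓡∂ 2) x) = x := (e.extend (𝓡∂ 2)).left_inv hxs'
  set z := e.extend (𝓡∂ 2) x with hzdef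
  obtain ⟨r, hr⟩ := hab (v x) hax hbx
  have hr0 : r ≠ 0 := by
    rintro rfl
    apply hv0 x
    rw [hr, zero_smul]
  have hy : y = r⁻¹ • v x := by
    rw [hr, smul_smul, inv_mul_cancel₀ hr0, one_smul]
  have hpos : 0 < z 0 := by
    refine lt_of_le_of_ne (ext_nonneg e x) ?_
    intro h0
    apply hy2 k z hz h0.symm r⁻¹
    rw [hxz]
    exact hy
  refine ⟨hpos, ?_⟩
  intro hJ
  have hd : DifferentiableAt ℝ (fun y => v ((e.extend (𝓡∂ 2)).symm y)) z :=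
    (contDiffAt_chart (A.P k).he hv hz hpos).differentiableAt one_ne_zero
  have hin : ∀ c w : E3, fderiv ℝ (fun y => inner ℝ c (v ((e.extend (𝓡∂ 2)).symm y))) z
      = (innerSL ℝ c).comp (fderiv ℝ (fun y => v ((e.extend (𝓡∂ 2)).symm y)) z) := by
    intro c _
    have h := ((innerSL ℝ c).hasFDerivAt.comp z hd.hasFDerivAt).fderiv
    exact h
  have htri : tri (fderiv ℝ (fun y => v ((e.extend (𝓡∂ 2)).symm y)) z (bv 0))
        (fderiv ℝ (fun y => v ((e.extend (𝓡∂ 2)).symm y)) z (bv 1))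
        (v ((e.extend (𝓡∂ 2)).symm z)) = 0 := by
    rw [hxz]
    refine SRC_lin hab hr ?_
    unfold Jc at hJ
    rw [hin a 0, hin b 0] at hJ
    exact hJ
  refine hy1 k z hz hpos r⁻¹ ?_ htri
  rw [hxz]
  exact hy

end Pool.Agent.EWD
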