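import Mathlib
import Pool.Agent.EWD.GDF
import Pool.Agent.EWD.LPA
import Pool.Agent.EWD.RUL
import Pool.Agent.EWD.WTR
import Pool.Agent.EWD.LOC
import Pool.Agent.EWD.STO
import Pool.Agent.EWD.CAL

/-
VTX: a `C¹` pair with nondegenerate zeros has the vortex formula.  [about 170 lines]

`C = cal A hφ`. `Z₀ = {x | X x = 0 ∧ Y x = 0}` is closed, and every point of it is isolated in it
(`local_zero` with `U = univ`), so it is finite (compact and discrete: cover `M` by the open sets `T_x`,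
`x ∈ Z₀`, and the open complement of `Z₀`). Let `Z` be the finset. For `z ∈ Z` choose `l z` with
`z ∈ (A.P (l z)).V` (`A.cover`), `s z = if 0 < Jc (A.P (l z)).e X Y (e z) then 1 else -1`.
Choose disjoint open sets `U_z ∋ z`, `U_z ⊆ V_{l z}` (Hausdorff, finitely many points) and `T_z ⊆ U_z` from
`local_zero`. Put `R = (⋃ T_z)ᶜ`, closed, hence compact; on `R` the continuous function `q = X² + Y²` is
positive, so `q ≥ c > 0` on `R` (or `R = ∅`).
For `ε > 0` let `f_ε = ψ · 2ε²/(q + ε²)²` (continuous, bounded for fixed `ε`). By `wint`: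
 `∫ ψ h_ε wed = BT A f_ε univ X Y = ∑_z BT A f_ε T_z X Y + BT A f_ε R X Y` (`BT_union`, induction on `Z`).
 `BT A f_ε T_z = ∫_{e(T_z)} ...` (`BT_loc`) `→ 2π s z ψ z` (`local_zero`), and
 `|BT A f_ε R| ≤ (B 2ε²/c²) K → 0` (`BT_le`).
-/

open MeasureTheory Set Filter Measure Manifold Bundle
open scoped ContDiff Topology ENNReal NNReal

set_option linter.unusedSectionVars false

namespace Pool.Agent.EWD

open Pool.Agent.H74.FAC

variable {M : Type} [MetricSpace M] [ChartedSpace HP M] [IsManifold (𝓡∂ 2) ∞ M] [CompactSpace M]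

private theorem VTX_empty (A : Cov M) (f : M → ℝ) (u w : M → ℝ) : BT A f ∅ u w = 0 := by
  unfold BT
  simp

/-- additivity over finitely many disjoint sets -/
private theorem VTX_sum (A : Cov M) {f : M → ℝ} (hf : Measurable[borel M] f) {B : ℝ}
    (hB : ∀ x, |f x| ≤ B) (Z : Finset M) (T : M → Set M)
    (hT : ∀ z ∈ Z, MeasurableSet[borel M] (T z))
    (hd : (Z : Set M).PairwiseDisjoint T) {u w : M → ℝ} (hu : Lip u) (hw : Lip w) :
    BT A f (⋃ z ∈ Z, T z) u w = ∑ z ∈ Z, BT A f (T z) u w := by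
  classical
  letI : MeasurableSpace M := borel M
  haveI : BorelSpace M := ⟨rfl⟩
  induction Z using Finset.induction_on with
  | empty => simp [VTX_empty]
  | insert a Z ha ih =>
    have hT' : ∀ z ∈ Z, MeasurableSet[borel M] (T z) :=
      fun z hz => hT z (Finset.mem_insert_of_mem hz)
    have hd' : (Z : Set M).PairwiseDisjoint T :=
      hd.subset (by simp)
    rw [Finset.set_biUnion_insert, Finset.sum_insert ha, ← ih hT' hd']
    apply BT_union A hf hB (hT a (Finset.mem_insert_self _ _))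
      (Finset.measurableSet_biUnion Z hT') _ hu hw
    rw [Set.disjoint_iUnion₂_right]
    intro z hz
    refine hd (Finset.mem_coe.2 (Finset.mem_insert_self _ _))
      (Finset.mem_coe.2 (Finset.mem_insert_of_mem hz)) ?_
    rintro rfl
    exact ha hz

/-- the bound of the weight away from the zeros -/
private theorem VTX_weight {ψ q c ε B : ℝ} (hψ : |ψ| ≤ B) (hB : 0 ≤ B) (hc : 0 < c) (hq : c ≤ q) :
    |ψ * (2 * ε ^ 2 / (q + ε ^ 2) ^ 2)| ≤ B * (2 * ε ^ 2 / c ^ 2) := by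
  rw [abs_mul]
  have h1 : 0 ≤ 2 * ε ^ 2 / (q + ε ^ 2) ^ 2 := by positivity
  rw [abs_of_nonneg h1]
  have h2 : c ^ 2 ≤ (q + ε ^ 2) ^ 2 := by
    apply pow_le_pow_left₀ hc.le
    nlinarith [sq_nonneg ε]
  have h3 : 2 * ε ^ 2 / (q + ε ^ 2) ^ 2 ≤ 2 * ε ^ 2 / c ^ 2 :=
    div_le_div_of_nonneg_left (by positivity) (by positivity) h2
  exact mul_le_mul hψ h3 h1 hB

variable
  [RiemannianBundle (fun x : M => TangentSpace (𝓡∂ 2) x)]
  [IsContMDiffRiemannianBundle (𝓡∂ 2) ∞ E2 (fun x : M => TangentSpace (𝓡∂ 2) x)]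
  [IsRiemannianManifold (𝓡∂ 2) M]

theorem vort_of_nondeg [Nonempty M] (A : Cov M) {φ : S1 → M} (hφ : IsometricFilling φ)
    {X Y : M → ℝ} (hX : ContMDiff (𝓡∂ 2) 𝓘(ℝ, ℝ) 1 X) (hY : ContMDiff (𝓡∂ 2) 𝓘(ℝ, ℝ) 1 Y)
    (lX : Lip X) (lY : Lip Y) (oX : OddB (gam φ) X) (oY : OddB (gam φ) Y)
    (hz : ∀ x, X x = 0 → Y x = 0 → ∀ k, x ∈ (A.P k).V →
      0 < ((A.P k).e.extend (𝓡∂ 2) x) 0 ∧ Jc (A.P k).e X Y ((A.P k).e.extend (𝓡∂ 2) x) ≠ 0) :
    ∃ (Z : Finset M) (s : M → ℝ), (cal A hφ).Vort X Y Z s := by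
  classical
  letI : MeasurableSpace M := borel M
  haveI : BorelSpace M := ⟨rfl⟩
  have cX : Continuous X := lX.cont
  have cY : Continuous Y := lY.cont
  choose l hl using A.cover
  -- finitely many zeros
  obtain ⟨Z, hZ⟩ : ∃ Z : Finset M, ∀ z, z ∈ Z ↔ X z = 0 ∧ Y z = 0 := by
    have hcl : IsClosed {x | X x = 0 ∧ Y x = 0} := by
      have h1 : IsClosed {x | X x = 0} := isClosed_eq cX continuous_const
      have h2 : IsClosed {x | Y x = 0} := isClosed_eq cY continuous_const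
      exact h1.inter h2
    have hiso : ∀ x : M, ∃ T : Set M, (X x = 0 ∧ Y x = 0) → IsOpen T ∧ x ∈ T ∧
        ∀ y ∈ T, X y = 0 → Y y = 0 → y = x := by
      intro x
      by_cases hx : X x = 0 ∧ Y x = 0
      · obtain ⟨h0, hJ⟩ := hz x hx.1 hx.2 (l x) (hl x)
        obtain ⟨T, hT1, hT2, -, -, hT3, -⟩ := local_zero (A.P (l x)).he hX hY
          ((A.P (l x)).V_sub (hl x)) h0 hx.1 hx.2 hJ isOpen_univ (mem_univ x)
        exact ⟨T, fun _ => ⟨hT1, hT2, hT3⟩⟩
      · exact ⟨univ, fun h => absurd h hx⟩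
    choose T hT using hiso
    obtain ⟨t, ht1, ht2⟩ := hcl.isCompact.elim_nhds_subcover T
      (fun x hx => (hT x hx).1.mem_nhds (hT x hx).2.1)
    refine ⟨t, fun z => ⟨fun h => ht1 z h, fun h => ?_⟩⟩
    obtain ⟨x, hx, hzx⟩ := mem_iUnion₂.1 (ht2 h)
    have : z = x := (hT x (ht1 x hx)).2.2 z hzx h.1 h.2
    rw [this]
    exact hx
  -- disjoint neighbourhoods
  obtain ⟨U, hU, hUd⟩ := Z.finite_toSet.t2_separation
  have hloc : ∀ z : M, ∃ T : Set M, z ∈ Z → IsOpen T ∧ z ∈ T ∧ T ⊆ U z ∩ (A.P (l z)).V ∧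
      ∀ (ψ : M → ℝ) (B : ℝ), Continuous ψ → (∀ x, |ψ x| ≤ B) →
        Tendsto (fun ε : ℝ => ∫ y in (A.P (l z)).e.extend (𝓡∂ 2) '' T,
          ψ (((A.P (l z)).e.extend (𝓡∂ 2)).symm y) *
            (2 * ε ^ 2 / (X (((A.P (l z)).e.extend (𝓡∂ 2)).symm y) ^ 2 +
            Y (((A.P (l z)).e.extend (𝓡∂ 2)).symm y) ^ 2 + ε ^ 2) ^ 2) *
            Jc (A.P (l z)).e X Y y) (𝓝[>] 0)
          (𝓝 (2 * Real.pi * ((if 0 < Jc (A.P (l z)).e X Y ((A.P (l z)).e.extend (𝓡∂ 2) z)
            then 1 else -1) * ψ z))) := by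
    intro z
    by_cases hzZ : z ∈ Z
    · have hx := (hZ z).1 hzZ
      obtain ⟨h0, hJ⟩ := hz z hx.1 hx.2 (l z) (hl z)
      obtain ⟨T, hT1, hT2, hT3, -, -, hT6⟩ := local_zero (A.P (l z)).he hX hY
        ((A.P (l z)).V_sub (hl z)) h0 hx.1 hx.2 hJ
        ((hU z).2.inter (A.P (l z)).V_open) ⟨(hU z).1, hl z⟩
      exact ⟨T, fun _ => ⟨hT1, hT2, hT3, hT6⟩⟩
    · exact ⟨univ, fun h => absurd h hzZ⟩
  choose T hT using hloc
  refine ⟨Z, fun z => if 0 < Jc (A.P (l z)).e X Y ((A.P (l z)).e.extend (𝓡∂ 2) z)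
    then 1 else -1, ?_⟩
  refine ⟨lX, lY, oX, oY, ?_, ?_, hZ, ?_⟩
  · -- no zeros on the boundary
    intro t
    by_contra hneg
    have hx : X (gam φ t) = 0 ∧ Y (gam φ t) = 0 := by
      have h1 := sq_nonneg (X (gam φ t))
      have h2 := sq_nonneg (Y (gam φ t))
      constructor
      · apply pow_eq_zero_iff two_ne_zero |>.1
        linarith
      · apply pow_eq_zero_iff two_ne_zero |>.1
        linarith
    obtain ⟨h0, -⟩ := hz _ hx.1 hx.2 (l (gam φ t)) (hl _)
    have hb : gam φ t ∈ (𝓡∂ 2).boundary M := by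
      rw [← hφ.range_eq]
      exact mem_range_self _
    rw [boundary_iff (A.P (l (gam φ t))).he ((A.P (l (gam φ t))).V_sub (hl _))] at hb
    linarith
  · intro z _
    show (if _ then (1 : ℝ) else -1) = 1 ∨ (if _ then (1 : ℝ) else -1) = -1
    split_ifs <;> simp
  · -- the limit
    intro ψ hψ
    obtain ⟨B, hB0, hB⟩ := hψ.bdd
    have cψ : Continuous ψ := hψ.cont
    set R : Set M := (⋃ z ∈ Z, T z)ᶜ with hR
    have hTo : ∀ z ∈ Z, IsOpen (T z) := fun z hz => (hT z hz).1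
    have hRc : IsClosed R := by
      rw [hR]
      exact (isOpen_biUnion hTo).isClosed_compl
    have cq : Continuous fun x => X x ^ 2 + Y x ^ 2 := (cX.pow 2).add (cY.pow 2)
    have hpos : ∀ x ∈ R, 0 < X x ^ 2 + Y x ^ 2 := by
      intro x hx
      by_contra hneg
      have h1 := sq_nonneg (X x)
      have h2 := sq_nonneg (Y x)
      have hxZ : x ∈ Z := by
        rw [hZ]
        constructor
        · apply pow_eq_zero_iff two_ne_zero |>.1
          linarith
        · apply pow_eq_zero_iff two_ne_zero |>.1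
          linarith
      exact hx (mem_iUnion₂.2 ⟨x, hxZ, (hT x hxZ).2.1⟩)
    obtain ⟨c, hc0, hc⟩ := hRc.isCompact.exists_forall_le' cq.continuousOn hpos
    have hdisj : (Z : Set M).PairwiseDisjoint T := by
      intro a ha b hb hab
      exact (hUd ha hb hab).mono ((hT a ha).2.2.1.trans inter_subset_left)
        ((hT b hb).2.2.1.trans inter_subset_left)
    obtain ⟨K, hK0, hK⟩ := BT_le A lX lY
    -- the weights
    set f : ℝ → M → ℝ := fun ε x => ψ x * (2 * ε ^ 2 / (X x ^ 2 + Y x ^ 2 + ε ^ 2) ^ 2) with hf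
    have hfc : ∀ ε : ℝ, 0 < ε → Continuous (f ε) := by
      intro ε hε
      refine cψ.mul (continuous_const.div ((cq.add continuous_const).pow 2) ?_)
      intro x
      have : 0 < X x ^ 2 + Y x ^ 2 + ε ^ 2 := by positivity
      positivity
    have hfb : ∀ ε : ℝ, 0 < ε → ∃ B', ∀ x, |f ε x| ≤ B' := by
      intro ε hε
      obtain ⟨B', hB'⟩ := isCompact_univ.exists_bound_of_continuousOn (hfc ε hε).continuousOn
      exact ⟨B', fun x => hB' x (mem_univ x)⟩
    have hdec : ∀ ε : ℝ, 0 < ε → BT A (f ε) univ X Y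
        = ∑ z ∈ Z, BT A (f ε) (T z) X Y + BT A (f ε) R X Y := by
      intro ε hε
      obtain ⟨B', hB'⟩ := hfb ε hε
      have hm : Measurable[borel M] (f ε) := (hfc ε hε).measurable
      have hTo' : IsOpen (⋃ z ∈ Z, T z) := isOpen_biUnion hTo
      rw [← VTX_sum A hm hB' Z T (fun z hz => (hTo z hz).measurableSet) hdisj lX lY,
        ← BT_union A hm hB' hTo'.measurableSet hRc.measurableSet
          disjoint_compl_right lX lY, hR, union_compl_self]
    have hRlim : Tendsto (fun ε : ℝ => BT A (f ε) R X Y) (𝓝[>] 0) (𝓝 0) := by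
      have h1 : Tendsto (fun ε : ℝ => B * (2 * ε ^ 2 / c ^ 2) * K) (𝓝[>] 0) (𝓝 0) := by
        have : Continuous fun ε : ℝ => B * (2 * ε ^ 2 / c ^ 2) * K := by fun_prop
        have h2 := this.tendsto 0
        simp only [ne_eq, OfNat.ofNat_ne_zero, not_false_eq_true, zero_pow, mul_zero, zero_div,
          zero_mul] at h2
        exact h2.mono_left nhdsWithin_le_nhds
      apply squeeze_zero_norm' _ h1
      filter_upwards [self_mem_nhdsWithin] with ε hε
      obtain ⟨B', hB'⟩ := hfb ε hε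
      rw [Real.norm_eq_abs]
      exact hK (f ε) (B * (2 * ε ^ 2 / c ^ 2)) B' R (hfc ε hε).measurable hB' hRc.measurableSet
        (by positivity) (fun x hx => VTX_weight (hB x) hB0 hc0 (hc x hx))
    have hTlim : ∀ z ∈ Z, Tendsto (fun ε : ℝ => BT A (f ε) (T z) X Y) (𝓝[>] 0)
        (𝓝 (2 * Real.pi * ((if 0 < Jc (A.P (l z)).e X Y ((A.P (l z)).e.extend (𝓡∂ 2) z)
            then 1 else -1) * ψ z))) := by
      intro z hzZ
      refine ((hT z hzZ).2.2.2 ψ B cψ hB).congr' ?_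
      filter_upwards [self_mem_nhdsWithin] with ε hε
      obtain ⟨B', hB'⟩ := hfb ε hε
      rw [BT_loc A (hfc ε hε).measurable hB' (hTo z hzZ).measurableSet (l z)
        ((hT z hzZ).2.2.1.trans inter_subset_right) lX lY]
    have hsum := (tendsto_finsetSum Z hTlim).add hRlim
    rw [add_zero, ← Finset.mul_sum] at hsum
    refine hsum.congr' ?_
    filter_upwards [self_mem_nhdsWithin] with ε hε
    rw [← hdec ε hε]
    exact (wint A (hfc ε hε) lX lY).symm

end Pool.Agent.EWD
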