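import Mathlib
import Pool.Agent.EWD.GDF
import Pool.Agent.EWD.LPA
import Pool.Agent.EWD.CAL
import Pool.Agent.EWD.ENE
import Pool.Agent.EWD.ONB
import Pool.Agent.EWD.SRC
import Pool.Agent.EWD.VTX
import Pool.Agent.EWD.FNA

/-
MFN: the theorem on the manifold (helper81).
-/

open MeasureTheory Set Filter Measure Manifold Bundle
open scoped ContDiff Topology ENNReal NNReal

set_option linter.unusedSectionVars false

namespace Pool.Agent.EWD

open Pool.Agent.H74.FAC

section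

variable {M : Type} [MetricSpace M]

theorem mfn_lip_cm {N : ℕ} {u : M → EuclideanSpace ℝ (Fin N)} (hu : ∃ L : ℝ≥0, LipschitzWith L u)
    (i : Fin N) : Lip (cm u i) := by
  obtain ⟨L, hL⟩ := hu
  refine ⟨L, LipschitzWith.of_dist_le_mul fun x y => ?_⟩
  refine le_trans ?_ (hL.dist_le_mul x y)
  unfold cm
  rw [Real.dist_eq, dist_eq_norm]
  have h := PiLp.norm_apply_le (u x - u y) i
  simpa using h

theorem mfn_vv {n : ℕ} (u : M → EuclideanSpace ℝ (Fin (n + 3))) (x : M) :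
    ‖vv (cm u) x‖ = √(u x 0 ^ 2 + u x 1 ^ 2 + u x 2 ^ 2) := by
  rw [EuclideanSpace.norm_eq]
  congr 1
  simp [vv, cm, Fin.sum_univ_three]

/-- the linear map that gives the first three components -/
noncomputable def mfn_pr (n : ℕ) : EuclideanSpace ℝ (Fin (n + 3)) →L[ℝ] E3 :=
  LinearMap.toContinuousLinearMap
    { toFun := fun w => !₂[w 0, w 1, w 2]
      map_add' := fun a b => by
        ext i; fin_cases i <;> simp
      map_smul' := fun c a => by
        ext i; fin_cases i <;> simp }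

theorem mfn_pr_apply {n : ℕ} (u : M → EuclideanSpace ℝ (Fin (n + 3))) (x : M) :
    vv (cm u) x = mfn_pr n (u x) := rfl

end

variable {M : Type} [MetricSpace M] [ChartedSpace HP M] [IsManifold (𝓡∂ 2) ∞ M] [CompactSpace M]
  [RiemannianBundle (fun x : M => TangentSpace (𝓡∂ 2) x)]
  [IsContMDiffRiemannianBundle (𝓡∂ 2) ∞ E2 (fun x : M => TangentSpace (𝓡∂ 2) x)]
  [IsRiemannianManifold (𝓡∂ 2) M]

theorem main_mfd (ho : Orientable M) {φ : S1 → M} (hφ : IsometricFilling φ) {n : ℕ} {m : ℝ}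
    (hm : 0 < m)
    (H : ∀ δ : ℝ, 0 < δ → ∃ u : M → EuclideanSpace ℝ (Fin (n + 3)),
      ContMDiff (𝓡∂ 2) 𝓘(ℝ, EuclideanSpace ℝ (Fin (n + 3))) 1 u ∧ (∃ L : ℝ≥0, LipschitzWith L u) ∧
      (∀ x, ‖u x‖ = 1) ∧ (∀ t : ℝ, u (φ ((t + Real.pi : ℝ) : S1)) = -u (φ (t : S1))) ∧
      (∀ x, m ≤ √(u x 0 ^ 2 + u x 1 ^ 2 + u x 2 ^ 2)) ∧
      ∀ w : M → EuclideanSpace ℝ (Fin (n + 4)), (∃ L : ℝ≥0, LipschitzWith L w) →
        (∀ x, ‖w x‖ = 1) → (∀ t : ℝ, w (φ ((t + Real.pi : ℝ) : S1)) = -w (φ (t : S1))) →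
        energy u ≤ energy w + ENNReal.ofReal δ) :
    ENNReal.ofReal (2 * Real.pi * m) ≤ area M := by
  obtain ⟨A⟩ := exists_cov ho
  haveI : Nonempty M := ⟨φ 0⟩
  refine le_trans (ENNReal.ofReal_le_ofReal ?_) (cal_vol_le A hφ)
  refine final_abs (cal A hφ) (bd_gam hφ) (n := n) hm ?_
  intro δ hδ
  obtain ⟨u, hC, hL, hu1, hodd, hmu, hmin⟩ := H δ hδ
  have hlip : ∀ i, Lip (cm u i) := mfn_lip_cm hL
  have hoddi : ∀ i, OddB (gam φ) (cm u i) := by
    intro i t
    unfold cm gam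
    rw [hodd t]
    simp
  have hSph : Sph (gam φ) (cm u) := by
    refine ⟨hlip, fun x => ?_, hoddi⟩
    have h := hu1 x
    rw [EuclideanSpace.norm_eq, Real.sqrt_eq_one] at h
    simpa [cm] using h
  have hvv : ∀ x, m ≤ ‖vv (cm u) x‖ := fun x => by rw [mfn_vv]; exact hmu x
  refine ⟨cm u, hSph, ?_, hvv, ?_⟩
  · refine nearMin_of_energy A hφ hlip hδ.le ?_
    intro w hw hw1 hwo
    refine hmin w ?_ hw1 hwo
    choose L hL using hw
    refine ⟨∑ i, L i, LipschitzWith.of_dist_le_mul fun x y => ?_⟩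
    rw [dist_eq_norm]
    have h1 : ‖w x - w y‖ ≤ ∑ i, ‖(w x - w y) i‖ := by
      rw [EuclideanSpace.norm_eq]
      apply Real.sqrt_le_iff.2
      refine ⟨Finset.sum_nonneg fun i _ => norm_nonneg _, ?_⟩
      exact Finset.sum_sq_le_sq_sum_of_nonneg fun i _ => norm_nonneg _
    refine h1.trans ?_
    rw [NNReal.coe_sum, Finset.sum_mul]
    apply Finset.sum_le_sum
    intro i _
    have := (hL i).dist_le_mul x y
    unfold cm at this
    rw [Real.dist_eq] at this
    simpa using this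
  · have hv : ContMDiff (𝓡∂ 2) 𝓘(ℝ, E3) 1 (vv (cm u)) := by
      have h1 : vv (cm u) = fun x => mfn_pr n (u x) := funext fun x => mfn_pr_apply u x
      rw [h1]
      exact (mfn_pr n).contDiff.contMDiff.comp hC
    have hv0 : ∀ x, vv (cm u) x ≠ 0 := by
      intro x h
      have := hvv x
      rw [h, norm_zero] at this
      linarith
    filter_upwards [sard_zeros A hv hv0] with y hy
    obtain ⟨hy0, hy1⟩ := hy
    obtain ⟨a, b, ha, hb, hab, hq, hr⟩ := exists_ab hy0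
    have eX : lin (emb a) (cm u) = fun x => inner ℝ a (vv (cm u) x) :=
      funext fun x => lin_emb a (cm u) x
    have eY : lin (emb b) (cm u) = fun x => inner ℝ b (vv (cm u) x) :=
      funext fun x => lin_emb b (cm u) x
    have cX : ∀ c : E3, ContMDiff (𝓡∂ 2) 𝓘(ℝ, ℝ) 1 (fun x => (inner ℝ c (vv (cm u) x) : ℝ)) := by
      intro c
      exact (innerSL ℝ c).contDiff.contMDiff.comp hv
    have oX : ∀ c : Fin (n + 3) → ℝ, OddB (gam φ) (lin c (cm u)) := by
      intro c t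
      unfold lin
      rw [← Finset.sum_neg_distrib]
      apply Finset.sum_congr rfl
      intro i _
      rw [hoddi i t]
      ring
    obtain ⟨Z, s, hV⟩ := vort_of_nondeg A hφ (X := lin (emb a) (cm u)) (Y := lin (emb b) (cm u))
      (by rw [eX]; exact cX a) (by rw [eY]; exact cX b) (lip_lin _ hlip) (lip_lin _ hlip)
      (oX _) (oX _) (by
        intro x h1 h2 k hk
        rw [eX] at h1 ⊢
        rw [eY] at h2 ⊢
        exact hy1 a b hr x h1 h2 k hk)
    refine ⟨emb a, emb b, Z, s, ortho_emb ha hb hab, ?_, hV⟩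
    intro x
    unfold qf
    rw [lin_emb, lin_emb]
    exact hq _

end Pool.Agent.EWD
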